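import Pool.Agent.Work.MP_1ce445_fx.InterfaceP

/-!
Assembly of the staircase theorem from the statements of the blocks.
-/

namespace Pool.Agent.Work.MP_1ce445_fx

open Finset Pool.Agent.Work.MP_1ce445_co_56 Pool.Agent.Work.MP_1ce445_lin

lemma Asm_five {a n k : ℕ} {δ : ℝ} (ha : a ≠ 0) (h5 : δ ≤ (1 / 5) ^ a) (b : ℕ) (hb : b ≤ a)
    (hn : 1 ≤ n) (h : (k : ℝ) ^ a ≤ δ * (n : ℝ) ^ b) : 5 * k ≤ n := by
  have hn1 : (1 : ℝ) ≤ n := by exact_mod_cast hn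
  have h1 : (k : ℝ) ^ a ≤ ((n : ℝ) / 5) ^ a := by
    calc (k : ℝ) ^ a ≤ δ * (n : ℝ) ^ b := h
      _ ≤ (1 / 5) ^ a * (n : ℝ) ^ b := mul_le_mul_of_nonneg_right h5 (by positivity)
      _ ≤ (1 / 5) ^ a * (n : ℝ) ^ a :=
          mul_le_mul_of_nonneg_left (pow_le_pow_right₀ hn1 hb) (by positivity)
      _ = ((n : ℝ) / 5) ^ a := by rw [← mul_pow]; congr 1; ring
  have h2 : (k : ℝ) ≤ (n : ℝ) / 5 := le_of_pow_le_pow_left₀ ha (by positivity) h1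
  have h3 : (5 : ℝ) * k ≤ n := by linarith
  exact_mod_cast h3

/-- from the upper bound `27 P ≤ N^(k-3) X³`, the lower bound and `27 T = X³` -/
lemma Asm_eq {p a T X : ℕ} (hu : 27 * p ≤ a * X ^ 3) (hT : 27 * T = X ^ 3) (hl : a * T ≤ p) :
    p = a * T := by
  refine le_antisymm ?_ hl
  rw [← hT] at hu
  have h3 : a * (27 * T) = 27 * (a * T) := by ring
  rw [h3] at hu
  exact Nat.le_of_mul_le_mul_left hu (by norm_num)

theorem Asm_stair (hUUM : Stmt_UUM) (hUUN : Stmt_UUN) (hLOM : Stmt_LOM) (hNUN : Stmt_NUN) :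
    ∀ m : ℕ, 2 ≤ m → ∃ (C δ : ℝ) (n0 : ℕ), 0 < δ ∧ ∀ n k : ℕ, n0 ≤ n → 3 ≤ k →
      ((k : ℝ) ^ m ≤ δ * (n : ℝ) ^ (m - 1) → 27 * P n k ≤ NN n ^ (k - 3) * (n + 6 * m) ^ 3) ∧
      ((k : ℝ) ^ (2 * m - 1) ≤ δ * (n : ℝ) ^ (2 * m - 3) →
        27 * P n k ≤ NN n ^ (k - 3) * (NN n + 6 * m) ^ 3) ∧
      (C ≤ k → C * (n : ℝ) ^ (m - 2) ≤ (k : ℝ) ^ (m - 1) → 5 * k ≤ n →
        NN n ^ (k - 3) * TTm m (n / 2) ≤ P n k) ∧
      (C ≤ k → C * (n : ℝ) ^ (m - 2) ≤ (k : ℝ) ^ (m - 1) →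
        (k : ℝ) ^ m ≤ δ * (n : ℝ) ^ (m - 1) → n % 6 = 0 →
        P n k = n ^ (k - 3) * (n / 3 + 2 * m) ^ 3) ∧
      (C ≤ k → C * (n : ℝ) ^ (m - 2) ≤ (k : ℝ) ^ (m - 1) →
        (k : ℝ) ^ (2 * m - 1) ≤ δ * (n : ℝ) ^ (2 * m - 3) → (n % 2 = 0 ∨ n % 6 = 1) →
        P n k = NN n ^ (k - 3) * TTm m (n / 2)) := by
  intro m hm
  obtain ⟨δ1, n1, hδ1, hU⟩ := hUUM m hm
  obtain ⟨δ2, n2, hδ2, hV⟩ := hUUN m hm
  obtain ⟨C, n3, hL⟩ := hLOM m hm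
  have h5a : (0 : ℝ) < (1 / 5) ^ (2 * m - 1) := by positivity
  refine ⟨C, min (min δ1 δ2) ((1 / 5) ^ (2 * m - 1)), n1 + n2 + n3 + 1,
    lt_min (lt_min hδ1 hδ2) h5a, fun n k hn hk => ?_⟩
  set δ : ℝ := min (min δ1 δ2) ((1 / 5) ^ (2 * m - 1)) with hδ
  have hd1 : δ ≤ δ1 := (min_le_left _ _).trans (min_le_left _ _)
  have hd2 : δ ≤ δ2 := (min_le_left _ _).trans (min_le_right _ _)
  have hd3 : δ ≤ (1 / 5) ^ (2 * m - 1) := min_le_right _ _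
  have hd4 : δ ≤ (1 / 5) ^ m :=
    hd3.trans (pow_le_pow_of_le_one (by norm_num) (by norm_num) (by omega))
  have A1 : (k : ℝ) ^ m ≤ δ * (n : ℝ) ^ (m - 1) →
      27 * P n k ≤ NN n ^ (k - 3) * (n + 6 * m) ^ 3 := fun h =>
    hU n k (by omega) hk (h.trans (mul_le_mul_of_nonneg_right hd1 (by positivity)))
  have A2 : (k : ℝ) ^ (2 * m - 1) ≤ δ * (n : ℝ) ^ (2 * m - 3) →
      27 * P n k ≤ NN n ^ (k - 3) * (NN n + 6 * m) ^ 3 ∧
      (Even n → P n k ≤ NN n ^ (k - 3) * TTm m (n / 2)) := fun h =>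
    hV n k (by omega) hk (h.trans (mul_le_mul_of_nonneg_right hd2 (by positivity)))
  have A3 : C ≤ k → C * (n : ℝ) ^ (m - 2) ≤ (k : ℝ) ^ (m - 1) → 5 * k ≤ n →
      NN n ^ (k - 3) * TTm m (n / 2) ≤ P n k := fun h0 h1 h2 => hL n k (by omega) h1 h0 h2
  refine ⟨A1, fun h => (A2 h).1, A3, ?_, ?_⟩
  · intro h0 h1 h2 h6
    have h3 := A3 h0 h1 (Asm_five (by omega) hd4 (m - 1) (by omega) (by omega) h2)
    have h4 := A1 h2
    have hNN : NN n = n := by unfold NN; omega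
    rw [hNN] at h3 h4
    have hT : TTm m (n / 2) = (n / 3 + 2 * m) ^ 3 := by
      obtain ⟨s, hs⟩ : ∃ s, n = 6 * s := ⟨n / 6, by omega⟩
      subst hs
      have e1 : 6 * s / 2 = 3 * s := by omega
      have e2 : 6 * s / 3 = 2 * s := by omega
      unfold TTm
      rw [e1, e2]
      have e3 : (3 * s + 3 * m) / 3 = s + m := by omega
      have e4 : (3 * s + 3 * m + 1) / 3 = s + m := by omega
      have e5 : (3 * s + 3 * m + 2) / 3 = s + m := by omega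
      rw [e3, e4, e5]
      ring
    rw [hT] at h3
    refine Asm_eq h4 ?_ h3
    obtain ⟨s, hs⟩ : ∃ s, n = 6 * s := ⟨n / 6, by omega⟩
    subst hs
    have e2 : 6 * s / 3 = 2 * s := by omega
    rw [e2]
    ring
  · intro h0 h1 h2 h6
    have h3 := A3 h0 h1 (Asm_five (by omega) hd3 (2 * m - 3) (by omega) (by omega) h2)
    obtain ⟨h4, h5⟩ := A2 h2
    rcases h6 with h6 | h6
    · exact le_antisymm (h5 (Nat.even_iff.2 h6)) h3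
    · refine Asm_eq h4 ?_ h3
      rw [hNUN.2.2.2 m (n / 2) (by omega)]
      unfold NN
      ring

/-- the case `m = 2` of UUM, UUN, restated -/
theorem Asm_UU2 (hUUM : Stmt_UUM) : Stmt_UU2 := by
  obtain ⟨δ, n0, hδ, h⟩ := hUUM 2 le_rfl
  refine ⟨δ, n0, hδ, fun n k hn hk hkn => ?_⟩
  have e : (2 - 1 : ℕ) = 1 := by norm_num
  have h1 := h n k hn hk (by rw [e, pow_one]; exact hkn)
  simpa using h1

theorem Asm_UU3 (hUUN : Stmt_UUN) : Stmt_UU3 := by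
  obtain ⟨δ, n0, hδ, h⟩ := hUUN 2 le_rfl
  refine ⟨δ, n0, hδ, fun n k hn hk hkn => ?_⟩
  have e : (2 * 2 - 1 : ℕ) = 3 := by norm_num
  have e' : (2 * 2 - 3 : ℕ) = 1 := by norm_num
  have h1 := h n k hn hk (by rw [e, e', pow_one]; exact hkn)
  refine ⟨by simpa using h1.1, fun he => ?_⟩
  have h2 := h1.2 he
  exact h2

theorem Asm_small (hUU2 : Stmt_UU2) (hUU3 : Stmt_UU3) (hLOU : Stmt_LOU) (hNUM : Stmt_NUM) :
    ∃ (δ : ℝ) (n0 : ℕ), 0 < δ ∧ ∀ n k : ℕ, n0 ≤ n → 3 ≤ k →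
      ((k : ℝ) ^ 2 ≤ δ * n → 27 * P n k ≤ NN n ^ (k - 3) * (n + 12) ^ 3) ∧
      ((k : ℝ) ^ 3 ≤ δ * n → 27 * P n k ≤ NN n ^ (k - 3) * (NN n + 12) ^ 3) ∧
      (28 ≤ k → 2 * k ≤ n → NN n ^ (k - 3) * TT (n / 2) ≤ P n k) ∧
      (28 ≤ k → (k : ℝ) ^ 2 ≤ δ * n → n % 6 = 0 → P n k = n ^ (k - 3) * (n / 3 + 4) ^ 3) ∧
      (28 ≤ k → (k : ℝ) ^ 3 ≤ δ * n → (n % 2 = 0 ∨ n % 6 = 1) →
        P n k = NN n ^ (k - 3) * TT (n / 2)) := by
  obtain ⟨δ1, n1, hδ1, hU⟩ := hUU2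
  obtain ⟨δ2, n2, hδ2, hV⟩ := hUU3
  obtain ⟨n3, hL⟩ := hLOU
  refine ⟨min (min δ1 δ2) ((1 / 5) ^ 3), n1 + n2 + n3 + 1,
    lt_min (lt_min hδ1 hδ2) (by positivity), fun n k hn hk => ?_⟩
  set δ : ℝ := min (min δ1 δ2) ((1 / 5) ^ 3) with hδ
  have hd1 : δ ≤ δ1 := (min_le_left _ _).trans (min_le_left _ _)
  have hd2 : δ ≤ δ2 := (min_le_left _ _).trans (min_le_right _ _)
  have hd3 : δ ≤ (1 / 5) ^ 3 := min_le_right _ _
  have hd4 : δ ≤ (1 / 5) ^ 2 := hd3.trans (by norm_num)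
  have A1 : (k : ℝ) ^ 2 ≤ δ * n → 27 * P n k ≤ NN n ^ (k - 3) * (n + 12) ^ 3 := fun h =>
    hU n k (by omega) hk (h.trans (mul_le_mul_of_nonneg_right hd1 (by positivity)))
  have A2 : (k : ℝ) ^ 3 ≤ δ * n → 27 * P n k ≤ NN n ^ (k - 3) * (NN n + 12) ^ 3 ∧
      (Even n → P n k ≤ NN n ^ (k - 3) * TT (n / 2)) := fun h =>
    hV n k (by omega) hk (h.trans (mul_le_mul_of_nonneg_right hd2 (by positivity)))
  have A3 : 28 ≤ k → 2 * k ≤ n → NN n ^ (k - 3) * TT (n / 2) ≤ P n k := fun h0 h1 =>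
    hL n k (by omega) h0 h1
  refine ⟨A1, fun h => (A2 h).1, A3, ?_, ?_⟩
  · intro h0 h2 h6
    have h5 : 5 * k ≤ n := Asm_five (a := 2) (by norm_num) hd4 1 (by norm_num) (by omega)
      (by rw [pow_one]; exact h2)
    have h3 := A3 h0 (by omega)
    have h4 := A1 h2
    have hNN : NN n = n := by unfold NN; omega
    rw [hNN] at h3 h4
    have hT : 27 * TT (n / 2) = (n + 12) ^ 3 := by
      rw [hNUM.2.2.2 (n / 2) (by omega)]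
      obtain ⟨s, hs⟩ : ∃ s, n = 6 * s := ⟨n / 6, by omega⟩
      subst hs
      have e1 : 6 * s / 2 = 3 * s := by omega
      rw [e1]
      ring
    rw [Asm_eq h4 hT h3]
    congr 1
    obtain ⟨s, hs⟩ : ∃ s, n = 6 * s := ⟨n / 6, by omega⟩
    subst hs
    have e1 : 6 * s / 2 = 3 * s := by omega
    have e2 : 6 * s / 3 = 2 * s := by omega
    have e3 : (3 * s + 6) / 3 = s + 2 := by omega
    have e4 : (3 * s + 7) / 3 = s + 2 := by omega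
    have e5 : (3 * s + 8) / 3 = s + 2 := by omega
    unfold TT
    rw [e1, e2, e3, e4, e5]
    ring
  · intro h0 h2 h6
    have h5 : 5 * k ≤ n := Asm_five (a := 3) (by norm_num) hd3 1 (by norm_num) (by omega)
      (by rw [pow_one]; exact h2)
    have h3 := A3 h0 (by omega)
    obtain ⟨h4, h7⟩ := A2 h2
    rcases h6 with h6 | h6
    · exact le_antisymm (h7 (Nat.even_iff.2 h6)) h3
    · refine Asm_eq h4 ?_ h3
      rw [hNUM.2.2.2 (n / 2) (by omega)]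
      unfold NN
      ring

end Pool.Agent.Work.MP_1ce445_fx
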