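import Pool.Agent.Work.MP_1ce445_fx.Interface

/-!
Block NUM of theorem FixedK (MP_1ce445_co, helper94).
-/

set_option autoImplicit false

namespace Pool.Agent.Work.MP_1ce445_fx

open Finset Pool.Agent.Work.MP_1ce445_co_56 Pool.Agent.Work.MP_1ce445_lin

/-- values of `TT` -/
theorem NUM_val (q : ℕ) : ∃ m : ℕ, (q + 6 = 3 * m ∧ TT q = 8 * (m * m * m)) ∨
    (q + 6 = 3 * m + 1 ∧ TT q = 8 * (m * m * (m + 1))) ∨
    (q + 6 = 3 * m + 2 ∧ TT q = 8 * (m * (m + 1) * (m + 1))) := by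
  refine ⟨(q + 6) / 3, ?_⟩
  have h : q + 6 = 3 * ((q + 6) / 3) ∨ q + 6 = 3 * ((q + 6) / 3) + 1 ∨
      q + 6 = 3 * ((q + 6) / 3) + 2 := by omega
  rcases h with h | h | h
  · left
    refine ⟨h, ?_⟩
    have h1 : (q + 7) / 3 = (q + 6) / 3 := by omega
    have h2 : (q + 8) / 3 = (q + 6) / 3 := by omega
    unfold TT
    rw [h1, h2]
  · right; left
    refine ⟨h, ?_⟩
    have h1 : (q + 7) / 3 = (q + 6) / 3 := by omega
    have h2 : (q + 8) / 3 = (q + 6) / 3 + 1 := by omega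
    unfold TT
    rw [h1, h2]
  · right; right
    refine ⟨h, ?_⟩
    have h1 : (q + 7) / 3 = (q + 6) / 3 + 1 := by omega
    have h2 : (q + 8) / 3 = (q + 6) / 3 + 1 := by omega
    unfold TT
    rw [h1, h2]

theorem NUM_four (y z s : ℕ) (h : y + z ≤ s) : 4 * (y * z) ≤ s * s := by
  have h1 : 4 * (y * z) ≤ (y + z) * (y + z) := by
    zify
    nlinarith [sq_nonneg ((y : ℤ) - z)]
  exact h1.trans (Nat.mul_le_mul h h)

theorem NUM_odd (x y z : ℕ) (h : y + z ≤ 2 * x + 1) : y * z ≤ x * (x + 1) := by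
  rcases Nat.lt_or_ge x y with hy | hy
  · have hz : z ≤ 2 * x + 1 - y := by omega
    obtain ⟨d, rfl⟩ := Nat.exists_eq_add_of_lt hy
    rcases Nat.lt_or_ge x d with hd | hd
    · have : z = 0 := by omega
      subst this
      simp
    · obtain ⟨c, rfl⟩ := Nat.exists_eq_add_of_le hd
      have hz' : z ≤ c := by omega
      calc (d + c + d + 1) * z ≤ (d + c + d + 1) * c := Nat.mul_le_mul_left _ hz'
        _ ≤ (d + c) * (d + c + 1) := by nlinarith [Nat.zero_le d, Nat.zero_le c]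
  · obtain ⟨d, rfl⟩ := Nat.exists_eq_add_of_le hy
    have hz' : z ≤ y + 2 * d + 1 := by omega
    calc y * z ≤ y * (y + 2 * d + 1) := Nat.mul_le_mul_left _ hz'
      _ ≤ (y + d) * (y + d + 1) := by nlinarith [Nat.zero_le d, Nat.zero_le y]

/-- the smallest factor first -/
theorem NUM_min (q x y z : ℕ) (hy : x ≤ y) (hz : x ≤ z) (h : x + y + z ≤ q + 6) :
    8 * (x * y * z) ≤ TT q := by
  obtain ⟨m, hm⟩ := NUM_val q
  have hx : x ≤ m := by omega
  obtain ⟨t, rfl⟩ := Nat.exists_eq_add_of_le hx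
  rcases hm with ⟨h1, h2⟩ | ⟨h1, h2⟩ | ⟨h1, h2⟩
  · have h3 := NUM_four y z (2 * x + 3 * t) (by omega)
    rw [h2]
    have h4 : x * (4 * (y * z)) ≤ x * ((2 * x + 3 * t) * (2 * x + 3 * t)) :=
      Nat.mul_le_mul_left _ h3
    have h5 : 0 ≤ 3 * (x * t * t) + 4 * (t * t * t) := Nat.zero_le _
    nlinarith
  · rcases Nat.eq_zero_or_pos t with ht | ht
    · subst ht
      have h3 := NUM_odd x y z (by omega)
      rw [h2]
      have h4 : x * (y * z) ≤ x * (x * (x + 1)) := Nat.mul_le_mul_left _ h3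
      nlinarith
    · have h3 := NUM_four y z (2 * x + 3 * t + 1) (by omega)
      rw [h2]
      have h4 : x * (4 * (y * z)) ≤ x * ((2 * x + 3 * t + 1) * (2 * x + 3 * t + 1)) :=
        Nat.mul_le_mul_left _ h3
      have h5 : 0 ≤ 3 * (x * (t * t)) + 4 * (t * t * t) := Nat.zero_le _
      have h6 : x * 1 ≤ x * (t * t) := Nat.mul_le_mul_left _ (Nat.one_le_iff_ne_zero.2 (by positivity))
      nlinarith [Nat.zero_le (x * t), Nat.zero_le (t * t), Nat.zero_le (t * t * t)]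
  · have h3 := NUM_four y z (2 * x + 3 * t + 2) (by omega)
    rw [h2]
    have h4 : x * (4 * (y * z)) ≤ x * ((2 * x + 3 * t + 2) * (2 * x + 3 * t + 2)) :=
      Nat.mul_le_mul_left _ h3
    nlinarith [Nat.zero_le (x * t), Nat.zero_le (t * t), Nat.zero_le (t * t * t),
      Nat.zero_le (x * (t * t))]

theorem NUM_all (q x y z : ℕ) (h : x + y + z ≤ q + 6) : 8 * (x * y * z) ≤ TT q := by
  rcases le_total x y with hxy | hxy
  · rcases le_total x z with hxz | hxz
    · exact NUM_min q x y z hxy hxz h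
    · have := NUM_min q z x y hxz (hxz.trans hxy) (by omega)
      calc 8 * (x * y * z) = 8 * (z * x * y) := by ring
        _ ≤ TT q := this
  · rcases le_total y z with hyz | hyz
    · have := NUM_min q y x z hxy hyz (by omega)
      calc 8 * (x * y * z) = 8 * (y * x * z) := by ring
        _ ≤ TT q := this
    · have := NUM_min q z x y (hyz.trans hxy) hyz (by omega)
      calc 8 * (x * y * z) = 8 * (z * x * y) := by ring
        _ ≤ TT q := this

theorem stmt_NUM : Stmt_NUM := by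
  refine ⟨?_, ?_, ?_, ?_⟩
  · intro q a b c ha hb hc h
    obtain ⟨x, rfl⟩ := ha
    obtain ⟨y, rfl⟩ := hb
    obtain ⟨z, rfl⟩ := hc
    have := NUM_all q x y z (by omega)
    calc (x + x) * (y + y) * (z + z) = 8 * (x * y * z) := by ring
      _ ≤ TT q := this
  · intro q
    obtain ⟨m, hm⟩ := NUM_val q
    rcases hm with ⟨h1, h2⟩ | ⟨h1, h2⟩ | ⟨h1, h2⟩
    · have h7 : q + 7 = 3 * m + 1 := by omega
      rw [h2, h1, h7]
      nlinarith [Nat.zero_le m]
    · have h7 : q + 7 = 3 * m + 2 := by omega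
      rw [h2, h1, h7]
      nlinarith [Nat.zero_le m]
    · have h7 : q + 7 = 3 * m + 3 := by omega
      rw [h2, h1, h7]
      nlinarith [Nat.zero_le m]
  · intro q
    obtain ⟨m, hm⟩ := NUM_val q
    rcases hm with ⟨h1, h2⟩ | ⟨h1, h2⟩ | ⟨h1, h2⟩
    · rw [h2, h1]
      nlinarith [Nat.zero_le m]
    · rw [h2, h1]
      nlinarith [Nat.zero_le m]
    · rw [h2, h1]
      nlinarith [Nat.zero_le m]
  · intro q hq
    obtain ⟨m, hm⟩ := NUM_val q
    rcases hm with ⟨h1, h2⟩ | ⟨h1, h2⟩ | ⟨h1, h2⟩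
    · rw [h2, h1]
      ring
    · omega
    · omega

end Pool.Agent.Work.MP_1ce445_fx
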