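import Pool.Agent.Work.MP_1ce445_fx.InterfaceP
import Pool.Agent.Work.MP_1ce445_fx.NUM

/-!
Block NUN of the theorem STAIRCASE (MP_1ce445_co, helper94). `NUN_T M` is the maximum of `x y z`, `x + y + z = M`.
-/

set_option autoImplicit false

namespace Pool.Agent.Work.MP_1ce445_fx

open Finset Pool.Agent.Work.MP_1ce445_co_56 Pool.Agent.Work.MP_1ce445_lin

/-- the maximum of `x y z`, `x + y + z = M` -/
def NUN_T (M : ℕ) : ℕ := M / 3 * ((M + 1) / 3) * ((M + 2) / 3)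

/-- values of `NUN_T` -/
theorem NUN_val (M : ℕ) : ∃ r : ℕ, (M = 3 * r ∧ NUN_T M = r * r * r) ∨
    (M = 3 * r + 1 ∧ NUN_T M = r * r * (r + 1)) ∨
    (M = 3 * r + 2 ∧ NUN_T M = r * (r + 1) * (r + 1)) := by
  refine ⟨M / 3, ?_⟩
  have h : M = 3 * (M / 3) ∨ M = 3 * (M / 3) + 1 ∨ M = 3 * (M / 3) + 2 := by omega
  rcases h with h | h | h
  · left
    refine ⟨h, ?_⟩
    have h1 : (M + 1) / 3 = M / 3 := by omega
    have h2 : (M + 2) / 3 = M / 3 := by omega
    unfold NUN_T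
    rw [h1, h2]
  · right; left
    refine ⟨h, ?_⟩
    have h1 : (M + 1) / 3 = M / 3 := by omega
    have h2 : (M + 2) / 3 = M / 3 + 1 := by omega
    unfold NUN_T
    rw [h1, h2]
  · right; right
    refine ⟨h, ?_⟩
    have h1 : (M + 1) / 3 = M / 3 + 1 := by omega
    have h2 : (M + 2) / 3 = M / 3 + 1 := by omega
    unfold NUN_T
    rw [h1, h2]

/-- the smallest factor first -/
theorem NUN_min (M x y z : ℕ) (hy : x ≤ y) (hz : x ≤ z) (h : x + y + z ≤ M) :
    x * y * z ≤ NUN_T M := by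
  obtain ⟨m, hm⟩ := NUN_val M
  have hx : x ≤ m := by omega
  obtain ⟨t, rfl⟩ := Nat.exists_eq_add_of_le hx
  rcases hm with ⟨h1, h2⟩ | ⟨h1, h2⟩ | ⟨h1, h2⟩
  · have h3 := NUM_four y z (2 * x + 3 * t) (by omega)
    rw [h2]
    have h4 : x * (4 * (y * z)) ≤ x * ((2 * x + 3 * t) * (2 * x + 3 * t)) :=
      Nat.mul_le_mul_left _ h3
    have h5 : 0 ≤ 3 * (x * t * t) + 4 * (t * t * t) := Nat.zero_le _
    nlinarith
  · rcases Nat.eq_zero_or_pos t with ht | ht
    · subst ht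
      have h3 := NUM_odd x y z (by omega)
      rw [h2]
      have h4 : x * (y * z) ≤ x * (x * (x + 1)) := Nat.mul_le_mul_left _ h3
      nlinarith
    · have h3 := NUM_four y z (2 * x + 3 * t + 1) (by omega)
      rw [h2]
      have h4 : x * (4 * (y * z)) ≤ x * ((2 * x + 3 * t + 1) * (2 * x + 3 * t + 1)) :=
        Nat.mul_le_mul_left _ h3
      have h5 : 0 ≤ 3 * (x * (t * t)) + 4 * (t * t * t) := Nat.zero_le _
      have h6 : x * 1 ≤ x * (t * t) :=
        Nat.mul_le_mul_left _ (Nat.one_le_iff_ne_zero.2 (by positivity))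
      nlinarith [Nat.zero_le (x * t), Nat.zero_le (t * t), Nat.zero_le (t * t * t)]
  · have h3 := NUM_four y z (2 * x + 3 * t + 2) (by omega)
    rw [h2]
    have h4 : x * (4 * (y * z)) ≤ x * ((2 * x + 3 * t + 2) * (2 * x + 3 * t + 2)) :=
      Nat.mul_le_mul_left _ h3
    nlinarith [Nat.zero_le (x * t), Nat.zero_le (t * t), Nat.zero_le (t * t * t),
      Nat.zero_le (x * (t * t))]

theorem NUN_all (M x y z : ℕ) (h : x + y + z ≤ M) : x * y * z ≤ NUN_T M := by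
  rcases le_total x y with hxy | hxy
  · rcases le_total x z with hxz | hxz
    · exact NUN_min M x y z hxy hxz h
    · have := NUN_min M z x y hxz (hxz.trans hxy) (by omega)
      calc x * y * z = z * x * y := by ring
        _ ≤ NUN_T M := this
  · rcases le_total y z with hyz | hyz
    · have := NUN_min M y x z hxy hyz (by omega)
      calc x * y * z = y * x * z := by ring
        _ ≤ NUN_T M := this
    · have := NUN_min M z x y (hyz.trans hxy) hyz (by omega)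
      calc x * y * z = z * x * y := by ring
        _ ≤ NUN_T M := this

theorem NUN_low (M : ℕ) : M ^ 3 ≤ 27 * NUN_T M + 3 * M + 2 := by
  obtain ⟨m, hm⟩ := NUN_val M
  rcases hm with ⟨h1, h2⟩ | ⟨h1, h2⟩ | ⟨h1, h2⟩
  · rw [h2, h1]; nlinarith [Nat.zero_le m]
  · rw [h2, h1]; nlinarith [Nat.zero_le m]
  · rw [h2, h1]; nlinarith [Nat.zero_le m]

theorem NUN_upp (M : ℕ) : 27 * NUN_T M ≤ M ^ 3 := by
  obtain ⟨m, hm⟩ := NUN_val M
  rcases hm with ⟨h1, h2⟩ | ⟨h1, h2⟩ | ⟨h1, h2⟩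
  · rw [h2, h1]; nlinarith [Nat.zero_le m]
  · rw [h2, h1]; nlinarith [Nat.zero_le m]
  · rw [h2, h1]; nlinarith [Nat.zero_le m]

theorem NUN_three (M : ℕ) (hM : M % 3 = 0) : 27 * NUN_T M = M ^ 3 := by
  obtain ⟨m, hm⟩ := NUN_val M
  rcases hm with ⟨h1, h2⟩ | ⟨h1, h2⟩ | ⟨h1, h2⟩
  · rw [h2, h1]; ring
  · omega
  · omega

theorem NUN_TTm (m q : ℕ) : TTm m q = 8 * NUN_T (q + 3 * m) := rfl

theorem stmt_NUN : Stmt_NUN := by
  refine ⟨?_, ?_, ?_, ?_⟩
  · intro m q a b c ha hb hc h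
    obtain ⟨x, rfl⟩ := ha
    obtain ⟨y, rfl⟩ := hb
    obtain ⟨z, rfl⟩ := hc
    have := NUN_all (q + 3 * m) x y z (by omega)
    rw [NUN_TTm]
    calc (x + x) * (y + y) * (z + z) = 8 * (x * y * z) := by ring
      _ ≤ 8 * NUN_T (q + 3 * m) := Nat.mul_le_mul_left _ this
  · intro m q
    have h := NUN_low (q + 3 * m)
    rw [NUN_TTm]
    linarith
  · intro m q
    have h := NUN_upp (q + 3 * m)
    rw [NUN_TTm]
    linarith
  · intro m q hq
    have h := NUN_three (q + 3 * m) (by omega)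
    rw [NUN_TTm]
    linarith

end Pool.Agent.Work.MP_1ce445_fx
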