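import Pool.Agent.Work.MP_1ce445_fx.InterfaceT
import Pool.Agent.Work.MP_1ce445_fx.Asm
import Pool.Agent.Work.MP_1ce445_fx.NUN

/-!
Assembly of the theorem STAIRCASE in the strongest form (helper94): all `n`, the full range of `k`, the threshold
`k = 15` of the first step.
-/

namespace Pool.Agent.Work.MP_1ce445_fx

open Finset Pool.Agent.Work.MP_1ce445_co_56 Pool.Agent.Work.MP_1ce445_lin

/-- the maximum of `a b c` over `a + b + c = 2 ⌊n/2⌋ + 6 m`, with `a, b, c` even if `n` is even -/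
def bst (m n : ℕ) : ℕ := if n % 2 = 0 then TTm m (n / 2) else T3 (2 * (n / 2) + 6 * m)

/-- The final statement. -/
def Final3 : Prop :=
  (∀ m n : ℕ, IsGreatest {p : ℕ | ∃ a b c : ℕ, a + b + c = 2 * (n / 2) + 6 * m ∧
      (Even n → Even a ∧ Even b ∧ Even c) ∧ p = a * b * c} (bst m n)) ∧
  (∀ m : ℕ, 2 ≤ m → ∃ (C δ : ℝ) (n0 : ℕ), 0 < δ ∧ ∀ n k : ℕ, n0 ≤ n → 3 ≤ k →
    ((k : ℝ) ^ m ≤ δ * (n : ℝ) ^ (m - 1) → P n k ≤ (2 * (n / 2)) ^ (k - 3) * bst m n) ∧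
    (C ≤ k → C * (n : ℝ) ^ (m - 2) ≤ (k : ℝ) ^ (m - 1) → 10 * k ≤ n →
      (2 * (n / 2)) ^ (k - 3) * bst m n ≤ P n k) ∧
    (C ≤ k → C * (n : ℝ) ^ (m - 2) ≤ (k : ℝ) ^ (m - 1) →
      (k : ℝ) ^ m ≤ δ * (n : ℝ) ^ (m - 1) → P n k = (2 * (n / 2)) ^ (k - 3) * bst m n)) ∧
  ∃ (δ : ℝ) (n0 : ℕ), 0 < δ ∧ ∀ n k : ℕ, n0 ≤ n → (k : ℝ) ^ 2 ≤ δ * n →
    ((28 ≤ k ∧ (n % 2 = 0 ∨ n % 6 = 1) ∨ 15 ≤ k ∧ 18 ∣ n) →
      P n k = (2 * (n / 2)) ^ (k - 3) * bst 2 n) ∧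
    (3 ≤ k → k ≤ 14 → n % 2 = 0 → P n k < (2 * (n / 2)) ^ (k - 3) * bst 2 n)

theorem Asm3_three (x : ℕ) : x / 3 + (x + 1) / 3 + (x + 2) / 3 = x := by
  obtain ⟨r, hr⟩ : ∃ r, x = 3 * r ∨ x = 3 * r + 1 ∨ x = 3 * r + 2 := ⟨x / 3, by omega⟩
  rcases hr with rfl | rfl | rfl
  · omega
  · omega
  · omega

theorem Asm3_max (hNUN : Stmt_NUN) (m n : ℕ) :
    IsGreatest {p : ℕ | ∃ a b c : ℕ, a + b + c = 2 * (n / 2) + 6 * m ∧
      (Even n → Even a ∧ Even b ∧ Even c) ∧ p = a * b * c} (bst m n) := by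
  unfold bst
  rcases Nat.mod_two_eq_zero_or_one n with h | h
  · rw [if_pos h]
    have he : Even n := Nat.even_iff.2 h
    constructor
    · refine ⟨2 * ((n / 2 + 3 * m) / 3), 2 * ((n / 2 + 3 * m + 1) / 3),
        2 * ((n / 2 + 3 * m + 2) / 3), by omega,
        fun _ => ⟨even_two_mul _, even_two_mul _, even_two_mul _⟩, ?_⟩
      unfold TTm
      ring
    · rintro p ⟨a, b, c, hs, hp, rfl⟩
      obtain ⟨ha, hb, hc⟩ := hp he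
      exact hNUN.1 m (n / 2) a b c ha hb hc hs.le
  · have h0 : ¬ n % 2 = 0 := by omega
    rw [if_neg h0]
    have he : ¬ Even n := by
      rw [Nat.even_iff]
      exact h0
    constructor
    · refine ⟨(2 * (n / 2) + 6 * m) / 3, (2 * (n / 2) + 6 * m + 1) / 3,
        (2 * (n / 2) + 6 * m + 2) / 3, Asm3_three _, fun h1 => absurd h1 he, rfl⟩
    · rintro p ⟨a, b, c, hs, _, rfl⟩
      exact NUN_all _ a b c hs.le

theorem Asm3_ten {a n k : ℕ} {δ : ℝ} (ha : a ≠ 0) (h5 : δ ≤ (1 / 10) ^ a) (b : ℕ) (hb : b ≤ a)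
    (hn : 1 ≤ n) (h : (k : ℝ) ^ a ≤ δ * (n : ℝ) ^ b) : 10 * k ≤ n := by
  have hn1 : (1 : ℝ) ≤ n := by exact_mod_cast hn
  have h1 : (k : ℝ) ^ a ≤ ((n : ℝ) / 10) ^ a := by
    calc (k : ℝ) ^ a ≤ δ * (n : ℝ) ^ b := h
      _ ≤ (1 / 10) ^ a * (n : ℝ) ^ b := mul_le_mul_of_nonneg_right h5 (by positivity)
      _ ≤ (1 / 10) ^ a * (n : ℝ) ^ a :=
          mul_le_mul_of_nonneg_left (pow_le_pow_right₀ hn1 hb) (by positivity)
      _ = ((n : ℝ) / 10) ^ a := by rw [← mul_pow]; congr 1; ring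
  have h2 : (k : ℝ) ≤ (n : ℝ) / 10 := le_of_pow_le_pow_left₀ ha (by positivity) h1
  have h3 : (10 : ℝ) * k ≤ n := by linarith
  exact_mod_cast h3

theorem Asm3_stair (hUUQ : Stmt_UUQ) (hLOM : Stmt_LOM) (hLOQ : Stmt_LOQ) :
    ∀ m : ℕ, 2 ≤ m → ∃ (C δ : ℝ) (n0 : ℕ), 0 < δ ∧ ∀ n k : ℕ, n0 ≤ n → 3 ≤ k →
    ((k : ℝ) ^ m ≤ δ * (n : ℝ) ^ (m - 1) → P n k ≤ (2 * (n / 2)) ^ (k - 3) * bst m n) ∧
    (C ≤ k → C * (n : ℝ) ^ (m - 2) ≤ (k : ℝ) ^ (m - 1) → 10 * k ≤ n →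
      (2 * (n / 2)) ^ (k - 3) * bst m n ≤ P n k) ∧
    (C ≤ k → C * (n : ℝ) ^ (m - 2) ≤ (k : ℝ) ^ (m - 1) →
      (k : ℝ) ^ m ≤ δ * (n : ℝ) ^ (m - 1) → P n k = (2 * (n / 2)) ^ (k - 3) * bst m n) := by
  intro m hm
  obtain ⟨δ1, n1, hδ1, hU⟩ := hUUQ m hm
  obtain ⟨C1, n2, hL⟩ := hLOM m hm
  obtain ⟨C2, n3, hO⟩ := hLOQ m hm
  refine ⟨max C1 C2, min δ1 ((1 / 10) ^ m), n1 + n2 + n3 + 1, lt_min hδ1 (by positivity),
    fun n k hn hk => ?_⟩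
  have hA : (k : ℝ) ^ m ≤ min δ1 ((1 / 10) ^ m) * (n : ℝ) ^ (m - 1) →
      P n k ≤ (2 * (n / 2)) ^ (k - 3) * bst m n := by
    intro h
    have h1 : (k : ℝ) ^ m ≤ δ1 * (n : ℝ) ^ (m - 1) :=
      h.trans (mul_le_mul_of_nonneg_right (min_le_left _ _) (by positivity))
    obtain ⟨h2, h3⟩ := hU n k (by omega) hk h1
    unfold bst
    rcases Nat.mod_two_eq_zero_or_one n with h4 | h4
    · rw [if_pos h4]
      exact h2 (Nat.even_iff.2 h4)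
    · rw [if_neg (by omega)]
      exact h3 (Nat.odd_iff.2 h4)
  have hB : max C1 C2 ≤ k → max C1 C2 * (n : ℝ) ^ (m - 2) ≤ (k : ℝ) ^ (m - 1) → 10 * k ≤ n →
      (2 * (n / 2)) ^ (k - 3) * bst m n ≤ P n k := by
    intro h h1 h2
    unfold bst
    rcases Nat.mod_two_eq_zero_or_one n with h4 | h4
    · rw [if_pos h4]
      refine hL n k (by omega) ?_ ((le_max_left _ _).trans h) (by omega)
      exact (mul_le_mul_of_nonneg_right (le_max_left _ _) (by positivity)).trans h1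
    · rw [if_neg (by omega)]
      refine hO n k (by omega) (Nat.odd_iff.2 h4) ?_ ((le_max_right _ _).trans h) h2
      exact (mul_le_mul_of_nonneg_right (le_max_right _ _) (by positivity)).trans h1
  refine ⟨hA, hB, fun h0 h1 h2 => le_antisymm (hA h2) (hB h0 h1 ?_)⟩
  exact Asm3_ten (by omega) (min_le_right _ _) (m - 1) (by omega) (by omega) h2

theorem Asm3_one (q : ℕ) (h : q % 3 = 0) : TT q = T3 (2 * q + 12) := by
  obtain ⟨s, rfl⟩ : ∃ s, q = 3 * s := ⟨q / 3, by omega⟩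
  unfold TT T3
  have e1 : (3 * s + 6) / 3 = s + 2 := by omega
  have e2 : (3 * s + 7) / 3 = s + 2 := by omega
  have e3 : (3 * s + 8) / 3 = s + 2 := by omega
  have e4 : (2 * (3 * s) + 12) / 3 = 2 * s + 4 := by omega
  have e5 : (2 * (3 * s) + 12 + 1) / 3 = 2 * s + 4 := by omega
  have e6 : (2 * (3 * s) + 12 + 2) / 3 = 2 * s + 4 := by omega
  rw [e1, e2, e3, e4, e5, e6]
  ring

theorem Asm3_small (hUUQ : Stmt_UUQ) (hLOU : Stmt_LOU) (hAT : Stmt_AT15) (hBLT : Stmt_BLT) :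
    ∃ (δ : ℝ) (n0 : ℕ), 0 < δ ∧ ∀ n k : ℕ, n0 ≤ n → (k : ℝ) ^ 2 ≤ δ * n →
    ((28 ≤ k ∧ (n % 2 = 0 ∨ n % 6 = 1) ∨ 15 ≤ k ∧ 18 ∣ n) →
      P n k = (2 * (n / 2)) ^ (k - 3) * bst 2 n) ∧
    (3 ≤ k → k ≤ 14 → n % 2 = 0 → P n k < (2 * (n / 2)) ^ (k - 3) * bst 2 n) := by
  obtain ⟨δ1, n1, hδ1, hU⟩ := hUUQ 2 le_rfl
  obtain ⟨n2, hL⟩ := hLOU
  obtain ⟨δ3, n3, hδ3, hA⟩ := hAT
  obtain ⟨n4, hB⟩ := hBLT
  refine ⟨min (min δ1 δ3) ((1 / 10) ^ 2), n1 + n2 + n3 + n4 + 1,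
    lt_min (lt_min hδ1 hδ3) (by positivity), fun n k hn hk => ⟨?_, ?_⟩⟩
  · have hk1 : (k : ℝ) ^ 2 ≤ δ1 * (n : ℝ) ^ (2 - 1) := by
      have e : (2 - 1 : ℕ) = 1 := by norm_num
      rw [e, pow_one]
      exact hk.trans (mul_le_mul_of_nonneg_right ((min_le_left _ _).trans (min_le_left _ _))
        (by positivity))
    have hk3 : (k : ℝ) ^ 2 ≤ δ3 * n :=
      hk.trans (mul_le_mul_of_nonneg_right ((min_le_left _ _).trans (min_le_right _ _))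
        (by positivity))
    have h10 : 10 * k ≤ n := Asm3_ten (a := 2) (by norm_num)
      (min_le_right (min δ1 δ3) ((1 / 10) ^ 2)) 1 (by norm_num) (by omega)
      (by rw [pow_one]; exact hk)
    rintro (⟨h28, h6⟩ | ⟨h15, h18⟩)
    · obtain ⟨u1, u2⟩ := hU n k (by omega) (by omega) hk1
      have h3 := hL n k (by omega) h28 (by omega)
      unfold bst
      rcases Nat.mod_two_eq_zero_or_one n with h4 | h4
      · rw [if_pos h4]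
        exact le_antisymm (u1 (Nat.even_iff.2 h4)) h3
      · rw [if_neg (by omega)]
        refine le_antisymm (u2 (Nat.odd_iff.2 h4)) ?_
        rw [Asm3_one (n / 2) (by omega)] at h3
        exact h3
    · have h3 := hA n k (by omega) h18 h15 hk3
      obtain ⟨s, rfl⟩ := h18
      have e0 : 18 * s % 2 = 0 := by omega
      have e1 : 18 * s / 2 = 9 * s := by omega
      have e2 : 18 * s / 3 = 6 * s := by omega
      rw [h3]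
      unfold bst TTm
      rw [if_pos e0, e1, e2]
      have e3 : (9 * s + 3 * 2) / 3 = 3 * s + 2 := by omega
      have e4 : (9 * s + 3 * 2 + 1) / 3 = 3 * s + 2 := by omega
      have e5 : (9 * s + 3 * 2 + 2) / 3 = 3 * s + 2 := by omega
      rw [e3, e4, e5]
      have e6 : 2 * (9 * s) = 18 * s := by ring
      rw [e6]
      ring
  · intro h3 h14 h2
    unfold bst
    rw [if_pos h2]
    exact hB n k (by omega) (Nat.even_iff.2 h2) h3 h14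

theorem Asm3_final (hNUN : Stmt_NUN) (hUUQ : Stmt_UUQ) (hLOM : Stmt_LOM) (hLOQ : Stmt_LOQ)
    (hLOU : Stmt_LOU) (hAT : Stmt_AT15) (hBLT : Stmt_BLT) : Final3 :=
  ⟨Asm3_max hNUN, Asm3_stair hUUQ hLOM hLOQ, Asm3_small hUUQ hLOU hAT hBLT⟩

end Pool.Agent.Work.MP_1ce445_fx
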