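import Pool.Agent.Work.MP_1ce445_fx.InterfaceM

/-! # Block UUM: growing `k`, the bound with `(n + 6 m)^3` for `k^m ≤ δ n^(m-1)` -/

namespace Pool.Agent.Work.MP_1ce445_fx

open Finset Pool.Agent.Work.MP_1ce445_co_56 Pool.Agent.Work.MP_1ce445_lin

lemma UUM_NN (n : ℕ) : NN n ≤ n ∧ n ≤ NN n + 1 := by
  unfold NN
  omega

lemma UUM_img {k : ℕ} (e : Fin 3 → Fin k) :
    univ.filter (fun l => ¬ ∀ i, l ≠ e i) = univ.image e := by
  ext l
  simp only [mem_filter, mem_univ, true_and, mem_image]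
  push Not
  exact ⟨fun ⟨i, hi⟩ => ⟨i, hi.symm⟩, fun ⟨i, hi⟩ => ⟨i, hi.symm⟩⟩

lemma UUM_card {k : ℕ} (e : Fin 3 → Fin k) (he : Function.Injective e) :
    (oth e).card = k - 3 := by
  have h1 := Finset.card_filter_add_card_filter_not (s := (univ : Finset (Fin k)))
    (fun l => ∀ i, l ≠ e i)
  rw [UUM_img e, card_image_of_injective _ he, card_univ, card_univ, Fintype.card_fin,
    Fintype.card_fin] at h1
  unfold oth
  omega

lemma UUM_split {k : ℕ} (e : Fin 3 → Fin k) (he : Function.Injective e) (f : Fin k → ℕ) :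
    ∏ l, f l = (∏ l ∈ oth e, f l) * (f (e 0) * f (e 1) * f (e 2)) := by
  have h1 := Finset.prod_filter_mul_prod_filter_not (univ : Finset (Fin k))
    (fun l => ∀ i, l ≠ e i) f
  rw [UUM_img e, prod_image (fun a _ b _ h => he h), Fin.prod_univ_three] at h1
  exact h1.symm

lemma UUM_prod {n k : ℕ} {G : Fin k → SimpleGraph (Fin n)} (hG : ∀ l, gammaT (G l) ≤ NN n)
    (e : Fin 3 → Fin k) (he : Function.Injective e) {B : ℕ}
    (hB : gammaT (G (e 0)) * gammaT (G (e 1)) * gammaT (G (e 2)) ≤ B) :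
    ∏ l, gammaT (G l) ≤ NN n ^ (k - 3) * B := by
  rw [UUM_split e he]
  apply Nat.mul_le_mul _ hB
  calc ∏ l ∈ oth e, gammaT (G l) ≤ ∏ _l ∈ oth e, NN n :=
        Finset.prod_le_prod' fun l _ => hG l
    _ = NN n ^ (k - 3) := by rw [prod_const, UUM_card e he]

lemma UUM_amgm (a b c : ℕ) : 27 * (a * b * c) ≤ (a + b + c) ^ 3 := by
  have h : (27 : ℝ) * (a * b * c) ≤ (a + b + c) ^ 3 := by
    have ha : (0 : ℝ) ≤ a := Nat.cast_nonneg a
    have hb : (0 : ℝ) ≤ b := Nat.cast_nonneg b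
    have hc : (0 : ℝ) ≤ c := Nat.cast_nonneg c
    nlinarith [mul_nonneg ha (sq_nonneg ((b : ℝ) - c)), mul_nonneg hb (sq_nonneg ((a : ℝ) - c)),
      mul_nonneg hc (sq_nonneg ((b : ℝ) - a)), mul_nonneg ha (sq_nonneg ((a : ℝ) - c)),
      mul_nonneg ha (sq_nonneg ((a : ℝ) - b)), mul_nonneg hb (sq_nonneg ((b : ℝ) - c)),
      mul_nonneg hb (sq_nonneg ((b : ℝ) - a)), mul_nonneg hc (sq_nonneg ((c : ℝ) - a)),
      mul_nonneg hc (sq_nonneg ((c : ℝ) - b))]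
  exact_mod_cast h

/-- the error term -/
lemma UUM_RM (j n k s : ℕ) (θ : ℝ) (hθ : θ = 1 / (18000 * 60 ^ (j + 2)))
    (hn : 600 * 15 ^ (j + 2) ≤ (n : ℝ)) (hk : (k : ℝ) ≤ θ * n) (hs : (s : ℝ) ≤ θ * n)
    (hkm : (k : ℝ) ^ (j + 2) ≤ 1 / (1800 * 60 ^ (j + 2)) * (n : ℝ) ^ (j + 1)) :
    RM (j + 2) n k s ≤ 1 / 10 + (s : ℝ) / 100 := by
  have hc : (1 : ℝ) ≤ 60 ^ (j + 2) := one_le_pow₀ (by norm_num)
  have hc15 : (1 : ℝ) ≤ 15 ^ (j + 2) := one_le_pow₀ (by norm_num)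
  have hN : (1 : ℝ) ≤ n := by linarith
  have hN0 : (0 : ℝ) < n := by linarith
  have hK : (0 : ℝ) ≤ k := Nat.cast_nonneg k
  have hS : (0 : ℝ) ≤ s := Nat.cast_nonneg s
  have hθ0 : 0 < θ := by rw [hθ]; positivity
  have hθ1 : θ ≤ 1 / 18000 := by
    rw [hθ, div_le_div_iff₀ (by positivity) (by norm_num)]
    linarith
  have hθ60 : θ * 60 ^ (j + 2) = 1 / 18000 := by
    rw [hθ]
    field_simp
  have h30 : (30 : ℝ) ^ (j + 2) * 2 ^ j ≤ 60 ^ (j + 2) := by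
    have h1 : (60 : ℝ) ^ (j + 2) = 30 ^ (j + 2) * 2 ^ (j + 2) := by
      rw [← mul_pow]
      norm_num
    rw [h1]
    apply mul_le_mul_of_nonneg_left _ (by positivity)
    exact pow_le_pow_right₀ (by norm_num) (by omega)
  have h30' : (30 : ℝ) ^ (j + 2) ≤ 60 ^ (j + 2) :=
    pow_le_pow_left₀ (by norm_num) (by norm_num) _
  have hX : (n : ℝ) ^ (j + 1) ≤ (n : ℝ) ^ (j + 2) := pow_le_pow_right₀ hN (by omega)
  have hX0 : (0 : ℝ) < (n : ℝ) ^ (j + 2) := by positivity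
  have hX1 : (n : ℝ) ^ (j + 2) = n * (n : ℝ) ^ (j + 1) := by ring
  have hX2 : (n : ℝ) ≤ (n : ℝ) ^ (j + 1) := by
    calc (n : ℝ) = (n : ℝ) ^ 1 := by ring
      _ ≤ (n : ℝ) ^ (j + 1) := pow_le_pow_right₀ hN (by omega)
  have h1530 : (15 : ℝ) ^ (j + 2) * 2 ^ (j + 2) = 30 ^ (j + 2) := by
    rw [← mul_pow]
    norm_num
  -- first term
  have a1 : 15 ^ (j + 2) * (6 * (n : ℝ)) ≤ 1 / 100 * (n : ℝ) ^ (j + 2) := by
    rw [hX1]
    have h1 : (n : ℝ) * (600 * 15 ^ (j + 2)) ≤ n * (n : ℝ) ^ (j + 1) :=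
      mul_le_mul_of_nonneg_left (hn.trans hX2) hN0.le
    linarith
  -- second term
  have a2 : 30 ^ (j + 2) * (3 * ((k : ℝ) ^ (j + 2) * n)) ≤ 1 / 100 * (n : ℝ) ^ (j + 2) := by
    have h1 : (k : ℝ) ^ (j + 2) * n ≤ 1 / (1800 * 60 ^ (j + 2)) * (n : ℝ) ^ (j + 2) := by
      calc (k : ℝ) ^ (j + 2) * n ≤ 1 / (1800 * 60 ^ (j + 2)) * (n : ℝ) ^ (j + 1) * n :=
            mul_le_mul_of_nonneg_right hkm hN0.le
        _ = _ := by rw [hX1]; ring
    calc 30 ^ (j + 2) * (3 * ((k : ℝ) ^ (j + 2) * n))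
        ≤ 60 ^ (j + 2) * (3 * (1 / (1800 * 60 ^ (j + 2)) * (n : ℝ) ^ (j + 2))) := by
          apply mul_le_mul h30' _ (by positivity) (by positivity)
          linarith
      _ = 1 / 600 * (n : ℝ) ^ (j + 2) := by
          field_simp
          norm_num
      _ ≤ _ := by
          apply mul_le_mul_of_nonneg_right _ hX0.le
          norm_num
  -- third term
  have a3 : 30 ^ (j + 2) * (18 * (((k : ℝ) + s) ^ (j + 1) * k)) ≤
      (1 / 100 + s / 1000) * (n : ℝ) ^ (j + 2) := by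
    have h1 : ((k : ℝ) + s) ^ (j + 1) ≤ 2 ^ j * ((k : ℝ) ^ (j + 1) + (s : ℝ) ^ (j + 1)) := by
      have := add_pow_le hK hS (j + 1)
      simpa using this
    have h2 : (s : ℝ) ^ (j + 1) * k ≤ θ * s * (n : ℝ) ^ (j + 2) := by
      have h3 : (s : ℝ) ^ j ≤ (n : ℝ) ^ j := by
        apply pow_le_pow_left₀ hS
        nlinarith
      calc (s : ℝ) ^ (j + 1) * k = s * ((s : ℝ) ^ j * k) := by ring
        _ ≤ s * ((n : ℝ) ^ j * (θ * n)) := by
            apply mul_le_mul_of_nonneg_left _ hS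
            exact mul_le_mul h3 hk hK (by positivity)
        _ = θ * s * (n : ℝ) ^ (j + 1) := by ring
        _ ≤ θ * s * (n : ℝ) ^ (j + 2) := mul_le_mul_of_nonneg_left hX (by positivity)
    have h3 : (k : ℝ) ^ (j + 1) * k ≤ 1 / (1800 * 60 ^ (j + 2)) * (n : ℝ) ^ (j + 2) := by
      calc (k : ℝ) ^ (j + 1) * k = (k : ℝ) ^ (j + 2) := by ring
        _ ≤ 1 / (1800 * 60 ^ (j + 2)) * (n : ℝ) ^ (j + 1) := hkm
        _ ≤ _ := mul_le_mul_of_nonneg_left hX (by positivity)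
    have h4 : ((k : ℝ) + s) ^ (j + 1) * k ≤
        2 ^ j * ((1 / (1800 * 60 ^ (j + 2)) + θ * s) * (n : ℝ) ^ (j + 2)) := by
      calc ((k : ℝ) + s) ^ (j + 1) * k
          ≤ 2 ^ j * ((k : ℝ) ^ (j + 1) + (s : ℝ) ^ (j + 1)) * k :=
            mul_le_mul_of_nonneg_right h1 hK
        _ = 2 ^ j * ((k : ℝ) ^ (j + 1) * k + (s : ℝ) ^ (j + 1) * k) := by ring
        _ ≤ 2 ^ j * (1 / (1800 * 60 ^ (j + 2)) * (n : ℝ) ^ (j + 2) +
              θ * s * (n : ℝ) ^ (j + 2)) := by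
            apply mul_le_mul_of_nonneg_left _ (by positivity)
            linarith
        _ = _ := by ring
    calc 30 ^ (j + 2) * (18 * (((k : ℝ) + s) ^ (j + 1) * k))
        ≤ 30 ^ (j + 2) * (18 * (2 ^ j * ((1 / (1800 * 60 ^ (j + 2)) + θ * s) *
            (n : ℝ) ^ (j + 2)))) := by
          apply mul_le_mul_of_nonneg_left _ (by positivity)
          linarith
      _ = (30 ^ (j + 2) * 2 ^ j) * (18 * ((1 / (1800 * 60 ^ (j + 2)) + θ * s) *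
            (n : ℝ) ^ (j + 2))) := by ring
      _ ≤ 60 ^ (j + 2) * (18 * ((1 / (1800 * 60 ^ (j + 2)) + θ * s) *
            (n : ℝ) ^ (j + 2))) :=
          mul_le_mul_of_nonneg_right h30 (by positivity)
      _ = (18 * (60 ^ (j + 2) * (1 / (1800 * 60 ^ (j + 2)))) + 18 * (θ * 60 ^ (j + 2)) * s) *
            (n : ℝ) ^ (j + 2) := by ring
      _ = (1 / 100 + s / 1000) * (n : ℝ) ^ (j + 2) := by
          rw [hθ60]
          have : (60 : ℝ) ^ (j + 2) * (1 / (1800 * 60 ^ (j + 2))) = 1 / 1800 := by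
            field_simp
          rw [this]
          ring
  -- fourth term
  have a4 : 30 ^ (j + 2) * (18 * (((k : ℝ) + s) ^ (j + 1) * (s : ℝ) ^ 2)) ≤
      s / 1000 * (n : ℝ) ^ (j + 2) := by
    have h1 : ((k : ℝ) + s) ^ (j + 1) ≤ (n : ℝ) ^ (j + 1) := by
      apply pow_le_pow_left₀ (by positivity)
      nlinarith
    have h2 : (s : ℝ) ^ 2 ≤ s * (θ * n) := by
      rw [sq]
      exact mul_le_mul_of_nonneg_left hs hS
    calc 30 ^ (j + 2) * (18 * (((k : ℝ) + s) ^ (j + 1) * (s : ℝ) ^ 2))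
        ≤ 60 ^ (j + 2) * (18 * ((n : ℝ) ^ (j + 1) * (s * (θ * n)))) := by
          apply mul_le_mul h30' _ (by positivity) (by positivity)
          apply mul_le_mul_of_nonneg_left _ (by norm_num)
          exact mul_le_mul h1 h2 (by positivity) (by positivity)
      _ = 18 * (θ * 60 ^ (j + 2)) * s * (n : ℝ) ^ (j + 2) := by rw [hX1]; ring
      _ = s / 1000 * (n : ℝ) ^ (j + 2) := by rw [hθ60]; ring
  unfold RM
  rw [div_pow, div_mul_eq_mul_div, div_le_iff₀ hX0]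
  have e1 : (15 : ℝ) ^ (j + 2) * (6 * n + 3 * 2 ^ (j + 2) * ((k : ℝ) ^ (j + 2) * n + 6 *
      ((k : ℝ) + s) ^ (j + 1) * (k + (s : ℝ) ^ 2))) =
      15 ^ (j + 2) * (6 * (n : ℝ)) + (15 ^ (j + 2) * 2 ^ (j + 2)) *
      (3 * ((k : ℝ) ^ (j + 2) * n)) + (15 ^ (j + 2) * 2 ^ (j + 2)) *
      (18 * (((k : ℝ) + s) ^ (j + 1) * k)) + (15 ^ (j + 2) * 2 ^ (j + 2)) *
      (18 * (((k : ℝ) + s) ^ (j + 1) * (s : ℝ) ^ 2)) := by ring
  have e2 : j + 2 - 1 = j + 1 := by omega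
  rw [e2, e1, h1530]
  have a5 : 0 ≤ (s : ℝ) * (n : ℝ) ^ (j + 2) := by positivity
  nlinarith

/-- the bound for one factorization -/
lemma UUM_core (hADM : Stmt_ADM) (hPRM : Stmt_PRM) (j n k : ℕ)
    (G : Fin k → SimpleGraph (Fin n)) (e : Fin 3 → Fin k) (θ : ℝ)
    (hθ : θ = 1 / (18000 * 60 ^ (j + 2))) (hn : 600 * 15 ^ (j + 2) ≤ (n : ℝ))
    (hkm : (k : ℝ) ^ (j + 2) ≤ 1 / (1800 * 60 ^ (j + 2)) * (n : ℝ) ^ (j + 1))
    (hS : SitU G e θ) :
    27 * ∏ l, gammaT (G l) ≤ NN n ^ (k - 3) * (n + 6 * (j + 2)) ^ 3 := by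
  have hc15 : (1 : ℝ) ≤ 15 ^ (j + 2) := one_le_pow₀ (by norm_num)
  have hn2 : 2 ≤ n := by
    have : (2 : ℝ) ≤ n := by linarith
    exact_mod_cast this
  have hinj := hS.sit.inj
  have hNN := UUM_NN n
  have hgam := hS.leN
  have hN0 : 0 < NN n := by omega
  have hN0' : (0 : ℝ) < NN n := by exact_mod_cast hN0
  have hn0 : (0 : ℝ) < n := by linarith
  have hNn : (NN n : ℝ) ≤ n := by exact_mod_cast hNN.1
  have hθ2 : 100 * 15 ^ (j + 2) * θ ≤ 1 := by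
    have h1 : (15 : ℝ) ^ (j + 2) ≤ 60 ^ (j + 2) := pow_le_pow_left₀ (by norm_num) (by norm_num) _
    rw [hθ, mul_one_div, div_le_one (by positivity)]
    have h2 : (0 : ℝ) < 60 ^ (j + 2) := by positivity
    linarith
  have hA := hADM (j + 2) n k G e θ (by omega) hθ2 hS
  have hRU := UUM_RM j n k (sn G e) θ hθ hn hS.kn hS.def' hkm
  have hσR : (sn G e : ℝ) = ∑ l ∈ oth e, ((NN n : ℝ) - gammaT (G l)) := by
    unfold sn
    rw [Nat.cast_sum]
    exact sum_congr rfl fun l _ => Nat.cast_sub (hgam l)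
  have hsg : sg G e = ((gammaT (G (e 0)) + gammaT (G (e 1)) + gammaT (G (e 2)) : ℕ) : ℝ) := by
    unfold sg
    rw [Fin.sum_univ_three]
    push_cast
    rfl
  rcases Nat.eq_zero_or_pos (sn G e) with h4 | h4
  · have h5 : sg G e < ((n + 6 * (j + 2) + 1 : ℕ) : ℝ) := by
      rw [h4] at hA hRU
      rw [Nat.cast_zero] at hRU
      push_cast at hA ⊢
      linarith
    rw [hsg] at h5
    have h6 : gammaT (G (e 0)) + gammaT (G (e 1)) + gammaT (G (e 2)) < n + 6 * (j + 2) + 1 := by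
      exact_mod_cast h5
    have h7 : gammaT (G (e 0)) + gammaT (G (e 1)) + gammaT (G (e 2)) ≤ n + 6 * (j + 2) := by omega
    have h8 := UUM_prod hgam e hinj (B := gammaT (G (e 0)) * gammaT (G (e 1)) * gammaT (G (e 2)))
      le_rfl
    have h9 := UUM_amgm (gammaT (G (e 0))) (gammaT (G (e 1))) (gammaT (G (e 2)))
    have h10 := Nat.pow_le_pow_left h7 3
    calc 27 * ∏ l, gammaT (G l) ≤ 27 * (NN n ^ (k - 3) *
          (gammaT (G (e 0)) * gammaT (G (e 1)) * gammaT (G (e 2)))) :=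
          Nat.mul_le_mul_left 27 h8
      _ = NN n ^ (k - 3) * (27 * (gammaT (G (e 0)) * gammaT (G (e 1)) * gammaT (G (e 2)))) := by
          ring
      _ ≤ NN n ^ (k - 3) * (n + 6 * (j + 2)) ^ 3 := Nat.mul_le_mul_left _ (h9.trans h10)
  · have h4' : (1 : ℝ) ≤ sn G e := by exact_mod_cast h4
    obtain ⟨r, hrd⟩ : ∃ r : ℝ, r = 1 / 10 + (sn G e : ℝ) / 100 := ⟨_, rfl⟩
    have hr1 : 0 ≤ r := by rw [hrd]; positivity
    have h1 := hPRM k n (NN n) (6 * (j + 2)) (fun l => gammaT (G l)) e r hN0 hNN.1 hinj hr1 hgam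
      (by
        have h2 : (∑ i, (gammaT (G (e i)) : ℝ)) = sg G e := rfl
        rw [h2]
        push_cast at hA ⊢
        linarith)
    rw [← hσR] at h1
    have h2 : 3 * r / n - (sn G e : ℝ) / NN n ≤ 0 := by
      have h5 : (sn G e : ℝ) / n ≤ (sn G e : ℝ) / NN n :=
        div_le_div_of_nonneg_left (by linarith) hN0' hNn
      have h6 : 3 * r / n - (sn G e : ℝ) / n ≤ 0 := by
        have h7 : 3 * r / n - (sn G e : ℝ) / n = (3 * r - sn G e) / n := by ring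
        rw [h7]
        apply div_nonpos_of_nonpos_of_nonneg _ hn0.le
        rw [hrd]
        linarith
      linarith
    have h3 : (∏ l, (gammaT (G l) : ℝ)) ≤
        (NN n : ℝ) ^ (k - 3) * (((n : ℝ) + (6 * (j + 2) : ℕ)) / 3) ^ 3 := by
      refine h1.trans ?_
      have h5 : Real.exp (3 * r / n - (sn G e : ℝ) / NN n) ≤ 1 := Real.exp_le_one_iff.2 h2
      have h6 : (0 : ℝ) ≤ (NN n : ℝ) ^ (k - 3) * (((n : ℝ) + (6 * (j + 2) : ℕ)) / 3) ^ 3 := by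
        positivity
      calc _ ≤ (NN n : ℝ) ^ (k - 3) * (((n : ℝ) + (6 * (j + 2) : ℕ)) / 3) ^ 3 * 1 :=
            mul_le_mul_of_nonneg_left h5 h6
        _ = _ := by ring
    have h7 : (27 : ℝ) * ∏ l, (gammaT (G l) : ℝ) ≤
        (NN n : ℝ) ^ (k - 3) * ((n : ℝ) + (6 * (j + 2) : ℕ)) ^ 3 := by
      have h8 : (NN n : ℝ) ^ (k - 3) * (((n : ℝ) + (6 * (j + 2) : ℕ)) / 3) ^ 3 =
        (NN n : ℝ) ^ (k - 3) * ((n : ℝ) + (6 * (j + 2) : ℕ)) ^ 3 / 27 := by ring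
      rw [h8] at h3
      linarith
    exact_mod_cast h7

theorem stmt_UUM : Stmt_STU → Stmt_ADM → Stmt_PRM → Stmt_UUM := by
  intro hSTU hADM hPRM m hm
  obtain ⟨j, rfl⟩ : ∃ j, m = j + 2 := ⟨m - 2, by omega⟩
  have hc : (1 : ℝ) ≤ 60 ^ (j + 2) := one_le_pow₀ (by norm_num)
  obtain ⟨θ, hθ⟩ : ∃ θ : ℝ, θ = 1 / (18000 * 60 ^ (j + 2)) := ⟨_, rfl⟩
  have hθ0 : 0 < θ := by rw [hθ]; positivity
  have hθ1 : θ ≤ 1 / 1000 := by
    rw [hθ, div_le_div_iff₀ (by positivity) (by norm_num)]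
    linarith
  obtain ⟨δ1, hδ1, n1, hn1⟩ := hSTU θ hθ0 hθ1
  refine ⟨min (δ1 ^ (j + 2)) (1 / (1800 * 60 ^ (j + 2))), max n1 (600 * 15 ^ (j + 2)),
    lt_min (by positivity) (by positivity), ?_⟩
  intro n k hn hk hkn
  have e2 : j + 2 - 1 = j + 1 := by omega
  rw [e2] at hkn
  have hna : n1 ≤ n := (le_max_left _ _).trans hn
  have hnb : 600 * 15 ^ (j + 2) ≤ n := (le_max_right _ _).trans hn
  have hnb' : 600 * 15 ^ (j + 2) ≤ (n : ℝ) := by exact_mod_cast hnb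
  have hc15 : (1 : ℝ) ≤ 15 ^ (j + 2) := one_le_pow₀ (by norm_num)
  have hN1 : (1 : ℝ) ≤ n := by linarith
  have hn0 : (0 : ℝ) < n := by linarith
  have hX : (n : ℝ) ^ (j + 1) ≤ (n : ℝ) ^ (j + 2) := pow_le_pow_right₀ hN1 (by omega)
  have hk1 : (k : ℝ) ^ (j + 2) ≤ (δ1 * n) ^ (j + 2) := by
    calc (k : ℝ) ^ (j + 2) ≤ min (δ1 ^ (j + 2)) (1 / (1800 * 60 ^ (j + 2))) *
          (n : ℝ) ^ (j + 1) := hkn
      _ ≤ δ1 ^ (j + 2) * (n : ℝ) ^ (j + 2) :=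
          mul_le_mul (min_le_left _ _) hX (by positivity) (by positivity)
      _ = _ := by rw [mul_pow]
  have hk2 : (k : ℝ) ^ (j + 2) ≤ 1 / (1800 * 60 ^ (j + 2)) * (n : ℝ) ^ (j + 1) :=
    hkn.trans (mul_le_mul_of_nonneg_right (min_le_right _ _) (by positivity))
  have hk3 : (k : ℝ) ≤ δ1 * n :=
    le_of_pow_le_pow_left₀ (by omega) (by positivity) hk1
  have hcore : ∀ G : Fin k → SimpleGraph (Fin n), IsFactorization G →
      27 * ∏ l, gammaT (G l) ≤ NN n ^ (k - 3) * (n + 6 * (j + 2)) ^ 3 := by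
    intro G hG
    rcases le_or_gt (1 / 27 * (NN n : ℝ) ^ k) (∏ j, (gammaT (G j) : ℝ)) with h1 | h1
    · obtain ⟨e, hS⟩ := hn1 n k hna hk hk3 G hG h1
      exact UUM_core hADM hPRM j n k G e θ hθ hnb' hk2 hS
    · have h2 : 27 * ∏ j, gammaT (G j) ≤ NN n ^ k := by
        have h3 : (27 : ℝ) * ∏ j, (gammaT (G j) : ℝ) ≤ (NN n : ℝ) ^ k := by linarith
        exact_mod_cast h3
      have h3 : NN n ^ k = NN n ^ (k - 3) * NN n ^ 3 := by
        rw [← pow_add]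
        congr 1
        omega
      rw [h3] at h2
      have h4 := (UUM_NN n).1
      exact h2.trans (Nat.mul_le_mul_left _ (Nat.pow_le_pow_left (by omega) 3))
  rcases P_attained n k with h0 | ⟨G, hG, hP⟩
  · rw [h0]
    exact Nat.zero_le _
  · rw [hP]
    exact hcore G hG

end Pool.Agent.Work.MP_1ce445_fx
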