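import Pool.Agent.Work.MP_1ce445_fx.InterfaceP
import Pool.Agent.Work.MP_1ce445_fx.UUM
import Pool.Agent.Work.MP_1ce445_fx.NUN

/-! # Block UUN: the exact upper bound for growing `k`, general `m` -/

namespace Pool.Agent.Work.MP_1ce445_fx

open Finset Pool.Agent.Work.MP_1ce445_co_56 Pool.Agent.Work.MP_1ce445_lin

/-- numbers: a small negative exponent is enough -/
lemma UUN_exp (n M T E : ℝ) (hn : 0 < n) (hM : 100 ≤ M) (hnM : n ≤ M)
    (hT : M ^ 3 ≤ 27 * T + 12 * M + 24) (hE : E ≤ -(1 / (2 * n))) :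
    (M / 3) ^ 3 * Real.exp E ≤ T := by
  have h2 : Real.exp E ≤ 2 * n / (2 * n + 1) := by
    have h3 := Real.exp_le_exp.2 hE
    have h4 := Real.add_one_le_exp (1 / (2 * n))
    have h5 : Real.exp (-(1 / (2 * n))) = (Real.exp (1 / (2 * n)))⁻¹ := Real.exp_neg _
    have h6 : (Real.exp (1 / (2 * n)))⁻¹ ≤ (1 / (2 * n) + 1)⁻¹ := by
      apply inv_anti₀ (by positivity) h4
    have h7 : (1 / (2 * n) + 1)⁻¹ = 2 * n / (2 * n + 1) := by
      field_simp
      ring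
    rw [h5] at h3
    linarith
  have h3 : (M / 3) ^ 3 * Real.exp E ≤ (M / 3) ^ 3 * (2 * n / (2 * n + 1)) :=
    mul_le_mul_of_nonneg_left h2 (by positivity)
  refine h3.trans ?_
  rw [mul_div_assoc', div_le_iff₀ (by linarith)]
  have h4 : (M / 3) ^ 3 = M ^ 3 / 27 := by ring
  rw [h4]
  have h5 : (12 * M + 24) * (2 * n + 1) ≤ M ^ 3 := by
    have h6 : (12 * M + 24) * (2 * n + 1) ≤ (12 * M + 24) * (2 * M + 1) := by
      apply mul_le_mul_of_nonneg_left (by linarith) (by linarith)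
    have h7 : 100 * M ^ 2 ≤ M ^ 3 := by
      have : M ^ 3 = M * M ^ 2 := by ring
      rw [this]
      exact mul_le_mul_of_nonneg_right hM (by positivity)
    have h8 : 100 * M ≤ M ^ 2 := by nlinarith
    nlinarith
  have h6 := mul_le_mul_of_nonneg_right hT (by linarith : (0 : ℝ) ≤ 2 * n + 1)
  nlinarith

/-- the odd case with a large deficit -/
lemma UUN_odd (n N c σ r T : ℝ) (hN : 100 ≤ N) (hn : n = N + 1) (hc : 1 ≤ c) (hσ : 4 ≤ σ)
    (hr : r = 1 / 10 + σ / 100) (hT : (N + c) ^ 3 ≤ 27 * T + 12 * (N + c) + 24) :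
    ((n + c) / 3) ^ 3 * Real.exp (3 * r / n - σ / N) ≤ T := by
  have hn0 : 0 < n := by linarith
  have h1 : (n + c) ≤ (N + c) * Real.exp (1 / (N + c)) := by
    have h2 := Real.add_one_le_exp (1 / (N + c))
    have h3 : (N + c) * (1 / (N + c) + 1) ≤ (N + c) * Real.exp (1 / (N + c)) :=
      mul_le_mul_of_nonneg_left h2 (by linarith)
    have h4 : (N + c) * (1 / (N + c) + 1) = n + c := by
      have : N + c ≠ 0 := by linarith
      field_simp
      rw [hn]; ring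
    linarith
  have h2 : (n + c) ^ 3 ≤ (N + c) ^ 3 * Real.exp (3 / (N + c)) := by
    calc (n + c) ^ 3 ≤ ((N + c) * Real.exp (1 / (N + c))) ^ 3 :=
          pow_le_pow_left₀ (by linarith) h1 3
      _ = (N + c) ^ 3 * Real.exp (3 / (N + c)) := by
          rw [mul_pow, ← Real.exp_nat_mul]
          congr 2
          push_cast
          ring
  have h3 : 3 / (N + c) + (3 * r / n - σ / N) ≤ -(1 / (2 * n)) := by
    have h4 : 3 / (N + c) ≤ 3 / n := by
      apply div_le_div_of_nonneg_left (by norm_num) hn0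
      linarith
    have h5 : σ / n ≤ σ / N := by
      apply div_le_div_of_nonneg_left (by linarith) (by linarith)
      linarith
    have h6 : 3 / n + 3 * r / n - σ / n + 1 / (2 * n) ≤ 0 := by
      have h7 : 3 / n + 3 * r / n - σ / n + 1 / (2 * n) = (3 + 3 * r - σ + 1 / 2) / n := by
        field_simp
      rw [h7]
      apply div_nonpos_of_nonpos_of_nonneg _ hn0.le
      rw [hr]
      linarith
    linarith
  calc ((n + c) / 3) ^ 3 * Real.exp (3 * r / n - σ / N)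
      = (n + c) ^ 3 * Real.exp (3 * r / n - σ / N) / 27 := by ring
    _ ≤ ((N + c) ^ 3 * Real.exp (3 / (N + c))) *
        Real.exp (3 * r / n - σ / N) / 27 := by
        apply div_le_div_of_nonneg_right _ (by norm_num)
        exact mul_le_mul_of_nonneg_right h2 (Real.exp_pos _).le
    _ = ((N + c) / 3) ^ 3 * Real.exp (3 / (N + c) + (3 * r / n - σ / N)) := by
        rw [Real.exp_add]; ring
    _ ≤ T := UUN_exp n (N + c) T _ hn0 (by linarith) (by linarith) hT h3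

/-- the even case with a positive deficit -/
lemma UUN_even (n c σ r T : ℝ) (hn : 100 ≤ n) (hc : 0 ≤ c) (hσ : 1 ≤ σ)
    (hr : r = 1 / 10 + σ / 100) (hT : (n + c) ^ 3 ≤ 27 * T + 12 * (n + c) + 24) :
    ((n + c) / 3) ^ 3 * Real.exp (3 * r / n - σ / n) ≤ T := by
  have hn0 : 0 < n := by linarith
  apply UUN_exp n (n + c) T _ hn0 (by linarith) (by linarith) hT
  have h2 : 3 * r / n - σ / n + 1 / (2 * n) = (3 * r - σ + 1 / 2) / n := by
    field_simp
  have h3 : (3 * r - σ + 1 / 2) / n ≤ 0 := by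
    apply div_nonpos_of_nonpos_of_nonneg _ hn0.le
    rw [hr]
    linarith
  linarith

/-- the bound for one factorization -/
lemma UUN_core (hADM : Stmt_ADM) (hPRM : Stmt_PRM) (hNUN : Stmt_NUN) (j n k : ℕ)
    (G : Fin k → SimpleGraph (Fin n)) (e : Fin 3 → Fin k) (θ : ℝ)
    (hθ : θ = 1 / (18000 * 60 ^ (j + 2))) (hn : 600 * 15 ^ (j + 2) ≤ (n : ℝ))
    (hkm : (k : ℝ) ^ (j + 2) ≤ 1 / (1800 * 60 ^ (j + 2)) * (n : ℝ) ^ (j + 1))
    (hS : SitU G e θ)
    (hpar : sn G e ≤ 3 → (n : ℝ) + 6 * ((j + 2 : ℕ) : ℝ) ≤ sg G e →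
      Even n ∧ ∀ i, Even (gammaT (G (e i)))) :
    (Odd n → ∏ l, gammaT (G l) ≤ NN n ^ (k - 3) * NUN_T (NN n + 6 * (j + 2))) ∧
    (Even n → ∏ l, gammaT (G l) ≤ NN n ^ (k - 3) * TTm (j + 2) (n / 2)) := by
  have hc15 : (1 : ℝ) ≤ 15 ^ (j + 2) := one_le_pow₀ (by norm_num)
  have hn200 : (200 : ℝ) ≤ n := by linarith
  have hn200' : 200 ≤ n := by exact_mod_cast hn200
  have hinj := hS.sit.inj
  have hNN := UUM_NN n
  have hgam := hS.leN
  have hN0 : 0 < NN n := by omega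
  have hN0' : (0 : ℝ) < NN n := by exact_mod_cast hN0
  have hn0 : (0 : ℝ) < n := by linarith
  have hNn : (NN n : ℝ) ≤ n := by exact_mod_cast hNN.1
  have hθ2 : 100 * 15 ^ (j + 2) * θ ≤ 1 := by
    have h1 : (15 : ℝ) ^ (j + 2) ≤ 60 ^ (j + 2) := pow_le_pow_left₀ (by norm_num) (by norm_num) _
    rw [hθ, mul_one_div, div_le_one (by positivity)]
    have h2 : (0 : ℝ) < 60 ^ (j + 2) := by positivity
    linarith
  have hA := hADM (j + 2) n k G e θ (by omega) hθ2 hS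
  have hRU := UUM_RM j n k (sn G e) θ hθ hn hS.kn hS.def' hkm
  have hσR : (sn G e : ℝ) = ∑ l ∈ oth e, ((NN n : ℝ) - gammaT (G l)) := by
    unfold sn
    rw [Nat.cast_sum]
    exact sum_congr rfl fun l _ => Nat.cast_sub (hgam l)
  have hsg : sg G e = ((gammaT (G (e 0)) + gammaT (G (e 1)) + gammaT (G (e 2)) : ℕ) : ℝ) := by
    unfold sg
    rw [Fin.sum_univ_three]
    push_cast
    rfl
  -- the bound from PRM
  obtain ⟨r, hrd⟩ : ∃ r : ℝ, r = 1 / 10 + (sn G e : ℝ) / 100 := ⟨_, rfl⟩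
  have hr1 : 0 ≤ r := by rw [hrd]; positivity
  have hP := hPRM k n (NN n) (6 * (j + 2)) (fun l => gammaT (G l)) e r hN0 hNN.1 hinj hr1 hgam
    (by
      have h2 : (∑ i, (gammaT (G (e i)) : ℝ)) = sg G e := rfl
      rw [h2]
      push_cast at hA ⊢
      linarith)
  rw [← hσR, mul_assoc] at hP
  -- small deficit
  have hsmall : sn G e ≤ 3 →
      gammaT (G (e 0)) + gammaT (G (e 1)) + gammaT (G (e 2)) ≤ n + 6 * (j + 2) := by
    intro h3
    have h3' : (sn G e : ℝ) ≤ 3 := by exact_mod_cast h3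
    have h5 : sg G e < ((n + 6 * (j + 2) + 1 : ℕ) : ℝ) := by
      push_cast at hA ⊢
      linarith
    rw [hsg] at h5
    have h6 : gammaT (G (e 0)) + gammaT (G (e 1)) + gammaT (G (e 2)) < n + 6 * (j + 2) + 1 := by
      exact_mod_cast h5
    omega
  have hpar' : sn G e ≤ 3 →
      gammaT (G (e 0)) + gammaT (G (e 1)) + gammaT (G (e 2)) = n + 6 * (j + 2) →
      Even n ∧ ∀ i, Even (gammaT (G (e i))) := by
    intro h3 h4
    apply hpar h3
    rw [hsg, h4]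
    push_cast
    exact le_rfl
  constructor
  · -- odd
    intro hodd
    have hnN : n = NN n + 1 := by
      unfold NN
      obtain ⟨m, hm⟩ := hodd
      omega
    rcases Nat.lt_or_ge (sn G e) 4 with h4 | h4
    · have h3 : sn G e ≤ 3 := by omega
      have h5 := hsmall h3
      have h6 : gammaT (G (e 0)) + gammaT (G (e 1)) + gammaT (G (e 2)) ≠ n + 6 * (j + 2) := by
        intro h7
        exact (Nat.not_even_iff_odd.2 hodd) (hpar' h3 h7).1
      have h7 : gammaT (G (e 0)) + gammaT (G (e 1)) + gammaT (G (e 2)) ≤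
          NN n + 6 * (j + 2) := by omega
      exact UUM_prod hgam e hinj (NUN_all _ _ _ _ h7)
    · have h4' : (4 : ℝ) ≤ sn G e := by exact_mod_cast h4
      have hT := NUN_low (NN n + 6 * (j + 2))
      have hT' : ((NN n : ℝ) + ((6 * (j + 2) : ℕ) : ℝ)) ^ 3 ≤
          27 * (NUN_T (NN n + 6 * (j + 2)) : ℝ) + 12 * ((NN n : ℝ) + ((6 * (j + 2) : ℕ) : ℝ)) +
            24 := by
        have h5 : (((NN n + 6 * (j + 2) : ℕ) : ℝ)) ^ 3 ≤
            27 * (NUN_T (NN n + 6 * (j + 2)) : ℝ) + 3 * ((NN n + 6 * (j + 2) : ℕ) : ℝ) + 2 := by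
          exact_mod_cast hT
        rw [Nat.cast_add] at h5
        have h6 : (0 : ℝ) ≤ (NN n : ℝ) + ((6 * (j + 2) : ℕ) : ℝ) := by positivity
        linarith
      have h5 := UUN_odd n (NN n) ((6 * (j + 2) : ℕ) : ℝ) (sn G e) r
        (NUN_T (NN n + 6 * (j + 2))) (by
          have : 100 ≤ NN n := by omega
          exact_mod_cast this) (by exact_mod_cast hnN) (by
          have : 1 ≤ 6 * (j + 2) := by omega
          exact_mod_cast this) h4' hrd hT'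
      have h6 := mul_le_mul_of_nonneg_left h5
        (by positivity : (0 : ℝ) ≤ (NN n : ℝ) ^ (k - 3))
      have h7 := hP.trans h6
      exact_mod_cast h7
  · -- even
    intro heven
    obtain ⟨q, hq⟩ := heven
    have hq2 : n / 2 = q := by omega
    have hnN : NN n = n := by
      unfold NN
      omega
    rw [hq2]
    have hT := hNUN.2.1 (j + 2) q
    rcases Nat.eq_zero_or_pos (sn G e) with h4 | h4
    · have h3 : sn G e ≤ 3 := by omega
      have h5 := hsmall h3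
      by_cases h6 : gammaT (G (e 0)) + gammaT (G (e 1)) + gammaT (G (e 2)) = n + 6 * (j + 2)
      · have h7 := (hpar' h3 h6).2
        exact UUM_prod hgam e hinj (hNUN.1 (j + 2) q _ _ _ (h7 0) (h7 1) (h7 2) (by omega))
      · apply UUM_prod hgam e hinj
        obtain ⟨Q, hQ⟩ : ∃ Q, Q = q + 3 * (j + 2) := ⟨_, rfl⟩
        rw [← hQ] at hT
        obtain ⟨S, hS'⟩ : ∃ S, 2 * Q = S + 1 := ⟨2 * Q - 1, by omega⟩
        have h7 : gammaT (G (e 0)) + gammaT (G (e 1)) + gammaT (G (e 2)) ≤ S := by omega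
        have h9 := UUM_amgm (gammaT (G (e 0))) (gammaT (G (e 1))) (gammaT (G (e 2)))
        have h10 := Nat.pow_le_pow_left h7 3
        have h11 : S ^ 3 + 24 * (Q + 1) ≤ 8 * Q ^ 3 := by
          have h12 : 8 * Q ^ 3 = (S + 1) ^ 3 := by rw [← hS']; ring
          rw [h12]
          have h13 : 24 * (Q + 1) = 12 * S + 36 := by omega
          rw [h13]
          have h14 : 100 ≤ S := by omega
          nlinarith
        omega
    · have h4' : (1 : ℝ) ≤ sn G e := by exact_mod_cast h4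
      have hT' : ((n : ℝ) + ((6 * (j + 2) : ℕ) : ℝ)) ^ 3 ≤
          27 * (TTm (j + 2) q : ℝ) + 12 * ((n : ℝ) + ((6 * (j + 2) : ℕ) : ℝ)) + 24 := by
        obtain ⟨Q, hQ⟩ : ∃ Q, Q = q + 3 * (j + 2) := ⟨_, rfl⟩
        rw [← hQ] at hT
        have h5 : (8 : ℝ) * (Q : ℝ) ^ 3 ≤ 27 * (TTm (j + 2) q : ℝ) + 24 * ((Q : ℝ) + 1) := by
          exact_mod_cast hT
        have h6 : (n : ℝ) + ((6 * (j + 2) : ℕ) : ℝ) = 2 * (Q : ℝ) := by
          rw [hQ, hq]
          push_cast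
          ring
        rw [h6]
        have h7 : (2 * (Q : ℝ)) ^ 3 = 8 * (Q : ℝ) ^ 3 := by ring
        rw [h7]
        linarith
      have h5 := UUN_even n ((6 * (j + 2) : ℕ) : ℝ) (sn G e) r (TTm (j + 2) q) (by linarith)
        (Nat.cast_nonneg _) h4' hrd hT'
      rw [hnN] at hP
      have h6 := mul_le_mul_of_nonneg_left h5
        (by positivity : (0 : ℝ) ≤ (n : ℝ) ^ (k - 3))
      rw [hnN]
      have h7 := hP.trans h6
      exact_mod_cast h7

/-- the error term for `s = 3` -/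
lemma UUN_RM (j n k : ℕ) (hk : 3 ≤ k) (hn : 24 * 2 ^ (j + 2) ≤ (n : ℝ)) :
    RM (j + 2) n k 3 * (n : ℝ) ^ (j + 1) ≤ 12 * 30 ^ (j + 2) * (k : ℝ) ^ (j + 2) := by
  have hk' : (3 : ℝ) ≤ k := by exact_mod_cast hk
  have h2 : (1 : ℝ) ≤ 2 ^ (j + 2) := one_le_pow₀ (by norm_num)
  have hn0 : (0 : ℝ) < n := by linarith
  have hkm : (1 : ℝ) ≤ (k : ℝ) ^ (j + 2) := one_le_pow₀ (by linarith)
  have e2 : j + 2 - 1 = j + 1 := by omega
  have h3 : 6 * ((k : ℝ) + (3 : ℕ)) ^ (j + 1) * (k + ((3 : ℕ) : ℝ) ^ 2) ≤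
      (k : ℝ) ^ (j + 2) * n := by
    have a1 : ((k : ℝ) + (3 : ℕ)) ^ (j + 1) ≤ (2 * k) ^ (j + 1) := by
      apply pow_le_pow_left₀ (by positivity)
      push_cast
      linarith
    have a2 : (k : ℝ) + ((3 : ℕ) : ℝ) ^ 2 ≤ 4 * k := by
      push_cast
      linarith
    calc 6 * ((k : ℝ) + (3 : ℕ)) ^ (j + 1) * (k + ((3 : ℕ) : ℝ) ^ 2)
        ≤ 6 * (2 * k) ^ (j + 1) * (4 * k) := by
          apply mul_le_mul _ a2 (by positivity) (by positivity)
          linarith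
      _ = 12 * 2 ^ (j + 2) * (k : ℝ) ^ (j + 2) := by ring
      _ ≤ n * (k : ℝ) ^ (j + 2) := by
          apply mul_le_mul_of_nonneg_right _ (by positivity)
          linarith
      _ = _ := by ring
  have h4 : 6 * (n : ℝ) + 3 * 2 ^ (j + 2) * ((k : ℝ) ^ (j + 2) * n + 6 *
      ((k : ℝ) + (3 : ℕ)) ^ (j + 1) * (k + ((3 : ℕ) : ℝ) ^ 2)) ≤
      12 * 2 ^ (j + 2) * ((k : ℝ) ^ (j + 2) * n) := by
    have a1 : (n : ℝ) ≤ (k : ℝ) ^ (j + 2) * n := by nlinarith
    have a2 : (k : ℝ) ^ (j + 2) * n ≤ 2 ^ (j + 2) * ((k : ℝ) ^ (j + 2) * n) := by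
      have : (0 : ℝ) ≤ (k : ℝ) ^ (j + 2) * n := by positivity
      nlinarith
    have a3 : 3 * 2 ^ (j + 2) * ((k : ℝ) ^ (j + 2) * n + 6 *
      ((k : ℝ) + (3 : ℕ)) ^ (j + 1) * (k + ((3 : ℕ) : ℝ) ^ 2)) ≤
      3 * 2 ^ (j + 2) * ((k : ℝ) ^ (j + 2) * n + (k : ℝ) ^ (j + 2) * n) := by
      apply mul_le_mul_of_nonneg_left _ (by positivity)
      linarith
    linarith
  unfold RM
  rw [e2]
  calc (15 / (n : ℝ)) ^ (j + 2) * (6 * n + 3 * 2 ^ (j + 2) * ((k : ℝ) ^ (j + 2) * n + 6 *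
        ((k : ℝ) + (3 : ℕ)) ^ (j + 1) * (k + ((3 : ℕ) : ℝ) ^ 2))) * (n : ℝ) ^ (j + 1)
      ≤ (15 / (n : ℝ)) ^ (j + 2) * (12 * 2 ^ (j + 2) * ((k : ℝ) ^ (j + 2) * n)) *
        (n : ℝ) ^ (j + 1) := by
        apply mul_le_mul_of_nonneg_right _ (by positivity)
        exact mul_le_mul_of_nonneg_left h4 (by positivity)
    _ = 12 * (15 ^ (j + 2) * 2 ^ (j + 2)) * (k : ℝ) ^ (j + 2) := by
        rw [div_pow]
        field_simp
        ring
    _ = 12 * 30 ^ (j + 2) * (k : ℝ) ^ (j + 2) := by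
        rw [← mul_pow]
        norm_num

/-- the choice of `ε` -/
lemma UUN_par (j n k : ℕ) (θ c : ℝ) (hθ : θ = 1 / (18000 * 60 ^ (j + 2)))
    (hc0 : 0 < c) (hc : 40000 * 100 ^ (j + 2) * (12 * 30 ^ (j + 2) + 29) * c ≤ θ)
    (hk : 3 ≤ k) (hn : 24 * 2 ^ (j + 2) ≤ (n : ℝ)) (h1 : (k : ℝ) ≤ c * n)
    (h2 : (k : ℝ) ^ (j + 2) ≤ c * (n : ℝ) ^ (j + 1))
    (h3 : (k : ℝ) ^ (2 * j + 3) ≤ c * (n : ℝ) ^ (2 * j + 1)) :
    ∃ ε : ℝ, 0 < ε ∧ 1000 * 100 ^ (j + 2) * ε ≤ 1 ∧ RM (j + 2) n k 3 ≤ ε ∧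
      (10 + 25 * (k : ℝ)) / n ≤ ε ∧
      2 ^ (j + 2) * 6 * ε * (10 + 25 * (k : ℝ)) ^ (j + 1) ≤ (n : ℝ) ^ j / 4 ∧ 40 * ε ≤ θ := by
  have hk' : (3 : ℝ) ≤ k := by exact_mod_cast hk
  have h22 : (1 : ℝ) ≤ 2 ^ (j + 2) := one_le_pow₀ (by norm_num)
  have hn0 : (0 : ℝ) < n := by linarith
  have h100 : (1 : ℝ) ≤ 100 ^ (j + 2) := one_le_pow₀ (by norm_num)
  have h60 : (1 : ℝ) ≤ 60 ^ (j + 2) := one_le_pow₀ (by norm_num)
  obtain ⟨D, hD⟩ : ∃ D : ℝ, D = 12 * 30 ^ (j + 2) + 29 := ⟨_, rfl⟩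
  have hD0 : 0 < D := by rw [hD]; positivity
  rw [← hD] at hc
  have hθ1 : θ ≤ 1 := by
    rw [hθ, div_le_one (by positivity)]
    linarith
  have hR := UUN_RM j n k hk hn
  have hRM0 : 0 ≤ RM (j + 2) n k 3 := by unfold RM; positivity
  have hR1 : RM (j + 2) n k 3 ≤ 12 * 30 ^ (j + 2) * c := by
    have hX : (0 : ℝ) < (n : ℝ) ^ (j + 1) := by positivity
    have a1 : RM (j + 2) n k 3 * (n : ℝ) ^ (j + 1) ≤
        12 * 30 ^ (j + 2) * c * (n : ℝ) ^ (j + 1) := by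
      calc RM (j + 2) n k 3 * (n : ℝ) ^ (j + 1) ≤ 12 * 30 ^ (j + 2) * (k : ℝ) ^ (j + 2) := hR
        _ ≤ 12 * 30 ^ (j + 2) * (c * (n : ℝ) ^ (j + 1)) :=
            mul_le_mul_of_nonneg_left h2 (by positivity)
        _ = _ := by ring
    exact le_of_mul_le_mul_right a1 hX
  have hK : 10 + 25 * (k : ℝ) ≤ 29 * k := by linarith
  have hκ : (10 + 25 * (k : ℝ)) / n ≤ 29 * c := by
    rw [div_le_iff₀ hn0]
    linarith
  have hκ0 : 0 < (10 + 25 * (k : ℝ)) / n := by positivity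
  have hε : RM (j + 2) n k 3 + (10 + 25 * (k : ℝ)) / n ≤ D * c := by
    rw [hD]
    linarith
  have hDc : 40000 * 100 ^ (j + 2) * (D * c) ≤ θ := by
    have : 40000 * 100 ^ (j + 2) * (D * c) = 40000 * 100 ^ (j + 2) * D * c := by ring
    rw [this]
    exact hc
  have hDc0 : 0 < D * c := by positivity
  have hDc1 : D * c ≤ 100 ^ (j + 2) * (D * c) := by nlinarith
  refine ⟨RM (j + 2) n k 3 + (10 + 25 * (k : ℝ)) / n, by linarith, ?_, by linarith, by linarith,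
    ?_, by linarith⟩
  · have : 1000 * 100 ^ (j + 2) * (RM (j + 2) n k 3 + (10 + 25 * (k : ℝ)) / n) ≤
        1000 * 100 ^ (j + 2) * (D * c) := mul_le_mul_of_nonneg_left hε (by positivity)
    linarith
  · have hX : (0 : ℝ) < (n : ℝ) ^ (j + 1) := by positivity
    have b1 : (10 + 25 * (k : ℝ)) ^ (j + 1) ≤ 29 ^ (j + 1) * (k : ℝ) ^ (j + 1) := by
      rw [← mul_pow]
      exact pow_le_pow_left₀ (by positivity) hK _
    -- the first half
    have b2 : RM (j + 2) n k 3 * (k : ℝ) ^ (j + 1) ≤ 12 * 30 ^ (j + 2) * c * (n : ℝ) ^ j := by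
      have a1 : RM (j + 2) n k 3 * (k : ℝ) ^ (j + 1) * (n : ℝ) ^ (j + 1) ≤
          12 * 30 ^ (j + 2) * c * (n : ℝ) ^ j * (n : ℝ) ^ (j + 1) := by
        calc RM (j + 2) n k 3 * (k : ℝ) ^ (j + 1) * (n : ℝ) ^ (j + 1)
            = RM (j + 2) n k 3 * (n : ℝ) ^ (j + 1) * (k : ℝ) ^ (j + 1) := by ring
          _ ≤ 12 * 30 ^ (j + 2) * (k : ℝ) ^ (j + 2) * (k : ℝ) ^ (j + 1) :=
              mul_le_mul_of_nonneg_right hR (by positivity)
          _ = 12 * 30 ^ (j + 2) * (k : ℝ) ^ (2 * j + 3) := by ring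
          _ ≤ 12 * 30 ^ (j + 2) * (c * (n : ℝ) ^ (2 * j + 1)) :=
              mul_le_mul_of_nonneg_left h3 (by positivity)
          _ = _ := by ring
      exact le_of_mul_le_mul_right a1 hX
    have b3 : (10 + 25 * (k : ℝ)) / n * (k : ℝ) ^ (j + 1) ≤ 29 * c * (n : ℝ) ^ j := by
      rw [div_mul_eq_mul_div, div_le_iff₀ hn0]
      calc (10 + 25 * (k : ℝ)) * (k : ℝ) ^ (j + 1) ≤ 29 * k * (k : ℝ) ^ (j + 1) :=
            mul_le_mul_of_nonneg_right hK (by positivity)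
        _ = 29 * (k : ℝ) ^ (j + 2) := by ring
        _ ≤ 29 * (c * (n : ℝ) ^ (j + 1)) := by linarith
        _ = _ := by ring
    have b4 : (RM (j + 2) n k 3 + (10 + 25 * (k : ℝ)) / n) * (k : ℝ) ^ (j + 1) ≤
        D * c * (n : ℝ) ^ j := by
      rw [hD]
      have : (RM (j + 2) n k 3 + (10 + 25 * (k : ℝ)) / n) * (k : ℝ) ^ (j + 1) =
        RM (j + 2) n k 3 * (k : ℝ) ^ (j + 1) +
          (10 + 25 * (k : ℝ)) / n * (k : ℝ) ^ (j + 1) := by ring
      rw [this]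
      linarith
    have b5 : (2 : ℝ) ^ (j + 2) * 29 ^ (j + 1) ≤ 100 ^ (j + 2) := by
      calc (2 : ℝ) ^ (j + 2) * 29 ^ (j + 1) ≤ 2 ^ (j + 2) * 50 ^ (j + 2) := by
            apply mul_le_mul_of_nonneg_left _ (by positivity)
            calc (29 : ℝ) ^ (j + 1) ≤ 50 ^ (j + 1) :=
                  pow_le_pow_left₀ (by norm_num) (by norm_num) _
              _ ≤ 50 ^ (j + 2) := pow_le_pow_right₀ (by norm_num) (by omega)
        _ = 100 ^ (j + 2) := by
            rw [← mul_pow]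
            norm_num
    have hN : (0 : ℝ) < (n : ℝ) ^ j := by positivity
    calc 2 ^ (j + 2) * 6 * (RM (j + 2) n k 3 + (10 + 25 * (k : ℝ)) / n) *
          (10 + 25 * (k : ℝ)) ^ (j + 1)
        ≤ 2 ^ (j + 2) * 6 * (RM (j + 2) n k 3 + (10 + 25 * (k : ℝ)) / n) *
          (29 ^ (j + 1) * (k : ℝ) ^ (j + 1)) :=
          mul_le_mul_of_nonneg_left b1 (by positivity)
      _ = 6 * (2 ^ (j + 2) * 29 ^ (j + 1)) *
          ((RM (j + 2) n k 3 + (10 + 25 * (k : ℝ)) / n) * (k : ℝ) ^ (j + 1)) := by ring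
      _ ≤ 6 * 100 ^ (j + 2) * (D * c * (n : ℝ) ^ j) := by
          apply mul_le_mul _ b4 (by positivity) (by positivity)
          linarith
      _ = 6 / 40000 * (40000 * 100 ^ (j + 2) * (D * c)) * (n : ℝ) ^ j := by ring
      _ ≤ 6 / 40000 * 1 * (n : ℝ) ^ j := by
          apply mul_le_mul_of_nonneg_right _ hN.le
          linarith
      _ ≤ (n : ℝ) ^ j / 4 := by linarith

theorem stmt_UUN : Stmt_STU → Stmt_ADM → Stmt_MXM → Stmt_PAM → Stmt_NUN → Stmt_PRM →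
    Stmt_UUN := by
  intro hSTU hADM hMXM hPAM hNUN hPRM m hm
  obtain ⟨j, rfl⟩ : ∃ j, m = j + 2 := ⟨m - 2, by omega⟩
  have hc60 : (1 : ℝ) ≤ 60 ^ (j + 2) := one_le_pow₀ (by norm_num)
  have hc15 : (1 : ℝ) ≤ 15 ^ (j + 2) := one_le_pow₀ (by norm_num)
  have hc100 : (1 : ℝ) ≤ 100 ^ (j + 2) := one_le_pow₀ (by norm_num)
  have hc30 : (1 : ℝ) ≤ 30 ^ (j + 2) := one_le_pow₀ (by norm_num)
  obtain ⟨θ, hθ⟩ : ∃ θ : ℝ, θ = 1 / (18000 * 60 ^ (j + 2)) := ⟨_, rfl⟩
  have hθ0 : 0 < θ := by rw [hθ]; positivity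
  have hθ1 : θ ≤ 1 / 1000 := by
    rw [hθ, div_le_div_iff₀ (by positivity) (by norm_num)]
    linarith
  have hθ2 : 100 * 15 ^ (j + 2) * θ ≤ 1 := by
    have h1 : (15 : ℝ) ^ (j + 2) ≤ 60 ^ (j + 2) := pow_le_pow_left₀ (by norm_num) (by norm_num) _
    rw [hθ, mul_one_div, div_le_one (by positivity)]
    linarith
  obtain ⟨δ1, hδ1, n1, hn1⟩ := hSTU θ hθ0 hθ1
  obtain ⟨K, hK⟩ : ∃ K : ℝ, K = 40000 * 100 ^ (j + 2) * (12 * 30 ^ (j + 2) + 29) := ⟨_, rfl⟩
  have hK1 : 1 ≤ K := by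
    rw [hK]
    nlinarith
  obtain ⟨c, hc⟩ : ∃ c : ℝ, c = min δ1 (θ / K) := ⟨_, rfl⟩
  have hc0 : 0 < c := by
    rw [hc]
    exact lt_min hδ1 (by positivity)
  have hcδ : c ≤ δ1 := by rw [hc]; exact min_le_left _ _
  have hcK : K * c ≤ θ := by
    have : c ≤ θ / K := by rw [hc]; exact min_le_right _ _
    rw [le_div_iff₀ (by linarith)] at this
    linarith
  have hcθ : c ≤ θ := by nlinarith
  have hc1 : c ≤ 1 := by linarith
  obtain ⟨n2, hn2⟩ := exists_nat_ge (1 / c ^ (j + 1))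
  refine ⟨c ^ 2, max n1 (max n2 (600 * 15 ^ (j + 2))), by positivity, ?_⟩
  intro n k hn hk hkn
  have hna : n1 ≤ n := (le_max_left _ _).trans hn
  have hnb : n2 ≤ n := ((le_max_left _ _).trans (le_max_right _ _)).trans hn
  have hnc : 600 * 15 ^ (j + 2) ≤ n := ((le_max_right _ _).trans (le_max_right _ _)).trans hn
  have hnc' : 600 * 15 ^ (j + 2) ≤ (n : ℝ) := by exact_mod_cast hnc
  have hN1 : (1 : ℝ) ≤ n := by linarith
  have hn0 : (0 : ℝ) < n := by linarith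
  have hk' : (3 : ℝ) ≤ k := by exact_mod_cast hk
  have hnd : 24 * 2 ^ (j + 2) ≤ (n : ℝ) := by
    have : (2 : ℝ) ^ (j + 2) ≤ 15 ^ (j + 2) := pow_le_pow_left₀ (by norm_num) (by norm_num) _
    linarith
  have e1 : 2 * (j + 2) - 1 = 2 * j + 3 := by omega
  have e2 : 2 * (j + 2) - 3 = 2 * j + 1 := by omega
  rw [e1, e2] at hkn
  -- consequences of the hypothesis on `k`
  have hk3 : (k : ℝ) ^ (2 * j + 3) ≤ c * (n : ℝ) ^ (2 * j + 1) := by
    refine hkn.trans (mul_le_mul_of_nonneg_right ?_ (by positivity))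
    nlinarith
  have hk2 : (k : ℝ) ^ (j + 2) ≤ c * (n : ℝ) ^ (j + 1) := by
    have h1 : ((k : ℝ) ^ (j + 2)) ^ (2 * j + 3) ≤ (c * (n : ℝ) ^ (j + 1)) ^ (2 * j + 3) := by
      calc ((k : ℝ) ^ (j + 2)) ^ (2 * j + 3) = ((k : ℝ) ^ (2 * j + 3)) ^ (j + 2) := by
            rw [← pow_mul, ← pow_mul, mul_comm]
        _ ≤ (c ^ 2 * (n : ℝ) ^ (2 * j + 1)) ^ (j + 2) :=
            pow_le_pow_left₀ (by positivity) hkn _
        _ = c ^ (2 * j + 4) * (n : ℝ) ^ ((2 * j + 1) * (j + 2)) := by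
            rw [mul_pow, ← pow_mul, ← pow_mul]
            congr 2
        _ ≤ c ^ (2 * j + 3) * (n : ℝ) ^ ((j + 1) * (2 * j + 3)) := by
            apply mul_le_mul _ _ (by positivity) (by positivity)
            · exact pow_le_pow_of_le_one hc0.le hc1 (by omega)
            · apply pow_le_pow_right₀ hN1
              nlinarith
        _ = (c * (n : ℝ) ^ (j + 1)) ^ (2 * j + 3) := by
            rw [mul_pow, ← pow_mul]
    exact le_of_pow_le_pow_left₀ (by omega) (by positivity) h1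
  have hk1 : (k : ℝ) ≤ c * n := by
    have h1 : (k : ℝ) ^ (j + 2) ≤ (c * n) ^ (j + 2) := by
      have h2 : 1 ≤ c ^ (j + 1) * n := by
        have h3 : 1 / c ^ (j + 1) ≤ n := hn2.trans (by exact_mod_cast hnb)
        rw [div_le_iff₀ (by positivity)] at h3
        linarith
      calc (k : ℝ) ^ (j + 2) ≤ c * (n : ℝ) ^ (j + 1) := hk2
        _ = c * (n : ℝ) ^ (j + 1) * 1 := by ring
        _ ≤ c * (n : ℝ) ^ (j + 1) * (c ^ (j + 1) * n) :=
            mul_le_mul_of_nonneg_left h2 (by positivity)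
        _ = (c * n) ^ (j + 2) := by ring
    exact le_of_pow_le_pow_left₀ (by omega) (by positivity) h1
  have hkU : (k : ℝ) ^ (j + 2) ≤ 1 / (1800 * 60 ^ (j + 2)) * (n : ℝ) ^ (j + 1) := by
    refine hk2.trans (mul_le_mul_of_nonneg_right ?_ (by positivity))
    refine hcθ.trans ?_
    rw [hθ]
    apply one_div_le_one_div_of_le (by positivity)
    linarith
  obtain ⟨ε, p1, p2, p3, p4, p5, p6⟩ := UUN_par j n k θ c hθ hc0 (by rw [← hK]; exact hcK) hk hnd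
    hk1 hk2 hk3
  have hcore : ∀ G : Fin k → SimpleGraph (Fin n), IsFactorization G →
      (Odd n → ∏ l, gammaT (G l) ≤ NN n ^ (k - 3) * NUN_T (NN n + 6 * (j + 2))) ∧
      (Even n → ∏ l, gammaT (G l) ≤ NN n ^ (k - 3) * TTm (j + 2) (n / 2)) := by
    intro G hG
    rcases le_or_gt (1 / 27 * (NN n : ℝ) ^ k) (∏ j, (gammaT (G j) : ℝ)) with h1 | h1
    · obtain ⟨e, hS⟩ := hn1 n k hna hk (hk1.trans (mul_le_mul_of_nonneg_right hcδ hn0.le)) G hG h1
      refine UUN_core hADM hPRM hNUN j n k G e θ hθ hnc' hkU hS ?_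
      intro h3 h4
      have hE : ExtM (j + 2) G e θ ε := hMXM (j + 2) n k G e θ ε (by omega) hθ2 hS p1 p2 p3 p4
        p5 p6 h3 h4
      exact hPAM (j + 2) n k G e θ ε hE
    · have h2 : 27 * ∏ j, gammaT (G j) ≤ NN n ^ k := by
        have h3 : (27 : ℝ) * ∏ j, (gammaT (G j) : ℝ) ≤ (NN n : ℝ) ^ k := by linarith
        exact_mod_cast h3
      have h3 : NN n ^ k = NN n ^ (k - 3) * NN n ^ 3 := by
        rw [← pow_add]
        congr 1
        omega
      rw [h3] at h2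
      have key : ∀ T : ℕ, NN n ^ 3 ≤ 27 * T → ∏ l, gammaT (G l) ≤ NN n ^ (k - 3) * T := by
        intro T hT
        have h5 : 27 * ∏ j, gammaT (G j) ≤ 27 * (NN n ^ (k - 3) * T) := by
          calc 27 * ∏ j, gammaT (G j) ≤ NN n ^ (k - 3) * NN n ^ 3 := h2
            _ ≤ NN n ^ (k - 3) * (27 * T) := Nat.mul_le_mul_left _ hT
            _ = 27 * (NN n ^ (k - 3) * T) := by ring
        exact Nat.le_of_mul_le_mul_left h5 (by norm_num)
      constructor
      · intro _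
        apply key
        have h4 := NUN_low (NN n + 6 * (j + 2))
        have h5 : NN n ^ 3 + (3 * (NN n + 6 * (j + 2)) + 2) ≤ (NN n + 6 * (j + 2)) ^ 3 := by
          obtain ⟨s, hs⟩ : ∃ s, 6 * (j + 2) = s + 12 := ⟨6 * j, by ring⟩
          rw [hs]
          nlinarith [Nat.zero_le (NN n), Nat.zero_le s, Nat.zero_le (NN n * s),
            Nat.zero_le (NN n ^ 2), Nat.zero_le (s ^ 2), Nat.zero_le (NN n ^ 2 * s),
            Nat.zero_le (NN n * s ^ 2), Nat.zero_le (s ^ 3)]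
        omega
      · intro hev
        obtain ⟨q, hq⟩ := hev
        have hq2 : n / 2 = q := by omega
        have hnN : NN n = 2 * q := by
          unfold NN
          omega
        rw [hq2]
        apply key
        rw [hnN]
        have h4 := hNUN.2.1 (j + 2) q
        have h5 : (2 * q) ^ 3 + 24 * (q + 3 * (j + 2) + 1) ≤ 8 * (q + 3 * (j + 2)) ^ 3 := by
          obtain ⟨s, hs⟩ : ∃ s, 3 * (j + 2) = s + 6 := ⟨3 * j, by ring⟩
          rw [hs]
          nlinarith [Nat.zero_le q, Nat.zero_le s, Nat.zero_le (q * s),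
            Nat.zero_le (q ^ 2), Nat.zero_le (s ^ 2), Nat.zero_le (q ^ 2 * s),
            Nat.zero_le (q * s ^ 2), Nat.zero_le (s ^ 3)]
        omega
  have hE : Even n → P n k ≤ NN n ^ (k - 3) * TTm (j + 2) (n / 2) := by
    intro hev
    exact P_le fun G hG => (hcore G hG).2 hev
  refine ⟨?_, hE⟩
  rcases Nat.even_or_odd n with hev | hodd
  · have h1 := hE hev
    have h2 := hNUN.2.2.1 (j + 2) (n / 2)
    have h3 : NN n + 6 * (j + 2) = 2 * (n / 2 + 3 * (j + 2)) := by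
      unfold NN
      ring
    calc 27 * P n k ≤ 27 * (NN n ^ (k - 3) * TTm (j + 2) (n / 2)) := Nat.mul_le_mul_left _ h1
      _ = NN n ^ (k - 3) * (27 * TTm (j + 2) (n / 2)) := by ring
      _ ≤ NN n ^ (k - 3) * (8 * (n / 2 + 3 * (j + 2)) ^ 3) := Nat.mul_le_mul_left _ h2
      _ = NN n ^ (k - 3) * (NN n + 6 * (j + 2)) ^ 3 := by rw [h3]; ring
  · have h1 : P n k ≤ NN n ^ (k - 3) * NUN_T (NN n + 6 * (j + 2)) :=
      P_le fun G hG => (hcore G hG).1 hodd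
    calc 27 * P n k ≤ 27 * (NN n ^ (k - 3) * NUN_T (NN n + 6 * (j + 2))) :=
          Nat.mul_le_mul_left _ h1
      _ = NN n ^ (k - 3) * (27 * NUN_T (NN n + 6 * (j + 2))) := by ring
      _ ≤ NN n ^ (k - 3) * (NN n + 6 * (j + 2)) ^ 3 :=
          Nat.mul_le_mul_left _ (NUN_upp _)

end Pool.Agent.Work.MP_1ce445_fx
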