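import Pool.Agent.Work.MP_1ce445_fx.InterfaceT
import Pool.Agent.Work.MP_1ce445_fx.UUN

/-! # Block EQT: equality in the even case of UUQ for `m = 2` gives the extremal situation -/

namespace Pool.Agent.Work.MP_1ce445_fx

open Finset Pool.Agent.Work.MP_1ce445_co_56 Pool.Agent.Work.MP_1ce445_lin

/-- numbers: a small negative exponent gives a strict inequality -/
lemma EQT_exp (n M T E : ℝ) (hn : 0 < n) (hM : 100 ≤ M) (hnM : n ≤ M)
    (hT : M ^ 3 ≤ 27 * T + 12 * M + 24) (hE : E ≤ -(1 / (2 * n))) :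
    (M / 3) ^ 3 * Real.exp E < T := by
  have h2 : Real.exp E ≤ 2 * n / (2 * n + 1) := by
    have h3 := Real.exp_le_exp.2 hE
    have h4 := Real.add_one_le_exp (1 / (2 * n))
    have h5 : Real.exp (-(1 / (2 * n))) = (Real.exp (1 / (2 * n)))⁻¹ := Real.exp_neg _
    have h6 : (Real.exp (1 / (2 * n)))⁻¹ ≤ (1 / (2 * n) + 1)⁻¹ := by
      apply inv_anti₀ (by positivity) h4
    have h7 : (1 / (2 * n) + 1)⁻¹ = 2 * n / (2 * n + 1) := by
      field_simp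
      ring
    rw [h5] at h3
    linarith
  have h3 : (M / 3) ^ 3 * Real.exp E ≤ (M / 3) ^ 3 * (2 * n / (2 * n + 1)) :=
    mul_le_mul_of_nonneg_left h2 (by positivity)
  refine h3.trans_lt ?_
  rw [mul_div_assoc', div_lt_iff₀ (by linarith)]
  have h4 : (M / 3) ^ 3 = M ^ 3 / 27 := by ring
  rw [h4]
  have h5 : (12 * M + 24) * (2 * n + 1) < M ^ 3 := by
    have h6 : (12 * M + 24) * (2 * n + 1) ≤ (12 * M + 24) * (2 * M + 1) := by
      apply mul_le_mul_of_nonneg_left (by linarith) (by linarith)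
    have h7 : 100 * M ^ 2 ≤ M ^ 3 := by
      have : M ^ 3 = M * M ^ 2 := by ring
      rw [this]
      exact mul_le_mul_of_nonneg_right hM (by positivity)
    have h8 : 100 * M ≤ M ^ 2 := by nlinarith
    nlinarith
  have h6 := mul_le_mul_of_nonneg_right hT (by linarith : (0 : ℝ) ≤ 2 * n + 1)
  nlinarith

/-- the even case with a positive deficit -/
lemma EQT_even (n c σ r T : ℝ) (hn : 100 ≤ n) (hc : 0 ≤ c) (hσ : 1 ≤ σ)
    (hr : r = 1 / 10 + σ / 100) (hT : (n + c) ^ 3 ≤ 27 * T + 12 * (n + c) + 24) :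
    ((n + c) / 3) ^ 3 * Real.exp (3 * r / n - σ / n) < T := by
  have hn0 : 0 < n := by linarith
  apply EQT_exp n (n + c) T _ hn0 (by linarith) (by linarith) hT
  have h2 : 3 * r / n - σ / n + 1 / (2 * n) = (3 * r - σ + 1 / 2) / n := by
    field_simp
  have h3 : (3 * r - σ + 1 / 2) / n ≤ 0 := by
    apply div_nonpos_of_nonpos_of_nonneg _ hn0.le
    rw [hr]
    linarith
  linarith

/-- one factorization with large product -/
lemma EQT_core (hADM : Stmt_ADM) (hPRM : Stmt_PRM) (hNUN : Stmt_NUN) (j n k : ℕ)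
    (G : Fin k → SimpleGraph (Fin n)) (e : Fin 3 → Fin k) (θ : ℝ)
    (hθ : θ = 1 / (18000 * 60 ^ (j + 2))) (hn : 600 * 15 ^ (j + 2) ≤ (n : ℝ))
    (hkm : (k : ℝ) ^ (j + 2) ≤ 1 / (1800 * 60 ^ (j + 2)) * (n : ℝ) ^ (j + 1))
    (hS : SitU G e θ) (heven : Even n)
    (hprod : NN n ^ (k - 3) * TTm (j + 2) (n / 2) ≤ ∏ l, gammaT (G l)) :
    sn G e = 0 ∧ (n : ℝ) + 6 * ((j + 2 : ℕ) : ℝ) ≤ sg G e := by
  have hc15 : (1 : ℝ) ≤ 15 ^ (j + 2) := one_le_pow₀ (by norm_num)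
  have hn200 : (200 : ℝ) ≤ n := by linarith
  have hn200' : 200 ≤ n := by exact_mod_cast hn200
  have hinj := hS.sit.inj
  have hNN := UUM_NN n
  have hgam := hS.leN
  have hN0 : 0 < NN n := by omega
  have hN0' : (0 : ℝ) < NN n := by exact_mod_cast hN0
  have hn0 : (0 : ℝ) < n := by linarith
  have hNn : (NN n : ℝ) ≤ n := by exact_mod_cast hNN.1
  have hθ2 : 100 * 15 ^ (j + 2) * θ ≤ 1 := by
    have h1 : (15 : ℝ) ^ (j + 2) ≤ 60 ^ (j + 2) := pow_le_pow_left₀ (by norm_num) (by norm_num) _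
    rw [hθ, mul_one_div, div_le_one (by positivity)]
    have h2 : (0 : ℝ) < 60 ^ (j + 2) := by positivity
    linarith
  have hA := hADM (j + 2) n k G e θ (by omega) hθ2 hS
  have hRU := UUM_RM j n k (sn G e) θ hθ hn hS.kn hS.def' hkm
  have hσR : (sn G e : ℝ) = ∑ l ∈ oth e, ((NN n : ℝ) - gammaT (G l)) := by
    unfold sn
    rw [Nat.cast_sum]
    exact sum_congr rfl fun l _ => Nat.cast_sub (hgam l)
  have hsg : sg G e = ((gammaT (G (e 0)) + gammaT (G (e 1)) + gammaT (G (e 2)) : ℕ) : ℝ) := by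
    unfold sg
    rw [Fin.sum_univ_three]
    push_cast
    rfl
  obtain ⟨r, hrd⟩ : ∃ r : ℝ, r = 1 / 10 + (sn G e : ℝ) / 100 := ⟨_, rfl⟩
  have hr1 : 0 ≤ r := by rw [hrd]; positivity
  have hP := hPRM k n (NN n) (6 * (j + 2)) (fun l => gammaT (G l)) e r hN0 hNN.1 hinj hr1 hgam
    (by
      have h2 : (∑ i, (gammaT (G (e i)) : ℝ)) = sg G e := rfl
      rw [h2]
      push_cast at hA ⊢
      linarith)
  rw [← hσR, mul_assoc] at hP
  obtain ⟨q, hq⟩ := heven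
  have hq2 : n / 2 = q := by omega
  have hnN : NN n = n := by
    unfold NN
    omega
  rw [hq2] at hprod
  have hT := hNUN.2.1 (j + 2) q
  rcases Nat.eq_zero_or_pos (sn G e) with h4 | h4
  · refine ⟨h4, ?_⟩
    by_contra hlt
    push Not at hlt
    rw [hsg] at hlt
    have hlt' : gammaT (G (e 0)) + gammaT (G (e 1)) + gammaT (G (e 2)) < n + 6 * (j + 2) := by
      have : ((gammaT (G (e 0)) + gammaT (G (e 1)) + gammaT (G (e 2)) : ℕ) : ℝ) <
          ((n + 6 * (j + 2) : ℕ) : ℝ) := by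
        push_cast at hlt ⊢
        linarith
      exact_mod_cast this
    have hU := UUM_prod hgam e hinj
      (B := gammaT (G (e 0)) * gammaT (G (e 1)) * gammaT (G (e 2))) le_rfl
    have h9 := UUM_amgm (gammaT (G (e 0))) (gammaT (G (e 1))) (gammaT (G (e 2)))
    have hTle : TTm (j + 2) q ≤ gammaT (G (e 0)) * gammaT (G (e 1)) * gammaT (G (e 2)) := by
      have h5 := hprod.trans hU
      exact Nat.le_of_mul_le_mul_left h5 (by positivity)
    obtain ⟨Q, hQ⟩ : ∃ Q, Q = q + 3 * (j + 2) := ⟨_, rfl⟩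
    rw [← hQ] at hT
    obtain ⟨S, hS'⟩ : ∃ S, 2 * Q = S + 1 := ⟨2 * Q - 1, by omega⟩
    have h7 : gammaT (G (e 0)) + gammaT (G (e 1)) + gammaT (G (e 2)) ≤ S := by omega
    have h10 := Nat.pow_le_pow_left h7 3
    have h11 : S ^ 3 + 24 * (Q + 1) < 8 * Q ^ 3 := by
      have h12 : 8 * Q ^ 3 = (S + 1) ^ 3 := by rw [← hS']; ring
      rw [h12]
      have h13 : 24 * (Q + 1) = 12 * S + 36 := by omega
      rw [h13]
      have h14 : 100 ≤ S := by omega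
      nlinarith
    omega
  · exfalso
    have h4' : (1 : ℝ) ≤ sn G e := by exact_mod_cast h4
    have hT' : ((n : ℝ) + ((6 * (j + 2) : ℕ) : ℝ)) ^ 3 ≤
        27 * (TTm (j + 2) q : ℝ) + 12 * ((n : ℝ) + ((6 * (j + 2) : ℕ) : ℝ)) + 24 := by
      obtain ⟨Q, hQ⟩ : ∃ Q, Q = q + 3 * (j + 2) := ⟨_, rfl⟩
      rw [← hQ] at hT
      have h5 : (8 : ℝ) * (Q : ℝ) ^ 3 ≤ 27 * (TTm (j + 2) q : ℝ) + 24 * ((Q : ℝ) + 1) := by
        exact_mod_cast hT
      have h6 : (n : ℝ) + ((6 * (j + 2) : ℕ) : ℝ) = 2 * (Q : ℝ) := by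
        rw [hQ, hq]
        push_cast
        ring
      rw [h6]
      have h7 : (2 * (Q : ℝ)) ^ 3 = 8 * (Q : ℝ) ^ 3 := by ring
      rw [h7]
      linarith
    have h5 := EQT_even n ((6 * (j + 2) : ℕ) : ℝ) (sn G e) r (TTm (j + 2) q) (by linarith)
      (Nat.cast_nonneg _) h4' hrd hT'
    rw [hnN] at hP hprod
    have h6 := mul_lt_mul_of_pos_left h5
      (by positivity : (0 : ℝ) < (n : ℝ) ^ (k - 3))
    have h7 := hP.trans_lt h6
    have h8 : ∏ l, gammaT (G l) < n ^ (k - 3) * TTm (j + 2) q := by exact_mod_cast h7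
    omega

theorem stmt_EQT : Stmt_STU → Stmt_ADM → Stmt_MXQ → Stmt_NUN → Stmt_PRM → Stmt_PQ1 →
    Stmt_EQT := by
  intro hSTU hADM hMXQ hNUN hPRM hPQ1
  obtain ⟨θ, hθ⟩ : ∃ θ : ℝ, θ = 1 / (18000 * 60 ^ (0 + 2)) := ⟨_, rfl⟩
  have hθ0 : 0 < θ := by rw [hθ]; positivity
  have hθ1 : θ ≤ 1 / 1000 := by rw [hθ]; norm_num
  have hθ2 : 100 * 15 ^ 2 * θ ≤ 1 := by rw [hθ]; norm_num
  obtain ⟨δ1, hδ1, n1, hn1⟩ := hSTU θ hθ0 hθ1
  obtain ⟨δ2, n2, hδ2, hn2⟩ := hPQ1 2 θ le_rfl hθ0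
  obtain ⟨m1, hm1⟩ := exists_nat_ge (14 / δ1)
  obtain ⟨m2, hm2⟩ := exists_nat_ge (196 / δ2)
  refine ⟨max n1 (max n2 (max m1 (max m2 2000000000))), ?_⟩
  intro n k hn hev hk hk14 hle
  simp only [max_le_iff] at hn
  obtain ⟨hna, hnb, hnc, hnd, hne⟩ := hn
  have hne' : (2000000000 : ℝ) ≤ n := by exact_mod_cast hne
  have hn0 : (0 : ℝ) < n := by linarith
  have hk14' : (k : ℝ) ≤ 14 := by exact_mod_cast hk14
  have hk0' : (0 : ℝ) ≤ k := Nat.cast_nonneg k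
  have hksq : (k : ℝ) ^ 2 ≤ 196 := by nlinarith
  have hkδ1 : (k : ℝ) ≤ δ1 * n := by
    have h1 : 14 / δ1 ≤ n := hm1.trans (by exact_mod_cast hnc)
    rw [div_le_iff₀ hδ1] at h1
    linarith
  have hkδ2 : (k : ℝ) ^ 2 ≤ δ2 * (n : ℝ) ^ (2 - 1) := by
    have h1 : 196 / δ2 ≤ n := hm2.trans (by exact_mod_cast hnd)
    rw [div_le_iff₀ hδ2] at h1
    have h2 : (n : ℝ) ^ (2 - 1) = n := by norm_num
    rw [h2]
    linarith
  obtain ⟨_, ε, p1, p2, p3, p4, p5, p6, p7⟩ := hn2 n k hnb hk hkδ2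
  have hNpos : 0 < NN n := by
    have := UUM_NN n
    omega
  have hTpos : 0 < TT (n / 2) := by
    unfold TT
    have h1 : 0 < (n / 2 + 6) / 3 := by omega
    have h2 : 0 < (n / 2 + 7) / 3 := by omega
    have h3 : 0 < (n / 2 + 8) / 3 := by omega
    positivity
  have hpos : 0 < NN n ^ (k - 3) * TT (n / 2) := by positivity
  rcases P_attained n k with h0 | ⟨G, hG, hP⟩
  · rw [h0] at hle
    omega
  rw [hP] at hle
  have hTT : TTm (0 + 2) (n / 2) = TT (n / 2) := rfl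
  have hbig : 1 / 27 * (NN n : ℝ) ^ k ≤ ∏ j, (gammaT (G j) : ℝ) := by
    have h3 : NN n ^ k = NN n ^ (k - 3) * NN n ^ 3 := by
      rw [← pow_add]
      congr 1
      omega
    obtain ⟨q, hq⟩ := hev
    have hq2 : n / 2 = q := by omega
    have hnN : NN n = 2 * q := by
      unfold NN
      omega
    have h4 := hNUN.2.1 (0 + 2) q
    have h6 : NN n ^ 3 ≤ 27 * TT (n / 2) := by
      rw [← hTT, hq2, hnN]
      have h5 : (2 * q) ^ 3 + 24 * (q + 3 * (0 + 2) + 1) ≤ 8 * (q + 3 * (0 + 2)) ^ 3 := by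
        nlinarith [Nat.zero_le q, Nat.zero_le (q ^ 2)]
      omega
    have h7 : NN n ^ k ≤ 27 * ∏ j, gammaT (G j) := by
      rw [h3]
      calc NN n ^ (k - 3) * NN n ^ 3 ≤ NN n ^ (k - 3) * (27 * TT (n / 2)) :=
            Nat.mul_le_mul_left _ h6
        _ = 27 * (NN n ^ (k - 3) * TT (n / 2)) := by ring
        _ ≤ _ := Nat.mul_le_mul_left _ hle
    have h8 : (NN n : ℝ) ^ k ≤ 27 * ∏ j, (gammaT (G j) : ℝ) := by exact_mod_cast h7
    linarith
  obtain ⟨e, hS⟩ := hn1 n k hna hk hkδ1 G hG hbig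
  have hkU : (k : ℝ) ^ (0 + 2) ≤ 1 / (1800 * 60 ^ (0 + 2)) * (n : ℝ) ^ (0 + 1) := by
    have h1 : (k : ℝ) ^ (0 + 2) = (k : ℝ) ^ 2 := by norm_num
    have h2 : (n : ℝ) ^ (0 + 1) = n := by norm_num
    rw [h1, h2]
    norm_num
    linarith
  have hnU : 600 * 15 ^ (0 + 2) ≤ (n : ℝ) := by norm_num; linarith
  obtain ⟨hs0, hsg⟩ := EQT_core hADM hPRM hNUN 0 n k G e θ hθ hnU hkU hS hev
    (by rw [hTT]; exact hle)
  have hsg' : (n : ℝ) + 6 * ((2 : ℕ) : ℝ) ≤ sg G e := hsg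
  have hE : ExtQ 2 G e θ ε := hMXQ 2 n k G e θ ε le_rfl hθ2 hS p1 p2 p3 p4 p5 p6 p7
    (by omega) hsg'
  exact ⟨G, e, θ, ε, hE, hs0, hS.leN⟩

end Pool.Agent.Work.MP_1ce445_fx
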