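import Pool.Agent.Work.MP_1ce445_fx.InterfaceT

set_option autoImplicit false

/-!
# MP_1ce445_co, block LM2: weights for intersecting families on 4 or 5 points
-/

namespace Pool.Agent.Work.MP_1ce445_fx

open Finset

/-- the points `x` of `M` different from `a` with the property `p` -/
def LM2_B {n : ℕ} (M : Finset (Fin n)) (a : Fin n) (p : Fin n → Prop) [DecidablePred p] :
    Finset (Fin n) := (M.erase a).filter p

lemma LM2_card {n : ℕ} (M : Finset (Fin n)) (a : Fin n) (p : Fin n → Prop) [DecidablePred p]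
    (S : Finset (Fin n)) (hS : S ⊆ M) :
    S.card = (if a ∈ S then 1 else 0) + (S ∩ LM2_B M a p).card +
      (S ∩ LM2_B M a (fun x => ¬ p x)).card := by
  have h1 : S ∩ LM2_B M a p = (S.erase a).filter p := by
    ext x
    simp only [LM2_B, mem_inter, mem_filter, mem_erase]
    constructor
    · rintro ⟨h1, ⟨h2, _⟩, h4⟩
      exact ⟨⟨h2, h1⟩, h4⟩
    · rintro ⟨⟨h1, h2⟩, h3⟩
      exact ⟨h2, ⟨h1, hS h2⟩, h3⟩
  have h2 : S ∩ LM2_B M a (fun x => ¬ p x) = (S.erase a).filter (fun x => ¬ p x) := by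
    ext x
    simp only [LM2_B, mem_inter, mem_filter, mem_erase]
    constructor
    · rintro ⟨h1, ⟨h2, _⟩, h4⟩
      exact ⟨⟨h2, h1⟩, h4⟩
    · rintro ⟨⟨h1, h2⟩, h3⟩
      exact ⟨h2, ⟨h1, hS h2⟩, h3⟩
  rw [h1, h2, add_assoc, card_filter_add_card_filter_not]
  by_cases ha : a ∈ S
  · rw [if_pos ha, add_comm, card_erase_add_one ha]
  · rw [if_neg ha, erase_eq_of_notMem ha, zero_add]

lemma LM2_w {n : ℕ} (M : Finset (Fin n)) (F : Finset (Finset (Fin n)))
    (a : Fin n) (ha : a ∈ M) (p : Fin n → Prop) [DecidablePred p] (u v w K : ℕ) (t : ℝ)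
    (hT : 0 < u + v * (LM2_B M a p).card + w * (LM2_B M a (fun x => ¬ p x)).card)
    (ht : t * ((u + v * (LM2_B M a p).card +
      w * (LM2_B M a (fun x => ¬ p x)).card : ℕ) : ℝ) ≤ K)
    (hK : ∀ S ∈ F, K ≤ u * (if a ∈ S then 1 else 0) + v * (S ∩ LM2_B M a p).card +
      w * (S ∩ LM2_B M a (fun x => ¬ p x)).card) :
    ∃ μ : Fin n → ℝ, (∀ m, 0 ≤ μ m) ∧ (∀ m, m ∉ M → μ m = 0) ∧ ∑ m, μ m = 1 ∧
      ∀ S ∈ F, t ≤ ∑ m ∈ S, μ m := by
  set B := LM2_B M a p with hB
  set C := LM2_B M a (fun x => ¬ p x) with hC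
  set T : ℝ := ((u + v * B.card + w * C.card : ℕ) : ℝ) with hTd
  have hT0 : 0 < T := by rw [hTd]; exact_mod_cast hT
  have hsum : ∀ S : Finset (Fin n), ∑ x ∈ S, (((if x = a then (u : ℝ) else 0) +
      (if x ∈ B then (v : ℝ) else 0) + (if x ∈ C then (w : ℝ) else 0)) / T) =
      ((u * (if a ∈ S then 1 else 0) + v * (S ∩ B).card + w * (S ∩ C).card : ℕ) : ℝ) / T := by
    intro S
    rw [← sum_div, sum_add_distrib, sum_add_distrib, sum_ite_eq', sum_ite_mem, sum_ite_mem,
      sum_const, sum_const]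
    congr 1
    push_cast
    by_cases h : a ∈ S
    · simp only [h, if_true]
      simp only [nsmul_eq_mul]
      ring
    · simp only [h, if_false]
      simp only [nsmul_eq_mul]
      ring
  refine ⟨fun x => ((if x = a then (u : ℝ) else 0) +
      (if x ∈ B then (v : ℝ) else 0) + (if x ∈ C then (w : ℝ) else 0)) / T, ?_, ?_, ?_, ?_⟩
  · intro m
    apply div_nonneg _ hT0.le
    have h1 : (0 : ℝ) ≤ (if m = a then (u : ℝ) else 0) := by split_ifs <;> positivity
    have h2 : (0 : ℝ) ≤ (if m ∈ B then (v : ℝ) else 0) := by split_ifs <;> positivity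
    have h3 : (0 : ℝ) ≤ (if m ∈ C then (w : ℝ) else 0) := by split_ifs <;> positivity
    linarith
  · intro m hm
    have h1 : m ≠ a := fun h => hm (h ▸ ha)
    have h2 : m ∉ B := by
      intro h
      rw [hB, LM2_B, mem_filter, mem_erase] at h
      exact hm h.1.2
    have h3 : m ∉ C := by
      intro h
      rw [hC, LM2_B, mem_filter, mem_erase] at h
      exact hm h.1.2
    simp [h1, h2, h3]
  · rw [hsum univ, univ_inter, univ_inter, if_pos (mem_univ a), mul_one]
    exact div_self hT0.ne'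
  · intro S hS
    rw [hsum S, le_div_iff₀ hT0]
    refine ht.trans ?_
    exact_mod_cast hK S hS

lemma LM2_star {n : ℕ} (M : Finset (Fin n)) (F : Finset (Finset (Fin n)))
    (hM : M.card = 4 ∨ M.card = 5) (hsub : ∀ S ∈ F, S ⊆ M)
    (hint : ∀ S ∈ F, ∀ S' ∈ F, (S ∩ S').Nonempty) (h2 : ∀ S ∈ F, 2 ≤ S.card)
    (a b : Fin n) (hab : a ≠ b) (habF : ({a, b} : Finset (Fin n)) ∈ F)
    (hA : ∀ S ∈ F, S.card = 2 → a ∈ S) (p : Fin n → Prop) [DecidablePred p]
    (hp : ∀ x, p x ↔ ({a, x} : Finset (Fin n)) ∈ F) :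
    ∃ μ : Fin n → ℝ, (∀ m, 0 ≤ μ m) ∧ (∀ m, m ∉ M → μ m = 0) ∧ ∑ m, μ m = 1 ∧
      ∀ S ∈ F, (29 - 2 * (M.card : ℝ)) / 35 ≤ ∑ m ∈ S, μ m := by
  have haM : a ∈ M := hsub _ habF (by simp)
  have hbM : b ∈ M := hsub _ habF (by simp)
  obtain ⟨B, hB⟩ : ∃ B, B = LM2_B M a p := ⟨_, rfl⟩
  obtain ⟨C, hC⟩ : ∃ C, C = LM2_B M a (fun x => ¬ p x) := ⟨_, rfl⟩
  have hcM : M.card = 1 + B.card + C.card := by
    have := LM2_card M a p M (subset_refl _)
    rw [if_pos haM] at this
    have e1 : M ∩ LM2_B M a p = LM2_B M a p := inter_eq_right.mpr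
      ((filter_subset _ _).trans (erase_subset _ _))
    have e2 : M ∩ LM2_B M a (fun x => ¬ p x) = LM2_B M a (fun x => ¬ p x) :=
      inter_eq_right.mpr ((filter_subset _ _).trans (erase_subset _ _))
    rw [e1, e2, ← hB, ← hC] at this
    exact this
  have hB1 : 1 ≤ B.card := by
    apply card_pos.mpr
    exact ⟨b, by rw [hB, LM2_B, mem_filter, mem_erase]; exact ⟨⟨hab.symm, hbM⟩, (hp b).mpr habF⟩⟩
  have key : ∀ S ∈ F, S.card = (if a ∈ S then 1 else 0) + (S ∩ B).card + (S ∩ C).card ∧
      (S ∩ B).card ≤ B.card ∧ (S ∩ C).card ≤ C.card ∧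
      (a ∉ S → (S ∩ B).card = B.card ∧ 3 ≤ S.card) ∧
      (a ∈ S → S.card = 2 → 1 ≤ (S ∩ B).card) := by
    intro S hS
    refine ⟨by rw [hB, hC]; exact LM2_card M a p S (hsub S hS), card_le_card inter_subset_right,
      card_le_card inter_subset_right, ?_, ?_⟩
    · intro ha
      constructor
      · congr 1
        apply inter_eq_right.mpr
        intro x hx
        rw [hB, LM2_B, mem_filter] at hx
        obtain ⟨y, hy⟩ := hint S hS _ ((hp x).mp hx.2)
        rw [mem_inter, mem_insert, mem_singleton] at hy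
        rcases hy.2 with h | h
        · exact absurd (h ▸ hy.1) ha
        · exact h ▸ hy.1
      · have h3 := h2 S hS
        have h4 : S.card ≠ 2 := fun h => ha (hA S hS h)
        omega
    · intro ha hc
      obtain ⟨x, y, hxy, rfl⟩ := card_eq_two.mp hc
      have hz : ∃ z, z ≠ a ∧ ({x, y} : Finset (Fin n)) = {a, z} := by
        rw [mem_insert, mem_singleton] at ha
        rcases ha with h | h
        · exact ⟨y, by rw [h]; exact hxy.symm, by rw [h]⟩
        · exact ⟨x, by rw [h]; exact hxy, by rw [h, pair_comm]⟩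
      obtain ⟨z, hz1, hz2⟩ := hz
      apply card_pos.mpr
      refine ⟨z, ?_⟩
      rw [mem_inter, hB, LM2_B, mem_filter, mem_erase]
      refine ⟨by rw [hz2]; simp, ⟨hz1, hsub _ hS (by rw [hz2]; simp)⟩, ?_⟩
      rw [hp, ← hz2]
      exact hS
  rcases hM with hM | hM
  · apply LM2_w M F a haM p 2 1 1 3
    · omega
    · rw [← hB, ← hC]
      have : 2 + 1 * B.card + 1 * C.card = 5 := by omega
      rw [this, hM]
      norm_num
    · intro S hS
      rw [← hB, ← hC]
      obtain ⟨k1, k2, k3, k4, k5⟩ := key S hS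
      have k6 := h2 S hS
      by_cases ha : a ∈ S
      · simp only [ha, if_true] at k1 ⊢
        have := k5 ha
        omega
      · simp only [ha, if_false] at k1 ⊢
        have := k4 ha
        omega
  · have hcases : B.card = 1 ∨ B.card = 2 ∨ B.card = 3 ∨ B.card = 4 := by omega
    rcases hcases with hb | hb | hb | hb
    · have hc : C.card = 3 := by omega
      apply LM2_w M F a haM p 2 2 1 4
      · omega
      · rw [← hB, ← hC, hb, hc, hM]
        norm_num
      · intro S hS
        rw [← hB, ← hC]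
        obtain ⟨k1, k2, k3, k4, k5⟩ := key S hS
        have k6 := h2 S hS
        by_cases ha : a ∈ S
        · simp only [ha, if_true] at k1 ⊢
          have := k5 ha
          omega
        · simp only [ha, if_false] at k1 ⊢
          have := k4 ha
          omega
    · have hc : C.card = 2 := by omega
      apply LM2_w M F a haM p 3 2 1 5
      · omega
      · rw [← hB, ← hC, hb, hc, hM]
        norm_num
      · intro S hS
        rw [← hB, ← hC]
        obtain ⟨k1, k2, k3, k4, k5⟩ := key S hS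
        have k6 := h2 S hS
        by_cases ha : a ∈ S
        · simp only [ha, if_true] at k1 ⊢
          have := k5 ha
          omega
        · simp only [ha, if_false] at k1 ⊢
          have := k4 ha
          omega
    · have hc : C.card = 1 := by omega
      apply LM2_w M F a haM p 2 1 0 3
      · omega
      · rw [← hB, ← hC, hb, hc, hM]
        norm_num
      · intro S hS
        rw [← hB, ← hC]
        obtain ⟨k1, k2, k3, k4, k5⟩ := key S hS
        have k6 := h2 S hS
        by_cases ha : a ∈ S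
        · simp only [ha, if_true] at k1 ⊢
          have := k5 ha
          omega
        · simp only [ha, if_false] at k1 ⊢
          have := k4 ha
          omega
    · have hc : C.card = 0 := by omega
      apply LM2_w M F a haM p 3 1 1 4
      · omega
      · rw [← hB, ← hC, hb, hc, hM]
        norm_num
      · intro S hS
        rw [← hB, ← hC]
        obtain ⟨k1, k2, k3, k4, k5⟩ := key S hS
        have k6 := h2 S hS
        by_cases ha : a ∈ S
        · simp only [ha, if_true] at k1 ⊢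
          have := k5 ha
          omega
        · simp only [ha, if_false] at k1 ⊢
          have := k4 ha
          omega

theorem stmt_LM2 : Stmt_LM2 := by
  classical
  intro n M F hM hsub hint h2 hex
  obtain ⟨S0, hS0, hc0⟩ := hex
  obtain ⟨a, b, hab, rfl⟩ := card_eq_two.mp hc0
  by_cases hA : ∀ S ∈ F, S.card = 2 → a ∈ S
  · exact LM2_star M F hM hsub hint h2 a b hab hS0 hA (fun x => ({a, x} : Finset (Fin n)) ∈ F)
      (fun _ => Iff.rfl)
  by_cases hBb : ∀ S ∈ F, S.card = 2 → b ∈ S
  · exact LM2_star M F hM hsub hint h2 b a hab.symm (by rw [pair_comm]; exact hS0) hBb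
      (fun x => ({b, x} : Finset (Fin n)) ∈ F) (fun _ => Iff.rfl)
  push Not at hA hBb
  obtain ⟨S1, hS1, hc1, ha1⟩ := hA
  obtain ⟨S2, hS2, hc2, hb2⟩ := hBb
  have hb1 : b ∈ S1 := by
    obtain ⟨y, hy⟩ := hint S1 hS1 _ hS0
    rw [mem_inter, mem_insert, mem_singleton] at hy
    rcases hy.2 with h | h
    · exact absurd (h ▸ hy.1) ha1
    · exact h ▸ hy.1
  have ha2 : a ∈ S2 := by
    obtain ⟨y, hy⟩ := hint S2 hS2 _ hS0
    rw [mem_inter, mem_insert, mem_singleton] at hy
    rcases hy.2 with h | h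
    · exact h ▸ hy.1
    · exact absurd (h ▸ hy.1) hb2
  obtain ⟨c, hc⟩ := hint S1 hS1 S2 hS2
  rw [mem_inter] at hc
  have hca : c ≠ a := fun h => ha1 (h ▸ hc.1)
  have hcb : c ≠ b := fun h => hb2 (h ▸ hc.2)
  have e1 : S1 = {b, c} := by
    symm
    apply eq_of_subset_of_card_le
    · intro x hx
      rw [mem_insert, mem_singleton] at hx
      rcases hx with h | h
      · exact h ▸ hb1
      · exact h ▸ hc.1
    · rw [hc1, card_pair hcb.symm]
  have e2 : S2 = {a, c} := by
    symm
    apply eq_of_subset_of_card_le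
    · intro x hx
      rw [mem_insert, mem_singleton] at hx
      rcases hx with h | h
      · exact h ▸ ha2
      · exact h ▸ hc.2
    · rw [hc2, card_pair hca.symm]
  subst e1 e2
  have haM : a ∈ M := hsub _ hS0 (by simp)
  have hbM : b ∈ M := hsub _ hS0 (by simp)
  have hcM : c ∈ M := hsub _ hS1 (by simp)
  have htwo : ∀ S ∈ F, 2 ≤ (S ∩ {a, b, c}).card := by
    intro S hS
    have m1 : a ∈ S ∨ b ∈ S := by
      obtain ⟨y, hy⟩ := hint S hS _ hS0
      rw [mem_inter, mem_insert, mem_singleton] at hy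
      rcases hy.2 with h | h
      · exact Or.inl (h ▸ hy.1)
      · exact Or.inr (h ▸ hy.1)
    have m2 : b ∈ S ∨ c ∈ S := by
      obtain ⟨y, hy⟩ := hint S hS _ hS1
      rw [mem_inter, mem_insert, mem_singleton] at hy
      rcases hy.2 with h | h
      · exact Or.inl (h ▸ hy.1)
      · exact Or.inr (h ▸ hy.1)
    have m3 : a ∈ S ∨ c ∈ S := by
      obtain ⟨y, hy⟩ := hint S hS _ hS2
      rw [mem_inter, mem_insert, mem_singleton] at hy
      rcases hy.2 with h | h
      · exact Or.inl (h ▸ hy.1)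
      · exact Or.inr (h ▸ hy.1)
    have pair : ∀ x y : Fin n, x ≠ y → x ∈ S → y ∈ S → x ∈ ({a, b, c} : Finset (Fin n)) →
        y ∈ ({a, b, c} : Finset (Fin n)) → 2 ≤ (S ∩ {a, b, c}).card := by
      intro x y hxy hx hy hx' hy'
      rw [← card_pair hxy]
      apply card_le_card
      intro z hz
      rw [mem_insert, mem_singleton] at hz
      rcases hz with h | h
      · rw [h]; exact mem_inter.mpr ⟨hx, hx'⟩
      · rw [h]; exact mem_inter.mpr ⟨hy, hy'⟩
    by_cases ka : a ∈ S
    · rcases m2 with kb | kc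
      · exact pair a b hab ka kb (by simp) (by simp)
      · exact pair a c hca.symm ka kc (by simp) (by simp)
    · have kb : b ∈ S := m1.resolve_left ka
      have kc : c ∈ S := m3.resolve_left ka
      exact pair b c hcb.symm kb kc (by simp) (by simp)
  have hcard : ({a, b, c} : Finset (Fin n)).card = 3 := by
    rw [card_insert_of_notMem, card_pair hcb.symm]
    rw [mem_insert, mem_singleton]
    push Not
    exact ⟨hab, hca.symm⟩
  refine ⟨fun x => if x ∈ ({a, b, c} : Finset (Fin n)) then (1 / 3 : ℝ) else 0, ?_, ?_, ?_, ?_⟩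
  · intro m
    show (0 : ℝ) ≤ if m ∈ ({a, b, c} : Finset (Fin n)) then (1 / 3 : ℝ) else 0
    split_ifs <;> norm_num
  · intro m hm
    show (if m ∈ ({a, b, c} : Finset (Fin n)) then (1 / 3 : ℝ) else 0) = 0
    rw [if_neg]
    intro h
    rw [mem_insert, mem_insert, mem_singleton] at h
    rcases h with h | h | h
    · exact hm (h ▸ haM)
    · exact hm (h ▸ hbM)
    · exact hm (h ▸ hcM)
  · show ∑ m, (if m ∈ ({a, b, c} : Finset (Fin n)) then (1 / 3 : ℝ) else 0) = 1
    rw [sum_ite_mem, univ_inter, sum_const, hcard]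
    norm_num
  · intro S hS
    show (29 - 2 * (M.card : ℝ)) / 35 ≤
      ∑ m ∈ S, (if m ∈ ({a, b, c} : Finset (Fin n)) then (1 / 3 : ℝ) else 0)
    rw [sum_ite_mem, sum_const, nsmul_eq_mul]
    have h3 : (2 : ℝ) ≤ ((S ∩ {a, b, c}).card : ℝ) := by exact_mod_cast htwo S hS
    have h4 : (4 : ℝ) ≤ (M.card : ℝ) := by
      rcases hM with h | h <;> rw [h] <;> norm_num
    linarith

end Pool.Agent.Work.MP_1ce445_fx
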