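import Pool.Agent.Work.MP_1ce445_fx.InterfaceT

/-!
Block LMW of THEOREM STAIRCASE, sixth phase: weights for intersecting families on at most 11 points.
-/

namespace Pool.Agent.Work.MP_1ce445_fx

open Finset Pool.Agent.Work.MP_1ce445_co_56 Pool.Agent.Work.MP_1ce445_lin

/-- uniform weights on `T` -/
lemma LMW_uni {n : ℕ} (T : Finset (Fin n)) (hT : T.Nonempty) :
    ∃ μ : Fin n → ℝ, (∀ m, 0 ≤ μ m) ∧ (∀ m, m ∉ T → μ m = 0) ∧ ∑ m, μ m = 1 ∧
      ∀ S : Finset (Fin n), ∑ m ∈ S, μ m = ((S ∩ T).card : ℝ) / T.card := by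
  have hc : (0:ℝ) < T.card := by exact_mod_cast hT.card_pos
  have hS : ∀ S : Finset (Fin n), ∑ m ∈ S, (if m ∈ T then 1 / (T.card : ℝ) else 0) =
      ((S ∩ T).card : ℝ) / T.card := by
    intro S
    rw [← sum_filter, sum_const, filter_mem_eq_inter, nsmul_eq_mul]
    ring
  refine ⟨fun m => if m ∈ T then 1 / (T.card : ℝ) else 0, ?_, ?_, ?_, hS⟩
  · intro m
    dsimp only
    split_ifs
    · positivity
    · exact le_rfl
  · intro m hm
    exact if_neg hm
  · rw [hS univ, univ_inter, div_self hc.ne']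

lemma LMW_num0 : ∀ w : Fin 12, ∀ s : Fin 12, 1 ≤ s.val → s.val ≤ w.val →
    ¬ (s.val = 2 ∧ (w.val = 4 ∨ w.val = 5)) →
    ((29 - 2 * (w.val : ℤ)) * s.val ≤ 35 ∨ (29 - 2 * (w.val : ℤ)) * w.val ≤ 35 * s.val) := by
  decide

lemma LMW_num {s w : ℕ} (h1 : 1 ≤ s) (h2 : s ≤ w) (h3 : w ≤ 11)
    (h4 : ¬ (s = 2 ∧ (w = 4 ∨ w = 5))) :
    (29 - 2 * (w : ℝ)) / 35 ≤ 1 / s ∨ (29 - 2 * (w : ℝ)) / 35 ≤ s / w := by
  have hs : (0:ℝ) < s := by exact_mod_cast h1
  have hw : (0:ℝ) < w := by exact_mod_cast (by omega : 0 < w)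
  rcases LMW_num0 ⟨w, by omega⟩ ⟨s, by omega⟩ h1 h2 h4 with h | h
  · left
    have h' : (29 - 2 * (w : ℝ)) * s ≤ 35 := by exact_mod_cast h
    rw [div_le_div_iff₀ (by norm_num) hs]
    linarith
  · right
    have h' : (29 - 2 * (w : ℝ)) * w ≤ 35 * s := by exact_mod_cast h
    rw [div_le_div_iff₀ (by norm_num) hw]
    linarith

theorem stmt_LMW (h : Stmt_LM2) : Stmt_LMW := by
  intro n M F hM1 hM11 hFM hF
  rcases F.eq_empty_or_nonempty with hF0 | hF0
  · obtain ⟨μ, h1, h2, h3, -⟩ := LMW_uni M (card_pos.1 (by omega))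
    refine ⟨μ, h1, h2, h3, ?_⟩
    intro S hS
    rw [hF0] at hS
    exact absurd hS (notMem_empty S)
  · obtain ⟨S0, hS0, hmin⟩ := exists_min_image F (fun S => S.card) hF0
    have hne : S0.Nonempty := by
      have h1 := hF S0 hS0 S0 hS0
      rwa [inter_self] at h1
    have hs1 : 1 ≤ S0.card := hne.card_pos
    have hsw : S0.card ≤ M.card := card_le_card (hFM S0 hS0)
    by_cases hcase : S0.card = 2 ∧ (M.card = 4 ∨ M.card = 5)
    · refine h n M F hcase.2 hFM hF ?_ ⟨S0, hS0, hcase.1⟩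
      intro S hS
      have h1 : S0.card ≤ S.card := hmin S hS
      omega
    · rcases LMW_num hs1 hsw hM11 hcase with h1 | h1
      · obtain ⟨μ, m1, m2, m3, m4⟩ := LMW_uni S0 hne
        refine ⟨μ, m1, fun m hm => m2 m (fun h2 => hm (hFM S0 hS0 h2)), m3, ?_⟩
        intro S hS
        rw [m4 S]
        refine h1.trans ?_
        apply div_le_div_of_nonneg_right _ (Nat.cast_nonneg _)
        exact_mod_cast (hF S hS S0 hS0).card_pos
      · obtain ⟨μ, m1, m2, m3, m4⟩ := LMW_uni M (card_pos.1 (by omega))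
        refine ⟨μ, m1, m2, m3, ?_⟩
        intro S hS
        rw [m4 S, inter_eq_left.2 (hFM S hS)]
        refine h1.trans ?_
        apply div_le_div_of_nonneg_right _ (Nat.cast_nonneg _)
        exact_mod_cast hmin S hS

end Pool.Agent.Work.MP_1ce445_fx
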