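import Pool.Agent.Work.MP_1ce445_fx.InterfaceT

/-!
Block LOT of the theorem STAIRCASE (MP_1ce445_co, helper94): the lower bound for `n = 18 s`, `15 ≤ k ≤ s`.
-/

namespace Pool.Agent.Work.MP_1ce445_fx

open Finset Pool.Agent.Work.MP_1ce445_co_56 Pool.Agent.Work.MP_1ce445_lin

theorem LOT_set (s t : ℕ) [NeZero s] (h : t ≤ s) : ∃ L : Finset (ZMod s × ZMod 6),
    L.card = t ∧ ∀ l ∈ L, l.2 = 3 := by
  have hcard : (univ.image (fun h : ZMod s => (h, (3 : ZMod 6)))).card = s := by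
    rw [card_image_of_injective _ (fun a b hab => (Prod.ext_iff.1 hab).1), card_univ, ZMod.card]
  obtain ⟨L, hLs, hLc⟩ := Finset.exists_subset_card_eq
    (s := univ.image (fun h : ZMod s => (h, (3 : ZMod 6)))) (n := t) (by omega)
  refine ⟨L, hLc, fun l hl => ?_⟩
  obtain ⟨h, -, rfl⟩ := mem_image.1 (hLs hl)
  rfl

theorem stmt_LOT (hOCT : Stmt_OCT) (hSYF : Stmt_SYF) (hTG1 : Stmt_TG1) (hTG2 : Stmt_TG2)
    (hTG3 : Stmt_TG3) : Stmt_LOT := by
  obtain ⟨χ, hχ⟩ := hOCT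
  obtain ⟨s0, hS⟩ := hSYF
  refine ⟨s0 + 3, fun s k hs h15 hk => ?_⟩
  haveI : NeZero s := ⟨by omega⟩
  obtain ⟨f, hf⟩ := hS s (by omega)
  obtain ⟨L, hLc, hL3⟩ := LOT_set s (k - 15) (by omega)
  have hfac := hTG1 s χ f L (by omega) hχ hf hL3
  obtain ⟨g1, g2⟩ := hTG2 s χ f L (by omega) hχ hf hL3
  have g3 := hTG3 s χ f L (by omega) hχ hf hL3
  have hV : Fintype.card (VT s) = 18 * s := by
    rw [Fintype.card_prod, Fintype.card_prod, Fintype.card_fin, ZMod.card, ZMod.card]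
    ring
  have hι : Fintype.card (Fin 12 ⊕ (L ⊕ Fin 3)) = k := by
    rw [Fintype.card_sum, Fintype.card_sum, Fintype.card_coe, hLc, Fintype.card_fin,
      Fintype.card_fin]
    omega
  refine le_trans ?_ (le_P hV hι hfac)
  rw [Fintype.prod_sum_type, Fintype.prod_sum_type]
  have e1 : (18 * s) ^ 12 ≤ ∏ c : Fin 12, gammaT (GT χ f L (Sum.inl c)) := by
    calc (18 * s) ^ 12 = ∏ _c : Fin 12, 18 * s := by
          rw [prod_const, card_univ, Fintype.card_fin]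
      _ ≤ _ := Finset.prod_le_prod' fun c _ => g1 c
  have e2 : (18 * s) ^ (k - 15) ≤ ∏ l : L, gammaT (GT χ f L (Sum.inr (Sum.inl l))) := by
    calc (18 * s) ^ (k - 15) = ∏ _l : L, 18 * s := by
          rw [prod_const, card_univ, Fintype.card_coe, hLc]
      _ ≤ _ := Finset.prod_le_prod' fun l _ => g2 l
  have e3 : (6 * s + 4) ^ 3 ≤ ∏ j : Fin 3, gammaT (GT χ f L (Sum.inr (Sum.inr j))) := by
    calc (6 * s + 4) ^ 3 = ∏ _j : Fin 3, (6 * s + 4) := by
          rw [prod_const, card_univ, Fintype.card_fin]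
      _ ≤ _ := Finset.prod_le_prod' fun j _ => g3 j
  have hexp : k - 3 = 12 + (k - 15) := by omega
  rw [hexp, pow_add, mul_assoc]
  exact Nat.mul_le_mul e1 (Nat.mul_le_mul e2 e3)

end Pool.Agent.Work.MP_1ce445_fx
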