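import Pool.Agent.Work.MP_1ce445_fx.InterfaceT

/-! Block OCT: a one-factorization of `K_(6,6,6)`. -/

namespace Pool.Agent.Work.MP_1ce445_fx

open Finset Pool.Agent.Work.MP_1ce445_co_56 Pool.Agent.Work.MP_1ce445_lin

/-- the number of the pair (class, parity); `5` is the point at infinity -/
def OCT_o (i p : ℕ) : ℕ :=
  if i = 0 then (if p = 0 then 5 else 0) else
    if i = 1 then (if p = 0 then 1 else 4) else (if p = 0 then 2 else 3)

/-- the label of two such points -/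
def OCT_l (a b : ℕ) : ℕ :=
  if a = 5 then 2 * b % 5 else if b = 5 then 2 * a % 5 else (a + b) % 5

/-- the colour, as a natural number -/
def OCT_c (i p j q : ℕ) : ℕ :=
  if i = j then 0 else
    (3 * (OCT_l (OCT_o i (p % 2)) (OCT_o j (q % 2)) - 1) + (p / 2 + q / 2) % 3) % 12

/-- the colour -/
def OCT_chi (i : Fin 3) (p : ZMod 6) (j : Fin 3) (q : ZMod 6) : Fin 12 :=
  ⟨OCT_c i.val p.val j.val q.val, by
    unfold OCT_c
    split
    · norm_num
    · exact Nat.mod_lt _ (by norm_num)⟩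

lemma OCT_sym : ∀ (i : Fin 3) (p : Fin 6) (j : Fin 3) (q : Fin 6),
    OCT_c i.val p.val j.val q.val = OCT_c j.val q.val i.val p.val := by
  decide +kernel

lemma OCT_ex : ∀ (i : Fin 3) (p : Fin 6) (c : Fin 12), ∃ (j : Fin 3) (q : Fin 6),
    j ≠ i ∧ OCT_c i.val p.val j.val q.val = c.val := by
  decide +kernel

lemma OCT_un : ∀ (i : Fin 3) (p : Fin 6) (j : Fin 3) (q : Fin 6) (j' : Fin 3) (q' : Fin 6),
    j ≠ i → j' ≠ i → OCT_c i.val p.val j.val q.val = OCT_c i.val p.val j'.val q'.val →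
    j = j' ∧ q = q' := by
  decide +kernel

theorem stmt_OCT : Stmt_OCT := by
  refine ⟨OCT_chi, ?_, ?_, ?_⟩
  · intro i p j q
    exact Fin.ext (OCT_sym i p j q)
  · intro i p c
    obtain ⟨j, q, h1, h2⟩ := OCT_ex i p c
    exact ⟨j, q, h1, Fin.ext h2⟩
  · intro i p j q j' q' h1 h2 h3
    exact OCT_un i p j q j' q' h1 h2 (congrArg Fin.val h3)

end Pool.Agent.Work.MP_1ce445_fx
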