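import Pool.Agent.Work.MP_1ce445_fx.InterfaceT

/-! Block STX (MP_1ce445_co, threshold k = 15): the structure of a factorization with equality. -/

namespace Pool.Agent.Work.MP_1ce445_fx

open Finset Pool.Agent.Work.MP_1ce445_co_56 Pool.Agent.Work.MP_1ce445_lin

theorem stmt_STX : Stmt_TYQ → Stmt_XCQ → Stmt_DSQ → Stmt_YXQ → Stmt_OUQ → Stmt_DG2 →
    Stmt_STX := by
  classical
  intro hT hX hD hY hO hG n k G e θ ε hev hE hs hN
  obtain ⟨t, ht⟩ := hT 2 n k G e θ ε hE
  have hNN : NN n = n := by
    unfold NN
    obtain ⟨q, hq⟩ := hev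
    omega
  have hown : ∀ v w, (G (e (t v))).Adj v w → t w = t v := fun v w h =>
    hO 2 n k G e θ ε t hE ht (t v) v w rfl h
  refine ⟨t, ⟨hE.sit.fac, hE.sit.inj, hown, ?_, ?_, ?_, ?_⟩⟩
  · intro v w w' h h'
    exact hD 2 n k G e θ ε t hE ht (t v) w w' v (hown v w h) (hown v w' h') h.symm h'.symm
  · intro l hl v w w' h h'
    have h1 : NN n - gammaT (G l) = 0 := by
      have h2 : l ∈ oth e := by
        simp only [oth, mem_filter, mem_univ, true_and]
        exact hl
      unfold sn at hs
      exact Finset.sum_eq_zero_iff.1 hs l h2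
    have h2 : gammaT (G l) = n := by
      have := hN l
      omega
    have h3 := (hG n (G l) (fun v => hE.sit.fac.minDeg l v)).1 v
    rw [h2] at h3
    by_contra hne
    have h4 : 2 ≤ dg (G l) univ v := by
      unfold dg
      have h5 : ({w, w'} : Finset (Fin n)) ⊆ univ.filter (fun x => (G l).Adj v x) := by
        intro x hx
        simp only [mem_insert, mem_singleton] at hx
        simp only [mem_filter, mem_univ, true_and]
        rcases hx with rfl | rfl
        · exact h
        · exact h'
      have h6 := Finset.card_le_card h5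
      rw [Finset.card_pair hne] at h6
      convert h6
    omega
  · intro i
    have h1 := (hX 2 n k G e θ ε t hE ht i).1
    rw [h1]
  · intro i
    have h1 := hE.sit.big i
    have h2 : low (G (e i)) θ = univ.filter (fun v => t v = i) := by
      ext u
      rw [← hY 2 n k G e θ ε t hE ht u i]
      simp
    rw [h2] at h1
    have h3 : (n : ℝ) ≤ 5 * ((univ.filter (fun v => t v = i)).card : ℝ) := by linarith
    exact_mod_cast h3

end Pool.Agent.Work.MP_1ce445_fx
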