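import Pool.Agent.Work.MP_1ce445_fx.InterfaceT

/-! SYF of the table fxt_blocks (helper32): the symmetric function from the Paley tournament. -/

namespace Pool.Agent.Work.MP_1ce445_fx

namespace SYFaux

/-- the nonzero squares modulo 19 -/
def isQ (x : ZMod 19) : Bool :=
  x = 1 || x = 4 || x = 5 || x = 6 || x = 7 || x = 9 || x = 11 || x = 16 || x = 17

theorem isQ_neg : ∀ x : ZMod 19, isQ x = true → isQ (-x) = false := by decide +kernel

theorem isQ_two : ∀ b c : ZMod 19, ∃ d : ZMod 19, isQ d = true ∧ isQ (d - b) = true ∧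
    isQ (d - c) = true := by decide +kernel

theorem isQ_three (a b c : ZMod 19) : ∃ d : ZMod 19, isQ (d - a) = true ∧ isQ (d - b) = true ∧
    isQ (d - c) = true := by
  obtain ⟨d, h1, h2, h3⟩ := isQ_two (b - a) (c - a)
  refine ⟨d + a, by simpa using h1, ?_, ?_⟩
  · have : d + a - b = d - (b - a) := by ring
    rw [this]; exact h2
  · have : d + a - c = d - (c - a) := by ring
    rw [this]; exact h3

end SYFaux

open SYFaux in
theorem stmt_SYF (hUNI : Stmt_UNI) : Stmt_SYF := by
  obtain ⟨s0, hs0⟩ := hUNI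
  refine ⟨s0, ?_⟩
  intro s _ hs
  obtain ⟨ψ, hψ⟩ := hs0 s hs
  let ρ : ZMod s → ZMod 19 := fun x => (x.val : ZMod 19)
  refine ⟨fun x y => if isQ (ρ x - ρ y) = true then ψ (x.val / 19) y
    else if isQ (ρ y - ρ x) = true then ψ (y.val / 19) x else 0, ?_, ?_⟩
  · intro a b
    by_cases h1 : isQ (ρ a - ρ b) = true
    · have h2 : isQ (ρ b - ρ a) = false := by
        have := isQ_neg _ h1
        rwa [neg_sub] at this
      simp [h1, h2]
    · by_cases h2 : isQ (ρ b - ρ a) = true
      · simp [h1, h2]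
      · simp [h1, h2]
  · intro a b c hab hac hbc u v w
    obtain ⟨d0, h1, h2, h3⟩ := isQ_three (ρ a) (ρ b) (ρ c)
    obtain ⟨r, hr, hu, hv, hw⟩ := hψ a b c hab hac hbc u v w
    have hd0 : d0.val < 19 := ZMod.val_lt d0
    have hval : ((19 * r + d0.val : ℕ) : ZMod s).val = 19 * r + d0.val :=
      ZMod.val_natCast_of_lt (by omega)
    have hρ : ρ ((19 * r + d0.val : ℕ) : ZMod s) = d0 := by
      show ((((19 * r + d0.val : ℕ) : ZMod s).val : ℕ) : ZMod 19) = d0
      rw [hval, Nat.cast_add, Nat.cast_mul, ZMod.natCast_zmod_val]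
      have : ((19 : ℕ) : ZMod 19) = 0 := ZMod.natCast_self 19
      rw [this]; ring
    have hdiv : (19 * r + d0.val) / 19 = r := by omega
    refine ⟨((19 * r + d0.val : ℕ) : ZMod s), ?_, ?_, ?_⟩
    · show (if isQ (ρ ((19 * r + d0.val : ℕ) : ZMod s) - ρ a) = true then
        ψ ((((19 * r + d0.val : ℕ) : ZMod s).val) / 19) a else _) = u
      rw [hρ, if_pos h1, hval, hdiv, hu]
    · show (if isQ (ρ ((19 * r + d0.val : ℕ) : ZMod s) - ρ b) = true then
        ψ ((((19 * r + d0.val : ℕ) : ZMod s).val) / 19) b else _) = v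
      rw [hρ, if_pos h2, hval, hdiv, hv]
    · show (if isQ (ρ ((19 * r + d0.val : ℕ) : ZMod s) - ρ c) = true then
        ψ ((((19 * r + d0.val : ℕ) : ZMod s).val) / 19) c else _) = w
      rw [hρ, if_pos h3, hval, hdiv, hw]

end Pool.Agent.Work.MP_1ce445_fx
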