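import Pool.Agent.Work.MP_1ce445_fx.InterfaceT

/-!
Block TG1 of THEOREM STAIRCASE for MP_1ce445_co: the construction on `18 s` vertices is a factorization.
-/

namespace Pool.Agent.Work.MP_1ce445_fx

open Finset Pool.Agent.Work.MP_1ce445_co_56 Pool.Agent.Work.MP_1ce445_lin

section TG1

variable {s : ℕ} {χ : Fin 3 → ZMod 6 → Fin 3 → ZMod 6 → Fin 12}
  {f : ZMod s → ZMod s → ZMod 6} {L : Finset (ZMod s × ZMod 6)}

lemma TG1_adjc (hχ : Oct χ) (c : Fin 12) (u v : VT s) :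
    (GT χ f L (Sum.inl c)).Adj u v ↔
      u ≠ v ∧ u.1 ≠ v.1 ∧ u.2.1 = v.2.1 ∧ χ u.1 u.2.2 v.1 v.2.2 = c := by
  unfold GT
  rw [SimpleGraph.fromRel_adj]
  constructor
  · rintro ⟨h, h1 | h1⟩
    · exact ⟨h, h1⟩
    · exact ⟨h, h1.1.symm, h1.2.1.symm, by rw [hχ.sym]; exact h1.2.2⟩
  · rintro ⟨h, h1⟩
    exact ⟨h, Or.inl h1⟩

lemma TG1_adjl (l : L) (u v : VT s) :
    (GT χ f L (Sum.inr (Sum.inl l))).Adj u v ↔ u ≠ v ∧ u.1 = v.1 ∧ u.2 + v.2 = l.1 := by
  unfold GT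
  rw [SimpleGraph.fromRel_adj]
  constructor
  · rintro ⟨h, h1 | h1⟩
    · exact ⟨h, h1⟩
    · exact ⟨h, h1.1.symm, by rw [add_comm]; exact h1.2⟩
  · rintro ⟨h, h1⟩
    exact ⟨h, Or.inl h1⟩

/-- the colour of a pair in the same class whose label is not in `L` -/
noncomputable def TG1_col (f : ZMod s → ZMod s → ZMod 6) (u v : VT s) : Fin 3 :=
  if u.2 + v.2 = (0, 1) then u.1 else
    if u.2.2 + v.2.2 + f u.2.1 v.2.1 ∈ ({0, 1, 3} : Finset (ZMod 6)) then u.1 + 1 else u.1 + 2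

lemma TG1_col_symm (hf : Syf s f) {u v : VT s} (h : u.1 = v.1) : TG1_col f u v = TG1_col f v u := by
  unfold TG1_col
  rw [h, add_comm u.2 v.2, add_comm u.2.2 v.2.2, hf.sym u.2.1 v.2.1]

lemma TG1_if (j : Fin 3) (u v : VT s) :
    (if u.2 + v.2 = (0, 1) then u.1 = j else
      if u.2.2 + v.2.2 + f u.2.1 v.2.1 ∈ ({0, 1, 3} : Finset (ZMod 6)) then u.1 + 1 = j
      else u.1 + 2 = j) ↔ TG1_col f u v = j := by
  unfold TG1_col
  split_ifs <;> rfl

lemma TG1_adjj (hf : Syf s f) (j : Fin 3) (u v : VT s) :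
    (GT χ f L (Sum.inr (Sum.inr j))).Adj u v ↔ u ≠ v ∧
      ((u.1 ≠ v.1 ∧ u.2.1 ≠ v.2.1 ∧ -(u.1 + v.1) = j) ∨
        (u.1 = v.1 ∧ u.2 + v.2 ∉ L ∧ TG1_col f u v = j)) := by
  unfold GT
  rw [SimpleGraph.fromRel_adj]
  simp only [TG1_if]
  constructor
  · rintro ⟨h, h1 | h1⟩
    · exact ⟨h, h1⟩
    · refine ⟨h, ?_⟩
      rcases h1 with ⟨h1, h2, h3⟩ | ⟨h1, h2, h3⟩
      · exact Or.inl ⟨h1.symm, h2.symm, by rw [add_comm]; exact h3⟩
      · exact Or.inr ⟨h1.symm, by rw [add_comm]; exact h2, by rw [TG1_col_symm hf h1.symm]; exact h3⟩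
  · rintro ⟨h, h1⟩
    exact ⟨h, Or.inl h1⟩

lemma TG1_third : ∀ a b : Fin 3, a ≠ b → a ≠ -(b + a) ∧ -(a + -(b + a)) = b := by decide

lemma TG1_two3 : ∀ p : ZMod 6, p + p ≠ 3 := by decide

lemma TG1_two1 : ∀ p : ZMod 6, p + p ≠ 1 := by decide

lemma TG1_one3 : (1 : ZMod 6) ≠ 3 := by decide

end TG1

theorem stmt_TG1 : Stmt_TG1 := by
  intro s _ χ f L hs hχ hf hL
  refine IsFactorization.of_adj ?_ ?_ ?_
  · intro i j v w h1 h2
    rcases i with c | l | i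
    · rw [TG1_adjc hχ] at h1
      rcases j with c' | l' | j
      · rw [TG1_adjc hχ] at h2
        rw [← h1.2.2.2, ← h2.2.2.2]
      · rw [TG1_adjl] at h2
        exact absurd h2.2.1 h1.2.1
      · rw [TG1_adjj hf] at h2
        rcases h2.2 with h | h
        · exact absurd h1.2.2.1 h.2.1
        · exact absurd h.1 h1.2.1
    · rw [TG1_adjl] at h1
      rcases j with c' | l' | j
      · rw [TG1_adjc hχ] at h2
        exact absurd h1.2.1 h2.2.1
      · rw [TG1_adjl] at h2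
        have : l = l' := Subtype.ext (h1.2.2.symm.trans h2.2.2)
        rw [this]
      · rw [TG1_adjj hf] at h2
        rcases h2.2 with h | h
        · exact absurd h1.2.1 h.1
        · exact absurd (h1.2.2 ▸ l.2) h.2.1
    · rw [TG1_adjj hf] at h1
      rcases j with c' | l' | j
      · rw [TG1_adjc hχ] at h2
        rcases h1.2 with h | h
        · exact absurd h2.2.2.1 h.2.1
        · exact absurd h.1 h2.2.1
      · rw [TG1_adjl] at h2
        rcases h1.2 with h | h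
        · exact absurd h2.2.1 h.1
        · exact absurd (h2.2.2 ▸ l'.2) h.2.1
      · rw [TG1_adjj hf] at h2
        rcases h1.2 with h | h
        · rcases h2.2 with h' | h'
          · rw [← h.2.2, ← h'.2.2]
          · exact absurd h'.1 h.1
        · rcases h2.2 with h' | h'
          · exact absurd h.1 h'.1
          · rw [← h.2.2, ← h'.2.2]
  · intro v w hvw
    by_cases h : v.1 = w.1
    · by_cases h' : v.2 + w.2 ∈ L
      · exact ⟨Sum.inr (Sum.inl ⟨_, h'⟩), (TG1_adjl _ _ _).2 ⟨hvw, h, rfl⟩⟩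
      · exact ⟨Sum.inr (Sum.inr (TG1_col f v w)), (TG1_adjj hf _ _ _).2
          ⟨hvw, Or.inr ⟨h, h', rfl⟩⟩⟩
    · by_cases h' : v.2.1 = w.2.1
      · exact ⟨Sum.inl _, (TG1_adjc hχ _ _ _).2 ⟨hvw, h, h', rfl⟩⟩
      · exact ⟨Sum.inr (Sum.inr _), (TG1_adjj hf _ _ _).2 ⟨hvw, Or.inl ⟨h, h', rfl⟩⟩⟩
  · intro i u
    rcases i with c | l | j
    · obtain ⟨j, q, hj, hq⟩ := hχ.ex u.1 u.2.2 c
      refine ⟨(j, u.2.1, q), (TG1_adjc hχ _ _ _).2 ⟨?_, hj.symm, rfl, hq⟩⟩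
      intro h
      exact hj (by rw [h])
    · refine ⟨(u.1, l.1 - u.2), (TG1_adjl _ _ _).2 ⟨?_, rfl, by simp⟩⟩
      intro h
      have h1 : u.2 = l.1 - u.2 := congrArg Prod.snd h
      have h2 : u.2 + u.2 = l.1 := by
        nth_rewrite 2 [h1]
        simp
      have h3 : u.2.2 + u.2.2 = l.1.2 := congrArg Prod.snd h2
      exact TG1_two3 _ (h3.trans (hL l.1 l.2))
    · by_cases hu : u.1 = j
      · have hsum : u.2 + ((0, 1) - u.2) = ((0, 1) : ZMod s × ZMod 6) := by simp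
        refine ⟨(u.1, (0, 1) - u.2), (TG1_adjj hf _ _ _).2 ⟨?_, Or.inr ⟨rfl, ?_, ?_⟩⟩⟩
        · intro h
          have h1 : u.2 = (0, 1) - u.2 := congrArg Prod.snd h
          have h2 : u.2 + u.2 = ((0, 1) : ZMod s × ZMod 6) := by
            nth_rewrite 2 [h1]
            exact hsum
          exact TG1_two1 _ (congrArg Prod.snd h2)
        · show u.2 + ((0, 1) - u.2) ∉ L
          rw [hsum]
          intro h
          have h5 : (1 : ZMod 6) = 3 := hL _ h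
          exact TG1_one3 h5
        · unfold TG1_col
          rw [if_pos hsum, hu]
      · obtain ⟨h1, h2⟩ := TG1_third u.1 j hu
        have : Fact (1 < s) := ⟨by omega⟩
        have hb : u.2.1 ≠ u.2.1 + 1 := by
          intro h
          exact one_ne_zero (left_eq_add.1 h)
        refine ⟨(-(j + u.1), u.2.1 + 1, 0), (TG1_adjj hf _ _ _).2 ⟨?_, Or.inl ⟨h1, hb, h2⟩⟩⟩
        intro h
        exact h1 (congrArg Prod.fst h)

end Pool.Agent.Work.MP_1ce445_fx
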