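import Pool.Agent.Work.MP_1ce445_fx.InterfaceT

/-!
Block TG2: the total domination numbers of the ordinary colours.
-/

set_option autoImplicit false

namespace Pool.Agent.Work.MP_1ce445_fx

open Finset Pool.Agent.Work.MP_1ce445_co_56 Pool.Agent.Work.MP_1ce445_lin

theorem TG2_card (s : ℕ) [NeZero s] : Fintype.card (VT s) = 18 * s := by
  show Fintype.card (Fin 3 × ZMod s × ZMod 6) = 18 * s
  rw [Fintype.card_prod, Fintype.card_prod, Fintype.card_fin, ZMod.card, ZMod.card]
  ring

theorem stmt_TG2 (h1 : Stmt_TG1) : Stmt_TG2 := by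
  intro s _ χ f L hs hχ hf hL
  have hF := h1 s χ f L hs hχ hf hL
  refine ⟨fun c => ?_, fun l => ?_⟩
  · choose J Q hJ hQ using fun (i : Fin 3) (p : ZMod 6) => hχ.ex i p c
    have hinj : Function.Injective (fun u : VT s =>
        ((J u.1 u.2.2, u.2.1, Q u.1 u.2.2) : VT s)) := by
      rintro ⟨i, a, p⟩ ⟨i', a', p'⟩ h
      simp only [Prod.mk.injEq] at h
      obtain ⟨h2, h3, h4⟩ := h
      have e1 := hQ i p
      have e2 := hQ i' p'
      have n1 := hJ i p
      have n2 := hJ i' p'
      rw [hχ.sym] at e1 e2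
      rw [h2, h4] at e1
      rw [h2] at n1
      obtain ⟨h5, h6⟩ := hχ.un _ _ _ _ _ _ n1.symm n2.symm (e1.trans e2.symm)
      rw [h5, h3, h6]
    have h2 := card_le_gammaT (G := GT χ f L (Sum.inl c)) (hF.minDeg (Sum.inl c))
      (id : VT s → VT s) (fun u : VT s => ((J u.1 u.2.2, u.2.1, Q u.1 u.2.2) : VT s)) hinj (by
        rintro ⟨i, a, p⟩ ⟨i', a', p'⟩ h
        unfold GT at h
        rw [SimpleGraph.fromRel_adj] at h
        have key : i' ≠ i ∧ a = a' ∧ χ i p i' p' = c := by
          rcases h.2 with h2 | h2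
          · exact ⟨h2.1.symm, h2.2.1, h2.2.2⟩
          · exact ⟨h2.1, h2.2.1.symm, (hχ.sym _ _ _ _).trans h2.2.2⟩
        obtain ⟨h5, h6⟩ := hχ.un i p i' p' (J i p) (Q i p) key.1 (hJ i p)
          (key.2.2.trans (hQ i p).symm)
        show (i', a', p') = (J i p, a, Q i p)
        rw [h5, h6, key.2.1])
    rw [TG2_card] at h2
    exact h2
  · have hinj : Function.Injective (fun u : VT s => ((u.1, l.1 - u.2) : VT s)) := by
      rintro ⟨i, x⟩ ⟨i', x'⟩ h
      simp only [Prod.mk.injEq] at h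
      rw [h.1, sub_right_inj.1 h.2]
    have h2 := card_le_gammaT (G := GT χ f L (Sum.inr (Sum.inl l)))
      (hF.minDeg (Sum.inr (Sum.inl l)))
      (id : VT s → VT s) (fun u : VT s => ((u.1, l.1 - u.2) : VT s)) hinj (by
        rintro ⟨i, x⟩ ⟨i', x'⟩ h
        unfold GT at h
        rw [SimpleGraph.fromRel_adj] at h
        have key : i' = i ∧ x + x' = l.1 := by
          rcases h.2 with h2 | h2
          · exact ⟨h2.1.symm, h2.2⟩
          · exact ⟨h2.1, (add_comm _ _).trans h2.2⟩
        show (i', x') = (i, l.1 - x)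
        rw [key.1, ← key.2, add_sub_cancel_left])
    rw [TG2_card] at h2
    exact h2

end Pool.Agent.Work.MP_1ce445_fx
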