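import Pool.Agent.Work.MP_1ce445_fx.InterfaceT

/-! Block TG3 (helper17). -/

namespace Pool.Agent.Work.MP_1ce445_fx

open Finset Pool.Agent.Work.MP_1ce445_co_56 Pool.Agent.Work.MP_1ce445_lin

lemma TG3_two : ∀ (σ : Bool) (x y : ZMod 6), ∃ p : ZMod 6,
    decide (p + x ∈ ({0, 1, 3} : Finset (ZMod 6))) = σ ∧
    decide (p + y ∈ ({0, 1, 3} : Finset (ZMod 6))) = σ := by decide

lemma TG3_P (σ : Bool) (P : Finset (ZMod 6)) (hP : P.card ≤ 2) : ∃ p : ZMod 6, ∀ x ∈ P,
    decide (p + x ∈ ({0, 1, 3} : Finset (ZMod 6))) = σ := by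
  rcases Finset.eq_empty_or_nonempty P with h | ⟨x, hx⟩
  · exact ⟨0, by rw [h]; simp⟩
  · have h1 : (P.erase x).card ≤ 1 := by rw [card_erase_of_mem hx]; omega
    rcases Finset.eq_empty_or_nonempty (P.erase x) with h2 | ⟨y, hy⟩
    · obtain ⟨p, hp, -⟩ := TG3_two σ x x
      refine ⟨p, fun z hz => ?_⟩
      have : z = x := by
        by_contra hne
        have : z ∈ P.erase x := mem_erase.2 ⟨hne, hz⟩
        rw [h2] at this
        exact absurd this (notMem_empty _)
      rw [this]; exact hp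
    · obtain ⟨p, hp, hp'⟩ := TG3_two σ x y
      refine ⟨p, fun z hz => ?_⟩
      by_cases hzx : z = x
      · rw [hzx]; exact hp
      · have h3 : z ∈ P.erase x := mem_erase.2 ⟨hzx, hz⟩
        rw [card_le_one.1 h1 z h3 y hy]
        exact hp'

lemma TG3_f1 : ∀ a b : Fin 3, a ≠ b → -(a + b) ≠ a ∧ -(a + b) ≠ b := by decide

lemma TG3_f2 : ∀ a i : Fin 3, a ≠ i → a + 1 = i → ¬ i = a + 2 := by decide

lemma TG3_f3 : ∀ i : Fin 3, i + 1 ≠ i ∧ i + 2 ≠ i := by decide

section adj

variable {s : ℕ} [NeZero s] {χ : Fin 3 → ZMod 6 → Fin 3 → ZMod 6 → Fin 12}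
  {f : ZMod s → ZMod s → ZMod 6} {L : Finset (ZMod s × ZMod 6)}

lemma TG3_adj (hf : ∀ a b, f a b = f b a) {i : Fin 3} {u v : VT s}
    (h : (GT χ f L (Sum.inr (Sum.inr i))).Adj u v) :
    (u.1 ≠ v.1 ∧ u.2.1 ≠ v.2.1 ∧ -(u.1 + v.1) = i) ∨
      (u.1 = v.1 ∧ (if u.2 + v.2 = (0, 1) then u.1 = i else
          if u.2.2 + v.2.2 + f u.2.1 v.2.1 ∈ ({0, 1, 3} : Finset (ZMod 6)) then u.1 + 1 = i
          else u.1 + 2 = i)) := by
  unfold GT at h
  rw [SimpleGraph.fromRel_adj] at h
  obtain ⟨-, h1 | h1⟩ := h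
  · rcases h1 with h2 | ⟨h2, -, h3⟩
    · exact Or.inl h2
    · exact Or.inr ⟨h2, h3⟩
  · rcases h1 with ⟨h2, h3, h4⟩ | ⟨h2, -, h3⟩
    · exact Or.inl ⟨Ne.symm h2, Ne.symm h3, by rw [add_comm]; exact h4⟩
    · refine Or.inr ⟨h2.symm, ?_⟩
      rw [add_comm u.2 v.2, add_comm u.2.2 v.2.2, hf u.2.1 v.2.1, ← h2]
      exact h3

/-- neighbours of a vertex of class `i` -/
lemma TG3_a (hf : ∀ a b, f a b = f b a) {i : Fin 3} {u v : VT s}
    (h : (GT χ f L (Sum.inr (Sum.inr i))).Adj u v) (hu : u.1 = i) : v = (i, (0, 1) - u.2) := by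
  rcases TG3_adj hf h with ⟨h1, -, h3⟩ | ⟨h1, h2⟩
  · exact absurd (h3.trans hu.symm) (TG3_f1 _ _ h1).1
  · by_cases h4 : u.2 + v.2 = (0, 1)
    · refine Prod.ext (h1.symm.trans hu) ?_
      show v.2 = (0, 1) - u.2
      rw [← h4, add_sub_cancel_left]
    · rw [if_neg h4] at h2
      split_ifs at h2
      · exact absurd (h2.trans hu.symm) (TG3_f3 _).1
      · exact absurd (h2.trans hu.symm) (TG3_f3 _).2

/-- no neighbours in class `i` -/
lemma TG3_b (hf : ∀ a b, f a b = f b a) {i : Fin 3} {u v : VT s}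
    (h : (GT χ f L (Sum.inr (Sum.inr i))).Adj u v) (hu : u.1 ≠ i) : v.1 ≠ i := by
  intro hv
  rcases TG3_adj hf h with ⟨h1, -, h3⟩ | ⟨h1, h2⟩
  · exact absurd (h3.trans hv.symm) (TG3_f1 _ _ h1).2
  · exact hu (h1.trans hv)

/-- neighbours in the third class -/
lemma TG3_c (hf : ∀ a b, f a b = f b a) {i : Fin 3} {u v : VT s}
    (h : (GT χ f L (Sum.inr (Sum.inr i))).Adj u v) (huv : u.1 ≠ v.1) : u.2.1 ≠ v.2.1 := by
  rcases TG3_adj hf h with ⟨-, h2, -⟩ | ⟨h1, -⟩
  · exact h2
  · exact absurd h1 huv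

/-- neighbours in the same class -/
lemma TG3_d (hf : ∀ a b, f a b = f b a) {i : Fin 3} {u v : VT s}
    (h : (GT χ f L (Sum.inr (Sum.inr i))).Adj u v) (hu : u.1 ≠ i) (huv : u.1 = v.1) :
    decide (u.2.2 + v.2.2 + f u.2.1 v.2.1 ∈ ({0, 1, 3} : Finset (ZMod 6))) ≠
      decide (i = u.1 + 2) := by
  rcases TG3_adj hf h with ⟨h1, -, -⟩ | ⟨-, h2⟩
  · exact absurd huv h1
  · by_cases h4 : u.2 + v.2 = (0, 1)
    · rw [if_pos h4] at h2
      exact absurd h2 hu
    · rw [if_neg h4] at h2
      by_cases h5 : u.2.2 + v.2.2 + f u.2.1 v.2.1 ∈ ({0, 1, 3} : Finset (ZMod 6))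
      · rw [if_pos h5] at h2
        rw [decide_eq_true h5, decide_eq_false (TG3_f2 _ _ hu h2)]
        decide
      · rw [if_neg h5] at h2
        rw [decide_eq_false h5, decide_eq_true h2.symm]
        decide

end adj

/-- three different elements containing a set with at most three elements -/
lemma TG3_three {α : Type*} [Fintype α] [DecidableEq α] (h3 : 3 ≤ Fintype.card α) (B : Finset α)
    (hB : B.card ≤ 3) : ∃ a b c : α, a ≠ b ∧ a ≠ c ∧ b ≠ c ∧ B ⊆ {a, b, c} := by
  obtain ⟨C, hBC, hC⟩ := Finset.exists_superset_card_eq hB h3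
  obtain ⟨a, b, c, hab, hac, hbc, rfl⟩ := Finset.card_eq_three.1 hC
  exact ⟨a, b, c, hab, hac, hbc, hBC⟩

theorem stmt_TG3 : Stmt_TG1 → Stmt_TG3 := by
  classical
  intro hTG1 s _ χ f L hs hχ hf hL i
  have hF := hTG1 s χ f L (by omega) hχ hf hL
  have hfs := hf.sym
  set H : SimpleGraph (VT s) := GT χ f L (Sum.inr (Sum.inr i)) with hH
  obtain ⟨S, hS, hc⟩ := exists_tds (G := H) (hF.minDeg (Sum.inr (Sum.inr i)))
  rw [← hc]
  -- class `i` is contained in `S`
  have hXi : ∀ v : VT s, v.1 = i → v ∈ S := by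
    intro v hv
    obtain ⟨w, hw, hadj⟩ := hS (i, (0, 1) - v.2)
    have h1 := TG3_a hfs hadj rfl
    have h2 : w = v := by
      rw [h1]
      refine Prod.ext hv.symm ?_
      show (0, 1) - ((0, 1) - v.2) = v.2
      rw [sub_sub_cancel]
    rw [← h2]
    exact hw
  -- the key
  have key : ∀ j l : Fin 3, j ≠ i → l ≠ i → j ≠ l → (S.filter (fun v => v.1 = l)).card ≤ 1 →
      (S.filter (fun v => v.1 = j)).card + (S.filter (fun v => v.1 = l)).card ≤ 3 → False := by
    intro j l hji hli hjl hl1 hjl3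
    have hcl : ∀ v : VT s, v.1 ≠ i → v.1 = j ∨ v.1 = l := by
      intro v hv
      have : ∀ x i j l : Fin 3, x ≠ i → j ≠ i → l ≠ i → j ≠ l → x = j ∨ x = l := by decide
      exact this _ _ _ _ hv hji hli hjl
    set σ : Bool := decide (i = j + 2) with hσ
    rcases Finset.eq_empty_or_nonempty (S.filter (fun v => v.1 = l)) with hl0 | ⟨w0, hw0⟩
    · -- no element of class `l`
      have hl0' : ∀ v ∈ S, v.1 ≠ l := by
        intro v hv hvl
        have : v ∈ S.filter (fun v => v.1 = l) := mem_filter.2 ⟨hv, hvl⟩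
        rw [hl0] at this
        exact absurd this (notMem_empty _)
      rw [hl0, card_empty, add_zero] at hjl3
      by_cases hone : ∃ b : ZMod s, ∀ v ∈ S, v.1 = j → v.2.1 = b
      · obtain ⟨b, hb⟩ := hone
        obtain ⟨w, hw, hadj⟩ := hS (l, b, 0)
        rcases hcl w (TG3_b hfs hadj hli) with h1 | h1
        · exact TG3_c hfs hadj (by rw [h1]; exact Ne.symm hjl) (hb w hw h1).symm
        · exact hl0' w hw h1
      · push Not at hone
        -- every block contains at most two elements of `T_j`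
        have htwo : ∀ b : ZMod s, ((S.filter (fun v => v.1 = j ∧ v.2.1 = b)).image
            (fun v => v.2.2)).card ≤ 2 := by
          intro b
          obtain ⟨v, hv, hvj, hvb⟩ := hone b
          have h1 : S.filter (fun v => v.1 = j ∧ v.2.1 = b) ⊆
              (S.filter (fun v => v.1 = j)).erase v := by
            intro x hx
            rw [mem_filter] at hx
            rw [mem_erase, mem_filter]
            refine ⟨?_, hx.1, hx.2.1⟩
            rintro rfl
            exact hvb hx.2.2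
          have h2 := card_le_card h1
          rw [card_erase_of_mem (mem_filter.2 ⟨hv, hvj⟩)] at h2
          have h3 := card_image_le (s := S.filter (fun v => v.1 = j ∧ v.2.1 = b))
            (f := fun v => v.2.2)
          omega
        choose g hg using fun b => TG3_P σ _ (htwo b)
        obtain ⟨a, b, c, hab, hac, hbc, hsub⟩ := TG3_three (α := ZMod s) (by rw [ZMod.card]; exact hs)
          ((S.filter (fun v => v.1 = j)).image (fun v => v.2.1)) (card_image_le.trans hjl3)
        obtain ⟨d, hda, hdb, hdc⟩ := hf.tri a b c hab hac hbc (g a) (g b) (g c)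
        obtain ⟨w, hw, hadj⟩ := hS (j, d, 0)
        rcases hcl w (TG3_b hfs hadj hji) with h1 | h1
        · have h2 := TG3_d hfs hadj hji h1.symm
          apply h2
          show decide (0 + w.2.2 + f d w.2.1 ∈ ({0, 1, 3} : Finset (ZMod 6))) = decide (i = j + 2)
          have h3 : w.2.1 ∈ ({a, b, c} : Finset (ZMod s)) :=
            hsub (mem_image_of_mem _ (mem_filter.2 ⟨hw, h1⟩))
          have h4 : f d w.2.1 = g w.2.1 := by
            rw [mem_insert, mem_insert, mem_singleton] at h3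
            rcases h3 with h3 | h3 | h3
            · rw [h3]; exact hda
            · rw [h3]; exact hdb
            · rw [h3]; exact hdc
          rw [h4, zero_add, add_comm]
          exact hg w.2.1 w.2.2 (mem_image_of_mem _ (mem_filter.2 ⟨hw, h1, rfl⟩))
        · exact hl0' w hw h1
    · -- one element of class `l`
      have hw0' := mem_filter.1 hw0
      have hl1' : (S.filter (fun v => v.1 = l)).card = 1 :=
        le_antisymm hl1 (card_pos.2 ⟨w0, hw0⟩)
      have hj2 : (S.filter (fun v => v.1 = j)).card ≤ 2 := by omega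
      obtain ⟨p, hp⟩ := TG3_P σ ((S.filter (fun v => v.1 = j)).image
        (fun v => v.2.2 + f w0.2.1 v.2.1)) (card_image_le.trans hj2)
      obtain ⟨w, hw, hadj⟩ := hS (j, w0.2.1, p)
      rcases hcl w (TG3_b hfs hadj hji) with h1 | h1
      · have h2 := TG3_d hfs hadj hji h1.symm
        apply h2
        show decide (p + w.2.2 + f w0.2.1 w.2.1 ∈ ({0, 1, 3} : Finset (ZMod 6))) =
          decide (i = j + 2)
        rw [add_assoc]
        exact hp _ (mem_image_of_mem (fun v : VT s => v.2.2 + f w0.2.1 v.2.1)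
          (mem_filter.2 ⟨hw, h1⟩))
      · have h3 : w = w0 := card_le_one.1 hl1 w (mem_filter.2 ⟨hw, h1⟩) w0 hw0
        refine TG3_c hfs hadj (by rw [h1]; exact hjl) ?_
        show w0.2.1 = w.2.1
        rw [h3]
  -- counting
  have hXc : (S.filter (fun v => v.1 = i)).card = 6 * s := by
    have h1 : S.filter (fun v => v.1 = i) =
        ({i} : Finset (Fin 3)) ×ˢ (univ : Finset (ZMod s × ZMod 6)) := by
      ext v
      rw [mem_filter, mem_product, mem_singleton]
      exact ⟨fun h => ⟨h.2, mem_univ _⟩, fun h => ⟨hXi v h.1, h.1⟩⟩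
    rw [h1, card_product, card_singleton, card_univ, Fintype.card_prod, ZMod.card, ZMod.card]
    ring
  have hsum : S.card = ∑ c : Fin 3, (S.filter (fun v => v.1 = c)).card :=
    card_eq_sum_card_fiberwise (fun v _ => mem_univ _)
  by_contra hlt
  rw [not_le] at hlt
  have h3 : (S.filter (fun v => v.1 = i + 1)).card + (S.filter (fun v => v.1 = i + 2)).card ≤ 3 := by
    have h4 : ∑ c : Fin 3, (S.filter (fun v => v.1 = c)).card =
        (S.filter (fun v => v.1 = i)).card + (S.filter (fun v => v.1 = i + 1)).card +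
          (S.filter (fun v => v.1 = i + 2)).card := by
      rw [Fin.sum_univ_three]
      fin_cases i
      · rfl
      · show _ = (S.filter (fun v => v.1 = 1)).card + (S.filter (fun v => v.1 = 2)).card +
          (S.filter (fun v => v.1 = 0)).card
        ring
      · show _ = (S.filter (fun v => v.1 = 2)).card + (S.filter (fun v => v.1 = 0)).card +
          (S.filter (fun v => v.1 = 1)).card
        ring
    rw [h4, hXc] at hsum
    omega
  have h5 : ∀ i : Fin 3, i + 1 ≠ i ∧ i + 2 ≠ i ∧ i + 1 ≠ i + 2 := by decide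
  obtain ⟨e1, e2, e3⟩ := h5 i
  rcases Nat.lt_or_ge 1 (S.filter (fun v => v.1 = i + 2)).card with h6 | h6
  · exact key (i + 2) (i + 1) e2 e1 (Ne.symm e3) (by omega) (by omega)
  · exact key (i + 1) (i + 2) e1 e2 e3 h6 h3

end Pool.Agent.Work.MP_1ce445_fx
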