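import Pool.Agent.Work.MP_1ce445_fx.InterfaceT

/-! Block UNI (helper95): rows such that the values at three different points can be prescribed, by counting. -/

set_option autoImplicit false

namespace Pool.Agent.Work.MP_1ce445_fx

open Finset Pool.Agent.Work.MP_1ce445_co_56 Pool.Agent.Work.MP_1ce445_lin

/-- evaluation at three points -/
def UNI_ev {s : ℕ} (a b c : ZMod s) : (ZMod s → ZMod 6) →+ ZMod 6 × ZMod 6 × ZMod 6 :=
  (Pi.evalAddMonoidHom (fun _ : ZMod s => ZMod 6) a).prod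
    ((Pi.evalAddMonoidHom (fun _ : ZMod s => ZMod 6) b).prod
      (Pi.evalAddMonoidHom (fun _ : ZMod s => ZMod 6) c))

lemma UNI_ev_apply {s : ℕ} (a b c : ZMod s) (g : ZMod s → ZMod 6) :
    UNI_ev a b c g = (g a, g b, g c) := rfl

lemma UNI_surj {s : ℕ} {a b c : ZMod s} (hab : a ≠ b) (hac : a ≠ c) (hbc : b ≠ c)
    (x : ZMod 6 × ZMod 6 × ZMod 6) : x ∈ Set.range (UNI_ev a b c) := by
  classical
  refine ⟨fun y => if y = a then x.1 else if y = b then x.2.1 else x.2.2, ?_⟩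
  rw [UNI_ev_apply]
  simp [hab.symm, hac.symm, hbc.symm]

open Classical in
lemma UNI_card {s : ℕ} [NeZero s] {a b c : ZMod s} (hab : a ≠ b) (hac : a ≠ c) (hbc : b ≠ c)
    (x : ZMod 6 × ZMod 6 × ZMod 6) :
    216 * (univ.filter (fun g : ZMod s → ZMod 6 => UNI_ev a b c g = x)).card = 6 ^ s := by
  have h1 : ∀ y : ZMod 6 × ZMod 6 × ZMod 6,
      (univ.filter (fun g : ZMod s → ZMod 6 => UNI_ev a b c g = y)).card =
      (univ.filter (fun g : ZMod s → ZMod 6 => UNI_ev a b c g = x)).card := fun y =>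
    AddMonoidHom.card_fiber_eq_of_mem_range (UNI_ev a b c) (UNI_surj hab hac hbc y)
      (UNI_surj hab hac hbc x)
  have h2 : (univ : Finset (ZMod s → ZMod 6)).card =
      ∑ y : ZMod 6 × ZMod 6 × ZMod 6,
        (univ.filter (fun g : ZMod s → ZMod 6 => UNI_ev a b c g = y)).card :=
    Finset.card_eq_sum_card_fiberwise (fun _ _ => by simp)
  rw [Finset.sum_congr rfl (fun y _ => h1 y), Finset.sum_const, card_univ, card_univ,
    Fintype.card_fun, ZMod.card, ZMod.card, Fintype.card_prod, Fintype.card_prod, ZMod.card,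
    smul_eq_mul] at h2
  rw [h2]

open Classical in
lemma UNI_bad {s : ℕ} [NeZero s] {a b c : ZMod s} (hab : a ≠ b) (hac : a ≠ c) (hbc : b ≠ c)
    (x : ZMod 6 × ZMod 6 × ZMod 6) :
    ((univ.filter (fun g : ZMod s → ZMod 6 => UNI_ev a b c g ≠ x)).card : ℝ) =
      215 / 216 * 6 ^ s := by
  have h1 := UNI_card hab hac hbc x
  have h2 := Finset.card_filter_add_card_filter_not (s := (univ : Finset (ZMod s → ZMod 6)))
    (fun g : ZMod s → ZMod 6 => UNI_ev a b c g = x)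
  rw [card_univ, Fintype.card_fun, ZMod.card, ZMod.card] at h2
  have h1' : (216 : ℝ) * ((univ.filter (fun g : ZMod s → ZMod 6 => UNI_ev a b c g = x)).card : ℝ) =
      6 ^ s := by exact_mod_cast h1
  have h2' : ((univ.filter (fun g : ZMod s → ZMod 6 => UNI_ev a b c g = x)).card : ℝ) +
      ((univ.filter (fun g : ZMod s → ZMod 6 => ¬ UNI_ev a b c g = x)).card : ℝ) = 6 ^ s := by
    exact_mod_cast h2
  have h3 : ((univ.filter (fun g : ZMod s → ZMod 6 => UNI_ev a b c g ≠ x)).card : ℝ) =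
      ((univ.filter (fun g : ZMod s → ZMod 6 => ¬ UNI_ev a b c g = x)).card : ℝ) := rfl
  rw [h3]
  linarith

/-- the counting -/
lemma UNI_count {s m : ℕ} [NeZero s] (h : 216 * (s : ℝ) ^ 3 * (215 / 216) ^ m < 1) :
    ∃ F : Fin m → ZMod s → ZMod 6, ∀ a b c : ZMod s, a ≠ b → a ≠ c → b ≠ c → ∀ u v w : ZMod 6,
      ∃ r, F r a = u ∧ F r b = v ∧ F r c = w := by
  classical
  by_contra hcon
  push Not at hcon
  let T : Finset ((ZMod s × ZMod s × ZMod s) × (ZMod 6 × ZMod 6 × ZMod 6)) :=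
    univ.filter (fun t => t.1.1 ≠ t.1.2.1 ∧ t.1.1 ≠ t.1.2.2 ∧ t.1.2.1 ≠ t.1.2.2)
  let B : ((ZMod s × ZMod s × ZMod s) × (ZMod 6 × ZMod 6 × ZMod 6)) →
      Finset (Fin m → ZMod s → ZMod 6) := fun t =>
    Fintype.piFinset (fun _ : Fin m =>
      univ.filter (fun g : ZMod s → ZMod 6 => UNI_ev t.1.1 t.1.2.1 t.1.2.2 g ≠ t.2))
  have hsub : (univ : Finset (Fin m → ZMod s → ZMod 6)) ⊆ T.biUnion B := by
    intro F _
    obtain ⟨a, b, c, hab, hac, hbc, u, v, w, hF⟩ := hcon F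
    rw [mem_biUnion]
    refine ⟨((a, b, c), (u, v, w)), by simp [T, hab, hac, hbc], ?_⟩
    simp only [B, Fintype.mem_piFinset, mem_filter, mem_univ, true_and]
    intro r hr
    rw [UNI_ev_apply, Prod.mk.injEq, Prod.mk.injEq] at hr
    exact hF r hr.1 hr.2.1 hr.2.2
  have h1 : ((univ : Finset (Fin m → ZMod s → ZMod 6)).card : ℝ) ≤
      ∑ t ∈ T, ((B t).card : ℝ) := by
    exact_mod_cast (card_le_card hsub).trans card_biUnion_le
  have h2 : ∀ t ∈ T, ((B t).card : ℝ) = (215 / 216 * 6 ^ s) ^ m := by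
    intro t ht
    simp only [T, mem_filter, mem_univ, true_and] at ht
    simp only [B, Fintype.card_piFinset, prod_const, card_univ, Fintype.card_fin]
    rw [Nat.cast_pow, UNI_bad ht.1 ht.2.1 ht.2.2]
  rw [sum_congr rfl h2, sum_const, nsmul_eq_mul, card_univ, Fintype.card_fun, Fintype.card_fun,
    ZMod.card, ZMod.card, Fintype.card_fin] at h1
  have h3 : (T.card : ℝ) ≤ 216 * (s : ℝ) ^ 3 := by
    have h4 : T.card ≤ (s * (s * s)) * (6 * (6 * 6)) := by
      refine (card_le_univ T).trans ?_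
      simp [Fintype.card_prod, ZMod.card]
    have h5 : (T.card : ℝ) ≤ ((s * (s * s)) * (6 * (6 * 6)) : ℕ) := by exact_mod_cast h4
    refine h5.trans (le_of_eq ?_)
    push_cast
    ring
  have h6 : (0 : ℝ) < (6 ^ s) ^ m := by positivity
  have h7 : ((6 ^ s) ^ m : ℝ) ≤ 216 * (s : ℝ) ^ 3 * ((215 / 216) ^ m * (6 ^ s) ^ m) := by
    have h8 : (((6 ^ s) ^ m : ℕ) : ℝ) = ((6 : ℝ) ^ s) ^ m := by push_cast; ring
    rw [h8, mul_pow] at h1
    exact h1.trans (mul_le_mul_of_nonneg_right h3 (by positivity))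
  nlinarith

theorem stmt_UNI : Stmt_UNI := by
  have hlim : Filter.Tendsto (fun n : ℕ => (n : ℝ) ^ 3 * (215 / 216 : ℝ) ^ n) Filter.atTop
      (nhds 0) :=
    tendsto_pow_const_mul_const_pow_of_abs_lt_one 3 (by rw [abs_of_pos] <;> norm_num)
  have hev := hlim.eventually_lt_const (show (0 : ℝ) < 1 / (216 * 19 ^ 3) * (215 / 216) by norm_num)
  obtain ⟨N, hN⟩ := Filter.eventually_atTop.1 hev
  refine ⟨19 * N, ?_⟩
  intro s _ hs
  set m := s / 19 with hm
  have hm1 : N ≤ m + 1 := by omega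
  have hm2 : s ≤ 19 * (m + 1) := by omega
  have h1 := hN (m + 1) hm1
  have h2 : 216 * (s : ℝ) ^ 3 * (215 / 216) ^ m < 1 := by
    have h3 : (s : ℝ) ≤ 19 * ((m + 1 : ℕ) : ℝ) := by exact_mod_cast hm2
    have h4 : (s : ℝ) ^ 3 ≤ (19 * ((m + 1 : ℕ) : ℝ)) ^ 3 :=
      pow_le_pow_left₀ (Nat.cast_nonneg _) h3 3
    have h5 : (0 : ℝ) < (215 / 216) ^ m := by positivity
    have h6 : (s : ℝ) ^ 3 * (215 / 216) ^ m ≤
        (19 * ((m + 1 : ℕ) : ℝ)) ^ 3 * (215 / 216) ^ m := mul_le_mul_of_nonneg_right h4 h5.le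
    have h7 : (19 * ((m + 1 : ℕ) : ℝ)) ^ 3 * (215 / 216) ^ m * (215 / 216) =
        19 ^ 3 * (((m + 1 : ℕ) : ℝ) ^ 3 * (215 / 216) ^ (m + 1)) := by ring
    nlinarith
  obtain ⟨F, hF⟩ := UNI_count h2
  refine ⟨fun r => if h : r < m then F ⟨r, h⟩ else 0, ?_⟩
  intro a b c hab hac hbc u v w
  obtain ⟨r, hr⟩ := hF a b c hab hac hbc u v w
  refine ⟨r.1, ?_, ?_⟩
  · have := r.2
    omega
  · simpa [r.2] using hr

end Pool.Agent.Work.MP_1ce445_fx
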