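import Pool.Agent.Work.MP_1ce445_fx.InterfaceT

/-!
Block WCN of THEOREM STAIRCASE for MP_1ce445_co: the windows of a vertex have at most `k - 3` elements together.
-/

namespace Pool.Agent.Work.MP_1ce445_fx

open Finset Pool.Agent.Work.MP_1ce445_co_56 Pool.Agent.Work.MP_1ce445_lin

open Classical in
/-- the union of the windows of `x` -/
noncomputable def WCN_all {n k : ℕ} (G : Fin k → SimpleGraph (Fin n)) (e : Fin 3 → Fin k)
    (x : Fin n) : Finset (Fin n) :=
  univ.filter (fun m => m ≠ x ∧ ∀ i, ¬ (G (e i)).Adj x m)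

theorem WCN_sum {n k : ℕ} (G : Fin k → SimpleGraph (Fin n)) (e : Fin 3 → Fin k)
    (t : Fin n → Fin 3) (x : Fin n) : ∑ j, (wn G e t j x).card = (WCN_all G e x).card := by
  classical
  rw [card_eq_sum_card_fiberwise (f := t) (t := univ) (s := WCN_all G e x)
    (fun a _ => mem_coe.2 (mem_univ _))]
  apply sum_congr rfl
  intro j _
  congr 1
  ext m
  unfold wn WCN_all
  simp only [mem_filter, mem_univ, true_and]
  tauto

theorem stmt_WCN : Stmt_WCN := by
  classical
  intro n k G e t hS x
  rw [WCN_sum]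
  have hex : ∀ m, ∃ l, m ∈ WCN_all G e x → (G l).Adj x m ∧ ∀ i, l ≠ e i := by
    intro m
    by_cases hm : m ∈ WCN_all G e x
    · have h1 := hm
      unfold WCN_all at h1
      simp only [mem_filter, mem_univ, true_and] at h1
      obtain ⟨l, hl⟩ := hS.fac.cover x m (Ne.symm h1.1)
      refine ⟨l, fun _ => ⟨hl, ?_⟩⟩
      intro i hi
      rw [hi] at hl
      exact h1.2 i hl
    · exact ⟨e 0, fun h => absurd h hm⟩
  choose f hf using hex
  have h1 : (WCN_all G e x).card ≤ (univ \ univ.image e).card := by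
    apply card_le_card_of_injOn f
    · intro m hm
      have h2 := hf m (mem_coe.1 hm)
      rw [mem_coe, mem_sdiff, mem_image]
      refine ⟨mem_univ _, ?_⟩
      rintro ⟨i, _, hi⟩
      exact h2.2 i hi.symm
    · intro m hm m' hm' h
      have h2 := hf m (mem_coe.1 hm)
      have h3 := hf m' (mem_coe.1 hm')
      have h4 : f m = f m' := h
      rw [← h4] at h3
      exact hS.oth (f m) h2.2 x m m' h2.1 h3.1
  rw [card_sdiff_of_subset (subset_univ _), card_univ, card_image_of_injective _ hS.inj,
    card_univ, Fintype.card_fin, Fintype.card_fin] at h1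
  exact h1

end Pool.Agent.Work.MP_1ce445_fx
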