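import Pool.Agent.Work.MP_1ce445_fx.InterfaceT

/-! Block WFR of `fxt_blocks` (helper71): frequent sets, weights. -/

namespace Pool.Agent.Work.MP_1ce445_fx

open Finset Pool.Agent.Work.MP_1ce445_co_56 Pool.Agent.Work.MP_1ce445_lin

open Classical in
theorem stmt_WFR (hWCN : Stmt_WCN) (hWIN : Stmt_WIN) (hLMW : Stmt_LMW) : Stmt_WFR := by
  intro n k G e t hS hk hn i j l x hij hil hjl hx
  -- sizes of the windows
  have hw : ∀ (j' : Fin 3) (v : Fin n), (wn G e t j' v).card ≤ 11 := by
    intro j' v
    have h1 := hWCN n k G e t hS v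
    have h2 : (wn G e t j' v).card ≤ ∑ j'', (wn G e t j'' v).card :=
      Finset.single_le_sum (f := fun j'' => (wn G e t j'' v).card) (fun _ _ => Nat.zero_le _)
        (Finset.mem_univ j')
    omega
  set M := wn G e t j x with hM
  set S : Fin n → Finset (Fin n) := fun y => M.filter (fun m => ¬ (G (e l)).Adj m y) with hSdef
  set X : Finset (Fin n) := univ.filter (fun v => t v = j) with hX
  have hXc : 200 ≤ X.card := by
    have h1 := hS.big j
    have h2 : X.card = (univ.filter (fun v => t v = j)).card := by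
      rw [hX]
    have h3 : n ≤ 5 * X.card := by
      rw [h2]
      convert h1
    omega
  set F : Finset (Finset (Fin n)) :=
    M.powerset.filter (fun S' => 122 ≤ (X.filter (fun y => S y = S')).card) with hF
  have hint : ∀ S1 ∈ F, ∀ S2 ∈ F, (S1 ∩ S2).Nonempty := by
    intro S1 h1 S2 h2
    rw [hF, Finset.mem_filter] at h1 h2
    obtain ⟨y, hy⟩ : (X.filter (fun y => S y = S1)).Nonempty := by
      rw [← Finset.card_pos]; omega
    rw [Finset.mem_filter, hX, Finset.mem_filter] at hy
    set B : Finset (Fin n) := (wn G e t i y).biUnion (fun v => wn G e t j v) with hB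
    have hBc : B.card ≤ 121 := by
      have h3 : B.card ≤ (wn G e t i y).card * 11 :=
        Finset.card_biUnion_le_card_mul _ _ _ (fun v _ => hw j v)
      have h4 := hw i y
      omega
    obtain ⟨y', hy', hy'B⟩ : ∃ y' ∈ X.filter (fun y => S y = S2), y' ∉ B :=
      Finset.exists_mem_notMem_of_card_lt_card (by omega)
    rw [Finset.mem_filter, hX, Finset.mem_filter] at hy'
    obtain ⟨m, hm, hm1, hm2⟩ := hWIN n k G e t hS i j l x y y' hij hil hjl hx hy.1.2 hy'.1.2 (by
      intro v hv hyv hy'v
      apply hy'B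
      rw [hB, Finset.mem_biUnion]
      refine ⟨v, ?_, hy'v⟩
      rw [wn, Finset.mem_filter] at hyv ⊢
      refine ⟨Finset.mem_univ _, hv, hyv.2.2.1.symm, ?_⟩
      intro i' h5
      exact hyv.2.2.2 i' h5.symm)
    refine ⟨m, ?_⟩
    rw [Finset.mem_inter]
    constructor
    · rw [← hy.2]
      exact Finset.mem_filter.2 ⟨hm, hm1⟩
    · rw [← hy'.2]
      exact Finset.mem_filter.2 ⟨hm, hm2⟩
  have hM0 : 1 ≤ M.card := by
    by_contra h0
    have hMe : M = ∅ := by
      rw [← Finset.card_eq_zero]; omega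
    have hmem : (∅ : Finset (Fin n)) ∈ F := by
      rw [hF, Finset.mem_filter]
      refine ⟨Finset.empty_mem_powerset _, ?_⟩
      have h3 : X.filter (fun y => S y = ∅) = X := by
        apply Finset.filter_true_of_mem
        intro y _
        simp only [hSdef, hMe, Finset.filter_empty]
      rw [h3]
      omega
    obtain ⟨m, hm⟩ := hint ∅ hmem ∅ hmem
    simp at hm
  obtain ⟨μ, hμ0, hμM, hμ1, hμF⟩ := hLMW n M F hM0 (hw j x)
    (fun S' hS' => Finset.mem_powerset.1 (Finset.mem_filter.1 hS').1) hint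
  refine ⟨μ, hμ0, hμM, hμ1, ?_⟩
  set c : ℝ := (29 - 2 * (M.card : ℝ)) / 35 with hc
  have hsub : univ.filter (fun y => t y = j ∧
        ∑ m ∈ univ.filter (fun m => ¬ (G (e l)).Adj m y), μ m < c) ⊆
      (M.powerset.filter (fun S' => S' ∉ F)).biUnion (fun S' => X.filter (fun y => S y = S')) := by
    intro y hy
    rw [Finset.mem_filter] at hy
    rw [Finset.mem_biUnion]
    have hSM : S y ⊆ M := Finset.filter_subset _ _
    refine ⟨S y, ?_, ?_⟩
    · rw [Finset.mem_filter, Finset.mem_powerset]
      refine ⟨hSM, ?_⟩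
      intro hSF
      have h1 := hμF (S y) hSF
      have h2 : ∑ m ∈ S y, μ m ≤ ∑ m ∈ univ.filter (fun m => ¬ (G (e l)).Adj m y), μ m := by
        apply Finset.sum_le_sum_of_subset_of_nonneg
        · intro m hm
          rw [hSdef, Finset.mem_filter] at hm
          exact Finset.mem_filter.2 ⟨Finset.mem_univ _, hm.2⟩
        · intro m _ _
          exact hμ0 m
      have h3 := hy.2.2
      linarith
    · exact Finset.mem_filter.2 ⟨Finset.mem_filter.2 ⟨Finset.mem_univ _, hy.2.1⟩, rfl⟩
  refine (Finset.card_le_card hsub).trans ?_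
  have h1 : ((M.powerset.filter (fun S' => S' ∉ F)).biUnion
      (fun S' => X.filter (fun y => S y = S'))).card ≤
      (M.powerset.filter (fun S' => S' ∉ F)).card * 121 := by
    apply Finset.card_biUnion_le_card_mul
    intro S' hS'
    rw [Finset.mem_filter] at hS'
    by_contra h2
    apply hS'.2
    rw [hF, Finset.mem_filter]
    exact ⟨hS'.1, by omega⟩
  have h2 : (M.powerset.filter (fun S' => S' ∉ F)).card ≤ 2 ^ 11 := by
    refine (Finset.card_le_card (Finset.filter_subset _ _)).trans ?_
    rw [Finset.card_powerset]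
    exact Nat.pow_le_pow_right (by norm_num) (hw j x)
  calc _ ≤ _ := h1
    _ ≤ 2 ^ 11 * 121 := Nat.mul_le_mul_right _ h2
    _ ≤ 250000 := by norm_num

end Pool.Agent.Work.MP_1ce445_fx
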