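import Pool.Agent.Work.MP_1ce445_fx.InterfaceT

/-!
Block WIN of THEOREM STAIRCASE for MP_1ce445_co: intersecting windows.
-/

namespace Pool.Agent.Work.MP_1ce445_fx

open Finset Pool.Agent.Work.MP_1ce445_co_56 Pool.Agent.Work.MP_1ce445_lin

theorem WIN_fin (i j l s : Fin 3) (h1 : i ≠ j) (h2 : i ≠ l) (h3 : j ≠ l) (h4 : s ≠ i)
    (h5 : s ≠ j) : s = l := by
  have hi := i.isLt
  have hj := j.isLt
  have hl := l.isLt
  have hs := s.isLt
  simp only [ne_eq, Fin.ext_iff] at *
  omega

/-- a special colour which joins a vertex of type `i` with a vertex of type `j` is `e l` -/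
theorem WIN_special {n k : ℕ} {G : Fin k → SimpleGraph (Fin n)} {e : Fin 3 → Fin k}
    {t : Fin n → Fin 3} (hS : Str15 G e t) {i j l : Fin 3} (hij : i ≠ j) (hil : i ≠ l)
    (hjl : j ≠ l) {x v : Fin n} (hx : t x = i) (hv : t v = j)
    (hw : v ∉ wn G e t j x) : (G (e l)).Adj x v := by
  have hvx : v ≠ x := by
    intro h
    rw [h, hx] at hv
    exact hij hv
  have h1 : ∃ i', (G (e i')).Adj x v := by
    by_contra hcon
    push Not at hcon
    apply hw
    unfold wn
    simp only [mem_filter, mem_univ, true_and]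
    exact ⟨hv, hvx, hcon⟩
  obtain ⟨i', hi'⟩ := h1
  have hi1 : i' ≠ i := by
    intro h
    rw [h] at hi'
    have h2 : (G (e (t x))).Adj x v := by rw [hx]; exact hi'
    have h3 := hS.own x v h2
    rw [hx, hv] at h3
    exact hij h3.symm
  have hi2 : i' ≠ j := by
    intro h
    rw [h] at hi'
    have h2 : (G (e (t v))).Adj v x := by rw [hv]; exact hi'.symm
    have h3 := hS.own v x h2
    rw [hx, hv] at h3
    exact hij h3
  have hi3 : i' = l := WIN_fin i j l i' hij hil hjl hi1 hi2
  rw [← hi3]
  exact hi'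

theorem stmt_WIN : Stmt_WIN := by
  classical
  intro n k G e t hS i j l x y y' hij hil hjl hx hy hy' hcon
  by_contra hne
  push Not at hne
  have hD : IsTDS (G (e l)) (univ.filter (fun v => t v = l) ∪ {x, y, y'}) := by
    intro v
    have hcase : t v = i ∨ t v = j ∨ t v = l := by
      by_cases h1 : t v = i
      · exact Or.inl h1
      · by_cases h2 : t v = j
        · exact Or.inr (Or.inl h2)
        · exact Or.inr (Or.inr (WIN_fin i j l (t v) hij hil hjl h1 h2))
    rcases hcase with hv | hv | hv
    · by_cases h1 : y ∈ wn G e t j v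
      · have h2 := hcon v hv h1
        refine ⟨y', ?_, WIN_special hS hij hil hjl hv hy' h2⟩
        simp
      · refine ⟨y, ?_, WIN_special hS hij hil hjl hv hy h1⟩
        simp
    · by_cases h1 : v ∈ wn G e t j x
      · by_cases h2 : (G (e l)).Adj v y
        · exact ⟨y, by simp, h2⟩
        · exact ⟨y', by simp, hne v h1 h2⟩
      · exact ⟨x, by simp, (WIN_special hS hij hil hjl hx hv h1).symm⟩
    · obtain ⟨w, hw⟩ := hS.fac.minDeg (e l) v
      have h2 : (G (e (t v))).Adj v w := by rw [hv]; exact hw
      have h3 := hS.own v w h2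
      rw [hv] at h3
      refine ⟨w, ?_, hw⟩
      simp [h3]
  have h1 := gammaT_le_card hD
  have h2 : (univ.filter (fun v => t v = l) ∪ {x, y, y'}).card ≤
      (univ.filter (fun v => t v = l)).card + 3 := by
    refine (card_union_le _ _).trans ?_
    have := card_le_three (a := x) (b := y) (c := y')
    omega
  have h3 := hS.gam l
  omega

end Pool.Agent.Work.MP_1ce445_fx
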