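import Pool.Agent.Work.MP_1ce445_fx.InterfaceT

/-!
WPR (MP_1ce445_co, InterfaceT): product measure on the windows.
-/

namespace Pool.Agent.Work.MP_1ce445_fx

open Finset Pool.Agent.Work.MP_1ce445_co_56 Pool.Agent.Work.MP_1ce445_lin

namespace WPR

open Classical in
/-- the indicator of a proposition -/
noncomputable def ind (p : Prop) : ℝ := if p then 1 else 0

lemma ind_pos {p : Prop} (h : p) : ind p = 1 := by unfold ind; rw [if_pos h]

lemma ind_neg {p : Prop} (h : ¬ p) : ind p = 0 := by unfold ind; rw [if_neg h]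

open Classical in
/-- one side of the estimate -/
lemma half {V : Type} [Fintype V] (A : Finset V) (hA : 0 < A.card) (μ : V → V → ℝ)
    (hμ : ∀ x ∈ A, ∀ m, 0 ≤ μ x m) (ρ : V → ℝ) (hρ0 : ∀ y, 0 ≤ ρ y) (hρs : ∑ y, ρ y = 1)
    (c : ℝ) (hc : ∀ y, ρ y ≤ c) (J : V → Prop) (hJ : ∀ y, ¬ J y → ρ y = 0) (a : V → ℝ)
    (ha : ∀ x, a x ≤ 1) (R : V → V → Prop) (K : ℕ)
    (bad : ∀ x ∈ A, (univ.filter (fun y => J y ∧
      ∑ m ∈ univ.filter (fun m => R m y), μ x m < a x)).card ≤ K) :
    (∑ x ∈ A, a x) / (A.card : ℝ) - K * c ≤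
      ∑ m, ∑ y, (∑ x ∈ A, μ x m) / (A.card : ℝ) * ρ y * ind (R m y) := by
  have hA' : (0 : ℝ) < A.card := by exact_mod_cast hA
  obtain ⟨x0, _⟩ := card_pos.1 hA
  have hc0 : 0 ≤ c := (hρ0 x0).trans (hc x0)
  have hx : ∀ x ∈ A, a x - K * c ≤
      ∑ y, ρ y * ∑ m ∈ univ.filter (fun m => R m y), μ x m := by
    intro x hx
    have h1 : ∀ y, ρ y * a x - (if y ∈ (univ.filter (fun y => J y ∧
        ∑ m ∈ univ.filter (fun m => R m y), μ x m < a x)) then c else 0) ≤
        ρ y * ∑ m ∈ univ.filter (fun m => R m y), μ x m := by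
      intro y
      have hn : 0 ≤ ∑ m ∈ univ.filter (fun m => R m y), μ x m :=
        sum_nonneg (fun m _ => hμ x hx m)
      by_cases hy : y ∈ (univ.filter (fun y => J y ∧
        ∑ m ∈ univ.filter (fun m => R m y), μ x m < a x))
      · rw [if_pos hy]
        have h3 : ρ y * a x ≤ ρ y * 1 := mul_le_mul_of_nonneg_left (ha x) (hρ0 y)
        have h2 : 0 ≤ ρ y * ∑ m ∈ univ.filter (fun m => R m y), μ x m := mul_nonneg (hρ0 y) hn
        have h4 := hc y
        linarith
      · rw [if_neg hy, sub_zero]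
        by_cases hj : J y
        · apply mul_le_mul_of_nonneg_left _ (hρ0 y)
          by_contra hlt
          push Not at hlt
          exact hy (mem_filter.2 ⟨mem_univ _, hj, hlt⟩)
        · rw [hJ y hj]; simp
    have h2 := sum_le_sum (fun y (_ : y ∈ (univ : Finset V)) => h1 y)
    rw [sum_sub_distrib, ← sum_mul, hρs, one_mul, sum_ite_mem, univ_inter, sum_const,
      nsmul_eq_mul] at h2
    have h3 : ((univ.filter (fun y => J y ∧
        ∑ m ∈ univ.filter (fun m => R m y), μ x m < a x)).card : ℝ) * c ≤ K * c := by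
      apply mul_le_mul_of_nonneg_right _ hc0
      exact_mod_cast bad x hx
    linarith
  have e1 : ∀ m y, (∑ x ∈ A, μ x m) / (A.card : ℝ) * ρ y * ind (R m y) =
      (∑ x ∈ A, ρ y * (if R m y then μ x m else 0)) / (A.card : ℝ) := by
    intro m y
    by_cases h : R m y
    · simp only [if_pos h, ind_pos h]
      rw [← mul_sum]; ring
    · simp [if_neg h, ind_neg h]
  calc (∑ x ∈ A, a x) / (A.card : ℝ) - K * c = (∑ x ∈ A, (a x - K * c)) / (A.card : ℝ) := by
        rw [sum_sub_distrib, sum_const, nsmul_eq_mul]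
        field_simp
    _ ≤ (∑ x ∈ A, ∑ y, ρ y * ∑ m ∈ univ.filter (fun m => R m y), μ x m) / (A.card : ℝ) := by
        apply div_le_div_of_nonneg_right _ hA'.le
        exact sum_le_sum hx
    _ = _ := by
        simp_rw [e1, ← sum_div]
        congr 1
        simp_rw [sum_filter, mul_sum]
        rw [sum_comm]
        rw [sum_comm (s := (univ : Finset V)) (t := (univ : Finset V))]
        apply sum_congr rfl
        intro y _
        rw [sum_comm]

open Classical in
/-- the mean value of probability weights with few overlaps -/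
lemma avg {V : Type} [Fintype V] (A : Finset V) (hA : 0 < A.card) (μ : V → V → ℝ)
    (h0 : ∀ x ∈ A, ∀ m, 0 ≤ μ x m) (h1 : ∀ x ∈ A, ∑ m, μ x m = 1) (W : V → Finset V)
    (hW : ∀ m, (W m).card ≤ 11) (hs : ∀ x ∈ A, ∀ m, x ∉ W m → μ x m = 0) :
    (∀ m, 0 ≤ (∑ x ∈ A, μ x m) / (A.card : ℝ)) ∧ (∑ m, (∑ x ∈ A, μ x m) / (A.card : ℝ) = 1) ∧
      ∀ m, (∑ x ∈ A, μ x m) / (A.card : ℝ) ≤ 11 / (A.card : ℝ) := by
  have hA' : (0 : ℝ) < A.card := by exact_mod_cast hA
  refine ⟨fun m => div_nonneg (sum_nonneg fun x hx => h0 x hx m) hA'.le, ?_, ?_⟩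
  · rw [← sum_div, sum_comm, sum_congr rfl h1, sum_const, nsmul_eq_mul, mul_one,
      div_self hA'.ne']
  · intro m
    apply div_le_div_of_nonneg_right _ hA'.le
    calc ∑ x ∈ A, μ x m = ∑ x ∈ A.filter (fun x => x ∈ W m), μ x m := by
          rw [sum_filter]
          apply sum_congr rfl
          intro x hx
          split_ifs with h
          · rfl
          · exact hs x hx m h
      _ ≤ ∑ x ∈ A.filter (fun x => x ∈ W m), (1 : ℝ) := by
          apply sum_le_sum
          intro x hx
          rw [mem_filter] at hx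
          rw [← h1 x hx.1]
          exact single_le_sum (fun m _ => h0 x hx.1 m) (mem_univ m)
      _ = ((A.filter (fun x => x ∈ W m)).card : ℝ) := by
          rw [sum_const, nsmul_eq_mul, mul_one]
      _ ≤ ((W m).card : ℝ) := by
          have : (A.filter (fun x => x ∈ W m)).card ≤ (W m).card :=
            card_le_card (fun x hx => (mem_filter.1 hx).2)
          exact_mod_cast this
      _ ≤ 11 := by exact_mod_cast hW m

lemma wn_symm {n k : ℕ} {G : Fin k → SimpleGraph (Fin n)} {e : Fin 3 → Fin k}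
    {t : Fin n → Fin 3} {i j : Fin 3} {x m : Fin n} (hx : t x = i) (h : m ∈ wn G e t j x) :
    x ∈ wn G e t i m := by
  classical
  unfold wn at h ⊢
  rw [mem_filter] at h ⊢
  exact ⟨mem_univ _, hx, fun he => h.2.2.1 he.symm, fun i' hi' => h.2.2.2 i' hi'.symm⟩

open Classical in
lemma both {V : Type} [Fintype V] (ν ν' : V → ℝ) (h0 : ∀ m, 0 ≤ ν m) (h0' : ∀ m, 0 ≤ ν' m)
    (hs : ∑ m, ν m = 1) (hs' : ∑ m, ν' m = 1) (c : ℝ) (hc : ∀ y, ν' y ≤ c) (J : V → Prop)
    (hJ : ∀ y, ¬ J y → ν y = 0) (hJ' : ∀ y, ¬ J y → ν' y = 0) (R R' : V → V → Prop)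
    (hR : ∀ m, J m → (univ.filter (fun y => J y ∧ R m y ∧ R' m y)).card ≤ 13) :
    (∑ m, ∑ y, ν m * ν' y * ind (R m y)) +
      (∑ m, ∑ y, ν m * ν' y * ind (R' m y)) ≤ 1 + 13 * c := by
  have hne : Nonempty V := by
    by_contra h
    rw [not_nonempty_iff] at h
    simp at hs
  obtain ⟨x0⟩ := hne
  have hc0 : 0 ≤ c := (h0' x0).trans (hc x0)
  have key : ∀ m, (∑ y, ν m * ν' y * ind (R m y)) +
      (∑ y, ν m * ν' y * ind (R' m y)) ≤ ν m * (1 + 13 * c) := by
    intro m
    by_cases hm : J m
    · have h1 : (∑ y, ν m * ν' y * ind (R m y)) +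
          (∑ y, ν m * ν' y * ind (R' m y)) =
          ν m * ∑ y, ν' y * (ind (R m y) + ind (R' m y)) := by
        rw [mul_sum, ← sum_add_distrib]
        apply sum_congr rfl
        intro y _
        ring
      rw [h1]
      apply mul_le_mul_of_nonneg_left _ (h0 m)
      have h2 : ∀ y, ν' y * (ind (R m y) + ind (R' m y)) ≤
          ν' y + (if y ∈ univ.filter (fun y => J y ∧ R m y ∧ R' m y) then c else 0) := by
        intro y
        by_cases hy : J y
        · by_cases hb : R m y ∧ R' m y
          · have hmm : y ∈ univ.filter (fun y => J y ∧ R m y ∧ R' m y) :=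
              mem_filter.2 ⟨mem_univ _, hy, hb⟩
            rw [ind_pos hb.1, ind_pos hb.2, if_pos hmm]
            have := hc y
            linarith
          · have hnm : y ∉ univ.filter (fun y => J y ∧ R m y ∧ R' m y) :=
              fun h => hb (mem_filter.1 h).2.2
            rw [if_neg hnm, add_zero]
            have h3 : ind (R m y) + ind (R' m y) ≤ 1 := by
              by_cases ha : R m y
              · have hb' : ¬ R' m y := fun h => hb ⟨ha, h⟩
                rw [ind_pos ha, ind_neg hb', add_zero]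
              · rw [ind_neg ha, zero_add]
                by_cases hb' : R' m y
                · rw [ind_pos hb']
                · rw [ind_neg hb']; norm_num
            calc _ ≤ ν' y * 1 := mul_le_mul_of_nonneg_left h3 (h0' y)
              _ = ν' y := mul_one _
        · rw [hJ' y hy, zero_mul, zero_add]
          split_ifs
          · exact hc0
          · exact le_refl _
      calc _ ≤ ∑ y, (ν' y + (if y ∈ univ.filter (fun y => J y ∧ R m y ∧ R' m y) then c else 0)) :=
            sum_le_sum (fun y _ => h2 y)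
        _ = 1 + ((univ.filter (fun y => J y ∧ R m y ∧ R' m y)).card : ℝ) * c := by
            rw [sum_add_distrib, hs', sum_ite_mem, univ_inter, sum_const, nsmul_eq_mul]
        _ ≤ 1 + 13 * c := by
            have : ((univ.filter (fun y => J y ∧ R m y ∧ R' m y)).card : ℝ) * c ≤ 13 * c := by
              apply mul_le_mul_of_nonneg_right _ hc0
              exact_mod_cast hR m hm
            linarith
    · rw [hJ m hm]
      simp
  rw [← sum_add_distrib]
  calc _ ≤ ∑ m, ν m * (1 + 13 * c) := sum_le_sum (fun m _ => key m)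
    _ = 1 + 13 * c := by rw [← sum_mul, hs, one_mul]

end WPR

open WPR in
theorem stmt_WPR (hWCN : Stmt_WCN) (hWFR : Stmt_WFR) : Stmt_WPR := by
  classical
  intro n k G e t hS hk hn i j l hij hil hjl
  have hbA := hS.big i
  have hbB := hS.big l
  set A := univ.filter (fun x => t x = i) with hA
  set B := univ.filter (fun x => t x = l) with hB
  have hA0 : 0 < A.card := by
    have : A.card = (univ.filter (fun v => t v = i)).card := rfl
    omega
  have hB0 : 0 < B.card := by
    have : B.card = (univ.filter (fun v => t v = l)).card := rfl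
    omega
  have hn' : (0 : ℝ) < n := by
    have : 0 < n := by omega
    exact_mod_cast this
  have hw : ∀ j' x, (wn G e t j' x).card ≤ 11 := by
    intro j' x
    have h1 := hWCN n k G e t hS x
    have h2 : (wn G e t j' x).card ≤ ∑ j, (wn G e t j x).card :=
      single_le_sum (f := fun j => (wn G e t j x).card) (fun _ _ => Nat.zero_le _) (mem_univ j')
    omega
  have hμ1 := fun x (hx : t x = i) => hWFR n k G e t hS hk hn i j l x hij hil hjl hx
  have hμ2 := fun x (hx : t x = l) => hWFR n k G e t hS hk hn l j i x hjl.symm hil.symm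
    hij.symm hx
  choose! μ hμ0 hμs hμt hμb using hμ1
  choose! μ' hμ0' hμs' hμt' hμb' using hμ2
  have hAm : ∀ x, x ∈ A ↔ t x = i := fun x => by rw [hA, mem_filter]; simp
  have hBm : ∀ x, x ∈ B ↔ t x = l := fun x => by rw [hB, mem_filter]; simp
  have av := avg A hA0 μ (fun x hx => hμ0 x ((hAm x).1 hx)) (fun x hx => hμt x ((hAm x).1 hx))
    (fun m => wn G e t i m) (fun m => hw i m)
    (fun x hx m hm => hμs x ((hAm x).1 hx) m (fun h => hm (wn_symm ((hAm x).1 hx) h)))
  have av' := avg B hB0 μ' (fun x hx => hμ0' x ((hBm x).1 hx))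
    (fun x hx => hμt' x ((hBm x).1 hx))
    (fun m => wn G e t l m) (fun m => hw l m)
    (fun x hx m hm => hμs' x ((hBm x).1 hx) m (fun h => hm (wn_symm ((hBm x).1 hx) h)))
  have hcA : (11 : ℝ) / A.card ≤ 55 / n := by
    have hA' : (0 : ℝ) < A.card := by exact_mod_cast hA0
    have : (n : ℝ) ≤ 5 * A.card := by exact_mod_cast hbA
    rw [div_le_div_iff₀ hA' hn']
    linarith
  have hcB : (11 : ℝ) / B.card ≤ 55 / n := by
    have hB' : (0 : ℝ) < B.card := by exact_mod_cast hB0
    have : (n : ℝ) ≤ 5 * B.card := by exact_mod_cast hbB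
    rw [div_le_div_iff₀ hB' hn']
    linarith
  have hJ : ∀ y, ¬ t y = j → (∑ x ∈ A, μ x y) / (A.card : ℝ) = 0 := by
    intro y hy
    rw [sum_eq_zero, zero_div]
    intro x hx
    apply hμs x ((hAm x).1 hx)
    intro h
    unfold wn at h
    exact hy (mem_filter.1 h).2.1
  have hJ' : ∀ y, ¬ t y = j → (∑ x ∈ B, μ' x y) / (B.card : ℝ) = 0 := by
    intro y hy
    rw [sum_eq_zero, zero_div]
    intro x hx
    apply hμs' x ((hBm x).1 hx)
    intro h
    unfold wn at h
    exact hy (mem_filter.1 h).2.1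
  have h1 := half A hA0 μ (fun x hx => hμ0 x ((hAm x).1 hx))
    (fun y => (∑ x ∈ B, μ' x y) / (B.card : ℝ)) av'.1 av'.2.1 (55 / n)
    (fun y => (av'.2.2 y).trans hcB) (fun y => t y = j) hJ'
    (fun x => (29 - 2 * ((wn G e t j x).card : ℝ)) / 35) (fun x => by
      have : (0 : ℝ) ≤ ((wn G e t j x).card : ℝ) := Nat.cast_nonneg _
      linarith) (fun m y => ¬ (G (e l)).Adj m y) 250000 (fun x hx => by
        have := hμb x ((hAm x).1 hx)
        refine le_trans (le_of_eq ?_) this
        congr!)
  have h2 := half B hB0 μ' (fun x hx => hμ0' x ((hBm x).1 hx))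
    (fun y => (∑ x ∈ A, μ x y) / (A.card : ℝ)) av.1 av.2.1 (55 / n)
    (fun y => (av.2.2 y).trans hcA) (fun y => t y = j) hJ
    (fun x => (29 - 2 * ((wn G e t j x).card : ℝ)) / 35) (fun x => by
      have : (0 : ℝ) ≤ ((wn G e t j x).card : ℝ) := Nat.cast_nonneg _
      linarith) (fun m y => ¬ (G (e i)).Adj m y) 250000 (fun x hx => by
        have := hμb' x ((hBm x).1 hx)
        refine le_trans (le_of_eq ?_) this
        congr!)
  have hf3 : ∀ i' : Fin 3, i' = i ∨ i' = j ∨ i' = l := by
    intro i'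
    revert hij hil hjl
    clear * -
    revert i j l i'
    decide
  have h3 := both (fun m => (∑ x ∈ A, μ x m) / (A.card : ℝ))
    (fun y => (∑ x ∈ B, μ' x y) / (B.card : ℝ)) av.1 av'.1 av.2.1 av'.2.1 (55 / n)
    (fun y => (av'.2.2 y).trans hcB) (fun y => t y = j) hJ hJ'
    (fun m y => ¬ (G (e l)).Adj m y) (fun m y => ¬ (G (e i)).Adj m y) (by
      intro m hm
      have hsub : (univ.filter (fun y => t y = j ∧ ¬ (G (e l)).Adj m y ∧ ¬ (G (e i)).Adj m y)) ⊆
          insert m ((univ.filter (fun y => (G (e j)).Adj m y)) ∪ wn G e t j m) := by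
        intro y hy
        rw [mem_filter] at hy
        rw [mem_insert, mem_union]
        by_cases hym : y = m
        · exact Or.inl hym
        · right
          by_cases hadj : (G (e j)).Adj m y
          · exact Or.inl (mem_filter.2 ⟨mem_univ _, hadj⟩)
          · right
            unfold wn
            refine mem_filter.2 ⟨mem_univ _, hy.2.1, hym, ?_⟩
            intro i'
            rcases hf3 i' with h | h | h
            · rw [h]; exact hy.2.2.2
            · rw [h]; exact hadj
            · rw [h]; exact hy.2.2.1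
      have hc1 : (univ.filter (fun y => (G (e j)).Adj m y)).card ≤ 1 := by
        rw [card_le_one]
        intro y hy y' hy'
        rw [mem_filter] at hy hy'
        have hm' : t m = j := hm
        exact hS.uni m y y' (by rw [hm']; exact hy.2) (by rw [hm']; exact hy'.2)
      have hc2 := card_le_card hsub
      have hc3 := card_insert_le m ((univ.filter (fun y => (G (e j)).Adj m y)) ∪ wn G e t j m)
      have hc4 := card_union_le (univ.filter (fun y => (G (e j)).Adj m y)) (wn G e t j m)
      have hc5 := hw j m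
      refine le_trans ?_ (le_trans hc2 (le_trans hc3 (by omega)))
      apply le_of_eq
      congr!)
  have h4 : (∑ m, ∑ y, (∑ x ∈ B, μ' x m) / (B.card : ℝ) * ((∑ x ∈ A, μ x y) / (A.card : ℝ)) *
      ind (¬ (G (e i)).Adj m y)) =
      ∑ m, ∑ y, (∑ x ∈ A, μ x m) / (A.card : ℝ) * ((∑ x ∈ B, μ' x y) / (B.card : ℝ)) *
      ind (¬ (G (e i)).Adj m y) := by
    rw [sum_comm]
    apply sum_congr rfl
    intro m _
    apply sum_congr rfl
    intro y _
    rw [(G (e i)).adj_comm y m, mul_comm ((∑ x ∈ B, μ' x y) / (B.card : ℝ))]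
  rw [h4] at h2
  have h5 : (250000 : ℝ) * (55 / n) + 250000 * (55 / n) + 13 * (55 / n) ≤ 30000000 / n := by
    have : (250000 : ℝ) * (55 / n) + 250000 * (55 / n) + 13 * (55 / n) =
        (27500715 : ℝ) / n := by ring
    rw [this]
    apply div_le_div_of_nonneg_right _ hn'.le
    norm_num
  push_cast at h1 h2
  linarith

end Pool.Agent.Work.MP_1ce445_fx
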