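import Pool.Agent.Work.MP_1ce445_fx.End
import Pool.Agent.Work.MP_1ce445_fx.Asm3
import Pool.Agent.Work.MP_1ce445_fx.EQT
import Pool.Agent.Work.MP_1ce445_fx.STX
import Pool.Agent.Work.MP_1ce445_fx.WCN
import Pool.Agent.Work.MP_1ce445_fx.WPR
import Pool.Agent.Work.MP_1ce445_fx.WFR
import Pool.Agent.Work.MP_1ce445_fx.WIN
import Pool.Agent.Work.MP_1ce445_fx.LMW
import Pool.Agent.Work.MP_1ce445_fx.LM2
import Pool.Agent.Work.MP_1ce445_fx.BLT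
import Pool.Agent.Work.MP_1ce445_fx.OCT
import Pool.Agent.Work.MP_1ce445_fx.SYF
import Pool.Agent.Work.MP_1ce445_fx.UNI
import Pool.Agent.Work.MP_1ce445_fx.TG1
import Pool.Agent.Work.MP_1ce445_fx.TG2
import Pool.Agent.Work.MP_1ce445_fx.TG3
import Pool.Agent.Work.MP_1ce445_fx.LOT

/-!
The first staircase with the sharp threshold `k = 15`, without hypotheses.
-/

namespace Pool.Agent.Work.MP_1ce445_fx

open Finset Pool.Agent.Work.MP_1ce445_co_56 Pool.Agent.Work.MP_1ce445_lin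

theorem End_LOT : Stmt_LOT :=
  stmt_LOT stmt_OCT (stmt_SYF stmt_UNI) stmt_TG1 (stmt_TG2 stmt_TG1) (stmt_TG3 stmt_TG1)

theorem End_BLT : Stmt_BLT :=
  stmt_BLT (stmt_EQT End_STU End_ADM End_MXQ stmt_NUN stmt_PRM stmt_PQ1)
    (stmt_STX (stmt_TYQ stmt_CV2 stmt_TAU End_SMM) End_XCQ (stmt_DSQ End_XCQ) End_YXQ
      (stmt_OUQ stmt_TAU End_YXQ End_BAQ) stmt_DG2)
    stmt_WCN (stmt_WPR stmt_WCN (stmt_WFR stmt_WCN stmt_WIN (stmt_LMW stmt_LM2)))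

theorem EndW_first (m : ℕ) (hm : 2 ≤ m) :
    ∃ (C δ : ℝ) (n0 : ℕ), 0 < δ ∧ ∀ n k : ℕ, n0 ≤ n → 3 ≤ k →
      ((k : ℝ) ^ m ≤ δ * (n : ℝ) ^ (m - 1) → 18 * k ≤ n ∧
        P n k ≤ (2 * (n / 2)) ^ (k - 3) * EV m n) ∧
      (((C ≤ k ∧ C * (n : ℝ) ^ (m - 2) ≤ (k : ℝ) ^ (m - 1)) ∨
          (m = 2 ∧ ((28 ≤ k ∧ (n % 2 = 0 ∨ n % 6 = 1)) ∨ (15 ≤ k ∧ 18 ∣ n)))) →
        18 * k ≤ n → (2 * (n / 2)) ^ (k - 3) * EV m n ≤ P n k) ∧
      (m = 2 → n % 2 = 0 → k ≤ 14 → P n k < (2 * (n / 2)) ^ (k - 3) * EV m n) := by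
  obtain ⟨C, δ1, n1, hδ1, hA⟩ := finalA m hm
  obtain ⟨n2, hLOU⟩ := End_LOU
  obtain ⟨s3, hLOT⟩ := End_LOT
  obtain ⟨n4, hBLT⟩ := End_BLT
  have h5a : (0 : ℝ) < (1 / 18) ^ m := by positivity
  have hNN : ∀ n, NN n = 2 * (n / 2) := fun _ => rfl
  refine ⟨C, min δ1 ((1 / 18) ^ m), n1 + n2 + 18 * s3 + n4 + 1, lt_min hδ1 h5a,
    fun n k hn hk => ⟨?_, ?_, ?_⟩⟩
  · intro hkn
    have hk1 : (k : ℝ) ^ m ≤ δ1 * (n : ℝ) ^ (m - 1) :=
      hkn.trans (mul_le_mul_of_nonneg_right (min_le_left _ _) (by positivity))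
    refine ⟨?_, ((hA n k (by omega) hk).1 hk1).2⟩
    have hn1 : (1 : ℝ) ≤ n := by exact_mod_cast (by omega : 1 ≤ n)
    have h1 : (k : ℝ) ^ m ≤ ((n : ℝ) / 18) ^ m := by
      calc (k : ℝ) ^ m ≤ min δ1 ((1 / 18) ^ m) * (n : ℝ) ^ (m - 1) := hkn
        _ ≤ (1 / 18) ^ m * (n : ℝ) ^ (m - 1) :=
            mul_le_mul_of_nonneg_right (min_le_right _ _) (by positivity)
        _ ≤ (1 / 18) ^ m * (n : ℝ) ^ m :=
            mul_le_mul_of_nonneg_left (pow_le_pow_right₀ hn1 (by omega)) (by positivity)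
        _ = ((n : ℝ) / 18) ^ m := by rw [← mul_pow]; congr 1; ring
    have h2 : (k : ℝ) ≤ (n : ℝ) / 18 := le_of_pow_le_pow_left₀ (by omega) (by positivity) h1
    have h3 : (18 : ℝ) * k ≤ n := by linarith
    exact_mod_cast h3
  · intro hc h18
    rcases hc with hc | ⟨rfl, ⟨h28, h26⟩ | ⟨h15, s, rfl⟩⟩
    · exact (hA n k (by omega) hk).2 (Or.inl hc) (by omega)
    · rcases h26 with h2 | h6
      · exact (hA n k (by omega) hk).2 (Or.inr ⟨rfl, h2, h28⟩) (by omega)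
      · have h := hLOU n k (by omega) h28 (by omega)
        rw [hNN, Asm3_one (n / 2) (by omega)] at h
        rw [EV_odd (by omega)]
        exact h
    · have h := hLOT s k (by omega) h15 (by omega)
      rw [EV_even (by omega)]
      have e0 : 18 * s / 2 = 9 * s := by omega
      have e1 : TTm 2 (9 * s) = (6 * s + 4) ^ 3 := by
        unfold TTm
        have e3 : (9 * s + 3 * 2) / 3 = 3 * s + 2 := by omega
        have e4 : (9 * s + 3 * 2 + 1) / 3 = 3 * s + 2 := by omega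
        have e5 : (9 * s + 3 * 2 + 2) / 3 = 3 * s + 2 := by omega
        rw [e3, e4, e5]
        ring
      rw [e0, e1, show 2 * (9 * s) = 18 * s by ring]
      exact h
  · rintro rfl h2 h14
    have h := hBLT n k (by omega) (Nat.even_iff.2 h2) hk h14
    rw [EV_even h2]
    exact h

end Pool.Agent.Work.MP_1ce445_fx
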