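import Pool.Agent.Work.MP_1ce445_fx.InterfaceL

namespace Pool.Agent.Work.MP_1ce445_fx

open Finset Pool.Agent.Work.MP_1ce445_co_56 Pool.Agent.Work.MP_1ce445_lin

/-- `none` is a clone of `z` -/
def CLN_f {n : ℕ} (z : Fin n) (o : Option (Fin n)) : Fin n := o.getD z

/-- the graph with the clone -/
def CLN_G {n k : ℕ} (G : Fin k → SimpleGraph (Fin n)) (z : Fin n) (c0 : Fin k) (i : Fin k) :
    SimpleGraph (Option (Fin n)) where
  Adj a b := (G i).Adj (CLN_f z a) (CLN_f z b) ∨ (a ≠ b ∧ CLN_f z a = CLN_f z b ∧ i = c0)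
  symm := ⟨by
    rintro a b (h | ⟨h1, h2, h3⟩)
    · exact Or.inl h.symm
    · exact Or.inr ⟨h1.symm, h2.symm, h3⟩⟩
  loopless := ⟨by
    rintro a (h | ⟨h1, _, _⟩)
    · exact (G i).loopless.irrefl _ h
    · exact h1 rfl⟩

lemma CLN_fac {n k : ℕ} {G : Fin k → SimpleGraph (Fin n)} (hG : IsFactorization G) (z : Fin n)
    (c0 : Fin k) : IsFactorization (CLN_G G z c0) := by
  refine IsFactorization.of_adj ?_ ?_ ?_
  · rintro i j a b (h1 | ⟨_, h1, h1'⟩) (h2 | ⟨_, h2, h2'⟩)
    · exact hG.unique h1 h2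
    · rw [h2] at h1
      exact absurd h1 ((G i).loopless.irrefl _)
    · rw [h1] at h2
      exact absurd h2 ((G j).loopless.irrefl _)
    · rw [h1', h2']
  · intro a b hab
    by_cases h : CLN_f z a = CLN_f z b
    · exact ⟨c0, Or.inr ⟨hab, h, rfl⟩⟩
    · obtain ⟨i, hi⟩ := hG.cover _ _ h
      exact ⟨i, Or.inl hi⟩
  · intro i a
    obtain ⟨w, hw⟩ := hG.minDeg i (CLN_f z a)
    exact ⟨some w, Or.inl hw⟩

lemma CLN_gam {n k : ℕ} {G : Fin k → SimpleGraph (Fin n)} (hG : IsFactorization G) (z : Fin n)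
    (c0 : Fin k) (i : Fin k) : gammaT (G i) ≤ gammaT (CLN_G G z c0 i) := by
  classical
  obtain ⟨S, hS, hc⟩ := exists_tds ((CLN_fac hG z c0).minDeg i)
  rw [← hc]
  have h1 : ∀ v : Fin n, v ≠ z → ∃ w ∈ S.image (CLN_f z), (G i).Adj v w := by
    intro v hv
    obtain ⟨b, hb, hab⟩ := hS (some v)
    rcases hab with h | ⟨h1, h2, _⟩
    · exact ⟨_, mem_image_of_mem _ hb, h⟩
    · exfalso
      cases b with
      | none => exact hv h2
      | some w =>
        apply h1
        have : v = w := h2
        rw [this]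
  by_cases h2 : ∃ w ∈ S.image (CLN_f z), (G i).Adj z w
  · have h3 : IsTDS (G i) (S.image (CLN_f z)) := by
      intro v
      by_cases hv : v = z
      · rw [hv]; exact h2
      · exact h1 v hv
    exact (gammaT_le_card h3).trans card_image_le
  · have h4 : (none : Option (Fin n)) ∈ S := by
      obtain ⟨b, hb, hab⟩ := hS (some z)
      rcases hab with h | ⟨h1, h2', _⟩
      · exact absurd ⟨_, mem_image_of_mem _ hb, h⟩ h2
      · cases b with
        | none => exact hb
        | some w =>
          exfalso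
          apply h1
          have : z = w := h2'
          rw [this]
    have h5 : some z ∈ S := by
      obtain ⟨b, hb, hab⟩ := hS none
      rcases hab with h | ⟨h1, h2', _⟩
      · exact absurd ⟨_, mem_image_of_mem _ hb, h⟩ h2
      · cases b with
        | none => exact absurd rfl h1
        | some w =>
          have : z = w := h2'
          rw [this]; exact hb
    obtain ⟨w, hw⟩ := hG.minDeg i z
    have h6 : IsTDS (G i) (insert w ((S.erase none).image (CLN_f z))) := by
      intro v
      by_cases hv : v = z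
      · rw [hv]; exact ⟨w, mem_insert_self _ _, hw⟩
      · obtain ⟨u, hu, huv⟩ := h1 v hv
        refine ⟨u, mem_insert_of_mem ?_, huv⟩
        obtain ⟨b, hb, rfl⟩ := mem_image.1 hu
        by_cases hbn : b = none
        · refine mem_image.2 ⟨some z, mem_erase.2 ⟨by simp, h5⟩, ?_⟩
          rw [hbn]; rfl
        · exact mem_image_of_mem _ (mem_erase.2 ⟨hbn, hb⟩)
    refine (gammaT_le_card h6).trans ?_
    have h7 : ((S.erase none).image (CLN_f z)).card ≤ (S.erase none).card := card_image_le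
    have h8 : (S.erase none).card + 1 = S.card := card_erase_add_one h4
    have h9 := card_insert_le w ((S.erase none).image (CLN_f z))
    omega

theorem stmt_CLN : Stmt_CLN := by
  intro n k hn hk
  rcases P_attained n k with h0 | ⟨G, hG, hP⟩
  · rw [h0]; exact Nat.zero_le _
  · rw [hP]
    refine le_trans (Finset.prod_le_prod' fun i _ => CLN_gam hG ⟨0, hn⟩ ⟨0, hk⟩ i) ?_
    exact le_P (by simp) (by simp) (CLN_fac hG ⟨0, hn⟩ ⟨0, hk⟩)

end Pool.Agent.Work.MP_1ce445_fx
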