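import Pool.Agent.Work.MP_1ce445_fx.Interface

/-!
THEOREM FixedK for MP_1ce445_co: the lower bound. Same rules as in `Interface.lean` (import this file).
-/

namespace Pool.Agent.Work.MP_1ce445_fx

open Finset Pool.Agent.Work.MP_1ce445_co_56 Pool.Agent.Work.MP_1ce445_lin

/-- A layout of `ZMod q`: every position has a class in `Fin 3` and a part in `Fin 30`. -/
structure Lay (q : ℕ) [NeZero q] (c : ZMod q → Fin 3) (p : ZMod q → Fin 30) : Prop where
  win : ∀ (y : ZMod q) (j : Fin 3) (m : Fin 30), m.val < 8 →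
    ∃ d : ℕ, 1 ≤ d ∧ d ≤ 25 ∧ c (y + (d : ZMod q)) = j ∧ p (y + (d : ZMod q)) = m
  all : ∀ (j : Fin 3) (m : Fin 30), ∃ x, c x = j ∧ p x = m
  cnt : ∀ j : Fin 3, (univ.filter (fun x => c x = j)).card = (q + 2 - j.val) / 3

/-- LAY (150 lines). `a = (q - 66)/24`, `b = q - 24 a` (`66 ≤ b < 90`, `b ≤ a` for large `q`), `q = 24 a + b`. For
`x = y.val < q`: if `x < 25 b` and `o = x % 25 < 24`: class `o % 3`, part `o / 3`; if `x < 25 b` and `x % 25 = 24`, with
`u = x / 25`: class `u % 3`, part `8 + (u / 3) % 22`; if `x ≥ 25 b` (`q - 25 b = 24 (a - b)`), with `o = (x - 25 b) % 24`: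
class `o % 3`, part `o / 3`. `win`: the first position of type `o = 3 m + j` after `y`: between two (cyclically) consecutive
positions of type `o` the distance is 24 or 25. `all`: for `m ≥ 8` take `u = 3 (m - 8) + j < 66 ≤ b`. `cnt`: the class `j`
has `8 a + #{u < b : u % 3 = j}` elements (`Nat.count`, or `Nat.count_modEq_card`, or induction). -/
def Stmt_LAY : Prop :=
  ∃ q0 : ℕ, ∀ (q : ℕ) [NeZero q], q0 ≤ q →
    ∃ (c : ZMod q → Fin 3) (p : ZMod q → Fin 30), Lay q c p

/-- MAT: a symmetric 0/1 matrix such that any three rows have a common 1 and a common 0, and any two rows have a common 1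
and a common 0 in one of the first eight columns. -/
structure Mat (B : Fin 30 → Fin 30 → Bool) : Prop where
  sym : ∀ a b, B a b = B b a
  two : ∀ (a b : Fin 30) (s : Bool), ∃ m : Fin 30, m.val < 8 ∧ B a m = s ∧ B b m = s
  tri : ∀ (a b c : Fin 30) (s : Bool), ∃ m, B a m = s ∧ B b m = s ∧ B c m = s

/-- MAT (helper66). -/
def Stmt_MAT : Prop := ∃ B, Mat B

/-- class rule: the colour of a pair of positions -/
def crule {q : ℕ} (c : ZMod q → Fin 3) (p : ZMod q → Fin 30) (B : Fin 30 → Fin 30 → Bool)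
    (x y : ZMod q) : Fin 3 :=
  if c x = c y then (if B (p x) (p y) then c x + 1 else c x + 2) else -(c x + c y)

/-- the colour of the pair `(x, false), (y, true)` -/
def cross {q : ℕ} (c : ZMod q → Fin 3) (p : ZMod q → Fin 30) (B : Fin 30 → Fin 30 → Bool) (k : ℕ)
    (x y : ZMod q) : ℕ :=
  if x = y then (c x).val else if (y - x).val + 3 ≤ k then (y - x).val + 2 else
    (crule c p B x y).val

/-- the colour of a pair of vertices of `ZMod q × Bool` -/
def vcol {q : ℕ} (c : ZMod q → Fin 3) (p : ZMod q → Fin 30) (B : Fin 30 → Fin 30 → Bool) (k : ℕ)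
    (u v : ZMod q × Bool) : ℕ :=
  if u.2 = v.2 then (crule c p B u.1 v.1).val
  else if u.2 = false then cross c p B k u.1 v.1 else cross c p B k v.1 u.1

/-- the factors -/
def GG {q : ℕ} (c : ZMod q → Fin 3) (p : ZMod q → Fin 30) (B : Fin 30 → Fin 30 → Bool) (k : ℕ)
    (i : Fin k) : SimpleGraph (ZMod q × Bool) :=
  SimpleGraph.fromRel (fun u v => vcol c p B k u v = i.val)

/-- CN1 (100 lines). `vcol` is symmetric (`crule` is, by `Mat.sym`), `vcol < k` for all pairs: `of_adj`. `minDeg`: colour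
`i ≥ 3`: `(x, false)` and `(x + (i - 2), true)` (`1 ≤ i - 2 ≤ k - 3 < q`, so the `val` of the difference is `i - 2`); colour
`i < 3`, vertex `(x, b)`: if `c x = i` then `(x, !b)`; otherwise `(y, b)` with `c y = -(i + c x)` (`Lay.all`), `y ≠ x`. -/
def Stmt_CN1 : Prop :=
  ∀ (q k : ℕ) [NeZero q] (c : ZMod q → Fin 3) (p : ZMod q → Fin 30)
    (B : Fin 30 → Fin 30 → Bool), Lay q c p → Mat B → 28 ≤ k → k ≤ q →
    IsFactorization (GG c p B k)

/-- CN2 (50 lines; uses CN1). `card_le_gammaT`, `α = ZMod q × Bool`, `f = id`, `g (x, false) = (x + (i - 2), true)`,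
`g (x, true) = (x - (i - 2), false)`: in a colour `i ≥ 3` every vertex has only one neighbour. -/
def Stmt_CN2 : Prop :=
  ∀ (q k : ℕ) [NeZero q] (c : ZMod q → Fin 3) (p : ZMod q → Fin 30)
    (B : Fin 30 → Fin 30 → Bool), Lay q c p → Mat B → 28 ≤ k → k ≤ q →
    ∀ i : Fin k, 3 ≤ i.val → 2 * q ≤ gammaT (GG c p B k i)

/-- CN3 (180 lines; uses CN1). `S` a total dominating set of the colour `i < 3`, `X_i = {(x, b) | c x = i}`. (1) The only
neighbour of `(x, !b)`, `c x = i`, is `(x, b)`: so `X_i ⊆ S` (`crule x y ≠ c x`; `x = y` in `cross` gives the colour `c x`).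
(2) A vertex `v` of class `j ≠ i` has no neighbour in `X_i` (`crule = -(j + i)` is the third class `l`), no neighbour
`(y, b')` with `c y = j` and `B (p x) (p y) = s`, where `s = true` if `i = j + 2`, `s = false` if `i = j + 1` (`cross` with
`x = y` gives the colour `j`), and no neighbour in the other half with `1 ≤ (difference).val ≤ k - 3` (colour `≥ 3`).
(3) Suppose `T = S \ X_i` has at most 3 elements. For `j = i + 1` or `j = i + 2` the other class `l` has at most one element
of `T`. None: take `m` for the (at most three) parts of the elements of `T` of class `j` (`Mat.tri`, `s`), `x` with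
`c x = j`, `p x = m` (`Lay.all`): `(x, false)` has no neighbour in `S`. One, `t₀ = (y₀, b₀)`: at most two elements of `T` have
class `j`, `Mat.two` gives `m < 8`; `Lay.win` with `y = y₀` (if `b₀ = false`) gives `x = y₀ + d`, `v = (x, true)`; with
`y = y₀ - 26` (if `b₀ = true`) it gives `x = y₀ - 26 + d`, `y₀ - x = 26 - d`, `v = (x, false)`; `1 ≤ d ≤ 25 ≤ k - 3`: `v` has no
neighbour in `S`. -/
def Stmt_CN3 : Prop :=
  ∀ (q k : ℕ) [NeZero q] (c : ZMod q → Fin 3) (p : ZMod q → Fin 30)
    (B : Fin 30 → Fin 30 → Bool), Lay q c p → Mat B → 28 ≤ k → k ≤ q →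
    ∀ (i : Fin k) (j : Fin 3), i.val = j.val →
      2 * (univ.filter (fun x => c x = j)).card + 4 ≤ gammaT (GG c p B k i)

/-- CON (60 lines; uses CN1 CN2 CN3): `le_P` with `ZMod q × Bool` (`2 q` elements); the product over `Fin k` of the first
three (`Lay.cnt`: `(q+2)/3, (q+1)/3, q/3`, so `2 (·) + 4 = 2 ((q + 8)/3)`, etc.) and of the `k - 3` others. -/
def Stmt_CON : Prop :=
  ∀ (q k : ℕ) [NeZero q] (c : ZMod q → Fin 3) (p : ZMod q → Fin 30)
    (B : Fin 30 → Fin 30 → Bool), Lay q c p → Mat B → 28 ≤ k → k ≤ q →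
    (2 * q) ^ (k - 3) * TT q ≤ P (2 * q) k

/-- CLN (100 lines). If there is no factorization then `P n k = 0`. Otherwise take an optimal `G` (`P_attained`), `z : Fin n`,
a colour `c0 : Fin k`, and `V = Option (Fin n)`: `none` is a clone of `z`, i.e. `none` and `some v` (`v ≠ z`) are adjacent
in the colour of `z, v`, and `none`, `some z` in the colour `c0`. Every total dominating set `S` of the new graph of colour `i`
gives one of `G i` with at most `|S|` elements: replace `none` by `z`; if both `none` and `some z` are in `S`, add a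
neighbour of `z`; if `none ∈ S`, `some z ∉ S`: a neighbour `some w ∈ S` of `none` has `w ≠ z` and is adjacent to `z`. -/
def Stmt_CLN : Prop := ∀ n k : ℕ, 1 ≤ n → 1 ≤ k → P n k ≤ P (n + 1) k

end Pool.Agent.Work.MP_1ce445_fx
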