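import Pool.Agent.Work.MP_1ce445_fx.Interface

/-! # Block ADD: the bound for the sum of the three special total domination numbers -/

namespace Pool.Agent.Work.MP_1ce445_fx

open Finset Pool.Agent.Work.MP_1ce445_co_56 Pool.Agent.Work.MP_1ce445_lin

lemma ADD_dg_le {n : ℕ} (H : SimpleGraph (Fin n)) (Y : Finset (Fin n)) (v : Fin n) :
    dg H Y v ≤ dg H univ v := by
  classical
  unfold dg
  apply Finset.card_le_card
  apply Finset.filter_subset_filter
  exact Finset.subset_univ _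

lemma ADD_A {n k : ℕ} (G : Fin k → SimpleGraph (Fin n)) (e : Fin 3 → Fin k) (θ : ℝ)
    (hS : Sit G e θ) (i j : Fin 3) (y : Fin n) (hy : y ∈ low (G (e i)) θ) :
    1 - 5 * θ ≤ A G e θ i j y := by
  unfold A nf
  have hn : (0 : ℝ) < n := by exact_mod_cast hS.pos
  have h1 : (dg (G (e i)) univ y : ℝ) < θ * n := by
    unfold low at hy
    exact (Finset.mem_filter.mp hy).2
  have h2 : (dg (G (e i)) (low (G (e j)) θ) y : ℝ) ≤ dg (G (e i)) univ y := by
    exact_mod_cast ADD_dg_le _ _ _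
  have h3 := hS.big j
  have h4 : 0 < ((low (G (e j)) θ).card : ℝ) := by linarith
  have h5 : (dg (G (e i)) (low (G (e j)) θ) y : ℝ) / ((low (G (e j)) θ).card : ℝ) ≤ 5 * θ := by
    rw [div_le_iff₀ h4]
    have h6 := mul_le_mul_of_nonneg_left h3 (show 0 ≤ 5 * θ by linarith [hS.th])
    nlinarith
  linarith

lemma ADD_pow (x a b : ℝ) (h1 : x ≤ 1 / 2) (ha : 1 - x ≤ a) (hb : 1 - x ≤ b) :
    1 - 4 * x ≤ (a * b) ^ 2 := by
  have h2 : 0 ≤ 1 - x := by linarith
  have h3 : (1 - x) * (1 - x) ≤ a * b := mul_le_mul ha hb h2 (by linarith)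
  have h4 : 0 ≤ 1 - 2 * x := by linarith
  have h5 : 1 - 2 * x ≤ a * b := by nlinarith [sq_nonneg x]
  have h6 : (1 - 2 * x) ^ 2 ≤ (a * b) ^ 2 := pow_le_pow_left₀ h4 h5 2
  nlinarith [sq_nonneg x]

/-- Block ADD. -/
theorem stmt_ADD (h1 : Stmt_SUM) (h2 : Stmt_TSQ) : Stmt_ADD := by
  classical
  intro n k G e θ hS
  obtain ⟨s1, s2, s3⟩ := h1 n k G e θ hS
  obtain ⟨t1, t2⟩ := h2 n k G e θ hS
  have hθ := hS.th
  have hθ' := hS.th'
  have htot : ∑ v, ∑ i, al G e θ i v ≤ n + ∑ v, ∑ i, ta G e θ i v ^ 2 := by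
    have h : ∑ v, ∑ i, al G e θ i v ≤ ∑ v : Fin n, (1 + ∑ i, ta G e θ i v ^ 2) :=
      Finset.sum_le_sum fun v _ => s1 v
    rw [Finset.sum_add_distrib, Finset.sum_const, Finset.card_univ, Fintype.card_fin, nsmul_eq_mul,
      mul_one] at h
    exact h
  by_cases hc : ∃ i v, 2 ≤ dg (G (e i)) (low (G (e i)) θ) v
  · have key : sg G e ≤ n + 23 / 2 + RR n k θ (sl G e) := by
      obtain ⟨i1, v1, hv1⟩ := hc
      obtain ⟨⟨i0, z⟩, _, hmax⟩ := Finset.exists_max_image (univ : Finset (Fin 3 × Fin n))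
        (fun q => dg (G (e q.1)) (low (G (e q.1)) θ) q.2) ⟨(i1, v1), Finset.mem_univ _⟩
      set Δ : ℕ := dg (G (e i0)) (low (G (e i0)) θ) z with hΔ
      have hall : ∀ i v, dg (G (e i)) (low (G (e i)) θ) v ≤ Δ := fun i v =>
        hmax (i, v) (Finset.mem_univ _)
      have hΔ2 : 2 ≤ Δ := hv1.trans (hall i1 v1)
      have hΔ2' : (2 : ℝ) ≤ Δ := by exact_mod_cast hΔ2
      have h4 := t2 Δ hall
      have h5 := s3 i0 z
      have h6 : (Δ : ℝ) * (1 - 20 * θ) ≤ ∑ v ∈ nb (G (e i0)) z, al G e θ i0 v := by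
        have hsub : (low (G (e i0)) θ).filter (fun w => (G (e i0)).Adj z w) ⊆
            nb (G (e i0)) z := by
          intro w hw
          unfold nb
          rw [Finset.mem_filter] at hw ⊢
          exact ⟨Finset.mem_univ _, hw.2⟩
        have h7 : ∑ v ∈ (low (G (e i0)) θ).filter (fun w => (G (e i0)).Adj z w), al G e θ i0 v ≤
            ∑ v ∈ nb (G (e i0)) z, al G e θ i0 v := by
          apply Finset.sum_le_sum_of_subset_of_nonneg hsub
          intro v _ _
          unfold al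
          positivity
        refine le_trans ?_ h7
        have h8 : ∀ v ∈ (low (G (e i0)) θ).filter (fun w => (G (e i0)).Adj z w),
            1 - 20 * θ ≤ al G e θ i0 v := by
          intro v hv
          have hv1 := (Finset.mem_filter.mp hv).1
          have := ADD_pow (5 * θ) _ _ (by linarith) (ADD_A G e θ hS i0 (i0 + 1) v hv1)
            (ADD_A G e θ hS i0 (i0 + 2) v hv1)
          unfold al
          linarith
        have h9 := Finset.card_nsmul_le_sum _ _ _ h8
        rw [nsmul_eq_mul] at h9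
        have h10 : ((low (G (e i0)) θ).filter (fun w => (G (e i0)).Adj z w)).card = Δ := by
          rw [hΔ]
          unfold dg
          congr
        rw [h10] at h9
        exact h9
      have h11 : (3 : ℝ) / 2 ≤ Δ * (1 - 245 * θ) := by nlinarith
      nlinarith
    exact ⟨by linarith, fun _ => key⟩
  · refine ⟨?_, fun h => absurd h hc⟩
    push Not at hc
    have h4 := t1 (fun i v => Nat.lt_succ_iff.mp (hc i v))
    have h5 : sg G e ≤ ∑ i : Fin 3, (4 + ∑ v, al G e θ i v) :=
      Finset.sum_le_sum fun i _ => s2 i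
    rw [Finset.sum_add_distrib, Finset.sum_const, Finset.card_univ, Fintype.card_fin, nsmul_eq_mul,
      Finset.sum_comm] at h5
    push_cast at h5
    linarith

end Pool.Agent.Work.MP_1ce445_fx
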