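import Pool.Agent.Work.MP_1ce445_fx.InterfaceM
import Pool.Agent.Work.MP_1ce445_fx.ADD

/-! # Block ADM: the bound for the sum of the three special total domination numbers, with `m`
random vertices in each set -/

namespace Pool.Agent.Work.MP_1ce445_fx

open Finset Pool.Agent.Work.MP_1ce445_co_56 Pool.Agent.Work.MP_1ce445_lin

lemma ADM_nf {n : ℕ} (H : SimpleGraph (Fin n)) (Y : Finset (Fin n)) (v : Fin n) :
    0 ≤ nf H Y v := by
  classical
  unfold nf
  have h1 : (dg H Y v : ℝ) ≤ Y.card := by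
    have : dg H Y v ≤ Y.card := by
      unfold dg
      exact Finset.card_le_card (Finset.filter_subset _ _)
    exact_mod_cast this
  have h2 : (dg H Y v : ℝ) / Y.card ≤ 1 := div_le_one_of_le₀ h1 (by positivity)
  linarith

lemma ADM_am {n k : ℕ} (G : Fin k → SimpleGraph (Fin n)) (e : Fin 3 → Fin k) (θ : ℝ) (m : ℕ)
    (i : Fin 3) (v : Fin n) : 0 ≤ am G e θ m i v := by
  unfold am A
  exact pow_nonneg (mul_nonneg (ADM_nf _ _ _) (ADM_nf _ _ _)) m

lemma ADM_pow (m : ℕ) (x a b : ℝ) (h0 : 0 ≤ x) (h1 : x ≤ 1 / 2) (ha : 1 - x ≤ a)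
    (hb : 1 - x ≤ b) : 1 - 2 * m * x ≤ (a * b) ^ m := by
  have h2 : 0 ≤ 1 - x := by linarith
  have h3 : (1 - x) * (1 - x) ≤ a * b := mul_le_mul ha hb h2 (by linarith)
  have h4 : 0 ≤ 1 - 2 * x := by linarith
  have h5 : 1 - 2 * x ≤ a * b := by nlinarith [sq_nonneg x]
  have h6 : (1 - 2 * x) ^ m ≤ (a * b) ^ m := pow_le_pow_left₀ h4 h5 m
  have h7 := one_add_mul_le_pow (show (-2 : ℝ) ≤ -(2 * x) by linarith) m
  have h8 : (1 : ℝ) + -(2 * x) = 1 - 2 * x := by ring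
  rw [h8] at h7
  nlinarith

/-- Block ADM. -/
theorem stmt_ADM (h1 : Stmt_SMM) (h2 : Stmt_TSM) : Stmt_ADM := by
  classical
  intro m n k G e θ hm hθm hU
  have hS := hU.sit
  obtain ⟨s1, s2, s3⟩ := h1 m n k G e θ (by omega) hS
  obtain ⟨t1, t2⟩ := h2 m n k G e θ hm hU
  have hθ := hS.th
  have hθ' := hS.th'
  have htot : ∑ v, ∑ i, am G e θ m i v ≤ n + ∑ v, ∑ i, ta G e θ i v ^ m := by
    have h : ∑ v, ∑ i, am G e θ m i v ≤ ∑ v : Fin n, (1 + ∑ i, ta G e θ i v ^ m) :=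
      Finset.sum_le_sum fun v _ => s1 v
    rw [Finset.sum_add_distrib, Finset.sum_const, Finset.card_univ, Fintype.card_fin, nsmul_eq_mul,
      mul_one] at h
    exact h
  by_cases hc : ∃ i v, 2 ≤ dg (G (e i)) (low (G (e i)) θ) v
  · obtain ⟨i1, v1, hv1⟩ := hc
    obtain ⟨⟨i0, z⟩, _, hmax⟩ := Finset.exists_max_image (univ : Finset (Fin 3 × Fin n))
      (fun q => dg (G (e q.1)) (low (G (e q.1)) θ) q.2) ⟨(i1, v1), Finset.mem_univ _⟩
    set Δ : ℕ := dg (G (e i0)) (low (G (e i0)) θ) z with hΔ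
    have hall : ∀ i v, dg (G (e i)) (low (G (e i)) θ) v ≤ Δ := fun i v =>
      hmax (i, v) (Finset.mem_univ _)
    have hΔ2 : 2 ≤ Δ := hv1.trans (hall i1 v1)
    have hΔ2' : (2 : ℝ) ≤ Δ := by exact_mod_cast hΔ2
    have h4 := t2 Δ hall
    have h5 := s3 i0 z
    have h6 : (Δ : ℝ) * (1 - 2 * m * (5 * θ)) ≤ ∑ v ∈ nb (G (e i0)) z, am G e θ m i0 v := by
      have hsub : (low (G (e i0)) θ).filter (fun w => (G (e i0)).Adj z w) ⊆
          nb (G (e i0)) z := by
        intro w hw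
        unfold nb
        rw [Finset.mem_filter] at hw ⊢
        exact ⟨Finset.mem_univ _, hw.2⟩
      have h7 : ∑ v ∈ (low (G (e i0)) θ).filter (fun w => (G (e i0)).Adj z w), am G e θ m i0 v ≤
          ∑ v ∈ nb (G (e i0)) z, am G e θ m i0 v := by
        apply Finset.sum_le_sum_of_subset_of_nonneg hsub
        intro v _ _
        exact ADM_am G e θ m i0 v
      refine le_trans ?_ h7
      have h8 : ∀ v ∈ (low (G (e i0)) θ).filter (fun w => (G (e i0)).Adj z w),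
          1 - 2 * m * (5 * θ) ≤ am G e θ m i0 v := by
        intro v hv
        have hv1 := (Finset.mem_filter.mp hv).1
        exact ADM_pow m (5 * θ) _ _ (by linarith) (by linarith)
          (ADD_A G e θ hS i0 (i0 + 1) v hv1) (ADD_A G e θ hS i0 (i0 + 2) v hv1)
      have h9 := Finset.card_nsmul_le_sum _ _ _ h8
      rw [nsmul_eq_mul] at h9
      have h10 : ((low (G (e i0)) θ).filter (fun w => (G (e i0)).Adj z w)).card = Δ := by
        rw [hΔ]
        unfold dg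
        congr
      rw [h10] at h9
      exact h9
    have hm15 : (m : ℝ) ≤ 15 ^ m := by
      have : m < 15 ^ m := Nat.lt_pow_self (by norm_num)
      have h : ((m : ℕ) : ℝ) ≤ ((15 ^ m : ℕ) : ℝ) := by exact_mod_cast this.le
      push_cast at h
      exact h
    have hb1 : (m : ℝ) * θ ≤ 15 ^ m * θ := mul_le_mul_of_nonneg_right hm15 hθ.le
    have h11 : 3 * 15 ^ m * θ + 10 * (m * θ) ≤ 1 / 2 := by nlinarith
    have h12 : (Δ : ℝ) * (3 * 15 ^ m * θ + 10 * (m * θ)) ≤ Δ * (1 / 2) :=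
      mul_le_mul_of_nonneg_left h11 (by linarith)
    have h13 : 3 * 15 ^ m * θ * Δ - (Δ : ℝ) * (1 - 2 * m * (5 * θ)) =
        (Δ : ℝ) * (3 * 15 ^ m * θ + 10 * (m * θ)) - Δ := by ring
    linarith
  · push Not at hc
    have h4 := t1 (fun i v => Nat.lt_succ_iff.mp (hc i v))
    linarith

end Pool.Agent.Work.MP_1ce445_fx
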