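import Pool.Agent.Work.MP_1ce445_fx.InterfaceU
import Pool.Agent.Work.MP_1ce445_fx.ADD

/-! # Block ADU: the bound for the sum of the three special total domination numbers, uniform -/

namespace Pool.Agent.Work.MP_1ce445_fx

open Finset Pool.Agent.Work.MP_1ce445_co_56 Pool.Agent.Work.MP_1ce445_lin

/-- Block ADU. -/
theorem stmt_ADU (h1 : Stmt_SUM) (h2 : Stmt_TSU) : Stmt_ADU := by
  classical
  intro n k G e θ hU
  have hS := hU.sit
  obtain ⟨s1, s2, s3⟩ := h1 n k G e θ hS
  obtain ⟨t1, t2⟩ := h2 n k G e θ hU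
  have hθ := hS.th
  have hθ' := hS.th'
  have htot : ∑ v, ∑ i, al G e θ i v ≤ n + ∑ v, ∑ i, ta G e θ i v ^ 2 := by
    have h : ∑ v, ∑ i, al G e θ i v ≤ ∑ v : Fin n, (1 + ∑ i, ta G e θ i v ^ 2) :=
      Finset.sum_le_sum fun v _ => s1 v
    rw [Finset.sum_add_distrib, Finset.sum_const, Finset.card_univ, Fintype.card_fin, nsmul_eq_mul,
      mul_one] at h
    exact h
  by_cases hc : ∃ i v, 2 ≤ dg (G (e i)) (low (G (e i)) θ) v
  · have key : sg G e ≤ n + 23 / 2 + RU n k (sn G e) := by
      obtain ⟨i1, v1, hv1⟩ := hc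
      obtain ⟨⟨i0, z⟩, _, hmax⟩ := Finset.exists_max_image (univ : Finset (Fin 3 × Fin n))
        (fun q => dg (G (e q.1)) (low (G (e q.1)) θ) q.2) ⟨(i1, v1), Finset.mem_univ _⟩
      set Δ : ℕ := dg (G (e i0)) (low (G (e i0)) θ) z with hΔ
      have hall : ∀ i v, dg (G (e i)) (low (G (e i)) θ) v ≤ Δ := fun i v =>
        hmax (i, v) (Finset.mem_univ _)
      have hΔ2 : 2 ≤ Δ := hv1.trans (hall i1 v1)
      have hΔ2' : (2 : ℝ) ≤ Δ := by exact_mod_cast hΔ2
      have h4 := t2 Δ hall
      have h5 := s3 i0 z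
      have h6 : (Δ : ℝ) * (1 - 20 * θ) ≤ ∑ v ∈ nb (G (e i0)) z, al G e θ i0 v := by
        have hsub : (low (G (e i0)) θ).filter (fun w => (G (e i0)).Adj z w) ⊆
            nb (G (e i0)) z := by
          intro w hw
          unfold nb
          rw [Finset.mem_filter] at hw ⊢
          exact ⟨Finset.mem_univ _, hw.2⟩
        have h7 : ∑ v ∈ (low (G (e i0)) θ).filter (fun w => (G (e i0)).Adj z w), al G e θ i0 v ≤
            ∑ v ∈ nb (G (e i0)) z, al G e θ i0 v := by
          apply Finset.sum_le_sum_of_subset_of_nonneg hsub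
          intro v _ _
          unfold al
          positivity
        refine le_trans ?_ h7
        have h8 : ∀ v ∈ (low (G (e i0)) θ).filter (fun w => (G (e i0)).Adj z w),
            1 - 20 * θ ≤ al G e θ i0 v := by
          intro v hv
          have hv1 := (Finset.mem_filter.mp hv).1
          have := ADD_pow (5 * θ) _ _ (by linarith) (ADD_A G e θ hS i0 (i0 + 1) v hv1)
            (ADD_A G e θ hS i0 (i0 + 2) v hv1)
          unfold al
          linarith
        have h9 := Finset.card_nsmul_le_sum _ _ _ h8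
        rw [nsmul_eq_mul] at h9
        have h10 : ((low (G (e i0)) θ).filter (fun w => (G (e i0)).Adj z w)).card = Δ := by
          rw [hΔ]
          unfold dg
          congr
        rw [h10] at h9
        exact h9
      have h11 : (3 : ℝ) / 2 ≤ Δ * (1 - 245 * θ) := by nlinarith
      nlinarith
    exact ⟨by linarith, fun _ => key⟩
  · refine ⟨?_, fun h => absurd h hc⟩
    push Not at hc
    have h4 := t1 (fun i v => Nat.lt_succ_iff.mp (hc i v))
    have h5 : sg G e ≤ ∑ i : Fin 3, (4 + ∑ v, al G e θ i v) :=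
      Finset.sum_le_sum fun i _ => s2 i
    rw [Finset.sum_add_distrib, Finset.sum_const, Finset.card_univ, Fintype.card_fin, nsmul_eq_mul,
      Finset.sum_comm] at h5
    push_cast at h5
    linarith

end Pool.Agent.Work.MP_1ce445_fx
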