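import Pool.Agent.Work.MP_1ce445_fx.InterfaceT

/-!
Block AT15: equality for `18 ∣ n`, `15 ≤ k`, `k² ≤ δ n` (helper58).
-/

namespace Pool.Agent.Work.MP_1ce445_fx

open Finset Pool.Agent.Work.MP_1ce445_co_56 Pool.Agent.Work.MP_1ce445_lin

lemma AT15_TT (s : ℕ) : TTm 2 (9 * s) = (6 * s + 4) ^ 3 := by
  unfold TTm
  have h1 : (9 * s + 3 * 2) / 3 = 3 * s + 2 := by omega
  have h2 : (9 * s + 3 * 2 + 1) / 3 = 3 * s + 2 := by omega
  have h3 : (9 * s + 3 * 2 + 2) / 3 = 3 * s + 2 := by omega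
  rw [h1, h2, h3]
  ring

theorem stmt_AT15 : Stmt_UUQ → Stmt_LOT → Stmt_AT15 := by
  intro hU hL
  obtain ⟨δ, n0, hδ, hU⟩ := hU 2 le_rfl
  obtain ⟨s0, hL⟩ := hL
  refine ⟨δ, n0 + 18 * s0 + 18 * ⌈18 * δ⌉₊, hδ, ?_⟩
  intro n k hn h18 hk hkn
  obtain ⟨s, rfl⟩ := h18
  have hk3 : 3 ≤ k := by omega
  have h1 : (k : ℝ) ^ 2 ≤ δ * ((18 * s : ℕ) : ℝ) ^ (2 - 1) := by
    rw [show 2 - 1 = 1 from rfl, pow_one]
    exact hkn
  have h2 := (hU (18 * s) k (by omega) hk3 h1).1 ⟨9 * s, by ring⟩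
  have h3 : NN (18 * s) = 18 * s := by
    unfold NN
    omega
  have h4 : 18 * s / 2 = 9 * s := by omega
  have h5 : 18 * s / 3 = 6 * s := by omega
  rw [h3, h4, AT15_TT] at h2
  have hs : ⌈18 * δ⌉₊ ≤ s := by omega
  have hs' : 18 * δ ≤ (s : ℝ) := (Nat.le_ceil _).trans (by exact_mod_cast hs)
  have hks : k ≤ s := by
    by_contra hlt
    push Not at hlt
    have h6 : (s : ℝ) < (k : ℝ) := by exact_mod_cast hlt
    have h7 : (0 : ℝ) ≤ (s : ℝ) := Nat.cast_nonneg _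
    have h8 : (s : ℝ) ^ 2 < (k : ℝ) ^ 2 := by
      have := mul_self_lt_mul_self h7 h6
      rw [pow_two, pow_two]
      exact this
    have h9 : δ * ((18 * s : ℕ) : ℝ) ≤ (s : ℝ) ^ 2 := by
      push_cast
      have := mul_le_mul_of_nonneg_right hs' h7
      rw [pow_two]
      linarith
    linarith
  have h6 := hL s k (by omega) hk hks
  rw [h5]
  exact le_antisymm h2 h6

end Pool.Agent.Work.MP_1ce445_fx
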