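import Pool.Agent.Work.MP_1ce445_fx.Asm

/-!
`TTm m q` is the maximum of `a b c` over even `a, b, c` with sum `2 q + 6 m`; the final statement.
-/

namespace Pool.Agent.Work.MP_1ce445_fx

open Finset Pool.Agent.Work.MP_1ce445_co_56 Pool.Agent.Work.MP_1ce445_lin

theorem Asm_max (hNUN : Stmt_NUN) (m q : ℕ) :
    IsGreatest {p : ℕ | ∃ a b c : ℕ, Even a ∧ Even b ∧ Even c ∧ a + b + c = 2 * q + 6 * m ∧
      p = a * b * c} (TTm m q) := by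
  constructor
  · refine ⟨2 * ((q + 3 * m) / 3), 2 * ((q + 3 * m + 1) / 3), 2 * ((q + 3 * m + 2) / 3),
      even_two_mul _, even_two_mul _, even_two_mul _, by omega, ?_⟩
    unfold TTm
    ring
  · rintro p ⟨a, b, c, ha, hb, hc, hs, rfl⟩
    exact hNUN.1 m q a b c ha hb hc hs.le

/-- The final statement. -/
def Final : Prop :=
  (∀ m q : ℕ, IsGreatest {p : ℕ | ∃ a b c : ℕ, Even a ∧ Even b ∧ Even c ∧
      a + b + c = 2 * q + 6 * m ∧ p = a * b * c} (TTm m q)) ∧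
  (∀ m : ℕ, 2 ≤ m → ∃ (C δ : ℝ) (n0 : ℕ), 0 < δ ∧ ∀ n k : ℕ, n0 ≤ n → 3 ≤ k →
    ((k : ℝ) ^ m ≤ δ * (n : ℝ) ^ (m - 1) →
      27 * P n k ≤ (2 * (n / 2)) ^ (k - 3) * (n + 6 * m) ^ 3) ∧
    ((k : ℝ) ^ (2 * m - 1) ≤ δ * (n : ℝ) ^ (2 * m - 3) →
      27 * P n k ≤ (2 * (n / 2)) ^ (k - 3) * (2 * (n / 2) + 6 * m) ^ 3) ∧
    ((m = 2 ∧ 28 ≤ k ∨ C ≤ k ∧ C * (n : ℝ) ^ (m - 2) ≤ (k : ℝ) ^ (m - 1)) → 5 * k ≤ n →
      (2 * (n / 2)) ^ (k - 3) * TTm m (n / 2) ≤ P n k) ∧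
    ((m = 2 ∧ 28 ≤ k ∨ C ≤ k ∧ C * (n : ℝ) ^ (m - 2) ≤ (k : ℝ) ^ (m - 1)) →
      (k : ℝ) ^ m ≤ δ * (n : ℝ) ^ (m - 1) → n % 6 = 0 →
      P n k = n ^ (k - 3) * (n / 3 + 2 * m) ^ 3) ∧
    ((m = 2 ∧ 28 ≤ k ∨ C ≤ k ∧ C * (n : ℝ) ^ (m - 2) ≤ (k : ℝ) ^ (m - 1)) →
      (k : ℝ) ^ (2 * m - 1) ≤ δ * (n : ℝ) ^ (2 * m - 3) → (n % 2 = 0 ∨ n % 6 = 1) →
      P n k = (2 * (n / 2)) ^ (k - 3) * TTm m (n / 2)))

theorem Asm_final (hUUM : Stmt_UUM) (hUUN : Stmt_UUN) (hLOM : Stmt_LOM) (hNUN : Stmt_NUN)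
    (hLOU : Stmt_LOU) (hNUM : Stmt_NUM) : Final := by
  have hUU2 : Stmt_UU2 := Asm_UU2 hUUM
  have hUU3 : Stmt_UU3 := Asm_UU3 hUUN
  refine ⟨Asm_max hNUN, fun m hm => ?_⟩
  obtain ⟨C, δ, n0, hδ, h⟩ := Asm_stair hUUM hUUN hLOM hNUN m hm
  obtain ⟨δ', n0', hδ', h'⟩ := Asm_small hUU2 hUU3 hLOU hNUM
  refine ⟨C, min δ δ', n0 + n0', lt_min hδ hδ', fun n k hn hk => ?_⟩
  obtain ⟨a1, a2, a3, a4, a5⟩ := h n k (by omega) hk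
  obtain ⟨b1, b2, b3, b4, b5⟩ := h' n k (by omega) hk
  have hl : ∀ x : ℝ, 0 ≤ x → min δ δ' * x ≤ δ * x := fun x hx =>
    mul_le_mul_of_nonneg_right (min_le_left _ _) hx
  have hr : ∀ x : ℝ, 0 ≤ x → min δ δ' * x ≤ δ' * x := fun x hx =>
    mul_le_mul_of_nonneg_right (min_le_right _ _) hx
  have hTT : TTm 2 (n / 2) = TT (n / 2) := rfl
  refine ⟨fun g => a1 (g.trans (hl _ (by positivity))), fun g => a2 (g.trans (hl _ (by positivity))),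
    ?_, ?_, ?_⟩
  · rintro (⟨rfl, h28⟩ | ⟨hC, hC'⟩) h5
    · rw [hTT]
      exact b3 h28 (by omega)
    · exact a3 hC hC' h5
  · rintro (⟨rfl, h28⟩ | ⟨hC, hC'⟩) g h6
    · refine b4 h28 ?_ h6
      refine g.trans ((hr _ (by positivity)).trans (le_of_eq ?_))
      norm_num
    · exact a4 hC hC' (g.trans (hl _ (by positivity))) h6
  · rintro (⟨rfl, h28⟩ | ⟨hC, hC'⟩) g h6
    · rw [hTT]
      refine b5 h28 ?_ h6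
      have e : (2 * 2 - 1 : ℕ) = 3 := by norm_num
      have e' : (2 * 2 - 3 : ℕ) = 1 := by norm_num
      rw [e, e', pow_one] at g
      exact g.trans (hr _ (by positivity))
    · exact a5 hC hC' (g.trans (hl _ (by positivity))) h6

end Pool.Agent.Work.MP_1ce445_fx
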