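import Pool.Agent.Work.MP_1ce445_fx.InterfaceP

/-!
THEOREM STAIRCASE for MP_1ce445_co, fifth phase (helper94): all `n`, even and odd, and the full range
`C n^(m-2) ≤ k^(m-1)`, `k^m ≤ δ n^(m-1)`. `N = 2⌊n/2⌋`.
(I) UUQ: `P n k ≤ N^(k-3) TTm m (n/2)` for even `n`, `P n k ≤ N^(k-3) T3 (N + 6m)` for odd `n`, if `k^m ≤ δ n^(m-1)`;
(II) LOQ: `N^(k-3) T3 (N + 6m) ≤ P n k` for odd `n`. `T3 M = max {a b c : a + b + c = M}` (no parity condition).

Files `Pool/Agent/Work/MP_1ce445_fx/<ID>.lean`, `import Pool.Agent.Work.MP_1ce445_fx.InterfaceQ`, rules as before: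
`theorem stmt_<ID>` with the statements of the column `uses` as hypotheses in this order.
-/

namespace Pool.Agent.Work.MP_1ce445_fx

open Finset Pool.Agent.Work.MP_1ce445_co_56 Pool.Agent.Work.MP_1ce445_lin

/-- the maximum of `a b c`, `a + b + c = M` (equal to `NUN_T M` of `NUN.lean`, where its properties are proved:
`NUN_all`, `NUN_low`, `NUN_upp`, `NUN_three`) -/
def T3 (M : ℕ) : ℕ := M / 3 * ((M + 1) / 3) * ((M + 2) / 3)

/-! ### (I) Upper bound -/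

/-- Extremal situation with small parameters: `ExtM` with the weaker conditions `sm1`, `sml` in the place of `small`. -/
structure ExtQ {n k : ℕ} (m : ℕ) (G : Fin k → SimpleGraph (Fin n)) (e : Fin 3 → Fin k) (θ ε : ℝ) :
    Prop where
  m2 : 2 ≤ m
  sit : Sit G e θ
  ep : 0 < ε
  ep' : 1000 * 100 ^ m * ε ≤ 1
  one : ∀ i v, dg (G (e i)) (low (G (e i)) θ) v ≤ 1
  sum : (n : ℝ) + 6 * m ≤ sg G e
  tsm : ∑ v, ∑ i, ta G e θ i v ^ m ≤ ε
  tau : ∀ i v, ta G e θ i v ≤ (10 + 25 * k) / n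
  tau' : (10 + 25 * (k : ℝ)) / n ≤ ε
  sm1 : 2 ^ m * 16 * n * ((10 + 25 * (k : ℝ)) / n) ^ m ≤ 1
  sml : 2 * 4 ^ m * ε * n * ((10 + 25 * (k : ℝ)) / n) ^ (2 * m - 2) ≤ 1
  rst : ((univ.filter (fun v => ∀ i, v ∉ low (G (e i)) θ)).card : ℝ) ≤ θ / 2 * n
  sth : 40 * ε ≤ θ

/-- TYQ (uses CV2 TAU SMM): `TYM.lean` with `ExtQ` in the place of `ExtM`. -/
def Stmt_TYQ : Prop :=
  ∀ (m n k : ℕ) (G : Fin k → SimpleGraph (Fin n)) (e : Fin 3 → Fin k) (θ ε : ℝ),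
    ExtQ m G e θ ε → ∃ t : Fin n → Fin 3, IsTyp G e θ ε t

/-- XCQ (uses SPM TAU): `XCM.lean` with `ExtQ`. -/
def Stmt_XCQ : Prop :=
  ∀ (m n k : ℕ) (G : Fin k → SimpleGraph (Fin n)) (e : Fin 3 → Fin k) (θ ε : ℝ)
    (t : Fin n → Fin 3), ExtQ m G e θ ε → IsTyp G e θ ε t → ∀ i,
    gammaT (G (e i)) = (univ.filter (fun v => t v = i)).card + 2 * m ∧
    ∑ v ∈ univ.filter (fun v => t v ≠ i), am G e θ m i v ≤ 1 / 2

/-- DSQ (uses XCQ): `DSM.lean` with `ExtQ`. -/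
def Stmt_DSQ : Prop :=
  ∀ (m n k : ℕ) (G : Fin k → SimpleGraph (Fin n)) (e : Fin 3 → Fin k) (θ ε : ℝ)
    (t : Fin n → Fin 3), ExtQ m G e θ ε → IsTyp G e θ ε t → ∀ i v v' w, t v = i → t v' = i →
    (G (e i)).Adj v w → (G (e i)).Adj v' w → v = v'

/-- YXQ (uses TAU): `YXM.lean` with `ExtQ`. -/
def Stmt_YXQ : Prop :=
  ∀ (m n k : ℕ) (G : Fin k → SimpleGraph (Fin n)) (e : Fin 3 → Fin k) (θ ε : ℝ)
    (t : Fin n → Fin 3), ExtQ m G e θ ε → IsTyp G e θ ε t → ∀ u i,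
    (t u = i ↔ u ∈ low (G (e i)) θ)

open Classical in
/-- the vertices `u` of type `l` which are neighbours of `w` in the colour `e (t w)` -/
noncomputable def bad {n k : ℕ} (G : Fin k → SimpleGraph (Fin n)) (e : Fin 3 → Fin k)
    (t : Fin n → Fin 3) (l : Fin 3) (w : Fin n) : Finset (Fin n) :=
  univ.filter (fun u => t u = l ∧ (G (e (t w))).Adj w u)

/-- BAQ (200 lines; uses TAU XCQ YXQ), like `OUU.lean` / `OUM.lean`. Suppose `t v = i`, `t w = j ≠ i`, `v, w` adjacent in the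
colour `e i`; `l` the third index; `κ = (10 + 25 k)/n`. Take `w`, `m - 1` random vertices of `Y_j` and `m` random vertices of
`Y_l` (`Y_j = {t = j}` by YXQ). If all vertices outside `X_i` are dominated there is a total dominating set with at most
`2 m + |X_i| - 1` elements (`w` dominates `v`), impossible by XCQ. So the mean number of the undominated `u` with `t u ≠ i`
is at least 1. For `t u = j` it is at most `∑ (A i l u)^m ≤ 2^m (ε + (5 ε)^(m-1) 2 ε) ≤ 1/8`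
(`A i l u = 1 + τ_l(u) - A j l u`). For `t u = l` and `u` not adjacent to `w` in the colour `e i` it is at most
`∑ (A i j u)^(m-1) ≤ 2^(m-1) ∑ (τ_j(u)^(m-1) + δ(u)^(m-1))`, `δ(u) = 1 - A l j u`, `∑ δ ≤ 2 ε`, `2^(m-1) 2 ε ≤ 1/8`; the number
of these `u` is `A i l w * |Y_l|`, and `A i l w = 1 + τ_l(w) - A j l w`, ` (1 - A j l w) |Y_l| = |bad l w|`, so it is at most
`κ n + |bad l w|`. So `1 ≤ 1/4 + 2^(m-1) κ^m n + 2^(m-1) κ^(m-1) |bad l w|`, and `2^(m-1) κ^m n ≤ 1/32` by `sm1`. -/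
def Stmt_BAQ : Prop :=
  ∀ (m n k : ℕ) (G : Fin k → SimpleGraph (Fin n)) (e : Fin 3 → Fin k) (θ ε : ℝ)
    (t : Fin n → Fin 3), ExtQ m G e θ ε → IsTyp G e θ ε t → ∀ i l v w, t v = i → t w ≠ i →
    (G (e i)).Adj v w → l ≠ i → l ≠ t w →
    1 < 2 ^ m * ((10 + 25 * (k : ℝ)) / n) ^ (m - 1) * ((bad G e t l w).card : ℝ)

/-- OUQ (80 lines; uses TAU YXQ BAQ). Suppose `t v = i`, `v, w` adjacent in the colour `e i`, `j = t w ≠ i`, `l` the third
index, `a = 2^m κ^(m-1)`. By BAQ `1 < a |bad l w|`. Every `u ∈ bad l w` has `t u = l` and is adjacent to `w` in the colour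
`e j`, `t w = j ≠ l`: BAQ for `w, u` (types `j`, `l`, third index `i`): `1 < a |bad i u|`. So
`1 < a |bad l w| ≤ a ∑_{u ∈ bad l w} a |bad i u|`. For `t u = l` we have `|bad i u| = dg (G (e l)) Y_i u = (1 - A l i u) |Y_i|`
(YXQ) and `∑_{t u = l} (1 - A l i u) ≤ 2 ε` by `IsTyp` (all terms are nonnegative by TAU), so the sum is at most `2 ε n`, and
`1 < a² · 2 ε n ≤ 1` by `sml`, a contradiction. -/
def Stmt_OUQ : Prop :=
  ∀ (m n k : ℕ) (G : Fin k → SimpleGraph (Fin n)) (e : Fin 3 → Fin k) (θ ε : ℝ)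
    (t : Fin n → Fin 3), ExtQ m G e θ ε → IsTyp G e θ ε t → ∀ i v w, t v = i →
    (G (e i)).Adj v w → t w = i

/-- PAQ (uses TYQ XCQ DSQ OUQ): `PAM.lean` with `ExtQ`. -/
def Stmt_PAQ : Prop :=
  ∀ (m n k : ℕ) (G : Fin k → SimpleGraph (Fin n)) (e : Fin 3 → Fin k) (θ ε : ℝ),
    ExtQ m G e θ ε → Even n ∧ ∀ i, Even (gammaT (G (e i)))

/-- MXQ (uses TAU DG2 SMM TSM): `MXM.lean` with `ExtQ`. -/
def Stmt_MXQ : Prop :=
  ∀ (m n k : ℕ) (G : Fin k → SimpleGraph (Fin n)) (e : Fin 3 → Fin k) (θ ε : ℝ), 2 ≤ m →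
    100 * 15 ^ m * θ ≤ 1 → SitU G e θ →
    0 < ε → 1000 * 100 ^ m * ε ≤ 1 → RM m n k 3 ≤ ε → (10 + 25 * (k : ℝ)) / n ≤ ε →
    2 ^ m * 16 * n * ((10 + 25 * (k : ℝ)) / n) ^ m ≤ 1 →
    2 * 4 ^ m * ε * n * ((10 + 25 * (k : ℝ)) / n) ^ (2 * m - 2) ≤ 1 → 40 * ε ≤ θ →
    sn G e ≤ 3 → (n : ℝ) + 6 * m ≤ sg G e → ExtQ m G e θ ε

/-- PQ1 (100 lines), real numbers: the choice of the parameters. `κ = (10 + 25 k)/n ≤ 29 k/n`, `r = k^m/n^(m-1) ≤ δ`,
`RM m n k 3 ≤ C₁ r` (`6 · 15^m/n^(m-1) ≤ C r`, ` (k+3)^(m-1) (k+9) ≤ 2^(m+1) k^m`), `n κ^m ≤ 29^m r`, `κ^m ≤ 29^m δ/n`,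
`n (k/n)^(2m-2) ≤ n (k/n)^m ≤ δ` (`k ≤ n`, `2m-2 ≥ m`). `ε = RM m n k 3 + κ`: `ε n κ^(2m-2) ≤ C₁ δ 29^(2m-2) δ + (n κ^m) κ^(m-1)`. -/
def Stmt_PQ1 : Prop :=
  ∀ (m : ℕ) (θ : ℝ), 2 ≤ m → 0 < θ → ∃ (δ : ℝ) (n0 : ℕ), 0 < δ ∧ ∀ n k : ℕ, n0 ≤ n → 3 ≤ k →
    (k : ℝ) ^ m ≤ δ * (n : ℝ) ^ (m - 1) →
    (k : ℝ) ≤ θ * n ∧ ∃ ε : ℝ, 0 < ε ∧ 1000 * 100 ^ m * ε ≤ 1 ∧ RM m n k 3 ≤ ε ∧
      (10 + 25 * (k : ℝ)) / n ≤ ε ∧ 2 ^ m * 16 * n * ((10 + 25 * (k : ℝ)) / n) ^ m ≤ 1 ∧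
      2 * 4 ^ m * ε * n * ((10 + 25 * (k : ℝ)) / n) ^ (2 * m - 2) ≤ 1 ∧ 40 * ε ≤ θ

/-- UUQ (250 lines; uses STU ADM MXQ PAQ NUN PRM PQ1), like `UUN.lean` (`UU3.lean`), parameters from PQ1 and from UUM. Let `G`
be a factorization with product `≥ N^k/27` (otherwise nothing to prove), `σ = sn G e`. Even `n`: as in `UUN`. Odd `n`, `σ ≤ 3`:
`sg ≤ n + 6 m - 1 = N + 6 m` (else MXQ, PAQ: `n` even), all other `γ ≤ N`, `abc ≤ T3 (N + 6m)` (`NUN_all`). Odd `n`, `σ ≥ 4`: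
PRM with `r ≤ 1/10 + σ/100` (`c = 6m`): exponent `3 r/n - σ/N ≤ (.3 + .03 σ - σ)/n ≤ -3.58/n`,
` (n + 6m)³ ≤ (N + 6m)³ e^(3/N)`, `3/N - 3.58/n ≤ -1/(2n)` for large `n`, and ` (N + 6m)³ (1 - 1/(4n)) ≤ 27 T3 (N + 6m)` by
`NUN_low`. -/
def Stmt_UUQ : Prop :=
  ∀ m : ℕ, 2 ≤ m → ∃ (δ : ℝ) (n0 : ℕ), 0 < δ ∧ ∀ n k : ℕ, n0 ≤ n → 3 ≤ k →
    (k : ℝ) ^ m ≤ δ * (n : ℝ) ^ (m - 1) →
    (Even n → P n k ≤ NN n ^ (k - 3) * TTm m (n / 2)) ∧
    (Odd n → P n k ≤ NN n ^ (k - 3) * T3 (NN n + 6 * m))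

/-! ### (II) Lower bound for odd `n` -/

/-- strong form of `Good` -/
def GoodS (m q R : ℕ) (hR : 0 < R) (L : Finset (ZMod (2 * q - 1))) : Prop :=
  (0 : ZMod (2 * q - 1)) ∉ L ∧
  ∀ (T : Finset (Option (ZMod (2 * q - 1)))) (j : Fin 3) (x : Fin R), T.card ≤ m - 1 →
    ∃ v : ZMod (2 * q - 1), 1 ≤ v.val ∧ 8 * v.val ≤ q ∧ cls (some v) = j ∧
      prt R hR (some v) = x ∧ some v ∉ T ∧ ∀ t ∈ T, lbl (some v) t ∈ L

/-- LBLS (uses DIG): `LBL_strong` (helper94). -/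
def Stmt_LBLS : Prop :=
  ∀ (m R : ℕ) (hR : 0 < R), 2 ≤ m → ∃ (C : ℝ) (q0 : ℕ), ∀ (q k : ℕ), q0 ≤ q →
    C * (q : ℝ) ^ (m - 2) ≤ (k : ℝ) ^ (m - 1) → C ≤ k → k ≤ q →
    ∃ L : Finset (ZMod (2 * q - 1)), L.card = k - 3 ∧ GoodS m q R hR L

/-- class: the vertex `none` (the partner of `some 0`, which has class `0`) is moved to the class `c1` -/
def clo {q : ℕ} (c1 : Fin 3) : Option (ZMod (2 * q - 1)) → Fin 3
  | none => c1
  | some x => cls (some x)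

/-- internal rule with the classes `clo` -/
def ruleO {q : ℕ} (R : ℕ) (hR : 0 < R) (B : Fin R → Fin R → Bool) (c1 : Fin 3)
    (u v : Option (ZMod (2 * q - 1))) : Fin 3 :=
  if clo c1 u = clo c1 v then (if B (prt R hR u) (prt R hR v) then clo c1 u + 1 else clo c1 u + 2)
  else -(clo c1 u + clo c1 v)

open Classical in
/-- special colour of the pair `ω, u` (if it has one) -/
noncomputable def omc {q : ℕ} (R : ℕ) (hR : 0 < R) (B : Fin R → Fin R → Bool) (c1 : Fin 3) :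
    Option (ZMod (2 * q - 1)) → Fin 3
  | none => c1
  | some y => if y = 0 then 0 else if 8 * y.val ≤ q then
      (if B ⟨0, hR⟩ (prt R hR (some y)) then cls (some y) + 1 else cls (some y) + 2)
      else cls (some y) + 1

open Classical in
/-- The factors on `Option (Option (ZMod (2 q - 1)))`; `none` is the neutral vertex `ω`. Pairs `some u, some v`: the label
`l ∈ L` gives the factor `inl l`; label `0`: the pair `none, some 0` gets the third colour `-c1`, the other pairs the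
colour of their class; all other pairs `ruleO`. Pairs `ω, u`: `u = some l`, `l ∈ L`: factor `inl l`; otherwise `omc`. -/
noncomputable def GO {q : ℕ} (R : ℕ) (hR : 0 < R) (B : Fin R → Fin R → Bool) (c1 : Fin 3)
    (L : Finset (ZMod (2 * q - 1))) (i : L ⊕ Fin 3) :
    SimpleGraph (Option (Option (ZMod (2 * q - 1)))) :=
  SimpleGraph.fromRel (fun a b => match a, b with
    | some u, some v => (match i with
      | Sum.inl l => lbl u v = l.1
      | Sum.inr j => lbl u v ∉ L ∧ (if lbl u v = 0 then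
          (if u = none ∨ v = none then -c1 = j else cls u = j) else ruleO R hR B c1 u v = j))
    | none, some u => (match i with
      | Sum.inl l => u = some l.1
      | Sum.inr j => (∀ l ∈ L, u ≠ some l) ∧ omc R hR B c1 u = j)
    | _, _ => False)

/-- GO1 (200 lines), like `GM1.lean`. Every pair has exactly one colour. `minDeg`: label `l`: `x ↦ l - x`, `l/2 ↦ none` as in
GM1, and `ω ~ some l`. Colour `j`: `u = some x ≠ some 0` of class `j` has its partner `some (-x)`; `some 0` and `none` have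
the neighbour `ω` in the colours `0` and `c1`; a vertex `u ≠ ω` of another class (`clo`) has a neighbour of the third class:
there are at least ` (2 q - 4)/3 - 2` vertices of that class and at most `k - 2` neighbours with a label in `L ∪ {0}`
(`4 k ≤ q`). `ω`: colours `0` and `c1` by `some 0`, `none`; colour `-c1 = j`: some `y` with `y ∉ L`, `q ≤ y.val`,
`cls (some y) + 1 = j` (there are at least ` (q - 3)/3 > k - 3` numbers `y` with `q ≤ y.val` and given class: `pno = 2 q - 1 - y.val`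
takes all values `1, …, q - 1`). -/
def Stmt_GO1 : Prop :=
  ∀ (q k R : ℕ) (hR : 0 < R) (B : Fin R → Fin R → Bool) (c1 : Fin 3)
    (L : Finset (ZMod (2 * q - 1))),
    100 ≤ q → 3 ≤ k → 4 * k ≤ q → L.card = k - 3 → (0 : ZMod (2 * q - 1)) ∉ L → c1 ≠ 0 →
    (∀ a b, B a b = B b a) → IsFactorization (GO R hR B c1 L)

/-- GO2 (80 lines; uses GO1). `S` a total dominating set of the colour `inl l`. Every `u = some u'`, `u' ≠ some l`, has exactly
one neighbour, its partner of label `l`; these partners are all `some w`, `w ≠ some 0` (the partner of `some l` is `some 0`). The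
vertex `some (some l)` has the neighbours `some (some 0)` and `ω`. So `|S| ≥ (2 q - 1) + 1`. -/
def Stmt_GO2 : Prop :=
  ∀ (q k R : ℕ) (hR : 0 < R) (B : Fin R → Fin R → Bool) (c1 : Fin 3)
    (L : Finset (ZMod (2 * q - 1))),
    100 ≤ q → 3 ≤ k → 4 * k ≤ q → L.card = k - 3 → (0 : ZMod (2 * q - 1)) ∉ L → c1 ≠ 0 →
    (∀ a b, B a b = B b a) → ∀ l : L, 2 * q ≤ gammaT (GO R hR B c1 L (Sum.inl l))

/-- CNO (40 lines; uses CNM): the number of the vertices of class `j` (`clo`). -/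
def Stmt_CNO : Prop :=
  ∀ (q : ℕ) [Fintype (ZMod (2 * q - 1))], 1 ≤ q → ∀ c1 : Fin 3, c1 ≠ 0 → ∀ j : Fin 3,
    (univ.filter (fun v : Option (ZMod (2 * q - 1)) => clo c1 v = j)).card =
      if j = 0 then 2 * ((q + 2) / 3) - 1 else
        if j = c1 then 2 * ((q + 2 - j.val) / 3) + 1 else 2 * ((q + 2 - j.val) / 3)

/-- GO3 (220 lines; uses GO1), like `GM3.lean`. `S` a total dominating set of the colour `i`, `X_i = {u | clo c1 u = i}`. Every
`u ∈ X_i` has in the colour `i` exactly one neighbour: its partner of label `0`, or `ω` if `u = some 0`, `i = 0`, or `u = none`,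
`i = c1`. So `S ⊇ F`, `F` = the images of the elements of `X_i` under this injective map; `F ⊆ X_i ∪ {ω}`, `|F| = |X_i|`.
`T = S ∖ F`; suppose `|T| ≤ 2 m - 1`. For one of the two other classes, `l`, `|T_l| ≤ m - 1`; `j` the other one. The property
of `B` for the parts of `T_j` and the part `0` (of `ω`), at most `2 m` parts, gives a part `x` (`s` as in `CN3` / `GM3`), GoodS
for `T_l` gives `v = some y` of class `j` and part `x`, `1 ≤ y.val`, `8 y.val ≤ q`, such that all pairs `v, t`, `t ∈ T_l`, have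
labels in `L`: `v` has no neighbour of colour `i` in `S`: vertices of `X_i`: colour `l` (or label in `L`; also for `some 0`,
`none`), `ω`: `omc` by the rule of `B` (or `y ∈ L`), `T_j`: rule of `B`, label `0` (colour `j`) or label in `L`. -/
def Stmt_GO3 : Prop :=
  ∀ (m q k R : ℕ) [Fintype (ZMod (2 * q - 1))] (hR : 0 < R) (B : Fin R → Fin R → Bool) (c1 : Fin 3)
    (L : Finset (ZMod (2 * q - 1))),
    2 ≤ m → 100 ≤ q → 3 ≤ k → 4 * k ≤ q → L.card = k - 3 → GoodS m q R hR L → c1 ≠ 0 →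
    (∀ a b, B a b = B b a) →
    (∀ (U : Finset (Fin R)) (s : Bool), U.card ≤ 2 * m → ∃ x, ∀ u ∈ U, B u x = s) →
    ∀ i : Fin 3, (univ.filter (fun v : Option (ZMod (2 * q - 1)) => clo c1 v = i)).card + 2 * m ≤
      gammaT (GO R hR B c1 L (Sum.inr i))

/-- LOQ (100 lines; uses MTX LBLS GO1 GO2 GO3 CNO LOM) (helper94). `n = 2 q + 1`. If `3 ∣ q`: LOM, `TTm m q = T3 (2 q + 6 m)`. If
`q % 3 = 1`: `c1 = 1`, if `q % 3 = 2`: `c1 = 2`; `le_P` with `Option (Option (ZMod (2 q - 1)))` and `L ⊕ Fin 3`. -/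
def Stmt_LOQ : Prop :=
  ∀ m : ℕ, 2 ≤ m → ∃ (C : ℝ) (n0 : ℕ), ∀ n k : ℕ, n0 ≤ n → Odd n →
    C * (n : ℝ) ^ (m - 2) ≤ (k : ℝ) ^ (m - 1) → C ≤ k → 10 * k ≤ n →
    NN n ^ (k - 3) * T3 (NN n + 6 * m) ≤ P n k

end Pool.Agent.Work.MP_1ce445_fx
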