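import Pool.Agent.Work.MP_1ce445_fx.Asm2
import Pool.Agent.Work.MP_1ce445_fx.InterfaceQ
import Pool.Agent.Work.MP_1ce445_fx.NUN

/-!
Assembly of the staircase theorem for all `n` (even and odd) in the full range of `k`.
-/

namespace Pool.Agent.Work.MP_1ce445_fx

open Finset Pool.Agent.Work.MP_1ce445_co_56 Pool.Agent.Work.MP_1ce445_lin

/-- the largest `a b c` with `a + b + c = 2 ⌊n/2⌋ + 6 m`, where `a, b, c` are even if `n` is even -/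
def EV (m n : ℕ) : ℕ :=
  if n % 2 = 0 then 8 * (((n / 2 + 3 * m) / 3) * ((n / 2 + 3 * m + 1) / 3) *
    ((n / 2 + 3 * m + 2) / 3))
  else ((2 * (n / 2) + 6 * m) / 3) * ((2 * (n / 2) + 6 * m + 1) / 3) *
    ((2 * (n / 2) + 6 * m + 2) / 3)

lemma EV_even {m n : ℕ} (h : n % 2 = 0) : EV m n = TTm m (n / 2) := by
  unfold EV TTm; rw [if_pos h]

lemma EV_odd {m n : ℕ} (h : n % 2 ≠ 0) : EV m n = T3 (2 * (n / 2) + 6 * m) := by
  unfold EV T3; rw [if_neg h]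

lemma AsmF_sum (s : ℕ) : s / 3 + (s + 1) / 3 + (s + 2) / 3 = s := by
  have h : s % 3 = 0 ∨ s % 3 = 1 ∨ s % 3 = 2 := by omega
  rcases h with h | h | h <;> omega

theorem AsmF_max (hNUN : Stmt_NUN) (m n : ℕ) :
    IsGreatest {p : ℕ | ∃ a b c : ℕ, a + b + c = 2 * (n / 2) + 6 * m ∧
      (n % 2 = 0 → Even a ∧ Even b ∧ Even c) ∧ p = a * b * c} (EV m n) := by
  by_cases h : n % 2 = 0
  · rw [EV_even h]
    obtain ⟨⟨a, b, c, ha, hb, hc, hs, hp⟩, h2⟩ := Asm_max hNUN m (n / 2)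
    refine ⟨⟨a, b, c, hs, fun _ => ⟨ha, hb, hc⟩, hp⟩, ?_⟩
    rintro p ⟨x, y, z, hs', he, hp'⟩
    obtain ⟨hx, hy, hz⟩ := he h
    exact h2 ⟨x, y, z, hx, hy, hz, hs', hp'⟩
  · rw [EV_odd h]
    constructor
    · refine ⟨(2 * (n / 2) + 6 * m) / 3, (2 * (n / 2) + 6 * m + 1) / 3,
        (2 * (n / 2) + 6 * m + 2) / 3, AsmF_sum _, fun h' => absurd h' h, rfl⟩
    · rintro p ⟨x, y, z, hs', -, rfl⟩
      exact NUN_all _ x y z hs'.le

lemma Asm_ten {a n k : ℕ} {δ : ℝ} (ha : a ≠ 0) (h5 : δ ≤ (1 / 10) ^ a) (b : ℕ) (hb : b ≤ a)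
    (hn : 1 ≤ n) (h : (k : ℝ) ^ a ≤ δ * (n : ℝ) ^ b) : 10 * k ≤ n := by
  have hn1 : (1 : ℝ) ≤ n := by exact_mod_cast hn
  have h1 : (k : ℝ) ^ a ≤ ((n : ℝ) / 10) ^ a := by
    calc (k : ℝ) ^ a ≤ δ * (n : ℝ) ^ b := h
      _ ≤ (1 / 10) ^ a * (n : ℝ) ^ b := mul_le_mul_of_nonneg_right h5 (by positivity)
      _ ≤ (1 / 10) ^ a * (n : ℝ) ^ a :=
          mul_le_mul_of_nonneg_left (pow_le_pow_right₀ hn1 hb) (by positivity)
      _ = ((n : ℝ) / 10) ^ a := by rw [← mul_pow]; congr 1; ring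
  have h2 : (k : ℝ) ≤ (n : ℝ) / 10 := le_of_pow_le_pow_left₀ ha (by positivity) h1
  have h3 : (10 : ℝ) * k ≤ n := by linarith
  exact_mod_cast h3

/-- The staircase theorem (statement). -/
def FinalA : Prop :=
  ∀ m : ℕ, 2 ≤ m → ∃ (C δ : ℝ) (n0 : ℕ), 0 < δ ∧ ∀ n k : ℕ, n0 ≤ n → 3 ≤ k →
    ((k : ℝ) ^ m ≤ δ * (n : ℝ) ^ (m - 1) → 10 * k ≤ n ∧
      P n k ≤ (2 * (n / 2)) ^ (k - 3) * EV m n) ∧
    (((C ≤ k ∧ C * (n : ℝ) ^ (m - 2) ≤ (k : ℝ) ^ (m - 1)) ∨ (m = 2 ∧ n % 2 = 0 ∧ 28 ≤ k)) →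
      10 * k ≤ n → (2 * (n / 2)) ^ (k - 3) * EV m n ≤ P n k)

theorem AsmF_final (hUUQ : Stmt_UUQ) (hLOM : Stmt_LOM) (hLOQ : Stmt_LOQ) (hLOU : Stmt_LOU) :
    FinalA := by
  intro m hm
  obtain ⟨δ1, n1, hδ1, hU⟩ := hUUQ m hm
  obtain ⟨C, n3, hL⟩ := hLOM m hm
  obtain ⟨C', n4, hO⟩ := hLOQ m hm
  obtain ⟨n5, hS⟩ := hLOU
  have h5a : (0 : ℝ) < (1 / 10) ^ m := by positivity
  refine ⟨max C C', min δ1 ((1 / 10) ^ m), n1 + n3 + n4 + n5 + 1, lt_min hδ1 h5a,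
    fun n k hn hk => ?_⟩
  have hNN : NN n = 2 * (n / 2) := rfl
  constructor
  · intro hkn
    have hk1 : (k : ℝ) ^ m ≤ δ1 * (n : ℝ) ^ (m - 1) :=
      hkn.trans (mul_le_mul_of_nonneg_right (min_le_left _ _) (by positivity))
    have h10 : 10 * k ≤ n :=
      Asm_ten (by omega) (min_le_right _ _) (m - 1) (by omega) (by omega) hkn
    obtain ⟨hUe, hUo⟩ := hU n k (by omega) hk hk1
    rw [hNN] at hUe hUo
    refine ⟨h10, ?_⟩
    by_cases h : n % 2 = 0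
    · rw [EV_even h]; exact hUe (Nat.even_iff.2 h)
    · rw [EV_odd h]; exact hUo (Nat.odd_iff.2 (by omega))
  · intro hc h10
    have hpow : (0 : ℝ) ≤ (n : ℝ) ^ (m - 2) := by positivity
    rcases hc with ⟨hC, hC'⟩ | ⟨hm2, h, h28⟩
    · by_cases h : n % 2 = 0
      · rw [EV_even h]
        have := hL n k (by omega)
          ((mul_le_mul_of_nonneg_right (le_max_left C C') hpow).trans hC')
          ((le_max_left C C').trans hC) (by omega)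
        rwa [hNN] at this
      · rw [EV_odd h]
        have := hO n k (by omega) (Nat.odd_iff.2 (by omega))
          ((mul_le_mul_of_nonneg_right (le_max_right C C') hpow).trans hC')
          ((le_max_right C C').trans hC) h10
        rwa [hNN] at this
    · rw [EV_even h]
      subst hm2
      have := hS n k (by omega) h28 (by omega)
      rwa [hNN] at this

end Pool.Agent.Work.MP_1ce445_fx
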