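import Pool.Agent.Work.MP_1ce445_fx.Interface

/-! Block OUT (helper11). -/

namespace Pool.Agent.Work.MP_1ce445_fx

open Finset Pool.Agent.Work.MP_1ce445_co_56 Pool.Agent.Work.MP_1ce445_lin

lemma OUT_idx : ∀ a b c : Fin 3, a ≠ b → a ≠ c → b ≠ c →
    (a = c + 1 ∧ b = c + 2) ∨ (a = c + 2 ∧ b = c + 1) := by decide

lemma OUT_idx2 : ∀ a c : Fin 3, c ≠ a → c = a + 1 ∨ c = a + 2 := by decide

lemma OUT_idx3 : ∀ a b : Fin 3, ∃ c, c ≠ a ∧ c ≠ b := by decide

lemma OUT_idx4 : ∀ i j l x : Fin 3, j ≠ i → l ≠ i → l ≠ j → x ≠ i → x = j ∨ x = l := by decide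

section aux

variable {n k : ℕ} {G : Fin k → SimpleGraph (Fin n)} {e : Fin 3 → Fin k} {θ ε : ℝ}

lemma OUT_sum (a b c : Fin 3) (h1 : a ≠ b) (h2 : a ≠ c) (h3 : b ≠ c) (u : Fin n) :
    A G e θ a c u + A G e θ b c u = 1 + ta G e θ c u := by
  unfold ta
  rcases OUT_idx a b c h1 h2 h3 with ⟨h4, h5⟩ | ⟨h4, h5⟩
  · rw [h4, h5]; ring
  · rw [h4, h5]; ring

lemma OUT_def {t : Fin n → Fin 3} (hA : ∀ i j v, 0 ≤ A G e θ i j v ∧ A G e θ i j v ≤ 1)
    (hT : IsTyp G e θ ε t) (u : Fin n) (c : Fin 3) (hc : c ≠ t u) :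
    0 ≤ 1 - A G e θ (t u) c u ∧ 1 - A G e θ (t u) c u ≤ 5 * ε ∧
    1 - A G e θ (t u) c u ≤
      (1 - A G e θ (t u) (t u + 1) u) + (1 - A G e θ (t u) (t u + 2) u) := by
  have h1 := hT.1 u
  have h2 := hA (t u) (t u + 1) u
  have h3 := hA (t u) (t u + 2) u
  rcases OUT_idx2 (t u) c hc with h | h
  · rw [h]; exact ⟨by linarith, by linarith [h1.1], by linarith⟩
  · rw [h]; exact ⟨by linarith, by linarith [h1.2], by linarith⟩

end aux

open Classical in
lemma OUT_nf {n : ℕ} (H : SimpleGraph (Fin n)) (X : Finset (Fin n)) (hX : X.Nonempty)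
    (u : Fin n) : ((X.filter (fun w => ¬ H.Adj u w)).card : ℝ) = X.card * nf H X u := by
  have h1 : (X.filter (fun w => H.Adj u w)).card + (X.filter (fun w => ¬ H.Adj u w)).card
      = X.card := card_filter_add_card_filter_not _
  have h2 : (0 : ℝ) < X.card := by exact_mod_cast hX.card_pos
  unfold nf dg
  have h3 : ((X.filter (fun w => H.Adj u w)).card : ℝ)
      + (X.filter (fun w => ¬ H.Adj u w)).card = X.card := by exact_mod_cast h1
  field_simp
  linarith

lemma OUT_choice {n : ℕ} (H : SimpleGraph (Fin n)) (X Y U : Finset (Fin n)) (hX : X.Nonempty)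
    (hY : Y.Nonempty) (hs : ∑ u ∈ U, nf H X u * nf H Y u ^ 2 < 1) :
    ∃ x ∈ X, ∃ y ∈ Y, ∃ z ∈ Y, ∀ u ∈ U, H.Adj u x ∨ H.Adj u y ∨ H.Adj u z := by
  classical
  by_contra hcon
  push Not at hcon
  have hsub : X ×ˢ (Y ×ˢ Y) ⊆ U.biUnion (fun u => (X.filter (fun w => ¬ H.Adj u w)) ×ˢ
      ((Y.filter (fun w => ¬ H.Adj u w)) ×ˢ (Y.filter (fun w => ¬ H.Adj u w)))) := by
    rintro ⟨x, y, z⟩ hx
    rw [mem_product, mem_product] at hx
    obtain ⟨u, hu, h1, h2, h3⟩ := hcon x hx.1 y hx.2.1 z hx.2.2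
    rw [mem_biUnion]
    refine ⟨u, hu, ?_⟩
    rw [mem_product, mem_product]
    exact ⟨mem_filter.2 ⟨hx.1, h1⟩, mem_filter.2 ⟨hx.2.1, h2⟩, mem_filter.2 ⟨hx.2.2, h3⟩⟩
  have h1 := (card_le_card hsub).trans card_biUnion_le
  simp only [card_product] at h1
  have h2 : ((X.card : ℝ) * (Y.card * Y.card)) ≤ ∑ u ∈ U,
      ((X.filter (fun w => ¬ H.Adj u w)).card : ℝ) *
        (((Y.filter (fun w => ¬ H.Adj u w)).card : ℝ) *
          ((Y.filter (fun w => ¬ H.Adj u w)).card : ℝ)) := by exact_mod_cast h1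
  have h3 : ∑ u ∈ U,
      ((X.filter (fun w => ¬ H.Adj u w)).card : ℝ) *
        (((Y.filter (fun w => ¬ H.Adj u w)).card : ℝ) *
          ((Y.filter (fun w => ¬ H.Adj u w)).card : ℝ))
      = (X.card * (Y.card * Y.card)) * ∑ u ∈ U, nf H X u * nf H Y u ^ 2 := by
    rw [mul_sum]
    refine sum_congr rfl fun u _ => ?_
    rw [OUT_nf H X hX u, OUT_nf H Y hY u]; ring
  have h4 : (0 : ℝ) < X.card := by exact_mod_cast hX.card_pos
  have h5 : (0 : ℝ) < Y.card := by exact_mod_cast hY.card_pos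
  rw [h3] at h2
  have h6 : (0 : ℝ) < X.card * (Y.card * Y.card) := by positivity
  nlinarith

theorem stmt_OUT : Stmt_TAU → Stmt_XCA → Stmt_OUT := by
  classical
  intro hTAU hXCA n k G e θ ε t hE hT i v w hv hvw
  by_contra hne
  obtain ⟨hA, hta⟩ := hTAU n k G e θ hE.sit
  obtain ⟨hgam, -⟩ := hXCA n k G e θ ε t hE hT i
  obtain ⟨l, hli, hlj⟩ := OUT_idx3 i (t w)
  have hn : (0 : ℝ) < n := by exact_mod_cast hE.sit.pos
  have hth := hE.sit.th
  have hth' := hE.sit.th'
  have hep := hE.ep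
  have hep' := hE.ep'
  set j : Fin 3 := t w with hj
  have hji : j ≠ i := hne
  have hne1 : ∀ m, (low (G (e m)) θ).Nonempty := by
    intro m
    have h1 := hE.sit.big m
    rw [← card_pos]
    have : (0 : ℝ) < ((low (G (e m)) θ).card : ℝ) := lt_of_lt_of_le (by positivity) h1
    exact_mod_cast this
  -- the types of the vertices of the low sets
  have htyp : ∀ m u, u ∈ low (G (e m)) θ → t u = m := by
    intro m u hu
    by_contra hm
    obtain ⟨c, hc1, hc2⟩ := OUT_idx3 m (t u)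
    have h1 := OUT_sum (G := G) (e := e) (θ := θ) m (t u) c (Ne.symm hm) (Ne.symm hc1)
      (Ne.symm hc2) u
    have h2 := (OUT_def hA hT u c hc2).2.1
    have h3 : 1 - 5 * θ ≤ A G e θ m c u := by
      unfold A nf
      have h4 : (dg (G (e m)) univ u : ℝ) < θ * n := (mem_filter.1 hu).2
      have h5 : (dg (G (e m)) (low (G (e c)) θ) u : ℝ) ≤ dg (G (e m)) univ u := by
        have : dg (G (e m)) (low (G (e c)) θ) u ≤ dg (G (e m)) univ u := by
          unfold dg
          exact card_le_card (filter_subset_filter _ (subset_univ _))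
        exact_mod_cast this
      have h6 := hE.sit.big c
      have h7 : (0 : ℝ) < ((low (G (e c)) θ).card : ℝ) := lt_of_lt_of_le (by positivity) h6
      have h8 : (dg (G (e m)) (low (G (e c)) θ) u : ℝ) / ((low (G (e c)) θ).card : ℝ)
          ≤ 5 * θ := by
        rw [div_le_iff₀ h7]
        nlinarith
      linarith
    have h9 := (hE.tau c u)
    have h10 := hE.tau'
    linarith
  -- the set to be dominated
  set U : Finset (Fin n) := univ.filter (fun u => t u ≠ i ∧ ¬ (G (e i)).Adj u w) with hU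
  set df : Fin n → ℝ := fun u =>
    (1 - A G e θ (t u) (t u + 1) u) + (1 - A G e θ (t u) (t u + 2) u) with hdf
  have hdf0 : ∀ u, 0 ≤ df u := by
    intro u
    have h2 := hA (t u) (t u + 1) u
    have h3 := hA (t u) (t u + 2) u
    simp only [hdf]; linarith
  have hdfs : ∑ u, df u ≤ 2 * ε := hT.2
  have hpt : ∀ u ∈ U, nf (G (e i)) (low (G (e j)) θ) u * nf (G (e i)) (low (G (e l)) θ) u ^ 2 ≤
      2 * (∑ m, ta G e θ m u ^ 2) + df u + (if t u = l then ta G e θ j u else 0) := by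
    intro u hu
    have hu' := (mem_filter.1 hu).2
    change A G e θ i j u * A G e θ i l u ^ 2 ≤ _
    have a1 := hA i j u
    have a2 := hA i l u
    have hsq : ∀ m, ta G e θ m u ^ 2 ≤ ∑ m, ta G e θ m u ^ 2 := fun m =>
      single_le_sum (f := fun m => ta G e θ m u ^ 2) (fun m _ => sq_nonneg _) (mem_univ m)
    have hsq0 : 0 ≤ ∑ m, ta G e θ m u ^ 2 := sum_nonneg fun m _ => sq_nonneg _
    rcases OUT_idx4 i j l (t u) hji hli hlj hu'.1 with h | h
    · -- t u = j
      have hl : ¬ (t u = l) := by rw [h]; exact Ne.symm hlj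
      rw [if_neg hl]
      have h1 := OUT_sum (G := G) (e := e) (θ := θ) i j l (Ne.symm hji) (Ne.symm hli)
        (Ne.symm hlj) u
      obtain ⟨d0, d1, d2⟩ := OUT_def hA hT u l (Ne.symm hl)
      rw [h] at d0 d1
      have d2' : 1 - A G e θ j l u ≤ df u := by
        simp only [hdf]; rw [h] at d2 ⊢; exact d2
      have h0 := (hta l u).1
      have h3 : A G e θ i l u = ta G e θ l u + (1 - A G e θ j l u) := by linarith
      have h4 : A G e θ i l u ^ 2 ≤ 2 * ta G e θ l u ^ 2 + 2 * (1 - A G e θ j l u) ^ 2 := by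
        rw [h3]
        nlinarith [sq_nonneg (ta G e θ l u - (1 - A G e θ j l u))]
      have h5 : 2 * (1 - A G e θ j l u) ^ 2 ≤ df u := by
        have : 2 * (1 - A G e θ j l u) ^ 2 ≤ (1 - A G e θ j l u) := by nlinarith
        linarith
      have h6 : A G e θ i j u * A G e θ i l u ^ 2 ≤ A G e θ i l u ^ 2 := by
        have := sq_nonneg (A G e θ i l u)
        nlinarith [a1.2]
      have h7 := hsq l
      linarith
    · -- t u = l
      rw [if_pos h]
      have h1 := OUT_sum (G := G) (e := e) (θ := θ) i l j (Ne.symm hli) (Ne.symm hji)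
        hlj u
      obtain ⟨d0, d1, d2⟩ := OUT_def hA hT u j (by rw [h]; exact Ne.symm hlj)
      rw [h] at d0 d1
      have d2' : 1 - A G e θ l j u ≤ df u := by
        simp only [hdf]; rw [h] at d2 ⊢; exact d2
      have h3 : A G e θ i j u = ta G e θ j u + (1 - A G e θ l j u) := by linarith
      have h6 : A G e θ i j u * A G e θ i l u ^ 2 ≤ A G e θ i j u := by
        have : A G e θ i l u ^ 2 ≤ 1 := by nlinarith [a2.1, a2.2]
        nlinarith [a1.1]
      linarith
  -- the number of the vertices of type `l` in `U`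
  have hAw : A G e θ i l w ≤ 6 * ε := by
    have h1 := OUT_sum (G := G) (e := e) (θ := θ) i j l (Ne.symm hji) (Ne.symm hli)
        (Ne.symm hlj) w
    have h2 := (OUT_def hA hT w l (by rw [← hj]; exact hlj)).2.1
    rw [← hj] at h2
    have h3 := hE.tau l w
    have h4 := hE.tau'
    linarith
  have hcard : ((U.filter (fun u => t u = l)).card : ℝ) ≤ (θ + 6 * ε) * n := by
    have hsub : U.filter (fun u => t u = l) ⊆
        (univ.filter (fun v => ∀ i, v ∉ low (G (e i)) θ)) ∪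
          ((low (G (e l)) θ).filter (fun u => ¬ (G (e i)).Adj w u)) := by
      intro u hu
      rw [mem_filter] at hu
      obtain ⟨hu1, hu2⟩ := hu
      have hu3 := (mem_filter.1 hu1).2
      rw [mem_union]
      by_cases hc : ∀ i, u ∉ low (G (e i)) θ
      · left; exact mem_filter.2 ⟨mem_univ _, hc⟩
      · right
        push Not at hc
        obtain ⟨m, hm⟩ := hc
        have h1 := htyp m u hm
        have h2 : m = l := by rw [← h1]; exact hu2
        subst h2
        refine mem_filter.2 ⟨hm, fun h => hu3.2 h.symm⟩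
    have h1 := (card_le_card hsub).trans (card_union_le _ _)
    have h2 : ((U.filter (fun u => t u = l)).card : ℝ) ≤
        ((univ.filter (fun v => ∀ i, v ∉ low (G (e i)) θ)).card : ℝ) +
          (((low (G (e l)) θ).filter (fun u => ¬ (G (e i)).Adj w u)).card : ℝ) := by
      exact_mod_cast h1
    have h3 := OUT_nf (G (e i)) (low (G (e l)) θ) (hne1 l) w
    have h4 := hE.sit.rest
    have h5 : ((low (G (e l)) θ).card : ℝ) ≤ n := by
      have : (low (G (e l)) θ).card ≤ n := by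
        simpa using card_le_univ (low (G (e l)) θ)
      exact_mod_cast this
    have h6 : ((low (G (e l)) θ).card : ℝ) * nf (G (e i)) (low (G (e l)) θ) w ≤ n * (6 * ε) := by
      have h7 : nf (G (e i)) (low (G (e l)) θ) w ≤ 6 * ε := hAw
      have h8 : 0 ≤ nf (G (e i)) (low (G (e l)) θ) w := (hA i l w).1
      exact mul_le_mul h5 h7 h8 hn.le
    rw [h3] at h2
    linarith
  have hthird : ∑ u ∈ U, (if t u = l then ta G e θ j u else 0) ≤ 1 / 4 := by
    rw [← sum_filter]
    have h1 : ∑ u ∈ U.filter (fun u => t u = l), ta G e θ j u ≤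
        ∑ _u ∈ U.filter (fun u => t u = l), (10 + 25 * (k : ℝ)) / n :=
      sum_le_sum fun u _ => hE.tau j u
    rw [sum_const, nsmul_eq_mul] at h1
    have h2 : (0 : ℝ) ≤ (10 + 25 * (k : ℝ)) / n := by positivity
    have h3 : ((U.filter (fun u => t u = l)).card : ℝ) * ((10 + 25 * (k : ℝ)) / n) ≤
        (θ + 6 * ε) * n * ((10 + 25 * (k : ℝ)) / n) := mul_le_mul_of_nonneg_right hcard h2
    have h4 : (θ + 6 * ε) * n * ((10 + 25 * (k : ℝ)) / n) = (θ + 6 * ε) * (10 + 25 * k) := by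
      field_simp
    have h5 := hE.small
    linarith
  have htot : ∑ u ∈ U, nf (G (e i)) (low (G (e j)) θ) u *
      nf (G (e i)) (low (G (e l)) θ) u ^ 2 < 1 := by
    have h1 := sum_le_sum hpt
    rw [sum_add_distrib, sum_add_distrib, ← mul_sum] at h1
    have h2 : ∑ u ∈ U, ∑ m, ta G e θ m u ^ 2 ≤ ∑ u, ∑ m, ta G e θ m u ^ 2 :=
      sum_le_sum_of_subset_of_nonneg (subset_univ _)
        (fun u _ _ => sum_nonneg fun m _ => sq_nonneg _)
    have h3 : ∑ u ∈ U, df u ≤ ∑ u, df u :=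
      sum_le_sum_of_subset_of_nonneg (subset_univ _) (fun u _ _ => hdf0 u)
    have h4 := hE.tsq
    linarith
  obtain ⟨x, -, y, -, z, -, hdom⟩ := OUT_choice (G (e i)) _ _ U (hne1 j) (hne1 l) htot
  have hmd : ∀ v, ∃ w, (G (e i)).Adj v w := fun v => hE.sit.fac.minDeg (e i) v
  have hle : gammaT (G (e i)) ≤ ({w, x, y, z} : Finset (Fin n)).card +
      (univ.filter (fun u => ∀ a ∈ ({w, x, y, z} : Finset (Fin n)),
        ¬ (G (e i)).Adj u a)).card := by
    convert gammaT_le_add (G := G (e i)) hmd ({w, x, y, z} : Finset (Fin n))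
  have hD : ({w, x, y, z} : Finset (Fin n)).card ≤ 4 := card_le_four
  have hsub : (univ.filter (fun u => ∀ a ∈ ({w, x, y, z} : Finset (Fin n)),
      ¬ (G (e i)).Adj u a)) ⊆ (univ.filter (fun u => t u = i)).erase v := by
    intro u hu
    have hu' := (mem_filter.1 hu).2
    have b1 := hu' w (by simp)
    have b2 := hu' x (by simp)
    have b3 := hu' y (by simp)
    have b4 := hu' z (by simp)
    rw [mem_erase]
    refine ⟨?_, mem_filter.2 ⟨mem_univ _, ?_⟩⟩
    · rintro rfl; exact b1 hvw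
    · by_contra hti
      rcases hdom u (mem_filter.2 ⟨mem_univ _, hti, b1⟩) with h | h | h
      · exact b2 h
      · exact b3 h
      · exact b4 h
  have hc1 := card_le_card hsub
  have hvi : v ∈ univ.filter (fun u => t u = i) := mem_filter.2 ⟨mem_univ _, hv⟩
  rw [card_erase_of_mem hvi] at hc1
  have hpos : 0 < (univ.filter (fun u => t u = i)).card := card_pos.2 ⟨v, hvi⟩
  rw [hgam] at hle
  omega

end Pool.Agent.Work.MP_1ce445_fx
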