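import Pool.Agent.Work.MP_1ce445_fx.InterfaceP
import Pool.Agent.Work.MP_1ce445_fx.OUT

/-! Block OUM (helper11). -/

namespace Pool.Agent.Work.MP_1ce445_fx

open Finset Pool.Agent.Work.MP_1ce445_co_56 Pool.Agent.Work.MP_1ce445_lin

lemma OUM_choice {n : ℕ} (a b : ℕ) (H : SimpleGraph (Fin n)) (X Y U : Finset (Fin n))
    (hX : X.Nonempty) (hY : Y.Nonempty) (hs : ∑ u ∈ U, nf H X u ^ a * nf H Y u ^ b < 1) :
    ∃ (f : Fin a → Fin n) (g : Fin b → Fin n), ∀ u ∈ U, (∃ i, H.Adj u (f i)) ∨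
      ∃ i, H.Adj u (g i) := by
  classical
  by_contra hcon
  push Not at hcon
  have hsub : (Fintype.piFinset (fun _ : Fin a => X)) ×ˢ (Fintype.piFinset (fun _ : Fin b => Y)) ⊆
      U.biUnion (fun u => (Fintype.piFinset (fun _ : Fin a => X.filter (fun w => ¬ H.Adj u w))) ×ˢ
      (Fintype.piFinset (fun _ : Fin b => Y.filter (fun w => ¬ H.Adj u w)))) := by
    rintro ⟨f, g⟩ hx
    rw [mem_product] at hx
    obtain ⟨u, hu, h1, h2⟩ := hcon f g
    rw [mem_biUnion]
    refine ⟨u, hu, ?_⟩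
    rw [mem_product]
    have h3 := Fintype.mem_piFinset.1 hx.1
    have h4 := Fintype.mem_piFinset.1 hx.2
    exact ⟨Fintype.mem_piFinset.2 fun i => mem_filter.2 ⟨h3 i, h1 i⟩,
      Fintype.mem_piFinset.2 fun i => mem_filter.2 ⟨h4 i, h2 i⟩⟩
  have h1 := (card_le_card hsub).trans card_biUnion_le
  simp only [card_product, Fintype.card_piFinset_const] at h1
  have h2 : ((X.card : ℝ) ^ a * (Y.card : ℝ) ^ b) ≤ ∑ u ∈ U,
      ((X.filter (fun w => ¬ H.Adj u w)).card : ℝ) ^ a *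
        ((Y.filter (fun w => ¬ H.Adj u w)).card : ℝ) ^ b := by exact_mod_cast h1
  have h3 : ∑ u ∈ U,
      ((X.filter (fun w => ¬ H.Adj u w)).card : ℝ) ^ a *
        ((Y.filter (fun w => ¬ H.Adj u w)).card : ℝ) ^ b
      = ((X.card : ℝ) ^ a * (Y.card : ℝ) ^ b) * ∑ u ∈ U, nf H X u ^ a * nf H Y u ^ b := by
    rw [mul_sum]
    refine sum_congr rfl fun u _ => ?_
    rw [OUT_nf H X hX u, OUT_nf H Y hY u, mul_pow, mul_pow]; ring
  have h4 : (0 : ℝ) < X.card := by exact_mod_cast hX.card_pos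
  have h5 : (0 : ℝ) < Y.card := by exact_mod_cast hY.card_pos
  rw [h3] at h2
  have h6 : (0 : ℝ) < (X.card : ℝ) ^ a * (Y.card : ℝ) ^ b := by positivity
  nlinarith

theorem stmt_OUM : Stmt_TAU → Stmt_XCM → Stmt_YXM → Stmt_OUM := by
  classical
  intro hTAU hXCA hYXU m n k G e θ ε t hE hT i v w hv hvw
  by_contra hne
  obtain ⟨hA, hta⟩ := hTAU n k G e θ hE.sit
  obtain ⟨hgam, -⟩ := hXCA m n k G e θ ε t hE hT i
  obtain ⟨l, hli, hlj⟩ := OUT_idx3 i (t w)
  have hn : (0 : ℝ) < n := by exact_mod_cast hE.sit.pos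
  have hep := hE.ep
  obtain ⟨p, rfl⟩ : ∃ p, m = p + 2 := ⟨m - 2, by have := hE.m2; omega⟩
  have h2p : (1 : ℝ) ≤ 2 ^ p := one_le_pow₀ (by norm_num)
  have hep' : 2 ^ (p + 2) * ε ≤ 1 / 1000 := by
    have h1 := hE.ep'
    have h2 : (2 : ℝ) ^ (p + 2) ≤ 100 ^ (p + 2) := pow_le_pow_left₀ (by norm_num) (by norm_num) _
    have h3 : 2 ^ (p + 2) * ε ≤ 100 ^ (p + 2) * ε := mul_le_mul_of_nonneg_right h2 hep.le
    linarith
  have hep'' : ε ≤ 1 / 1000 := by
    have h1 : ε ≤ 2 ^ (p + 2) * ε := le_mul_of_one_le_left hep.le (by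
      have : (1 : ℝ) ≤ 2 ^ (p + 2) := one_le_pow₀ (by norm_num)
      exact this)
    linarith
  have hsmall := hE.small
  have hp1 : p + 2 - 1 = p + 1 := by omega
  have hp2 : p + 2 - 2 = p := by omega
  rw [hp1, hp2] at hsmall
  set j : Fin 3 := t w with hj
  have hji : j ≠ i := hne
  have hne1 : ∀ m, (low (G (e m)) θ).Nonempty := by
    intro m
    have h1 := hE.sit.big m
    rw [← card_pos]
    have : (0 : ℝ) < ((low (G (e m)) θ).card : ℝ) := lt_of_lt_of_le (by positivity) h1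
    exact_mod_cast this
  -- the types of the vertices of the low sets
  have htyp : ∀ m u, t u = m → u ∈ low (G (e m)) θ := fun m u hu =>
    (hYXU (p + 2) n k G e θ ε t hE hT u m).1 hu
  -- the set to be dominated
  set U : Finset (Fin n) := univ.filter (fun u => t u ≠ i ∧ ¬ (G (e i)).Adj u w) with hU
  set df : Fin n → ℝ := fun u =>
    (1 - A G e θ (t u) (t u + 1) u) + (1 - A G e θ (t u) (t u + 2) u) with hdf
  have hdf0 : ∀ u, 0 ≤ df u := by
    intro u
    have h2 := hA (t u) (t u + 1) u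
    have h3 := hA (t u) (t u + 2) u
    simp only [hdf]; linarith
  have hdfs : ∑ u, df u ≤ 2 * ε := hT.2
  have hpt : ∀ u ∈ U, nf (G (e i)) (low (G (e j)) θ) u ^ (p + 1) *
      nf (G (e i)) (low (G (e l)) θ) u ^ (p + 2) ≤
      2 ^ (p + 2) * (∑ m, ta G e θ m u ^ (p + 2)) + 2 ^ (p + 2) * df u +
        (if t u = l then 2 ^ (p + 2) * ta G e θ j u ^ (p + 1) else 0) := by
    intro u hu
    have hu' := (mem_filter.1 hu).2
    change A G e θ i j u ^ (p + 1) * A G e θ i l u ^ (p + 2) ≤ _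
    have a1 := hA i j u
    have a2 := hA i l u
    have hsq : ∀ m, ta G e θ m u ^ (p + 2) ≤ ∑ m, ta G e θ m u ^ (p + 2) := fun m =>
      single_le_sum (f := fun m => ta G e θ m u ^ (p + 2))
        (fun m _ => pow_nonneg (hta m u).1 _) (mem_univ m)
    have hsq0 : 0 ≤ ∑ m, ta G e θ m u ^ (p + 2) := sum_nonneg fun m _ => pow_nonneg (hta m u).1 _
    rcases OUT_idx4 i j l (t u) hji hli hlj hu'.1 with h | h
    · -- t u = j
      have hl : ¬ (t u = l) := by rw [h]; exact Ne.symm hlj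
      rw [if_neg hl]
      have h1 := OUT_sum (G := G) (e := e) (θ := θ) i j l (Ne.symm hji) (Ne.symm hli)
        (Ne.symm hlj) u
      obtain ⟨d0, d1, d2⟩ := OUT_def hA hT u l (Ne.symm hl)
      rw [h] at d0 d1
      have d2' : 1 - A G e θ j l u ≤ df u := by
        simp only [hdf]; rw [h] at d2 ⊢; exact d2
      have h0 := (hta l u).1
      have h3 : A G e θ i l u = ta G e θ l u + (1 - A G e θ j l u) := by linarith
      have h4 : A G e θ i l u ^ (p + 2) ≤
          2 ^ (p + 1) * (ta G e θ l u ^ (p + 2) + (1 - A G e θ j l u) ^ (p + 2)) := by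
        rw [h3]
        exact add_pow_le h0 d0 (p + 2)
      have h5 : (1 - A G e θ j l u) ^ (p + 2) ≤ df u := by
        refine le_trans (pow_le_of_le_one d0 (by linarith) (by omega)) d2'
      have h6 : A G e θ i j u ^ (p + 1) * A G e θ i l u ^ (p + 2) ≤ A G e θ i l u ^ (p + 2) :=
        mul_le_of_le_one_left (pow_nonneg a2.1 _) (pow_le_one₀ a1.1 a1.2)
      have h7 := hsq l
      have h8 : (2 : ℝ) ^ (p + 1) * (ta G e θ l u ^ (p + 2) + (1 - A G e θ j l u) ^ (p + 2)) ≤
          2 ^ (p + 2) * (∑ m, ta G e θ m u ^ (p + 2) + df u) := by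
        refine mul_le_mul ?_ (add_le_add h7 h5) (by positivity) (by positivity)
        exact pow_le_pow_right₀ (by norm_num) (by omega)
      rw [mul_add] at h8
      linarith
    · -- t u = l
      rw [if_pos h]
      have h1 := OUT_sum (G := G) (e := e) (θ := θ) i l j (Ne.symm hli) (Ne.symm hji)
        hlj u
      obtain ⟨d0, d1, d2⟩ := OUT_def hA hT u j (by rw [h]; exact Ne.symm hlj)
      rw [h] at d0 d1
      have d2' : 1 - A G e θ l j u ≤ df u := by
        simp only [hdf]; rw [h] at d2 ⊢; exact d2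
      have h0 := (hta j u).1
      have h3 : A G e θ i j u = ta G e θ j u + (1 - A G e θ l j u) := by linarith
      have h4 : A G e θ i j u ^ (p + 1) ≤
          2 ^ p * (ta G e θ j u ^ (p + 1) + (1 - A G e θ l j u) ^ (p + 1)) := by
        rw [h3]
        exact add_pow_le h0 d0 (p + 1)
      have h5 : (1 - A G e θ l j u) ^ (p + 1) ≤ df u := by
        refine le_trans (pow_le_of_le_one d0 (by linarith) (by omega)) d2'
      have h6 : A G e θ i j u ^ (p + 1) * A G e θ i l u ^ (p + 2) ≤ A G e θ i j u ^ (p + 1) :=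
        mul_le_of_le_one_right (pow_nonneg a1.1 _) (pow_le_one₀ a2.1 a2.2)
      have h8 : (2 : ℝ) ^ p * (ta G e θ j u ^ (p + 1) + (1 - A G e θ l j u) ^ (p + 1)) ≤
          2 ^ (p + 2) * (ta G e θ j u ^ (p + 1) + df u) := by
        refine mul_le_mul ?_ (by linarith) (by positivity) (by positivity)
        exact pow_le_pow_right₀ (by norm_num) (by omega)
      rw [mul_add] at h8
      have h9 : (0 : ℝ) ≤ 2 ^ (p + 2) * ∑ m, ta G e θ m u ^ (p + 2) :=
        mul_nonneg (pow_nonneg (by norm_num) _) hsq0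
      linarith
  -- the number of the vertices of type `l` in `U`
  have hAw : A G e θ i l w ≤ 6 * ε := by
    have h1 := OUT_sum (G := G) (e := e) (θ := θ) i j l (Ne.symm hji) (Ne.symm hli)
        (Ne.symm hlj) w
    have h2 := (OUT_def hA hT w l (by rw [← hj]; exact hlj)).2.1
    rw [← hj] at h2
    have h3 := hE.tau l w
    have h4 := hE.tau'
    linarith
  have hcard : ((U.filter (fun u => t u = l)).card : ℝ) ≤ 6 * ε * n := by
    have hsub : U.filter (fun u => t u = l) ⊆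
        (low (G (e l)) θ).filter (fun u => ¬ (G (e i)).Adj w u) := by
      intro u hu
      rw [mem_filter] at hu
      obtain ⟨hu1, hu2⟩ := hu
      have hu3 := (mem_filter.1 hu1).2
      exact mem_filter.2 ⟨htyp l u hu2, fun h => hu3.2 h.symm⟩
    have h2 : ((U.filter (fun u => t u = l)).card : ℝ) ≤
        (((low (G (e l)) θ).filter (fun u => ¬ (G (e i)).Adj w u)).card : ℝ) := by
      exact_mod_cast card_le_card hsub
    have h3 := OUT_nf (G (e i)) (low (G (e l)) θ) (hne1 l) w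
    have h5 : ((low (G (e l)) θ).card : ℝ) ≤ n := by
      have : (low (G (e l)) θ).card ≤ n := by
        simpa using card_le_univ (low (G (e l)) θ)
      exact_mod_cast this
    have h6 : ((low (G (e l)) θ).card : ℝ) * nf (G (e i)) (low (G (e l)) θ) w ≤ n * (6 * ε) := by
      have h7 : nf (G (e i)) (low (G (e l)) θ) w ≤ 6 * ε := hAw
      have h8 : 0 ≤ nf (G (e i)) (low (G (e l)) θ) w := (hA i l w).1
      exact mul_le_mul h5 h7 h8 hn.le
    rw [h3] at h2
    linarith
  have hthird : ∑ u ∈ U, (if t u = l then 2 ^ (p + 2) * ta G e θ j u ^ (p + 1) else 0) ≤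
      1 / 4 := by
    rw [← sum_filter]
    have h1 : ∑ u ∈ U.filter (fun u => t u = l), 2 ^ (p + 2) * ta G e θ j u ^ (p + 1) ≤
        ∑ _u ∈ U.filter (fun u => t u = l),
          2 ^ (p + 2) * ((10 + 25 * (k : ℝ)) / n) ^ (p + 1) :=
      sum_le_sum fun u _ => mul_le_mul_of_nonneg_left
        (pow_le_pow_left₀ (hta j u).1 (hE.tau j u) _) (by positivity)
    rw [sum_const, nsmul_eq_mul] at h1
    have h2 : (0 : ℝ) ≤ 2 ^ (p + 2) * ((10 + 25 * (k : ℝ)) / n) ^ (p + 1) := by positivity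
    have h3 : ((U.filter (fun u => t u = l)).card : ℝ) *
        (2 ^ (p + 2) * ((10 + 25 * (k : ℝ)) / n) ^ (p + 1)) ≤
        6 * ε * n * (2 ^ (p + 2) * ((10 + 25 * (k : ℝ)) / n) ^ (p + 1)) :=
      mul_le_mul_of_nonneg_right hcard h2
    have h4 : 6 * ε * n * (2 ^ (p + 2) * ((10 + 25 * (k : ℝ)) / n) ^ (p + 1)) =
        (2 ^ (p + 2) * 6 * ε * (10 + 25 * (k : ℝ)) ^ (p + 1)) / (n : ℝ) ^ p := by
      rw [div_pow, pow_succ (n : ℝ) p]
      field_simp
    have h5 : (2 ^ (p + 2) * 6 * ε * (10 + 25 * (k : ℝ)) ^ (p + 1)) / (n : ℝ) ^ p ≤ 1 / 4 := by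
      rw [div_le_iff₀ (by positivity)]
      linarith
    linarith
  have htot : ∑ u ∈ U, nf (G (e i)) (low (G (e j)) θ) u ^ (p + 1) *
      nf (G (e i)) (low (G (e l)) θ) u ^ (p + 2) < 1 := by
    have h1 := sum_le_sum hpt
    rw [sum_add_distrib, sum_add_distrib, ← mul_sum, ← mul_sum] at h1
    have h2 : ∑ u ∈ U, ∑ m, ta G e θ m u ^ (p + 2) ≤ ∑ u, ∑ m, ta G e θ m u ^ (p + 2) :=
      sum_le_sum_of_subset_of_nonneg (subset_univ _)
        (fun u _ _ => sum_nonneg fun m _ => pow_nonneg (hta m u).1 _)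
    have h3 : ∑ u ∈ U, df u ≤ ∑ u, df u :=
      sum_le_sum_of_subset_of_nonneg (subset_univ _) (fun u _ _ => hdf0 u)
    have h4 := hE.tsm
    have h5 : (2 : ℝ) ^ (p + 2) * ∑ u ∈ U, ∑ m, ta G e θ m u ^ (p + 2) ≤ 2 ^ (p + 2) * ε :=
      mul_le_mul_of_nonneg_left (h2.trans h4) (by positivity)
    have h6 : (2 : ℝ) ^ (p + 2) * ∑ u ∈ U, df u ≤ 2 ^ (p + 2) * (2 * ε) :=
      mul_le_mul_of_nonneg_left (h3.trans hdfs) (by positivity)
    linarith
  obtain ⟨f, g, hdom⟩ := OUM_choice (p + 1) (p + 2) (G (e i)) _ _ U (hne1 j) (hne1 l) htot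
  have hmd : ∀ v, ∃ w, (G (e i)).Adj v w := fun v => hE.sit.fac.minDeg (e i) v
  set D : Finset (Fin n) := insert w (univ.image f ∪ univ.image g) with hDdef
  have hle : gammaT (G (e i)) ≤ D.card +
      (univ.filter (fun u => ∀ a ∈ D, ¬ (G (e i)).Adj u a)).card := by
    convert gammaT_le_add (G := G (e i)) hmd D
  have hD : D.card ≤ 2 * (p + 2) := by
    have h1 : D.card ≤ (univ.image f ∪ univ.image g).card + 1 := card_insert_le _ _
    have h2 := card_union_le (univ.image f) (univ.image g)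
    have h3 : (univ.image f).card ≤ p + 1 := by
      refine card_image_le.trans ?_
      simp
    have h4 : (univ.image g).card ≤ p + 2 := by
      refine card_image_le.trans ?_
      simp
    omega
  have hsub : (univ.filter (fun u => ∀ a ∈ D, ¬ (G (e i)).Adj u a)) ⊆
      (univ.filter (fun u => t u = i)).erase v := by
    intro u hu
    have hu' := (mem_filter.1 hu).2
    have b1 := hu' w (mem_insert_self _ _)
    rw [mem_erase]
    refine ⟨?_, mem_filter.2 ⟨mem_univ _, ?_⟩⟩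
    · rintro rfl; exact b1 hvw
    · by_contra hti
      rcases hdom u (mem_filter.2 ⟨mem_univ _, hti, b1⟩) with ⟨x, h⟩ | ⟨x, h⟩
      · exact hu' (f x) (mem_insert_of_mem (mem_union_left _ (mem_image_of_mem f (mem_univ x)))) h
      · exact hu' (g x) (mem_insert_of_mem (mem_union_right _ (mem_image_of_mem g (mem_univ x)))) h
  have hc1 := card_le_card hsub
  have hvi : v ∈ univ.filter (fun u => t u = i) := mem_filter.2 ⟨mem_univ _, hv⟩
  rw [card_erase_of_mem hvi] at hc1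
  have hpos : 0 < (univ.filter (fun u => t u = i)).card := card_pos.2 ⟨v, hvi⟩
  rw [hgam] at hle
  omega

end Pool.Agent.Work.MP_1ce445_fx
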