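import Pool.Agent.Work.MP_1ce445_fx.InterfaceQ
import Pool.Agent.Work.MP_1ce445_fx.OUM

/-! Block BAQ (helper11). -/

namespace Pool.Agent.Work.MP_1ce445_fx

open Finset Pool.Agent.Work.MP_1ce445_co_56 Pool.Agent.Work.MP_1ce445_lin

theorem stmt_BAQ : Stmt_TAU → Stmt_XCQ → Stmt_YXQ → Stmt_BAQ := by
  classical
  intro hTAU hXCA hYXU m n k G e θ ε t hE hT i l v w hv hne hvw hli hlj
  by_contra hbad
  rw [not_lt] at hbad
  obtain ⟨hA, hta⟩ := hTAU n k G e θ hE.sit
  obtain ⟨hgam, -⟩ := hXCA m n k G e θ ε t hE hT i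
  have hn : (0 : ℝ) < n := by exact_mod_cast hE.sit.pos
  have hep := hE.ep
  obtain ⟨p, rfl⟩ : ∃ p, m = p + 2 := ⟨m - 2, by have := hE.m2; omega⟩
  have h2p : (1 : ℝ) ≤ 2 ^ p := one_le_pow₀ (by norm_num)
  have hep' : 2 ^ (p + 2) * ε ≤ 1 / 1000 := by
    have h1 := hE.ep'
    have h2 : (2 : ℝ) ^ (p + 2) ≤ 100 ^ (p + 2) := pow_le_pow_left₀ (by norm_num) (by norm_num) _
    have h3 : 2 ^ (p + 2) * ε ≤ 100 ^ (p + 2) * ε := mul_le_mul_of_nonneg_right h2 hep.le
    linarith
  have hep'' : ε ≤ 1 / 1000 := by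
    have h1 : ε ≤ 2 ^ (p + 2) * ε := le_mul_of_one_le_left hep.le (by
      have : (1 : ℝ) ≤ 2 ^ (p + 2) := one_le_pow₀ (by norm_num)
      exact this)
    linarith
  have hsmall := hE.sm1
  have hp1 : p + 2 - 1 = p + 1 := by omega
  rw [hp1] at hbad
  set κ : ℝ := (10 + 25 * (k : ℝ)) / n with hκ
  have hκ0 : 0 ≤ κ := by positivity
  set j : Fin 3 := t w with hj
  have hji : j ≠ i := hne
  have hne1 : ∀ m, (low (G (e m)) θ).Nonempty := by
    intro m
    have h1 := hE.sit.big m
    rw [← card_pos]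
    have : (0 : ℝ) < ((low (G (e m)) θ).card : ℝ) := lt_of_lt_of_le (by positivity) h1
    exact_mod_cast this
  -- the types of the vertices of the low sets
  have htyp : ∀ m u, t u = m → u ∈ low (G (e m)) θ := fun m u hu =>
    (hYXU (p + 2) n k G e θ ε t hE hT u m).1 hu
  -- the set to be dominated
  set U : Finset (Fin n) := univ.filter (fun u => t u ≠ i ∧ ¬ (G (e i)).Adj u w) with hU
  set df : Fin n → ℝ := fun u =>
    (1 - A G e θ (t u) (t u + 1) u) + (1 - A G e θ (t u) (t u + 2) u) with hdf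
  have hdf0 : ∀ u, 0 ≤ df u := by
    intro u
    have h2 := hA (t u) (t u + 1) u
    have h3 := hA (t u) (t u + 2) u
    simp only [hdf]; linarith
  have hdfs : ∑ u, df u ≤ 2 * ε := hT.2
  have hpt : ∀ u ∈ U, nf (G (e i)) (low (G (e j)) θ) u ^ (p + 1) *
      nf (G (e i)) (low (G (e l)) θ) u ^ (p + 2) ≤
      2 ^ (p + 2) * (∑ m, ta G e θ m u ^ (p + 2)) + 2 ^ (p + 2) * df u +
        (if t u = l then 2 ^ (p + 1) * ta G e θ j u ^ (p + 1) else 0) := by
    intro u hu
    have hu' := (mem_filter.1 hu).2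
    change A G e θ i j u ^ (p + 1) * A G e θ i l u ^ (p + 2) ≤ _
    have a1 := hA i j u
    have a2 := hA i l u
    have hsq : ∀ m, ta G e θ m u ^ (p + 2) ≤ ∑ m, ta G e θ m u ^ (p + 2) := fun m =>
      single_le_sum (f := fun m => ta G e θ m u ^ (p + 2))
        (fun m _ => pow_nonneg (hta m u).1 _) (mem_univ m)
    have hsq0 : 0 ≤ ∑ m, ta G e θ m u ^ (p + 2) := sum_nonneg fun m _ => pow_nonneg (hta m u).1 _
    rcases OUT_idx4 i j l (t u) hji hli hlj hu'.1 with h | h
    · -- t u = j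
      have hl : ¬ (t u = l) := by rw [h]; exact Ne.symm hlj
      rw [if_neg hl]
      have h1 := OUT_sum (G := G) (e := e) (θ := θ) i j l (Ne.symm hji) (Ne.symm hli)
        (Ne.symm hlj) u
      obtain ⟨d0, d1, d2⟩ := OUT_def hA hT u l (Ne.symm hl)
      rw [h] at d0 d1
      have d2' : 1 - A G e θ j l u ≤ df u := by
        simp only [hdf]; rw [h] at d2 ⊢; exact d2
      have h0 := (hta l u).1
      have h3 : A G e θ i l u = ta G e θ l u + (1 - A G e θ j l u) := by linarith
      have h4 : A G e θ i l u ^ (p + 2) ≤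
          2 ^ (p + 1) * (ta G e θ l u ^ (p + 2) + (1 - A G e θ j l u) ^ (p + 2)) := by
        rw [h3]
        exact add_pow_le h0 d0 (p + 2)
      have h5 : (1 - A G e θ j l u) ^ (p + 2) ≤ df u := by
        refine le_trans (pow_le_of_le_one d0 (by linarith) (by omega)) d2'
      have h6 : A G e θ i j u ^ (p + 1) * A G e θ i l u ^ (p + 2) ≤ A G e θ i l u ^ (p + 2) :=
        mul_le_of_le_one_left (pow_nonneg a2.1 _) (pow_le_one₀ a1.1 a1.2)
      have h7 := hsq l
      have h8 : (2 : ℝ) ^ (p + 1) * (ta G e θ l u ^ (p + 2) + (1 - A G e θ j l u) ^ (p + 2)) ≤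
          2 ^ (p + 2) * (∑ m, ta G e θ m u ^ (p + 2) + df u) := by
        refine mul_le_mul ?_ (add_le_add h7 h5) (by positivity) (by positivity)
        exact pow_le_pow_right₀ (by norm_num) (by omega)
      rw [mul_add] at h8
      linarith
    · -- t u = l
      rw [if_pos h]
      have h1 := OUT_sum (G := G) (e := e) (θ := θ) i l j (Ne.symm hli) (Ne.symm hji)
        hlj u
      obtain ⟨d0, d1, d2⟩ := OUT_def hA hT u j (by rw [h]; exact Ne.symm hlj)
      rw [h] at d0 d1
      have d2' : 1 - A G e θ l j u ≤ df u := by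
        simp only [hdf]; rw [h] at d2 ⊢; exact d2
      have h0 := (hta j u).1
      have h3 : A G e θ i j u = ta G e θ j u + (1 - A G e θ l j u) := by linarith
      have h4 : A G e θ i j u ^ (p + 1) ≤
          2 ^ p * (ta G e θ j u ^ (p + 1) + (1 - A G e θ l j u) ^ (p + 1)) := by
        rw [h3]
        exact add_pow_le h0 d0 (p + 1)
      have h5 : (1 - A G e θ l j u) ^ (p + 1) ≤ df u := by
        refine le_trans (pow_le_of_le_one d0 (by linarith) (by omega)) d2'
      have h6 : A G e θ i j u ^ (p + 1) * A G e θ i l u ^ (p + 2) ≤ A G e θ i j u ^ (p + 1) :=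
        mul_le_of_le_one_right (pow_nonneg a1.1 _) (pow_le_one₀ a2.1 a2.2)
      have h10 : (0 : ℝ) ≤ ta G e θ j u ^ (p + 1) := pow_nonneg h0 _
      have h8 : (2 : ℝ) ^ p * (ta G e θ j u ^ (p + 1) + (1 - A G e θ l j u) ^ (p + 1)) ≤
          2 ^ (p + 1) * (ta G e θ j u ^ (p + 1) + df u) := by
        refine mul_le_mul ?_ (by linarith) (add_nonneg h10 (pow_nonneg d0 _))
          (pow_nonneg (by norm_num) _)
        exact pow_le_pow_right₀ (by norm_num) (by omega)
      rw [mul_add] at h8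
      have h11 : (2 : ℝ) ^ (p + 1) * df u ≤ 2 ^ (p + 2) * df u :=
        mul_le_mul_of_nonneg_right (pow_le_pow_right₀ (by norm_num) (by omega)) (hdf0 u)
      have h9 : (0 : ℝ) ≤ 2 ^ (p + 2) * ∑ m, ta G e θ m u ^ (p + 2) :=
        mul_nonneg (pow_nonneg (by norm_num) _) hsq0
      linarith
  -- the number of the vertices of type `l` in `U`
  have hb1 : (1 - A G e θ j l w) * ((low (G (e l)) θ).card : ℝ) ≤ ((bad G e t l w).card : ℝ) := by
    have h1 : (0 : ℝ) < ((low (G (e l)) θ).card : ℝ) := by exact_mod_cast (hne1 l).card_pos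
    have h2 : (1 - A G e θ j l w) * ((low (G (e l)) θ).card : ℝ) =
        (dg (G (e j)) (low (G (e l)) θ) w : ℝ) := by
      unfold A nf
      field_simp
      ring
    rw [h2]
    have h3 : dg (G (e j)) (low (G (e l)) θ) w ≤ (bad G e t l w).card := by
      unfold dg bad
      refine card_le_card ?_
      intro u hu
      rw [mem_filter] at hu ⊢
      exact ⟨mem_univ _, (hYXU (p + 2) n k G e θ ε t hE hT u l).2 hu.1, hu.2⟩
    exact_mod_cast h3
  have hcard : ((U.filter (fun u => t u = l)).card : ℝ) ≤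
      κ * n + ((bad G e t l w).card : ℝ) := by
    have hsub : U.filter (fun u => t u = l) ⊆
        (low (G (e l)) θ).filter (fun u => ¬ (G (e i)).Adj w u) := by
      intro u hu
      rw [mem_filter] at hu
      obtain ⟨hu1, hu2⟩ := hu
      have hu3 := (mem_filter.1 hu1).2
      exact mem_filter.2 ⟨htyp l u hu2, fun h => hu3.2 h.symm⟩
    have h2 : ((U.filter (fun u => t u = l)).card : ℝ) ≤
        (((low (G (e l)) θ).filter (fun u => ¬ (G (e i)).Adj w u)).card : ℝ) := by
      exact_mod_cast card_le_card hsub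
    have h3 := OUT_nf (G (e i)) (low (G (e l)) θ) (hne1 l) w
    have h5 : ((low (G (e l)) θ).card : ℝ) ≤ n := by
      have : (low (G (e l)) θ).card ≤ n := by
        simpa using card_le_univ (low (G (e l)) θ)
      exact_mod_cast this
    have h6 := OUT_sum (G := G) (e := e) (θ := θ) i j l (Ne.symm hji) (Ne.symm hli)
        (Ne.symm hlj) w
    have h7 : nf (G (e i)) (low (G (e l)) θ) w = ta G e θ l w + (1 - A G e θ j l w) := by
      change A G e θ i l w = _
      linarith
    rw [h7] at h3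
    have h8 : ((low (G (e l)) θ).card : ℝ) * ta G e θ l w ≤ n * κ :=
      mul_le_mul h5 (hE.tau l w) (hta l w).1 hn.le
    rw [h3] at h2
    nlinarith
  have hthird : ∑ u ∈ U, (if t u = l then 2 ^ (p + 1) * ta G e θ j u ^ (p + 1) else 0) ≤
      1 / 32 + 1 / 2 := by
    rw [← sum_filter]
    have h1 : ∑ u ∈ U.filter (fun u => t u = l), 2 ^ (p + 1) * ta G e θ j u ^ (p + 1) ≤
        ∑ _u ∈ U.filter (fun u => t u = l), 2 ^ (p + 1) * κ ^ (p + 1) :=
      sum_le_sum fun u _ => mul_le_mul_of_nonneg_left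
        (pow_le_pow_left₀ (hta j u).1 (hE.tau j u) _) (by positivity)
    rw [sum_const, nsmul_eq_mul] at h1
    have h2 : (0 : ℝ) ≤ 2 ^ (p + 1) * κ ^ (p + 1) := by positivity
    have h3 : ((U.filter (fun u => t u = l)).card : ℝ) * (2 ^ (p + 1) * κ ^ (p + 1)) ≤
        (κ * n + ((bad G e t l w).card : ℝ)) * (2 ^ (p + 1) * κ ^ (p + 1)) :=
      mul_le_mul_of_nonneg_right hcard h2
    have h4 : (κ * n + ((bad G e t l w).card : ℝ)) * (2 ^ (p + 1) * κ ^ (p + 1)) =
        (2 ^ (p + 2) * 16 * n * κ ^ (p + 2)) / 32 +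
          (2 ^ (p + 2) * κ ^ (p + 1) * ((bad G e t l w).card : ℝ)) / 2 := by
      ring
    linarith
  have htot : ∑ u ∈ U, nf (G (e i)) (low (G (e j)) θ) u ^ (p + 1) *
      nf (G (e i)) (low (G (e l)) θ) u ^ (p + 2) < 1 := by
    have h1 := sum_le_sum hpt
    rw [sum_add_distrib, sum_add_distrib, ← mul_sum, ← mul_sum] at h1
    have h2 : ∑ u ∈ U, ∑ m, ta G e θ m u ^ (p + 2) ≤ ∑ u, ∑ m, ta G e θ m u ^ (p + 2) :=
      sum_le_sum_of_subset_of_nonneg (subset_univ _)
        (fun u _ _ => sum_nonneg fun m _ => pow_nonneg (hta m u).1 _)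
    have h3 : ∑ u ∈ U, df u ≤ ∑ u, df u :=
      sum_le_sum_of_subset_of_nonneg (subset_univ _) (fun u _ _ => hdf0 u)
    have h4 := hE.tsm
    have h5 : (2 : ℝ) ^ (p + 2) * ∑ u ∈ U, ∑ m, ta G e θ m u ^ (p + 2) ≤ 2 ^ (p + 2) * ε :=
      mul_le_mul_of_nonneg_left (h2.trans h4) (by positivity)
    have h6 : (2 : ℝ) ^ (p + 2) * ∑ u ∈ U, df u ≤ 2 ^ (p + 2) * (2 * ε) :=
      mul_le_mul_of_nonneg_left (h3.trans hdfs) (by positivity)
    linarith
  obtain ⟨f, g, hdom⟩ := OUM_choice (p + 1) (p + 2) (G (e i)) _ _ U (hne1 j) (hne1 l) htot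
  have hmd : ∀ v, ∃ w, (G (e i)).Adj v w := fun v => hE.sit.fac.minDeg (e i) v
  set D : Finset (Fin n) := insert w (univ.image f ∪ univ.image g) with hDdef
  have hle : gammaT (G (e i)) ≤ D.card +
      (univ.filter (fun u => ∀ a ∈ D, ¬ (G (e i)).Adj u a)).card := by
    convert gammaT_le_add (G := G (e i)) hmd D
  have hD : D.card ≤ 2 * (p + 2) := by
    have h1 : D.card ≤ (univ.image f ∪ univ.image g).card + 1 := card_insert_le _ _
    have h2 := card_union_le (univ.image f) (univ.image g)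
    have h3 : (univ.image f).card ≤ p + 1 := by
      refine card_image_le.trans ?_
      simp
    have h4 : (univ.image g).card ≤ p + 2 := by
      refine card_image_le.trans ?_
      simp
    omega
  have hsub : (univ.filter (fun u => ∀ a ∈ D, ¬ (G (e i)).Adj u a)) ⊆
      (univ.filter (fun u => t u = i)).erase v := by
    intro u hu
    have hu' := (mem_filter.1 hu).2
    have b1 := hu' w (mem_insert_self _ _)
    rw [mem_erase]
    refine ⟨?_, mem_filter.2 ⟨mem_univ _, ?_⟩⟩
    · rintro rfl; exact b1 hvw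
    · by_contra hti
      rcases hdom u (mem_filter.2 ⟨mem_univ _, hti, b1⟩) with ⟨x, h⟩ | ⟨x, h⟩
      · exact hu' (f x) (mem_insert_of_mem (mem_union_left _ (mem_image_of_mem f (mem_univ x)))) h
      · exact hu' (g x) (mem_insert_of_mem (mem_union_right _ (mem_image_of_mem g (mem_univ x)))) h
  have hc1 := card_le_card hsub
  have hvi : v ∈ univ.filter (fun u => t u = i) := mem_filter.2 ⟨mem_univ _, hv⟩
  rw [card_erase_of_mem hvi] at hc1
  have hpos : 0 < (univ.filter (fun u => t u = i)).card := card_pos.2 ⟨v, hvi⟩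
  rw [hgam] at hle
  omega

end Pool.Agent.Work.MP_1ce445_fx
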