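import Pool.Agent.Work.MP_1ce445_fx.InterfaceT

/-! MP_1ce445_co, staircase, sixth phase, block BLT (helper83). -/

namespace Pool.Agent.Work.MP_1ce445_fx

open Finset Pool.Agent.Work.MP_1ce445_co_56 Pool.Agent.Work.MP_1ce445_lin

/-- the two mean values over the class `X` together are at least `36/35` -/
lemma BLT_mean {α : Type*} (X : Finset α) (a b : α → ℕ) (hX : 0 < X.card)
    (h : ∀ x ∈ X, a x + b x ≤ 11) :
    (36 : ℝ) / 35 ≤ (∑ x ∈ X, (29 - 2 * (a x : ℝ)) / 35) / (X.card : ℝ) +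
      (∑ x ∈ X, (29 - 2 * (b x : ℝ)) / 35) / (X.card : ℝ) := by
  have hc : (0 : ℝ) < (X.card : ℝ) := by exact_mod_cast hX
  rw [← add_div, le_div_iff₀ hc, ← Finset.sum_add_distrib]
  have h1 : ∑ x ∈ X, ((36 : ℝ) / 35) ≤
      ∑ x ∈ X, ((29 - 2 * (a x : ℝ)) / 35 + (29 - 2 * (b x : ℝ)) / 35) := by
    refine Finset.sum_le_sum fun x hx => ?_
    have h2 : ((a x : ℝ) + (b x : ℝ)) ≤ 11 := by exact_mod_cast h x hx
    linarith
  rw [Finset.sum_const, nsmul_eq_mul] at h1
  linarith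

theorem stmt_BLT (hEQT : Stmt_EQT) (hSTX : Stmt_STX) (hWCN : Stmt_WCN) (hWPR : Stmt_WPR) :
    Stmt_BLT := by
  obtain ⟨n0, hn0⟩ := hEQT
  refine ⟨max n0 2000000001, fun n k hn hev hk3 hk14 => ?_⟩
  by_contra hcon
  have hle : NN n ^ (k - 3) * TT (n / 2) ≤ P n k := not_lt.1 hcon
  have hnn : n0 ≤ n := le_trans (le_max_left _ _) hn
  have hn2 : 2000000001 ≤ n := le_trans (le_max_right _ _) hn
  obtain ⟨G, e, θ, ε, hE, hs, hg⟩ := hn0 n k hnn hev hk3 hk14 hle
  obtain ⟨t, ht⟩ := hSTX n k G e θ ε hev hE hs hg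
  have hn1000 : 1000 ≤ n := by omega
  have hpos : ∀ i : Fin 3, 0 < (univ.filter (fun x => t x = i)).card := by
    intro i
    have := ht.big i
    omega
  have hw : ∀ x, (wn G e t 0 x).card + (wn G e t 1 x).card + (wn G e t 2 x).card ≤ 11 := by
    intro x
    have h1 := hWCN n k G e t ht x
    rw [Fin.sum_univ_three] at h1
    omega
  have w0 := hWPR n k G e t ht hk14 hn1000 1 0 2 (by decide) (by decide) (by decide)
  have w1 := hWPR n k G e t ht hk14 hn1000 2 1 0 (by decide) (by decide) (by decide)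
  have w2 := hWPR n k G e t ht hk14 hn1000 0 2 1 (by decide) (by decide) (by decide)
  have m0 := BLT_mean (univ.filter (fun x => t x = 0)) (fun x => (wn G e t 1 x).card)
    (fun x => (wn G e t 2 x).card) (hpos 0) (fun x _ => by have := hw x; omega)
  have m1 := BLT_mean (univ.filter (fun x => t x = 1)) (fun x => (wn G e t 0 x).card)
    (fun x => (wn G e t 2 x).card) (hpos 1) (fun x _ => by have := hw x; omega)
  have m2 := BLT_mean (univ.filter (fun x => t x = 2)) (fun x => (wn G e t 0 x).card)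
    (fun x => (wn G e t 1 x).card) (hpos 2) (fun x _ => by have := hw x; omega)
  have hnR : (2000000001 : ℝ) ≤ (n : ℝ) := by exact_mod_cast hn2
  have hq : (30000000 : ℝ) / n ≤ 30000000 / 2000000001 :=
    div_le_div_of_nonneg_left (by norm_num) (by norm_num) hnR
  have hq2 : (30000000 : ℝ) / 2000000001 < 1 / 60 := by norm_num
  linarith

end Pool.Agent.Work.MP_1ce445_fx
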