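import Pool.Agent.Work.MP_1ce445_fx.InterfaceL

/-!
Block CN1 of THEOREM FixedK for MP_1ce445_co: the construction is a factorization.
-/

namespace Pool.Agent.Work.MP_1ce445_fx

open Finset Pool.Agent.Work.MP_1ce445_co_56 Pool.Agent.Work.MP_1ce445_lin

section CN1

variable {q : ℕ} {c : ZMod q → Fin 3} {p : ZMod q → Fin 30} {B : Fin 30 → Fin 30 → Bool} {k : ℕ}

lemma CN1_crule_symm (hB : Mat B) (x y : ZMod q) : crule c p B x y = crule c p B y x := by
  unfold crule
  by_cases h : c x = c y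
  · rw [if_pos h, if_pos h.symm, hB.sym (p x) (p y), h]
  · rw [if_neg h, if_neg (Ne.symm h), add_comm]

lemma CN1_vcol_symm (hB : Mat B) (u v : ZMod q × Bool) :
    vcol c p B k u v = vcol c p B k v u := by
  obtain ⟨x, a⟩ := u
  obtain ⟨y, b⟩ := v
  cases a <;> cases b <;> simp [vcol, CN1_crule_symm hB x y]

lemma CN1_vcol_lt (hk : 28 ≤ k) (u v : ZMod q × Bool) : vcol c p B k u v < k := by
  have h3 : ∀ a : Fin 3, a.val < k := fun a => by have := a.isLt; omega
  have hc : ∀ x y, cross c p B k x y < k := by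
    intro x y
    unfold cross
    split_ifs with h1 h2
    · exact h3 _
    · omega
    · exact h3 _
  unfold vcol
  split_ifs
  · exact h3 _
  · exact hc _ _
  · exact hc _ _

/-- adjacency in the factors -/
lemma CN1_adj (hB : Mat B) (i : Fin k) (u v : ZMod q × Bool) :
    (GG c p B k i).Adj u v ↔ u ≠ v ∧ vcol c p B k u v = i.val := by
  unfold GG
  rw [SimpleGraph.fromRel_adj, CN1_vcol_symm hB v u, or_self]

lemma CN1_third : ∀ a b : Fin 3, a ≠ b → a ≠ -(b + a) ∧ -(a + -(b + a)) = b := by decide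

lemma CN1_min [NeZero q] (hL : Lay q c p) (hB : Mat B) (hk : 28 ≤ k) (hq : k ≤ q) (i : Fin k)
    (v : ZMod q × Bool) : ∃ w, (GG c p B k i).Adj v w := by
  obtain ⟨x, b⟩ := v
  have hi := i.isLt
  by_cases h3 : i.val < 3
  · by_cases hcx : (c x).val = i.val
    · refine ⟨(x, !b), (CN1_adj hB i _ _).2 ⟨?_, ?_⟩⟩
      · cases b <;> simp
      · cases b <;> simp [vcol, cross, hcx]
    · obtain ⟨y, hy, -⟩ := hL.all (-((⟨i.val, h3⟩ : Fin 3) + c x)) 0
      have hne : c x ≠ ⟨i.val, h3⟩ := fun h => hcx (by rw [h])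
      obtain ⟨h1, h2⟩ := CN1_third (c x) ⟨i.val, h3⟩ hne
      rw [← hy] at h1 h2
      refine ⟨(y, b), (CN1_adj hB i _ _).2 ⟨?_, ?_⟩⟩
      · intro h
        have : x = y := congrArg Prod.fst h
        exact h1 (by rw [this])
      · simp only [vcol, crule, if_true, if_neg h1, h2]
  · have hd : i.val - 2 < q := by omega
    have hval : ((i.val - 2 : ℕ) : ZMod q).val = i.val - 2 := ZMod.val_natCast_of_lt hd
    have hne : ((i.val - 2 : ℕ) : ZMod q) ≠ 0 := by
      intro h
      rw [h, ZMod.val_zero] at hval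
      omega
    have hle : i.val - 2 + 3 ≤ k := by omega
    have h2 : i.val - 2 + 2 = i.val := by omega
    cases b
    · refine ⟨(x + ((i.val - 2 : ℕ) : ZMod q), true), (CN1_adj hB i _ _).2 ⟨by simp, ?_⟩⟩
      have hx : x ≠ x + ((i.val - 2 : ℕ) : ZMod q) := by
        intro h
        exact hne (by simpa using h.symm)
      simp only [vcol, cross, if_neg hx, add_sub_cancel_left, hval, if_pos hle, h2]
      simp
    · refine ⟨(x - ((i.val - 2 : ℕ) : ZMod q), false), (CN1_adj hB i _ _).2 ⟨by simp, ?_⟩⟩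
      have hx : x - ((i.val - 2 : ℕ) : ZMod q) ≠ x := by
        intro h
        exact hne (by simpa using h)
      simp only [vcol, cross, if_neg hx, sub_sub_cancel, hval, if_pos hle, h2]
      simp

end CN1

theorem stmt_CN1 : Stmt_CN1 := by
  intro q k _ c p B hL hB hk hq
  refine IsFactorization.of_adj ?_ ?_ (CN1_min hL hB hk hq)
  · intro i j v w h1 h2
    rw [CN1_adj hB] at h1 h2
    exact Fin.ext (h1.2.symm.trans h2.2)
  · intro v w hvw
    exact ⟨⟨_, CN1_vcol_lt hk v w⟩, (CN1_adj hB _ v w).2 ⟨hvw, rfl⟩⟩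

end Pool.Agent.Work.MP_1ce445_fx
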