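import Pool.Agent.Work.MP_1ce445_fx.InterfaceL

/-!
Block CN2: the total domination number of the colours `i ≥ 3`.
-/

namespace Pool.Agent.Work.MP_1ce445_fx

open Finset Pool.Agent.Work.MP_1ce445_co_56 Pool.Agent.Work.MP_1ce445_lin

theorem CN2_cross {q : ℕ} [NeZero q] (c : ZMod q → Fin 3) (p : ZMod q → Fin 30)
    (B : Fin 30 → Fin 30 → Bool) (k i : ℕ) (hi : 3 ≤ i) (x y : ZMod q)
    (h : cross c p B k x y = i) : y = x + ((i - 2 : ℕ) : ZMod q) := by
  unfold cross at h
  split_ifs at h with h1 h2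
  · have := (c x).isLt
    omega
  · have h3 : (y - x).val = i - 2 := by omega
    have h4 : ((y - x).val : ZMod q) = y - x := ZMod.natCast_zmod_val _
    rw [h3] at h4
    rw [h4]
    ring
  · have := (crule c p B x y).isLt
    omega

/-- the only neighbour of a vertex -/
def CN2_g {q : ℕ} (i : ℕ) (u : ZMod q × Bool) : ZMod q × Bool :=
  if u.2 = false then (u.1 + ((i - 2 : ℕ) : ZMod q), true)
  else (u.1 - ((i - 2 : ℕ) : ZMod q), false)

theorem CN2_inj {q : ℕ} (i : ℕ) : Function.Injective (CN2_g (q := q) i) := by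
  rintro ⟨x, a⟩ ⟨y, b⟩ h
  unfold CN2_g at h
  cases a <;> cases b <;> simp_all

theorem CN2_vcol {q : ℕ} [NeZero q] (c : ZMod q → Fin 3) (p : ZMod q → Fin 30)
    (B : Fin 30 → Fin 30 → Bool) (k i : ℕ) (hi : 3 ≤ i) (u v : ZMod q × Bool)
    (h : vcol c p B k u v = i) : v = CN2_g i u ∧ u = CN2_g i v := by
  obtain ⟨x, a⟩ := u
  obtain ⟨y, b⟩ := v
  unfold vcol at h
  cases a <;> cases b <;> simp only [reduceCtorEq, if_true, if_false] at h
  · have := (crule c p B x y).isLt
    omega
  · have h1 := CN2_cross c p B k i hi x y h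
    unfold CN2_g
    simp [h1]
  · have h1 := CN2_cross c p B k i hi y x h
    unfold CN2_g
    simp [h1]
  · have := (crule c p B x y).isLt
    omega

theorem stmt_CN2 : Stmt_CN1 → Stmt_CN2 := by
  intro hCN1 q k _ c p B hL hM hk hkq i hi
  have hF := hCN1 q k c p B hL hM hk hkq
  have h1 := card_le_gammaT (G := GG c p B k i) (hF.minDeg i) (id : ZMod q × Bool → ZMod q × Bool)
    (CN2_g i.val) (CN2_inj i.val) (by
      intro u w h
      unfold GG at h
      rw [SimpleGraph.fromRel_adj] at h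
      rcases h.2 with h2 | h2
      · exact (CN2_vcol c p B k i.val hi u w h2).1
      · exact (CN2_vcol c p B k i.val hi w u h2).2)
  rw [Fintype.card_prod, ZMod.card, Fintype.card_bool] at h1
  omega

end Pool.Agent.Work.MP_1ce445_fx
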