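import Pool.Agent.Work.MP_1ce445_fx.InterfaceL

/-!
MP_1ce445_co, block CN3 of MP_1ce445_fx: the total domination numbers of the three special colours.
-/

namespace Pool.Agent.Work.MP_1ce445_fx

open Finset Pool.Agent.Work.MP_1ce445_co_56 Pool.Agent.Work.MP_1ce445_lin

theorem CN3_f1 : ∀ a : Fin 3, a + 1 ≠ a := by decide

theorem CN3_f2 : ∀ a : Fin 3, a + 2 ≠ a := by decide

theorem CN3_f3 : ∀ a b : Fin 3, a ≠ b → -(a + b) ≠ a ∧ -(a + b) ≠ b := by decide

theorem CN3_f4 : ∀ a J j l : Fin 3, j ≠ J → l ≠ J → j ≠ l → a = J ∨ a = j ∨ a = l := by decide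

theorem CN3_f5 : ∀ j J : Fin 3, j ≠ J → ∃ s : Bool, (if s = true then j + 1 else j + 2) ≠ J := by
  decide

theorem CN3_f6 : ∀ J : Fin 3, J + 1 ≠ J + 2 := by decide

section CN3

variable {q : ℕ} (c : ZMod q → Fin 3) (p : ZMod q → Fin 30) (B : Fin 30 → Fin 30 → Bool)

theorem CN3_crsymm (hB : Mat B) (x y : ZMod q) : crule c p B x y = crule c p B y x := by
  unfold crule
  by_cases h : c x = c y
  · rw [if_pos h, if_pos h.symm, hB.sym (p x) (p y), h]
  · rw [if_neg h, if_neg (Ne.symm h), add_comm]

theorem CN3_vsymm (hB : Mat B) (k : ℕ) (u v : ZMod q × Bool) :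
    vcol c p B k u v = vcol c p B k v u := by
  rcases u with ⟨x, a⟩
  rcases v with ⟨y, b⟩
  unfold vcol
  cases a <;> cases b <;> simp [CN3_crsymm c p B hB x y]

theorem CN3_adj (hB : Mat B) {k : ℕ} {i : Fin k} {u v : ZMod q × Bool}
    (h : (GG c p B k i).Adj u v) : vcol c p B k u v = i.val := by
  unfold GG at h
  rw [SimpleGraph.fromRel_adj] at h
  rcases h.2 with h1 | h1
  · exact h1
  · rw [CN3_vsymm c p B hB]
    exact h1

theorem CN3_cr1 (J : Fin 3) (x y : ZMod q) (h : c x = J ∨ c y = J) : crule c p B x y ≠ J := by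
  unfold crule
  split_ifs with h1 h2
  · have hx : c x = J := by
      rcases h with h | h
      · exact h
      · exact h1.trans h
    rw [hx]
    exact CN3_f1 J
  · have hx : c x = J := by
      rcases h with h | h
      · exact h
      · exact h1.trans h
    rw [hx]
    exact CN3_f2 J
  · rcases h with h | h
    · have := (CN3_f3 _ _ h1).1
      rw [h] at this
      rw [h]
      exact this
    · have := (CN3_f3 _ _ h1).2
      rw [h] at this
      rw [h]
      exact this

theorem CN3_cross {k : ℕ} (J : Fin 3) (x y : ZMod q) (h0 : x ≠ y)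
    (h : crule c p B x y ≠ J) : cross c p B k x y ≠ J.val := by
  unfold cross
  rw [if_neg h0]
  split_ifs with h1
  · have h2 : (y - x).val ≠ 0 := by
      intro h2
      rw [ZMod.val_eq_zero] at h2
      exact h0 (sub_eq_zero.mp h2).symm
    have := J.isLt
    omega
  · intro h2
    exact h (Fin.ext h2)

theorem CN3_close {k : ℕ} (J : Fin 3) (x y : ZMod q) (d : ℕ) (hd : (y - x).val = d)
    (h1 : 1 ≤ d) (h2 : d + 3 ≤ k) : cross c p B k x y ≠ J.val := by
  have h0 : x ≠ y := by
    intro h
    rw [h, sub_self, ZMod.val_zero] at hd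
    omega
  unfold cross
  rw [if_neg h0, hd, if_pos h2]
  have := J.isLt
  omega

theorem CN3_v {k : ℕ} (J : Fin 3) (u v : ZMod q × Bool)
    (h1 : crule c p B u.1 v.1 ≠ J) (h2 : crule c p B v.1 u.1 ≠ J)
    (h3 : u.2 ≠ v.2 → u.1 = v.1 → c u.1 ≠ J) : vcol c p B k u v ≠ J.val := by
  unfold vcol
  split_ifs with h4 h5
  · intro h
    exact h1 (Fin.ext h)
  · by_cases h6 : u.1 = v.1
    · unfold cross
      rw [if_pos h6]
      intro h
      exact h3 h4 h6 (Fin.ext h)
    · exact CN3_cross c p B J _ _ h6 h1
  · by_cases h6 : u.1 = v.1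
    · unfold cross
      rw [if_pos h6.symm]
      intro h
      exact h3 h4 h6 (by rw [h6]; exact Fin.ext h)
    · exact CN3_cross c p B J _ _ (Ne.symm h6) h2

end CN3

theorem CN3_three {α : Type} [Inhabited α] [DecidableEq α] (T : Finset α) (h : T.card ≤ 3) :
    ∃ a b d : α, ∀ w ∈ T, w = a ∨ w = b ∨ w = d := by
  have h4 : T.card = 0 ∨ T.card = 1 ∨ T.card = 2 ∨ T.card = 3 := by omega
  rcases h4 with h | h | h | h
  · rw [Finset.card_eq_zero] at h
    refine ⟨default, default, default, ?_⟩
    intro w hw
    rw [h] at hw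
    exact absurd hw (Finset.notMem_empty w)
  · obtain ⟨a, ha⟩ := Finset.card_eq_one.mp h
    refine ⟨a, a, a, ?_⟩
    intro w hw
    rw [ha, Finset.mem_singleton] at hw
    exact Or.inl hw
  · obtain ⟨a, b, _, ha⟩ := Finset.card_eq_two.mp h
    refine ⟨a, b, b, ?_⟩
    intro w hw
    rw [ha, Finset.mem_insert, Finset.mem_singleton] at hw
    rcases hw with hw | hw
    · exact Or.inl hw
    · exact Or.inr (Or.inl hw)
  · obtain ⟨a, b, d, _, _, _, ha⟩ := Finset.card_eq_three.mp h
    refine ⟨a, b, d, ?_⟩
    intro w hw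
    rw [ha, Finset.mem_insert, Finset.mem_insert, Finset.mem_singleton] at hw
    exact hw

theorem CN3_two {α : Type} [Inhabited α] [DecidableEq α] (T : Finset α) (h : T.card ≤ 2) :
    ∃ a b : α, ∀ w ∈ T, w = a ∨ w = b := by
  have h4 : T.card = 0 ∨ T.card = 1 ∨ T.card = 2 := by omega
  rcases h4 with h | h | h
  · rw [Finset.card_eq_zero] at h
    refine ⟨default, default, ?_⟩
    intro w hw
    rw [h] at hw
    exact absurd hw (Finset.notMem_empty w)
  · obtain ⟨a, ha⟩ := Finset.card_eq_one.mp h
    refine ⟨a, a, ?_⟩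
    intro w hw
    rw [ha, Finset.mem_singleton] at hw
    exact Or.inl hw
  · obtain ⟨a, b, _, ha⟩ := Finset.card_eq_two.mp h
    refine ⟨a, b, ?_⟩
    intro w hw
    rw [ha, Finset.mem_insert, Finset.mem_singleton] at hw
    exact hw

theorem stmt_CN3 : Stmt_CN1 → Stmt_CN3 := by
  intro hCN1 q k _ c p B hL hB hk hq i J hi
  classical
  have hF := hCN1 q k c p B hL hB hk hq
  obtain ⟨S, hS, hSc⟩ := exists_tds (hF.minDeg i)
  set X : Finset (ZMod q × Bool) := univ.filter (fun v => c v.1 = J) with hX
  have hXcard : X.card = 2 * (univ.filter (fun x => c x = J)).card := by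
    have : X = (univ.filter (fun x => c x = J)) ×ˢ (univ : Finset Bool) := by
      ext v
      simp [hX]
    rw [this, Finset.card_product]
    simp [mul_comm]
  have hmemX : ∀ v, v ∈ X ↔ c v.1 = J := by
    intro v
    simp [hX]
  have hXS : X ⊆ S := by
    intro v hv
    rw [hmemX] at hv
    obtain ⟨w, hwS, hw⟩ := hS (v.1, !v.2)
    have hc := CN3_adj c p B hB hw
    rw [hi] at hc
    have hkey : w = v := by
      by_contra hne
      apply CN3_v c p B J (v.1, !v.2) w _ _ _ hc
      · exact CN3_cr1 c p B J _ _ (Or.inl hv)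
      · exact CN3_cr1 c p B J _ _ (Or.inr hv)
      · intro h1 h2
        exfalso
        apply hne
        have h3 : w.2 = v.2 := by
          rcases w with ⟨w1, w2⟩
          rcases v with ⟨v1, v2⟩
          cases w2 <;> cases v2 <;> simp_all
        exact Prod.ext h2.symm h3
    rw [← hkey]
    exact hwS
  by_contra hcon
  set T := S \ X with hT
  have hTc : T.card + X.card = S.card := Finset.card_sdiff_add_card_eq_card hXS
  have hT3 : T.card ≤ 3 := by omega
  have key : ∀ j l : Fin 3, j ≠ J → l ≠ J → j ≠ l →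
      (T.filter (fun w => c w.1 = l)).card ≤ 1 → False := by
    intro j l hjJ hlJ hjl hl1
    obtain ⟨s, hs⟩ := CN3_f5 j J hjJ
    have hno : ∀ v : ZMod q × Bool, c v.1 = j →
        (∀ w ∈ T, c w.1 = j → B (p v.1) (p w.1) = s) →
        (∀ w ∈ T, c w.1 = l → vcol c p B k v w ≠ J.val) → False := by
      intro v hv hw1 hw2
      obtain ⟨w, hwS, hw⟩ := hS v
      have hc := CN3_adj c p B hB hw
      rw [hi] at hc
      by_cases hwJ : c w.1 = J
      · apply CN3_v c p B J v w _ _ _ hc
        · exact CN3_cr1 c p B J _ _ (Or.inr hwJ)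
        · exact CN3_cr1 c p B J _ _ (Or.inl hwJ)
        · intro _ _
          rw [hv]
          exact hjJ
      · have hwT : w ∈ T := by
          rw [hT, Finset.mem_sdiff, hmemX]
          exact ⟨hwS, hwJ⟩
        rcases CN3_f4 (c w.1) J j l hjJ hlJ hjl with h | h | h
        · exact hwJ h
        · have hBs := hw1 w hwT h
          have hcr : crule c p B v.1 w.1 ≠ J := by
            unfold crule
            rw [if_pos (hv.trans h.symm), hBs, hv]
            exact hs
          apply CN3_v c p B J v w hcr _ _ hc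
          · rw [CN3_crsymm c p B hB]
            exact hcr
          · intro _ _
            rw [hv]
            exact hjJ
        · exact hw2 w hwT h hc
    have hdisj : (T.filter (fun w => c w.1 = j)).card + (T.filter (fun w => c w.1 = l)).card
        ≤ T.card := by
      rw [← Finset.card_union_of_disjoint]
      · apply Finset.card_le_card
        exact Finset.union_subset (Finset.filter_subset _ _) (Finset.filter_subset _ _)
      · rw [Finset.disjoint_left]
        intro w h1 h2
        have h3 := (Finset.mem_filter.mp h1).2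
        have h4 := (Finset.mem_filter.mp h2).2
        exact hjl (h3.symm.trans h4)
    rcases Nat.lt_or_ge (T.filter (fun w => c w.1 = l)).card 1 with h0 | h1
    · -- no element of class l
      have hemp : T.filter (fun w => c w.1 = l) = ∅ := by
        rw [← Finset.card_eq_zero]
        omega
      obtain ⟨a, b, d, habd⟩ := CN3_three T hT3
      obtain ⟨m, hm1, hm2, hm3⟩ := hB.tri (p a.1) (p b.1) (p d.1) s
      obtain ⟨x, hx1, hx2⟩ := hL.all j m
      apply hno (x, false) hx1
      · intro w hw _
        show B (p x) (p w.1) = s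
        rw [hx2, hB.sym]
        rcases habd w hw with rfl | rfl | rfl
        · exact hm1
        · exact hm2
        · exact hm3
      · intro w hw hwl
        exfalso
        have : w ∈ T.filter (fun w => c w.1 = l) := Finset.mem_filter.mpr ⟨hw, hwl⟩
        rw [hemp] at this
        exact Finset.notMem_empty w this
    · have hone : (T.filter (fun w => c w.1 = l)).card = 1 := by omega
      obtain ⟨t0, ht0⟩ := Finset.card_eq_one.mp hone
      have hwt0 : ∀ w ∈ T, c w.1 = l → w = t0 := by
        intro w hw hwl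
        have : w ∈ T.filter (fun w => c w.1 = l) := Finset.mem_filter.mpr ⟨hw, hwl⟩
        rw [ht0, Finset.mem_singleton] at this
        exact this
      have hj2 : (T.filter (fun w => c w.1 = j)).card ≤ 2 := by omega
      obtain ⟨a, b, hab⟩ := CN3_two _ hj2
      obtain ⟨m, hm8, hm1, hm2⟩ := hB.two (p a.1) (p b.1) s
      have hpart : ∀ x : ZMod q, p x = m → ∀ w ∈ T, c w.1 = j → B (p x) (p w.1) = s := by
        intro x hx w hw hwj
        rw [hx, hB.sym]
        rcases hab w (Finset.mem_filter.mpr ⟨hw, hwj⟩) with rfl | rfl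
        · exact hm1
        · exact hm2
      rcases ht : t0.2 with _ | _
      · -- `t0` in the half `false`
        obtain ⟨d, hd1, hd2, hc, hp⟩ := hL.win t0.1 j m hm8
        apply hno (t0.1 + (d : ZMod q), true) hc (hpart _ hp)
        intro w hw hwl
        rw [hwt0 w hw hwl]
        unfold vcol
        have e1 : ¬ ((t0.1 + (d : ZMod q), true) : ZMod q × Bool).2 = t0.2 := by
          rw [ht]
          simp
        rw [if_neg e1, if_neg (by simp)]
        apply CN3_close c p B J _ _ d _ hd1 (by omega)
        show (t0.1 + (d : ZMod q) - t0.1).val = d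
        rw [add_sub_cancel_left]
        exact ZMod.val_natCast_of_lt (by omega)
      · obtain ⟨d, hd1, hd2, hc, hp⟩ := hL.win (t0.1 - 26) j m hm8
        apply hno (t0.1 - 26 + (d : ZMod q), false) hc (hpart _ hp)
        intro w hw hwl
        rw [hwt0 w hw hwl]
        unfold vcol
        have e1 : ¬ ((t0.1 - 26 + (d : ZMod q), false) : ZMod q × Bool).2 = t0.2 := by
          rw [ht]
          simp
        rw [if_neg e1, if_pos rfl]
        apply CN3_close c p B J _ _ (26 - d) _ (by omega) (by omega)
        show (t0.1 - (t0.1 - 26 + (d : ZMod q))).val = 26 - d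
        have e2 : t0.1 - (t0.1 - 26 + (d : ZMod q)) = ((26 - d : ℕ) : ZMod q) := by
          rw [Nat.cast_sub (by omega : d ≤ 26)]
          push_cast
          ring
        rw [e2]
        exact ZMod.val_natCast_of_lt (by omega)
  have hd : (T.filter (fun w => c w.1 = J + 1)).card + (T.filter (fun w => c w.1 = J + 2)).card
      ≤ T.card := by
    rw [← Finset.card_union_of_disjoint]
    · apply Finset.card_le_card
      exact Finset.union_subset (Finset.filter_subset _ _) (Finset.filter_subset _ _)
    · rw [Finset.disjoint_left]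
      intro w h1 h2
      have h3 := (Finset.mem_filter.mp h1).2
      have h4 := (Finset.mem_filter.mp h2).2
      exact CN3_f6 J (h3.symm.trans h4)
  rcases Nat.lt_or_ge 1 (T.filter (fun w => c w.1 = J + 1)).card with h1 | h1
  · exact key (J + 1) (J + 2) (CN3_f1 J) (CN3_f2 J) (CN3_f6 J) (by omega)
  · exact key (J + 2) (J + 1) (CN3_f2 J) (CN3_f1 J) (Ne.symm (CN3_f6 J)) h1

end Pool.Agent.Work.MP_1ce445_fx
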