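import Pool.Agent.Work.MP_1ce445_fx.InterfaceM

/-! Block CNM (helper11). -/

namespace Pool.Agent.Work.MP_1ce445_fx

open Finset Pool.Agent.Work.MP_1ce445_co_56 Pool.Agent.Work.MP_1ce445_lin

lemma CNM_count (j : ℕ) (hj : j < 3) : ∀ q : ℕ,
    ((range q).filter (fun u => u % 3 = j)).card = (q + 2 - j) / 3 := by
  intro q
  induction q with
  | zero => simp; omega
  | succ q ih =>
    rw [range_add_one, filter_insert]
    split_ifs with h
    · rw [card_insert_of_notMem (by simp), ih]; omega
    · rw [ih]; omega

lemma CNM_fiber (q : ℕ) [Fintype (ZMod (2 * q - 1))] (hq : 1 ≤ q) (u : ℕ) (hu : u < q) :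
    (univ.filter (fun v : Option (ZMod (2 * q - 1)) => pno v = u)).card = 2 := by
  classical
  haveI : NeZero (2 * q - 1) := ⟨by omega⟩
  rcases Nat.eq_zero_or_pos u with h0 | h0
  · subst h0
    have h1 : univ.filter (fun v : Option (ZMod (2 * q - 1)) => pno v = 0) = {none, some 0} := by
      ext v
      simp only [mem_filter, mem_univ, true_and, mem_insert, mem_singleton]
      cases v with
      | none => simp [pno]
      | some x =>
        have hx := ZMod.val_lt x
        simp only [pno, reduceCtorEq, false_or, Option.some.injEq]
        rw [← ZMod.val_eq_zero]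
        omega
    rw [h1, card_pair (by simp)]
  · have hva : ((u : ZMod (2 * q - 1))).val = u := ZMod.val_natCast_of_lt (by omega)
    have hvb : (((2 * q - 1 - u : ℕ) : ZMod (2 * q - 1))).val = 2 * q - 1 - u :=
      ZMod.val_natCast_of_lt (by omega)
    have h1 : univ.filter (fun v : Option (ZMod (2 * q - 1)) => pno v = u) =
        {some (u : ZMod (2 * q - 1)), some ((2 * q - 1 - u : ℕ) : ZMod (2 * q - 1))} := by
      ext v
      simp only [mem_filter, mem_univ, true_and, mem_insert, mem_singleton]
      cases v with
      | none => simp [pno]; omega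
      | some x =>
        have hx := ZMod.val_lt x
        simp only [pno, Option.some.injEq]
        constructor
        · intro h
          rcases le_total x.val (2 * q - 1 - x.val) with h2 | h2
          · left
            apply ZMod.val_injective
            rw [hva]; omega
          · right
            apply ZMod.val_injective
            rw [hvb]; omega
        · rintro (h | h)
          · rw [h, hva]; omega
          · rw [h, hvb]; omega
    rw [h1, card_pair]
    intro h
    have h2 := congrArg ZMod.val (Option.some.inj h)
    rw [hva, hvb] at h2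
    omega

theorem stmt_CNM : Stmt_CNM := by
  classical
  intro q _ hq j
  haveI : NeZero (2 * q - 1) := ⟨by omega⟩
  have hlt : ∀ v : Option (ZMod (2 * q - 1)), pno v < q := by
    intro v
    cases v with
    | none => simp only [pno]; omega
    | some x =>
      have hx := ZMod.val_lt x
      simp only [pno]; omega
  have hcls : ∀ v : Option (ZMod (2 * q - 1)), cls v = j ↔ pno v % 3 = j.val := by
    intro v
    unfold cls
    rw [Fin.ext_iff]
  have h1 := card_eq_sum_card_fiberwise (f := fun v : Option (ZMod (2 * q - 1)) => pno v)
    (s := univ.filter (fun v : Option (ZMod (2 * q - 1)) => cls v = j))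
    (t := (range q).filter (fun u => u % 3 = j.val)) (by
      intro v hv
      simp only [coe_filter, mem_univ, true_and, Set.mem_ofPred_eq] at hv
      simp only [coe_filter, mem_range, Set.mem_ofPred_eq]
      exact ⟨hlt v, (hcls v).1 hv⟩)
  rw [h1]
  have h2 : ∀ u ∈ (range q).filter (fun u => u % 3 = j.val),
      ((univ.filter (fun v : Option (ZMod (2 * q - 1)) => cls v = j)).filter
        (fun v => pno v = u)).card = 2 := by
    intro u hu
    rw [mem_filter, mem_range] at hu
    refine Eq.trans ?_ (CNM_fiber q hq u hu.1)
    congr 1
    ext v
    simp only [mem_filter, mem_univ, true_and]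
    constructor
    · exact fun h => h.2
    · intro h
      refine ⟨(hcls v).2 ?_, h⟩
      rw [h]; exact hu.2
  rw [sum_congr rfl h2, sum_const, CNM_count j.val j.isLt q, smul_eq_mul]
  ring

end Pool.Agent.Work.MP_1ce445_fx
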