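import Pool.Agent.Work.MP_1ce445_fx.InterfaceQ

set_option autoImplicit false

/-! # Block CNO -/

namespace Pool.Agent.Work.MP_1ce445_fx

open Finset Pool.Agent.Work.MP_1ce445_co_56 Pool.Agent.Work.MP_1ce445_lin

theorem CNO_none (q : ℕ) : cls (none : Option (ZMod (2 * q - 1))) = 0 := by
  apply Fin.ext
  simp [cls, pno]

theorem CNO_a (q : ℕ) (c1 : Fin 3) : clo c1 (none : Option (ZMod (2 * q - 1))) = c1 := rfl

theorem CNO_b (q : ℕ) (c1 : Fin 3) (x : ZMod (2 * q - 1)) : clo c1 (some x) = cls (some x) := rfl

theorem stmt_CNO (hCNM : Stmt_CNM) : Stmt_CNO := by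
  classical
  intro q _ hq c1 hc1 j
  have hn := CNO_none q
  by_cases hj : j = 0
  · subst hj
    have h := hCNM q hq 0
    have e : (univ.filter (fun v : Option (ZMod (2 * q - 1)) => clo c1 v = 0)) =
        (univ.filter (fun v : Option (ZMod (2 * q - 1)) => cls v = 0)).erase none := by
      ext v
      rw [mem_erase, mem_filter, mem_filter]
      cases v with
      | none => rw [CNO_a]; simp [hc1]
      | some x => rw [CNO_b]; simp
    rw [e, Finset.card_erase_of_mem (by simp [hn]), h]
    simp
  · by_cases hj1 : j = c1
    · subst hj1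
      have h := hCNM q hq j
      have e : (univ.filter (fun v : Option (ZMod (2 * q - 1)) => clo j v = j)) =
          insert none (univ.filter (fun v : Option (ZMod (2 * q - 1)) => cls v = j)) := by
        ext v
        rw [mem_insert, mem_filter, mem_filter]
        cases v with
        | none => rw [CNO_a]; simp
        | some x => rw [CNO_b]; simp
      rw [e, Finset.card_insert_of_notMem (by simp [hn, Ne.symm hj]), h]
      simp [hj]
    · have h := hCNM q hq j
      have e : (univ.filter (fun v : Option (ZMod (2 * q - 1)) => clo c1 v = j)) =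
          (univ.filter (fun v : Option (ZMod (2 * q - 1)) => cls v = j)) := by
        ext v
        rw [mem_filter, mem_filter]
        cases v with
        | none => rw [CNO_a, hn]; simp [Ne.symm hj, Ne.symm hj1]
        | some x => rw [CNO_b]
      rw [e, h]
      simp [hj, hj1]

end Pool.Agent.Work.MP_1ce445_fx
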