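import Pool.Agent.Work.MP_1ce445_fx.InterfaceL

namespace Pool.Agent.Work.MP_1ce445_fx

open Finset Pool.Agent.Work.MP_1ce445_co_56 Pool.Agent.Work.MP_1ce445_lin

theorem stmt_CON (hCN1 : Stmt_CN1) (hCN2 : Stmt_CN2) (hCN3 : Stmt_CN3) : Stmt_CON := by
  intro q k _ c p B hL hB hk hkq
  have hfac := hCN1 q k c p B hL hB hk hkq
  have h2 := hCN2 q k c p B hL hB hk hkq
  have h3 := hCN3 q k c p B hL hB hk hkq
  have hV : Fintype.card (ZMod q × Bool) = 2 * q := by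
    rw [Fintype.card_prod, ZMod.card, Fintype.card_bool, mul_comm]
  refine le_trans ?_ (le_P hV (Fintype.card_fin k) hfac)
  obtain ⟨m, rfl⟩ : ∃ m, k = m + 3 := ⟨k - 3, by omega⟩
  rw [Fin.prod_univ_succ, Fin.prod_univ_succ, Fin.prod_univ_succ]
  have e0 := h3 0 0 rfl
  have e1 := h3 (Fin.succ 0) 1 rfl
  have e2 := h3 (Fin.succ (Fin.succ 0)) 2 rfl
  have er : (2 * q) ^ m ≤
      ∏ i : Fin m, gammaT (GG c p B (m + 3) i.succ.succ.succ) := by
    calc (2 * q) ^ m = ∏ _i : Fin m, 2 * q := by simp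
      _ ≤ _ := Finset.prod_le_prod' fun i _ => h2 _ (by simp [Fin.val_succ])
  rw [hL.cnt] at e0 e1 e2
  have v0 : ((0 : Fin 3) : Fin 3).val = 0 := rfl
  have v1 : ((1 : Fin 3) : Fin 3).val = 1 := rfl
  have v2 : ((2 : Fin 3) : Fin 3).val = 2 := rfl
  rw [v0] at e0
  rw [v1] at e1
  rw [v2] at e2
  have a0 : 2 * ((q + 8) / 3) ≤ gammaT (GG c p B (m + 3) 0) := by omega
  have a1 : 2 * ((q + 7) / 3) ≤ gammaT (GG c p B (m + 3) (Fin.succ 0)) := by omega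
  have a2 : 2 * ((q + 6) / 3) ≤ gammaT (GG c p B (m + 3) (Fin.succ (Fin.succ 0))) := by omega
  have hmm : m + 3 - 3 = m := by omega
  rw [hmm]
  calc (2 * q) ^ m * TT q
      = (2 * ((q + 8) / 3)) * ((2 * ((q + 7) / 3)) * ((2 * ((q + 6) / 3)) * (2 * q) ^ m)) := by
        unfold TT; ring
    _ ≤ _ := Nat.mul_le_mul a0 (Nat.mul_le_mul a1 (Nat.mul_le_mul a2 er))

end Pool.Agent.Work.MP_1ce445_fx
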