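import Pool.Agent.Work.MP_1ce445_fx.InterfaceU
import Pool.Agent.Work.MP_1ce445_lin.CORE

/-!
Block CR3 of MP_1ce445_co (growing k): structure of a factorization with a large product, with explicit
sets of thick colours. The proof of `CR3_core` is the proof of `MP_1ce445_lin/CORE.lean`.
-/

namespace Pool.Agent.Work.MP_1ce445_lin

open Finset Pool.Agent.Work.MP_1ce445_co_56

theorem CR3_core : ∀ (n k R : ℕ) (G : Fin k → SimpleGraph (Fin n)) (s t : ℝ), IsFactorization G →
    0 < s → s ≤ 1 → 1 ≤ s ^ 2 / 30 * n → k ≤ n →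
    (R : ℝ) / n + (1 - (s ^ 2 / 30) ^ 2) ^ R ≤ t →
    (∏ j, (gammaT (G j) : ℝ) ≤ Real.exp (-4) * (NN n : ℝ) ^ k) ∨
    ∃ (M : Finset (Fin k)) (T : Fin n → Finset (Fin k)) (Vg : Finset (Fin n)),
      (∀ v j, j ∈ T v ↔ j ∈ M ∧ (s ^ 2 / 30) ^ 2 * n ≤ (dg (G j) v : ℝ)) ∧
      (M.card : ℝ) ≤ 5 / (s ^ 2 / 30) ∧ (1 - s) * n ≤ Vg.card ∧
      (∀ v ∈ Vg, (n : ℝ) - 1 - k - s * n ≤
        ((univ.filter (fun w => T v ∩ T w ≠ ∅)).card : ℝ)) ∧
      (∀ j ∈ M, (gammaT (G j) : ℝ) ≤
        (1 - ((univ.filter (fun v => j ∈ T v)).card : ℝ) / n + t) * n) ∧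
      ∀ j, gammaT (G j) ≤ NN n := by
  intro n k R G s t hG hs hs1 hn1 hkn ht
  classical
  set τ : ℝ := s ^ 2 / 30 with hτ
  have hτ0 : 0 < τ := by rw [hτ]; positivity
  have hτ1 : τ ≤ 1 := by rw [hτ]; nlinarith
  have hnpos : (0 : ℝ) < n := by
    by_contra h
    push Not at h
    nlinarith
  have hn0 : 0 < n := by exact_mod_cast hnpos
  have hn2 : 2 ≤ n := by
    have h1 : τ ≤ 1 / 2 := by rw [hτ]; nlinarith
    have h2 : (2 : ℝ) ≤ n := by nlinarith
    exact_mod_cast h2
  set d : ℝ := τ ^ 2 with hd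
  have hd0 : 0 ≤ d := by positivity
  have hd1 : d ≤ 1 := by rw [hd]; nlinarith
  have hγN : ∀ j, gammaT (G j) ≤ NN n := CORE_gam hG
  have hNN := CORE_NN n
  have hNpos : 0 < NN n := by omega
  have hNle : (NN n : ℝ) ≤ n := by exact_mod_cast hNN.1
  have hleN : (n : ℝ) ≤ NN n + 1 := by exact_mod_cast hNN.2
  have hknR : (k : ℝ) ≤ n := by exact_mod_cast hkn
  rcases le_or_gt (4 * (NN n : ℝ)) (∑ j, ((NN n : ℝ) - gammaT (G j))) with hbig | hsmall
  · left
    exact CORE_big hNpos hbig
  right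
  set l : Fin k → ℝ := fun j => (n : ℝ) - gammaT (G j) with hl
  have hγn : ∀ j, (gammaT (G j) : ℝ) ≤ n := by
    intro j
    have : gammaT (G j) ≤ n := (hγN j).trans hNN.1
    exact_mod_cast this
  have hl0 : ∀ j, 0 ≤ l j := fun j => by simp only [hl]; linarith [hγn j]
  have hlsum : ∑ j, l j ≤ 5 * n := by
    have h1 : ∑ j, l j ≤ ∑ j : Fin k, (1 + ((NN n : ℝ) - gammaT (G j))) := by
      apply sum_le_sum
      intro j _
      simp only [hl]
      linarith
    rw [sum_add_distrib] at h1
    simp only [sum_const, card_univ, Fintype.card_fin, nsmul_eq_mul, mul_one] at h1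
    linarith
  set M : Finset (Fin k) := univ.filter (fun j => τ * n ≤ l j) with hM
  have hMcard : (M.card : ℝ) ≤ 5 / τ := by
    have h1 : ∑ j ∈ M, τ * n ≤ ∑ j, l j := by
      have h2 : ∑ j ∈ M, τ * n ≤ ∑ j ∈ M, l j := by
        apply sum_le_sum
        intro j hj
        exact (mem_filter.1 hj).2
      exact h2.trans (sum_le_sum_of_subset_of_nonneg (filter_subset _ _) fun j _ _ => hl0 j)
    rw [sum_const, nsmul_eq_mul] at h1
    rw [le_div_iff₀ hτ0]
    have h2 : (M.card : ℝ) * τ * n ≤ 5 * n := by linarith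
    exact le_of_mul_le_mul_right h2 hnpos
  let T' : Fin n → Finset (Fin k) := fun v => univ.filter (fun j => j ∈ M ∧ d * n ≤ dg (G j) v)
  have hTmem : ∀ v j, j ∈ T' v ↔ j ∈ M ∧ d * n ≤ dg (G j) v := by
    intro v j; simp [T']
  let X : Fin k → Fin n → ℕ := fun j v =>
    (univ.filter (fun w => (G j).Adj v w ∧ ¬ (j ∈ T' v ∧ j ∈ T' w))).card
  let Y : Fin k → Fin n → ℕ := fun j v =>
    (univ.filter (fun w => (G j).Adj v w ∧ (j ∈ T' v ∧ j ∈ T' w))).card
  have hXY : ∀ j v, Y j v + X j v = dg (G j) v := by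
    intro j v
    have h1 := card_filter_add_card_filter_not
      (s := univ.filter (fun w => (G j).Adj v w)) (fun w => j ∈ T' v ∧ j ∈ T' w)
    rw [filter_filter, filter_filter] at h1
    exact h1
  have hXin : ∀ j ∈ M, (∑ v, (X j v : ℝ)) ≤ 2 * d * n ^ 2 := by
    intro j hj
    have h1 : ∀ v, X j v ≤ (univ.filter (fun w => (G j).Adj v w ∧ ¬ d * n ≤ dg (G j) v)).card +
        (univ.filter (fun w => (G j).Adj v w ∧ ¬ d * n ≤ dg (G j) w)).card := by
      intro v
      refine le_trans (card_le_card ?_) (card_union_le _ _)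
      intro w hw
      simp only [mem_filter, mem_univ, true_and, mem_union, hTmem] at hw ⊢
      tauto
    have h2 : (∑ v, (X j v : ℝ)) ≤
        ∑ v, ((univ.filter (fun w => (G j).Adj v w ∧ ¬ d * n ≤ dg (G j) v)).card : ℝ) +
        ∑ v, ((univ.filter (fun w => (G j).Adj v w ∧ ¬ d * n ≤ dg (G j) w)).card : ℝ) := by
      rw [← sum_add_distrib]
      apply sum_le_sum
      intro v _
      exact_mod_cast h1 v
    have h3 : ∀ v, ((univ.filter (fun w => (G j).Adj v w ∧ ¬ d * n ≤ dg (G j) v)).card : ℝ) ≤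
        d * n := by
      intro v
      by_cases h : d * n ≤ dg (G j) v
      · simp only [h, not_true_eq_false, and_false, filter_false, card_empty, Nat.cast_zero]
        positivity
      · simp only [h, not_false_eq_true, and_true]
        push Not at h
        exact h.le
    have h4 : ∑ v, ((univ.filter (fun w => (G j).Adj v w ∧ ¬ d * n ≤ dg (G j) w)).card : ℝ) =
        ∑ v, ((univ.filter (fun w => (G j).Adj v w ∧ ¬ d * n ≤ dg (G j) v)).card : ℝ) := by
      have h5 : ∑ v, (univ.filter (fun w => (G j).Adj v w ∧ ¬ d * n ≤ dg (G j) w)).card =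
        ∑ v, (univ.filter (fun w => (G j).Adj v w ∧ ¬ d * n ≤ dg (G j) v)).card := by
        simp_rw [card_filter]
        rw [sum_comm]
        apply sum_congr rfl
        intro v _
        apply sum_congr rfl
        intro w _
        simp only [SimpleGraph.adj_comm]
      exact_mod_cast h5
    rw [h4] at h2
    have h5 : ∑ v, ((univ.filter (fun w => (G j).Adj v w ∧ ¬ d * n ≤ dg (G j) v)).card : ℝ) ≤
        ∑ _v : Fin n, d * n := sum_le_sum fun v _ => h3 v
    simp only [sum_const, card_univ, Fintype.card_fin, nsmul_eq_mul] at h5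
    nlinarith
  have hXout : ∀ j ∉ M, (∑ v, ((dg (G j) v : ℝ) - 1)) ≤ 2 * l j * (τ * n + 1) := by
    intro j hj
    have h1 := excess_real hG j
    have h2 : l j ≤ τ * n := by
      by_contra h
      push Not at h
      exact hj (by simp [hM, h.le])
    have h3 := hl0 j
    have h4 : 2 * l j * (l j + 1) ≤ 2 * l j * (τ * n + 1) := by
      apply mul_le_mul_of_nonneg_left _ (by positivity)
      linarith
    rw [sum_sub_distrib]
    simp only [sum_const, card_univ, Fintype.card_fin, nsmul_eq_mul, mul_one]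
    simp only [hl] at h4 ⊢
    linarith
  have hdg1 : ∀ j v, (1 : ℝ) ≤ dg (G j) v := by
    intro j v
    obtain ⟨w, hw⟩ := hG.minDeg j v
    have : 0 < dg (G j) v := card_pos.2 ⟨w, by simpa using hw⟩
    exact_mod_cast this
  let B : Fin n → ℝ := fun v => ∑ j, (if j ∈ M then (X j v : ℝ) else (dg (G j) v : ℝ) - 1)
  have hB0 : ∀ v, 0 ≤ B v := by
    intro v
    apply sum_nonneg
    intro j _
    split_ifs
    · exact Nat.cast_nonneg _
    · linarith [hdg1 j v]
  have hBtot : ∑ v, B v ≤ s ^ 2 * n ^ 2 := by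
    have h0 : (∑ v, B v) =
        ∑ j, ∑ v, (if j ∈ M then (X j v : ℝ) else (dg (G j) v : ℝ) - 1) := sum_comm
    have h1 : ∀ j, ∑ v, (if j ∈ M then (X j v : ℝ) else (dg (G j) v : ℝ) - 1) ≤
        (if j ∈ M then 2 * d * n ^ 2 else 0) + 2 * l j * (τ * n + 1) := by
      intro j
      have h3 := hl0 j
      by_cases hj : j ∈ M
      · simp only [hj, if_true]
        have h4 := hXin j hj
        have h5 : 0 ≤ 2 * l j * (τ * n + 1) := by positivity
        linarith
      · simp only [hj, if_false, zero_add]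
        exact hXout j hj
    rw [h0]
    refine (sum_le_sum fun j _ => h1 j).trans ?_
    rw [sum_add_distrib, sum_ite_mem, univ_inter, sum_const, nsmul_eq_mul]
    have h4 : (M.card : ℝ) * (2 * d * n ^ 2) ≤ (5 / τ) * (2 * d * n ^ 2) :=
      mul_le_mul_of_nonneg_right hMcard (by positivity)
    have h5 : (5 / τ) * (2 * d * n ^ 2) = 10 * τ * n ^ 2 := by
      rw [hd]
      field_simp
      ring
    have h6 : ∑ j, 2 * l j * (τ * n + 1) = 2 * (τ * n + 1) * ∑ j, l j := by
      rw [mul_sum]
      apply sum_congr rfl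
      intro j _
      ring
    have h7 : 2 * (τ * n + 1) * ∑ j, l j ≤ 2 * (τ * n + 1) * (5 * n) :=
      mul_le_mul_of_nonneg_left hlsum (by positivity)
    have h8 : s ^ 2 = 30 * τ := by rw [hτ]; ring
    have h9 : (n : ℝ) ≤ τ * n * n := by nlinarith
    rw [h6, h8]
    nlinarith
  have hfacin : ∀ j ∈ M, (gammaT (G j) : ℝ) ≤
      (1 - ((univ.filter (fun v => j ∈ T' v)).card : ℝ) / n + t) * n := by
    intro j hj
    have h1 := gammaT_le_low (hG.minDeg j) hd0 hd1 R
    rw [Fintype.card_fin] at h1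
    have h2 : (univ.filter (fun v => j ∈ T' v)) =
        univ.filter (fun v => d * n ≤ (dg (G j) v : ℝ)) := by
      ext v
      simp only [mem_filter, mem_univ, true_and, hTmem]
      tauto
    have h4 : ((univ.filter (fun v => d * n ≤ (dg (G j) v : ℝ))).card : ℝ) +
        (univ.filter (fun v => ¬ d * n ≤ (dg (G j) v : ℝ))).card = n := by
      have := card_filter_add_card_filter_not (s := (univ : Finset (Fin n)))
        (fun v => d * n ≤ (dg (G j) v : ℝ))
      rw [card_univ, Fintype.card_fin] at this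
      exact_mod_cast this
    have h5 : (1 - ((univ.filter (fun v => j ∈ T' v)).card : ℝ) / n) * n =
        (univ.filter (fun v => ¬ d * n ≤ (dg (G j) v : ℝ))).card := by
      rw [h2]
      field_simp
      linarith
    have h7 : ((R : ℝ) / n + (1 - d) ^ R) * n ≤ t * n := mul_le_mul_of_nonneg_right ht hnpos.le
    have h8 : ((R : ℝ) / n + (1 - d) ^ R) * n = R + (1 - d) ^ R * n := by
      field_simp
    rw [h8] at h7
    rw [add_mul, h5]
    linarith
  refine ⟨M, T', univ.filter (fun v => B v ≤ s * n), hTmem, hMcard, ?_, ?_, hfacin, hγN⟩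
  · have h1 := card_filter_add_card_filter_not (s := (univ : Finset (Fin n)))
      (fun v => B v ≤ s * n)
    rw [card_univ, Fintype.card_fin] at h1
    have h2 : ((univ.filter (fun v => B v ≤ s * n)).card : ℝ) +
        (univ.filter (fun v => ¬ B v ≤ s * n)).card = n := by exact_mod_cast h1
    have h3 : ((univ.filter (fun v => ¬ B v ≤ s * n)).card : ℝ) * (s * n) ≤ s ^ 2 * n ^ 2 := by
      calc ((univ.filter (fun v => ¬ B v ≤ s * n)).card : ℝ) * (s * n)
          = ∑ v ∈ univ.filter (fun v => ¬ B v ≤ s * n), s * n := by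
            rw [sum_const, nsmul_eq_mul]
        _ ≤ ∑ v ∈ univ.filter (fun v => ¬ B v ≤ s * n), B v := by
            apply sum_le_sum
            intro v hv
            have := (mem_filter.1 hv).2
            push Not at this
            exact this.le
        _ ≤ ∑ v, B v :=
            sum_le_sum_of_subset_of_nonneg (filter_subset _ _) fun v _ _ => hB0 v
        _ ≤ _ := hBtot
    have h4 : 0 < s * n := by positivity
    have h5 : ((univ.filter (fun v => ¬ B v ≤ s * n)).card : ℝ) * (s * n) ≤ (s * n) * (s * n) := by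
      refine h3.trans (le_of_eq (by ring))
    have h6 := le_of_mul_le_mul_right h5 h4
    linarith
  · intro v hv
    have hv' := (mem_filter.1 hv).2
    have h1 : ∑ j, ((dg (G j) v : ℝ) - 1) = (n : ℝ) - 1 - k := by
      rw [sum_sub_distrib, sum_dg_eq hG v, Nat.cast_sub (by omega)]
      simp
    have h2 : ∀ j, (dg (G j) v : ℝ) - 1 ≤
        (if j ∈ M then (X j v : ℝ) else (dg (G j) v : ℝ) - 1) + (Y j v : ℝ) := by
      intro j
      have h3 : (Y j v : ℝ) + X j v = dg (G j) v := by exact_mod_cast hXY j v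
      have h4 : (0 : ℝ) ≤ Y j v := Nat.cast_nonneg _
      split_ifs
      · linarith
      · linarith
    have h3 : ∑ j, Y j v ≤ (univ.filter (fun w => T' v ∩ T' w ≠ ∅)).card := by
      simp only [Y]
      rw [← card_biUnion]
      · apply card_le_card
        intro w hw
        simp only [mem_biUnion, mem_filter, mem_univ, true_and] at hw ⊢
        obtain ⟨j, _, h5, h6⟩ := hw
        intro h7
        have : j ∈ T' v ∩ T' w := mem_inter.2 ⟨h5, h6⟩
        rw [h7] at this
        simp at this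
      · intro i _ j _ hij
        rw [Function.onFun, Finset.disjoint_left]
        intro w h1 h2
        simp only [mem_filter, mem_univ, true_and] at h1 h2
        exact hij (hG.unique h1.1 h2.1)
    have h4 : (∑ j, (Y j v : ℝ)) ≤ ((univ.filter (fun w => T' v ∩ T' w ≠ ∅)).card : ℝ) := by
      exact_mod_cast h3
    have h5 := sum_le_sum (s := univ) fun j _ => h2 j
    rw [sum_add_distrib, h1] at h5
    have h6 : B v = ∑ j, (if j ∈ M then (X j v : ℝ) else (dg (G j) v : ℝ) - 1) := rfl
    rw [← h6] at h5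
    linarith

end Pool.Agent.Work.MP_1ce445_lin

namespace Pool.Agent.Work.MP_1ce445_fx

open Finset Pool.Agent.Work.MP_1ce445_co_56 Pool.Agent.Work.MP_1ce445_lin

theorem stmt_CR3 : Stmt_CR3 := by
  intro n k R G s t hG hs hs1 hn1 hkn ht
  rcases CR3_core n k R G s t hG hs hs1 hn1 hkn ht with h | ⟨M, T, Vg, hT, h1, h2, h3, h4, h5⟩
  · exact Or.inl h
  · right
    have hT' : ∀ v, T v = thk G M ((s ^ 2 / 30) ^ 2) v := by
      intro v
      ext j
      rw [hT v j]
      unfold thk
      rw [mem_filter]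
      rfl
    simp only [hT'] at h3 h4
    exact ⟨M, Vg, h1, h2, h3, h4, h5⟩

end Pool.Agent.Work.MP_1ce445_fx
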