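import Pool.Agent.Work.MP_1ce445_fx.Interface

/-!
Block CV2 of MP_1ce445_fx: a real inequality.
-/

namespace Pool.Agent.Work.MP_1ce445_fx

open Finset Pool.Agent.Work.MP_1ce445_co_56 Pool.Agent.Work.MP_1ce445_lin

theorem CV2_real (a b c p q r : ℝ) (hp : 0 ≤ p) (hq : 0 ≤ q) (hr : 0 ≤ r) (ha0 : 0 ≤ a)
    (hb0 : 0 ≤ b) (hc0 : 0 ≤ c) (ha : a ≤ 1) (hb : b ≤ 1) (hc : c ≤ 1) :
    (1 + q - b) * c + (1 + r - c) * a + (1 + p - a) * b ≤ 1 + (p + q + r) := by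
  have h1 : 0 ≤ (1 - a) * (1 - b) * (1 - c) :=
    mul_nonneg (mul_nonneg (by linarith) (by linarith)) (by linarith)
  have h2 : 0 ≤ a * b * c := mul_nonneg (mul_nonneg ha0 hb0) hc0
  have h3 : 0 ≤ q * (1 - c) := mul_nonneg hq (by linarith)
  have h4 : 0 ≤ r * (1 - a) := mul_nonneg hr (by linarith)
  have h5 : 0 ≤ p * (1 - b) := mul_nonneg hp (by linarith)
  have h6 : 1 + (p + q + r) - ((1 + q - b) * c + (1 + r - c) * a + (1 + p - a) * b) =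
      (1 - a) * (1 - b) * (1 - c) + a * b * c + q * (1 - c) + r * (1 - a) + p * (1 - b) := by
    ring
  linarith

theorem stmt_CV2 : Stmt_CV2 := by
  intro x t h0 h1 h2
  rw [Fin.sum_univ_three, Fin.sum_univ_three]
  have e1 : (0 : Fin 3) + 1 = 1 := by decide
  have e2 : (0 : Fin 3) + 2 = 2 := by decide
  have e3 : (1 : Fin 3) + 1 = 2 := by decide
  have e4 : (1 : Fin 3) + 2 = 0 := by decide
  have e5 : (2 : Fin 3) + 1 = 0 := by decide
  have e6 : (2 : Fin 3) + 2 = 1 := by decide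
  rw [e1, e2, e3, e4, e5, e6]
  exact CV2_real (x 0) (x 1) (x 2) (t 0) (t 1) (t 2) (h0 0) (h0 1) (h0 2)
    ((h0 0).trans (h1 0)) ((h0 1).trans (h1 1)) ((h0 2).trans (h1 2)) (h2 0) (h2 1) (h2 2)

end Pool.Agent.Work.MP_1ce445_fx
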