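import Pool.Agent.Work.MP_1ce445_fx.Interface

set_option autoImplicit false

/-! # Block CVX -/

namespace Pool.Agent.Work.MP_1ce445_fx

open Finset Pool.Agent.Work.MP_1ce445_co_56 Pool.Agent.Work.MP_1ce445_lin

/-- the inequality without squares, in six variables -/
theorem CVX_lin (x y z r s t : ℝ) (hr : 0 ≤ r) (hs : 0 ≤ s) (ht : 0 ≤ t) (hx : r ≤ x) (hy : s ≤ y)
    (hz : t ≤ z) (hx1 : x ≤ 1) (hy1 : y ≤ 1) (hz1 : z ≤ 1) :
    (1 + s - y) * z + (1 + t - z) * x + (1 + r - x) * y ≤ 1 + (r + s + t) := by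
  have px : 0 ≤ x - r := by linarith
  have py : 0 ≤ y - s := by linarith
  have pz : 0 ≤ z - t := by linarith
  have qx : 0 ≤ 1 - x := by linarith
  have qy : 0 ≤ 1 - y := by linarith
  have qz : 0 ≤ 1 - z := by linarith
  have key : 1 + (r + s + t) - ((1 + s - y) * z + (1 + t - z) * x + (1 + r - x) * y) =
      1 * ((x-r) * (y-s) * (z-t)) + 1 * ((x-r) * (y-s) * t) + 1 * ((x-r) * s * (z-t)) +
      1 * ((x-r) * s * (1-z)) + 1 * ((x-r) * s * t) + 1 * ((1-x) * (y-s) * t) +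
      1 * ((1-x) * (1-y) * (1-z)) + 1 * ((1-x) * (1-y) * t) + 1 * ((1-x) * s * (1-z)) +
      1 * ((1-x) * s * t) + 1 * (r * (y-s) * (z-t)) + 1 * (r * (y-s) * t) +
      1 * (r * (1-y) * (z-t)) + 1 * (r * (1-y) * (1-z)) + 1 * (r * (1-y) * t) +
      1 * (r * s * (z-t)) + 1 * (r * s * (1-z)) + 1 * (r * s * t) := by ring
  have h0 : 0 ≤ 1 + (r + s + t) - ((1 + s - y) * z + (1 + t - z) * x + (1 + r - x) * y) := by
    rw [key]
    positivity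
  linarith

/-- the chord bound -/
theorem CVX_sq (x t : ℝ) (ht : t ≤ x) (hx : x ≤ 1) : x ^ 2 ≤ (1 + t) * x - t := by
  nlinarith [mul_nonneg (sub_nonneg.2 ht) (sub_nonneg.2 hx)]

theorem CVX_one (x t : Fin 3 → ℝ) (h0 : ∀ j, 0 ≤ t j) (h1 : ∀ j, t j ≤ x j) (h2 : ∀ j, x j ≤ 1)
    (a b : Fin 3) :
    ((1 + t a - x a) * x b) ^ 2 ≤
      (1 + t a ^ 2 - ((1 + t a) * x a - t a)) * ((1 + t b) * x b - t b) := by
  have ha := h0 a
  have ha1 := h1 a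
  have ha2 := h2 a
  have e1 : (1 + t a - x a) ^ 2 ≤ (1 + t a) * (1 + t a - x a) - t a :=
    CVX_sq _ _ (by linarith) (by linarith)
  have e2 : (x b) ^ 2 ≤ (1 + t b) * x b - t b := CVX_sq _ _ (h1 b) (h2 b)
  have e3 : 0 ≤ (1 + t a) * (1 + t a - x a) - t a := le_trans (sq_nonneg _) e1
  rw [mul_pow]
  have e4 := mul_le_mul e1 e2 (sq_nonneg _) e3
  calc (1 + t a - x a) ^ 2 * x b ^ 2
      ≤ ((1 + t a) * (1 + t a - x a) - t a) * ((1 + t b) * x b - t b) := e4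
    _ = _ := by ring

theorem stmt_CVX : Stmt_CVX := by
  intro x t h0 h1 h2
  have m := CVX_lin ((1 + t 0) * x 0 - t 0) ((1 + t 1) * x 1 - t 1) ((1 + t 2) * x 2 - t 2)
    (t 0 ^ 2) (t 1 ^ 2) (t 2 ^ 2) (sq_nonneg _) (sq_nonneg _) (sq_nonneg _)
    (by nlinarith [h0 0, h1 0, mul_nonneg (h0 0) (sub_nonneg.2 (h1 0))])
    (by nlinarith [h0 1, h1 1, mul_nonneg (h0 1) (sub_nonneg.2 (h1 1))])
    (by nlinarith [h0 2, h1 2, mul_nonneg (h0 2) (sub_nonneg.2 (h1 2))])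
    (by nlinarith [h0 0, h2 0, mul_nonneg (h0 0) (sub_nonneg.2 (h2 0))])
    (by nlinarith [h0 1, h2 1, mul_nonneg (h0 1) (sub_nonneg.2 (h2 1))])
    (by nlinarith [h0 2, h2 2, mul_nonneg (h0 2) (sub_nonneg.2 (h2 2))])
  have e0 := CVX_one x t h0 h1 h2 1 2
  have e1 := CVX_one x t h0 h1 h2 2 0
  have e2 := CVX_one x t h0 h1 h2 0 1
  have f1 : ((0 : Fin 3) + 1) = 1 := rfl
  have f2 : ((0 : Fin 3) + 2) = 2 := rfl
  have f3 : ((1 : Fin 3) + 1) = 2 := rfl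
  have f4 : ((1 : Fin 3) + 2) = 0 := rfl
  have f5 : ((2 : Fin 3) + 1) = 0 := rfl
  have f6 : ((2 : Fin 3) + 2) = 1 := rfl
  rw [Fin.sum_univ_three, Fin.sum_univ_three]
  rw [f1, f2, f3, f4, f5, f6]
  linarith

end Pool.Agent.Work.MP_1ce445_fx
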