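import Pool.Agent.Work.MP_1ce445_fx.InterfaceM
import Pool.Agent.Work.MP_1ce445_fx.CVX

set_option autoImplicit false

/-! # Block CVM -/

namespace Pool.Agent.Work.MP_1ce445_fx

open Finset Pool.Agent.Work.MP_1ce445_co_56 Pool.Agent.Work.MP_1ce445_lin

theorem CVM_cv (m : ℕ) (P t : ℝ) (hP : 0 ≤ P) (hP1 : P ≤ 1) (ht : 0 ≤ t) :
    (P + (1 - P) * t) ^ m ≤ P + (1 - P) * t ^ m := by
  have h := (convexOn_pow (𝕜 := ℝ) m).2 (x := 1) (y := t) (Set.mem_Ici.2 zero_le_one)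
    (Set.mem_Ici.2 ht) hP (sub_nonneg.2 hP1) (by ring)
  simpa [smul_eq_mul] using h

theorem CVM_one (m : ℕ) (x t : ℝ) (ht : 0 ≤ t) (htx : t ≤ x) (hx : x ≤ 1) :
    ∃ y : ℝ, t ^ m ≤ y ∧ y ≤ 1 ∧ x ^ m ≤ y ∧ (1 + t - x) ^ m ≤ 1 + t ^ m - y := by
  rcases eq_or_lt_of_le (htx.trans hx) with h1 | h1
  · have hx1 : x = 1 := le_antisymm hx (h1 ▸ htx)
    refine ⟨1, ?_, le_refl _, ?_, ?_⟩
    · rw [h1]; simp
    · rw [hx1]; simp
    · rw [hx1, h1]; simp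
  · have h2 : 0 < 1 - t := by linarith
    have h2' : (1 - t) ≠ 0 := ne_of_gt h2
    set P : ℝ := (x - t) / (1 - t) with hP
    have hP0 : 0 ≤ P := div_nonneg (by linarith) h2.le
    have hP1 : P ≤ 1 := by
      rw [hP, div_le_one h2]; linarith
    have hxP : x = P + (1 - P) * t := by
      rw [hP]; field_simp; ring
    have hxQ : 1 + t - x = (1 - P) + (1 - (1 - P)) * t := by
      rw [hxP]; ring
    have htm : t ^ m ≤ 1 := pow_le_one₀ ht h1.le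
    refine ⟨P + (1 - P) * t ^ m, ?_, ?_, ?_, ?_⟩
    · nlinarith
    · nlinarith
    · rw [hxP]
      exact CVM_cv m P t hP0 hP1 ht
    · have h3 := CVM_cv m (1 - P) t (by linarith) (by linarith) ht
      rw [hxQ]
      linarith

theorem stmt_CVM : Stmt_CVM := by
  intro m x t hm h0 h1 h2
  choose y hy1 hy2 hy3 hy4 using fun j => CVM_one m (x j) (t j) (h0 j) (h1 j) (h2 j)
  have key := CVX_lin (y 0) (y 1) (y 2) (t 0 ^ m) (t 1 ^ m) (t 2 ^ m) (pow_nonneg (h0 0) m)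
    (pow_nonneg (h0 1) m) (pow_nonneg (h0 2) m) (hy1 0) (hy1 1) (hy1 2) (hy2 0) (hy2 1) (hy2 2)
  have one : ∀ a b : Fin 3, ((1 + t a - x a) * x b) ^ m ≤ (1 + t a ^ m - y a) * y b := by
    intro a b
    rw [mul_pow]
    have ha1 := h1 a
    have ha2 := h2 a
    have ha0 := h0 a
    exact mul_le_mul (hy4 a) (hy3 b) (pow_nonneg ((h0 b).trans (h1 b)) m)
      (le_trans (pow_nonneg (by linarith) m) (hy4 a))
  have e0 := one 1 2
  have e1 := one 2 0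
  have e2 := one 0 1
  have f1 : ((0 : Fin 3) + 1) = 1 := rfl
  have f2 : ((0 : Fin 3) + 2) = 2 := rfl
  have f3 : ((1 : Fin 3) + 1) = 2 := rfl
  have f4 : ((1 : Fin 3) + 2) = 0 := rfl
  have f5 : ((2 : Fin 3) + 1) = 0 := rfl
  have f6 : ((2 : Fin 3) + 2) = 1 := rfl
  rw [Fin.sum_univ_three, Fin.sum_univ_three]
  rw [f1, f2, f3, f4, f5, f6]
  linarith

end Pool.Agent.Work.MP_1ce445_fx
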