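import Pool.Agent.Work.MP_1ce445_fx.Interface

/-!
MP_1ce445_co, blocks EXP and DG2 of MP_1ce445_fx: degrees in a graph with large total domination number.
-/

namespace Pool.Agent.Work.MP_1ce445_fx

open Finset Pool.Agent.Work.MP_1ce445_co_56 Pool.Agent.Work.MP_1ce445_lin

theorem stmt_EXP : Stmt_EXP := by
  classical
  intro n H W h
  have h2 := gammaT_le_add (G := H) h W
  refine h2.trans (le_of_eq ?_)
  congr 1
  congr 1
  ext v
  simp [und]

open Classical in
/-- the vertices with a neighbour in `W` -/
noncomputable def DG2_N {n : ℕ} (H : SimpleGraph (Fin n)) (W : Finset (Fin n)) : Finset (Fin n) :=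
  univ.filter (fun v => ∃ z ∈ W, H.Adj v z)

theorem DG2_mem {n : ℕ} (H : SimpleGraph (Fin n)) (W : Finset (Fin n)) (v : Fin n) :
    v ∈ DG2_N H W ↔ ∃ z ∈ W, H.Adj v z := by
  simp [DG2_N]

theorem DG2_card {n : ℕ} (H : SimpleGraph (Fin n)) (h : ∀ v, ∃ w, H.Adj v w)
    (W : Finset (Fin n)) : (DG2_N H W).card ≤ W.card + (n - gammaT H) := by
  classical
  have h1 := stmt_EXP n H W h
  have h2 : (DG2_N H W).card + (und H W).card = n := by
    have h3 : DG2_N H W = (und H W)ᶜ := by
      ext v
      simp [DG2_N, und]
    rw [h3, Finset.card_compl, Fintype.card_fin]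
    have h4 : (und H W).card ≤ n := by
      simpa using Finset.card_le_univ (und H W)
    omega
  omega

theorem DG2_dg {n : ℕ} (H : SimpleGraph (Fin n)) (v : Fin n) :
    dg H univ v = (nb H v).card := by
  classical
  unfold dg nb
  congr

theorem DG2_memnb {n : ℕ} (H : SimpleGraph (Fin n)) (v w : Fin n) :
    w ∈ nb H v ↔ H.Adj v w := by
  simp [nb]

theorem stmt_DG2 : Stmt_DG2 := by
  classical
  intro n H h
  refine ⟨?_, ?_⟩
  · intro v
    have h1 := DG2_card H h {v}
    have h2 : nb H v ⊆ DG2_N H {v} := by
      intro w hw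
      rw [DG2_memnb] at hw
      rw [DG2_mem]
      exact ⟨v, Finset.mem_singleton_self v, hw.symm⟩
    have h3 := Finset.card_le_card h2
    rw [DG2_dg]
    simp only [Finset.card_singleton] at h1
    omega
  · let F : Finset (Finset (Fin n)) := univ.filter (fun B =>
      (∀ b ∈ B, 2 ≤ dg H univ b) ∧
      (∀ b ∈ B, ∀ b' ∈ B, b ≠ b' → Disjoint (nb H b) (nb H b')))
    have hF : F.Nonempty := ⟨∅, by simp [F]⟩
    obtain ⟨B, hB, hmax⟩ := Finset.exists_max_image F Finset.card hF
    obtain ⟨hB1, hB2⟩ := (Finset.mem_filter.mp hB).2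
    have hN1 := DG2_card H h B
    have hsub : B.biUnion (nb H) ⊆ DG2_N H B := by
      intro w hw
      obtain ⟨b, hb, hwb⟩ := Finset.mem_biUnion.mp hw
      rw [DG2_memnb] at hwb
      rw [DG2_mem]
      exact ⟨b, hb, hwb.symm⟩
    have hcard : (B.biUnion (nb H)).card = ∑ b ∈ B, (nb H b).card := by
      apply Finset.card_biUnion
      intro b hb b' hb' hne
      exact hB2 b hb b' hb' hne
    have hge : 2 * B.card ≤ (B.biUnion (nb H)).card := by
      rw [hcard]
      calc 2 * B.card = ∑ _b ∈ B, 2 := by simp [mul_comm]
        _ ≤ ∑ b ∈ B, (nb H b).card := by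
          apply Finset.sum_le_sum
          intro b hb
          rw [← DG2_dg]
          exact hB1 b hb
    have hle := Finset.card_le_card hsub
    have hN2 := DG2_card H h (DG2_N H B)
    have hfin : univ.filter (fun v => 2 ≤ dg H univ v) ⊆ DG2_N H (DG2_N H B) := by
      intro v hv
      have hv2 : 2 ≤ dg H univ v := (Finset.mem_filter.mp hv).2
      rw [DG2_mem]
      by_cases hvB : v ∈ B
      · obtain ⟨w, hw⟩ := h v
        refine ⟨w, ?_, hw⟩
        rw [DG2_mem]
        exact ⟨v, hvB, hw.symm⟩
      · by_contra hcon
        push Not at hcon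
        have hdis : ∀ b ∈ B, Disjoint (nb H v) (nb H b) := by
          intro b hb
          rw [Finset.disjoint_left]
          intro w hw hwb
          rw [DG2_memnb] at hw hwb
          apply hcon w _ hw
          rw [DG2_mem]
          exact ⟨b, hb, hwb.symm⟩
        have hins : insert v B ∈ F := by
          refine Finset.mem_filter.mpr ⟨Finset.mem_univ _, ?_, ?_⟩
          · intro b hb
            rcases Finset.mem_insert.mp hb with rfl | hb
            · exact hv2
            · exact hB1 b hb
          · intro b hb b' hb' hne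
            rcases Finset.mem_insert.mp hb with h1 | hb1
            · rcases Finset.mem_insert.mp hb' with h2 | hb2
              · exact absurd (h1.trans h2.symm) hne
              · rw [h1]
                exact hdis b' hb2
            · rcases Finset.mem_insert.mp hb' with h2 | hb2
              · rw [h2]
                exact (hdis b hb1).symm
              · exact hB2 b hb1 b' hb2 hne
        have h3 := hmax _ hins
        rw [Finset.card_insert_of_notMem hvB] at h3
        omega
    have h5 := Finset.card_le_card hfin
    omega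

end Pool.Agent.Work.MP_1ce445_fx
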