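import Pool.Agent.Work.MP_1ce445_fx.InterfaceM

/-!
Block DIG of THEOREM STAIRCASE: digits.
-/

namespace Pool.Agent.Work.MP_1ce445_fx

open Finset Pool.Agent.Work.MP_1ce445_co_56 Pool.Agent.Work.MP_1ce445_lin

/-- the digit `i` depends only on `v` modulo `w h^m`, `i < m` -/
lemma DIG_shift {m i : ℕ} (hi : i < m) {w h a v T x : ℤ} (hw : 0 < w) (hh : 0 < h) :
    ((a * (v + w * h ^ m * x) + T) / (w * h ^ i)) % h = ((a * v + T) / (w * h ^ i)) % h := by
  obtain ⟨d, rfl⟩ : ∃ d, m = i + d + 1 := ⟨m - i - 1, by omega⟩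
  have h1 : a * (v + w * h ^ (i + d + 1) * x) + T =
      (a * v + T) + (w * h ^ i) * (h * (a * h ^ d * x)) := by ring
  have h2 : w * h ^ i ≠ 0 := by positivity
  rw [h1, Int.add_mul_ediv_left _ _ h2, Int.add_mul_emod_self_left]

lemma DIG_ex (w h r : ℕ) (a : ℕ → ℕ) (T : ℕ → ℤ) (hw : 0 < w) (hh : 1 < h) (ho : Odd h)
    (hr : r < w) (ha : ∀ i, a i = 1 ∨ a i = 2) (m : ℕ) :
    ∃ v : ℤ, v % w = r ∧ ∀ i < m, ((a i * v + T i) / (w * h ^ i)) % h = 0 := by
  have hw' : (0:ℤ) < w := by exact_mod_cast hw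
  have hh' : (0:ℤ) < h := by exact_mod_cast (by omega : 0 < h)
  induction m with
  | zero =>
    refine ⟨r, ?_, ?_⟩
    · exact Int.emod_eq_of_lt (by positivity) (by exact_mod_cast hr)
    · intro i hi
      omega
  | succ m ih =>
    obtain ⟨v, hv1, hv2⟩ := ih
    obtain ⟨x, hx⟩ : ∃ x : ℤ, ((a m * v + T m) / (w * h ^ m) + a m * x) % h = 0 := by
      rcases ha m with h1 | h1
      · refine ⟨-((a m * v + T m) / (w * h ^ m)), ?_⟩
        rw [h1]
        push_cast
        rw [one_mul, one_mul, add_neg_cancel]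
        exact Int.zero_emod _
      · obtain ⟨c, hc⟩ := ho
        refine ⟨c * ((a m * v + T m) / (w * h ^ m)), ?_⟩
        have hc' : (h : ℤ) = 2 * c + 1 := by exact_mod_cast hc
        generalize (a m * v + T m) / (w * (h : ℤ) ^ m) = y
        rw [h1]
        have h2 : y + ((2 : ℕ) : ℤ) * ((c : ℤ) * y) = h * y := by
          rw [hc']
          push_cast
          ring
        rw [h2]
        exact Int.mul_emod_right _ _
    refine ⟨v + w * h ^ m * x, ?_, ?_⟩
    · rw [mul_assoc, Int.add_mul_emod_self_left]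
      exact hv1
    · intro i hi
      rcases Nat.lt_succ_iff_lt_or_eq.1 hi with h1 | h1
      · rw [DIG_shift h1 hw' hh']
        exact hv2 i h1
      · subst h1
        have h3 : (a i : ℤ) * (v + w * h ^ i * x) + T i =
            (a i * v + T i) + (w * h ^ i) * (a i * x) := by ring
        have h4 : (w : ℤ) * (h : ℤ) ^ i ≠ 0 := by positivity
        rw [h3, Int.add_mul_ediv_left _ _ h4]
        exact hx

theorem stmt_DIG : Stmt_DIG := by
  intro m w h r a T v0 hw hh ho hr ha
  obtain ⟨v, hv1, hv2⟩ := DIG_ex w h r a T hw hh ho hr ha m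
  have hw' : (0:ℤ) < w := by exact_mod_cast hw
  have hh' : (0:ℤ) < h := by exact_mod_cast (by omega : 0 < h)
  have hW : (0:ℤ) < w * h ^ m := by positivity
  have e : v0 + (v - v0) % (w * h ^ m) = v + w * h ^ m * (-((v - v0) / (w * h ^ m))) := by
    have h1 := Int.mul_ediv_add_emod (v - v0) (w * h ^ m)
    linarith
  refine ⟨v0 + (v - v0) % (w * h ^ m), ?_, ?_, ?_, ?_⟩
  · have := Int.emod_nonneg (v - v0) hW.ne'
    linarith
  · have := Int.emod_lt_of_pos (v - v0) hW
    linarith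
  · rw [e, mul_assoc, Int.add_mul_emod_self_left]
    exact hv1
  · intro i hi
    rw [e, DIG_shift hi hw' hh']
    exact hv2 i hi

end Pool.Agent.Work.MP_1ce445_fx
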