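import Pool.Agent.Work.MP_1ce445_fx.Interface

namespace Pool.Agent.Work.MP_1ce445_fx

open Finset Pool.Agent.Work.MP_1ce445_co_56 Pool.Agent.Work.MP_1ce445_lin

open Classical in
/-- number of the non-neighbours -/
lemma DSJ_sum {n : ℕ} (H : SimpleGraph (Fin n)) (Y : Finset (Fin n)) (hY : Y.Nonempty) (v : Fin n) :
    ∑ a ∈ Y, (if H.Adj v a then (0 : ℝ) else 1) = Y.card * nf H Y v := by
  have h1 : (Y.card : ℝ) ≠ 0 := by
    have := Finset.card_pos.mpr hY
    positivity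
  have h2 : ∑ a ∈ Y, (if H.Adj v a then (0 : ℝ) else 1) = Y.card - dg H Y v := by
    have h3 : ∀ a ∈ Y, (if H.Adj v a then (0 : ℝ) else 1) = 1 - (if H.Adj v a then (1 : ℝ) else 0) := by
      intro a _
      split_ifs <;> norm_num
    rw [Finset.sum_congr rfl h3, Finset.sum_sub_distrib]
    congr 1
    · simp
    · simp [dg]
  rw [h2, nf]
  field_simp

open Classical in
/-- the sum over all choices -/
lemma DSJ_total {n : ℕ} (H : SimpleGraph (Fin n)) (Y Z S : Finset (Fin n)) (hY : Y.Nonempty)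
    (hZ : Z.Nonempty) :
    ∑ a ∈ Y, ∑ b ∈ Y, ∑ c ∈ Z, ∑ d ∈ Z, ∑ v ∈ S,
      ((if H.Adj v a then (0 : ℝ) else 1) * (if H.Adj v b then (0 : ℝ) else 1)) *
      ((if H.Adj v c then (0 : ℝ) else 1) * (if H.Adj v d then (0 : ℝ) else 1)) =
      (Y.card : ℝ) ^ 2 * Z.card ^ 2 * ∑ v ∈ S, (nf H Y v * nf H Z v) ^ 2 := by
  have h3 : ∀ a ∈ Y, ∀ b ∈ Y, ∑ c ∈ Z, ∑ d ∈ Z, ∑ v ∈ S,
      ((if H.Adj v a then (0 : ℝ) else 1) * (if H.Adj v b then (0 : ℝ) else 1)) *
      ((if H.Adj v c then (0 : ℝ) else 1) * (if H.Adj v d then (0 : ℝ) else 1)) =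
      ∑ v ∈ S, ((if H.Adj v a then (0 : ℝ) else 1) * (if H.Adj v b then (0 : ℝ) else 1)) *
        (Z.card * nf H Z v) ^ 2 := by
    intro a _ b _
    have h4 : ∀ c ∈ Z, ∑ d ∈ Z, ∑ v ∈ S,
      ((if H.Adj v a then (0 : ℝ) else 1) * (if H.Adj v b then (0 : ℝ) else 1)) *
      ((if H.Adj v c then (0 : ℝ) else 1) * (if H.Adj v d then (0 : ℝ) else 1)) =
      ∑ v ∈ S, ((if H.Adj v a then (0 : ℝ) else 1) * (if H.Adj v b then (0 : ℝ) else 1)) *
        ((if H.Adj v c then (0 : ℝ) else 1) * (Z.card * nf H Z v)) := by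
      intro c _
      rw [Finset.sum_comm]
      refine Finset.sum_congr rfl fun v _ => ?_
      rw [← Finset.mul_sum, ← Finset.mul_sum, DSJ_sum H Z hZ v]
    rw [Finset.sum_congr rfl h4, Finset.sum_comm]
    refine Finset.sum_congr rfl fun v _ => ?_
    rw [← Finset.mul_sum, ← Finset.sum_mul, DSJ_sum H Z hZ v]
    ring
  rw [Finset.sum_congr rfl fun a ha => Finset.sum_congr rfl fun b hb => h3 a ha b hb]
  have h5 : ∀ a ∈ Y, ∑ b ∈ Y, ∑ v ∈ S,
      ((if H.Adj v a then (0 : ℝ) else 1) * (if H.Adj v b then (0 : ℝ) else 1)) *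
        (Z.card * nf H Z v) ^ 2 = ∑ v ∈ S, (if H.Adj v a then (0 : ℝ) else 1) *
        ((Y.card * nf H Y v) * (Z.card * nf H Z v) ^ 2) := by
    intro a _
    rw [Finset.sum_comm]
    refine Finset.sum_congr rfl fun v _ => ?_
    rw [← Finset.sum_mul, ← Finset.mul_sum, DSJ_sum H Y hY v]
    ring
  rw [Finset.sum_congr rfl h5, Finset.sum_comm, Finset.mul_sum]
  refine Finset.sum_congr rfl fun v _ => ?_
  rw [← Finset.sum_mul, DSJ_sum H Y hY v]
  ring

open Classical in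
/-- some choice dominates all of `S` -/
lemma DSJ_choice {n : ℕ} (H : SimpleGraph (Fin n)) (Y Z S : Finset (Fin n)) (hY : Y.Nonempty)
    (hZ : Z.Nonempty) (h : ∑ v ∈ S, (nf H Y v * nf H Z v) ^ 2 < 1) :
    ∃ a b c d : Fin n, ∀ v ∈ S, H.Adj v a ∨ H.Adj v b ∨ H.Adj v c ∨ H.Adj v d := by
  by_contra hcon
  push Not at hcon
  have hy : (0 : ℝ) < Y.card := by exact_mod_cast Finset.card_pos.mpr hY
  have hz : (0 : ℝ) < Z.card := by exact_mod_cast Finset.card_pos.mpr hZ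
  have h1 : ∀ a b c d : Fin n, (1 : ℝ) ≤ ∑ v ∈ S,
      ((if H.Adj v a then (0 : ℝ) else 1) * (if H.Adj v b then (0 : ℝ) else 1)) *
      ((if H.Adj v c then (0 : ℝ) else 1) * (if H.Adj v d then (0 : ℝ) else 1)) := by
    intro a b c d
    obtain ⟨v, hv, ha, hb, hc, hd⟩ := hcon a b c d
    have h2 := Finset.single_le_sum (f := fun v =>
      ((if H.Adj v a then (0 : ℝ) else 1) * (if H.Adj v b then (0 : ℝ) else 1)) *
      ((if H.Adj v c then (0 : ℝ) else 1) * (if H.Adj v d then (0 : ℝ) else 1)))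
      (fun v _ => by positivity) hv
    simpa [ha, hb, hc, hd] using h2
  have h3 : ∑ a ∈ Y, ∑ b ∈ Y, ∑ c ∈ Z, ∑ d ∈ Z, (1 : ℝ) ≤
      ∑ a ∈ Y, ∑ b ∈ Y, ∑ c ∈ Z, ∑ d ∈ Z, ∑ v ∈ S,
      ((if H.Adj v a then (0 : ℝ) else 1) * (if H.Adj v b then (0 : ℝ) else 1)) *
      ((if H.Adj v c then (0 : ℝ) else 1) * (if H.Adj v d then (0 : ℝ) else 1)) :=
    Finset.sum_le_sum fun a _ => Finset.sum_le_sum fun b _ => Finset.sum_le_sum fun c _ =>
      Finset.sum_le_sum fun d _ => h1 a b c d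
  rw [DSJ_total H Y Z S hY hZ] at h3
  have h4 : ∑ a ∈ Y, ∑ b ∈ Y, ∑ c ∈ Z, ∑ d ∈ Z, (1 : ℝ) = (Y.card : ℝ) ^ 2 * Z.card ^ 2 := by
    simp only [Finset.sum_const, nsmul_eq_mul]
    ring
  rw [h4] at h3
  have h7 : (0 : ℝ) < (Y.card : ℝ) ^ 2 * Z.card ^ 2 := by positivity
  nlinarith

theorem stmt_DSJ : Stmt_XCA → Stmt_DSJ := by
  classical
  intro XCA n k G e θ ε t hE ht i v v' w hv hv' hw hw'
  by_contra hne
  obtain ⟨hg, hs⟩ := XCA n k G e θ ε t hE ht i
  have hS := hE.sit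
  have hn : (0 : ℝ) < n := by exact_mod_cast hS.pos
  have hY : ∀ j, (low (G (e j)) θ).Nonempty := by
    intro j
    rw [← Finset.card_pos]
    have h1 := hS.big j
    have h2 : (0 : ℝ) < ((low (G (e j)) θ).card : ℝ) := by linarith
    exact_mod_cast h2
  obtain ⟨a, b, c, d, hd⟩ := DSJ_choice (G (e i)) (low (G (e (i + 1))) θ)
    (low (G (e (i + 2))) θ) (univ.filter (fun v => t v ≠ i)) (hY _) (hY _) (by
      have : ∑ v ∈ univ.filter (fun v => t v ≠ i),
          (nf (G (e i)) (low (G (e (i + 1))) θ) v * nf (G (e i)) (low (G (e (i + 2))) θ) v) ^ 2 ≤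
          1 / 2 := hs
      linarith)
  have h1 := gammaT_le_add (hS.fac.minDeg (e i)) ({a, b, c, d, w} : Finset (Fin n))
  have h2 : ({a, b, c, d, w} : Finset (Fin n)).card ≤ 5 := Finset.card_le_five
  have h3 : ((univ : Finset (Fin n)).filter (fun u => ∀ z ∈ ({a, b, c, d, w} : Finset (Fin n)),
      ¬ (G (e i)).Adj u z)) ⊆ ((univ.filter (fun u => t u = i)).erase v).erase v' := by
    intro u hu
    simp only [mem_filter, mem_univ, true_and, mem_insert, mem_singleton, forall_eq_or_imp,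
      forall_eq] at hu
    simp only [mem_erase, mem_filter, mem_univ, true_and]
    refine ⟨?_, ?_, ?_⟩
    · rintro rfl
      exact hu.2.2.2.2 hw'
    · rintro rfl
      exact hu.2.2.2.2 hw
    · by_contra htu
      have h4 := hd u (by simpa using htu)
      rcases h4 with h | h | h | h
      · exact hu.1 h
      · exact hu.2.1 h
      · exact hu.2.2.1 h
      · exact hu.2.2.2.1 h
  have h4 := Finset.card_le_card h3
  have hvm : v ∈ univ.filter (fun u => t u = i) := by simpa using hv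
  have hvm' : v' ∈ (univ.filter (fun u => t u = i)).erase v := by
    simp only [mem_erase, mem_filter, mem_univ, true_and]
    exact ⟨fun h => hne h.symm, hv'⟩
  rw [Finset.card_erase_of_mem hvm', Finset.card_erase_of_mem hvm] at h4
  have h5 : 2 ≤ (univ.filter (fun u => t u = i)).card := by
    have h6 : 1 ≤ ((univ.filter (fun u => t u = i)).erase v).card :=
      Finset.card_pos.mpr ⟨v', hvm'⟩
    rw [Finset.card_erase_of_mem hvm] at h6
    omega
  have h7 : gammaT (G (e i)) ≤ ({a, b, c, d, w} : Finset (Fin n)).card +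
      ((univ : Finset (Fin n)).filter (fun u => ∀ z ∈ ({a, b, c, d, w} : Finset (Fin n)),
      ¬ (G (e i)).Adj u z)).card := by convert h1
  have h8 : gammaT (G (e i)) = (univ.filter (fun v => t v = i)).card + 4 := hg
  have h9 : (univ.filter (fun v => t v = i)).card = (univ.filter (fun u => t u = i)).card := rfl
  omega

end Pool.Agent.Work.MP_1ce445_fx
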