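import Pool.Agent.Work.MP_1ce445_fx.InterfaceP
import Pool.Agent.Work.MP_1ce445_fx.DSJ

namespace Pool.Agent.Work.MP_1ce445_fx

open Finset Pool.Agent.Work.MP_1ce445_co_56 Pool.Agent.Work.MP_1ce445_lin

open Classical in
/-- the sum over all choices of `m` vertices -/
lemma DSM_pow {n : ℕ} (m : ℕ) (H : SimpleGraph (Fin n)) (Y : Finset (Fin n)) (hY : Y.Nonempty)
    (v : Fin n) :
    ∑ f ∈ Fintype.piFinset (fun _ : Fin m => Y), ∏ j, (if H.Adj v (f j) then (0 : ℝ) else 1) =
      (Y.card * nf H Y v) ^ m := by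
  rw [← Finset.prod_univ_sum (fun _ : Fin m => Y)
    (fun _ a => if H.Adj v a then (0 : ℝ) else 1), DSJ_sum H Y hY v]
  simp

open Classical in
/-- some choice dominates all of `S` -/
lemma DSM_choice {n : ℕ} (m : ℕ) (H : SimpleGraph (Fin n)) (Y Z S : Finset (Fin n))
    (hY : Y.Nonempty) (hZ : Z.Nonempty) (h : ∑ v ∈ S, (nf H Y v * nf H Z v) ^ m < 1) :
    ∃ f g : Fin m → Fin n, ∀ v ∈ S, (∃ j, H.Adj v (f j)) ∨ ∃ j, H.Adj v (g j) := by
  by_contra hcon
  push Not at hcon
  have hy : (0 : ℝ) < Y.card := by exact_mod_cast Finset.card_pos.mpr hY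
  have hz : (0 : ℝ) < Z.card := by exact_mod_cast Finset.card_pos.mpr hZ
  have h1 : ∀ f g : Fin m → Fin n, (1 : ℝ) ≤ ∑ v ∈ S,
      (∏ j, (if H.Adj v (f j) then (0 : ℝ) else 1)) *
      ∏ j, (if H.Adj v (g j) then (0 : ℝ) else 1) := by
    intro f g
    obtain ⟨v, hv, hf, hg⟩ := hcon f g
    have h2 := Finset.single_le_sum (f := fun v =>
      (∏ j, (if H.Adj v (f j) then (0 : ℝ) else 1)) *
      ∏ j, (if H.Adj v (g j) then (0 : ℝ) else 1))
      (fun v _ => mul_nonneg (Finset.prod_nonneg fun j _ => by positivity)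
        (Finset.prod_nonneg fun j _ => by positivity)) hv
    simpa [hf, hg] using h2
  have h3 : ∑ f ∈ Fintype.piFinset (fun _ : Fin m => Y),
      ∑ g ∈ Fintype.piFinset (fun _ : Fin m => Z), (1 : ℝ) ≤
      ∑ f ∈ Fintype.piFinset (fun _ : Fin m => Y),
      ∑ g ∈ Fintype.piFinset (fun _ : Fin m => Z), ∑ v ∈ S,
      (∏ j, (if H.Adj v (f j) then (0 : ℝ) else 1)) *
      ∏ j, (if H.Adj v (g j) then (0 : ℝ) else 1) :=
    Finset.sum_le_sum fun f _ => Finset.sum_le_sum fun g _ => h1 f g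
  have h5 : ∑ f ∈ Fintype.piFinset (fun _ : Fin m => Y),
      ∑ g ∈ Fintype.piFinset (fun _ : Fin m => Z), ∑ v ∈ S,
      (∏ j, (if H.Adj v (f j) then (0 : ℝ) else 1)) *
      ∏ j, (if H.Adj v (g j) then (0 : ℝ) else 1) =
      (Y.card : ℝ) ^ m * (Z.card : ℝ) ^ m * ∑ v ∈ S, (nf H Y v * nf H Z v) ^ m := by
    have h6 : ∀ f ∈ Fintype.piFinset (fun _ : Fin m => Y),
        ∑ g ∈ Fintype.piFinset (fun _ : Fin m => Z), ∑ v ∈ S,
        (∏ j, (if H.Adj v (f j) then (0 : ℝ) else 1)) *
        ∏ j, (if H.Adj v (g j) then (0 : ℝ) else 1) =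
        ∑ v ∈ S, (∏ j, (if H.Adj v (f j) then (0 : ℝ) else 1)) * (Z.card * nf H Z v) ^ m := by
      intro f _
      rw [Finset.sum_comm]
      refine Finset.sum_congr rfl fun v _ => ?_
      rw [← Finset.mul_sum, DSM_pow m H Z hZ v]
    rw [Finset.sum_congr rfl h6, Finset.sum_comm, Finset.mul_sum]
    refine Finset.sum_congr rfl fun v _ => ?_
    rw [← Finset.sum_mul, DSM_pow m H Y hY v]
    ring
  have h4 : ∑ f ∈ Fintype.piFinset (fun _ : Fin m => Y),
      ∑ g ∈ Fintype.piFinset (fun _ : Fin m => Z), (1 : ℝ) = (Y.card : ℝ) ^ m * (Z.card : ℝ) ^ m := by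
    simp
  rw [h4, h5] at h3
  have h7 : (0 : ℝ) < (Y.card : ℝ) ^ m * (Z.card : ℝ) ^ m := by positivity
  nlinarith

theorem stmt_DSM : Stmt_XCM → Stmt_DSM := by
  classical
  intro XCM m n k G e θ ε t hE ht i v v' w hv hv' hw hw'
  by_contra hne
  obtain ⟨hg, hs⟩ := XCM m n k G e θ ε t hE ht i
  have hS := hE.sit
  have hn : (0 : ℝ) < n := by exact_mod_cast hS.pos
  have hY : ∀ j, (low (G (e j)) θ).Nonempty := by
    intro j
    rw [← Finset.card_pos]
    have h1 := hS.big j
    have h2 : (0 : ℝ) < ((low (G (e j)) θ).card : ℝ) := by linarith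
    exact_mod_cast h2
  obtain ⟨f, g, hd⟩ := DSM_choice m (G (e i)) (low (G (e (i + 1))) θ)
    (low (G (e (i + 2))) θ) (univ.filter (fun v => t v ≠ i)) (hY _) (hY _) (by
      have : ∑ v ∈ univ.filter (fun v => t v ≠ i),
          (nf (G (e i)) (low (G (e (i + 1))) θ) v * nf (G (e i)) (low (G (e (i + 2))) θ) v) ^ m ≤
          1 / 2 := hs
      linarith)
  have h1 := gammaT_le_add (hS.fac.minDeg (e i))
    (insert w (univ.image f ∪ univ.image g) : Finset (Fin n))
  have h2 : (insert w (univ.image f ∪ univ.image g) : Finset (Fin n)).card ≤ 2 * m + 1 := by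
    refine (Finset.card_insert_le _ _).trans ?_
    have h8 := Finset.card_union_le (univ.image f) (univ.image g)
    have h9 : (univ.image f).card ≤ m := by
      have := Finset.card_image_le (s := (univ : Finset (Fin m))) (f := f)
      simpa using this
    have h10 : (univ.image g).card ≤ m := by
      have := Finset.card_image_le (s := (univ : Finset (Fin m))) (f := g)
      simpa using this
    omega
  have h3 : ((univ : Finset (Fin n)).filter (fun u => ∀ z ∈ (insert w (univ.image f ∪ univ.image g) :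
      Finset (Fin n)), ¬ (G (e i)).Adj u z)) ⊆ ((univ.filter (fun u => t u = i)).erase v).erase v' := by
    intro u hu
    simp only [mem_filter, mem_univ, true_and, mem_insert, mem_union, mem_image,
      forall_eq_or_imp] at hu
    simp only [mem_erase, mem_filter, mem_univ, true_and]
    refine ⟨?_, ?_, ?_⟩
    · rintro rfl
      exact hu.1 hw'
    · rintro rfl
      exact hu.1 hw
    · by_contra htu
      have h4 := hd u (by simpa using htu)
      rcases h4 with ⟨j, h⟩ | ⟨j, h⟩
      · exact hu.2 (f j) (Or.inl ⟨j, rfl⟩) h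
      · exact hu.2 (g j) (Or.inr ⟨j, rfl⟩) h
  have h4 := Finset.card_le_card h3
  have hvm : v ∈ univ.filter (fun u => t u = i) := by simpa using hv
  have hvm' : v' ∈ (univ.filter (fun u => t u = i)).erase v := by
    simp only [mem_erase, mem_filter, mem_univ, true_and]
    exact ⟨fun h => hne h.symm, hv'⟩
  rw [Finset.card_erase_of_mem hvm', Finset.card_erase_of_mem hvm] at h4
  have h5 : 2 ≤ (univ.filter (fun u => t u = i)).card := by
    have h6 : 1 ≤ ((univ.filter (fun u => t u = i)).erase v).card :=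
      Finset.card_pos.mpr ⟨v', hvm'⟩
    rw [Finset.card_erase_of_mem hvm] at h6
    omega
  have h7 : gammaT (G (e i)) ≤ (insert w (univ.image f ∪ univ.image g) : Finset (Fin n)).card +
      ((univ : Finset (Fin n)).filter (fun u => ∀ z ∈ (insert w (univ.image f ∪ univ.image g) :
      Finset (Fin n)), ¬ (G (e i)).Adj u z)).card := by convert h1
  have h8 : gammaT (G (e i)) = (univ.filter (fun v => t v = i)).card + 2 * m := hg
  have h9 : (univ.filter (fun v => t v = i)).card = (univ.filter (fun u => t u = i)).card := rfl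
  omega

end Pool.Agent.Work.MP_1ce445_fx
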