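import Pool.Agent.Work.MP_1ce445_fx.InterfaceQ
import Pool.Agent.Work.MP_1ce445_fx.DSM

namespace Pool.Agent.Work.MP_1ce445_fx

open Finset Pool.Agent.Work.MP_1ce445_co_56 Pool.Agent.Work.MP_1ce445_lin

theorem stmt_DSQ : Stmt_XCQ → Stmt_DSQ := by
  classical
  intro XCQ m n k G e θ ε t hE ht i v v' w hv hv' hw hw'
  by_contra hne
  obtain ⟨hg, hs⟩ := XCQ m n k G e θ ε t hE ht i
  have hS := hE.sit
  have hn : (0 : ℝ) < n := by exact_mod_cast hS.pos
  have hY : ∀ j, (low (G (e j)) θ).Nonempty := by
    intro j
    rw [← Finset.card_pos]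
    have h1 := hS.big j
    have h2 : (0 : ℝ) < ((low (G (e j)) θ).card : ℝ) := by linarith
    exact_mod_cast h2
  obtain ⟨f, g, hd⟩ := DSM_choice m (G (e i)) (low (G (e (i + 1))) θ)
    (low (G (e (i + 2))) θ) (univ.filter (fun v => t v ≠ i)) (hY _) (hY _) (by
      have : ∑ v ∈ univ.filter (fun v => t v ≠ i),
          (nf (G (e i)) (low (G (e (i + 1))) θ) v * nf (G (e i)) (low (G (e (i + 2))) θ) v) ^ m ≤
          1 / 2 := hs
      linarith)
  have h1 := gammaT_le_add (hS.fac.minDeg (e i))
    (insert w (univ.image f ∪ univ.image g) : Finset (Fin n))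
  have h2 : (insert w (univ.image f ∪ univ.image g) : Finset (Fin n)).card ≤ 2 * m + 1 := by
    refine (Finset.card_insert_le _ _).trans ?_
    have h8 := Finset.card_union_le (univ.image f) (univ.image g)
    have h9 : (univ.image f).card ≤ m := by
      have := Finset.card_image_le (s := (univ : Finset (Fin m))) (f := f)
      simpa using this
    have h10 : (univ.image g).card ≤ m := by
      have := Finset.card_image_le (s := (univ : Finset (Fin m))) (f := g)
      simpa using this
    omega
  have h3 : ((univ : Finset (Fin n)).filter (fun u => ∀ z ∈ (insert w (univ.image f ∪ univ.image g) :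
      Finset (Fin n)), ¬ (G (e i)).Adj u z)) ⊆ ((univ.filter (fun u => t u = i)).erase v).erase v' := by
    intro u hu
    simp only [mem_filter, mem_univ, true_and, mem_insert, mem_union, mem_image,
      forall_eq_or_imp] at hu
    simp only [mem_erase, mem_filter, mem_univ, true_and]
    refine ⟨?_, ?_, ?_⟩
    · rintro rfl
      exact hu.1 hw'
    · rintro rfl
      exact hu.1 hw
    · by_contra htu
      have h4 := hd u (by simpa using htu)
      rcases h4 with ⟨j, h⟩ | ⟨j, h⟩
      · exact hu.2 (f j) (Or.inl ⟨j, rfl⟩) h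
      · exact hu.2 (g j) (Or.inr ⟨j, rfl⟩) h
  have h4 := Finset.card_le_card h3
  have hvm : v ∈ univ.filter (fun u => t u = i) := by simpa using hv
  have hvm' : v' ∈ (univ.filter (fun u => t u = i)).erase v := by
    simp only [mem_erase, mem_filter, mem_univ, true_and]
    exact ⟨fun h => hne h.symm, hv'⟩
  rw [Finset.card_erase_of_mem hvm', Finset.card_erase_of_mem hvm] at h4
  have h5 : 2 ≤ (univ.filter (fun u => t u = i)).card := by
    have h6 : 1 ≤ ((univ.filter (fun u => t u = i)).erase v).card :=
      Finset.card_pos.mpr ⟨v', hvm'⟩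
    rw [Finset.card_erase_of_mem hvm] at h6
    omega
  have h7 : gammaT (G (e i)) ≤ (insert w (univ.image f ∪ univ.image g) : Finset (Fin n)).card +
      ((univ : Finset (Fin n)).filter (fun u => ∀ z ∈ (insert w (univ.image f ∪ univ.image g) :
      Finset (Fin n)), ¬ (G (e i)).Adj u z)).card := by convert h1
  have h8 : gammaT (G (e i)) = (univ.filter (fun v => t v = i)).card + 2 * m := hg
  have h9 : (univ.filter (fun v => t v = i)).card = (univ.filter (fun u => t u = i)).card := rfl
  omega

end Pool.Agent.Work.MP_1ce445_fx
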