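import Pool.Agent.Work.MP_1ce445_fx.InterfaceU
import Pool.Agent.Work.MP_1ce445_fx.DSJ

namespace Pool.Agent.Work.MP_1ce445_fx

open Finset Pool.Agent.Work.MP_1ce445_co_56 Pool.Agent.Work.MP_1ce445_lin

theorem stmt_DSU : Stmt_XCU → Stmt_DSU := by
  classical
  intro XCU n k G e θ ε t hE ht i v v' w hv hv' hw hw'
  by_contra hne
  obtain ⟨hg, hs⟩ := XCU n k G e θ ε t hE ht i
  have hS := hE.sit
  have hn : (0 : ℝ) < n := by exact_mod_cast hS.pos
  have hY : ∀ j, (low (G (e j)) θ).Nonempty := by
    intro j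
    rw [← Finset.card_pos]
    have h1 := hS.big j
    have h2 : (0 : ℝ) < ((low (G (e j)) θ).card : ℝ) := by linarith
    exact_mod_cast h2
  obtain ⟨a, b, c, d, hd⟩ := DSJ_choice (G (e i)) (low (G (e (i + 1))) θ)
    (low (G (e (i + 2))) θ) (univ.filter (fun v => t v ≠ i)) (hY _) (hY _) (by
      have : ∑ v ∈ univ.filter (fun v => t v ≠ i),
          (nf (G (e i)) (low (G (e (i + 1))) θ) v * nf (G (e i)) (low (G (e (i + 2))) θ) v) ^ 2 ≤
          1 / 2 := hs
      linarith)
  have h1 := gammaT_le_add (hS.fac.minDeg (e i)) ({a, b, c, d, w} : Finset (Fin n))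
  have h2 : ({a, b, c, d, w} : Finset (Fin n)).card ≤ 5 := Finset.card_le_five
  have h3 : ((univ : Finset (Fin n)).filter (fun u => ∀ z ∈ ({a, b, c, d, w} : Finset (Fin n)),
      ¬ (G (e i)).Adj u z)) ⊆ ((univ.filter (fun u => t u = i)).erase v).erase v' := by
    intro u hu
    simp only [mem_filter, mem_univ, true_and, mem_insert, mem_singleton, forall_eq_or_imp,
      forall_eq] at hu
    simp only [mem_erase, mem_filter, mem_univ, true_and]
    refine ⟨?_, ?_, ?_⟩
    · rintro rfl
      exact hu.2.2.2.2 hw'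
    · rintro rfl
      exact hu.2.2.2.2 hw
    · by_contra htu
      have h4 := hd u (by simpa using htu)
      rcases h4 with h | h | h | h
      · exact hu.1 h
      · exact hu.2.1 h
      · exact hu.2.2.1 h
      · exact hu.2.2.2.1 h
  have h4 := Finset.card_le_card h3
  have hvm : v ∈ univ.filter (fun u => t u = i) := by simpa using hv
  have hvm' : v' ∈ (univ.filter (fun u => t u = i)).erase v := by
    simp only [mem_erase, mem_filter, mem_univ, true_and]
    exact ⟨fun h => hne h.symm, hv'⟩
  rw [Finset.card_erase_of_mem hvm', Finset.card_erase_of_mem hvm] at h4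
  have h5 : 2 ≤ (univ.filter (fun u => t u = i)).card := by
    have h6 : 1 ≤ ((univ.filter (fun u => t u = i)).erase v).card :=
      Finset.card_pos.mpr ⟨v', hvm'⟩
    rw [Finset.card_erase_of_mem hvm] at h6
    omega
  have h7 : gammaT (G (e i)) ≤ ({a, b, c, d, w} : Finset (Fin n)).card +
      ((univ : Finset (Fin n)).filter (fun u => ∀ z ∈ ({a, b, c, d, w} : Finset (Fin n)),
      ¬ (G (e i)).Adj u z)).card := by convert h1
  have h8 : gammaT (G (e i)) = (univ.filter (fun v => t v = i)).card + 4 := hg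
  have h9 : (univ.filter (fun v => t v = i)).card = (univ.filter (fun u => t u = i)).card := rfl
  omega

end Pool.Agent.Work.MP_1ce445_fx
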