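import Pool.Agent.Work.MP_1ce445_fx.InterfaceM

/-!
Block GM1 of THEOREM STAIRCASE for MP_1ce445_co: the construction is a factorization.
-/

namespace Pool.Agent.Work.MP_1ce445_fx

open Finset Pool.Agent.Work.MP_1ce445_co_56 Pool.Agent.Work.MP_1ce445_lin

section GM1

variable {q : ℕ}

lemma GM1_two (hq : 1 ≤ q) : (q : ZMod (2 * q - 1)) * 2 = 1 := by
  have h : ((2 * q - 1 + 1 : ℕ) : ZMod (2 * q - 1)) = 1 := by
    rw [Nat.cast_add, ZMod.natCast_self, zero_add, Nat.cast_one]
  have h2 : 2 * q - 1 + 1 = q * 2 := by omega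
  rw [h2, Nat.cast_mul] at h
  exact_mod_cast h

lemma GM1_dbl (hq : 1 ≤ q) {x y : ZMod (2 * q - 1)} (h : x + x = y + y) : x = y := by
  have h1 := GM1_two hq
  calc x = ((q : ZMod (2 * q - 1)) * 2) * x := by rw [h1, one_mul]
    _ = q * (x + x) := by ring
    _ = q * (y + y) := by rw [h]
    _ = ((q : ZMod (2 * q - 1)) * 2) * y := by ring
    _ = y := by rw [h1, one_mul]

lemma GM1_dbl0 (hq : 1 ≤ q) {x : ZMod (2 * q - 1)} (h : x + x = 0) : x = 0 :=
  GM1_dbl hq (by rw [h, add_zero])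

lemma GM1_lbl_symm (u v : Option (ZMod (2 * q - 1))) : lbl u v = lbl v u := by
  cases u <;> cases v <;> simp [lbl, add_comm]

lemma GM1_pno (hq : 1 ≤ q) {u v : Option (ZMod (2 * q - 1))} (h : lbl u v = 0) (hne : u ≠ v) :
    pno u = pno v := by
  haveI : NeZero (2 * q - 1) := ⟨by omega⟩
  cases u with
  | none =>
    cases v with
    | none => exact absurd rfl hne
    | some y =>
      have hy : y = 0 := GM1_dbl0 hq h
      simp [pno, hy]
  | some x =>
    cases v with
    | none =>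
      have hx : x = 0 := GM1_dbl0 hq h
      simp [pno, hx]
    | some y =>
      have hxy : x + y = 0 := h
      have hy : y = -x := (neg_eq_of_add_eq_zero_right hxy).symm
      subst hy
      by_cases hx : x = 0
      · simp [pno, hx]
      · have hv : (-x).val = 2 * q - 1 - x.val := by rw [ZMod.neg_val, if_neg hx]
        have hlt : x.val < 2 * q - 1 := ZMod.val_lt x
        simp only [pno, hv]
        omega

lemma GM1_cls (hq : 1 ≤ q) {u v : Option (ZMod (2 * q - 1))} (h : lbl u v = 0) (hne : u ≠ v) :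
    cls u = cls v := by
  unfold cls
  rw [Fin.mk.injEq, GM1_pno hq h hne]

variable {R : ℕ} {hR : 0 < R} {B : Fin R → Fin R → Bool} {L : Finset (ZMod (2 * q - 1))}

lemma GM1_rule_symm (hB : ∀ a b, B a b = B b a) (u v : Option (ZMod (2 * q - 1))) :
    ruleM R hR B u v = ruleM R hR B v u := by
  unfold ruleM
  by_cases h : cls u = cls v
  · rw [if_pos h, if_pos h.symm, hB (prt R hR u) (prt R hR v), h]
  · rw [if_neg h, if_neg (Ne.symm h), add_comm]

lemma GM1_adjl (l : L) (u v : Option (ZMod (2 * q - 1))) :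
    (GM R hR B L (Sum.inl l)).Adj u v ↔ u ≠ v ∧ lbl u v = l.1 := by
  unfold GM
  rw [SimpleGraph.fromRel_adj]
  simp only [GM1_lbl_symm v u, or_self]

lemma GM1_adjr (hq : 1 ≤ q) (hB : ∀ a b, B a b = B b a) (j : Fin 3)
    (u v : Option (ZMod (2 * q - 1))) :
    (GM R hR B L (Sum.inr j)).Adj u v ↔ u ≠ v ∧ lbl u v ∉ L ∧
      (lbl u v = 0 → cls u = j) ∧ (lbl u v ≠ 0 → ruleM R hR B u v = j) := by
  unfold GM
  rw [SimpleGraph.fromRel_adj]
  by_cases hne : u = v
  · simp [hne]
  · have hne' : u ≠ v := hne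
    by_cases h0 : lbl u v = 0
    · have hc := GM1_cls hq h0 hne'
      simp only [GM1_lbl_symm v u, h0, hc, if_true]
      tauto
    · simp only [GM1_lbl_symm v u, GM1_rule_symm hB v u, h0, if_false, or_self]
      tauto

/-- every vertex has a neighbour of given label `l ≠ 0` -/
lemma GM1_exl (hq : 1 ≤ q) (l : ZMod (2 * q - 1)) (hl : l ≠ 0) (u : Option (ZMod (2 * q - 1))) :
    ∃ v, u ≠ v ∧ lbl u v = l := by
  cases u with
  | none =>
    refine ⟨some (q * l), by simp, ?_⟩
    have h1 := GM1_two hq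
    calc (q : ZMod (2 * q - 1)) * l + q * l = (q * 2) * l := by ring
      _ = l := by rw [h1, one_mul]
  | some x =>
    by_cases hx : x + x = l
    · exact ⟨none, by simp, hx⟩
    · refine ⟨some (l - x), ?_, ?_⟩
      · intro h
        have h2 : x = l - x := Option.some.inj h
        exact hx (by nth_rewrite 2 [h2]; ring)
      · show x + (l - x) = l
        ring

/-- every vertex has a partner of label `0` -/
lemma GM1_ex0 (hq : 1 ≤ q) (u : Option (ZMod (2 * q - 1))) : ∃ v, u ≠ v ∧ lbl u v = 0 := by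
  cases u with
  | none => exact ⟨some 0, by simp, by simp [lbl]⟩
  | some x =>
    by_cases hx : x = 0
    · exact ⟨none, by simp, by simp [lbl, hx]⟩
    · refine ⟨some (-x), ?_, by simp [lbl]⟩
      intro h
      have h2 : x = -x := Option.some.inj h
      exact hx (GM1_dbl0 hq (by nth_rewrite 2 [h2]; ring))

lemma GM1_third : ∀ a b : Fin 3, a ≠ b → a ≠ -(b + a) ∧ -(a + -(b + a)) = b := by decide

lemma GM1_nat_inj {s t : ℕ} (hs : s < 2 * q - 1) (ht : t < 2 * q - 1)
    (h : (s : ZMod (2 * q - 1)) = t) : s = t := by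
  have := congrArg ZMod.val h
  rwa [ZMod.val_natCast_of_lt hs, ZMod.val_natCast_of_lt ht] at this

/-- the class of the vertices `s`, `-s` for `1 ≤ s < q` -/
lemma GM1_cls_nat (hq : 1 ≤ q) {s : ℕ} (h1 : 1 ≤ s) (hs : s < q) (l : Fin 3) (hl : s % 3 = l.val) :
    cls (some (s : ZMod (2 * q - 1))) = l ∧ cls (some (-(s : ZMod (2 * q - 1)))) = l := by
  haveI : NeZero (2 * q - 1) := ⟨by omega⟩
  have hv : (s : ZMod (2 * q - 1)).val = s := ZMod.val_natCast_of_lt (by omega)
  have hp : pno (some (s : ZMod (2 * q - 1))) = s := by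
    simp only [pno, hv]
    omega
  have h0 : (s : ZMod (2 * q - 1)) ≠ 0 := by
    intro h
    rw [h, ZMod.val_zero] at hv
    omega
  have ha : cls (some (s : ZMod (2 * q - 1))) = l := by
    apply Fin.ext
    show pno (some (s : ZMod (2 * q - 1))) % 3 = l.val
    rw [hp, hl]
  refine ⟨ha, ?_⟩
  rw [← ha]
  refine (GM1_cls hq (u := some (s : ZMod (2 * q - 1))) (v := some (-(s : ZMod (2 * q - 1))))
    (by simp [lbl]) ?_).symm
  intro h
  have h2 : (s : ZMod (2 * q - 1)) = -s := Option.some.inj h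
  exact h0 (GM1_dbl0 hq (by nth_rewrite 2 [h2]; ring))

/-- many vertices of a given class -/
lemma GM1_many (hq : 100 ≤ q) (l : Fin 3) :
    ∃ D : Finset (ZMod (2 * q - 1)), D.card = 2 * ((q - 1) / 3) ∧ ∀ y ∈ D, cls (some y) = l := by
  classical
  haveI : NeZero (2 * q - 1) := ⟨by omega⟩
  obtain ⟨a, ha1, ha3, hal⟩ : ∃ a : ℕ, 1 ≤ a ∧ a ≤ 3 ∧ a % 3 = l.val := by
    have := l.isLt
    by_cases h : l.val = 0
    · exact ⟨3, by norm_num, le_refl _, by omega⟩
    · exact ⟨l.val, by omega, by omega, by omega⟩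
  have hb : ∀ t, t < (q - 1) / 3 → 3 * t + a < q := fun t ht => by omega
  have hlt : ∀ t, t < (q - 1) / 3 → 3 * t + a < 2 * q - 1 := fun t ht => by
    have := hb t ht; omega
  have hc : ∀ t, t < (q - 1) / 3 → cls (some ((3 * t + a : ℕ) : ZMod (2 * q - 1))) = l ∧
      cls (some (-((3 * t + a : ℕ) : ZMod (2 * q - 1)))) = l := fun t ht =>
    GM1_cls_nat (by omega) (by omega) (hb t ht) l (by omega)
  let D1 : Finset (ZMod (2 * q - 1)) := (range ((q - 1) / 3)).image (fun t => ((3 * t + a : ℕ) : ZMod (2 * q - 1)))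
  let D2 : Finset (ZMod (2 * q - 1)) := (range ((q - 1) / 3)).image (fun t => -((3 * t + a : ℕ) : ZMod (2 * q - 1)))
  have hc1 : D1.card = (q - 1) / 3 := by
    rw [card_image_of_injOn, card_range]
    intro s hs t ht h
    have hs' := mem_range.1 (mem_coe.1 hs)
    have ht' := mem_range.1 (mem_coe.1 ht)
    have := GM1_nat_inj (hlt s hs') (hlt t ht') h
    omega
  have hc2 : D2.card = (q - 1) / 3 := by
    rw [card_image_of_injOn, card_range]
    intro s hs t ht h
    have hs' := mem_range.1 (mem_coe.1 hs)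
    have ht' := mem_range.1 (mem_coe.1 ht)
    have := GM1_nat_inj (hlt s hs') (hlt t ht') (neg_injective h)
    omega
  have hdis : Disjoint D1 D2 := by
    rw [disjoint_left]
    intro y h1 h2
    obtain ⟨s, hs, rfl⟩ := mem_image.1 h1
    obtain ⟨t, ht, h⟩ := mem_image.1 h2
    have hs' := hb s (mem_range.1 hs)
    have ht' := hb t (mem_range.1 ht)
    have h3 : ((3 * s + a + (3 * t + a) : ℕ) : ZMod (2 * q - 1)) = (0 : ℕ) := by
      rw [Nat.cast_add, ← h, neg_add_cancel, Nat.cast_zero]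
    have := GM1_nat_inj (by omega) (by omega) h3
    omega
  refine ⟨D1 ∪ D2, ?_, ?_⟩
  · rw [card_union_of_disjoint hdis, hc1, hc2]
    ring
  · intro y hy
    rcases mem_union.1 hy with h | h
    · obtain ⟨t, ht, rfl⟩ := mem_image.1 h
      exact (hc t (mem_range.1 ht)).1
    · obtain ⟨t, ht, rfl⟩ := mem_image.1 h
      exact (hc t (mem_range.1 ht)).2

/-- a vertex of given class whose label with `u` is not in `L` and not `0` -/
lemma GM1_free {k : ℕ} (hq : 100 ≤ q) (hk : 3 ≤ k) (hkq : 2 * k ≤ q) (hL : L.card = k - 3)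
    (u : Option (ZMod (2 * q - 1))) (l : Fin 3) :
    ∃ v, cls v = l ∧ lbl u v ∉ L ∧ lbl u v ≠ 0 := by
  classical
  obtain ⟨D, hD, hDc⟩ := GM1_many hq l
  have hinj : Function.Injective (fun y : ZMod (2 * q - 1) => lbl u (some y)) := by
    intro y z h
    cases u with
    | none => exact GM1_dbl (by omega) h
    | some x => exact add_left_cancel (h : x + y = x + z)
  have hex : ∃ z ∈ D.image (fun y => lbl u (some y)), z ∉ insert 0 L := by
    by_contra hcon
    push Not at hcon
    have h1 : (D.image (fun y => lbl u (some y))).card ≤ (insert 0 L).card :=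
      card_le_card (fun z hz => hcon z hz)
    rw [card_image_of_injective _ hinj, hD] at h1
    have h2 := card_insert_le (0 : ZMod (2 * q - 1)) L
    omega
  obtain ⟨z, hz, hzL⟩ := hex
  obtain ⟨y, hy, rfl⟩ := mem_image.1 hz
  rw [mem_insert, not_or] at hzL
  exact ⟨some y, hDc y hy, hzL.2, hzL.1⟩

end GM1

theorem stmt_GM1 : Stmt_GM1 := by
  intro q k R hR B L hq hk hkq hL h0 hB
  have hq1 : 1 ≤ q := by omega
  refine IsFactorization.of_adj ?_ ?_ ?_
  · intro i j v w h1 h2
    cases i with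
    | inl l =>
      cases j with
      | inl l' =>
        rw [GM1_adjl] at h1 h2
        exact congrArg Sum.inl (Subtype.ext (h1.2.symm.trans h2.2))
      | inr j =>
        rw [GM1_adjl] at h1
        rw [GM1_adjr hq1 hB] at h2
        exact absurd (h1.2 ▸ l.2) h2.2.1
    | inr i =>
      cases j with
      | inl l' =>
        rw [GM1_adjl] at h2
        rw [GM1_adjr hq1 hB] at h1
        exact absurd (h2.2 ▸ l'.2) h1.2.1
      | inr j =>
        rw [GM1_adjr hq1 hB] at h1 h2
        by_cases h : lbl v w = 0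
        · rw [← h1.2.2.1 h, ← h2.2.2.1 h]
        · rw [← h1.2.2.2 h, ← h2.2.2.2 h]
  · intro v w hvw
    by_cases h : lbl v w ∈ L
    · exact ⟨Sum.inl ⟨_, h⟩, (GM1_adjl _ _ _).2 ⟨hvw, rfl⟩⟩
    · by_cases h1 : lbl v w = 0
      · exact ⟨Sum.inr (cls v), (GM1_adjr hq1 hB _ _ _).2
          ⟨hvw, h, fun _ => rfl, fun h2 => absurd h1 h2⟩⟩
      · exact ⟨Sum.inr (ruleM R hR B v w), (GM1_adjr hq1 hB _ _ _).2
          ⟨hvw, h, fun h2 => absurd h2 h1, fun _ => rfl⟩⟩
  · intro i u
    cases i with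
    | inl l =>
      obtain ⟨v, hne, hv⟩ := GM1_exl hq1 l.1 (fun h => h0 (h ▸ l.2)) u
      exact ⟨v, (GM1_adjl _ _ _).2 ⟨hne, hv⟩⟩
    | inr j =>
      by_cases hu : cls u = j
      · obtain ⟨v, hne, hv⟩ := GM1_ex0 hq1 u
        exact ⟨v, (GM1_adjr hq1 hB _ _ _).2
          ⟨hne, by rw [hv]; exact h0, fun _ => hu, fun h2 => absurd hv h2⟩⟩
      · obtain ⟨v, hv, hvL, hv0⟩ := GM1_free hq hk hkq hL u (-(j + cls u))
        obtain ⟨h1, h2⟩ := GM1_third (cls u) j hu
        have hne : cls u ≠ cls v := by rw [hv]; exact h1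
        refine ⟨v, (GM1_adjr hq1 hB _ _ _).2
          ⟨fun h => hne (by rw [h]), hvL, fun h => absurd h hv0, fun _ => ?_⟩⟩
        unfold ruleM
        rw [if_neg hne, hv, h2]

end Pool.Agent.Work.MP_1ce445_fx
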