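import Pool.Agent.Work.MP_1ce445_fx.InterfaceM

/-!
Block GM2 of THEOREM STAIRCASE for MP_1ce445_co: the total domination number of the factors of the labels `l ∈ L`.
-/

namespace Pool.Agent.Work.MP_1ce445_fx

open Finset Pool.Agent.Work.MP_1ce445_co_56 Pool.Agent.Work.MP_1ce445_lin

section GM2

variable {q : ℕ}

lemma GM2_two (hq : 1 ≤ q) : (q : ZMod (2 * q - 1)) * 2 = 1 := by
  have h : ((2 * q - 1 + 1 : ℕ) : ZMod (2 * q - 1)) = 1 := by
    rw [Nat.cast_add, ZMod.natCast_self, zero_add, Nat.cast_one]
  have h2 : 2 * q - 1 + 1 = q * 2 := by omega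
  rw [h2, Nat.cast_mul] at h
  exact_mod_cast h

lemma GM2_dbl (hq : 1 ≤ q) {x y : ZMod (2 * q - 1)} (h : x + x = y + y) : x = y := by
  have h1 := GM2_two hq
  calc x = ((q : ZMod (2 * q - 1)) * 2) * x := by rw [h1, one_mul]
    _ = q * (x + x) := by ring
    _ = q * (y + y) := by rw [h]
    _ = ((q : ZMod (2 * q - 1)) * 2) * y := by ring
    _ = y := by rw [h1, one_mul]

/-- the vertex whose label with `u` is `l` -/
def GM2_g (l : ZMod (2 * q - 1)) (u : Option (ZMod (2 * q - 1))) : Option (ZMod (2 * q - 1)) :=
  match u with
  | none => some (q * l)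
  | some x => if x + x = l then none else some (l - x)

lemma GM2_half (hq : 1 ≤ q) (l : ZMod (2 * q - 1)) : (q : ZMod (2 * q - 1)) * l + q * l = l := by
  calc (q : ZMod (2 * q - 1)) * l + q * l = (q * 2) * l := by ring
    _ = l := by rw [GM2_two hq, one_mul]

lemma GM2_symm (u v : Option (ZMod (2 * q - 1))) : lbl u v = lbl v u := by
  cases u <;> cases v <;> simp [lbl, add_comm]

lemma GM2_eq (hq : 1 ≤ q) (l : ZMod (2 * q - 1)) (u v : Option (ZMod (2 * q - 1)))
    (hne : u ≠ v) (h : lbl u v = l) : v = GM2_g l u := by
  cases u with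
  | none =>
    cases v with
    | none => exact absurd rfl hne
    | some y =>
      have h1 : y + y = l := h
      have h2 : y = q * l := GM2_dbl hq (by rw [h1, GM2_half hq])
      show some y = some (q * l)
      rw [h2]
  | some x =>
    cases v with
    | none =>
      have h1 : x + x = l := h
      show none = if x + x = l then none else some (l - x)
      rw [if_pos h1]
    | some y =>
      have h1 : x + y = l := h
      have h2 : ¬ x + x = l := by
        intro h3
        apply hne
        rw [← h1] at h3
        rw [add_left_cancel h3]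
      show some y = if x + x = l then none else some (l - x)
      rw [if_neg h2, ← h1, add_sub_cancel_left]

lemma GM2_invol (hq : 1 ≤ q) (l : ZMod (2 * q - 1)) (u : Option (ZMod (2 * q - 1))) :
    GM2_g l (GM2_g l u) = u := by
  cases u with
  | none =>
    show (if (q : ZMod (2 * q - 1)) * l + q * l = l then none else some (l - q * l)) = none
    rw [if_pos (GM2_half hq l)]
  | some x =>
    by_cases h : x + x = l
    · have h1 : GM2_g l (some x) = none := by
        show (if x + x = l then none else some (l - x)) = none
        rw [if_pos h]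
      rw [h1]
      show some ((q : ZMod (2 * q - 1)) * l) = some x
      rw [GM2_dbl hq ((GM2_half hq l).trans h.symm)]
    · have h1 : GM2_g l (some x) = some (l - x) := by
        show (if x + x = l then none else some (l - x)) = some (l - x)
        rw [if_neg h]
      rw [h1]
      show (if (l - x) + (l - x) = l then none else some (l - (l - x))) = some x
      have h2 : ¬ (l - x) + (l - x) = l := by
        intro h3
        apply h
        have h4 : l - (x + x) = 0 := by
          calc l - (x + x) = (l - x) + (l - x) - l := by ring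
            _ = 0 := by rw [h3, sub_self]
        exact (sub_eq_zero.1 h4).symm
      rw [if_neg h2, sub_sub_cancel]

end GM2

theorem stmt_GM2 : Stmt_GM1 → Stmt_GM2 := by
  intro hGM1 q k R hR B L hq hk hkq hL h0 hB l
  have hq1 : 1 ≤ q := by omega
  haveI : NeZero (2 * q - 1) := ⟨by omega⟩
  have hF := hGM1 q k R hR B L hq hk hkq hL h0 hB
  have hinj : Function.Injective (GM2_g l.1) :=
    Function.LeftInverse.injective (g := GM2_g l.1) (GM2_invol hq1 l.1)
  have h1 := card_le_gammaT (G := GM R hR B L (Sum.inl l)) (hF.minDeg (Sum.inl l))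
    (id : Option (ZMod (2 * q - 1)) → Option (ZMod (2 * q - 1))) (GM2_g l.1) hinj (by
      intro u w h
      unfold GM at h
      rw [SimpleGraph.fromRel_adj] at h
      rcases h.2 with h2 | h2
      · exact GM2_eq hq1 l.1 u w h.1 h2
      · exact GM2_eq hq1 l.1 u w h.1 ((GM2_symm u w).trans h2))
  rw [Fintype.card_option, ZMod.card] at h1
  omega

end Pool.Agent.Work.MP_1ce445_fx
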