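import Pool.Agent.Work.MP_1ce445_fx.InterfaceQ
import Pool.Agent.Work.MP_1ce445_fx.GM1

/-!
Block GO1 of THEOREM STAIRCASE (odd `n`) for MP_1ce445_co: the construction is a factorization.
-/

namespace Pool.Agent.Work.MP_1ce445_fx

open Finset Pool.Agent.Work.MP_1ce445_co_56 Pool.Agent.Work.MP_1ce445_lin

section GO1

variable {q : ℕ} {R : ℕ} {hR : 0 < R} {B : Fin R → Fin R → Bool} {c1 : Fin 3}
  {L : Finset (ZMod (2 * q - 1))}

lemma GO1_rule_symm (hB : ∀ a b, B a b = B b a) (u v : Option (ZMod (2 * q - 1))) :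
    ruleO R hR B c1 u v = ruleO R hR B c1 v u := by
  unfold ruleO
  by_cases h : clo c1 u = clo c1 v
  · rw [if_pos h, if_pos h.symm, hB (prt R hR u) (prt R hR v), h]
  · rw [if_neg h, if_neg (Ne.symm h), add_comm]

open Classical in
/-- the special colour of the pair `some u, some v` -/
noncomputable def GO1col (R : ℕ) (hR : 0 < R) (B : Fin R → Fin R → Bool) (c1 : Fin 3)
    (u v : Option (ZMod (2 * q - 1))) : Fin 3 :=
  if lbl u v = 0 then (if u = none ∨ v = none then -c1 else cls u) else ruleO R hR B c1 u v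

lemma GO1_col_symm (hq : 1 ≤ q) (hB : ∀ a b, B a b = B b a) {u v : Option (ZMod (2 * q - 1))}
    (hne : u ≠ v) : GO1col R hR B c1 u v = GO1col R hR B c1 v u := by
  unfold GO1col
  rw [GM1_lbl_symm v u]
  by_cases h0 : lbl u v = 0
  · rw [if_pos h0, if_pos h0, GM1_cls hq h0 hne]
    by_cases h : u = none ∨ v = none
    · rw [if_pos h, if_pos h.symm]
    · rw [if_neg h, if_neg (fun e => h e.symm)]
  · rw [if_neg h0, if_neg h0, GO1_rule_symm hB]

/-- colour `l`, two ordinary vertices -/
lemma GO1_adjl (l : L) (u v : Option (ZMod (2 * q - 1))) :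
    (GO R hR B c1 L (Sum.inl l)).Adj (some u) (some v) ↔ u ≠ v ∧ lbl u v = l.1 := by
  unfold GO
  rw [SimpleGraph.fromRel_adj]
  constructor
  · rintro ⟨hne, h | h⟩
    · exact ⟨fun e => hne (congrArg some e), h⟩
    · exact ⟨fun e => hne (congrArg some e), (GM1_lbl_symm u v).trans h⟩
  · rintro ⟨hne, h⟩
    exact ⟨fun e => hne (Option.some.inj e), Or.inl h⟩

/-- special colour `j`, two ordinary vertices -/
lemma GO1_adjr (hq : 1 ≤ q) (hB : ∀ a b, B a b = B b a) (j : Fin 3)
    (u v : Option (ZMod (2 * q - 1))) :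
    (GO R hR B c1 L (Sum.inr j)).Adj (some u) (some v) ↔
      u ≠ v ∧ lbl u v ∉ L ∧ GO1col R hR B c1 u v = j := by
  have key : ∀ a b : Option (ZMod (2 * q - 1)),
      (lbl a b ∉ L ∧ (if lbl a b = 0 then
          (if a = none ∨ b = none then -c1 = j else cls a = j) else ruleO R hR B c1 a b = j)) ↔
      (lbl a b ∉ L ∧ GO1col R hR B c1 a b = j) := by
    intro a b
    unfold GO1col
    by_cases h0 : lbl a b = 0
    · rw [if_pos h0, if_pos h0]
      by_cases h : a = none ∨ b = none
      · rw [if_pos h, if_pos h]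
      · rw [if_neg h, if_neg h]
    · rw [if_neg h0, if_neg h0]
  unfold GO
  rw [SimpleGraph.fromRel_adj]
  constructor
  · rintro ⟨hne, h | h⟩
    · exact ⟨fun e => hne (congrArg some e), (key u v).1 (by convert h)⟩
    · have hne' : u ≠ v := fun e => hne (congrArg some e)
      have h2 : lbl v u ∉ L ∧ GO1col R hR B c1 v u = j := (key v u).1 (by convert h)
      rw [GM1_lbl_symm v u, ← GO1_col_symm hq hB hne'] at h2
      exact ⟨hne', h2⟩
  · rintro ⟨hne, h⟩
    exact ⟨fun e => hne (Option.some.inj e), Or.inl (by convert (key u v).2 h)⟩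

/-- colour `l`, the neutral vertex -/
lemma GO1_adjnl (l : L) (u : Option (ZMod (2 * q - 1))) :
    (GO R hR B c1 L (Sum.inl l)).Adj none (some u) ↔ u = some l.1 := by
  unfold GO
  rw [SimpleGraph.fromRel_adj]
  constructor
  · rintro ⟨hne, h | h⟩
    · exact h
    · exact h.elim
  · intro h
    exact ⟨by simp, Or.inl h⟩

/-- special colour `j`, the neutral vertex -/
lemma GO1_adjnr (j : Fin 3) (u : Option (ZMod (2 * q - 1))) :
    (GO R hR B c1 L (Sum.inr j)).Adj none (some u) ↔
      (∀ l ∈ L, u ≠ some l) ∧ omc R hR B c1 u = j := by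
  unfold GO
  rw [SimpleGraph.fromRel_adj]
  constructor
  · rintro ⟨hne, h | h⟩
    · exact h
    · exact h.elim
  · intro h
    exact ⟨by simp, Or.inl h⟩

lemma GO1_cls0 : cls (some (0 : ZMod (2 * q - 1))) = 0 := by
  apply Fin.ext
  show pno (some (0 : ZMod (2 * q - 1))) % 3 = 0
  have : pno (some (0 : ZMod (2 * q - 1))) = 0 := by
    simp [pno]
  rw [this]

lemma GO1_omc0 : omc R hR B c1 (some (0 : ZMod (2 * q - 1))) = 0 := by
  simp [omc]

lemma GO1_omcn : omc R hR B c1 (none : Option (ZMod (2 * q - 1))) = c1 := rfl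

/-- a vertex `some y` of given class whose label with `u` is not in `L` and not `0` -/
lemma GO1_free {k : ℕ} (hq : 100 ≤ q) (hk : 3 ≤ k) (hkq : 2 * k ≤ q) (hL : L.card = k - 3)
    (u : Option (ZMod (2 * q - 1))) (l : Fin 3) :
    ∃ y, cls (some y) = l ∧ lbl u (some y) ∉ L ∧ lbl u (some y) ≠ 0 := by
  classical
  obtain ⟨D, hD, hDc⟩ := GM1_many hq l
  have hinj : Function.Injective (fun y : ZMod (2 * q - 1) => lbl u (some y)) := by
    intro y z h
    cases u with
    | none => exact GM1_dbl (by omega) h
    | some x => exact add_left_cancel (h : x + y = x + z)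
  have hex : ∃ z ∈ D.image (fun y => lbl u (some y)), z ∉ insert 0 L := by
    by_contra hcon
    push Not at hcon
    have h1 : (D.image (fun y => lbl u (some y))).card ≤ (insert 0 L).card :=
      card_le_card (fun z hz => hcon z hz)
    rw [card_image_of_injective _ hinj, hD] at h1
    have h2 := card_insert_le (0 : ZMod (2 * q - 1)) L
    omega
  obtain ⟨z, hz, hzL⟩ := hex
  obtain ⟨y, hy, rfl⟩ := mem_image.1 hz
  rw [mem_insert, not_or] at hzL
  exact ⟨y, hDc y hy, hzL.2, hzL.1⟩

/-- a number `y ∉ L` of given class with `q ≤ y.val` -/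
lemma GO1_high {k : ℕ} (hq : 100 ≤ q) (hk : 3 ≤ k) (hkq : 4 * k ≤ q) (hL : L.card = k - 3)
    (l : Fin 3) : ∃ y : ZMod (2 * q - 1), cls (some y) = l ∧ y ∉ L ∧ q ≤ y.val := by
  classical
  haveI : NeZero (2 * q - 1) := ⟨by omega⟩
  obtain ⟨a, ha1, ha3, hal⟩ : ∃ a : ℕ, 1 ≤ a ∧ a ≤ 3 ∧ a % 3 = l.val := by
    have := l.isLt
    by_cases h : l.val = 0
    · exact ⟨3, by norm_num, le_refl _, by omega⟩
    · exact ⟨l.val, by omega, by omega, by omega⟩
  have hb : ∀ t, t < (q - 1) / 3 → 3 * t + a < q := fun t ht => by omega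
  have hlt : ∀ t, t < (q - 1) / 3 → 3 * t + a < 2 * q - 1 := fun t ht => by
    have := hb t ht; omega
  let D : Finset (ZMod (2 * q - 1)) :=
    (range ((q - 1) / 3)).image (fun t => -((3 * t + a : ℕ) : ZMod (2 * q - 1)))
  have hc : D.card = (q - 1) / 3 := by
    rw [card_image_of_injOn, card_range]
    intro s hs t ht h
    have hs' := mem_range.1 (mem_coe.1 hs)
    have ht' := mem_range.1 (mem_coe.1 ht)
    have := GM1_nat_inj (hlt s hs') (hlt t ht') (neg_injective h)
    omega
  have hex : ∃ y ∈ D, y ∉ L := by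
    by_contra hcon
    push Not at hcon
    have h1 : D.card ≤ L.card := card_le_card (fun z hz => hcon z hz)
    omega
  obtain ⟨y, hy, hyL⟩ := hex
  obtain ⟨t, ht, rfl⟩ := mem_image.1 hy
  have ht' := mem_range.1 ht
  refine ⟨_, (GM1_cls_nat (by omega) (by omega) (hb t ht') l (by omega)).2, hyL, ?_⟩
  have hv : ((3 * t + a : ℕ) : ZMod (2 * q - 1)).val = 3 * t + a :=
    ZMod.val_natCast_of_lt (hlt t ht')
  have h0 : ((3 * t + a : ℕ) : ZMod (2 * q - 1)) ≠ 0 := by
    intro h
    rw [h, ZMod.val_zero] at hv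
    omega
  rw [ZMod.neg_val, if_neg h0, hv]
  have := hb t ht'
  omega

lemma GO1_three : ∀ c j : Fin 3, c ≠ 0 → j ≠ 0 → j ≠ c → j = -c := by decide

lemma GO1_omc_high {y : ZMod (2 * q - 1)} (hq : 1 ≤ q) (hy : q ≤ y.val) :
    omc R hR B c1 (some y) = cls (some y) + 1 := by
  have h0 : y ≠ 0 := by
    intro h
    rw [h, ZMod.val_zero] at hy
    omega
  have h1 : ¬ 8 * y.val ≤ q := by omega
  simp [omc, h0, h1]

end GO1

theorem stmt_GO1 : Stmt_GO1 := by
  intro q k R hR B c1 L hq hk hkq hL h0 hc1 hB
  have hq1 : 1 ≤ q := by omega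
  refine IsFactorization.of_adj ?_ ?_ ?_
  · intro i j v w h1 h2
    have key : ∀ u : Option (ZMod (2 * q - 1)), (GO R hR B c1 L i).Adj none (some u) →
        (GO R hR B c1 L j).Adj none (some u) → i = j := by
      intro u h1 h2
      cases i with
      | inl l =>
        rw [GO1_adjnl] at h1
        cases j with
        | inl l' =>
          rw [GO1_adjnl] at h2
          exact congrArg Sum.inl (Subtype.ext (Option.some.inj (h1.symm.trans h2)))
        | inr j =>
          rw [GO1_adjnr] at h2
          exact absurd h1 (h2.1 l.1 l.2)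
      | inr i =>
        rw [GO1_adjnr] at h1
        cases j with
        | inl l' =>
          rw [GO1_adjnl] at h2
          exact absurd h2 (h1.1 l'.1 l'.2)
        | inr j =>
          rw [GO1_adjnr] at h2
          rw [← h1.2, ← h2.2]
    cases v with
    | none =>
      cases w with
      | none => exact absurd rfl h1.ne
      | some u => exact key u h1 h2
    | some v =>
      cases w with
      | none => exact key v h1.symm h2.symm
      | some w =>
        cases i with
        | inl l =>
          rw [GO1_adjl] at h1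
          cases j with
          | inl l' =>
            rw [GO1_adjl] at h2
            exact congrArg Sum.inl (Subtype.ext (h1.2.symm.trans h2.2))
          | inr j =>
            rw [GO1_adjr hq1 hB] at h2
            exact absurd (h1.2 ▸ l.2) h2.2.1
        | inr i =>
          rw [GO1_adjr hq1 hB] at h1
          cases j with
          | inl l' =>
            rw [GO1_adjl] at h2
            exact absurd (h2.2 ▸ l'.2) h1.2.1
          | inr j =>
            rw [GO1_adjr hq1 hB] at h2
            rw [← h1.2.2, ← h2.2.2]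
  · intro v w hvw
    have key : ∀ u : Option (ZMod (2 * q - 1)), ∃ i, (GO R hR B c1 L i).Adj none (some u) := by
      intro u
      by_cases h : ∃ l ∈ L, u = some l
      · obtain ⟨l, hl, hu⟩ := h
        exact ⟨Sum.inl ⟨l, hl⟩, (GO1_adjnl _ _).2 hu⟩
      · push Not at h
        exact ⟨Sum.inr _, (GO1_adjnr _ _).2 ⟨h, rfl⟩⟩
    cases v with
    | none =>
      cases w with
      | none => exact absurd rfl hvw
      | some u => exact key u
    | some v =>
      cases w with
      | none =>
        obtain ⟨i, hi⟩ := key v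
        exact ⟨i, hi.symm⟩
      | some w =>
        have hne : v ≠ w := fun e => hvw (congrArg some e)
        by_cases h : lbl v w ∈ L
        · exact ⟨Sum.inl ⟨_, h⟩, (GO1_adjl _ _ _).2 ⟨hne, rfl⟩⟩
        · exact ⟨Sum.inr _, (GO1_adjr hq1 hB _ _ _).2 ⟨hne, h, rfl⟩⟩
  · intro i u
    cases i with
    | inl l =>
      cases u with
      | none => exact ⟨some (some l.1), (GO1_adjnl _ _).2 rfl⟩
      | some u =>
        obtain ⟨v, hne, hv⟩ := GM1_exl hq1 l.1 (fun h => h0 (h ▸ l.2)) u
        exact ⟨some v, (GO1_adjl _ _ _).2 ⟨hne, hv⟩⟩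
    | inr j =>
      have hzero : (GO R hR B c1 L (Sum.inr 0)).Adj none (some (some 0)) :=
        (GO1_adjnr _ _).2 ⟨fun l hl e => h0 (by rw [Option.some.inj e]; exact hl), GO1_omc0⟩
      have hnone : (GO R hR B c1 L (Sum.inr c1)).Adj none (some none) :=
        (GO1_adjnr _ _).2 ⟨fun l _ => (by simp), rfl⟩
      cases u with
      | none =>
        by_cases hj0 : j = 0
        · subst hj0
          exact ⟨_, hzero⟩
        · by_cases hj1 : j = c1
          · subst hj1
            exact ⟨_, hnone⟩
          · obtain ⟨y, hy, hyL, hyq⟩ := GO1_high hq hk hkq hL (j - 1)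
            refine ⟨some (some y), (GO1_adjnr _ _).2 ⟨fun l hl e => ?_, ?_⟩⟩
            · exact hyL (by rw [Option.some.inj e]; exact hl)
            · rw [GO1_omc_high hq1 hyq, hy, sub_add_cancel]
      | some u =>
        by_cases hu : clo c1 u = j
        · cases u with
          | none =>
            have hj : c1 = j := hu
            subst hj
            exact ⟨none, hnone.symm⟩
          | some x =>
            have hx : cls (some x) = j := hu
            by_cases hx0 : x = 0
            · subst hx0
              rw [GO1_cls0] at hx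
              subst hx
              exact ⟨none, hzero.symm⟩
            · have hl : lbl (some x) (some (-x)) = 0 := by simp [lbl]
              refine ⟨some (some (-x)), (GO1_adjr hq1 hB _ _ _).2 ⟨?_, by rw [hl]; exact h0, ?_⟩⟩
              · intro h
                have h2 : x = -x := Option.some.inj h
                exact hx0 (GM1_dbl0 hq1 (by nth_rewrite 2 [h2]; ring))
              · unfold GO1col
                rw [if_pos hl, if_neg (by simp), hx]
        · obtain ⟨y, hv, hvL, hv0⟩ := GO1_free hq hk (by omega) hL u (-(j + clo c1 u))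
          obtain ⟨h1, h2⟩ := GM1_third (clo c1 u) j hu
          have hcy : clo c1 (some y) = -(j + clo c1 u) := hv
          have hne : clo c1 u ≠ clo c1 (some y) := by rw [hcy]; exact h1
          refine ⟨some (some y), (GO1_adjr hq1 hB _ _ _).2 ⟨fun h => hne (by rw [h]), hvL, ?_⟩⟩
          unfold GO1col ruleO
          rw [if_neg hv0, if_neg hne, hcy, h2]

end Pool.Agent.Work.MP_1ce445_fx
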