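import Pool.Agent.Work.MP_1ce445_fx.InterfaceQ
import Pool.Agent.Work.MP_1ce445_fx.GM2

/-!
Block GO2 of THEOREM STAIRCASE for MP_1ce445_co (odd `n`): the total domination number of the factors of the labels `l ∈ L`
of the construction with the neutral vertex.
-/

namespace Pool.Agent.Work.MP_1ce445_fx

open Finset Pool.Agent.Work.MP_1ce445_co_56 Pool.Agent.Work.MP_1ce445_lin

section GO2

variable {q R : ℕ} {hR : 0 < R} {B : Fin R → Fin R → Bool} {c1 : Fin 3}
  {L : Finset (ZMod (2 * q - 1))}

/-- the neighbours of `some u` in the colour `inl l`: `ω` (only if `u = some l`) and the partner of `u` -/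
lemma GO2_adj (hq : 1 ≤ q) (l : L) (u : Option (ZMod (2 * q - 1)))
    (w : Option (Option (ZMod (2 * q - 1))))
    (h : (GO R hR B c1 L (Sum.inl l)).Adj (some u) w) :
    (w = none ∧ u = some l.1) ∨ w = some (GM2_g l.1 u) := by
  unfold GO at h
  rw [SimpleGraph.fromRel_adj] at h
  cases w with
  | none =>
    rcases h.2 with h2 | h2
    · exact absurd h2 id
    · exact Or.inl ⟨rfl, h2⟩
  | some v =>
    right
    have hne : u ≠ v := fun e => h.1 (by rw [e])
    rcases h.2 with h2 | h2
    · exact congrArg some (GM2_eq hq l.1 u v hne h2)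
    · exact congrArg some (GM2_eq hq l.1 u v hne ((GM2_symm u v).trans h2))

lemma GO2_gl (l : ZMod (2 * q - 1)) (hl : l ≠ 0) : GM2_g l (some l) = some 0 := by
  show (if l + l = l then none else some (l - l)) = some 0
  rw [if_neg (fun e => hl (by simpa using e)), sub_self]

end GO2

theorem stmt_GO2 : Stmt_GO1 → Stmt_GO2 := by
  intro hGO1 q k R hR B c1 L hq hk hkq hL h0 hc1 hB l
  have hq1 : 1 ≤ q := by omega
  have : NeZero (2 * q - 1) := ⟨by omega⟩
  have hF := hGO1 q k R hR B c1 L hq hk hkq hL h0 hc1 hB
  obtain ⟨S, hS, hc⟩ := exists_tds (hF.minDeg (Sum.inl l))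
  have hl : l.1 ≠ 0 := fun e => h0 (e ▸ l.2)
  have hinj : Function.Injective (GM2_g l.1) :=
    Function.LeftInverse.injective (g := GM2_g l.1) (GM2_invol hq1 l.1)
  obtain ⟨w0, hw0, ha0⟩ := hS (some (some l.1))
  have hw : w0 = none ∨ w0 = some (GM2_g l.1 (some l.1)) := by
    rcases GO2_adj hq1 l _ _ ha0 with h | h
    · exact Or.inl h.1
    · exact Or.inr h
  have hf : ∀ u, u ≠ some l.1 → some (GM2_g l.1 u) ∈ S := by
    intro u hu
    obtain ⟨w, hw, ha⟩ := hS (some u)
    rcases GO2_adj hq1 l _ _ ha with h | h
    · exact absurd h.2 hu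
    · rw [← h]
      exact hw
  have key : (univ : Finset (Option (ZMod (2 * q - 1)))).card ≤ S.card := by
    apply Finset.card_le_card_of_injOn
      (fun u => if u = some l.1 then w0 else some (GM2_g l.1 u))
    · intro u _
      by_cases hu : u = some l.1
      · simpa [hu] using hw0
      · simpa [hu] using hf u hu
    · have h3 : ∀ v, v ≠ some l.1 → w0 ≠ some (GM2_g l.1 v) := by
        intro v hv e
        rcases hw with h | h
        · rw [h] at e
          exact Option.some_ne_none _ e.symm
        · rw [h] at e
          exact hv (hinj (Option.some.inj e)).symm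
      intro u _ v _ huv
      by_cases hu : u = some l.1
      · by_cases hv : v = some l.1
        · rw [hu, hv]
        · have e : w0 = some (GM2_g l.1 v) := by simpa [hu, hv] using huv
          exact absurd e (h3 v hv)
      · by_cases hv : v = some l.1
        · have e : some (GM2_g l.1 u) = w0 := by simpa [hu, hv] using huv
          exact absurd e.symm (h3 u hu)
        · have e : some (GM2_g l.1 u) = some (GM2_g l.1 v) := by simpa [hu, hv] using huv
          exact hinj (Option.some.inj e)
  rw [card_univ, Fintype.card_option, ZMod.card] at key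
  omega

end Pool.Agent.Work.MP_1ce445_fx
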