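import Pool.Agent.Work.MP_1ce445_fx.GM1
import Pool.Agent.Work.MP_1ce445_fx.GM2

/-!
Block GM3 of THEOREM STAIRCASE for MP_1ce445_co: the total domination numbers of the three special colours.
-/

namespace Pool.Agent.Work.MP_1ce445_fx

open Finset Pool.Agent.Work.MP_1ce445_co_56 Pool.Agent.Work.MP_1ce445_lin

theorem GM3_f1 : ∀ a : Fin 3, a + 1 ≠ a := by decide

theorem GM3_f2 : ∀ a : Fin 3, a + 2 ≠ a := by decide

theorem GM3_f3 : ∀ a b : Fin 3, a ≠ b → -(a + b) ≠ a ∧ -(a + b) ≠ b := by decide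

theorem GM3_f4 : ∀ a J j l : Fin 3, j ≠ J → l ≠ J → j ≠ l → a = J ∨ a = j ∨ a = l := by decide

theorem GM3_f5 : ∀ j J : Fin 3, j ≠ J → ∃ s : Bool, (if s = true then j + 1 else j + 2) ≠ J := by
  decide

theorem GM3_f6 : ∀ J : Fin 3, J + 1 ≠ J + 2 := by decide

theorem GM3_rule {q R : ℕ} {hR : 0 < R} {B : Fin R → Fin R → Bool}
    (u w : Option (ZMod (2 * q - 1))) : ruleM R hR B u w ≠ cls u := by
  unfold ruleM
  split_ifs with h1 h2
  · exact GM3_f1 _
  · exact GM3_f2 _
  · exact (GM3_f3 _ _ h1).1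

theorem GM3_rule2 {q R : ℕ} {hR : 0 < R} {B : Fin R → Fin R → Bool}
    (u w : Option (ZMod (2 * q - 1))) (h : cls u ≠ cls w) : ruleM R hR B u w ≠ cls w := by
  unfold ruleM
  rw [if_neg h]
  exact (GM3_f3 _ _ h).2

/-- the two other classes -/
theorem GM3_half {α : Type*} [DecidableEq α] (c : α → Fin 3) (T : Finset α) (m : ℕ) (J : Fin 3)
    (hm : 1 ≤ m) (hT : T.card ≤ 2 * m - 1) :
    (T.filter (fun w => c w = J + 1)).card ≤ m - 1 ∨
      (T.filter (fun w => c w = J + 2)).card ≤ m - 1 := by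
  have hd : (T.filter (fun w => c w = J + 1)).card + (T.filter (fun w => c w = J + 2)).card
      ≤ T.card := by
    rw [← Finset.card_union_of_disjoint]
    · apply Finset.card_le_card
      exact Finset.union_subset (Finset.filter_subset _ _) (Finset.filter_subset _ _)
    · rw [Finset.disjoint_left]
      intro w h1 h2
      have h3 := (Finset.mem_filter.mp h1).2
      have h4 := (Finset.mem_filter.mp h2).2
      exact GM3_f6 J (h3.symm.trans h4)
  omega

theorem stmt_GM3 : Stmt_CNM → Stmt_GM1 → Stmt_GM3 := by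
  intro hCNM hGM1 m q k R hR B L hm hq hk hkq hL hG hB hU J
  classical
  haveI : NeZero (2 * q - 1) := ⟨by omega⟩
  have hq1 : 1 ≤ q := by omega
  have hF := hGM1 q k R hR B L hq hk hkq hL hG.1 hB
  obtain ⟨S, hS, hSc⟩ := exists_tds (hF.minDeg (Sum.inr J))
  have hXc := hCNM q hq1 J
  set X : Finset (Option (ZMod (2 * q - 1))) := univ.filter (fun v => cls v = J) with hX
  have hmemX : ∀ v, v ∈ X ↔ cls v = J := by
    intro v
    simp [hX]
  have hXS : X ⊆ S := by
    intro v hv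
    rw [hmemX] at hv
    obtain ⟨u, hne, hu⟩ := GM1_ex0 hq1 v
    obtain ⟨w, hwS, hw⟩ := hS u
    rw [GM1_adjr hq1 hB] at hw
    have hcu : cls u = J := by rw [← GM1_cls hq1 hu hne, hv]
    have h0 : lbl u w = 0 := by
      by_contra h
      have h2 := hw.2.2.2 h
      rw [← hcu] at h2
      exact GM3_rule u w h2
    have h0' : lbl u v = 0 := by rw [GM1_lbl_symm, hu]
    have hwv : w = v := (GM2_eq hq1 0 u w hw.1 h0).trans (GM2_eq hq1 0 u v (Ne.symm hne) h0').symm
    rw [← hwv]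
    exact hwS
  by_contra hcon
  set T := S \ X with hT
  have hTc : T.card + X.card = S.card := Finset.card_sdiff_add_card_eq_card hXS
  have hT3 : T.card ≤ 2 * m - 1 := by omega
  have key : ∀ j l : Fin 3, j ≠ J → l ≠ J → j ≠ l →
      (T.filter (fun w => cls w = l)).card ≤ m - 1 → False := by
    intro j l hjJ hlJ hjl hl1
    obtain ⟨s, hs⟩ := GM3_f5 j J hjJ
    obtain ⟨x, hx⟩ := hU ((T.filter (fun w => cls w = j)).image (prt R hR)) s
      ((card_image_le.trans (card_filter_le _ _)).trans hT3)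
    obtain ⟨v, hv1, hv2, _, hv3⟩ := hG.2 _ j x hl1
    obtain ⟨w, hwS, hw⟩ := hS v
    rw [GM1_adjr hq1 hB] at hw
    have h0 : lbl v w ≠ 0 := by
      intro h
      exact hjJ (hv1.symm.trans (hw.2.2.1 h))
    have hr := hw.2.2.2 h0
    by_cases hwJ : cls w = J
    · apply GM3_rule2 v w _ (hr.trans hwJ.symm)
      rw [hv1, hwJ]
      exact hjJ
    · have hwT : w ∈ T := by
        rw [hT, Finset.mem_sdiff, hmemX]
        exact ⟨hwS, hwJ⟩
      rcases GM3_f4 (cls w) J j l hjJ hlJ hjl with h | h | h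
      · exact hwJ h
      · have hBs := hx _ (mem_image_of_mem _ (mem_filter.2 ⟨hwT, h⟩))
        unfold ruleM at hr
        rw [if_pos (hv1.trans h.symm), hv2, hB, hBs, hv1] at hr
        exact hs hr
      · exact hw.2.1 (hv3 w (mem_filter.2 ⟨hwT, h⟩))
  rcases GM3_half cls T m J (by omega) hT3 with h | h
  · exact key (J + 2) (J + 1) (GM3_f2 J) (GM3_f1 J) (Ne.symm (GM3_f6 J)) h
  · exact key (J + 1) (J + 2) (GM3_f1 J) (GM3_f2 J) (GM3_f6 J) h

end Pool.Agent.Work.MP_1ce445_fx
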