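import Pool.Agent.Work.MP_1ce445_fx.GO1
import Pool.Agent.Work.MP_1ce445_fx.GM3

/-!
Block GO3 of THEOREM STAIRCASE for MP_1ce445_co (odd `n`): the total domination numbers of the three special colours.
-/

namespace Pool.Agent.Work.MP_1ce445_fx

open Finset Pool.Agent.Work.MP_1ce445_co_56 Pool.Agent.Work.MP_1ce445_lin

section GO3

variable {q R : ℕ} {hR : 0 < R} {B : Fin R → Fin R → Bool} {c1 : Fin 3}
  {L : Finset (ZMod (2 * q - 1))}

theorem GO3_rule (u w : Option (ZMod (2 * q - 1))) : ruleO R hR B c1 u w ≠ clo c1 u := by
  unfold ruleO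
  split_ifs with h1 h2
  · exact GM3_f1 _
  · exact GM3_f2 _
  · exact (GM3_f3 _ _ h1).1

theorem GO3_rule2 (u w : Option (ZMod (2 * q - 1))) (h : clo c1 u ≠ clo c1 w) :
    ruleO R hR B c1 u w ≠ clo c1 w := by
  unfold ruleO
  rw [if_neg h]
  exact (GM3_f3 _ _ h).2

/-- the only neighbour of `some u` in the colour of its class -/
def GO3f (u : Option (ZMod (2 * q - 1))) : Option (Option (ZMod (2 * q - 1))) :=
  match u with
  | none => none
  | some x => if x = 0 then none else some (some (-x))

theorem GO3_neg : ∀ c : Fin 3, c ≠ 0 → -c ≠ c := by decide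

theorem GO3_neg0 : ∀ c : Fin 3, c ≠ 0 → -c ≠ 0 := by decide

/-- the forced neighbour -/
theorem GO3_forced (hq : 1 ≤ q) (hB : ∀ a b, B a b = B b a) (hc1 : c1 ≠ 0)
    (u : Option (ZMod (2 * q - 1))) (w : Option (Option (ZMod (2 * q - 1))))
    (h : (GO R hR B c1 L (Sum.inr (clo c1 u))).Adj (some u) w) : w = GO3f u := by
  cases w with
  | none =>
    have h1 := ((GO1_adjnr _ _).1 h.symm).2
    cases u with
    | none => rfl
    | some x =>
      by_cases hx : x = 0
      · simp [GO3f, hx]
      · exfalso
        have h2 : omc R hR B c1 (some x) = cls (some x) := h1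
        simp only [omc] at h2
        rw [if_neg hx] at h2
        split_ifs at h2
        · exact GM3_f1 _ h2
        · exact GM3_f2 _ h2
        · exact GM3_f1 _ h2
  | some w =>
    obtain ⟨hne, _, hcol⟩ := (GO1_adjr hq hB _ _ _).1 h
    unfold GO1col at hcol
    by_cases h0 : lbl u w = 0
    · rw [if_pos h0] at hcol
      cases u with
      | none =>
        exfalso
        rw [if_pos (Or.inl rfl)] at hcol
        exact GO3_neg c1 hc1 hcol
      | some x =>
        cases w with
        | none =>
          exfalso
          rw [if_pos (Or.inr rfl)] at hcol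
          have hx : x = 0 := GM1_dbl0 hq h0
          rw [hx] at hcol
          have h3 : clo c1 (some (0 : ZMod (2 * q - 1))) = 0 := GO1_cls0
          rw [h3] at hcol
          exact GO3_neg0 c1 hc1 hcol
        | some y =>
          have hxy : x + y = 0 := h0
          have hy : y = -x := (neg_eq_of_add_eq_zero_right hxy).symm
          have hx : x ≠ 0 := by
            intro hx
            apply hne
            rw [hy, hx, neg_zero]
          simp [GO3f, hx, hy]
    · exfalso
      rw [if_neg h0] at hcol
      exact GO3_rule u w hcol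

theorem GO3_inj (hc1 : c1 ≠ 0) (i : Fin 3) (u v : Option (ZMod (2 * q - 1)))
    (hu : clo c1 u = i) (hv : clo c1 v = i) (h : GO3f u = GO3f v) : u = v := by
  cases u with
  | none =>
    cases v with
    | none => rfl
    | some y =>
      exfalso
      have hy : y = 0 := by
        by_contra hy
        simp [GO3f, hy] at h
      rw [hy] at hv
      have h3 : clo c1 (some (0 : ZMod (2 * q - 1))) = 0 := GO1_cls0
      exact hc1 (hu.trans (hv.symm.trans h3))
  | some x =>
    cases v with
    | none =>
      exfalso
      have hx : x = 0 := by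
        by_contra hx
        simp [GO3f, hx] at h
      rw [hx] at hu
      have h3 : clo c1 (some (0 : ZMod (2 * q - 1))) = 0 := GO1_cls0
      exact hc1 (hv.trans (hu.symm.trans h3))
    | some y =>
      by_cases hx : x = 0
      · by_cases hy : y = 0
        · rw [hx, hy]
        · simp [GO3f, hx, hy] at h
      · by_cases hy : y = 0
        · simp [GO3f, hx, hy] at h
        · simp only [GO3f, if_neg hx, if_neg hy, Option.some.injEq, neg_inj] at h
          rw [h]

theorem GO3_img (hq : 1 ≤ q) (u : Option (ZMod (2 * q - 1))) (w : Option (ZMod (2 * q - 1)))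
    (h : GO3f u = some w) : clo c1 w = clo c1 u := by
  cases u with
  | none => simp [GO3f] at h
  | some x =>
    by_cases hx : x = 0
    · simp [GO3f, hx] at h
    · simp only [GO3f, if_neg hx, Option.some.injEq] at h
      rw [← h]
      show cls (some (-x)) = cls (some x)
      apply GM1_cls hq
      · show -x + x = 0
        ring
      · intro h2
        apply hx
        have h3 : -x = x := Option.some.inj h2
        exact GM1_dbl0 hq (by nth_rewrite 1 [← h3]; ring)

end GO3

theorem stmt_GO3 : Stmt_GO1 → Stmt_GO3 := by
  intro hGO1 m q k R _ hR B c1 L hm hq hk hkq hL hG hc1 hB hU i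
  classical
  have hq1 : 1 ≤ q := by omega
  have hF := hGO1 q k R hR B c1 L hq hk hkq hL hG.1 hc1 hB
  obtain ⟨S, hS, hSc⟩ := exists_tds (hF.minDeg (Sum.inr i))
  set X : Finset (Option (ZMod (2 * q - 1))) := univ.filter (fun v => clo c1 v = i) with hX
  have hmemX : ∀ v, v ∈ X ↔ clo c1 v = i := by
    intro v
    simp [hX]
  set F := X.image GO3f with hFdef
  have hFc : F.card = X.card := by
    apply card_image_of_injOn
    intro u hu v hv h
    exact GO3_inj hc1 i u v ((hmemX u).1 hu) ((hmemX v).1 hv) h
  have hFS : F ⊆ S := by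
    intro w hw
    obtain ⟨u, hu, rfl⟩ := mem_image.1 hw
    obtain ⟨w, hwS, hw⟩ := hS (some u)
    rw [← (hmemX u).1 hu] at hw
    rw [← GO3_forced hq1 hB hc1 u w hw]
    exact hwS
  by_contra hcon
  set T := S \ F with hT
  have hTc : T.card + F.card = S.card := Finset.card_sdiff_add_card_eq_card hFS
  have hT3 : T.card ≤ 2 * m - 1 := by omega
  set c : Option (Option (ZMod (2 * q - 1))) → Fin 3 := fun w => match w with
    | none => i
    | some w' => clo c1 w' with hc
  have key : ∀ j l : Fin 3, j ≠ i → l ≠ i → j ≠ l →
      (T.filter (fun w => c w = l)).card ≤ m - 1 → False := by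
    intro j l hji hli hjl hl1
    obtain ⟨s, hs⟩ := GM3_f5 j i hji
    obtain ⟨x, hx⟩ := hU (insert ⟨0, hR⟩ (((T.filter (fun w => c w = j)).eraseNone).image
      (prt R hR))) s (by
        have h1 := card_insert_le (⟨0, hR⟩ : Fin R) (((T.filter (fun w => c w = j)).eraseNone).image
          (prt R hR))
        have h2 : (((T.filter (fun w => c w = j)).eraseNone).image (prt R hR)).card ≤
            ((T.filter (fun w => c w = j)).eraseNone).card := card_image_le
        have h3 := card_eraseNone_le (s := T.filter (fun w => c w = j))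
        have h4 := card_filter_le T (fun w => c w = j)
        omega)
    obtain ⟨y, hy1, hy2, hy3, hy4, _, hy5⟩ := hG.2 ((T.filter (fun w => c w = l)).eraseNone) j x
      ((card_eraseNone_le _).trans hl1)
    have hy0 : y ≠ 0 := by
      intro h
      rw [h, ZMod.val_zero] at hy1
      omega
    have hcy : clo c1 (some y) = j := hy3
    obtain ⟨w, hwS, hw⟩ := hS (some (some y))
    cases w with
    | none =>
      have h1 := ((GO1_adjnr _ _).1 hw.symm).2
      simp only [omc] at h1
      rw [if_neg hy0, if_pos hy2, hy4, hx _ (mem_insert_self _ _), hy3] at h1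
      exact hs h1
    | some w =>
      obtain ⟨hne, hwL, hcol⟩ := (GO1_adjr hq1 hB _ _ _).1 hw
      unfold GO1col at hcol
      have h0 : lbl (some y) w ≠ 0 := by
        intro h0
        rw [if_pos h0] at hcol
        have h2 : ¬ ((some y : Option (ZMod (2 * q - 1))) = none ∨ w = none) := by
          rintro (h | h)
          · exact absurd h (by simp)
          · rw [h] at h0
            exact hy0 (GM1_dbl0 hq1 h0)
        rw [if_neg h2, hy3] at hcol
        exact hji hcol
      rw [if_neg h0] at hcol
      by_cases hwi : clo c1 w = i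
      · apply GO3_rule2 (some y) w _ (hcol.trans hwi.symm)
        rw [hcy, hwi]
        exact hji
      · have hwT : some w ∈ T := by
          rw [hT, Finset.mem_sdiff]
          refine ⟨hwS, ?_⟩
          intro hwF
          obtain ⟨u, hu, hu2⟩ := mem_image.1 hwF
          exact hwi ((GO3_img hq1 u w hu2).trans ((hmemX u).1 hu))
        rcases GM3_f4 (clo c1 w) i j l hji hli hjl with h | h | h
        · exact hwi h
        · have hBs := hx (prt R hR w) (mem_insert_of_mem (mem_image_of_mem _
            (mem_eraseNone.2 (mem_filter.2 ⟨hwT, h⟩))))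
          unfold ruleO at hcol
          rw [if_pos (hcy.trans h.symm), hy4, hB, hBs, hcy] at hcol
          exact hs hcol
        · exact hwL (hy5 w (mem_eraseNone.2 (mem_filter.2 ⟨hwT, h⟩)))
  rcases GM3_half c T m i (by omega) hT3 with h | h
  · exact key (i + 2) (i + 1) (GM3_f2 i) (GM3_f1 i) (Ne.symm (GM3_f6 i)) h
  · exact key (i + 1) (i + 2) (GM3_f1 i) (GM3_f2 i) (GM3_f6 i) h

end Pool.Agent.Work.MP_1ce445_fx
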