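import Pool.Agent.Work.MP_1ce445_fx.InterfaceL

/-! # Block LAY (MP_1ce445_co, theorem FixedK): the layout of the cycle -/

namespace Pool.Agent.Work.MP_1ce445_fx

open Finset Pool.Agent.Work.MP_1ce445_co_56 Pool.Agent.Work.MP_1ce445_lin

/-- the class of a position -/
def LAY_c (b x : ℕ) : ℕ :=
  if x < 25 * b then (if x % 25 < 24 then (x % 25) % 3 else (x / 25) % 3)
  else ((x - 25 * b) % 24) % 3

/-- the part of a position -/
def LAY_p (b x : ℕ) : ℕ :=
  if x < 25 * b then (if x % 25 < 24 then (x % 25) / 3 else 8 + ((x / 25) / 3) % 22)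
  else ((x - 25 * b) % 24) / 3

theorem LAY_c_lt (b x : ℕ) : LAY_c b x < 3 := by
  unfold LAY_c
  split_ifs <;> omega

theorem LAY_p_lt (b x : ℕ) : LAY_p b x < 30 := by
  unfold LAY_p
  split_ifs <;> omega

theorem LAY_A (b u o : ℕ) (hu : u < b) (ho : o < 24) :
    LAY_c b (25 * u + o) = o % 3 ∧ LAY_p b (25 * u + o) = o / 3 := by
  have h1 : 25 * u + o < 25 * b := by omega
  have h2 : (25 * u + o) % 25 = o := by omega
  unfold LAY_c LAY_p
  rw [if_pos h1, if_pos h1, h2, if_pos ho, if_pos ho]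
  exact ⟨rfl, rfl⟩

theorem LAY_B (b u : ℕ) (hu : u < b) :
    LAY_c b (25 * u + 24) = u % 3 ∧ LAY_p b (25 * u + 24) = 8 + (u / 3) % 22 := by
  have h1 : 25 * u + 24 < 25 * b := by omega
  have h2 : (25 * u + 24) % 25 = 24 := by omega
  have h3 : (25 * u + 24) / 25 = u := by omega
  unfold LAY_c LAY_p
  rw [if_pos h1, if_pos h1, h2, h3, if_neg (lt_irrefl 24), if_neg (lt_irrefl 24)]
  exact ⟨rfl, rfl⟩

theorem LAY_C (b t o : ℕ) (ho : o < 24) :
    LAY_c b (25 * b + 24 * t + o) = o % 3 ∧ LAY_p b (25 * b + 24 * t + o) = o / 3 := by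
  have h1 : ¬ 25 * b + 24 * t + o < 25 * b := by omega
  have h2 : (25 * b + 24 * t + o - 25 * b) % 24 = o := by omega
  unfold LAY_c LAY_p
  rw [if_neg h1, if_neg h1, h2]
  exact ⟨rfl, rfl⟩

/-- the next position of the type `o` -/
theorem LAY_next (q a b x o : ℕ) (hq : q = 24 * a + b) (hb : 1 ≤ b) (hab : b < a) (hx : x < q)
    (ho : o < 24) : ∃ d : ℕ, 1 ≤ d ∧ d ≤ 25 ∧ LAY_c b ((x + d) % q) = o % 3 ∧
      LAY_p b ((x + d) % q) = o / 3 := by
  by_cases h : x < 25 * b
  · obtain ⟨u, hu⟩ : ∃ u, u = x / 25 := ⟨_, rfl⟩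
    obtain ⟨r, hr⟩ : ∃ r, r = x % 25 := ⟨_, rfl⟩
    have hxu : x = 25 * u + r := by omega
    have hr25 : r < 25 := by omega
    have hub : u < b := by omega
    by_cases h1 : r < o
    · refine ⟨o - r, by omega, by omega, ?_⟩
      have h2 : (x + (o - r)) % q = 25 * u + o := by
        rw [Nat.mod_eq_of_lt (by omega)]
        omega
      rw [h2]
      exact LAY_A b u o hub ho
    · refine ⟨25 - r + o, by omega, by omega, ?_⟩
      have h2 : (x + (25 - r + o)) % q = 25 * (u + 1) + o := by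
        rw [Nat.mod_eq_of_lt (by omega)]
        omega
      rw [h2]
      by_cases h3 : u + 1 < b
      · exact LAY_A b (u + 1) o h3 ho
      · have h4 : 25 * (u + 1) + o = 25 * b + 24 * 0 + o := by
          have : u + 1 = b := by omega
          omega
        rw [h4]
        exact LAY_C b 0 o ho
  · obtain ⟨u, hu⟩ : ∃ u, u = (x - 25 * b) / 24 := ⟨_, rfl⟩
    obtain ⟨r, hr⟩ : ∃ r, r = (x - 25 * b) % 24 := ⟨_, rfl⟩
    have hxu : x = 25 * b + 24 * u + r := by omega
    have hr24 : r < 24 := by omega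
    have hub : u < a - b := by omega
    by_cases h1 : r < o
    · refine ⟨o - r, by omega, by omega, ?_⟩
      have h2 : (x + (o - r)) % q = 25 * b + 24 * u + o := by
        rw [Nat.mod_eq_of_lt (by omega)]
        omega
      rw [h2]
      exact LAY_C b u o ho
    · refine ⟨24 - r + o, by omega, by omega, ?_⟩
      by_cases h3 : u + 1 < a - b
      · have h2 : (x + (24 - r + o)) % q = 25 * b + 24 * (u + 1) + o := by
          rw [Nat.mod_eq_of_lt (by omega)]
          omega
        rw [h2]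
        exact LAY_C b (u + 1) o ho
      · have h2 : (x + (24 - r + o)) % q = 25 * 0 + o := by
          have h5 : x + (24 - r + o) = q + o := by omega
          rw [h5, Nat.add_mod_left, Nat.mod_eq_of_lt (by omega)]
          omega
        rw [h2]
        exact LAY_A b 0 o (by omega) ho

theorem LAY_sumA (b j : ℕ) (hj : j < 3) (u : ℕ) (hu : u ≤ b) :
    ∑ x ∈ range (25 * u), (if LAY_c b x = j then 1 else 0) = 8 * u + (u + 2 - j) / 3 := by
  induction u with
  | zero =>
    simp only [mul_zero, range_zero, sum_empty]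
    omega
  | succ u ih =>
    have h1 := ih (by omega)
    rw [show 25 * (u + 1) = 25 * u + 25 by ring, Finset.sum_range_add, h1,
      Finset.sum_range_succ, (LAY_B b u (by omega)).1]
    have h2 : ∑ i ∈ range 24, (if LAY_c b (25 * u + i) = j then 1 else 0) =
        ∑ i ∈ range 24, (if i % 3 = j then 1 else 0) := by
      apply Finset.sum_congr rfl
      intro i hi
      rw [(LAY_A b u i (by omega) (Finset.mem_range.1 hi)).1]
    have h3 : ∑ i ∈ range 24, (if i % 3 = j then 1 else 0) = 8 := by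
      interval_cases j <;> decide
    rw [h2, h3]
    split_ifs <;> omega

theorem LAY_sumB (b j : ℕ) (hj : j < 3) (t : ℕ) :
    ∑ x ∈ range (25 * b + 24 * t), (if LAY_c b x = j then 1 else 0) =
      8 * b + (b + 2 - j) / 3 + 8 * t := by
  induction t with
  | zero =>
    have h := LAY_sumA b j hj b le_rfl
    simpa using h
  | succ t ih =>
    rw [show 25 * b + 24 * (t + 1) = (25 * b + 24 * t) + 24 by ring, Finset.sum_range_add, ih]
    have h2 : ∑ i ∈ range 24, (if LAY_c b (25 * b + 24 * t + i) = j then 1 else 0) =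
        ∑ i ∈ range 24, (if i % 3 = j then 1 else 0) := by
      apply Finset.sum_congr rfl
      intro i hi
      rw [(LAY_C b t i (Finset.mem_range.1 hi)).1]
    have h3 : ∑ i ∈ range 24, (if i % 3 = j then 1 else 0) = 8 := by
      interval_cases j <;> decide
    rw [h2, h3]
    ring

theorem LAY_val (q : ℕ) [NeZero q] (f : ℕ → ℕ) :
    ∑ x : ZMod q, f x.val = ∑ i ∈ range q, f i := by
  apply Finset.sum_nbij (fun x : ZMod q => x.val)
  · intro x _
    exact Finset.mem_range.2 (ZMod.val_lt x)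
  · intro x _ y _ h
    exact ZMod.val_injective q h
  · intro i hi
    have hi' : i < q := by simpa using hi
    exact ⟨(i : ZMod q), by simp, ZMod.val_natCast_of_lt hi'⟩
  · intro x _
    rfl

theorem stmt_LAY : Stmt_LAY := by
  refine ⟨3000, ?_⟩
  intro q _ hq0
  obtain ⟨a, ha⟩ : ∃ a, a = (q - 66) / 24 := ⟨_, rfl⟩
  obtain ⟨b, hb⟩ : ∃ b, b = q - 24 * a := ⟨_, rfl⟩
  have hq : q = 24 * a + b := by omega
  have hb1 : 66 ≤ b := by omega
  have hab : b < a := by omega
  have hwin : ∀ (y : ZMod q) (j : Fin 3) (m : Fin 30), m.val < 8 →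
      ∃ d : ℕ, 1 ≤ d ∧ d ≤ 25 ∧ LAY_c b (y + (d : ZMod q)).val = j.val ∧
        LAY_p b (y + (d : ZMod q)).val = m.val := by
    intro y j m hm
    have hj := j.isLt
    obtain ⟨d, h1, h2, h3, h4⟩ := LAY_next q a b y.val (3 * m.val + j.val) hq (by omega) hab
      (ZMod.val_lt y) (by omega)
    refine ⟨d, h1, h2, ?_⟩
    have h5 : (y + (d : ZMod q)).val = (y.val + d) % q := by
      rw [ZMod.val_add, ZMod.val_natCast, Nat.add_mod_mod]
    rw [h5, h3, h4]
    omega
  refine ⟨fun x => ⟨LAY_c b x.val, LAY_c_lt b _⟩, fun x => ⟨LAY_p b x.val, LAY_p_lt b _⟩,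
    ?_, ?_, ?_⟩
  · intro y j m hm
    obtain ⟨d, h1, h2, h3, h4⟩ := hwin y j m hm
    exact ⟨d, h1, h2, Fin.ext h3, Fin.ext h4⟩
  · intro j m
    by_cases hm : m.val < 8
    · obtain ⟨d, _, _, h3, h4⟩ := hwin 0 j m hm
      exact ⟨_, Fin.ext h3, Fin.ext h4⟩
    · have hj := j.isLt
      have hm' := m.isLt
      obtain ⟨u, hu⟩ : ∃ u, u = 3 * (m.val - 8) + j.val := ⟨_, rfl⟩
      have hub : u < b := by omega
      have h1 := LAY_B b u hub
      have h2 : ((25 * u + 24 : ℕ) : ZMod q).val = 25 * u + 24 :=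
        ZMod.val_natCast_of_lt (by omega)
      refine ⟨((25 * u + 24 : ℕ) : ZMod q), Fin.ext ?_, Fin.ext ?_⟩
      · show LAY_c b ((25 * u + 24 : ℕ) : ZMod q).val = j.val
        rw [h2, h1.1]
        omega
      · show LAY_p b ((25 * u + 24 : ℕ) : ZMod q).val = m.val
        rw [h2, h1.2]
        omega
  · intro j
    have h1 : (univ.filter (fun x : ZMod q =>
        (⟨LAY_c b x.val, LAY_c_lt b _⟩ : Fin 3) = j)).card =
        ∑ x : ZMod q, (if LAY_c b x.val = j.val then 1 else 0) := by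
      rw [Finset.card_filter]
      apply Finset.sum_congr rfl
      intro x _
      simp only [Fin.ext_iff]
    rw [h1, LAY_val q (fun i => if LAY_c b i = j.val then 1 else 0)]
    have h2 := LAY_sumB b j.val j.isLt (a - b)
    have h3 : 25 * b + 24 * (a - b) = q := by omega
    rw [h3] at h2
    rw [h2]
    have hj := j.isLt
    omega

end Pool.Agent.Work.MP_1ce445_fx
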