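import Pool.Agent.Work.MP_1ce445_fx.InterfaceM

/-! # Block LBL (MP_1ce445_co, staircase theorem): the set of labels -/

namespace Pool.Agent.Work.MP_1ce445_fx

open Finset Pool.Agent.Work.MP_1ce445_co_56 Pool.Agent.Work.MP_1ce445_lin

/-- choice of the base -/
theorem LBL_num (p w q k : ℕ) (hw : 3 ≤ w)
    (h1 : 8 * (2 * (p + 1) + 1) * w * (10 * (p + 1)) ^ (p + 1) * q ^ p ≤ k ^ (p + 1))
    (h2 : 8 * (2 * (p + 1) + 1) * w * (10 * (p + 1)) ^ (p + 1) ≤ k) (h3 : k ≤ q) :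
    ∃ h, 1 < h ∧ Odd h ∧ 8 * (2 * (p + 1) + 1) * (w * h ^ (p + 1)) ≤ q ∧
      (p + 1) * ((2 * q - 1) / h) + (p + 1) * (w * h ^ p) + 3 ≤ k := by
  have hk720 : 720 ≤ k := by
    have h4 : 10 ≤ (10 * (p + 1)) ^ (p + 1) := by
      calc 10 ≤ 10 * (p + 1) := by omega
        _ = (10 * (p + 1)) ^ 1 := (pow_one _).symm
        _ ≤ (10 * (p + 1)) ^ (p + 1) := Nat.pow_le_pow_right (by omega) (by omega)
    have h5 : 24 ≤ 8 * (2 * (p + 1) + 1) := by omega
    have h6 : 24 * 3 ≤ 8 * (2 * (p + 1) + 1) * w := Nat.mul_le_mul h5 hw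
    have h7 : 24 * 3 * 10 ≤ 8 * (2 * (p + 1) + 1) * w * (10 * (p + 1)) ^ (p + 1) :=
      Nat.mul_le_mul h6 h4
    omega
  have hk0 : 0 < k := by omega
  have hq0 : 0 < q := by omega
  obtain ⟨g, hg⟩ : ∃ g, g = 8 * (p + 1) * q / k := ⟨_, rfl⟩
  have hg1 : g * k ≤ 8 * (p + 1) * q := by
    rw [hg]
    exact Nat.div_mul_le_self _ _
  have hg2 : 8 * (p + 1) * q < (g + 1) * k := by
    calc 8 * (p + 1) * q < k * (8 * (p + 1) * q / k + 1) := Nat.lt_mul_div_succ _ hk0
      _ = (g + 1) * k := by rw [hg]; ring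
  obtain ⟨h, hh⟩ : ∃ h, h = 2 * ((g + 1) / 2) + 1 := ⟨_, rfl⟩
  have hh1 : g + 1 ≤ h := by omega
  have hh2 : h ≤ g + 2 := by omega
  have hhk1 : 8 * (p + 1) * q < h * k := lt_of_lt_of_le hg2 (Nat.mul_le_mul_right k hh1)
  have hhk2 : h * k ≤ 10 * (p + 1) * q := by
    have h4 : h * k ≤ (g + 2) * k := Nat.mul_le_mul_right k hh2
    have h5 : (g + 2) * k = g * k + 2 * k := by ring
    have h6 : q ≤ (p + 1) * q := by nlinarith
    have h7 : 8 * (p + 1) * q = 8 * ((p + 1) * q) := by ring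
    have h8 : 10 * (p + 1) * q = 10 * ((p + 1) * q) := by ring
    omega
  have hg8 : 1 ≤ g := by
    by_contra h0
    have h00 : g = 0 := by omega
    rw [h00] at hg2
    have h6 : q ≤ (p + 1) * q := by nlinarith
    have h7 : 8 * (p + 1) * q = 8 * ((p + 1) * q) := by ring
    omega
  have hhpos : 0 < h := by omega
  -- the window condition
  have hB : 8 * (2 * (p + 1) + 1) * (w * h ^ (p + 1)) ≤ q := by
    have h4 : (h * k) ^ (p + 1) ≤ (10 * (p + 1) * q) ^ (p + 1) := Nat.pow_le_pow_left hhk2 _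
    rw [mul_pow, mul_pow] at h4
    have h5 : h ^ (p + 1) * (8 * (2 * (p + 1) + 1) * w * (10 * (p + 1)) ^ (p + 1) * q ^ p) ≤
        (10 * (p + 1)) ^ (p + 1) * q ^ (p + 1) :=
      le_trans (Nat.mul_le_mul_left _ h1) h4
    have h6 : 0 < (10 * (p + 1)) ^ (p + 1) * q ^ p := by positivity
    apply Nat.le_of_mul_le_mul_left _ h6
    calc (10 * (p + 1)) ^ (p + 1) * q ^ p * (8 * (2 * (p + 1) + 1) * (w * h ^ (p + 1)))
        = h ^ (p + 1) * (8 * (2 * (p + 1) + 1) * w * (10 * (p + 1)) ^ (p + 1) * q ^ p) := by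
          ring
      _ ≤ (10 * (p + 1)) ^ (p + 1) * q ^ (p + 1) := h5
      _ = (10 * (p + 1)) ^ (p + 1) * q ^ p * q := by ring
  refine ⟨h, by omega, ⟨(g + 1) / 2, hh⟩, hB, ?_⟩
  -- the size
  obtain ⟨X, hX⟩ : ∃ X, X = (p + 1) * ((2 * q - 1) / h) := ⟨_, rfl⟩
  obtain ⟨Y, hY⟩ : ∃ Y, Y = (p + 1) * (w * h ^ p) := ⟨_, rfl⟩
  rw [← hX, ← hY]
  have hX4 : 4 * X < k := by
    have h4 : (2 * q - 1) / h * h ≤ 2 * q := le_trans (Nat.div_mul_le_self _ _) (by omega)
    have h5 : h * (4 * X) ≤ 8 * (p + 1) * q := by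
      calc h * (4 * X) = 4 * (p + 1) * ((2 * q - 1) / h * h) := by rw [hX]; ring
        _ ≤ 4 * (p + 1) * (2 * q) := Nat.mul_le_mul_left _ h4
        _ = 8 * (p + 1) * q := by ring
    exact Nat.lt_of_mul_lt_mul_left (lt_of_le_of_lt h5 hhk1)
  have hY4 : 64 * (2 * (p + 1) + 1) * Y < k := by
    have h5 : h * (64 * (2 * (p + 1) + 1) * Y) ≤ 8 * (p + 1) * q := by
      calc h * (64 * (2 * (p + 1) + 1) * Y)
          = 8 * (p + 1) * (8 * (2 * (p + 1) + 1) * (w * h ^ (p + 1))) := by rw [hY]; ring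
        _ ≤ 8 * (p + 1) * q := Nat.mul_le_mul_left _ hB
    exact Nat.lt_of_mul_lt_mul_left (lt_of_le_of_lt h5 hhk1)
  have hY5 : 192 * Y ≤ 64 * (2 * (p + 1) + 1) * Y := Nat.mul_le_mul_right _ (by omega)
  omega

/-- counting the numbers with a zero digit -/
theorem LBL_cnt (Q M h : ℕ) (hM : 0 < M) (hh : 0 < h) :
    ((range Q).filter (fun y => (y / M) % h = 0)).card ≤ Q / h + M := by
  have h1 : ((range Q).filter (fun y => (y / M) % h = 0)).card ≤
      (range (Q / (M * h) + 1) ×ˢ range M).card := by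
    apply Finset.card_le_card_of_injOn (fun y => (y / (M * h), y % (M * h)))
    · intro y hy
      have hy' := Finset.mem_filter.1 (Finset.mem_coe.1 hy)
      have h2 := Finset.mem_range.1 hy'.1
      refine Finset.mem_coe.2 (Finset.mem_product.2 ⟨Finset.mem_range.2 ?_,
        Finset.mem_range.2 ?_⟩)
      · exact Nat.lt_succ_of_le (Nat.div_le_div_right h2.le)
      · show y % (M * h) < M
        rw [Nat.mod_mul, hy'.2, mul_zero, add_zero]
        exact Nat.mod_lt _ hM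
    · intro y _ z _ hyz
      have h3 : y / (M * h) = z / (M * h) := congrArg Prod.fst hyz
      have h4 : y % (M * h) = z % (M * h) := congrArg Prod.snd hyz
      rw [← Nat.div_add_mod y (M * h), ← Nat.div_add_mod z (M * h), h3, h4]
  rw [Finset.card_product, Finset.card_range, Finset.card_range, add_mul, one_mul] at h1
  have h2 : Q / (M * h) * M ≤ Q / h := by
    rw [Nat.le_div_iff_mul_le hh, mul_assoc]
    exact Nat.div_mul_le_self _ _
  omega

open Classical in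
/-- the labels with a zero digit -/
noncomputable def LBL_L0 (q : ℕ) [NeZero (2 * q - 1)] (n w h : ℕ) :
    Finset (ZMod (2 * q - 1)) :=
  univ.filter (fun x => x ≠ 0 ∧ ∃ i < n, (x.val / (w * h ^ i)) % h = 0)

theorem LBL_card (q : ℕ) [NeZero (2 * q - 1)] (p w h : ℕ) (hw : 0 < w) (hh : 0 < h) :
    (LBL_L0 q (p + 1) w h).card ≤
      (p + 1) * ((2 * q - 1) / h) + (p + 1) * (w * h ^ p) := by
  classical
  have h1 : (LBL_L0 q (p + 1) w h).card ≤ ((range (p + 1)).biUnion (fun i =>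
      (range (2 * q - 1)).filter (fun y => (y / (w * h ^ i)) % h = 0))).card := by
    apply Finset.card_le_card_of_injOn (fun x => x.val)
    · intro x hx
      have hx' := Finset.mem_filter.1 (Finset.mem_coe.1 hx)
      obtain ⟨i, hi, hi2⟩ := hx'.2.2
      refine Finset.mem_coe.2 (Finset.mem_biUnion.2 ⟨i, Finset.mem_range.2 hi,
        Finset.mem_filter.2 ⟨Finset.mem_range.2 (ZMod.val_lt x), hi2⟩⟩)
    · intro x _ y _ hxy
      exact ZMod.val_injective _ hxy
  refine le_trans h1 (le_trans Finset.card_biUnion_le ?_)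
  have h2 : ∀ i ∈ range (p + 1),
      ((range (2 * q - 1)).filter (fun y => (y / (w * h ^ i)) % h = 0)).card ≤
        (2 * q - 1) / h + w * h ^ p := by
    intro i hi
    have hi' : i ≤ p := by
      have := Finset.mem_range.1 hi
      omega
    refine le_trans (LBL_cnt (2 * q - 1) (w * h ^ i) h (by positivity) hh) ?_
    exact Nat.add_le_add_left (Nat.mul_le_mul_left _ (Nat.pow_le_pow_right hh hi')) _
  refine le_trans (Finset.sum_le_sum h2) ?_
  rw [Finset.sum_const, Finset.card_range, smul_eq_mul, mul_add]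

/-- the multiplier -/
def LBL_a {q : ℕ} : Option (ZMod (2 * q - 1)) → ℕ
  | none => 2
  | some _ => 1

/-- the shift -/
def LBL_T {q : ℕ} (v0 : ℕ) : Option (ZMod (2 * q - 1)) → ℤ
  | none => 0
  | some y => if v0 + y.val < 2 * q - 1 then (y.val : ℤ) else (y.val : ℤ) - ((2 * q - 1 : ℕ) : ℤ)

/-- the forbidden windows -/
def LBL_bad {q : ℕ} (W : ℕ) : Option (ZMod (2 * q - 1)) → Finset ℕ
  | none => ∅
  | some y => {(y.val - 1) / W, (2 * q - 1 - y.val - 1) / W}

theorem LBL_bad_card {q : ℕ} (W : ℕ) (t : Option (ZMod (2 * q - 1))) :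
    (LBL_bad W t).card ≤ 2 := by
  cases t with
  | none => simp [LBL_bad]
  | some y => exact Finset.card_le_two

theorem LBL_key (q : ℕ) [NeZero (2 * q - 1)] (W s V : ℕ) (hW : 0 < W)
    (hV1 : 1 + s * W ≤ V) (hV2 : V < 1 + s * W + W) (hVq : 8 * V ≤ q)
    (t : Option (ZMod (2 * q - 1))) (hs : s ∉ LBL_bad W t) :
    (((lbl (some (V : ZMod (2 * q - 1))) t).val : ℕ) : ℤ) =
      (LBL_a t : ℤ) * (V : ℤ) + LBL_T (1 + s * W) t ∧
    0 < (lbl (some (V : ZMod (2 * q - 1))) t).val := by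
  have hV0 : 1 ≤ V := le_trans (Nat.le_add_right 1 _) hV1
  have hval : (V : ZMod (2 * q - 1)).val = V := ZMod.val_natCast_of_lt (by omega)
  cases t with
  | none =>
    have h1 : (lbl (some (V : ZMod (2 * q - 1))) none).val = V + V := by
      show ((V : ZMod (2 * q - 1)) + (V : ZMod (2 * q - 1))).val = V + V
      rw [ZMod.val_add, hval, Nat.mod_eq_of_lt (by omega)]
    rw [h1]
    refine ⟨?_, by omega⟩
    unfold LBL_a LBL_T
    push_cast
    ring
  | some y =>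
    have hy := ZMod.val_lt y
    have h0 : (lbl (some (V : ZMod (2 * q - 1))) (some y)).val =
        (V + y.val) % (2 * q - 1) := by
      show ((V : ZMod (2 * q - 1)) + y).val = (V + y.val) % (2 * q - 1)
      rw [ZMod.val_add, hval]
    have hsb : s ≠ (2 * q - 1 - y.val - 1) / W := by
      intro h
      apply hs
      unfold LBL_bad
      rw [Finset.mem_insert, Finset.mem_singleton]
      exact Or.inr h
    -- no point of the window is `q' - y`
    have hwin : ∀ z, 1 + s * W ≤ z → z < 1 + s * W + W → z + y.val ≠ 2 * q - 1 := by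
      intro z hz1 hz2 hz3
      apply hsb
      have h4 : 2 * q - 1 - y.val - 1 = z - 1 := by omega
      rw [h4]
      symm
      apply Nat.div_eq_of_lt_le
      · omega
      · have : (s + 1) * W = s * W + W := by ring
        omega
    have hne := hwin V hV1 hV2
    by_cases hlt : V + y.val < 2 * q - 1
    · have h5 : 1 + s * W + y.val < 2 * q - 1 := by omega
      rw [h0, Nat.mod_eq_of_lt hlt]
      refine ⟨?_, by omega⟩
      have h8 : LBL_T (1 + s * W) (some y) = (y.val : ℤ) := if_pos h5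
      have h9 : LBL_a (some y) = 1 := rfl
      rw [h8, h9]
      push_cast
      ring
    · have h5 : ¬ 1 + s * W + y.val < 2 * q - 1 := by
        intro h6
        exact hwin (2 * q - 1 - y.val) (by omega) (by omega) (by omega)
      have h7 : (V + y.val) % (2 * q - 1) = V + y.val - (2 * q - 1) := by
        rw [Nat.mod_eq_sub_mod (by omega), Nat.mod_eq_of_lt (by omega)]
      rw [h0, h7]
      refine ⟨?_, by omega⟩
      have h8 : LBL_T (1 + s * W) (some y) = (y.val : ℤ) - ((2 * q - 1 : ℕ) : ℤ) := if_neg h5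
      have h9 : LBL_a (some y) = 1 := rfl
      rw [h8, h9, Nat.cast_sub (by omega), Nat.cast_add, Nat.cast_one]
      ring

/-- the strong form: the common neighbour is `some v` with `1 ≤ v.val`, `8 v.val ≤ q` -/
theorem LBL_goodS (hD : Stmt_DIG) (q : ℕ) [NeZero (2 * q - 1)] (n R h : ℕ) (hR : 0 < R)
    (hh : 1 < h) (ho : Odd h) (hB : 8 * (2 * n + 1) * (3 * R * h ^ n) ≤ q)
    (L : Finset (ZMod (2 * q - 1))) (hL : LBL_L0 q n (3 * R) h ⊆ L)
    (T : Finset (Option (ZMod (2 * q - 1)))) (j : Fin 3) (x : Fin R) (hT : T.card ≤ n) :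
    ∃ v : ZMod (2 * q - 1), 1 ≤ v.val ∧ 8 * v.val ≤ q ∧ cls (some v) = j ∧
      prt R hR (some v) = x ∧ some v ∉ T ∧ ∀ t ∈ T, lbl (some v) t ∈ L := by
  classical
  obtain ⟨W, hWd⟩ : ∃ W, W = 3 * R * h ^ n := ⟨_, rfl⟩
  rw [← hWd] at hB
  have hW : 0 < W := by
    rw [hWd]
    positivity
  -- a free window
  have hcard : (T.biUnion (LBL_bad W)).card < (range (2 * n + 1)).card := by
    rw [Finset.card_range]
    have h1 := Finset.card_biUnion_le_card_mul T (LBL_bad W) 2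
      (fun t _ => LBL_bad_card W t)
    omega
  obtain ⟨s, hs1, hs2⟩ := Finset.exists_mem_notMem_of_card_lt_card hcard
  have hs : s ≤ 2 * n := by
    have := Finset.mem_range.1 hs1
    omega
  have hsb : ∀ t ∈ T, s ∉ LBL_bad W t := by
    intro t ht h1
    exact hs2 (Finset.mem_biUnion.2 ⟨t, ht, h1⟩)
  -- enumeration of `T`
  obtain ⟨f, hf⟩ : ∃ f : ℕ → Option (ZMod (2 * q - 1)), ∀ t ∈ T, ∃ i < n, f i = t := by
    refine ⟨fun i => if hi : i < T.card then (T.equivFin.symm ⟨i, hi⟩).1 else none, ?_⟩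
    intro t ht
    have h1 := (T.equivFin ⟨t, ht⟩).isLt
    refine ⟨(T.equivFin ⟨t, ht⟩).val, by omega, ?_⟩
    show (if hi : (T.equivFin ⟨t, ht⟩).val < T.card then
      (T.equivFin.symm ⟨(T.equivFin ⟨t, ht⟩).val, hi⟩).1 else none) = t
    rw [dif_pos h1]
    simp
  have hj := j.isLt
  have hx := x.isLt
  obtain ⟨v, hv1, hv2, hv3, hv4⟩ := hD n (3 * R) h (3 * x.val + j.val)
    (fun i => LBL_a (f i)) (fun i => LBL_T (1 + s * W) (f i)) ((1 + s * W : ℕ) : ℤ)
    (by omega) hh ho (by omega)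
    (by
      intro i
      cases hfi : f i with
      | none => right; simp [LBL_a]
      | some y => left; simp [LBL_a])
  obtain ⟨V, hV⟩ : ∃ V : ℕ, v = (V : ℤ) := Int.eq_ofNat_of_zero_le (by
    have : (0 : ℤ) ≤ ((1 + s * W : ℕ) : ℤ) := Int.natCast_nonneg _
    linarith)
  subst hV
  have hV1 : 1 + s * W ≤ V := by exact_mod_cast hv1
  have hV2 : V < 1 + s * W + W := by
    have h1 : (V : ℤ) < ((1 + s * W + W : ℕ) : ℤ) := by
      rw [hWd] at hv2 ⊢
      push_cast at hv2 ⊢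
      linarith
    exact_mod_cast h1
  have hV3 : V % (3 * R) = 3 * x.val + j.val := by exact_mod_cast hv3
  have hVq : 8 * V ≤ q := by
    have h1 : s * W ≤ 2 * n * W := Nat.mul_le_mul_right W hs
    have h2 : 8 * (2 * n + 1) * W = 8 * (2 * n * W) + 8 * W := by ring
    omega
  have hV0 : 1 ≤ V := le_trans (Nat.le_add_right 1 _) hV1
  have hval : (V : ZMod (2 * q - 1)).val = V := ZMod.val_natCast_of_lt (by omega)
  have hpno : pno (some (V : ZMod (2 * q - 1))) = V := by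
    show min (V : ZMod (2 * q - 1)).val (2 * q - 1 - (V : ZMod (2 * q - 1)).val) = V
    rw [hval]
    omega
  have hmod : V % (3 * R) = V % 3 + 3 * (V / 3 % R) := Nat.mod_mul
  have hV30 := Nat.mod_lt V (show 0 < 3 by norm_num)
  refine ⟨(V : ZMod (2 * q - 1)), by omega, by omega, ?_, ?_, ?_, ?_⟩
  · apply Fin.ext
    show pno (some (V : ZMod (2 * q - 1))) % 3 = j.val
    rw [hpno]
    omega
  · apply Fin.ext
    show pno (some (V : ZMod (2 * q - 1))) / 3 % R = x.val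
    rw [hpno]
    omega
  · intro h1
    apply hsb _ h1
    unfold LBL_bad
    rw [Finset.mem_insert, hval]
    left
    symm
    apply Nat.div_eq_of_lt_le
    · omega
    · have : (s + 1) * W = s * W + W := by ring
      omega
  · intro t ht
    apply hL
    obtain ⟨i, hi, hfi⟩ := hf t ht
    obtain ⟨h1, h2⟩ := LBL_key q W s V hW hV1 hV2 hVq t (hsb t ht)
    unfold LBL_L0
    rw [Finset.mem_filter]
    refine ⟨Finset.mem_univ _, ?_, i, hi, ?_⟩
    · intro h3
      rw [h3, ZMod.val_zero] at h2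
      exact lt_irrefl 0 h2
    · have h4 := hv4 i hi
      simp only [hfi] at h4
      rw [← h1] at h4
      exact_mod_cast h4

theorem LBL_good (hD : Stmt_DIG) (q : ℕ) [NeZero (2 * q - 1)] (n R h : ℕ) (hR : 0 < R)
    (hh : 1 < h) (ho : Odd h) (hB : 8 * (2 * n + 1) * (3 * R * h ^ n) ≤ q)
    (L : Finset (ZMod (2 * q - 1))) (hL : LBL_L0 q n (3 * R) h ⊆ L)
    (T : Finset (Option (ZMod (2 * q - 1)))) (j : Fin 3) (x : Fin R) (hT : T.card ≤ n) :
    ∃ v, cls v = j ∧ prt R hR v = x ∧ v ∉ T ∧ ∀ t ∈ T, lbl v t ∈ L := by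
  obtain ⟨v, _, _, h1, h2, h3, h4⟩ := LBL_goodS hD q n R h hR hh ho hB L hL T j x hT
  exact ⟨some v, h1, h2, h3, h4⟩

/-- the strong form of the block -/
theorem LBL_strong (hD : Stmt_DIG) : ∀ (m R : ℕ) (hR : 0 < R), 2 ≤ m → ∃ (C : ℝ) (q0 : ℕ),
    ∀ (q k : ℕ), q0 ≤ q → C * (q : ℝ) ^ (m - 2) ≤ (k : ℝ) ^ (m - 1) → C ≤ k → k ≤ q →
    ∃ L : Finset (ZMod (2 * q - 1)), L.card = k - 3 ∧ (0 : ZMod (2 * q - 1)) ∉ L ∧
      ∀ (T : Finset (Option (ZMod (2 * q - 1)))) (j : Fin 3) (x : Fin R), T.card ≤ m - 1 →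
        ∃ v : ZMod (2 * q - 1), 1 ≤ v.val ∧ 8 * v.val ≤ q ∧ cls (some v) = j ∧
          prt R hR (some v) = x ∧ some v ∉ T ∧ ∀ t ∈ T, lbl (some v) t ∈ L := by
  classical
  intro m R hR hm
  obtain ⟨p, rfl⟩ : ∃ p, m = p + 2 := ⟨m - 2, by omega⟩
  refine ⟨((8 * (2 * (p + 1) + 1) * (3 * R) * (10 * (p + 1)) ^ (p + 1) : ℕ) : ℝ), 0, ?_⟩
  intro q k _ h1 h2 h3
  rw [show p + 2 - 2 = p by omega, show p + 2 - 1 = p + 1 by omega] at h1
  have h1' : 8 * (2 * (p + 1) + 1) * (3 * R) * (10 * (p + 1)) ^ (p + 1) * q ^ p ≤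
      k ^ (p + 1) := by exact_mod_cast h1
  have h2' : 8 * (2 * (p + 1) + 1) * (3 * R) * (10 * (p + 1)) ^ (p + 1) ≤ k := by
    exact_mod_cast h2
  obtain ⟨h, hh, ho, hB, hA⟩ := LBL_num p (3 * R) q k (by omega) h1' h2' h3
  have hk3 : 3 ≤ k := by omega
  have : NeZero (2 * q - 1) := ⟨by omega⟩
  have hcard := LBL_card q p (3 * R) h (by omega) (by omega)
  have hsub : LBL_L0 q (p + 1) (3 * R) h ⊆ univ.filter (fun x => x ≠ 0) := by
    intro x hx
    have hx' := Finset.mem_filter.1 hx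
    exact Finset.mem_filter.2 ⟨Finset.mem_univ _, hx'.2.1⟩
  have hbig : k - 3 ≤ (univ.filter (fun x : ZMod (2 * q - 1) => x ≠ 0)).card := by
    rw [Finset.filter_ne' univ (0 : ZMod (2 * q - 1)),
      Finset.card_erase_of_mem (Finset.mem_univ _), Finset.card_univ, ZMod.card]
    omega
  obtain ⟨L, hL1, hL2, hL3⟩ := Finset.exists_subsuperset_card_eq hsub
    (show (LBL_L0 q (p + 1) (3 * R) h).card ≤ k - 3 by omega) hbig
  refine ⟨L, hL3, ?_, ?_⟩
  · intro h0
    exact (Finset.mem_filter.1 (hL2 h0)).2 rfl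
  · intro T j x hT
    rw [show p + 2 - 1 = p + 1 by omega] at hT
    exact LBL_goodS hD q (p + 1) R h hR hh ho hB L hL1 T j x hT

theorem stmt_LBL (hD : Stmt_DIG) : Stmt_LBL := by
  intro m R hR hm
  obtain ⟨C, q0, h⟩ := LBL_strong hD m R hR hm
  refine ⟨C, q0, fun q k h0 h1 h2 h3 => ?_⟩
  obtain ⟨L, hL1, hL2, hL3⟩ := h q k h0 h1 h2 h3
  refine ⟨L, hL1, hL2, fun T j x hT => ?_⟩
  obtain ⟨v, _, _, h4, h5, h6, h7⟩ := hL3 T j x hT
  exact ⟨some v, h4, h5, h6, h7⟩

end Pool.Agent.Work.MP_1ce445_fx
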