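import Pool.Agent.Work.MP_1ce445_fx.InterfaceQ
import Pool.Agent.Work.MP_1ce445_fx.LBL

/-!
Block LBLS of the theorem STAIRCASE (MP_1ce445_co, helper94).
-/

namespace Pool.Agent.Work.MP_1ce445_fx

open Finset Pool.Agent.Work.MP_1ce445_co_56 Pool.Agent.Work.MP_1ce445_lin

theorem stmt_LBLS (h1 : Stmt_DIG) : Stmt_LBLS := by
  intro m R hR hm
  obtain ⟨C, q0, h⟩ := LBL_strong h1 m R hR hm
  refine ⟨C, q0, fun q k h0 h1 h2 h3 => ?_⟩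
  obtain ⟨L, hL1, hL2, hL3⟩ := h q k h0 h1 h2 h3
  exact ⟨L, hL1, hL2, hL3⟩

end Pool.Agent.Work.MP_1ce445_fx
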