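import Pool.Agent.Work.MP_1ce445_fx.InterfaceU

/-!
THEOREM STAIRCASE for MP_1ce445_co, third phase (helper66). `N = 2⌊n/2⌋`, `q = ⌊n/2⌋`. For every `m ≥ 2` there are
`δ > 0`, `C`, `n0` such that for `n ≥ n0`, `k ≥ 3`:
(U) `27 P n k ≤ N^(k-3) (n + 6m)³` if `k^m ≤ δ n^(m-1)`;
(L) `N^(k-3) TTm m q ≤ P n k`, `TTm m q = max {a b c : even, a + b + c = 2q + 6m}`, if `C n^(m-2) ≤ k^(m-1)`, `2k ≤ n`;
so `P n k = n^(k-3) (n/3 + 2m)³` if `6 ∣ n` and both conditions on `k` hold.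

Files `Pool/Agent/Work/MP_1ce445_fx/<ID>.lean`, `import Pool.Agent.Work.MP_1ce445_fx.InterfaceM`, rules as in
`Interface.lean`. The upper bound blocks are copies of typed files (`m = 2`) with small changes.
-/

namespace Pool.Agent.Work.MP_1ce445_fx

open Finset Pool.Agent.Work.MP_1ce445_co_56 Pool.Agent.Work.MP_1ce445_lin

/-- the maximum of `a b c`, `a, b, c` even, `a + b + c = 2 q + 6 m` -/
def TTm (m q : ℕ) : ℕ := 8 * (((q + 3 * m) / 3) * ((q + 3 * m + 1) / 3) * ((q + 3 * m + 2) / 3))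

/-! ### Upper bound -/

/-- `al` with `m` random vertices in each of the two sets -/
noncomputable def am {n k : ℕ} (G : Fin k → SimpleGraph (Fin n)) (e : Fin 3 → Fin k) (θ : ℝ)
    (m : ℕ) (i : Fin 3) (v : Fin n) : ℝ := (A G e θ i (i + 1) v * A G e θ i (i + 2) v) ^ m

/-- the error term -/
noncomputable def RM (m n k s : ℕ) : ℝ :=
  (15 / (n : ℝ)) ^ m * (6 * n + 3 * 2 ^ m * ((k : ℝ) ^ m * n + 6 * ((k : ℝ) + s) ^ (m - 1) *
    (k + (s : ℝ) ^ 2)))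

/-- SPM (80 lines): copy of `SPC.lean` with `m` vertices of `Y` and `m` of `Z` (functions `Fin m → Fin n` with values in `Y`:
`Fintype.piFinset (fun _ => Y)`, `card = |Y|^m`; those with all values non-neighbours of `v`: `(|Y| - dg Y v)^m`). -/
def Stmt_SPM : Prop :=
  ∀ (n m : ℕ) (H : SimpleGraph (Fin n)) (Y Z D : Finset (Fin n)), (∀ v, ∃ w, H.Adj v w) →
    Y.Nonempty → Z.Nonempty →
    (gammaT H : ℝ) ≤ 2 * m + D.card + ∑ v ∈ und H D, (nf H Y v * nf H Z v) ^ m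

/-- CVM (70 lines): copy of `CVX.lean` with `s_j = t_j^m`; `x^m ≤ P + (1 - P) t^m` for `x = P + (1 - P) t` (`convexOn_pow`, or
induction on `m`). -/
def Stmt_CVM : Prop :=
  ∀ (m : ℕ) (x t : Fin 3 → ℝ), 1 ≤ m → (∀ j, 0 ≤ t j) → (∀ j, t j ≤ x j) → (∀ j, x j ≤ 1) →
    ∑ i, ((1 + t (i + 1) - x (i + 1)) * x (i + 2)) ^ m ≤ 1 + ∑ j, t j ^ m

/-- SMM (70 lines; uses SPM CVM TAU): copy of `SUM.lean`. -/
def Stmt_SMM : Prop :=
  ∀ (m n k : ℕ) (G : Fin k → SimpleGraph (Fin n)) (e : Fin 3 → Fin k) (θ : ℝ), 1 ≤ m →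
    Sit G e θ →
    (∀ v, ∑ i, am G e θ m i v ≤ 1 + ∑ i, ta G e θ i v ^ m) ∧
    (sg G e ≤ 6 * m + ∑ v, ∑ i, am G e θ m i v) ∧
    ∀ i0 : Fin 3, ∀ z : Fin n,
      sg G e ≤ 6 * m + 1 + ∑ v, ∑ i, am G e θ m i v - ∑ v ∈ nb (G (e i0)) z, am G e θ m i0 v

/-- SQM (100 lines; uses DG2), like `SQU.lean`. `D = m' + X`, `m' = |oth e| ≤ k`, `X = ∑ x_l`, `x_l = dg - 1`;
`D^m ≤ 2^m (k^m + X^m)`. `X ≤ S := ∑ s_l`, so `X^m ≤ S^(m-1) X`, and `∑_v X = ∑_l ∑_v x_l ≤ ∑_l 3 s_l · s_l`. So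
`∑_v X^m ≤ 3 S^(m-1) ∑ s_l²`, `S ≤ k + σ`, `∑ s_l² ≤ 2 (k + σ²)` (`s_l ≤ 1 + σ_l`, `(1 + σ_l)² ≤ 2 + 2 σ_l²`). -/
def Stmt_SQM : Prop :=
  ∀ (m n k : ℕ) (G : Fin k → SimpleGraph (Fin n)) (e : Fin 3 → Fin k) (θ : ℝ), 1 ≤ m →
    SitU G e θ →
    ∑ v, (∑ l ∈ oth e, (dg (G l) univ v : ℝ)) ^ m ≤
      2 ^ m * ((k : ℝ) ^ m * n + 6 * ((k : ℝ) + sn G e) ^ (m - 1) * (k + (sn G e : ℝ) ^ 2))

/-- TSM (110 lines; uses TAU SQM), like `TSU.lean`. `τ_i ≤ (5/n)(1 + d_i + D)`, `(a + b + c)^m ≤ 3^m (a^m + b^m + c^m)`,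
`∑_v ∑_i τ_i^m ≤ (15/n)^m (3 n + ∑_i ∑_v d_i^m + 3 ∑ D^m)`; `d_i ≤ 1`: `d_i^m ≤ 1`; `d_i ≤ Δ` (we may assume `Δ ≤ n`:
replace `Δ` by `min Δ n`): `∑_v d_i^m ≤ Δ^(m-1) ∑ d_i ≤ Δ^(m-1) θ n²` and `Δ^(m-1) n² ≤ Δ n^m`. -/
def Stmt_TSM : Prop :=
  ∀ (m n k : ℕ) (G : Fin k → SimpleGraph (Fin n)) (e : Fin 3 → Fin k) (θ : ℝ), 2 ≤ m →
    SitU G e θ →
    ((∀ i v, dg (G (e i)) (low (G (e i)) θ) v ≤ 1) →
      ∑ v, ∑ i, ta G e θ i v ^ m ≤ RM m n k (sn G e)) ∧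
    ∀ Δ : ℕ, (∀ i v, dg (G (e i)) (low (G (e i)) θ) v ≤ Δ) →
      ∑ v, ∑ i, ta G e θ i v ^ m ≤ RM m n k (sn G e) + 3 * 15 ^ m * θ * Δ

/-- ADM (100 lines; uses SMM TSM), like `ADU.lean`. `am i0 y ≥ (1 - 5 θ)^(2m) ≥ 1 - 10 m θ` for `y ∈ Y_{i0}`;
`(3 · 15^m + 10 m) θ ≤ 1/4` by the hypothesis on `θ`, so for `Δ ≥ 2`: `sg ≤ n + 6 m + 1 + RM - (3/4) Δ ≤ n + 6 m + RM`. -/
def Stmt_ADM : Prop :=
  ∀ (m n k : ℕ) (G : Fin k → SimpleGraph (Fin n)) (e : Fin 3 → Fin k) (θ : ℝ), 2 ≤ m →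
    100 * 15 ^ m * θ ≤ 1 → SitU G e θ → sg G e ≤ n + 6 * m + RM m n k (sn G e)

/-- PRM: `Stmt_PRD` with `c` instead of `12` (copy of `PRD.lean`). -/
def Stmt_PRM : Prop :=
  ∀ (k n N c : ℕ) (γ : Fin k → ℕ) (e : Fin 3 → Fin k) (r : ℝ), 0 < N → N ≤ n →
    Function.Injective e → 0 ≤ r → (∀ l, γ l ≤ N) → (∑ i, (γ (e i) : ℝ)) ≤ n + c + r →
    ∏ l, (γ l : ℝ) ≤ (N : ℝ) ^ (k - 3) * (((n : ℝ) + c) / 3) ^ 3 *
      Real.exp (3 * r / n - (∑ l ∈ oth e, ((N : ℝ) - γ l)) / N)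

/-- UUM (150 lines; uses STU ADM PRM), like `UU2.lean`. `θ = 1/(1000 · 10^(4m))`, say; `k^m ≤ δ n^(m-1)` gives `k ≤ δ' n` with
any `δ'` (`(k/n)^m ≤ δ/n`). For `k, σ ≤ θ n`: `RM m n k σ ≤ 1/10 + σ/100`: `15^m · 6/n^(m-1)` and
`15^m · 3 · 2^m k^m/n^(m-1)` are small; `(k+σ)^(m-1) k/n^m ≤ 2^(m-1) ((k/n)^m + (σ/n)^(m-1) (k/n))`, and
`(σ/n)^(m-1) ≤ σ/n`; `(k+σ)^(m-1) σ²/n^m ≤ (2θ)^(m-1) θ σ`; `15^m · 18 · 2^m · 2^m θ ≤ 1/1000`. If `σ = 0` then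
`sg ≤ n + 6 m` (integers), AM-GM; if `σ ≥ 1` the exponent `3 (1/10 + σ/100)/n - σ/N ≤ 0`. -/
def Stmt_UUM : Prop :=
  ∀ m : ℕ, 2 ≤ m → ∃ (δ : ℝ) (n0 : ℕ), 0 < δ ∧ ∀ n k : ℕ, n0 ≤ n → 3 ≤ k →
    (k : ℝ) ^ m ≤ δ * (n : ℝ) ^ (m - 1) → 27 * P n k ≤ NN n ^ (k - 3) * (n + 6 * m) ^ 3

/-! ### Lower bound -/

/-- DIG (100 lines), digits. For given integers `T_i` and steps `a_i` (`a_i = 1`, or `a_i = 2` with `h` odd) there is `v` in any
interval of length `w h^m` with given residue modulo `w`, such that for all `i < m` the `i`-th digit of `a_i v + T_i` in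
base `h` (above the factor `w`) is zero. Induction on `m`: given `v` with `v % w = r` and the conditions for `i < m`,
replace `v` by `v + w h^m x`, `0 ≤ x < h`: the residue modulo `w` and the digits `i < m` of `a_i v + T_i` do not change
(`w h^m` is a multiple of `w h^(i+1)`), and `(a_m v + T_m)/(w h^m)` changes to `(..) + a_m x`, for some `x` it is `0` modulo
`h` (`a_m` is a unit modulo `h`). All conditions depend only on `v` modulo `w h^m`: shift into the interval. -/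
def Stmt_DIG : Prop :=
  ∀ (m w h r : ℕ) (a : ℕ → ℕ) (T : ℕ → ℤ) (v0 : ℤ), 0 < w → 1 < h → Odd h → r < w →
    (∀ i, a i = 1 ∨ a i = 2) →
    ∃ v : ℤ, v0 ≤ v ∧ v < v0 + w * h ^ m ∧ v % w = r ∧
      ∀ i < m, ((a i * v + T i) / (w * h ^ i)) % h = 0

/-- MTX (100 lines). `R = h^t`, `h = 2 t² + 3`, `B a b` = some digit of `(a + b) % R` in base `h` is zero. `true`: for
`u_1, …, u_t` choose `b` with `i`-th digit of `u_i + b` zero (as in DIG with `w = 1`, `a = 1`, or directly). `false`: for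
every `u` at most `t R/h` of the `b` have a zero digit in `u + b`, and `t · t R/h < R`. -/
def Stmt_MTX : Prop :=
  ∀ t : ℕ, ∃ (R : ℕ) (B : Fin R → Fin R → Bool), 0 < R ∧ (∀ a b, B a b = B b a) ∧
    ∀ (U : Finset (Fin R)) (s : Bool), U.card ≤ t → ∃ x, ∀ u ∈ U, B u x = s

/-- `|x|` in `ZMod (2 q - 1)`: the number of the pair `{x, -x}`; the pair `{0, ∞}` has number `0` -/
def pno {q : ℕ} : Option (ZMod (2 * q - 1)) → ℕ
  | none => 0
  | some x => min x.val (2 * q - 1 - x.val)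

/-- the label of a pair of vertices -/
def lbl {q : ℕ} : Option (ZMod (2 * q - 1)) → Option (ZMod (2 * q - 1)) → ZMod (2 * q - 1)
  | none, none => 0
  | none, some y => y + y
  | some x, none => x + x
  | some x, some y => x + y

/-- class -/
def cls {q : ℕ} (v : Option (ZMod (2 * q - 1))) : Fin 3 := ⟨pno v % 3, Nat.mod_lt _ (by norm_num)⟩

/-- part -/
def prt {q : ℕ} (R : ℕ) (hR : 0 < R) (v : Option (ZMod (2 * q - 1))) : Fin R :=
  ⟨pno v / 3 % R, Nat.mod_lt _ hR⟩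

/-- `L` is good: at most `m - 1` vertices always have a common neighbour `v`, in the graph with the labels in `L`, of
given class and part. -/
def Good (m q R : ℕ) (hR : 0 < R) (L : Finset (ZMod (2 * q - 1))) : Prop :=
  (0 : ZMod (2 * q - 1)) ∉ L ∧
  ∀ (T : Finset (Option (ZMod (2 * q - 1)))) (j : Fin 3) (x : Fin R), T.card ≤ m - 1 →
    ∃ v, cls v = j ∧ prt R hR v = x ∧ v ∉ T ∧ ∀ t ∈ T, lbl v t ∈ L

/-- LBL (200 lines; uses DIG). `w = 3 R`, `m' = m - 1`, `q' = 2 q - 1`; `h` = the smallest odd integer `≥ 8 m' q/k`, so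
`8 ≤ h ≤ 10 m' q/k` and `(2 m' + 1) w h^m' ≤ (2 m' + 1) w (10 m')^m' q/C ≤ q/4` as `k^m' ≥ C q^(m'-1)`.
`L₀ = {x ≠ 0 : for some i < m' the number (x.val / (w h^i)) % h is 0}`, `|L₀| ≤ ∑_{i < m'} (q'/(w h^(i+1)) + 1) w h^i ≤
m' (q'/h + w h^(m'-1)) ≤ 3 m' q/h ≤ k/2 ≤ k - 3`; `L ⊇ L₀` any set of `k - 3` nonzero labels. Given `T` (at most `m'`
elements; number them; `a_i = 1` for `t_i = some _`, `a_i = 2` for `t_i = none`): among the `2 m' + 1` windows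
`[1 + s W, 1 + (s+1) W)`, `W = w h^m'`, `s ≤ 2 m'`, all in `[1, q/2]`, choose one which contains neither an element of `T` nor a
point `q' - t_i` (every `t_i = some _` forbids at most two windows, `none` forbids nothing). There `(v + t_i).val = v + T_i` with a
constant `T_i ∈ {t_i, t_i - q'}`, not `0` (and `(v + v).val = 2 v` for `none`, `T_i = 0`); DIG with the residue
`r = 3 x + j` of the cell modulo `w` (`v < q/2`, so `pno v = v`). -/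
def Stmt_LBL : Prop :=
  ∀ (m R : ℕ) (hR : 0 < R), 2 ≤ m → ∃ (C : ℝ) (q0 : ℕ), ∀ (q k : ℕ), q0 ≤ q →
    C * (q : ℝ) ^ (m - 2) ≤ (k : ℝ) ^ (m - 1) → C ≤ k → k ≤ q →
    ∃ L : Finset (ZMod (2 * q - 1)), L.card = k - 3 ∧ Good m q R hR L

/-- internal rule: the colour of a pair whose label is not in `L ∪ {0}` -/
def ruleM {q : ℕ} (R : ℕ) (hR : 0 < R) (B : Fin R → Fin R → Bool)
    (u v : Option (ZMod (2 * q - 1))) : Fin 3 :=
  if cls u = cls v then (if B (prt R hR u) (prt R hR v) then cls u + 1 else cls u + 2)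
  else -(cls u + cls v)

open Classical in
/-- The factors: index type `L ⊕ Fin 3`. The pairs with label `l ∈ L` form the factor `inl l`; the pairs with label `0`
(the pairs `{x, -x}`, `{0, ∞}`) get the colour of their class; all other pairs get the colour `ruleM`. -/
noncomputable def GM {q : ℕ} (R : ℕ) (hR : 0 < R) (B : Fin R → Fin R → Bool)
    (L : Finset (ZMod (2 * q - 1))) (i : L ⊕ Fin 3) : SimpleGraph (Option (ZMod (2 * q - 1))) :=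
  SimpleGraph.fromRel (fun u v => match i with
    | Sum.inl l => lbl u v = l.1
    | Sum.inr j => lbl u v ∉ L ∧ (if lbl u v = 0 then cls u = j else ruleM R hR B u v = j))

/-- GM1 (120 lines). `lbl` is symmetric; `lbl u v = 0`, `u ≠ v` gives `pno u = pno v`, so `cls u = cls v`; `ruleM` is symmetric.
`minDeg`: label `l`: `x ↦ l - x` (`l/2 ↦ ∞`, `2` is a unit modulo `2q - 1`); colour `j`: for a vertex `u` of class `j`
the partner of label `0`; for `u` of another class take (by `Good` with `T = ∅`... or directly) a vertex `v` of the third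
class whose label with `u` is not in `L ∪ {0}`: there are at least `(2 q - 4)/3 - 1` vertices of the third class and `u` has
only `k - 3` neighbours with a label in `L`; `k ≤ q/2` is enough. -/
def Stmt_GM1 : Prop :=
  ∀ (q k R : ℕ) (hR : 0 < R) (B : Fin R → Fin R → Bool) (L : Finset (ZMod (2 * q - 1))),
    100 ≤ q → 3 ≤ k → 2 * k ≤ q → L.card = k - 3 → (0 : ZMod (2 * q - 1)) ∉ L →
    (∀ a b, B a b = B b a) → IsFactorization (GM R hR B L)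

/-- GM2 (60 lines; uses GM1): `card_le_gammaT` with `f = id`, `g u` = the vertex with `lbl u (g u) = l`. -/
def Stmt_GM2 : Prop :=
  ∀ (q k R : ℕ) (hR : 0 < R) (B : Fin R → Fin R → Bool) (L : Finset (ZMod (2 * q - 1))),
    100 ≤ q → 3 ≤ k → 2 * k ≤ q → L.card = k - 3 → (0 : ZMod (2 * q - 1)) ∉ L →
    (∀ a b, B a b = B b a) → ∀ l : L, 2 * q ≤ gammaT (GM R hR B L (Sum.inl l))

/-- CNM (60 lines): the number of the vertices of class `j`. `pno` takes every value `u < q` exactly twice (`{0, ∞}`,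
`{u, -u}`), and `#{u < q | u % 3 = j} = (q + 2 - j)/3`. -/
def Stmt_CNM : Prop :=
  ∀ (q : ℕ) [Fintype (ZMod (2 * q - 1))], 1 ≤ q → ∀ j : Fin 3,
    (univ.filter (fun v : Option (ZMod (2 * q - 1)) => cls v = j)).card =
      2 * ((q + 2 - j.val) / 3)

/-- GM3 (200 lines; uses CNM GM1), like `CN3.lean`. `S` a total dominating set of the colour `i`, `X_i` the vertices of class `i`:
`X_i ⊆ S` (a vertex of class `i` has in the colour `i` only the neighbour of label `0`). `T = S ∖ X_i`; suppose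
`|T| ≤ 2 m - 1`. For one of the two other classes, `l`, `|T_l| ≤ m - 1`; `j` the other one, `|T_j| ≤ 2 m - 1`: the property of `B`
for the parts of `T_j` gives a part `x` (`s` as in `CN3`), `Good` gives `v` of class `j` and part `x` such that all pairs
`v, t`, `t ∈ T_l`, have labels in `L`: `v` has no neighbour of colour `i` in `S`. `|X_i| = 2 ((q + 2 - i)/3)` by CNM. -/
def Stmt_GM3 : Prop :=
  ∀ (m q k R : ℕ) (hR : 0 < R) (B : Fin R → Fin R → Bool) (L : Finset (ZMod (2 * q - 1))),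
    2 ≤ m → 100 ≤ q → 3 ≤ k → 2 * k ≤ q → L.card = k - 3 → Good m q R hR L →
    (∀ a b, B a b = B b a) →
    (∀ (U : Finset (Fin R)) (s : Bool), U.card ≤ 2 * m - 1 → ∃ x, ∀ u ∈ U, B u x = s) →
    ∀ j : Fin 3, 2 * ((q + 2 - j.val) / 3) + 2 * m ≤ gammaT (GM R hR B L (Sum.inr j))

/-- LOM (100 lines; uses MTX LBL GM1 GM2 GM3 CLN). `le_P` with `Option (ZMod (2 q - 1))` (`2 q` elements) and the index
type `L ⊕ Fin 3` (`k` elements); `2 ((q + 2 - j)/3) + 2 m = 2 ((q + 3 m + 2 - j)/3)`; odd `n` by CLN. -/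
def Stmt_LOM : Prop :=
  ∀ m : ℕ, 2 ≤ m → ∃ (C : ℝ) (n0 : ℕ), ∀ n k : ℕ, n0 ≤ n → C * (n : ℝ) ^ (m - 2) ≤ (k : ℝ) ^ (m - 1) →
    C ≤ k → 5 * k ≤ n → NN n ^ (k - 3) * TTm m (n / 2) ≤ P n k

end Pool.Agent.Work.MP_1ce445_fx
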