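import Pool.Agent.Work.MP_1ce445_fx.InterfaceL
import Pool.Agent.Work.MP_1ce445_fx.InterfaceM

namespace Pool.Agent.Work.MP_1ce445_fx

open Finset Pool.Agent.Work.MP_1ce445_co_56 Pool.Agent.Work.MP_1ce445_lin

theorem stmt_LOM (hMTX : Stmt_MTX) (hLBL : Stmt_LBL) (hGM1 : Stmt_GM1) (hGM2 : Stmt_GM2)
    (hGM3 : Stmt_GM3) (hCLN : Stmt_CLN) : Stmt_LOM := by
  intro m hm
  obtain ⟨R, B, hR, hsym, hB⟩ := hMTX (2 * m - 1)
  obtain ⟨C, q0, hL⟩ := hLBL m R hR hm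
  have main : ∀ q k : ℕ, q0 ≤ q → 100 ≤ q → C * (q : ℝ) ^ (m - 2) ≤ (k : ℝ) ^ (m - 1) → C ≤ k →
      3 ≤ k → 2 * k ≤ q → (2 * q) ^ (k - 3) * TTm m q ≤ P (2 * q) k := by
    intro q k h0 h100 h1 h2 h3 h4
    obtain ⟨L, hLc, hgood⟩ := hL q k h0 h1 h2 (by omega)
    have hfac := hGM1 q k R hR B L h100 h3 h4 hLc hgood.1 hsym
    have hg2 := hGM2 q k R hR B L h100 h3 h4 hLc hgood.1 hsym
    have hg3 := hGM3 m q k R hR B L hm h100 h3 h4 hLc hgood hsym hB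
    haveI : NeZero (2 * q - 1) := ⟨by omega⟩
    have hV : Fintype.card (Option (ZMod (2 * q - 1))) = 2 * q := by
      rw [Fintype.card_option, ZMod.card]; omega
    have hι : Fintype.card (L ⊕ Fin 3) = k := by
      rw [Fintype.card_sum, Fintype.card_coe, hLc, Fintype.card_fin]; omega
    refine le_trans ?_ (le_P hV hι hfac)
    rw [Fintype.prod_sum_type]
    have er : (2 * q) ^ (k - 3) ≤ ∏ l : L, gammaT (GM R hR B L (Sum.inl l)) := by
      calc (2 * q) ^ (k - 3) = ∏ _l : L, 2 * q := by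
            rw [prod_const, card_univ, Fintype.card_coe, hLc]
        _ ≤ _ := Finset.prod_le_prod' fun l _ => hg2 l
    have e0 := hg3 0
    have e1 := hg3 1
    have e2 := hg3 2
    have v0 : ((0 : Fin 3) : Fin 3).val = 0 := rfl
    have v1 : ((1 : Fin 3) : Fin 3).val = 1 := rfl
    have v2 : ((2 : Fin 3) : Fin 3).val = 2 := rfl
    rw [v0] at e0
    rw [v1] at e1
    rw [v2] at e2
    have a0 : 2 * ((q + 3 * m + 2) / 3) ≤ gammaT (GM R hR B L (Sum.inr 0)) := by omega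
    have a1 : 2 * ((q + 3 * m + 1) / 3) ≤ gammaT (GM R hR B L (Sum.inr 1)) := by omega
    have a2 : 2 * ((q + 3 * m) / 3) ≤ gammaT (GM R hR B L (Sum.inr 2)) := by omega
    rw [Fin.prod_univ_three]
    calc (2 * q) ^ (k - 3) * TTm m q
        = (2 * q) ^ (k - 3) * (2 * ((q + 3 * m + 2) / 3) * (2 * ((q + 3 * m + 1) / 3)) *
          (2 * ((q + 3 * m) / 3))) := by
          unfold TTm; ring
      _ ≤ _ := Nat.mul_le_mul er (Nat.mul_le_mul (Nat.mul_le_mul a0 a1) a2)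
  refine ⟨max C 3, 2 * q0 + 201, fun n k hn h1 h2 h5 => ?_⟩
  have hC3 : (3 : ℝ) ≤ max C 3 := le_max_right _ _
  have hCC : C ≤ max C 3 := le_max_left _ _
  have hk3 : 3 ≤ k := by
    have : (3 : ℝ) ≤ k := hC3.trans h2
    exact_mod_cast this
  have hq : ((n / 2 : ℕ) : ℝ) ≤ n := by exact_mod_cast Nat.div_le_self n 2
  have h6 : C * ((n / 2 : ℕ) : ℝ) ^ (m - 2) ≤ (k : ℝ) ^ (m - 1) := by
    refine le_trans ?_ h1
    have h7 : ((n / 2 : ℕ) : ℝ) ^ (m - 2) ≤ (n : ℝ) ^ (m - 2) :=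
      pow_le_pow_left₀ (Nat.cast_nonneg _) hq _
    calc C * ((n / 2 : ℕ) : ℝ) ^ (m - 2) ≤ max C 3 * ((n / 2 : ℕ) : ℝ) ^ (m - 2) :=
          mul_le_mul_of_nonneg_right hCC (by positivity)
      _ ≤ max C 3 * (n : ℝ) ^ (m - 2) := mul_le_mul_of_nonneg_left h7 (by linarith)
  have h8 := main (n / 2) k (by omega) (by omega) h6 (hCC.trans h2) hk3 (by omega)
  have hNN : NN n = 2 * (n / 2) := rfl
  rw [hNN]
  refine h8.trans ?_
  rcases Nat.even_or_odd' n with ⟨s, hs | hs⟩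
  · have : 2 * (n / 2) = n := by omega
    rw [this]
  · have : n = 2 * (n / 2) + 1 := by omega
    calc P (2 * (n / 2)) k ≤ P (2 * (n / 2) + 1) k := hCLN _ _ (by omega) (by omega)
      _ = P n k := by rw [← this]

end Pool.Agent.Work.MP_1ce445_fx
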