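import Pool.Agent.Work.MP_1ce445_fx.InterfaceL
import Pool.Agent.Work.MP_1ce445_fx.InterfaceQ

/-!
Block LOQ of the theorem STAIRCASE (MP_1ce445_co, helper94): the lower bound for odd `n`.
-/

namespace Pool.Agent.Work.MP_1ce445_fx

open Finset Pool.Agent.Work.MP_1ce445_co_56 Pool.Agent.Work.MP_1ce445_lin

theorem LOQ_prod {m q k R : ℕ} (hm : 2 ≤ m) (hR : 0 < R) (B : Fin R → Fin R → Bool)
    (L : Finset (ZMod (2 * q - 1))) (c1 : Fin 3) (hc : c1 ≠ 0)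
    (hsym : ∀ a b, B a b = B b a)
    (hB : ∀ (U : Finset (Fin R)) (s : Bool), U.card ≤ 2 * m → ∃ x, ∀ u ∈ U, B u x = s)
    (h100 : 100 ≤ q) (h3 : 3 ≤ k) (h4 : 4 * k ≤ q) (hLc : L.card = k - 3)
    (hgood : GoodS m q R hR L)
    (hGO1 : Stmt_GO1) (hGO2 : Stmt_GO2) (hGO3 : Stmt_GO3) (hCNO : Stmt_CNO) :
    (2 * q) ^ (k - 3) * ((2 * ((q + 2) / 3) - 1 + 2 * m) *
      ((if (1 : Fin 3) = c1 then 2 * ((q + 1) / 3) + 1 else 2 * ((q + 1) / 3)) + 2 * m) *
      ((if (2 : Fin 3) = c1 then 2 * (q / 3) + 1 else 2 * (q / 3)) + 2 * m)) ≤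
    P (2 * q + 1) k := by
  haveI : NeZero (2 * q - 1) := ⟨by omega⟩
  have hfac := hGO1 q k R hR B c1 L h100 h3 h4 hLc hgood.1 hc hsym
  have hg2 := hGO2 q k R hR B c1 L h100 h3 h4 hLc hgood.1 hc hsym
  have hg3 := hGO3 m q k R hR B c1 L hm h100 h3 h4 hLc hgood hc hsym hB
  have hcn := hCNO q (by omega) c1 hc
  have hV : Fintype.card (Option (Option (ZMod (2 * q - 1)))) = 2 * q + 1 := by
    rw [Fintype.card_option, Fintype.card_option, ZMod.card]; omega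
  have hι : Fintype.card (L ⊕ Fin 3) = k := by
    rw [Fintype.card_sum, Fintype.card_coe, hLc, Fintype.card_fin]; omega
  refine le_trans ?_ (le_P hV hι hfac)
  rw [Fintype.prod_sum_type]
  have er : (2 * q) ^ (k - 3) ≤ ∏ l : L, gammaT (GO R hR B c1 L (Sum.inl l)) := by
    calc (2 * q) ^ (k - 3) = ∏ _l : L, 2 * q := by
          rw [prod_const, card_univ, Fintype.card_coe, hLc]
      _ ≤ _ := Finset.prod_le_prod' fun l _ => hg2 l
  have e0 := hg3 0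
  have e1 := hg3 1
  have e2 := hg3 2
  have c0 := hcn 0
  have c1' := hcn 1
  have c2' := hcn 2
  have n1 : (1 : Fin 3) ≠ 0 := by decide
  have n2 : (2 : Fin 3) ≠ 0 := by decide
  have v1 : q + 2 - ((1 : Fin 3) : Fin 3).val = q + 1 := by
    have : ((1 : Fin 3) : Fin 3).val = 1 := rfl
    omega
  have v2 : q + 2 - ((2 : Fin 3) : Fin 3).val = q := by
    have : ((2 : Fin 3) : Fin 3).val = 2 := rfl
    omega
  rw [if_pos rfl] at c0
  rw [if_neg n1, v1] at c1'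
  rw [if_neg n2, v2] at c2'
  rw [c0] at e0
  rw [c1'] at e1
  rw [c2'] at e2
  rw [Fin.prod_univ_three]
  exact Nat.mul_le_mul er (Nat.mul_le_mul (Nat.mul_le_mul e0 e1) e2)

theorem stmt_LOQ (hMTX : Stmt_MTX) (hLBLS : Stmt_LBLS) (hGO1 : Stmt_GO1) (hGO2 : Stmt_GO2)
    (hGO3 : Stmt_GO3) (hCNO : Stmt_CNO) (hLOM : Stmt_LOM) : Stmt_LOQ := by
  intro m hm
  obtain ⟨R, B, hR, hsym, hB⟩ := hMTX (2 * m)
  obtain ⟨C1, q0, hL⟩ := hLBLS m R hR hm
  obtain ⟨C2, n2, hM⟩ := hLOM m hm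
  refine ⟨max (max C1 C2) 3, 2 * q0 + n2 + 201, fun n k hn hodd h1 h2 h5 => ?_⟩
  have hC3 : (3 : ℝ) ≤ max (max C1 C2) 3 := le_max_right _ _
  have hC1 : C1 ≤ max (max C1 C2) 3 := (le_max_left _ _).trans (le_max_left _ _)
  have hC2 : C2 ≤ max (max C1 C2) 3 := (le_max_right _ _).trans (le_max_left _ _)
  have hk3 : 3 ≤ k := by
    have : (3 : ℝ) ≤ k := hC3.trans h2
    exact_mod_cast this
  obtain ⟨q, hq⟩ := hodd
  have hNN : NN n = 2 * q := by
    have : NN n = 2 * (n / 2) := rfl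
    omega
  have hqn : (q : ℝ) ≤ n := by
    have : q ≤ n := by omega
    exact_mod_cast this
  have h6 : C1 * (q : ℝ) ^ (m - 2) ≤ (k : ℝ) ^ (m - 1) := by
    refine le_trans ?_ h1
    have h7 : (q : ℝ) ^ (m - 2) ≤ (n : ℝ) ^ (m - 2) :=
      pow_le_pow_left₀ (Nat.cast_nonneg _) hqn _
    calc C1 * (q : ℝ) ^ (m - 2) ≤ max (max C1 C2) 3 * (q : ℝ) ^ (m - 2) :=
          mul_le_mul_of_nonneg_right hC1 (by positivity)
      _ ≤ max (max C1 C2) 3 * (n : ℝ) ^ (m - 2) := mul_le_mul_of_nonneg_left h7 (by linarith)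
  have h6' : C2 * (n : ℝ) ^ (m - 2) ≤ (k : ℝ) ^ (m - 1) := by
    refine le_trans ?_ h1
    exact mul_le_mul_of_nonneg_right hC2 (by positivity)
  rw [hNN]
  have h3c : q % 3 = 0 ∨ q % 3 = 1 ∨ q % 3 = 2 := by omega
  rcases h3c with h3 | h3 | h3
  · have h8 := hM n k (by omega) h6' (hC2.trans h2) (by omega)
    rw [hNN] at h8
    refine le_trans (le_of_eq ?_) h8
    have hn2 : n / 2 = q := by omega
    obtain ⟨s, hs⟩ : ∃ s, q = 3 * s := ⟨q / 3, by omega⟩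
    rw [hn2]
    unfold T3 TTm
    have g1 : (2 * q + 6 * m) / 3 = 2 * (s + m) := by omega
    have g2 : (2 * q + 6 * m + 1) / 3 = 2 * (s + m) := by omega
    have g3 : (2 * q + 6 * m + 2) / 3 = 2 * (s + m) := by omega
    have g4 : (q + 3 * m) / 3 = s + m := by omega
    have g5 : (q + 3 * m + 1) / 3 = s + m := by omega
    have g6 : (q + 3 * m + 2) / 3 = s + m := by omega
    rw [g1, g2, g3, g4, g5, g6]
    ring
  · obtain ⟨L, hLc, hgood⟩ := hL q k (by omega) h6 (hC1.trans h2) (by omega)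
    have h9 := LOQ_prod hm hR B L 1 (by decide) hsym hB (by omega) hk3 (by omega) hLc hgood
      hGO1 hGO2 hGO3 hCNO
    rw [hq]
    refine le_trans (le_of_eq ?_) h9
    obtain ⟨s, hs⟩ : ∃ s, q = 3 * s + 1 := ⟨q / 3, by omega⟩
    have d1 : ((2 : Fin 3) = 1) = False := by decide
    rw [if_pos rfl]
    simp only [d1, if_false]
    have g1 : (2 * q + 6 * m) / 3 = 2 * s + 2 * m := by omega
    have g2 : (2 * q + 6 * m + 1) / 3 = 2 * s + 2 * m + 1 := by omega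
    have g3 : (2 * q + 6 * m + 2) / 3 = 2 * s + 2 * m + 1 := by omega
    have g4 : 2 * ((q + 2) / 3) - 1 + 2 * m = 2 * s + 2 * m + 1 := by omega
    have g5 : 2 * ((q + 1) / 3) + 1 + 2 * m = 2 * s + 2 * m + 1 := by omega
    have g6 : 2 * (q / 3) + 2 * m = 2 * s + 2 * m := by omega
    unfold T3
    rw [g1, g2, g3, g4, g5, g6]
    ring
  · obtain ⟨L, hLc, hgood⟩ := hL q k (by omega) h6 (hC1.trans h2) (by omega)
    have h9 := LOQ_prod hm hR B L 2 (by decide) hsym hB (by omega) hk3 (by omega) hLc hgood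
      hGO1 hGO2 hGO3 hCNO
    rw [hq]
    refine le_trans (le_of_eq ?_) h9
    obtain ⟨s, hs⟩ : ∃ s, q = 3 * s + 2 := ⟨q / 3, by omega⟩
    have d1 : ((1 : Fin 3) = 2) = False := by decide
    rw [if_pos rfl]
    simp only [d1, if_false]
    have g1 : (2 * q + 6 * m) / 3 = 2 * s + 2 * m + 1 := by omega
    have g2 : (2 * q + 6 * m + 1) / 3 = 2 * s + 2 * m + 1 := by omega
    have g3 : (2 * q + 6 * m + 2) / 3 = 2 * s + 2 * m + 2 := by omega
    have g4 : 2 * ((q + 2) / 3) - 1 + 2 * m = 2 * s + 2 * m + 1 := by omega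
    have g5 : 2 * ((q + 1) / 3) + 2 * m = 2 * s + 2 * m + 2 := by omega
    have g6 : 2 * (q / 3) + 1 + 2 * m = 2 * s + 2 * m + 1 := by omega
    unfold T3
    rw [g1, g2, g3, g4, g5, g6]
    ring

end Pool.Agent.Work.MP_1ce445_fx
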