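import Pool.Agent.Work.MP_1ce445_fx.Interface

/-!
THEOREM FixedK for MP_1ce445_co, second phase: growing `k` (helper66, helper38). `N = 2⌊n/2⌋`.
(1) `27 P n k ≤ N^(k-3) (n + 12 + C k²/n)³` for `3 ≤ k ≤ δ n`; (2) `27 P n k ≤ N^(k-3) (n + 12)³` for `k² ≤ δ n`;
(3) `27 P n k ≤ N^(k-3) (N + 12)³`, and `P n k ≤ N^(k-3) TT (n/2)` for even `n`, for `k³ ≤ δ n`;
(4) `N^(k-3) TT (n/2) ≤ P n k` for `28 ≤ k ≤ n/2`.

Files `Pool/Agent/Work/MP_1ce445_fx/<ID>.lean`, `import Pool.Agent.Work.MP_1ce445_fx.InterfaceU`, rules as in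
`Interface.lean`. Many blocks are copies of typed files of the first phase with small changes.
-/

namespace Pool.Agent.Work.MP_1ce445_fx

open Finset Pool.Agent.Work.MP_1ce445_co_56 Pool.Agent.Work.MP_1ce445_lin

/-- `σ`: the sum of the `N - γ_l` over the other colours, a natural number (all `γ_l ≤ N`) -/
noncomputable def sn {n k : ℕ} (G : Fin k → SimpleGraph (Fin n)) (e : Fin 3 → Fin k) : ℕ :=
  ∑ l ∈ oth e, (NN n - gammaT (G l))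

/-- The situation, uniform in `k`. -/
structure SitU {n k : ℕ} (G : Fin k → SimpleGraph (Fin n)) (e : Fin 3 → Fin k) (θ : ℝ) : Prop where
  sit : Sit G e θ
  leN : ∀ l, gammaT (G l) ≤ NN n
  kn : (k : ℝ) ≤ θ * n
  def' : (sn G e : ℝ) ≤ θ * n
  rst : ((univ.filter (fun v => ∀ i, v ∉ low (G (e i)) θ)).card : ℝ) ≤ θ / 2 * n

/-- the error term -/
noncomputable def RU (n k s : ℕ) : ℝ :=
  (450 + 450 * (k : ℝ) ^ 2) / n + 2700 * ((k : ℝ) + s) * (k + s ^ 2) / n ^ 2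

open Classical in
/-- the colours of `M` in which `v` has degree at least `d n` -/
noncomputable def thk {n k : ℕ} (G : Fin k → SimpleGraph (Fin n)) (M : Finset (Fin k)) (d : ℝ)
    (v : Fin n) : Finset (Fin k) := M.filter (fun j => d * n ≤ (dg (G j) univ v : ℝ))

/-! ### Stability, uniform -/

/-- CR3 (copy of `MP_1ce445_lin/CORE.lean` with the sets `T'` of that proof written out: `T' v = thk G M d v`,
`d = τ²`, `τ = s²/30`; change only the statement and the last lines). -/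
def Stmt_CR3 : Prop :=
  ∀ (n k R : ℕ) (G : Fin k → SimpleGraph (Fin n)) (s t : ℝ), IsFactorization G →
    0 < s → s ≤ 1 → 1 ≤ s ^ 2 / 30 * n → k ≤ n →
    (R : ℝ) / n + (1 - (s ^ 2 / 30) ^ 2) ^ R ≤ t →
    (∏ j, (gammaT (G j) : ℝ) ≤ Real.exp (-4) * (NN n : ℝ) ^ k) ∨
    ∃ (M : Finset (Fin k)) (Vg : Finset (Fin n)),
      (M.card : ℝ) ≤ 5 / (s ^ 2 / 30) ∧ (1 - s) * n ≤ Vg.card ∧
      (∀ v ∈ Vg, (n : ℝ) - 1 - k - s * n ≤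
        ((univ.filter (fun w => thk G M ((s ^ 2 / 30) ^ 2) v ∩ thk G M ((s ^ 2 / 30) ^ 2) w ≠ ∅)).card
          : ℝ)) ∧
      (∀ j ∈ M, (gammaT (G j) : ℝ) ≤
        (1 - ((univ.filter (fun v => j ∈ thk G M ((s ^ 2 / 30) ^ 2) v)).card : ℝ) / n + t) * n) ∧
      ∀ j, gammaT (G j) ≤ NN n

/-- fraction of the `v` with `x ∈ T v` -/
noncomputable def prU {V : Type} [Fintype V] {k : ℕ} (T : V → Finset (Fin k)) (x : Fin k) : ℝ :=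
  ((univ.filter (fun v => x ∈ T v)).card : ℝ) / Fintype.card V

/-- S3S (set systems; `MP_1ce445_sm` with `c ≤ 1/100` and a margin). Either the product is at most `1/27 - 1/2000`, or
there are three elements such that every `T v` contains two of them. Copy `STB STR FEW HEA CI CII SMA SMS` of
`MP_1ce445_sm` (for `MP_1ce445_sm` only `c ≤ 7/250`): with `c ≤ 1/100` the bounds are STB: (i) `.0347`, (ii)
`exp (-3.38)`, (iii) `e^(.06)/32 = .0332`; FEW `exp (-(26/27)(27/10) - (13/18)(99/100)) = .0364`; CI `e^(.02)/(4 e²) = .0345`;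
CII `.031`; `1/27 - 1/2000 = .03653`. The case TRI (heavy triangle) is the second alternative (every `T v` meets
`{a, b}`, `{a, d}`, `{b, d}`). -/
def Stmt_S3S : Prop :=
  ∀ {V : Type} [Fintype V] {k : ℕ} (M : Finset (Fin k)) (T : V → Finset (Fin k)) (c : ℝ),
    0 < Fintype.card V → (∀ v, T v ⊆ M) → 0 ≤ c → c ≤ 1 / 100 →
    (∀ v, ((univ.filter (fun w => T v ∩ T w = ∅)).card : ℝ) ≤ c * Fintype.card V) →
    (∏ x ∈ M, (1 - prU T x) ≤ 1 / 27 - 1 / 2000) ∨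
    ∃ a b d : Fin k, a ≠ b ∧ a ≠ d ∧ b ≠ d ∧ a ∈ M ∧ b ∈ M ∧ d ∈ M ∧
      ∀ v, 2 ≤ (T v ∩ {a, b, d}).card

/-- STU (250 lines; uses CR3 S3S; model `MP_1ce445_sm/UP3.lean`). `s` small depending on `θ` (`s ≤ θ/C`,
`(s²/30)² ≤ θ`, ...), then `R`, `t`, then `δ`, `n0`. CR3 (its first alternative contradicts `1/27 N^k`); S3S for
`V = {v // v ∈ Vg}` with the restriction of `T = thk G M d`, `c = (k + 1 + s n)/|Vg|` small. First alternative: as in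
UP3 the product is at most `(1/27 - 1/2000 + small) N^k`, a contradiction. Second: `a, b, d` are the three colours. With
`x_j = 1 - prU T j` (`j = a, b, d`), `x_a + x_b + x_d ≤ 1`, and all other factors are at most `N` resp. at most `1 + t`
times `n`: `1/27 ≤ (x_a + t')(x_b + t')(x_d + t') ∏_{oth} (γ_l/N)`, so each `x_j ≥ 1/3 - small ≥ 1/4`,
`∑_{oth} (1 - γ_l/N) ≤ - log (1 - small) ≤ θ/2`. `low (G j) θ ⊇ {v | j ∉ thk v}` for `j ∈ M` (`d ≤ θ`). A vertex of `Vg`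
in no `low (G j) θ` has `a, b, d ∈ T v`; their number is at most `∑ |T v ∩ {a,b,d}| - 2 |Vg| ≤ (1 - x_a - x_b - x_d) |Vg|`,
small; the others are `≤ s n`. `gam` follows from `def'` with `θ/2` and `N ≥ n - 1`. -/
def Stmt_STU : Prop :=
  ∀ θ : ℝ, 0 < θ → θ ≤ 1 / 1000 → ∃ δ : ℝ, 0 < δ ∧ ∃ n0 : ℕ, ∀ n k : ℕ, n0 ≤ n → 3 ≤ k →
    (k : ℝ) ≤ δ * n → ∀ G : Fin k → SimpleGraph (Fin n), IsFactorization G →
    1 / 27 * (NN n : ℝ) ^ k ≤ ∏ j, (gammaT (G j) : ℝ) → ∃ e : Fin 3 → Fin k, SitU G e θ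

/-! ### The main estimate, uniform -/

/-- SQU (100 lines; uses DG2). `m = |oth e| ≤ k`, `x_l = dg (G l) univ v - 1 ≥ 0`; `D = m + ∑ x_l`,
`D² ≤ 2 m² + 2 (∑ x_l)²`. `x_l ≤ s_l := n - γ_l`, and `x_l(v) ≠ 0` for at most `3 s_l` vertices:
`∑_v x_l(v) x_l'(v) ≤ 3 s_l · s_l s_l'`, so `∑_v (∑_l x_l)² ≤ 3 (∑ s_l) (∑ s_l²)`. `s_l ≤ 1 + σ_l`, `σ_l = N - γ_l`:
`∑ s_l ≤ k + σ`, `∑ s_l² ≤ 2 k + 2 σ²`. -/
def Stmt_SQU : Prop :=
  ∀ (n k : ℕ) (G : Fin k → SimpleGraph (Fin n)) (e : Fin 3 → Fin k) (θ : ℝ), SitU G e θ →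
    ∑ v, (∑ l ∈ oth e, (dg (G l) univ v : ℝ)) ^ 2 ≤
      2 * k ^ 2 * n + 12 * ((k : ℝ) + sn G e) * (k + (sn G e : ℝ) ^ 2)

/-- TSU (100 lines; uses TAU SQU): copy of `TSQ.lean` with SQU. `(75/n²)(6 n + 3 ∑ D²) ≤ RU`. -/
def Stmt_TSU : Prop :=
  ∀ (n k : ℕ) (G : Fin k → SimpleGraph (Fin n)) (e : Fin 3 → Fin k) (θ : ℝ), SitU G e θ →
    ((∀ i v, dg (G (e i)) (low (G (e i)) θ) v ≤ 1) →
      ∑ v, ∑ i, ta G e θ i v ^ 2 ≤ RU n k (sn G e)) ∧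
    ∀ Δ : ℕ, (∀ i v, dg (G (e i)) (low (G (e i)) θ) v ≤ Δ) →
      ∑ v, ∑ i, ta G e θ i v ^ 2 ≤ RU n k (sn G e) + 225 * θ * Δ

/-- ADU (100 lines; uses SUM TSU): copy of `ADD.lean`. -/
def Stmt_ADU : Prop :=
  ∀ (n k : ℕ) (G : Fin k → SimpleGraph (Fin n)) (e : Fin 3 → Fin k) (θ : ℝ), SitU G e θ →
    sg G e ≤ n + 12 + RU n k (sn G e) ∧
    ((∃ i v, 2 ≤ dg (G (e i)) (low (G (e i)) θ) v) → sg G e ≤ n + 23 / 2 + RU n k (sn G e))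

/-! ### Parity, uniform -/

/-- Extremal situation with small parameters (uniform version of `Ext`: same fields except the last three). -/
structure ExtU {n k : ℕ} (G : Fin k → SimpleGraph (Fin n)) (e : Fin 3 → Fin k) (θ ε : ℝ) :
    Prop where
  sit : Sit G e θ
  ep : 0 < ε
  ep' : ε ≤ 1 / 1000
  one : ∀ i v, dg (G (e i)) (low (G (e i)) θ) v ≤ 1
  sum : (n : ℝ) + 12 ≤ sg G e
  tsq : ∑ v, ∑ i, ta G e θ i v ^ 2 ≤ ε
  tau : ∀ i v, ta G e θ i v ≤ (10 + 25 * k) / n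
  tau' : (10 + 25 * (k : ℝ)) / n ≤ ε
  small : 6 * ε * (10 + 25 * k) ≤ 1 / 4
  rst : ((univ.filter (fun v => ∀ i, v ∉ low (G (e i)) θ)).card : ℝ) ≤ θ / 2 * n
  sth : 40 * ε ≤ θ

/-- TYU (uses CV2 TAU SUM): copy of `TYP.lean`, `Ext` replaced by `ExtU`. -/
def Stmt_TYU : Prop :=
  ∀ (n k : ℕ) (G : Fin k → SimpleGraph (Fin n)) (e : Fin 3 → Fin k) (θ ε : ℝ), ExtU G e θ ε →
    ∃ t : Fin n → Fin 3, IsTyp G e θ ε t

/-- XCU (uses TAU SUM): copy of `XCA.lean`, `Ext` replaced by `ExtU`. -/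
def Stmt_XCU : Prop :=
  ∀ (n k : ℕ) (G : Fin k → SimpleGraph (Fin n)) (e : Fin 3 → Fin k) (θ ε : ℝ)
    (t : Fin n → Fin 3), ExtU G e θ ε → IsTyp G e θ ε t → ∀ i,
    gammaT (G (e i)) = (univ.filter (fun v => t v = i)).card + 4 ∧
    ∑ v ∈ univ.filter (fun v => t v ≠ i), al G e θ i v ≤ 1 / 2

/-- DSU (uses XCU): copy of `DSJ.lean`, `Ext` replaced by `ExtU`. -/
def Stmt_DSU : Prop :=
  ∀ (n k : ℕ) (G : Fin k → SimpleGraph (Fin n)) (e : Fin 3 → Fin k) (θ ε : ℝ)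
    (t : Fin n → Fin 3), ExtU G e θ ε → IsTyp G e θ ε t → ∀ i v v' w, t v = i → t v' = i →
    (G (e i)).Adj v w → (G (e i)).Adj v' w → v = v'

/-- YXU (60 lines; uses TAU): `t u = m` if and only if `u ∈ Y_m`. If `u ∈ Y_m`: as in `OUT.lean`. If `t u = m` and `u ∉ Y_m`
then `u` is in no `Y_i` (first part), `deg_{e m} u ≥ θ n`; but `u` has at most `5 ε n` neighbours of the colour `e m` in
each of `Y_{m+1}`, `Y_{m+2}`, at most one in `Y_m`, and at most `θ n/2` outside `∪ Y`; `10 ε n + 1 + θ n/2 < θ n` by `sth`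
and `10/n ≤ ε`. -/
def Stmt_YXU : Prop :=
  ∀ (n k : ℕ) (G : Fin k → SimpleGraph (Fin n)) (e : Fin 3 → Fin k) (θ ε : ℝ)
    (t : Fin n → Fin 3), ExtU G e θ ε → IsTyp G e θ ε t → ∀ u m,
    (t u = m ↔ u ∈ low (G (e m)) θ)

/-- OUU (200 lines; uses TAU XCU YXU): copy of `OUT.lean`; the vertices `u` with `t u = l` which are not neighbours of `w`
are in `Y_l`, their number is at most `A i l w * |Y_l| ≤ 6 ε n`, so `∑ τ_j(u) ≤ 6 ε (10 + 25 k) ≤ 1/4`. -/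
def Stmt_OUU : Prop :=
  ∀ (n k : ℕ) (G : Fin k → SimpleGraph (Fin n)) (e : Fin 3 → Fin k) (θ ε : ℝ)
    (t : Fin n → Fin 3), ExtU G e θ ε → IsTyp G e θ ε t → ∀ i v w, t v = i →
    (G (e i)).Adj v w → t w = i

/-- PAU (uses TYU XCU DSU OUU): copy of `PAR.lean`. -/
def Stmt_PAU : Prop :=
  ∀ (n k : ℕ) (G : Fin k → SimpleGraph (Fin n)) (e : Fin 3 → Fin k) (θ ε : ℝ), ExtU G e θ ε →
    Even n ∧ ∀ i, Even (gammaT (G (e i)))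

/-- MXU (uses TAU DG2 ADU TSU): copy of `MXT.lean`. `sn ≤ 3`, so `N - γ_l ≤ 3`, `n - γ_l ≤ 4`, `dg ≤ 5`; `RU` is monotone
in `s`. -/
def Stmt_MXU : Prop :=
  ∀ (n k : ℕ) (G : Fin k → SimpleGraph (Fin n)) (e : Fin 3 → Fin k) (θ ε : ℝ), SitU G e θ →
    0 < ε → ε ≤ 1 / 1000 → RU n k 3 ≤ ε → (10 + 25 * (k : ℝ)) / n ≤ ε →
    6 * ε * (10 + 25 * k) ≤ 1 / 4 → 40 * ε ≤ θ → sn G e ≤ 3 →
    (n : ℝ) + 12 ≤ sg G e → ExtU G e θ ε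

/-! ### Upper bounds -/

/-- UU1 (120 lines; uses STU ADU PRD). `θ = 1/1000`, `k ≤ θ n`, `σ = sn ≤ θ n`:
`RU n k σ ≤ r₀ + σ/100`, `r₀ = (450 + 3150 k²)/n` (`2700 (k+σ)(k+σ²)/n² ≤ 2700 k²/n² + 2700 (kσ² + kσ + σ³)/n²`,
`σ ≤ σ²`, `kσ² ≤ θ² n² σ`, `σ³ ≤ θ² n² σ`, `8100 θ² ≤ 1/100`). PRD with `r = RU`: the exponent is at most `3 r₀/n`, and
`(n + 12) e^(r₀/n) ≤ n + 12 + 4 r₀`. If the product is less than `N^k/27` there is nothing to prove. -/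
def Stmt_UU1 : Prop :=
  ∃ (C δ : ℝ) (n0 : ℕ), 0 < δ ∧ ∀ n k : ℕ, n0 ≤ n → 3 ≤ k → (k : ℝ) ≤ δ * n →
    27 * (P n k : ℝ) ≤ (NN n : ℝ) ^ (k - 3) * (n + 12 + C * k ^ 2 / n) ^ 3

/-- UU2 (150 lines; uses STU ADU PRD). `k² ≤ δ n`. If `σ = 0` then `sg ≤ n + 12` (integers) and AM-GM; if `σ ≥ 1` the
exponent in PRD is `3 (r₀ + σ/100)/n - σ/N ≤ 0` (`r₀ ≤ 1/10`). -/
def Stmt_UU2 : Prop :=
  ∃ (δ : ℝ) (n0 : ℕ), 0 < δ ∧ ∀ n k : ℕ, n0 ≤ n → 3 ≤ k → (k : ℝ) ^ 2 ≤ δ * n →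
    27 * P n k ≤ NN n ^ (k - 3) * (n + 12) ^ 3

/-- UU3 (200 lines; uses STU ADU MXU PAU NUM PRD): copy of `UPF.lean`, now `δ` instead of `n0(k)`:
`θ = 1/1000`, `ε = ε(n, k) = C k²/n` with `6 ε (10 + 25 k) ≤ 1/4` (`k³ ≤ δ n`), `40 ε ≤ θ`. -/
def Stmt_UU3 : Prop :=
  ∃ (δ : ℝ) (n0 : ℕ), 0 < δ ∧ ∀ n k : ℕ, n0 ≤ n → 3 ≤ k → (k : ℝ) ^ 3 ≤ δ * n →
    27 * P n k ≤ NN n ^ (k - 3) * (NN n + 12) ^ 3 ∧
    (Even n → P n k ≤ NN n ^ (k - 3) * TT (n / 2))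

/-- LOU: the lower bound, uniform (helper66; from LAY MAT CON CLN). -/
def Stmt_LOU : Prop :=
  ∃ n0 : ℕ, ∀ n k : ℕ, n0 ≤ n → 28 ≤ k → 2 * k ≤ n → NN n ^ (k - 3) * TT (n / 2) ≤ P n k

end Pool.Agent.Work.MP_1ce445_fx
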