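import Pool.Agent.Work.MP_1ce445_fx.InterfaceL
import Pool.Agent.Work.MP_1ce445_fx.InterfaceU

namespace Pool.Agent.Work.MP_1ce445_fx

open Finset Pool.Agent.Work.MP_1ce445_co_56 Pool.Agent.Work.MP_1ce445_lin

theorem stmt_LOU (hLAY : Stmt_LAY) (hMAT : Stmt_MAT) (hCON : Stmt_CON) (hCLN : Stmt_CLN) :
    Stmt_LOU := by
  obtain ⟨q0, hq⟩ := hLAY
  obtain ⟨B, hB⟩ := hMAT
  have main : ∀ q k : ℕ, q0 ≤ q → 28 ≤ k → k ≤ q → (2 * q) ^ (k - 3) * TT q ≤ P (2 * q) k := by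
    intro q k h1 h2 h3
    haveI : NeZero q := ⟨by omega⟩
    obtain ⟨c, p, hL⟩ := hq q h1
    exact hCON q k c p B hL hB h2 h3
  refine ⟨2 * q0 + 1, fun n k hn hk hkn => ?_⟩
  have h1 := main (n / 2) k (by omega) hk (by omega)
  have hNN : NN n = 2 * (n / 2) := rfl
  rw [hNN]
  refine h1.trans ?_
  rcases Nat.even_or_odd' n with ⟨m, hm | hm⟩
  · have : 2 * (n / 2) = n := by omega
    rw [this]
  · have : n = 2 * (n / 2) + 1 := by omega
    calc P (2 * (n / 2)) k ≤ P (2 * (n / 2) + 1) k := hCLN _ _ (by omega) (by omega)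
      _ = P n k := by rw [← this]

theorem stmt_LOW (hLAY : Stmt_LAY) (hMAT : Stmt_MAT) (hCON : Stmt_CON) (hCLN : Stmt_CLN) :
    Stmt_LOW := by
  obtain ⟨n0, h⟩ := stmt_LOU hLAY hMAT hCON hCLN
  intro k hk
  exact ⟨n0 + 2 * k, fun n hn => h n k (by omega) hk (by omega)⟩

end Pool.Agent.Work.MP_1ce445_fx
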