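import Pool.Agent.Work.MP_1ce445_fx.InterfaceL

namespace Pool.Agent.Work.MP_1ce445_fx

open Finset Pool.Agent.Work.MP_1ce445_co_56 Pool.Agent.Work.MP_1ce445_lin

/-- the rows of the matrix as bit patterns -/
def MAT_L : List ℕ :=
  [222188186, 652884025, 356736372, 211398563, 709154439, 991758414, 821486052, 329361241,
    107693004, 190752153, 564199068, 787186734, 118674455, 248628938, 676885845, 842219224,
    458795436, 322607943, 1039139441, 830163755, 10482281, 741248451, 655190870, 924069066,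
    449779365, 734247858, 618936591, 455436857, 965705956, 384617586]

def MAT_row (a : Fin 30) : ℕ := MAT_L.getD a.val 0

def MAT_B (a b : Fin 30) : Bool := (MAT_row a).testBit b.val

def MAT_f (s : Bool) (x : ℕ) : ℕ := if s then x else (2 ^ 30 - 1) ^^^ x

theorem MAT_mem : ∀ a : Fin 30, MAT_row a ∈ MAT_L := by decide +kernel

theorem MAT_sym : ∀ a b : Fin 30, MAT_B a b = MAT_B b a := by decide +kernel

theorem MAT_lt : (MAT_L.all fun x => decide (x < 2 ^ 30)) = true := by decide +kernel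

theorem MAT_chk2 (s : Bool) : (MAT_L.all fun x => MAT_L.all fun y =>
    ((MAT_f s x &&& MAT_f s y) &&& (2 ^ 8 - 1)) != 0) = true := by
  cases s <;> decide +kernel

theorem MAT_chk3 (s : Bool) : (MAT_L.all fun x => MAT_L.all fun y => MAT_L.all fun z =>
    ((MAT_f s x &&& MAT_f s y) &&& MAT_f s z) != 0) = true := by
  cases s <;> decide +kernel

theorem MAT_bit (a : Fin 30) (s : Bool) (i : ℕ) (h : (MAT_f s (MAT_row a)).testBit i = true) :
    ∃ hi : i < 30, MAT_B a ⟨i, hi⟩ = s := by
  have hlt : MAT_row a < 2 ^ 30 := by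
    have := List.all_eq_true.1 MAT_lt _ (MAT_mem a)
    simpa using this
  cases s with
  | true =>
    have h' : (MAT_row a).testBit i = true := by simpa [MAT_f] using h
    have hi : i < 30 := by
      by_contra hc
      have : MAT_row a < 2 ^ i := lt_of_lt_of_le hlt (Nat.pow_le_pow_right (by norm_num) (by omega))
      rw [Nat.testBit_lt_two_pow this] at h'
      simp at h'
    exact ⟨hi, h'⟩
  | false =>
    have h' : ((2 ^ 30 - 1) ^^^ (MAT_row a)).testBit i = true := by
      have : MAT_f false (MAT_row a) = (2 ^ 30 - 1) ^^^ (MAT_row a) := by simp [MAT_f]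
      rwa [this] at h
    rw [Nat.testBit_xor, Nat.testBit_two_pow_sub_one] at h'
    have hi : i < 30 := by
      by_contra hc
      have : MAT_row a < 2 ^ i := lt_of_lt_of_le hlt (Nat.pow_le_pow_right (by norm_num) (by omega))
      rw [Nat.testBit_lt_two_pow this] at h'
      simp [hc] at h'
    refine ⟨hi, ?_⟩
    have h2 : decide (i < 30) = true := by simpa using hi
    rw [h2] at h'
    show (MAT_row a).testBit i = false
    simpa using h'

theorem stmt_MAT : Stmt_MAT := by
  refine ⟨MAT_B, MAT_sym, ?_, ?_⟩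
  · intro a b s
    have h := List.all_eq_true.1 (List.all_eq_true.1 (MAT_chk2 s) _ (MAT_mem a)) _ (MAT_mem b)
    have h0 : ((MAT_f s (MAT_row a) &&& MAT_f s (MAT_row b)) &&& (2 ^ 8 - 1)) ≠ 0 := by simpa using h
    obtain ⟨i, hi⟩ := Nat.exists_testBit_of_ne_zero h0
    rw [Nat.testBit_and, Nat.testBit_and, Bool.and_eq_true, Bool.and_eq_true,
      Nat.testBit_two_pow_sub_one] at hi
    obtain ⟨⟨h1, h2⟩, h3⟩ := hi
    obtain ⟨hl, e1⟩ := MAT_bit a s i h1
    obtain ⟨_, e2⟩ := MAT_bit b s i h2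
    exact ⟨⟨i, hl⟩, by simpa using h3, e1, e2⟩
  · intro a b c s
    have h := List.all_eq_true.1 (List.all_eq_true.1 (List.all_eq_true.1 (MAT_chk3 s) _
      (MAT_mem a)) _ (MAT_mem b)) _ (MAT_mem c)
    have h0 : ((MAT_f s (MAT_row a) &&& MAT_f s (MAT_row b)) &&& MAT_f s (MAT_row c)) ≠ 0 := by
      simpa using h
    obtain ⟨i, hi⟩ := Nat.exists_testBit_of_ne_zero h0
    rw [Nat.testBit_and, Nat.testBit_and, Bool.and_eq_true, Bool.and_eq_true] at hi
    obtain ⟨⟨h1, h2⟩, h3⟩ := hi
    obtain ⟨hl, e1⟩ := MAT_bit a s i h1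
    obtain ⟨_, e2⟩ := MAT_bit b s i h2
    obtain ⟨_, e3⟩ := MAT_bit c s i h3
    exact ⟨⟨i, hl⟩, e1, e2, e3⟩

end Pool.Agent.Work.MP_1ce445_fx
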