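import Pool.Agent.Work.MP_1ce445_fx.InterfaceM

/-!
MTX (helper94). `R = (t+1)^t`: the indices are the functions `Fin t → Fin (t+1)`, and `B a b` holds iff `a i = b i` for
some `i`. `true`: number the elements of `U` and take `x i = u_i i`. `false`: `x i` differs from all `u i`, `u ∈ U`.
-/

namespace Pool.Agent.Work.MP_1ce445_fx

open Finset Pool.Agent.Work.MP_1ce445_co_56 Pool.Agent.Work.MP_1ce445_lin

theorem MTX_true (t : ℕ) (U : Finset (Fin t → Fin (t + 1))) (hU : U.card ≤ t) :
    ∃ x : Fin t → Fin (t + 1), ∀ u ∈ U, ∃ i, u i = x i := by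
  refine ⟨fun i => if h : i.val < U.card then (U.equivFin.symm ⟨i.val, h⟩).1 i else 0, ?_⟩
  intro u hu
  have hlt : (U.equivFin ⟨u, hu⟩).val < U.card := (U.equivFin ⟨u, hu⟩).2
  refine ⟨⟨(U.equivFin ⟨u, hu⟩).val, lt_of_lt_of_le hlt hU⟩, ?_⟩
  simp

theorem MTX_false (t : ℕ) (U : Finset (Fin t → Fin (t + 1))) (hU : U.card ≤ t) :
    ∃ x : Fin t → Fin (t + 1), ∀ u ∈ U, ∀ i, u i ≠ x i := by
  have key : ∀ i : Fin t, ∃ y : Fin (t + 1), y ∉ U.image (fun u => u i) := by
    intro i
    by_contra hcon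
    push Not at hcon
    have h1 : (univ : Finset (Fin (t + 1))) ⊆ U.image (fun u => u i) := fun y _ => hcon y
    have h2 := card_le_card h1
    have h3 : (U.image (fun u => u i)).card ≤ U.card := card_image_le
    rw [card_univ, Fintype.card_fin] at h2
    omega
  choose x hx using key
  refine ⟨x, ?_⟩
  intro u hu i heq
  exact hx i (mem_image.2 ⟨u, hu, heq⟩)

theorem stmt_MTX : Stmt_MTX := by
  classical
  intro t
  let e := Fintype.equivFin (Fin t → Fin (t + 1))
  refine ⟨Fintype.card (Fin t → Fin (t + 1)),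
    fun a b => decide (∃ i, e.symm a i = e.symm b i), Fintype.card_pos, ?_, ?_⟩
  · intro a b
    have : (∃ i, e.symm a i = e.symm b i) ↔ (∃ i, e.symm b i = e.symm a i) :=
      ⟨fun ⟨i, h⟩ => ⟨i, h.symm⟩, fun ⟨i, h⟩ => ⟨i, h.symm⟩⟩
    simp only [this]
  · intro U s hU
    have hc : (U.map e.symm.toEmbedding).card ≤ t := by rw [card_map]; exact hU
    cases s with
    | true =>
      obtain ⟨x, hx⟩ := MTX_true t (U.map e.symm.toEmbedding) hc
      refine ⟨e x, ?_⟩
      intro u hu
      have h1 := hx (e.symm u) (mem_map.2 ⟨u, hu, rfl⟩)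
      simp only [Equiv.symm_apply_apply, decide_eq_true_eq]
      exact h1
    | false =>
      obtain ⟨x, hx⟩ := MTX_false t (U.map e.symm.toEmbedding) hc
      refine ⟨e x, ?_⟩
      intro u hu
      have h1 := hx (e.symm u) (mem_map.2 ⟨u, hu, rfl⟩)
      simp only [Equiv.symm_apply_apply, decide_eq_false_iff_not]
      rintro ⟨i, hi⟩
      exact h1 i hi

end Pool.Agent.Work.MP_1ce445_fx
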