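import Pool.Agent.Work.MP_1ce445_fx.InterfaceP
import Pool.Agent.Work.MP_1ce445_fx.ADM

/-!
Block MXM of THEOREM STAIRCASE: from the situation to `ExtM`.
-/

namespace Pool.Agent.Work.MP_1ce445_fx

open Finset Pool.Agent.Work.MP_1ce445_co_56 Pool.Agent.Work.MP_1ce445_lin

theorem MXM_oth {k : ℕ} (e : Fin 3 → Fin k) : ((oth e).card : ℝ) ≤ k := by
  have h : (oth e).card ≤ k := by
    have h1 := card_le_univ (oth e)
    rwa [Fintype.card_fin] at h1
  exact_mod_cast h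

theorem MXM_RM (m n k s t : ℕ) (h : s ≤ t) : RM m n k s ≤ RM m n k t := by
  unfold RM
  have hst : (s : ℝ) ≤ t := by exact_mod_cast h
  have hs : (0 : ℝ) ≤ s := Nat.cast_nonneg _
  have hk : (0 : ℝ) ≤ k := Nat.cast_nonneg _
  have h1 : (s : ℝ) ^ 2 ≤ (t : ℝ) ^ 2 := pow_le_pow_left₀ hs hst 2
  have h2 : ((k : ℝ) + s) ^ (m - 1) * (k + (s : ℝ) ^ 2) ≤
      ((k : ℝ) + t) ^ (m - 1) * (k + (t : ℝ) ^ 2) := by
    apply mul_le_mul
    · exact pow_le_pow_left₀ (by positivity) (by linarith) _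
    · linarith
    · positivity
    · positivity
  apply mul_le_mul_of_nonneg_left _ (by positivity)
  have h3 : 3 * (2 : ℝ) ^ m * ((k : ℝ) ^ m * n + 6 * ((k : ℝ) + s) ^ (m - 1) *
      (k + (s : ℝ) ^ 2)) ≤
      3 * (2 : ℝ) ^ m * ((k : ℝ) ^ m * n + 6 * ((k : ℝ) + t) ^ (m - 1) * (k + (t : ℝ) ^ 2)) := by
    apply mul_le_mul_of_nonneg_left _ (by positivity)
    nlinarith
  linarith

/-- all degrees into the special sets are at most one -/
theorem MXM_one (hSMM : Stmt_SMM) (hTSM : Stmt_TSM) (m n k : ℕ) (G : Fin k → SimpleGraph (Fin n))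
    (e : Fin 3 → Fin k) (θ ε : ℝ) (hm : 2 ≤ m) (hθm : 100 * 15 ^ m * θ ≤ 1) (hU : SitU G e θ)
    (he : ε ≤ 1 / 1000) (hR : RM m n k (sn G e) ≤ ε) (hsg : (n : ℝ) + 6 * m ≤ sg G e) :
    ∀ i v, dg (G (e i)) (low (G (e i)) θ) v ≤ 1 := by
  classical
  by_contra hc
  push Not at hc
  have hS := hU.sit
  obtain ⟨s1, s2, s3⟩ := hSMM m n k G e θ (by omega) hS
  obtain ⟨t1, t2⟩ := hTSM m n k G e θ hm hU
  have hθ := hS.th
  have hθ' := hS.th'
  have htot : ∑ v, ∑ i, am G e θ m i v ≤ n + ∑ v, ∑ i, ta G e θ i v ^ m := by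
    have h : ∑ v, ∑ i, am G e θ m i v ≤ ∑ v : Fin n, (1 + ∑ i, ta G e θ i v ^ m) :=
      Finset.sum_le_sum fun v _ => s1 v
    rw [Finset.sum_add_distrib, Finset.sum_const, Finset.card_univ, Fintype.card_fin, nsmul_eq_mul,
      mul_one] at h
    exact h
  obtain ⟨i1, v1, hv1⟩ := hc
  obtain ⟨⟨i0, z⟩, _, hmax⟩ := Finset.exists_max_image (univ : Finset (Fin 3 × Fin n))
    (fun q => dg (G (e q.1)) (low (G (e q.1)) θ) q.2) ⟨(i1, v1), Finset.mem_univ _⟩
  set Δ : ℕ := dg (G (e i0)) (low (G (e i0)) θ) z with hΔ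
  have hall : ∀ i v, dg (G (e i)) (low (G (e i)) θ) v ≤ Δ := fun i v =>
    hmax (i, v) (Finset.mem_univ _)
  have hΔ2 : 2 ≤ Δ := by
    have := hall i1 v1
    omega
  have hΔ2' : (2 : ℝ) ≤ Δ := by exact_mod_cast hΔ2
  have h4 := t2 Δ hall
  have h5 := s3 i0 z
  have h6 : (Δ : ℝ) * (1 - 2 * m * (5 * θ)) ≤ ∑ v ∈ nb (G (e i0)) z, am G e θ m i0 v := by
    have hsub : (low (G (e i0)) θ).filter (fun w => (G (e i0)).Adj z w) ⊆
        nb (G (e i0)) z := by
      intro w hw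
      unfold nb
      rw [Finset.mem_filter] at hw ⊢
      exact ⟨Finset.mem_univ _, hw.2⟩
    have h7 : ∑ v ∈ (low (G (e i0)) θ).filter (fun w => (G (e i0)).Adj z w), am G e θ m i0 v ≤
        ∑ v ∈ nb (G (e i0)) z, am G e θ m i0 v := by
      apply Finset.sum_le_sum_of_subset_of_nonneg hsub
      intro v _ _
      exact ADM_am G e θ m i0 v
    refine le_trans ?_ h7
    have h8 : ∀ v ∈ (low (G (e i0)) θ).filter (fun w => (G (e i0)).Adj z w),
        1 - 2 * m * (5 * θ) ≤ am G e θ m i0 v := by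
      intro v hv
      have hv1 := (Finset.mem_filter.mp hv).1
      exact ADM_pow m (5 * θ) _ _ (by linarith) (by linarith)
        (ADD_A G e θ hS i0 (i0 + 1) v hv1) (ADD_A G e θ hS i0 (i0 + 2) v hv1)
    have h9 := Finset.card_nsmul_le_sum _ _ _ h8
    rw [nsmul_eq_mul] at h9
    have h10 : ((low (G (e i0)) θ).filter (fun w => (G (e i0)).Adj z w)).card = Δ := by
      rw [hΔ]
      unfold dg
      congr
    rw [h10] at h9
    exact h9
  have hm15 : (m : ℝ) ≤ 15 ^ m := by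
    have : m < 15 ^ m := Nat.lt_pow_self (by norm_num)
    have h : ((m : ℕ) : ℝ) ≤ ((15 ^ m : ℕ) : ℝ) := by exact_mod_cast this.le
    push_cast at h
    exact h
  have hb1 : (m : ℝ) * θ ≤ 15 ^ m * θ := mul_le_mul_of_nonneg_right hm15 hθ.le
  have h11 : 3 * 15 ^ m * θ + 10 * (m * θ) ≤ 1 / 4 := by nlinarith
  have h12 : (Δ : ℝ) * (3 * 15 ^ m * θ + 10 * (m * θ)) ≤ Δ * (1 / 4) :=
    mul_le_mul_of_nonneg_left h11 (by linarith)
  have h13 : 3 * 15 ^ m * θ * Δ - (Δ : ℝ) * (1 - 2 * m * (5 * θ)) =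
      (Δ : ℝ) * (3 * 15 ^ m * θ + 10 * (m * θ)) - Δ := by ring
  linarith

/-- Block MXM. -/
theorem stmt_MXM (hTAU : Stmt_TAU) (hDG2 : Stmt_DG2) (hSMM : Stmt_SMM) (hTSM : Stmt_TSM) :
    Stmt_MXM := by
  intro m n k G e θ ε hm hθm hU he0 he1 hRM htau hsm hth hsn hsg
  have hS := hU.sit
  have hn : (0 : ℝ) < n := by exact_mod_cast hS.pos
  have hN : n ≤ NN n + 1 := by
    unfold NN
    omega
  have h4 : ∀ l, (∀ i, l ≠ e i) → n ≤ gammaT (G l) + 4 := by
    intro l hl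
    have hm : l ∈ oth e := by
      unfold oth
      rw [mem_filter]
      exact ⟨mem_univ _, hl⟩
    have h : NN n - gammaT (G l) ≤ sn G e := by
      unfold sn
      exact single_le_sum (f := fun l => NN n - gammaT (G l)) (fun _ _ => Nat.zero_le _) hm
    omega
  have hR : RM m n k (sn G e) ≤ ε := (MXM_RM m n k _ _ hsn).trans hRM
  have he2 : ε ≤ 1 / 1000 := by
    have h1 : (1 : ℝ) ≤ 100 ^ m := one_le_pow₀ (by norm_num)
    nlinarith
  have hone := MXM_one hSMM hTSM m n k G e θ ε hm hθm hU he2 hR hsg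
  refine ⟨hm, hS, he0, he1, hone, hsg, ?_, ?_, htau, hsm, hU.rst, hth⟩
  · exact ((hTSM m n k G e θ hm hU).1 hone).trans hR
  · intro i v
    have h1 := ((hTAU n k G e θ hS).2 i v).2.2
    have h0 := ((hTAU n k G e θ hS).2 i v).1
    have hd : (dg (G (e i)) (low (G (e i)) θ) v : ℝ) ≤ 1 := by exact_mod_cast hone i v
    have hs : ∑ l ∈ oth e, (dg (G l) univ v : ℝ) ≤ 5 * k := by
      calc ∑ l ∈ oth e, (dg (G l) univ v : ℝ) ≤ ∑ _l ∈ oth e, (5 : ℝ) := by
            apply sum_le_sum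
            intro l hl
            have hl' : ∀ i, l ≠ e i := by
              unfold oth at hl
              exact (mem_filter.mp hl).2
            have h := h4 l hl'
            have h2 := (hDG2 n (G l) (fun v => hS.fac.minDeg l v)).1 v
            have h3 : dg (G l) univ v ≤ 5 := by omega
            exact_mod_cast h3
        _ = 5 * ((oth e).card : ℝ) := by
            rw [sum_const, nsmul_eq_mul]
            ring
        _ ≤ 5 * k := by
            have := MXM_oth e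
            linarith
    have hY := hS.big i
    rw [le_div_iff₀ hn]
    have h5 : ta G e θ i v * ((n : ℝ) / 5) ≤
        ta G e θ i v * ((low (G (e i)) θ).card : ℝ) := mul_le_mul_of_nonneg_left hY h0
    linarith

end Pool.Agent.Work.MP_1ce445_fx
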