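import Pool.Agent.Work.MP_1ce445_fx.InterfaceQ
import Pool.Agent.Work.MP_1ce445_fx.MXM

/-!
Block MXQ of THEOREM STAIRCASE (fifth phase): from the situation to `ExtQ`.
-/

namespace Pool.Agent.Work.MP_1ce445_fx

open Finset Pool.Agent.Work.MP_1ce445_co_56 Pool.Agent.Work.MP_1ce445_lin

/-- Block MXQ. -/
theorem stmt_MXQ (hTAU : Stmt_TAU) (hDG2 : Stmt_DG2) (hSMM : Stmt_SMM) (hTSM : Stmt_TSM) :
    Stmt_MXQ := by
  intro m n k G e θ ε hm hθm hU he0 he1 hRM htau hs1 hsl hth hsn hsg
  have hS := hU.sit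
  have hn : (0 : ℝ) < n := by exact_mod_cast hS.pos
  have hN : n ≤ NN n + 1 := by
    unfold NN
    omega
  have h4 : ∀ l, (∀ i, l ≠ e i) → n ≤ gammaT (G l) + 4 := by
    intro l hl
    have hm : l ∈ oth e := by
      unfold oth
      rw [mem_filter]
      exact ⟨mem_univ _, hl⟩
    have h : NN n - gammaT (G l) ≤ sn G e := by
      unfold sn
      exact single_le_sum (f := fun l => NN n - gammaT (G l)) (fun _ _ => Nat.zero_le _) hm
    omega
  have hR : RM m n k (sn G e) ≤ ε := (MXM_RM m n k _ _ hsn).trans hRM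
  have he2 : ε ≤ 1 / 1000 := by
    have h1 : (1 : ℝ) ≤ 100 ^ m := one_le_pow₀ (by norm_num)
    nlinarith
  have hone := MXM_one hSMM hTSM m n k G e θ ε hm hθm hU he2 hR hsg
  refine ⟨hm, hS, he0, he1, hone, hsg, ?_, ?_, htau, hs1, hsl, hU.rst, hth⟩
  · exact ((hTSM m n k G e θ hm hU).1 hone).trans hR
  · intro i v
    have h1 := ((hTAU n k G e θ hS).2 i v).2.2
    have h0 := ((hTAU n k G e θ hS).2 i v).1
    have hd : (dg (G (e i)) (low (G (e i)) θ) v : ℝ) ≤ 1 := by exact_mod_cast hone i v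
    have hs : ∑ l ∈ oth e, (dg (G l) univ v : ℝ) ≤ 5 * k := by
      calc ∑ l ∈ oth e, (dg (G l) univ v : ℝ) ≤ ∑ _l ∈ oth e, (5 : ℝ) := by
            apply sum_le_sum
            intro l hl
            have hl' : ∀ i, l ≠ e i := by
              unfold oth at hl
              exact (mem_filter.mp hl).2
            have h := h4 l hl'
            have h2 := (hDG2 n (G l) (fun v => hS.fac.minDeg l v)).1 v
            have h3 : dg (G l) univ v ≤ 5 := by omega
            exact_mod_cast h3
        _ = 5 * ((oth e).card : ℝ) := by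
            rw [sum_const, nsmul_eq_mul]
            ring
        _ ≤ 5 * k := by
            have := MXM_oth e
            linarith
    have hY := hS.big i
    rw [le_div_iff₀ hn]
    have h5 : ta G e θ i v * ((n : ℝ) / 5) ≤
        ta G e θ i v * ((low (G (e i)) θ).card : ℝ) := mul_le_mul_of_nonneg_left hY h0
    linarith

end Pool.Agent.Work.MP_1ce445_fx
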