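import Pool.Agent.Work.MP_1ce445_fx.InterfaceQ
import Pool.Agent.Work.MP_1ce445_fx.OUT

/-! Block OUQ (helper17). -/

namespace Pool.Agent.Work.MP_1ce445_fx

open Finset Pool.Agent.Work.MP_1ce445_co_56 Pool.Agent.Work.MP_1ce445_lin

/-- the number of the bad neighbours, bounded by the deficit -/
lemma OUQ_bad {m n k : ℕ} {G : Fin k → SimpleGraph (Fin n)} {e : Fin 3 → Fin k} {θ ε : ℝ}
    {t : Fin n → Fin 3} (hA : ∀ i j v, 0 ≤ A G e θ i j v ∧ A G e θ i j v ≤ 1)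
    (hYX : ∀ u i, (t u = i ↔ u ∈ low (G (e i)) θ)) (hE : ExtQ m G e θ ε)
    (hT : IsTyp G e θ ε t) (u : Fin n) (i : Fin 3) (hi : i ≠ t u) :
    ((bad G e t i u).card : ℝ) ≤
      ((1 - A G e θ (t u) (t u + 1) u) + (1 - A G e θ (t u) (t u + 2) u)) * n := by
  classical
  have hn : (0 : ℝ) < n := by exact_mod_cast hE.sit.pos
  have hY : (0 : ℝ) < ((low (G (e i)) θ).card : ℝ) :=
    lt_of_lt_of_le (by positivity) (hE.sit.big i)
  have hYn : ((low (G (e i)) θ).card : ℝ) ≤ n := by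
    have : (low (G (e i)) θ).card ≤ n := by simpa using card_le_univ (low (G (e i)) θ)
    exact_mod_cast this
  have h1 : (bad G e t i u).card ≤ dg (G (e (t u))) (low (G (e i)) θ) u := by
    unfold dg bad
    refine card_le_card ?_
    intro x hx
    rw [mem_filter] at hx ⊢
    exact ⟨(hYX x i).1 hx.2.1, hx.2.2⟩
  have h2 : (1 - A G e θ (t u) i u) * ((low (G (e i)) θ).card : ℝ) =
      (dg (G (e (t u))) (low (G (e i)) θ) u : ℝ) := by
    unfold A nf
    field_simp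
    ring
  obtain ⟨d0, -, d2⟩ := OUT_def hA hT u i hi
  calc ((bad G e t i u).card : ℝ) ≤ (dg (G (e (t u))) (low (G (e i)) θ) u : ℝ) := by
        exact_mod_cast h1
    _ = (1 - A G e θ (t u) i u) * ((low (G (e i)) θ).card : ℝ) := h2.symm
    _ ≤ _ := mul_le_mul d2 hYn hY.le (d0.trans d2)

theorem stmt_OUQ : Stmt_TAU → Stmt_YXQ → Stmt_BAQ → Stmt_OUQ := by
  classical
  intro hTAU hYXQ hBAQ m n k G e θ ε t hE hT i v w hv hvw
  by_contra hne
  obtain ⟨hA, hta⟩ := hTAU n k G e θ hE.sit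
  have hYX := hYXQ m n k G e θ ε t hE hT
  have hn : (0 : ℝ) < n := by exact_mod_cast hE.sit.pos
  obtain ⟨l, hli, hlw⟩ := OUT_idx3 i (t w)
  set κ : ℝ := (10 + 25 * (k : ℝ)) / n with hκ
  have hκ0 : 0 ≤ κ := by positivity
  set a : ℝ := 2 ^ m * κ ^ (m - 1) with ha
  have ha0 : 0 ≤ a := by positivity
  have hB1 : 1 < a * ((bad G e t l w).card : ℝ) :=
    hBAQ m n k G e θ ε t hE hT i l v w hv hne hvw hli hlw
  set df : Fin n → ℝ := fun u =>
    (1 - A G e θ (t u) (t u + 1) u) + (1 - A G e θ (t u) (t u + 2) u) with hdf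
  have hdf0 : ∀ u, 0 ≤ df u := by
    intro u
    have h2 := hA (t u) (t u + 1) u
    have h3 := hA (t u) (t u + 2) u
    simp only [hdf]; linarith
  have hdfs : ∑ u, df u ≤ 2 * ε := hT.2
  have hpt : ∀ u ∈ bad G e t l w, (1 : ℝ) ≤ a * (df u * n) := by
    intro u hu
    have hu' := (mem_filter.1 hu).2
    have h1 : t u ≠ t w := by rw [hu'.1]; exact hlw
    have h2 : i ≠ t u := by rw [hu'.1]; exact Ne.symm hli
    have h3 := hBAQ m n k G e θ ε t hE hT (t w) i w u rfl h1 hu'.2 (Ne.symm hne) h2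
    have h4 := OUQ_bad hA hYX hE hT u i h2
    have h5 : a * ((bad G e t i u).card : ℝ) ≤ a * (df u * n) :=
      mul_le_mul_of_nonneg_left h4 ha0
    exact (h3.le).trans h5
  have hsum : ((bad G e t l w).card : ℝ) ≤ a * (2 * ε * n) := by
    calc ((bad G e t l w).card : ℝ) = ∑ _u ∈ bad G e t l w, (1 : ℝ) := by simp
      _ ≤ ∑ u ∈ bad G e t l w, a * (df u * n) := sum_le_sum hpt
      _ ≤ ∑ u, a * (df u * n) := sum_le_sum_of_subset_of_nonneg (subset_univ _)
          (fun u _ _ => mul_nonneg ha0 (mul_nonneg (hdf0 u) hn.le))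
      _ = a * ((∑ u, df u) * n) := by rw [sum_mul, mul_sum]
      _ ≤ a * (2 * ε * n) := mul_le_mul_of_nonneg_left
          (mul_le_mul_of_nonneg_right hdfs hn.le) ha0
  have h1 : a * ((bad G e t l w).card : ℝ) ≤ a * (a * (2 * ε * n)) :=
    mul_le_mul_of_nonneg_left hsum ha0
  have h2 : a * (a * (2 * ε * n)) = 2 * 4 ^ m * ε * n * κ ^ (2 * m - 2) := by
    have h3 : 2 * m - 2 = (m - 1) + (m - 1) := by omega
    have h4 : (4 : ℝ) ^ m = 2 ^ m * 2 ^ m := by rw [← mul_pow]; norm_num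
    rw [h3, pow_add, h4, ha]
    ring
  have h3 := hE.sml
  rw [← hκ] at h3
  linarith

end Pool.Agent.Work.MP_1ce445_fx
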