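import Pool.Agent.Work.MP_1ce445_fx.InterfaceQ

/-! # Block PQ1: the choice of the parameters -/

namespace Pool.Agent.Work.MP_1ce445_fx

open Finset Pool.Agent.Work.MP_1ce445_co_56 Pool.Agent.Work.MP_1ce445_lin

lemma PQ1_RM (j n k : ℕ) (δ ε : ℝ) (hk : 3 ≤ k) (hn1 : (1 : ℝ) ≤ n)
    (hn : 12 * 15 ^ (j + 2) ≤ ε * (n : ℝ)) (hδ : 78 * 60 ^ (j + 2) * δ ≤ ε) (hδ0 : 0 < δ)
    (hkm : (k : ℝ) ^ (j + 2) ≤ δ * (n : ℝ) ^ (j + 1)) :
    RM (j + 2) n k 3 ≤ ε := by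
  have hN0 : (0 : ℝ) < n := by linarith
  have hk' : (3 : ℝ) ≤ k := by exact_mod_cast hk
  have hK : (0 : ℝ) ≤ k := by linarith
  have hX : (n : ℝ) ^ (j + 1) ≤ (n : ℝ) ^ (j + 2) := pow_le_pow_right₀ hn1 (by omega)
  have hX0 : (0 : ℝ) < (n : ℝ) ^ (j + 2) := by positivity
  have hX1 : (n : ℝ) ^ (j + 2) = n * (n : ℝ) ^ (j + 1) := by ring
  have hX2 : (n : ℝ) ≤ (n : ℝ) ^ (j + 1) := by
    calc (n : ℝ) = (n : ℝ) ^ 1 := by ring
      _ ≤ (n : ℝ) ^ (j + 1) := pow_le_pow_right₀ hn1 (by omega)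
  have h1530 : (15 : ℝ) ^ (j + 2) * 2 ^ (j + 2) = 30 ^ (j + 2) := by
    rw [← mul_pow]
    norm_num
  have h3060 : (30 : ℝ) ^ (j + 2) * 2 ^ (j + 2) = 60 ^ (j + 2) := by
    rw [← mul_pow]
    norm_num
  have h30' : (30 : ℝ) ^ (j + 2) ≤ 60 ^ (j + 2) :=
    pow_le_pow_left₀ (by norm_num) (by norm_num) _
  have hε0 : 0 < ε := by
    have : (0 : ℝ) < 78 * 60 ^ (j + 2) * δ := by positivity
    linarith
  have a1 : 15 ^ (j + 2) * (6 * (n : ℝ)) ≤ ε / 2 * (n : ℝ) ^ (j + 2) := by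
    have h1 : (n : ℝ) * (12 * 15 ^ (j + 2)) ≤ n * (ε * n) := mul_le_mul_of_nonneg_left hn hN0.le
    have h2 : (n : ℝ) * (ε * n) ≤ n * (ε * (n : ℝ) ^ (j + 1)) := by
      apply mul_le_mul_of_nonneg_left _ hN0.le
      exact mul_le_mul_of_nonneg_left hX2 hε0.le
    rw [hX1]
    linarith
  have a2 : 30 ^ (j + 2) * (3 * ((k : ℝ) ^ (j + 2) * n)) ≤
      3 * (60 ^ (j + 2) * δ) * (n : ℝ) ^ (j + 2) := by
    have h1 : (k : ℝ) ^ (j + 2) * n ≤ δ * (n : ℝ) ^ (j + 2) := by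
      calc (k : ℝ) ^ (j + 2) * n ≤ δ * (n : ℝ) ^ (j + 1) * n :=
            mul_le_mul_of_nonneg_right hkm hN0.le
        _ = _ := by rw [hX1]; ring
    calc 30 ^ (j + 2) * (3 * ((k : ℝ) ^ (j + 2) * n))
        ≤ 60 ^ (j + 2) * (3 * (δ * (n : ℝ) ^ (j + 2))) := by
          apply mul_le_mul h30' _ (by positivity) (by positivity)
          linarith
      _ = _ := by ring
  have a3 : 30 ^ (j + 2) * (18 * (((k : ℝ) + 3) ^ (j + 1) * (k + 9))) ≤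
      36 * (60 ^ (j + 2) * δ) * (n : ℝ) ^ (j + 2) := by
    have h1 : ((k : ℝ) + 3) ^ (j + 1) * (k + 9) ≤ (2 * k) ^ (j + 1) * (4 * k) := by
      apply mul_le_mul _ (by linarith) (by positivity) (by positivity)
      exact pow_le_pow_left₀ (by positivity) (by linarith) _
    have h2 : (2 * (k : ℝ)) ^ (j + 1) * (4 * k) = 2 * (2 ^ (j + 2) * (k : ℝ) ^ (j + 2)) := by
      rw [mul_pow]
      ring
    have h3 : (k : ℝ) ^ (j + 2) ≤ δ * (n : ℝ) ^ (j + 2) :=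
      hkm.trans (mul_le_mul_of_nonneg_left hX hδ0.le)
    calc 30 ^ (j + 2) * (18 * (((k : ℝ) + 3) ^ (j + 1) * (k + 9)))
        ≤ 30 ^ (j + 2) * (18 * (2 * (2 ^ (j + 2) * (δ * (n : ℝ) ^ (j + 2))))) := by
          apply mul_le_mul_of_nonneg_left _ (by positivity)
          apply mul_le_mul_of_nonneg_left _ (by norm_num)
          rw [h2] at h1
          refine h1.trans ?_
          apply mul_le_mul_of_nonneg_left _ (by norm_num)
          exact mul_le_mul_of_nonneg_left h3 (by positivity)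
      _ = 36 * ((30 ^ (j + 2) * 2 ^ (j + 2)) * δ) * (n : ℝ) ^ (j + 2) := by ring
      _ = _ := by rw [h3060]
  have e2 : j + 2 - 1 = j + 1 := by omega
  unfold RM
  rw [div_pow, div_mul_eq_mul_div, div_le_iff₀ hX0, e2]
  have e1 : (15 : ℝ) ^ (j + 2) * (6 * n + 3 * 2 ^ (j + 2) * ((k : ℝ) ^ (j + 2) * n + 6 *
      ((k : ℝ) + (3 : ℕ)) ^ (j + 1) * (k + ((3 : ℕ) : ℝ) ^ 2))) =
      15 ^ (j + 2) * (6 * (n : ℝ)) + (15 ^ (j + 2) * 2 ^ (j + 2)) *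
      (3 * ((k : ℝ) ^ (j + 2) * n)) + (15 ^ (j + 2) * 2 ^ (j + 2)) *
      (18 * (((k : ℝ) + 3) ^ (j + 1) * (k + 9))) := by
    push_cast
    ring
  rw [e1, h1530]
  have a4 : 39 * (60 ^ (j + 2) * δ) * (n : ℝ) ^ (j + 2) ≤ ε / 2 * (n : ℝ) ^ (j + 2) := by
    apply mul_le_mul_of_nonneg_right _ hX0.le
    linarith
  linarith

theorem stmt_PQ1 : Stmt_PQ1 := by
  intro m θ hm hθ
  obtain ⟨j, rfl⟩ : ∃ j, m = j + 2 := ⟨m - 2, by omega⟩
  obtain ⟨ε, hε⟩ : ∃ ε : ℝ, ε = min (1 / (1000 * 100 ^ (j + 2))) (θ / 40) := ⟨_, rfl⟩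
  have hc : (1 : ℝ) ≤ 100 ^ (j + 2) := one_le_pow₀ (by norm_num)
  have hε0 : 0 < ε := by
    rw [hε]
    exact lt_min (by positivity) (by positivity)
  have hε1 : ε ≤ 1 / (1000 * 100 ^ (j + 2)) := by rw [hε]; exact min_le_left _ _
  have hε2 : ε ≤ θ / 40 := by rw [hε]; exact min_le_right _ _
  have hε3 : 1000 * 100 ^ (j + 2) * ε ≤ 1 := by
    rw [le_div_iff₀ (by positivity)] at hε1
    linarith
  have hε4 : ε ≤ 1 := by nlinarith
  obtain ⟨δ, hδ⟩ : ∃ δ : ℝ, δ = min ((ε / 29) ^ (j + 2)) (min (ε / (78 * 60 ^ (j + 2)))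
    (1 / (16 * 116 ^ (j + 2)))) := ⟨_, rfl⟩
  have hδ0 : 0 < δ := by
    rw [hδ]
    exact lt_min (by positivity) (lt_min (by positivity) (by positivity))
  have hδ1 : δ ≤ (ε / 29) ^ (j + 2) := by rw [hδ]; exact min_le_left _ _
  have hδ2 : δ ≤ ε / (78 * 60 ^ (j + 2)) := by
    rw [hδ]; exact (min_le_right _ _).trans (min_le_left _ _)
  have hδ3 : δ ≤ 1 / (16 * 116 ^ (j + 2)) := by
    rw [hδ]; exact (min_le_right _ _).trans (min_le_right _ _)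
  have hδ2' : 78 * 60 ^ (j + 2) * δ ≤ ε := by
    rw [le_div_iff₀ (by positivity)] at hδ2
    linarith
  have hδ3' : 16 * 116 ^ (j + 2) * δ ≤ 1 := by
    rw [le_div_iff₀ (by positivity)] at hδ3
    linarith
  obtain ⟨n0, hn0⟩ := exists_nat_ge (12 * 15 ^ (j + 2) / ε)
  refine ⟨δ, max n0 1, hδ0, ?_⟩
  intro n k hn hk hkn
  have e2 : j + 2 - 1 = j + 1 := by omega
  rw [e2] at hkn
  have hna : n0 ≤ n := (le_max_left _ _).trans hn
  have hnb : 1 ≤ n := (le_max_right _ _).trans hn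
  have hn1 : (1 : ℝ) ≤ n := by exact_mod_cast hnb
  have hN0 : (0 : ℝ) < n := by linarith
  have hk' : (3 : ℝ) ≤ k := by exact_mod_cast hk
  have hK : (0 : ℝ) ≤ k := by linarith
  have hn2 : 12 * 15 ^ (j + 2) ≤ ε * (n : ℝ) := by
    have h1 : (n0 : ℝ) ≤ n := by exact_mod_cast hna
    have h2 := hn0.trans h1
    rw [div_le_iff₀ hε0] at h2
    linarith
  have hX : (n : ℝ) ^ (j + 1) ≤ (n : ℝ) ^ (j + 2) := pow_le_pow_right₀ hn1 (by omega)
  have hkε : (k : ℝ) ≤ ε / 29 * n := by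
    have h1 : (k : ℝ) ^ (j + 2) ≤ (ε / 29 * n) ^ (j + 2) := by
      calc (k : ℝ) ^ (j + 2) ≤ δ * (n : ℝ) ^ (j + 1) := hkn
        _ ≤ (ε / 29) ^ (j + 2) * (n : ℝ) ^ (j + 2) :=
            mul_le_mul hδ1 hX (by positivity) (by positivity)
        _ = _ := by rw [mul_pow]
    exact le_of_pow_le_pow_left₀ (by omega) (by positivity) h1
  obtain ⟨κ, hκ⟩ : ∃ κ : ℝ, κ = (10 + 25 * (k : ℝ)) / n := ⟨_, rfl⟩
  have hκ0 : 0 ≤ κ := by rw [hκ]; positivity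
  have hκ1 : κ ≤ 29 * k / n := by
    rw [hκ]
    apply div_le_div_of_nonneg_right _ hN0.le
    linarith
  have hκ2 : κ ≤ ε := by
    refine hκ1.trans ?_
    rw [div_le_iff₀ hN0]
    linarith
  have hκm : (n : ℝ) * κ ^ (j + 2) ≤ 29 ^ (j + 2) * δ := by
    calc (n : ℝ) * κ ^ (j + 2) ≤ n * (29 * k / n) ^ (j + 2) := by
          apply mul_le_mul_of_nonneg_left _ hN0.le
          exact pow_le_pow_left₀ hκ0 hκ1 _
      _ = 29 ^ (j + 2) * ((k : ℝ) ^ (j + 2) / (n : ℝ) ^ (j + 1)) := by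
          rw [div_pow, mul_pow]
          have h1 : (n : ℝ) ^ (j + 2) = n * (n : ℝ) ^ (j + 1) := by ring
          rw [h1]
          field_simp
      _ ≤ 29 ^ (j + 2) * δ := by
          apply mul_le_mul_of_nonneg_left _ (by positivity)
          rw [div_le_iff₀ (by positivity)]
          exact hkn
  refine ⟨?_, ε, hε0, hε3, PQ1_RM j n k δ ε hk hn1 hn2 hδ2' hδ0 hkn, ?_, ?_, ?_, ?_⟩
  · have h1 : ε / 29 * n ≤ θ * n := mul_le_mul_of_nonneg_right (by linarith) hN0.le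
    linarith
  · rw [← hκ]
    exact hκ2
  · rw [← hκ]
    have h1 : (2 : ℝ) ^ (j + 2) * 29 ^ (j + 2) = 58 ^ (j + 2) := by
      rw [← mul_pow]
      norm_num
    have h2 : (58 : ℝ) ^ (j + 2) ≤ 116 ^ (j + 2) := pow_le_pow_left₀ (by norm_num) (by norm_num) _
    calc 2 ^ (j + 2) * 16 * (n : ℝ) * κ ^ (j + 2) = 2 ^ (j + 2) * 16 * ((n : ℝ) * κ ^ (j + 2)) := by
          ring
      _ ≤ 2 ^ (j + 2) * 16 * (29 ^ (j + 2) * δ) :=
          mul_le_mul_of_nonneg_left hκm (by positivity)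
      _ = 16 * (2 ^ (j + 2) * 29 ^ (j + 2)) * δ := by ring
      _ = 16 * 58 ^ (j + 2) * δ := by rw [h1]
      _ ≤ 16 * 116 ^ (j + 2) * δ := by
          apply mul_le_mul_of_nonneg_right _ hδ0.le
          linarith
      _ ≤ 1 := hδ3'
  · rw [← hκ]
    have e3 : 2 * (j + 2) - 2 = (j + 2) + j := by omega
    rw [e3, pow_add κ]
    have h1 : (4 : ℝ) ^ (j + 2) * 29 ^ (j + 2) = 116 ^ (j + 2) := by
      rw [← mul_pow]
      norm_num
    have h2 : κ ^ j ≤ 1 := pow_le_one₀ hκ0 (hκ2.trans hε4)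
    have h3 : 0 ≤ κ ^ j := by positivity
    calc 2 * 4 ^ (j + 2) * ε * (n : ℝ) * (κ ^ (j + 2) * κ ^ j)
        = 2 * 4 ^ (j + 2) * ((n : ℝ) * κ ^ (j + 2)) * (ε * κ ^ j) := by ring
      _ ≤ 2 * 4 ^ (j + 2) * (29 ^ (j + 2) * δ) * 1 := by
          apply mul_le_mul _ _ (by positivity) (by positivity)
          · exact mul_le_mul_of_nonneg_left hκm (by positivity)
          · calc ε * κ ^ j ≤ 1 * 1 := mul_le_mul hε4 h2 h3 (by norm_num)
              _ = 1 := by norm_num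
      _ = 2 * (4 ^ (j + 2) * 29 ^ (j + 2)) * δ := by ring
      _ = 2 * 116 ^ (j + 2) * δ := by rw [h1]
      _ ≤ 16 * 116 ^ (j + 2) * δ := by
          apply mul_le_mul_of_nonneg_right _ hδ0.le
          have : (0 : ℝ) < 116 ^ (j + 2) := by positivity
          linarith
      _ ≤ 1 := hδ3'
  · linarith

end Pool.Agent.Work.MP_1ce445_fx
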