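import Pool.Agent.Work.MP_1ce445_fx.InterfaceM
import Pool.Agent.Work.MP_1ce445_fx.PRD

set_option autoImplicit false

namespace Pool.Agent.Work.MP_1ce445_fx

open Finset Pool.Agent.Work.MP_1ce445_co_56 Pool.Agent.Work.MP_1ce445_lin

/-- PRM. -/
theorem stmt_PRM : Stmt_PRM := by
  intro k n N c γ e r hN hNn he hr hγ hsum
  have hNr : (0 : ℝ) < N := by exact_mod_cast hN
  have hnr : (0 : ℝ) < n := lt_of_lt_of_le hNr (by exact_mod_cast hNn)
  have hc0 : (0 : ℝ) ≤ c := Nat.cast_nonneg c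
  rw [PRD_split e he]
  have hA : ∏ i, (γ (e i) : ℝ) ≤ (((n : ℝ) + c) / 3) ^ 3 * Real.exp (3 * r / n) := by
    rw [Fin.prod_univ_three]
    rw [Fin.sum_univ_three] at hsum
    have h0 : (0 : ℝ) ≤ γ (e 0) := Nat.cast_nonneg _
    have h1 : (0 : ℝ) ≤ γ (e 1) := Nat.cast_nonneg _
    have h2 : (0 : ℝ) ≤ γ (e 2) := Nat.cast_nonneg _
    refine (PRD_amgm h0 h1 h2).trans ?_
    have h3 : ((γ (e 0) : ℝ) + γ (e 1) + γ (e 2)) / 3 ≤ (((n : ℝ) + c) / 3) * Real.exp (r / n) := by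
      have h4 : r / n + 1 ≤ Real.exp (r / n) := Real.add_one_le_exp _
      have h5 : ((n : ℝ) + c) / 3 * (r / n + 1) ≤ (((n : ℝ) + c) / 3) * Real.exp (r / n) :=
        mul_le_mul_of_nonneg_left h4 (by positivity)
      refine le_trans ?_ h5
      have h6 : ((n : ℝ) + c) / 3 * (r / n + 1) = ((n : ℝ) + c) / 3 + r / 3 + c / 3 * (r / n) := by
        field_simp
        ring
      rw [h6]
      have h7 : 0 ≤ (c : ℝ) / 3 * (r / n) := by positivity
      linarith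
    calc (((γ (e 0) : ℝ) + γ (e 1) + γ (e 2)) / 3) ^ 3
        ≤ ((((n : ℝ) + c) / 3) * Real.exp (r / n)) ^ 3 :=
          pow_le_pow_left₀ (by positivity) h3 3
      _ = (((n : ℝ) + c) / 3) ^ 3 * Real.exp (3 * r / n) := by
          rw [mul_pow, ← Real.exp_nat_mul]
          congr 2
          push_cast
          ring
  have hB : ∏ l ∈ oth e, (γ l : ℝ) ≤ (N : ℝ) ^ (k - 3) *
      Real.exp (-((∑ l ∈ oth e, ((N : ℝ) - γ l)) / N)) := by
    have h1 : ∏ l ∈ oth e, (γ l : ℝ) ≤ ∏ l ∈ oth e, ((N : ℝ) * Real.exp (-(((N : ℝ) - γ l) / N))) := by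
      refine prod_le_prod (fun l _ => Nat.cast_nonneg _) fun l _ => ?_
      have h2 : -(((N : ℝ) - γ l) / N) + 1 ≤ Real.exp (-(((N : ℝ) - γ l) / N)) :=
        Real.add_one_le_exp _
      have h3 : (γ l : ℝ) = N * (-(((N : ℝ) - γ l) / N) + 1) := by
        field_simp
        ring
      calc (γ l : ℝ) = N * (-(((N : ℝ) - γ l) / N) + 1) := h3
        _ ≤ _ := mul_le_mul_of_nonneg_left h2 hNr.le
    refine h1.trans (le_of_eq ?_)
    rw [prod_mul_distrib, prod_const, PRD_card e he, ← Real.exp_sum, sum_neg_distrib, ← sum_div]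
  calc (∏ i, (γ (e i) : ℝ)) * ∏ l ∈ oth e, (γ l : ℝ)
      ≤ ((((n : ℝ) + c) / 3) ^ 3 * Real.exp (3 * r / n)) * ((N : ℝ) ^ (k - 3) *
        Real.exp (-((∑ l ∈ oth e, ((N : ℝ) - γ l)) / N))) :=
        mul_le_mul hA hB (prod_nonneg fun l _ => Nat.cast_nonneg _) (by positivity)
    _ = _ := by
        rw [sub_eq_add_neg, Real.exp_add]
        ring

end Pool.Agent.Work.MP_1ce445_fx
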