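import Pool.Agent.Work.MP_1ce445_fx.InterfaceU
import Pool.Agent.Work.MP_1ce445_sm.STB
import Pool.Agent.Work.MP_1ce445_sm.STR
import Pool.Agent.Work.MP_1ce445_sm.FEW
import Pool.Agent.Work.MP_1ce445_sm.HEA
import Pool.Agent.Work.MP_1ce445_sm.CI
import Pool.Agent.Work.MP_1ce445_sm.CII
import Pool.Agent.Work.MP_1ce445_sm.SMA
import Pool.Agent.Work.MP_1ce445_sm.SMS
import Pool.Agent.Work.MP_1ce445_lin.TAN

/-! # Block S3S: set systems, `c ≤ 1/100`, with a margin -/

namespace Pool.Agent.Work.MP_1ce445_fx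

open Finset Pool.Agent.Work.MP_1ce445_co_56 Pool.Agent.Work.MP_1ce445_lin Pool.Agent.Work.MP_1ce445_sm

theorem S3S_exp1 : (33 / 10 : ℝ) ≤ Real.exp (12 / 10) := by
  have h1 := Real.exp_one_gt_d9
  have h2 := Real.quadratic_le_exp_of_nonneg (x := (2 / 10 : ℝ)) (by norm_num)
  have h3 : Real.exp (12 / 10 : ℝ) = Real.exp 1 * Real.exp (2 / 10) := by
    rw [← Real.exp_add]; norm_num
  rw [h3]
  norm_num at h2
  nlinarith [Real.exp_pos (1 : ℝ)]

theorem S3S_exp2 : (17 / 10 : ℝ) ≤ Real.exp (555 / 1000) := by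
  have h2 := Real.quadratic_le_exp_of_nonneg (x := (2775 / 10000 : ℝ)) (by norm_num)
  have h3 : Real.exp (555 / 1000 : ℝ) = Real.exp (2775 / 10000) * Real.exp (2775 / 10000) := by
    rw [← Real.exp_add]; norm_num
  rw [h3]
  norm_num at h2 ⊢
  nlinarith

theorem S3S_exp3 : Real.exp (60 / 1000) ≤ 107 / 100 := by
  have h := Real.exp_bound' (x := (60 / 1000 : ℝ)) (by norm_num) (by norm_num) (n := 3)
    (by norm_num)
  simp only [Finset.sum_range_succ, Finset.sum_range_zero, Nat.factorial] at h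
  norm_num at h
  linarith

theorem S3S_STB {ι : Type} (J : Finset ι) (e : ι → ℝ) (b c : ℝ) (hJ : 3 ≤ J.card) (hc0 : 0 ≤ c)
    (hc : c ≤ 1 / 100) (hb0 : 0 ≤ b) (hb1 : b ≤ 1) (he : ∀ j ∈ J, 0 ≤ e j)
    (hE : ∑ j ∈ J, e j ≤ 1 - b) (hx : ∀ j ∈ J, 0 ≤ 1 - max 0 (b - c) - e j) :
    b * Real.exp (-(2 * (1 - b - ∑ j ∈ J, e j))) * ∏ j ∈ J, (1 - max 0 (b - c) - e j) ≤
      1 / 27 - 1 / 2000 := by
  have hb'0 : 0 ≤ max 0 (b - c) := le_max_left _ _
  have hb'1 : b - c ≤ max 0 (b - c) := le_max_right _ _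
  set b' := max 0 (b - c) with hb'
  rcases le_total b (23 / 200) with h1 | h1
  · -- `B = 1`
    have hA : 0 ≤ Real.log 1 + 1 - 1 * (1 - b') := by
      rw [Real.log_one]; linarith
    refine (STB_key J e b b' 1 one_pos one_le_two hJ hb0 hE hx hA).trans ?_
    have h2 : b * Real.exp (-(1 * (1 - b)) - 3 * (Real.log 1 + 1 - 1 * (1 - b'))) ≤
        b * Real.exp (-(2 * b)) * Real.exp (-(97 / 100)) := by
      rw [mul_assoc, ← Real.exp_add]
      apply mul_le_mul_of_nonneg_left _ hb0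
      apply Real.exp_le_exp.2
      rw [Real.log_one]
      linarith
    have h3 := STB_mono b (23 / 200) 2 (by norm_num) h1 (by norm_num)
    have h4 : b * Real.exp (-(2 * b)) * Real.exp (-(97 / 100)) ≤
        23 / 200 * Real.exp (-(2 * (23 / 200))) * Real.exp (-(97 / 100)) :=
      mul_le_mul_of_nonneg_right h3 (Real.exp_pos _).le
    have h5 : (23 / 200 : ℝ) * Real.exp (-(2 * (23 / 200))) * Real.exp (-(97 / 100)) =
        23 / 200 * (Real.exp (12 / 10))⁻¹ := by
      rw [mul_assoc, ← Real.exp_add, ← Real.exp_neg]; norm_num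
    have h6 : (Real.exp (12 / 10))⁻¹ ≤ (33 / 10 : ℝ)⁻¹ :=
      inv_anti₀ (by norm_num) S3S_exp1
    have h7 : (23 / 200 : ℝ) * (Real.exp (12 / 10))⁻¹ ≤ 1 / 27 - 1 / 2000 := by
      calc (23 / 200 : ℝ) * (Real.exp (12 / 10))⁻¹ ≤ 23 / 200 * (33 / 10 : ℝ)⁻¹ :=
            mul_le_mul_of_nonneg_left h6 (by norm_num)
        _ ≤ 1 / 27 - 1 / 2000 := by norm_num
    linarith
  rcases le_total b (1 / 5) with h2 | h2
  · -- `B = 3 / 2`
    have hlog : Real.log (3 / 2) = -Real.log (2 / 3) := by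
      rw [← Real.log_inv]; norm_num
    have hl : (1 / 3 + 5 / 81 : ℝ) ≤ Real.log (3 / 2) := by
      have h3 : Real.exp (32 / 81) ≤ 3 / 2 := by
        have h := Real.exp_bound' (x := (32 / 81 : ℝ)) (by norm_num) (by norm_num) (n := 3)
          (by norm_num)
        simp only [Finset.sum_range_succ, Finset.sum_range_zero, Nat.factorial] at h
        norm_num at h
        linarith
      rw [Real.le_log_iff_exp_le (by norm_num)]
      convert h3 using 2
      norm_num
    have hA : 0 ≤ Real.log (3 / 2) + 1 - 3 / 2 * (1 - b') := by linarith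
    refine (STB_key J e b b' (3 / 2) (by norm_num) (by norm_num) hJ hb0 hE hx hA).trans ?_
    have h3 : b * Real.exp (-(3 / 2 * (1 - b)) - 3 * (Real.log (3 / 2) + 1 - 3 / 2 * (1 - b'))) ≤
        b * Real.exp (-(3 * b)) * (Real.exp (45 / 1000) * (8 / 27)) := by
      have h4 : (8 / 27 : ℝ) = Real.exp (-(3 * Real.log (3 / 2))) := by
        have : -(3 * Real.log (3 / 2)) = ((3 : ℕ) : ℝ) * Real.log (2 / 3) := by
          rw [hlog]; push_cast; ring
        rw [this, Real.exp_nat_mul, Real.exp_log (by norm_num)]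
        norm_num
      rw [h4, mul_assoc, ← Real.exp_add, ← Real.exp_add]
      apply mul_le_mul_of_nonneg_left _ hb0
      apply Real.exp_le_exp.2
      linarith
    have h5 := STB_mono b (1 / 5) 3 (by norm_num) h2 (by norm_num)
    have h6 : b * Real.exp (-(3 * b)) * (Real.exp (45 / 1000) * (8 / 27)) ≤
        1 / 5 * Real.exp (-(3 * (1 / 5))) * (Real.exp (45 / 1000) * (8 / 27)) :=
      mul_le_mul_of_nonneg_right h5 (by positivity)
    have h7 : 1 / 5 * Real.exp (-(3 * (1 / 5))) * (Real.exp (45 / 1000) * (8 / 27)) =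
        8 / 135 * (Real.exp (555 / 1000))⁻¹ := by
      have : Real.exp (-(3 * (1 / 5))) * Real.exp (45 / 1000) =
          (Real.exp (555 / 1000))⁻¹ := by
        rw [← Real.exp_add, ← Real.exp_neg]; norm_num
      rw [← this]; ring
    have h8 : (Real.exp (555 / 1000))⁻¹ ≤ (17 / 10 : ℝ)⁻¹ := inv_anti₀ (by norm_num) S3S_exp2
    have h9 : (8 / 135 : ℝ) * (Real.exp (555 / 1000))⁻¹ ≤ 1 / 27 - 1 / 2000 := by
      calc (8 / 135 : ℝ) * (Real.exp (555 / 1000))⁻¹ ≤ 8 / 135 * (17 / 10 : ℝ)⁻¹ :=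
            mul_le_mul_of_nonneg_left h8 (by norm_num)
        _ ≤ 1 / 27 - 1 / 2000 := by norm_num
    linarith
  · -- `B = 2`
    have hl := Real.log_two_gt_d9
    have hA : 0 ≤ Real.log 2 + 1 - 2 * (1 - b') := by linarith
    refine (STB_key J e b b' 2 two_pos le_rfl hJ hb0 hE hx hA).trans ?_
    have h3 : b * Real.exp (-(2 * (1 - b)) - 3 * (Real.log 2 + 1 - 2 * (1 - b'))) ≤
        b * (Real.exp (-(4 * b - 1)) * (Real.exp (60 / 1000) * (1 / 8))) := by
      have h4 : (1 / 8 : ℝ) = Real.exp (-(3 * Real.log 2)) := by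
        have : -(3 * Real.log 2) = -(((3 : ℕ) : ℝ) * Real.log 2) := by push_cast; ring
        rw [this, Real.exp_neg, Real.exp_nat_mul, Real.exp_log (by norm_num)]
        norm_num
      rw [h4, ← Real.exp_add, ← Real.exp_add]
      apply mul_le_mul_of_nonneg_left _ hb0
      apply Real.exp_le_exp.2
      linarith
    have h5 : b * Real.exp (-(4 * b - 1)) ≤ 1 / 4 := by
      have h6 := Real.add_one_le_exp (4 * b - 1)
      have h7 : 4 * b ≤ Real.exp (4 * b - 1) := by linarith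
      rw [Real.exp_neg]
      have h8 := Real.exp_pos (4 * b - 1)
      rw [← div_eq_mul_inv, div_le_iff₀ h8]
      linarith
    have h9 : b * (Real.exp (-(4 * b - 1)) * (Real.exp (60 / 1000) * (1 / 8))) ≤
        1 / 4 * (107 / 100 * (1 / 8)) := by
      rw [← mul_assoc]
      apply mul_le_mul h5 _ (by positivity) (by norm_num)
      exact mul_le_mul_of_nonneg_right S3S_exp3 (by norm_num)
    have h10 : (1 / 4 : ℝ) * (107 / 100 * (1 / 8)) ≤ 1 / 27 - 1 / 2000 := by norm_num
    linarith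

theorem S3S_STR {V : Type} [Fintype V] {k : ℕ} (M : Finset (Fin k)) (T : V → Finset (Fin k)) (c : ℝ)
    (hS : Sm M T c) (hcu : c ≤ 1 / 100) (a : Fin k) (hJ : 3 ≤ (Ja T a).card) :
    ∏ x ∈ M, (1 - pr T x) ≤ 1 / 27 - 1 / 2000 := by
  classical
  have hN : (0 : ℝ) < Fintype.card V := by exact_mod_cast hS.pos
  set N : ℝ := (Fintype.card V : ℝ) with hNdef
  have hpr : ∀ j, pr T j * N = ((univ.filter (fun v => j ∈ T v)).card : ℝ) := by
    intro j
    unfold pr
    rw [div_mul_cancel₀ _ hN.ne']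
  have hp0 : ∀ j, 0 ≤ pr T j := by
    intro j
    unfold pr
    positivity
  have hp1 : ∀ j, pr T j ≤ 1 := by
    intro j
    have h2 : ((univ.filter (fun v => j ∈ T v)).card : ℝ) ≤ N := by
      rw [hNdef]
      exact_mod_cast Finset.card_le_univ _
    rw [← hpr j] at h2
    exact le_of_mul_le_mul_right (by linarith) hN
  -- the notation
  obtain ⟨e, he⟩ : ∃ e : Fin k → ℝ, ∀ j, e j * N = (nex T a j : ℝ) :=
    ⟨fun j => (nex T a j : ℝ) / N, fun j => div_mul_cancel₀ _ hN.ne'⟩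
  obtain ⟨g, hg⟩ : ∃ g : Fin k → ℝ, ∀ x, g x * N =
      ((univ.filter (fun v => a ∈ T v ∧ x ∈ T v ∧ 3 ≤ (T v).card)).card : ℝ) :=
    ⟨fun x => ((univ.filter (fun v => a ∈ T v ∧ x ∈ T v ∧ 3 ≤ (T v).card)).card : ℝ) / N,
      fun x => div_mul_cancel₀ _ hN.ne'⟩
  have he0 : ∀ j, 0 ≤ e j := by
    intro j
    have h2 : (0 : ℝ) ≤ e j * N := by rw [he]; positivity
    by_contra h3
    push Not at h3
    nlinarith
  have hg0 : ∀ j, 0 ≤ g j := by
    intro j
    have h2 : (0 : ℝ) ≤ g j * N := by rw [hg]; positivity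
    by_contra h3
    push Not at h3
    nlinarith
  obtain ⟨b, hb⟩ : ∃ b : ℝ, b = 1 - pr T a := ⟨_, rfl⟩
  have hb0 : 0 ≤ b := by rw [hb]; linarith [hp1 a]
  have hb1 : b ≤ 1 := by rw [hb]; linarith [hp0 a]
  have hbN : b * N = ((univ.filter (fun v => a ∉ T v)).card : ℝ) := by
    have h2 := Finset.card_filter_add_card_filter_not (s := (univ : Finset V)) (fun v => a ∈ T v)
    rw [Finset.card_univ] at h2
    have h3 : ((univ.filter (fun v => a ∈ T v)).card : ℝ) +
        ((univ.filter (fun v => a ∉ T v)).card : ℝ) = N := by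
      rw [hNdef]
      exact_mod_cast h2
    rw [← hpr a] at h3
    rw [hb]
    linarith
  have hJm : ∀ j ∈ Ja T a, j ≠ a ∧ ∃ v0, T v0 = {a, j} := by
    intro j hj
    unfold Ja nex at hj
    rw [Finset.mem_filter] at hj
    refine ⟨hj.2.1, ?_⟩
    obtain ⟨v, hv⟩ := Finset.card_pos.1 hj.2.2
    exact ⟨v, (Finset.mem_filter.1 hv).2⟩
  -- the lower bound for the elements of J
  have hlow : ∀ j ∈ Ja T a, max 0 (b - c) + e j + g j ≤ pr T j := by
    intro j hj
    obtain ⟨hja, v0, hv0⟩ := hJm j hj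
    have h2 := STR_three T a j hja
    have h3 := STR_avoid T a j v0 hv0
    have h4 := hS.few v0
    have h2' : ((univ.filter (fun v => a ∉ T v ∧ j ∈ T v)).card : ℝ) + (nex T a j : ℝ) +
      ((univ.filter (fun v => a ∈ T v ∧ j ∈ T v ∧ 3 ≤ (T v).card)).card : ℝ) ≤
      ((univ.filter (fun v => j ∈ T v)).card : ℝ) := by exact_mod_cast h2
    have h3' : ((univ.filter (fun v => a ∉ T v)).card : ℝ) ≤
      ((univ.filter (fun v => a ∉ T v ∧ j ∈ T v)).card : ℝ) +
      ((univ.filter (fun w => T v0 ∩ T w = ∅)).card : ℝ) := by exact_mod_cast h3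
    rw [← hpr j, ← he j, ← hg j] at h2'
    rw [← hbN] at h3'
    rw [← hNdef] at h4
    have h5 : (0 : ℝ) ≤ ((univ.filter (fun v => a ∉ T v ∧ j ∈ T v)).card : ℝ) := by positivity
    have h6 : max 0 (b - c) * N ≤ ((univ.filter (fun v => a ∉ T v ∧ j ∈ T v)).card : ℝ) := by
      rcases le_total 0 (b - c) with h7 | h7
      · rw [max_eq_right h7]
        linarith
      · rw [max_eq_left h7]
        linarith
    have h8 : (max 0 (b - c) + e j + g j) * N ≤ pr T j * N := by linarith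
    exact le_of_mul_le_mul_right h8 hN
  -- the lower bound for the other elements
  have hlow2 : ∀ x, g x ≤ pr T x := by
    intro x
    have h2 : (univ.filter (fun v => a ∈ T v ∧ x ∈ T v ∧ 3 ≤ (T v).card)).card ≤
        (univ.filter (fun v => x ∈ T v)).card := by
      apply Finset.card_le_card
      intro v hv
      simp only [Finset.mem_filter, Finset.mem_univ, true_and] at hv ⊢
      exact hv.2.1
    have h3 : ((univ.filter (fun v => a ∈ T v ∧ x ∈ T v ∧ 3 ≤ (T v).card)).card : ℝ) ≤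
        ((univ.filter (fun v => x ∈ T v)).card : ℝ) := by exact_mod_cast h2
    rw [← hg x, ← hpr x] at h3
    exact le_of_mul_le_mul_right h3 hN
  -- the sums
  have hsplit : pr T a * N = (∑ j ∈ Ja T a, e j) * N +
      ((univ.filter (fun v => a ∈ T v ∧ 3 ≤ (T v).card)).card : ℝ) := by
    have h2 := STR_split T hS.two a
    rw [STR_pairs] at h2
    have h3 : ((univ.filter (fun v => a ∈ T v)).card : ℝ) = ∑ j ∈ Ja T a, (nex T a j : ℝ) +
      ((univ.filter (fun v => a ∈ T v ∧ 3 ≤ (T v).card)).card : ℝ) := by exact_mod_cast h2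
    rw [hpr a, h3, Finset.sum_mul]
    congr 1
    exact Finset.sum_congr rfl fun j _ => (he j).symm
  have hE : ∑ j ∈ Ja T a, e j ≤ 1 - b := by
    have h2 : (0 : ℝ) ≤ ((univ.filter (fun v => a ∈ T v ∧ 3 ≤ (T v).card)).card : ℝ) := by
      positivity
    have h3 : (∑ j ∈ Ja T a, e j) * N ≤ (1 - b) * N := by
      rw [hb]
      linarith
    exact le_of_mul_le_mul_right h3 hN
  have hG : 2 * (1 - b - ∑ j ∈ Ja T a, e j) ≤ ∑ x ∈ M.erase a, g x := by
    have h2 := STR_sum M T hS.sub a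
    have h3 : 2 * ((univ.filter (fun v => a ∈ T v ∧ 3 ≤ (T v).card)).card : ℝ) ≤
        ∑ x ∈ M.erase a,
          ((univ.filter (fun v => a ∈ T v ∧ x ∈ T v ∧ 3 ≤ (T v).card)).card : ℝ) := by
      exact_mod_cast h2
    have h4 : ∑ x ∈ M.erase a,
        ((univ.filter (fun v => a ∈ T v ∧ x ∈ T v ∧ 3 ≤ (T v).card)).card : ℝ) =
        (∑ x ∈ M.erase a, g x) * N := by
      rw [Finset.sum_mul]
      exact Finset.sum_congr rfl fun x _ => (hg x).symm
    rw [h4] at h3
    have h5 : (2 * (1 - b - ∑ j ∈ Ja T a, e j)) * N ≤ (∑ x ∈ M.erase a, g x) * N := by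
      have h6 : 1 - b = pr T a := by rw [hb]; ring
      rw [h6]
      nlinarith
    exact le_of_mul_le_mul_right h5 hN
  -- the inequality
  have hfac : ∀ j ∈ Ja T a, 0 ≤ 1 - max 0 (b - c) - e j := by
    intro j hj
    linarith [hlow j hj, hp1 j, hg0 j]
  have hmain := S3S_STB (Ja T a) e b c hJ hS.cl hcu hb0 hb1 (fun j _ => he0 j) hE hfac
  refine le_trans ?_ hmain
  have haJ : (Ja T a).Nonempty := Finset.card_pos.1 (by omega)
  have hJM : Ja T a ⊆ M.erase a := by
    intro j hj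
    obtain ⟨hja, v0, hv0⟩ := hJm j hj
    rw [Finset.mem_erase]
    refine ⟨hja, hS.sub v0 ?_⟩
    rw [hv0]
    simp
  have haM : a ∈ M := by
    obtain ⟨j, hj⟩ := haJ
    obtain ⟨-, v0, hv0⟩ := hJm j hj
    apply hS.sub v0
    rw [hv0]
    simp
  rw [← Finset.mul_prod_erase M _ haM, ← hb, mul_assoc]
  apply mul_le_mul_of_nonneg_left _ hb0
  have hmax : 0 ≤ max 0 (b - c) := le_max_left _ _
  have hstep : ∏ x ∈ M.erase a, (1 - pr T x) ≤
      ∏ x ∈ M.erase a, ((if x ∈ Ja T a then 1 - max 0 (b - c) - e x else 1) *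
        Real.exp (-(g x))) := by
    apply Finset.prod_le_prod
    · intro x _
      linarith [hp1 x]
    · intro x _
      by_cases hx : x ∈ Ja T a
      · rw [if_pos hx]
        refine le_trans ?_ (STR_exp _ (g x) (hfac x hx) ?_ (hg0 x))
        · linarith [hlow x hx]
        · linarith [he0 x]
      · rw [if_neg hx]
        refine le_trans ?_ (STR_exp 1 (g x) zero_le_one le_rfl (hg0 x))
        linarith [hlow2 x]
  refine hstep.trans ?_
  rw [Finset.prod_mul_distrib, ← Real.exp_sum, Finset.sum_neg_distrib, mul_comm]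
  have hY : ∏ x ∈ M.erase a, (if x ∈ Ja T a then 1 - max 0 (b - c) - e x else 1) =
      ∏ x ∈ Ja T a, (1 - max 0 (b - c) - e x) := by
    rw [← Finset.prod_filter]
    congr 1
    ext x
    rw [Finset.mem_filter]
    exact ⟨fun h => h.2, fun h => ⟨hJM h, h⟩⟩
  rw [hY]
  apply mul_le_mul_of_nonneg_right
  · apply Real.exp_le_exp.2
    linarith
  · exact Finset.prod_nonneg fun x hx => hfac x hx

theorem S3S_expF : Real.exp (-(26 / 27 * (27 / 10) + 13 / 18 * (99 / 100))) ≤ 1 / 27 - 1 / 2000 := by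
  have e : -(26 / 27 * (27 / 10) + 13 / 18 * (99 / 100) : ℝ) = -(3315 / 1000) := by norm_num
  have e' : (1 / 27 - 1 / 2000 : ℝ) = (54000 / 1973 : ℝ)⁻¹ := by norm_num
  rw [e, Real.exp_neg, e']
  apply inv_anti₀ (by norm_num)
  have h1 : Real.exp (3315 / 1000) =
      Real.exp 1 * Real.exp 1 * Real.exp 1 * Real.exp (315 / 1000) := by
    rw [← Real.exp_add, ← Real.exp_add, ← Real.exp_add]
    congr 1
    norm_num
  have h2 := Real.exp_one_gt_d9
  have h3 : 1 + 315 / 1000 + (315 / 1000) ^ 2 / 2 ≤ Real.exp (315 / 1000) :=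
    Real.quadratic_le_exp_of_nonneg (by norm_num)
  have h4 : (27182818283 / 10000000000 : ℝ) < Real.exp 1 := by
    norm_num at h2 ⊢
    exact h2
  have h5 : (738 / 100 : ℝ) ≤ Real.exp 1 * Real.exp 1 := by nlinarith
  have h6 : (20085 / 1000 : ℝ) ≤ Real.exp 1 * Real.exp 1 * Real.exp 1 := by
    have : (7389 / 1000 : ℝ) ≤ Real.exp 1 * Real.exp 1 := by nlinarith
    nlinarith
  rw [h1]
  have h7 : (13646 / 10000 : ℝ) ≤ Real.exp (315 / 1000) := by
    norm_num at h3 ⊢
    linarith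
  have h8 : (20085 / 1000 : ℝ) * (13646 / 10000) ≤
      Real.exp 1 * Real.exp 1 * Real.exp 1 * Real.exp (315 / 1000) :=
    mul_le_mul h6 h7 (by norm_num) (by positivity)
  refine le_trans ?_ h8
  norm_num

theorem S3S_FEW {V : Type} [Fintype V] {k : ℕ} (M : Finset (Fin k)) (T : V → Finset (Fin k)) (c : ℝ)
    (hS : Sm M T c) (hcu : c ≤ 1 / 100)
    (hf : ((univ.filter (fun v => (T v).card = 2)).card : ℝ) ≤ 3 / 10 * Fintype.card V) :
    ∏ x ∈ M, (1 - pr T x) ≤ 1 / 27 - 1 / 2000 := by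
  classical
  have h1 := stmt_TAN
  have hN : (0 : ℝ) < Fintype.card V := by exact_mod_cast hS.pos
  have b1 := fun j => FEW_range T j hS.pos
  have hs1 : 27 / 10 ≤ ∑ j ∈ M, pr T j := by
    have h4 : (∑ j ∈ M, pr T j) * Fintype.card V = ∑ v, ((T v).card : ℝ) := by
      rw [Finset.sum_mul]
      exact FEW_five hS.pos hS.sub
    have h5 : ∑ v : V, ((3 : ℝ) - if (T v).card = 2 then 1 else 0) ≤ ∑ v, ((T v).card : ℝ) := by
      refine Finset.sum_le_sum fun v _ => ?_
      have h2 := hS.two v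
      by_cases h3 : (T v).card = 2
      · rw [if_pos h3, h3]
        norm_num
      · rw [if_neg h3]
        have h4 : 3 ≤ (T v).card := by omega
        have h5 : (3 : ℝ) ≤ ((T v).card : ℝ) := by exact_mod_cast h4
        linarith
    have h6 : ∑ v : V, (if (T v).card = 2 then (1 : ℝ) else 0) =
        ((univ.filter (fun v => (T v).card = 2)).card : ℝ) := by
      rw [Finset.card_filter]
      push_cast
      rfl
    rw [Finset.sum_sub_distrib, h6, Finset.sum_const, nsmul_eq_mul, ← h4, Finset.card_univ] at h5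
    have h7 : 27 / 10 * (Fintype.card V : ℝ) ≤ (∑ j ∈ M, pr T j) * Fintype.card V := by linarith
    exact le_of_mul_le_mul_right h7 hN
  have hs2 : 99 / 100 ≤ ∑ j ∈ M, pr T j ^ 2 := by
    have h5 : ∑ _v : V, (1 - c) ≤ ∑ v, ∑ j ∈ T v, pr T j :=
      Finset.sum_le_sum fun v _ => FEW_four hS v
    rw [Finset.sum_const, nsmul_eq_mul, FEW_sum M T hS.sub hN, Finset.card_univ] at h5
    have h6 : (1 - c) * (Fintype.card V : ℝ) ≤ (∑ j ∈ M, pr T j ^ 2) * Fintype.card V := by
      linarith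
    have h7 := le_of_mul_le_mul_right h6 hN
    have h8 := hcu
    linarith
  have h7 : ∏ x ∈ M, (1 - pr T x) ≤
      ∏ x ∈ M, Real.exp (-(26 / 27 * pr T x + 13 / 18 * pr T x ^ 2)) :=
    Finset.prod_le_prod (fun x _ => by linarith [(b1 x).2])
      fun x _ => (h1 (pr T x) (b1 x).1 (b1 x).2).2
  refine h7.trans ?_
  rw [← Real.exp_sum]
  refine le_trans (Real.exp_le_exp.2 ?_) S3S_expF
  rw [Finset.sum_neg_distrib, Finset.sum_add_distrib, ← Finset.mul_sum, ← Finset.mul_sum]
  linarith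

theorem S3S_CI_real {α β S c : ℝ} (hα : 0 ≤ α) (hβ : 0 ≤ β) (hc : c ≤ 1 / 100)
    (hS : 2 * α - c + (2 * β - c) ≤ S) : α * β * Real.exp (-S) ≤ 1 / 27 - 1 / 2000 := by
  have key : ∀ x : ℝ, 0 ≤ x → x ≤ Real.exp (2 * x - 1) / 2 := by
    intro x _
    have := Real.add_one_le_exp (2 * x - 1)
    linarith
  have h1 : α * β ≤ Real.exp (2 * α - 1) / 2 * (Real.exp (2 * β - 1) / 2) :=
    mul_le_mul (key α hα) (key β hβ) hβ (by positivity)
  have h2 : Real.exp (2 * α - 1) / 2 * (Real.exp (2 * β - 1) / 2) * Real.exp (-S) =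
      Real.exp (2 * α + 2 * β - 2 - S) / 4 := by
    have : Real.exp (2 * α + 2 * β - 2 - S) =
        Real.exp (2 * α - 1) * Real.exp (2 * β - 1) * Real.exp (-S) := by
      rw [← Real.exp_add, ← Real.exp_add]
      congr 1
      ring
    rw [this]
    ring
  have h3 : Real.exp (2 * α + 2 * β - 2 - S) ≤ Real.exp (-(99 / 50)) := by
    apply Real.exp_le_exp.2
    linarith
  have h4 : Real.exp (-(99 / 50)) ≤ 1 / 7 := by
    have h5 : (7 : ℝ) ≤ Real.exp (99 / 50) := by
      have h6 : Real.exp (99 / 50) = Real.exp 1 * Real.exp 1 * Real.exp (-(1 / 50)) := by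
        rw [← Real.exp_add, ← Real.exp_add]
        norm_num
      have h7 := Real.add_one_le_exp (-(1 / 50) : ℝ)
      have h8 := Real.exp_one_gt_d9
      rw [h6]
      nlinarith [Real.exp_pos (1 : ℝ), Real.exp_pos (-(1 / 50) : ℝ),
        mul_self_nonneg (Real.exp 1 - 2.7182818283)]
    rw [Real.exp_neg, show (1 / 7 : ℝ) = (7 : ℝ)⁻¹ by norm_num]
    exact inv_anti₀ (by norm_num) h5
  calc α * β * Real.exp (-S)
      ≤ Real.exp (2 * α - 1) / 2 * (Real.exp (2 * β - 1) / 2) * Real.exp (-S) :=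
        mul_le_mul_of_nonneg_right h1 (Real.exp_pos _).le
    _ ≤ 1 / 27 - 1 / 2000 := by
        rw [h2]
        linarith

theorem S3S_CI {V : Type} [Fintype V] {k : ℕ} (M : Finset (Fin k)) (T : V → Finset (Fin k)) (c : ℝ)
    (hS : Sm M T c) (hcu : c ≤ 1 / 100) (a b : Fin k) (hab : a ≠ b)
    (hh : c * Fintype.card V < nex T a b)
    (h1 : ((univ.filter (fun v => (T v).card = 2 ∧ b ∉ T v)).card : ℝ) ≤ c * Fintype.card V)
    (h2 : ((univ.filter (fun v => (T v).card = 2 ∧ a ∉ T v)).card : ℝ) ≤ c * Fintype.card V) :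
    ∏ x ∈ M, (1 - pr T x) ≤ 1 / 27 - 1 / 2000 := by
  have hN : (0 : ℝ) < Fintype.card V := by exact_mod_cast hS.pos
  have hm := CI_meet hS hh
  have haM : a ∈ M ∧ b ∈ M := by
    have h3 : (0 : ℝ) < nex T a b := by
      have := mul_nonneg hS.cl hN.le
      linarith
    have h4 : 0 < nex T a b := by exact_mod_cast h3
    unfold nex at h4
    obtain ⟨v, hv⟩ := Finset.card_pos.1 h4
    simp only [Finset.mem_filter, Finset.mem_univ, true_and] at hv
    have h5 := hS.sub v
    rw [hv] at h5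
    exact ⟨h5 (by simp), h5 (by simp)⟩
  have h3 : (2 * (univ.filter (fun v => b ∉ T v)).card +
      2 * (univ.filter (fun v => a ∉ T v)).card : ℕ) ≤
      ∑ v, ((T v) \ {a, b}).card +
      (univ.filter (fun v => (T v).card = 2 ∧ b ∉ T v)).card +
      (univ.filter (fun v => (T v).card = 2 ∧ a ∉ T v)).card := by
    have h4 := Finset.sum_le_sum fun v (_ : v ∈ (univ : Finset V)) =>
      CI_point hab (hS.two v) (hm v)
    simp only [Finset.sum_add_distrib, ← Finset.mul_sum, ← Finset.card_filter] at h4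
    exact h4
  have h5 : 2 * ((1 - pr T b) * Fintype.card V) + 2 * ((1 - pr T a) * Fintype.card V) ≤
      (∑ x ∈ M \ {a, b}, pr T x) * Fintype.card V + c * Fintype.card V +
        c * Fintype.card V := by
    rw [← CI_double hS.sub hN, ← CI_co T hN, ← CI_co T hN]
    have h6 : ((2 * (univ.filter (fun v => b ∉ T v)).card +
      2 * (univ.filter (fun v => a ∉ T v)).card : ℕ) : ℝ) ≤
      ((∑ v, ((T v) \ {a, b}).card +
      (univ.filter (fun v => (T v).card = 2 ∧ b ∉ T v)).card +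
      (univ.filter (fun v => (T v).card = 2 ∧ a ∉ T v)).card : ℕ) : ℝ) := by exact_mod_cast h3
    push_cast at h6 ⊢
    linarith
  have h7 : 2 * (1 - pr T b) - c + (2 * (1 - pr T a) - c) ≤ ∑ x ∈ M \ {a, b}, pr T x := by
    have h8 : (2 * (1 - pr T b) - c + (2 * (1 - pr T a) - c)) * (Fintype.card V : ℝ) ≤
      (∑ x ∈ M \ {a, b}, pr T x) * Fintype.card V := by linarith
    exact le_of_mul_le_mul_right h8 hN
  have h9 : ∏ x ∈ M, (1 - pr T x) =
      (1 - pr T b) * (1 - pr T a) * ∏ x ∈ M \ {a, b}, (1 - pr T x) := by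
    have h10 : ({a, b} : Finset (Fin k)) ⊆ M := by
      intro x hx
      simp only [Finset.mem_insert, Finset.mem_singleton] at hx
      rcases hx with rfl | rfl
      · exact haM.1
      · exact haM.2
    rw [← Finset.prod_sdiff h10, Finset.prod_pair hab]
    ring
  rw [h9]
  have h11 : ∏ x ∈ M \ {a, b}, (1 - pr T x) ≤ Real.exp (-∑ x ∈ M \ {a, b}, pr T x) := by
    rw [← Finset.sum_neg_distrib, Real.exp_sum]
    refine Finset.prod_le_prod (fun x _ => by linarith [(CI_pr01 T hN x).2]) fun x _ => ?_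
    have := Real.add_one_le_exp (-pr T x)
    linarith
  refine le_trans (mul_le_mul_of_nonneg_left h11 ?_) (S3S_CI_real ?_ ?_ hcu h7)
  · exact mul_nonneg (by linarith [(CI_pr01 T hN b).2]) (by linarith [(CI_pr01 T hN a).2])
  · linarith [(CI_pr01 T hN b).2]
  · linarith [(CI_pr01 T hN a).2]

theorem S3S_CII_real (c β u w S P : ℝ) (hc : c ≤ 1 / 100) (hβ : 0 ≤ β) (hu : 0 ≤ u) (hw : 0 ≤ w)
    (hP0 : 0 ≤ P) (hP : P ≤ Real.exp (-S)) (h : 3 * β - c + 2 ≤ 2 * (1 - u) + 2 * (1 - w) + S) :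
    β * (u * (w * P)) ≤ 1 / 27 - 1 / 2000 := by
  have e1 : u ≤ Real.exp (2 * u - 1) / 2 := by
    have := Real.add_one_le_exp (2 * u - 1)
    linarith
  have e2 : w ≤ Real.exp (2 * w - 1) / 2 := by
    have := Real.add_one_le_exp (2 * w - 1)
    linarith
  have e3 : β ≤ Real.exp (3 * β - 1) / 3 := by
    have := Real.add_one_le_exp (3 * β - 1)
    linarith
  have h1 : w * P ≤ Real.exp (2 * w - 1) / 2 * Real.exp (-S) :=
    mul_le_mul e2 hP hP0 (by positivity)
  have h2 : u * (w * P) ≤ Real.exp (2 * u - 1) / 2 * (Real.exp (2 * w - 1) / 2 * Real.exp (-S)) :=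
    mul_le_mul e1 h1 (mul_nonneg hw hP0) (by positivity)
  have h3 : β * (u * (w * P)) ≤ Real.exp (3 * β - 1) / 3 *
      (Real.exp (2 * u - 1) / 2 * (Real.exp (2 * w - 1) / 2 * Real.exp (-S))) :=
    mul_le_mul e3 h2 (mul_nonneg hu (mul_nonneg hw hP0)) (by positivity)
  have h4 : Real.exp (3 * β - 1) / 3 *
      (Real.exp (2 * u - 1) / 2 * (Real.exp (2 * w - 1) / 2 * Real.exp (-S))) =
      Real.exp ((3 * β - 1) + ((2 * u - 1) + ((2 * w - 1) + -S))) / 12 := by
    rw [Real.exp_add, Real.exp_add, Real.exp_add]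
    ring
  have h5 : Real.exp ((3 * β - 1) + ((2 * u - 1) + ((2 * w - 1) + -S))) ≤ Real.exp (c - 1) :=
    Real.exp_le_exp.2 (by linarith)
  have h6 : Real.exp (c - 1) ≤ 2 / 5 := by
    have h7 : Real.exp (c - 1) ≤ Real.exp (-(1 - 1 / 100)) := Real.exp_le_exp.2 (by linarith)
    have h8 : (5 / 2 : ℝ) ≤ Real.exp (1 - 1 / 100) := by
      have h9 : Real.exp (1 - 1 / 100) = Real.exp 1 * Real.exp (-(1 / 100)) := by
        rw [← Real.exp_add]
        congr 1
      have h10 := Real.exp_one_gt_d9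
      have h11 := Real.add_one_le_exp (-(1 / 100) : ℝ)
      rw [h9]
      nlinarith
    rw [Real.exp_neg] at h7
    have h12 : (Real.exp (1 - 1 / 100))⁻¹ ≤ (5 / 2 : ℝ)⁻¹ :=
      inv_anti₀ (by norm_num) h8
    have h13 : ((5 / 2 : ℝ)⁻¹) = 2 / 5 := by norm_num
    linarith
  rw [h4] at h3
  linarith

theorem S3S_CII {V : Type} [Fintype V] {k : ℕ} (M : Finset (Fin k)) (T : V → Finset (Fin k)) (c : ℝ)
    (hS : Sm M T c) (hcu : c ≤ 1 / 100) (a b d : Fin k) (hab : a ≠ b) (had : a ≠ d) (hbd : b ≠ d)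
    (h1 : c * Fintype.card V < nex T a b) (h2 : c * Fintype.card V < nex T a d)
    (h3 : (nex T b d : ℝ) ≤ c * Fintype.card V) (hJ : Ja T a ⊆ {b, d}) :
    ∏ x ∈ M, (1 - pr T x) ≤ 1 / 27 - 1 / 2000 := by
  have hN : (0 : ℝ) < Fintype.card V := by exact_mod_cast hS.pos
  have ha := (CII_mem hS a b h1).1
  have hb := (CII_mem hS a b h1).2
  have hd := (CII_mem hS a d h2).2
  have hsum := Finset.sum_le_sum fun (v : V) (_ : v ∈ (univ : Finset V)) =>
    CII_point hS a b d hab had h1 h2 hJ v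
  simp only [Finset.sum_add_distrib, Finset.sum_sub_distrib, ← Finset.mul_sum] at hsum
  rw [← CII_pr T b hN, ← CII_pr T d hN, ← CII_sum M {a, b, d} T hS.sub hN] at hsum
  have h4 : ∑ v, (if a ∈ T v then (0 : ℝ) else 1) = (1 - pr T a) * Fintype.card V := by
    have h5 := CII_pr T a hN
    have h6 : ∑ v, (if a ∈ T v then (0 : ℝ) else 1) =
        ∑ v : V, ((1 : ℝ) - (if a ∈ T v then (1 : ℝ) else 0)) := by
      refine Finset.sum_congr rfl fun v _ => ?_
      split_ifs <;> norm_num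
    rw [h6, Finset.sum_sub_distrib, ← h5, Finset.sum_const, nsmul_eq_mul, Finset.card_univ]
    ring
  have h5 : ∑ v, (if T v = {b, d} then (1 : ℝ) else 0) = nex T b d := by
    rw [Finset.sum_boole]
    rfl
  have h6 : ∑ _v : V, (2 : ℝ) = 2 * Fintype.card V := by
    rw [Finset.sum_const, nsmul_eq_mul, Finset.card_univ]
    ring
  rw [h4, h5, h6] at hsum
  set S := ∑ x ∈ M \ {a, b, d}, pr T x with hSd
  have h7 : 3 * (1 - pr T a) - c + 2 ≤ 2 * (1 - (1 - pr T b)) + 2 * (1 - (1 - pr T d)) + S := by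
    have h8 : (3 * (1 - pr T a) - c + 2) * (Fintype.card V : ℝ) ≤
        (2 * (1 - (1 - pr T b)) + 2 * (1 - (1 - pr T d)) + S) * Fintype.card V := by
      nlinarith
    exact le_of_mul_le_mul_right h8 hN
  have p0 := fun x => CII_pr01 T x hN
  have hprod : ∏ x ∈ M, (1 - pr T x) = (1 - pr T a) * ((1 - pr T b) * ((1 - pr T d) *
      ∏ x ∈ M \ {a, b, d}, (1 - pr T x))) := by
    have hb' : b ∈ M.erase a := Finset.mem_erase.2 ⟨hab.symm, hb⟩
    have hd' : d ∈ (M.erase a).erase b :=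
      Finset.mem_erase.2 ⟨hbd.symm, Finset.mem_erase.2 ⟨had.symm, hd⟩⟩
    rw [← Finset.mul_prod_erase M _ ha, ← Finset.mul_prod_erase _ _ hb',
      ← Finset.mul_prod_erase _ _ hd']
    have he : ((M.erase a).erase b).erase d = M \ {a, b, d} := by
      ext x
      simp only [Finset.mem_erase, Finset.mem_sdiff, Finset.mem_insert, Finset.mem_singleton,
        not_or]
      tauto
    rw [he]
  rw [hprod]
  refine S3S_CII_real c (1 - pr T a) (1 - pr T b) (1 - pr T d) S _ hcu
    (by linarith [(p0 a).2]) (by linarith [(p0 b).2]) (by linarith [(p0 d).2])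
    (Finset.prod_nonneg fun x _ => by linarith [(p0 x).2]) ?_ h7
  rw [hSd, ← Finset.sum_neg_distrib, Real.exp_sum]
  refine Finset.prod_le_prod (fun x _ => by linarith [(p0 x).2]) fun x _ => ?_
  have := Real.add_one_le_exp (-pr T x)
  linarith

/-- the conclusion -/
def S3S_Goal {V : Type} [Fintype V] {k : ℕ} (M : Finset (Fin k)) (T : V → Finset (Fin k)) : Prop :=
  (∏ x ∈ M, (1 - pr T x) ≤ 1 / 27 - 1 / 2000) ∨
    ∃ a b d : Fin k, a ≠ b ∧ a ≠ d ∧ b ≠ d ∧ a ∈ M ∧ b ∈ M ∧ d ∈ M ∧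
      ∀ v, 2 ≤ (T v ∩ {a, b, d}).card

theorem S3S_TRI {V : Type} [Fintype V] {k : ℕ} (M : Finset (Fin k)) (T : V → Finset (Fin k)) (c : ℝ)
    (hS : Sm M T c) (a b d : Fin k) (hab : a ≠ b) (had : a ≠ d) (hbd : b ≠ d)
    (h1 : c * Fintype.card V < nex T a b) (h2 : c * Fintype.card V < nex T a d)
    (h3 : c * Fintype.card V < nex T b d) : S3S_Goal M T := by
  right
  refine ⟨a, b, d, hab, had, hbd, (CII_mem hS a b h1).1, (CII_mem hS a b h1).2,
    (CII_mem hS a d h2).2, ?_⟩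
  intro v
  have e1 := SMA_meet hS h1 v
  have e2 := SMA_meet hS h2 v
  have e3 := SMA_meet hS h3 v
  have key : ∀ x y : Fin k, x ≠ y → x ∈ T v → y ∈ T v → x ∈ ({a, b, d} : Finset (Fin k)) →
      y ∈ ({a, b, d} : Finset (Fin k)) → 2 ≤ (T v ∩ {a, b, d}).card := by
    intro x y hxy hx hy hx' hy'
    rw [← Finset.card_pair hxy]
    apply Finset.card_le_card
    intro z hz
    rw [Finset.mem_insert, Finset.mem_singleton] at hz
    rw [Finset.mem_inter]
    rcases hz with rfl | rfl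
    · exact ⟨hx, hx'⟩
    · exact ⟨hy, hy'⟩
  by_cases ha : a ∈ T v
  · rcases e3 with h | h
    · exact key a b hab ha h (by simp) (by simp)
    · exact key a d had ha h (by simp) (by simp)
  · exact key b d hbd (e1.resolve_left ha) (e2.resolve_left ha) (by simp) (by simp)

theorem S3S_case {V : Type} [Fintype V] {k : ℕ}
    (M : Finset (Fin k)) (T : V → Finset (Fin k)) (c : ℝ) (hS : Sm M T c) (hcu : c ≤ 1 / 100)
    (hJ : ∀ a, (Ja T a).card ≤ 2) (a b : Fin k) (hab : a ≠ b)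
    (h : c * Fintype.card V < nex T a b)
    (hb : c * Fintype.card V < ((univ.filter (fun v => (T v).card = 2 ∧ b ∉ T v)).card : ℝ)) :
    S3S_Goal M T := by
  have hN : (0 : ℝ) ≤ c * Fintype.card V := mul_nonneg hS.cl (Nat.cast_nonneg _)
  have hbJ : b ∈ Ja T a := by
    unfold Ja
    rw [mem_filter]
    refine ⟨mem_univ _, hab.symm, ?_⟩
    have : (0 : ℝ) < nex T a b := hN.trans_lt h
    exact_mod_cast this
  -- the shape of the 2-sets without `b`
  have hsh : ∀ v, (T v).card = 2 → b ∉ T v → ∃ j, j ≠ a ∧ j ≠ b ∧ T v = {a, j} ∧ j ∈ Ja T a := by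
    intro v hv hbv
    have hav : a ∈ T v := (SMA_meet hS h v).resolve_right hbv
    obtain ⟨x, y, hxy, hT⟩ := card_eq_two.1 hv
    have hex : ∃ j, j ≠ a ∧ T v = {a, j} := by
      rw [hT] at hav
      rw [mem_insert, mem_singleton] at hav
      rcases hav with e | e
      · exact ⟨y, by rw [e]; exact hxy.symm, by rw [hT, e]⟩
      · exact ⟨x, by rw [e]; exact hxy, by rw [hT, e, Finset.pair_comm]⟩
    obtain ⟨j, hja, hTj⟩ := hex
    have hjT : j ∈ T v := by
      rw [hTj]
      simp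
    refine ⟨j, hja, fun e => hbv (e ▸ hjT), hTj, ?_⟩
    unfold Ja
    rw [mem_filter]
    refine ⟨mem_univ _, hja, ?_⟩
    unfold nex
    exact card_pos.2 ⟨v, by rw [mem_filter]; exact ⟨mem_univ _, hTj⟩⟩
  have hne : (univ.filter (fun v => (T v).card = 2 ∧ b ∉ T v)).Nonempty := by
    rw [← card_pos]
    have : (0 : ℝ) < ((univ.filter (fun v => (T v).card = 2 ∧ b ∉ T v)).card : ℝ) :=
      hN.trans_lt hb
    exact_mod_cast this
  obtain ⟨v0, hv0⟩ := hne
  rw [mem_filter] at hv0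
  obtain ⟨d, hda, hdb, hTd, hdJ⟩ := hsh v0 hv0.2.1 hv0.2.2
  have hJe : Ja T a = {b, d} := by
    symm
    apply eq_of_subset_of_card_le
    · intro x hx
      rw [mem_insert, mem_singleton] at hx
      rcases hx with rfl | rfl
      · exact hbJ
      · exact hdJ
    · rw [card_pair hdb.symm]
      exact hJ a
  have hsub : univ.filter (fun v => (T v).card = 2 ∧ b ∉ T v) ⊆
      univ.filter (fun v => T v = {a, d}) := by
    intro v hv
    rw [mem_filter] at hv ⊢
    obtain ⟨j, hja, hjb, hTj, hjJ⟩ := hsh v hv.2.1 hv.2.2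
    rw [hJe, mem_insert, mem_singleton] at hjJ
    rcases hjJ with e | e
    · exact absurd e hjb
    · exact ⟨mem_univ _, by rw [hTj, e]⟩
  have hd : c * Fintype.card V < nex T a d := by
    refine hb.trans_le ?_
    unfold nex
    exact_mod_cast card_le_card hsub
  by_cases hbd : c * Fintype.card V < nex T b d
  · exact S3S_TRI M T c hS a b d hab hda.symm hdb.symm h hd hbd
  · exact Or.inl (S3S_CII M T c hS hcu a b d hab hda.symm hdb.symm h hd (not_lt.1 hbd) hJe.subset)

theorem S3S_SMA {V : Type} [Fintype V] {k : ℕ} (M : Finset (Fin k)) (T : V → Finset (Fin k)) (c : ℝ)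
    (hS : Sm M T c) (hcu : c ≤ 1 / 100) : S3S_Goal M T := by
  by_cases hst : ∃ a, 3 ≤ (Ja T a).card
  · obtain ⟨a, ha⟩ := hst
    exact Or.inl (S3S_STR M T c hS hcu a ha)
  have hJ : ∀ a, (Ja T a).card ≤ 2 := by
    intro a
    by_contra hn
    exact hst ⟨a, by omega⟩
  by_cases hf : ((univ.filter (fun v => (T v).card = 2)).card : ℝ) ≤ 3 / 10 * Fintype.card V
  · exact Or.inl (S3S_FEW M T c hS hcu hf)
  obtain ⟨a, b, hab, h⟩ := stmt_HEA M T c hS hJ (not_le.1 hf)
  by_cases hb : ((univ.filter (fun v => (T v).card = 2 ∧ b ∉ T v)).card : ℝ) ≤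
      c * Fintype.card V
  · by_cases ha : ((univ.filter (fun v => (T v).card = 2 ∧ a ∉ T v)).card : ℝ) ≤
        c * Fintype.card V
    · exact Or.inl (S3S_CI M T c hS hcu a b hab h hb ha)
    · exact S3S_case M T c hS hcu hJ b a hab.symm (by rw [SMA_comm]; exact h)
        (not_le.1 ha)
  · exact S3S_case M T c hS hcu hJ a b hab h (not_le.1 hb)

/-- Block S3S. -/
theorem stmt_S3S : Stmt_S3S := by
  classical
  intro V _ k M T c hV hsub hc0 hc1 hfew
  have hpp : ∀ x, prU T x = pr T x := fun x => rfl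
  simp only [hpp]
  have hVr : (0 : ℝ) < Fintype.card V := by exact_mod_cast hV
  have h0 : ∀ j, 0 ≤ pr T j := SMS_pr_nonneg T
  have h1' : ∀ j, pr T j ≤ 1 := SMS_pr_le_one hV T
  by_cases h2 : ∀ v, 2 ≤ (T v).card
  · exact S3S_SMA M T c ⟨hV, hsub, h2, hc0, by linarith, hfew⟩ hc1
  · left
    push Not at h2
    obtain ⟨v, hv⟩ := h2
    have hcard : (T v).card = 0 ∨ (T v).card = 1 := by omega
    rcases hcard with h | h
    · exfalso
      have hE : T v = ∅ := Finset.card_eq_zero.1 h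
      have hf := hfew v
      have hall : (univ.filter (fun w => T v ∩ T w = ∅)) = (univ : Finset V) := by
        ext w
        simp [hE]
      rw [hall, Finset.card_univ] at hf
      nlinarith
    · obtain ⟨i, hi⟩ := Finset.card_eq_one.1 h
      have hiM : i ∈ M := hsub v (by rw [hi]; exact Finset.mem_singleton_self i)
      have hf := hfew v
      have heq : (univ.filter (fun w => T v ∩ T w = ∅)) = (univ.filter (fun w => ¬ i ∈ T w)) := by
        ext w
        simp only [Finset.mem_filter, Finset.mem_univ, true_and, hi]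
        rw [← Finset.disjoint_iff_inter_eq_empty, Finset.disjoint_singleton_left]
      rw [heq] at hf
      have hsum := Finset.card_filter_add_card_filter_not (s := (univ : Finset V))
        (fun w => i ∈ T w)
      have hsum' : ((univ.filter (fun w => i ∈ T w)).card : ℝ) +
          ((univ.filter (fun w => ¬ i ∈ T w)).card : ℝ) = Fintype.card V := by
        rw [← Finset.card_univ]
        exact_mod_cast hsum
      have hpi : 1 - pr T i ≤ c := by
        have : pr T i = ((univ.filter (fun w => i ∈ T w)).card : ℝ) / Fintype.card V := by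
          unfold pr
          congr
        rw [this, sub_le_iff_le_add, ← sub_le_iff_le_add', le_div_iff₀ hVr]
        nlinarith
      rw [← Finset.mul_prod_erase M _ hiM]
      have hrest : ∏ x ∈ M.erase i, (1 - pr T x) ≤ 1 :=
        Finset.prod_le_one (fun x _ => by linarith [h1' x]) (fun x _ => by linarith [h0 x])
      have hrest0 : 0 ≤ ∏ x ∈ M.erase i, (1 - pr T x) :=
        Finset.prod_nonneg (fun x _ => by linarith [h1' x])
      have hi0 : 0 ≤ 1 - pr T i := by linarith [h1' i]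
      calc (1 - pr T i) * ∏ x ∈ M.erase i, (1 - pr T x) ≤ (1 - pr T i) * 1 :=
            mul_le_mul_of_nonneg_left hrest hi0
        _ ≤ 1 / 27 - 1 / 2000 := by linarith

end Pool.Agent.Work.MP_1ce445_fx
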