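import Pool.Agent.Work.MP_1ce445_fx.Interface

/-! Block SUM (helper17). -/

namespace Pool.Agent.Work.MP_1ce445_fx

open Finset Pool.Agent.Work.MP_1ce445_co_56 Pool.Agent.Work.MP_1ce445_lin

lemma SUM_ne {n k : ℕ} {G : Fin k → SimpleGraph (Fin n)} {e : Fin 3 → Fin k} {θ : ℝ}
    (hs : Sit G e θ) (i : Fin 3) : (low (G (e i)) θ).Nonempty := by
  rw [← Finset.card_pos]
  have h1 := hs.big i
  have h2 : (0 : ℝ) < n := by exact_mod_cast hs.pos
  have h3 : (0 : ℝ) < ((low (G (e i)) θ).card : ℝ) := by linarith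
  exact_mod_cast h3

lemma SUM_spc (hS : Stmt_SPC) {n k : ℕ} {G : Fin k → SimpleGraph (Fin n)} {e : Fin 3 → Fin k}
    {θ : ℝ} (hs : Sit G e θ) (i : Fin 3) (D : Finset (Fin n)) :
    (gammaT (G (e i)) : ℝ) ≤ 4 + D.card + ∑ v ∈ und (G (e i)) D, al G e θ i v :=
  hS n (G (e i)) (low (G (e (i + 1))) θ) (low (G (e (i + 2))) θ) D
    (fun v => hs.fac.minDeg (e i) v) (SUM_ne hs _) (SUM_ne hs _)

lemma SUM_emp {n : ℕ} (H : SimpleGraph (Fin n)) : und H ∅ = univ := by
  ext v
  simp [und]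

lemma SUM_sing {n : ℕ} (H : SimpleGraph (Fin n)) (z : Fin n) (f : Fin n → ℝ) :
    ∑ v ∈ und H {z}, f v = ∑ v, f v - ∑ v ∈ nb H z, f v := by
  classical
  have h : und H {z} = univ \ nb H z := by
    ext v
    simp [und, nb, H.adj_comm]
  rw [h, Finset.sum_sdiff_eq_sub (Finset.subset_univ _)]

theorem stmt_SUM : Stmt_SPC → Stmt_CVX → Stmt_TAU → Stmt_SUM := by
  intro hS hC hT n k G e θ hs
  obtain ⟨hA, hta⟩ := hT n k G e θ hs
  have h2 : ∀ i, (gammaT (G (e i)) : ℝ) ≤ 4 + ∑ v, al G e θ i v := by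
    intro i
    have h := SUM_spc hS hs i ∅
    rw [SUM_emp] at h
    simpa using h
  refine ⟨?_, h2, ?_⟩
  · intro v
    have h := hC (fun j => A G e θ (j + 1) j v) (fun j => ta G e θ j v)
      (fun j => (hta j v).1)
      (fun j => by
        have := (hA (j + 2) j v).2
        simp only [ta]
        linarith)
      (fun j => (hA (j + 1) j v).2)
    refine le_trans (le_of_eq ?_) h
    apply Finset.sum_congr rfl
    intro i _
    have e1 : i + 1 + 2 = i := by fin_cases i <;> rfl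
    have e2 : i + 2 + 1 = i := by fin_cases i <;> rfl
    simp only [al, ta, e1, e2]
    ring
  · intro i0 z
    have h1 := SUM_spc hS hs i0 {z}
    rw [SUM_sing, Finset.card_singleton] at h1
    have h3 : sg G e ≤ ∑ i, (4 + ∑ v, al G e θ i v) + 1 - ∑ v ∈ nb (G (e i0)) z, al G e θ i0 v := by
      have h4 : sg G e = (gammaT (G (e i0)) : ℝ) + ∑ i ∈ univ.erase i0, (gammaT (G (e i)) : ℝ) := by
        exact (Finset.add_sum_erase univ (fun i => (gammaT (G (e i)) : ℝ))
          (Finset.mem_univ i0)).symm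
      have h5 : ∑ i, (4 + ∑ v, al G e θ i v) =
          (4 + ∑ v, al G e θ i0 v) + ∑ i ∈ univ.erase i0, (4 + ∑ v, al G e θ i v) := by
        exact (Finset.add_sum_erase univ (fun i => (4 + ∑ v, al G e θ i v))
          (Finset.mem_univ i0)).symm
      have h6 : ∑ i ∈ univ.erase i0, (gammaT (G (e i)) : ℝ) ≤
          ∑ i ∈ univ.erase i0, (4 + ∑ v, al G e θ i v) :=
        Finset.sum_le_sum fun i _ => h2 i
      push_cast at h1
      linarith
    have h7 : ∑ i : Fin 3, (4 + ∑ v, al G e θ i v) = 12 + ∑ v, ∑ i, al G e θ i v := by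
      rw [Finset.sum_add_distrib, Finset.sum_comm]
      simp
      norm_num
    linarith

end Pool.Agent.Work.MP_1ce445_fx
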