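import Pool.Agent.Work.MP_1ce445_fx.InterfaceM
import Pool.Agent.Work.MP_1ce445_fx.SUM

/-! Block SMM (helper17): copy of `SUM.lean` with `m` random vertices of each set. -/

namespace Pool.Agent.Work.MP_1ce445_fx

open Finset Pool.Agent.Work.MP_1ce445_co_56 Pool.Agent.Work.MP_1ce445_lin

lemma SMM_spc (hS : Stmt_SPM) {n k : ℕ} {G : Fin k → SimpleGraph (Fin n)} {e : Fin 3 → Fin k}
    {θ : ℝ} (hs : Sit G e θ) (m : ℕ) (i : Fin 3) (D : Finset (Fin n)) :
    (gammaT (G (e i)) : ℝ) ≤ 2 * m + D.card + ∑ v ∈ und (G (e i)) D, am G e θ m i v :=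
  hS n m (G (e i)) (low (G (e (i + 1))) θ) (low (G (e (i + 2))) θ) D
    (fun v => hs.fac.minDeg (e i) v) (SUM_ne hs _) (SUM_ne hs _)

theorem stmt_SMM : Stmt_SPM → Stmt_CVM → Stmt_TAU → Stmt_SMM := by
  intro hS hC hT m n k G e θ hm hs
  obtain ⟨hA, hta⟩ := hT n k G e θ hs
  have h2 : ∀ i, (gammaT (G (e i)) : ℝ) ≤ 2 * m + ∑ v, am G e θ m i v := by
    intro i
    have h := SMM_spc hS hs m i ∅
    rw [SUM_emp] at h
    simpa using h
  have h7 : ∑ i : Fin 3, (2 * (m : ℝ) + ∑ v, am G e θ m i v) =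
      6 * m + ∑ v, ∑ i, am G e θ m i v := by
    rw [Finset.sum_add_distrib, Finset.sum_comm]
    simp
    ring
  refine ⟨?_, ?_, ?_⟩
  · intro v
    have h := hC m (fun j => A G e θ (j + 1) j v) (fun j => ta G e θ j v) hm
      (fun j => (hta j v).1)
      (fun j => by
        have := (hA (j + 2) j v).2
        simp only [ta]
        linarith)
      (fun j => (hA (j + 1) j v).2)
    refine le_trans (le_of_eq ?_) h
    apply Finset.sum_congr rfl
    intro i _
    have e1 : i + 1 + 2 = i := by fin_cases i <;> rfl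
    have e2 : i + 2 + 1 = i := by fin_cases i <;> rfl
    simp only [am, ta, e1, e2]
    congr 1
    ring
  · have h8 : sg G e ≤ ∑ i : Fin 3, (2 * (m : ℝ) + ∑ v, am G e θ m i v) :=
      Finset.sum_le_sum fun i _ => h2 i
    linarith
  · intro i0 z
    have h1 := SMM_spc hS hs m i0 {z}
    rw [SUM_sing, Finset.card_singleton] at h1
    have h4 : sg G e = (gammaT (G (e i0)) : ℝ) + ∑ i ∈ univ.erase i0, (gammaT (G (e i)) : ℝ) := by
      exact (Finset.add_sum_erase univ (fun i => (gammaT (G (e i)) : ℝ))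
        (Finset.mem_univ i0)).symm
    have h5 : ∑ i, (2 * (m : ℝ) + ∑ v, am G e θ m i v) =
        (2 * (m : ℝ) + ∑ v, am G e θ m i0 v) +
          ∑ i ∈ univ.erase i0, (2 * (m : ℝ) + ∑ v, am G e θ m i v) := by
      exact (Finset.add_sum_erase univ (fun i => (2 * (m : ℝ) + ∑ v, am G e θ m i v))
        (Finset.mem_univ i0)).symm
    have h6 : ∑ i ∈ univ.erase i0, (gammaT (G (e i)) : ℝ) ≤
        ∑ i ∈ univ.erase i0, (2 * (m : ℝ) + ∑ v, am G e θ m i v) :=
      Finset.sum_le_sum fun i _ => h2 i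
    push_cast at h1
    linarith

end Pool.Agent.Work.MP_1ce445_fx
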