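import Pool.Agent.Work.MP_1ce445_fx.InterfaceM

namespace Pool.Agent.Work.MP_1ce445_fx

open Finset Pool.Agent.Work.MP_1ce445_co_56 Pool.Agent.Work.MP_1ce445_lin

open Classical in
/-- one choice of the `2 m` vertices -/
lemma SPM_one {n m : ℕ} (H : SimpleGraph (Fin n)) (D : Finset (Fin n)) (hH : ∀ v, ∃ w, H.Adj v w)
    (f g : Fin m → Fin n) :
    (gammaT H : ℝ) ≤ 2 * m + D.card + ∑ v ∈ und H D,
      (∏ i, (if H.Adj v (f i) then (0 : ℝ) else 1)) * (∏ i, (if H.Adj v (g i) then (0 : ℝ) else 1)) := by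
  set S : Finset (Fin n) := (univ.image f ∪ univ.image g) ∪ D with hS
  have h1 := gammaT_le_add hH S
  have h2 : (S.card : ℝ) ≤ 2 * m + D.card := by
    have h3 : S.card ≤ 2 * m + D.card := by
      have ha : (univ.image f).card ≤ m := by
        refine Finset.card_image_le.trans ?_
        simp
      have hb : (univ.image g).card ≤ m := by
        refine Finset.card_image_le.trans ?_
        simp
      calc S.card ≤ (univ.image f ∪ univ.image g).card + D.card := Finset.card_union_le _ _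
        _ ≤ ((univ.image f).card + (univ.image g).card) + D.card := by
            gcongr
            exact Finset.card_union_le _ _
        _ ≤ (m + m) + D.card := by gcongr
        _ = 2 * m + D.card := by ring
    exact_mod_cast h3
  have h4 : (((univ : Finset (Fin n)).filter (fun v => ∀ z ∈ S, ¬ H.Adj v z)).card : ℝ) ≤
      ∑ v ∈ und H D,
      (∏ i, (if H.Adj v (f i) then (0 : ℝ) else 1)) *
        (∏ i, (if H.Adj v (g i) then (0 : ℝ) else 1)) := by
    rw [Finset.card_eq_sum_ones, Nat.cast_sum]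
    have hs : (univ : Finset (Fin n)).filter (fun v => ∀ z ∈ S, ¬ H.Adj v z) ⊆ und H D := by
      intro v hv
      simp only [und, mem_filter, mem_univ, true_and] at hv ⊢
      intro z hz
      exact hv z (Finset.mem_union_right _ hz)
    refine le_trans (Finset.sum_le_sum ?_) (Finset.sum_le_sum_of_subset_of_nonneg hs ?_)
    · intro v hv
      simp only [mem_filter, mem_univ, true_and] at hv
      have hf : ∀ i, ¬ H.Adj v (f i) := fun i => hv _ (by simp [hS])
      have hg : ∀ i, ¬ H.Adj v (g i) := fun i => hv _ (by simp [hS])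
      simp [hf, hg]
    · intro v _ _
      positivity
  have h5 : (gammaT H : ℝ) ≤ ((S.card : ℕ) : ℝ) +
      (((univ : Finset (Fin n)).filter (fun v => ∀ z ∈ S, ¬ H.Adj v z)).card : ℝ) := by
    have h6 : gammaT H ≤ S.card +
        ((univ : Finset (Fin n)).filter (fun v => ∀ z ∈ S, ¬ H.Adj v z)).card := by convert h1
    exact_mod_cast h6
  linarith

open Classical in
/-- number of the non-neighbours -/
lemma SPM_sum {n : ℕ} (H : SimpleGraph (Fin n)) (Y : Finset (Fin n)) (hY : Y.Nonempty) (v : Fin n) :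
    ∑ a ∈ Y, (if H.Adj v a then (0 : ℝ) else 1) = Y.card * nf H Y v := by
  have h1 : (Y.card : ℝ) ≠ 0 := by
    have := Finset.card_pos.mpr hY
    positivity
  have h2 : ∑ a ∈ Y, (if H.Adj v a then (0 : ℝ) else 1) = Y.card - dg H Y v := by
    have h3 : ∀ a ∈ Y, (if H.Adj v a then (0 : ℝ) else 1) = 1 - (if H.Adj v a then (1 : ℝ) else 0) := by
      intro a _
      split_ifs <;> norm_num
    rw [Finset.sum_congr rfl h3, Finset.sum_sub_distrib]
    congr 1
    · simp
    · simp [dg]
  rw [h2, nf]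
  field_simp

open Classical in
/-- sum over all functions with values in `Y` -/
lemma SPM_pi {n : ℕ} (m : ℕ) (H : SimpleGraph (Fin n)) (Y : Finset (Fin n)) (hY : Y.Nonempty)
    (v : Fin n) :
    ∑ f ∈ Fintype.piFinset (fun _ : Fin m => Y), ∏ i, (if H.Adj v (f i) then (0 : ℝ) else 1) =
      (Y.card * nf H Y v) ^ m := by
  have h1 := Finset.prod_univ_sum (fun _ : Fin m => Y)
    (fun (_ : Fin m) (a : Fin n) => (if H.Adj v a then (0 : ℝ) else 1))
  rw [← h1, Finset.prod_const, SPM_sum H Y hY v]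
  simp

theorem stmt_SPM : Stmt_SPM := by
  classical
  intro n m H Y Z D hH hY hZ
  have hy : (0 : ℝ) < Y.card := by exact_mod_cast Finset.card_pos.mpr hY
  have hz : (0 : ℝ) < Z.card := by exact_mod_cast Finset.card_pos.mpr hZ
  set PY := Fintype.piFinset (fun _ : Fin m => Y) with hPY
  set PZ := Fintype.piFinset (fun _ : Fin m => Z) with hPZ
  have cY : (PY.card : ℝ) = (Y.card : ℝ) ^ m := by
    rw [hPY, Fintype.card_piFinset_const]
    simp
  have cZ : (PZ.card : ℝ) = (Z.card : ℝ) ^ m := by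
    rw [hPZ, Fintype.card_piFinset_const]
    simp
  have h1 : ∑ f ∈ PY, ∑ g ∈ PZ, (gammaT H : ℝ) ≤
      ∑ f ∈ PY, ∑ g ∈ PZ, (2 * m + D.card + ∑ v ∈ und H D,
      (∏ i, (if H.Adj v (f i) then (0 : ℝ) else 1)) *
        (∏ i, (if H.Adj v (g i) then (0 : ℝ) else 1))) :=
    Finset.sum_le_sum fun f _ => Finset.sum_le_sum fun g _ => SPM_one H D hH f g
  have h2 : ∑ f ∈ PY, ∑ g ∈ PZ, (2 * m + D.card + ∑ v ∈ und H D,
      (∏ i, (if H.Adj v (f i) then (0 : ℝ) else 1)) *
        (∏ i, (if H.Adj v (g i) then (0 : ℝ) else 1))) =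
      (PY.card : ℝ) * PZ.card * (2 * m + D.card) +
      (PY.card : ℝ) * PZ.card * ∑ v ∈ und H D, (nf H Y v * nf H Z v) ^ m := by
    simp only [Finset.sum_add_distrib, Finset.sum_const, nsmul_eq_mul]
    congr 1
    · ring
    · have h3 : ∀ f ∈ PY, ∑ g ∈ PZ, ∑ v ∈ und H D,
          (∏ i, (if H.Adj v (f i) then (0 : ℝ) else 1)) *
            (∏ i, (if H.Adj v (g i) then (0 : ℝ) else 1)) =
          ∑ v ∈ und H D, (∏ i, (if H.Adj v (f i) then (0 : ℝ) else 1)) *
            (Z.card * nf H Z v) ^ m := by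
        intro f _
        rw [Finset.sum_comm]
        refine Finset.sum_congr rfl fun v _ => ?_
        rw [← Finset.mul_sum, SPM_pi m H Z hZ v]
      rw [Finset.sum_congr rfl h3, Finset.sum_comm, Finset.mul_sum]
      refine Finset.sum_congr rfl fun v _ => ?_
      rw [← Finset.sum_mul, SPM_pi m H Y hY v, cY, cZ]
      ring
  rw [h2] at h1
  have h6 : ∑ f ∈ PY, ∑ g ∈ PZ, (gammaT H : ℝ) = (PY.card : ℝ) * PZ.card * gammaT H := by
    simp only [Finset.sum_const, nsmul_eq_mul]
    ring
  rw [h6] at h1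
  have h7 : (0 : ℝ) < (PY.card : ℝ) * PZ.card := by
    rw [cY, cZ]
    positivity
  have h8 : (PY.card : ℝ) * PZ.card * gammaT H ≤ (PY.card : ℝ) * PZ.card *
      (2 * m + D.card + ∑ v ∈ und H D, (nf H Y v * nf H Z v) ^ m) := by
    rw [mul_add]
    exact h1
  exact le_of_mul_le_mul_left h8 h7

end Pool.Agent.Work.MP_1ce445_fx
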