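import Pool.Agent.Work.MP_1ce445_fx.Interface

/-!
# Block STR: stability of factorizations with a large product (fixed number of colours)
-/

namespace Pool.Agent.Work.MP_1ce445_fx

open Finset Pool.Agent.Work.MP_1ce445_co_56 Pool.Agent.Work.MP_1ce445_lin

section family

set_option linter.unusedSectionVars false

variable {ι W : Type*} [Fintype ι] [DecidableEq ι] [DecidableEq W]

/-- fraction of the members of `S` whose set contains `j` -/
noncomputable def fr (S : Finset W) (T : W → Finset ι) (j : ι) : ℝ :=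
  ((S.filter (fun v => j ∈ T v)).card : ℝ) / S.card

theorem fr_nonneg (S : Finset W) (T : W → Finset ι) (j : ι) : 0 ≤ fr S T j := by
  unfold fr; positivity

theorem fr_le_one (S : Finset W) (T : W → Finset ι) (j : ι) : fr S T j ≤ 1 := by
  unfold fr
  apply div_le_one_of_le₀ _ (Nat.cast_nonneg _)
  exact_mod_cast card_filter_le _ _

theorem fr_sum (S : Finset W) (T : W → Finset ι) (B : ι → ℝ) (hS : S.Nonempty) (m : ℝ)
    (hm : ∀ v ∈ S, m ≤ ∑ j ∈ T v, B j) : m ≤ ∑ j, B j * fr S T j := by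
  have hcS : (0 : ℝ) < S.card := by exact_mod_cast hS.card_pos
  have h1 : ∑ _v ∈ S, m ≤ ∑ v ∈ S, ∑ j ∈ T v, B j := sum_le_sum hm
  have h2 : ∑ v ∈ S, ∑ j ∈ T v, B j = ∑ j, B j * ((S.filter (fun v => j ∈ T v)).card : ℝ) := by
    have h3 : ∀ v, ∑ j ∈ T v, B j = ∑ j, if j ∈ T v then B j else 0 := by
      intro v
      rw [← sum_filter]
      congr 1
      ext j; simp
    simp_rw [h3]
    rw [sum_comm]
    apply sum_congr rfl
    intro j _
    rw [← sum_filter, sum_const, nsmul_eq_mul, mul_comm]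
  rw [h2, sum_const, nsmul_eq_mul] at h1
  have h4 : ∑ j, B j * fr S T j = (∑ j, B j * ((S.filter (fun v => j ∈ T v)).card : ℝ)) / S.card := by
    rw [sum_div]
    apply sum_congr rfl
    intro j _
    unfold fr
    ring
  rw [h4, le_div_iff₀ hcS]
  linarith

/-- the weight bound -/
theorem fr_wt (S : Finset W) (T : W → Finset ι) (hS : S.Nonempty) (a : ι) (J : Finset ι)
    (haJ : a ∉ J) (β γ m : ℝ) (hβ : 0 < β) (hγ : 0 < γ)
    (hm : ∀ v ∈ S, m ≤ (T v).card + (if a ∈ T v then β - 1 else 0) + (γ - 1) * (T v ∩ J).card) :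
    ∏ j, (1 - fr S T j) ≤ Real.exp (β - 1 + J.card * (γ - 1) - m) / (β * γ ^ J.card) := by
  set B : ι → ℝ := fun j => 1 + ((if j = a then β - 1 else 0) + (if j ∈ J then γ - 1 else 0)) with hB
  have hBpos : ∀ j, 0 < B j := by
    intro j
    simp only [hB]
    by_cases h1 : j = a
    · have h2 : j ∉ J := h1 ▸ haJ
      rw [if_pos h1, if_neg h2]; linarith
    · rw [if_neg h1]
      by_cases h2 : j ∈ J
      · rw [if_pos h2]; linarith
      · rw [if_neg h2]; norm_num
  have h1 : ∀ j, 1 - fr S T j ≤ Real.exp (B j - 1 - B j * fr S T j) / B j := by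
    intro j
    rw [le_div_iff₀ (hBpos j)]
    have := Real.add_one_le_exp (B j - 1 - B j * fr S T j)
    nlinarith
  have h2 : ∏ j, (1 - fr S T j) ≤ ∏ j, (Real.exp (B j - 1 - B j * fr S T j) / B j) :=
    prod_le_prod (fun j _ => by have := fr_le_one S T j; linarith) fun j _ => h1 j
  rw [prod_div_distrib, ← Real.exp_sum] at h2
  have h3 : ∏ j, B j = β * γ ^ J.card := by
    have h4 : ∀ j, B j = (if j = a then β else 1) * (if j ∈ J then γ else 1) := by
      intro j
      simp only [hB]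
      by_cases h1 : j = a
      · have h2 : j ∉ J := h1 ▸ haJ
        rw [if_pos h1, if_neg h2, if_pos h1, if_neg h2]; ring
      · rw [if_neg h1, if_neg h1]
        by_cases h2 : j ∈ J
        · rw [if_pos h2, if_pos h2]; ring
        · rw [if_neg h2, if_neg h2]; ring
    simp_rw [h4]
    rw [prod_mul_distrib, prod_ite_eq' univ a, if_pos (mem_univ a), prod_ite_mem, univ_inter, prod_const]
  have h5 : ∑ j, (B j - 1 - B j * fr S T j) = (β - 1 + J.card * (γ - 1)) - ∑ j, B j * fr S T j := by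
    rw [sum_sub_distrib]
    congr 1
    have h6 : ∀ j, B j - 1 = (if j = a then β - 1 else 0) + (if j ∈ J then γ - 1 else 0) := by
      intro j; simp only [hB]; ring
    simp_rw [h6]
    rw [sum_add_distrib, sum_ite_eq' univ a, if_pos (mem_univ a), sum_ite_mem, univ_inter, sum_const,
      nsmul_eq_mul]
  have h7 : m ≤ ∑ j, B j * fr S T j := by
    apply fr_sum S T B hS
    intro v hv
    refine (hm v hv).trans (le_of_eq ?_)
    simp only [hB]
    rw [sum_add_distrib, sum_add_distrib, sum_const, nsmul_eq_mul, mul_one, sum_ite_eq' (T v) a,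
      sum_ite_mem, sum_const, nsmul_eq_mul]
    ring
  rw [h3, h5] at h2
  refine h2.trans ?_
  apply div_le_div_of_nonneg_right _ (by positivity)
  apply Real.exp_le_exp.2
  linarith

end family


section stab

variable {ι W : Type*} [Fintype ι] [DecidableEq ι] [DecidableEq W]

/-- no member with two elements -/
theorem fr_three (S : Finset W) (T : W → Finset ι) (hS : S.Nonempty)
    (hT : ∀ v ∈ S, ∀ w ∈ S, (T v ∩ T w).Nonempty) (h3 : ∀ v ∈ S, 3 ≤ (T v).card) :
    ∏ j : ι, (1 - fr S T j) ≤ 1 / 27 - 1 / 2000 := by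
  have hcS : (0 : ℝ) < S.card := by exact_mod_cast hS.card_pos
  have hsum : 3 ≤ ∑ j, fr S T j := by
    have h4 := fr_sum S T (fun _ => 1) hS 3 (by
      intro v hv
      rw [sum_const, nsmul_eq_mul, mul_one]
      exact_mod_cast h3 v hv)
    simpa using h4
  have hsq : 1 ≤ ∑ j, fr S T j ^ 2 := by
    have h4 : ∑ v ∈ S, ∑ w ∈ S, 1 ≤ ∑ v ∈ S, ∑ w ∈ S, (T v ∩ T w).card :=
      sum_le_sum fun v hv => sum_le_sum fun w hw => (hT v hv w hw).card_pos
    have h5 : ∑ v ∈ S, ∑ w ∈ S, (T v ∩ T w).card =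
        ∑ j, (S.filter (fun v => j ∈ T v)).card * (S.filter (fun v => j ∈ T v)).card := by
      have h50 : ∀ v w, (T v ∩ T w).card =
          ∑ j, (if j ∈ T v then 1 else 0) * (if j ∈ T w then 1 else 0) := by
        intro v w
        have h51 : (T v ∩ T w) = univ.filter (fun j => j ∈ T v ∧ j ∈ T w) := by
          ext; simp
        rw [h51, card_filter]
        apply sum_congr rfl
        intro j _
        by_cases h6 : j ∈ T v <;> by_cases h7 : j ∈ T w <;> simp [h6, h7]
      simp_rw [h50, card_filter]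
      simp_rw [sum_mul_sum]
      rw [sum_comm' (s := univ) (t := fun _ => S) (s' := fun _ => univ) (t' := S) (by simp)]
      apply sum_congr rfl
      intro v _
      rw [sum_comm]
    rw [h5] at h4
    have h6 : (S.card : ℝ)^2 ≤ ∑ j, ((S.filter (fun v => j ∈ T v)).card : ℝ) ^ 2 := by
      simp only [sum_const, smul_eq_mul, mul_one] at h4
      simp only [sq]
      exact_mod_cast h4
    simp only [fr, div_pow]
    rw [← sum_div, le_div_iff₀ (by positivity), one_mul]
    exact h6
  have hfin : ∏ j : ι, (1 - fr S T j) ≤ Real.exp (-(∑ j, fr S T j + (∑ j, fr S T j ^ 2) / 2)) := by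
    have h7 : -(∑ j, fr S T j + (∑ j, fr S T j ^ 2) / 2) =
        ∑ j, (-(fr S T j + fr S T j ^ 2 / 2)) := by
      rw [sum_neg_distrib, sum_add_distrib, sum_div]
    rw [h7, Real.exp_sum]
    apply prod_le_prod
    · intro j _; have := fr_le_one S T j; linarith
    · intro j _; exact second_order (fr_nonneg S T j) (fr_le_one S T j)
  refine hfin.trans ?_
  have h8 : Real.exp (-(∑ j, fr S T j + (∑ j, fr S T j ^ 2) / 2)) ≤ Real.exp (-(7/2)) := by
    apply Real.exp_le_exp.2; linarith
  refine h8.trans ?_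
  rw [Real.exp_neg, inv_le_comm₀ (Real.exp_pos _) (by norm_num)]
  have h9 : Real.exp (7/2) = Real.exp 1 ^ 3 * Real.exp (1/2) := by
    rw [← Real.exp_nat_mul, ← Real.exp_add]; congr 1; push_cast; ring
  have h10 : (27:ℝ)/10 ≤ Real.exp 1 := by have := Real.exp_one_gt_d9; linarith
  have h11 : (3:ℝ)/2 ≤ Real.exp (1/2) := by have := Real.add_one_le_exp (1/2 : ℝ); linarith
  rw [h9]
  calc ((1/27 - 1/2000 : ℝ))⁻¹ ≤ (27/10)^3 * (3/2) := by norm_num
    _ ≤ _ := by gcongr

/-- a star of 2-sets with centre `a` -/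
theorem fr_star (S : Finset W) (T : W → Finset ι) (hS : S.Nonempty)
    (hT : ∀ v ∈ S, ∀ w ∈ S, (T v ∩ T w).Nonempty) (h2 : ∀ v ∈ S, 2 ≤ (T v).card) (a : ι)
    (ha : ∀ v ∈ S, (T v).card = 2 → a ∈ T v) (hex : ∃ v ∈ S, (T v).card = 2) :
    ∏ j : ι, (1 - fr S T j) ≤ 1 / 27 - 1 / 2000 := by
  set J : Finset ι := univ.filter (fun j => j ≠ a ∧ ∃ v ∈ S, T v = {a, j}) with hJ
  have haJ : a ∉ J := by simp [hJ]
  have hpair : ∀ v ∈ S, (T v).card = 2 → ∃ j ∈ J, T v = {a, j} := by
    intro v hv hc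
    have hav := ha v hv hc
    obtain ⟨x, y, hxy, hT'⟩ := card_eq_two.1 hc
    rw [hT', mem_insert, mem_singleton] at hav
    rcases hav with rfl | rfl
    · exact ⟨y, by simp only [hJ, mem_filter, mem_univ, true_and]; exact ⟨hxy.symm, v, hv, hT'⟩, hT'⟩
    · rw [pair_comm] at hT'
      exact ⟨x, by simp only [hJ, mem_filter, mem_univ, true_and]; exact ⟨hxy, v, hv, hT'⟩, hT'⟩
  have hJ1 : 1 ≤ J.card := by
    obtain ⟨v, hv, hc⟩ := hex
    obtain ⟨j, hj, _⟩ := hpair v hv hc
    exact card_pos.2 ⟨j, hj⟩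
  have hno : ∀ v ∈ S, a ∉ T v → J ⊆ T v := by
    intro v hv hav j hj
    simp only [hJ, mem_filter, mem_univ, true_and] at hj
    obtain ⟨hja, w, hw, hTw⟩ := hj
    obtain ⟨x, hx⟩ := hT v hv w hw
    rw [mem_inter, hTw, mem_insert, mem_singleton] at hx
    rcases hx with ⟨h1, rfl | rfl⟩
    · exact absurd h1 hav
    · exact h1
  have hno3 : ∀ v ∈ S, a ∉ T v → 3 ≤ (T v).card := by
    intro v hv hav
    have := h2 v hv
    rcases Nat.lt_or_ge 2 (T v).card with h | h
    · exact h
    · exact absurd (ha v hv (le_antisymm h this)) hav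
  -- the general weight bound
  have key : ∀ β γ m : ℝ, 1 ≤ β → 1 ≤ γ → m ≤ β + γ → m ≤ β + 2 →
      m ≤ 3 + (γ - 1) * J.card ∨ m ≤ J.card + (γ - 1) * J.card →
      ∏ j, (1 - fr S T j) ≤ Real.exp (β - 1 + J.card * (γ - 1) - m) / (β * γ ^ J.card) := by
    intro β γ m hβ hγ h1 h3 h4
    apply fr_wt S T hS a J haJ β γ m (by linarith) (by linarith)
    intro v hv
    by_cases hav : a ∈ T v
    · rw [if_pos hav]
      have h5 := h2 v hv
      rcases Nat.lt_or_ge 2 (T v).card with h | h
      · have h6 : (3 : ℝ) ≤ (T v).card := by exact_mod_cast h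
        have h7 : 0 ≤ (γ - 1) * ((T v ∩ J).card : ℝ) := mul_nonneg (by linarith) (Nat.cast_nonneg _)
        linarith
      · have h6 : (T v).card = 2 := le_antisymm h h5
        obtain ⟨j, hj, hTj⟩ := hpair v hv h6
        have h7 : 1 ≤ (T v ∩ J).card := card_pos.2 ⟨j, by
          rw [mem_inter, hTj]; exact ⟨by simp, hj⟩⟩
        have h8 : (1 : ℝ) ≤ ((T v ∩ J).card : ℝ) := by exact_mod_cast h7
        have h9 : (γ - 1) * 1 ≤ (γ - 1) * ((T v ∩ J).card : ℝ) :=
          mul_le_mul_of_nonneg_left h8 (by linarith)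
        rw [h6]; push_cast; linarith
    · rw [if_neg hav]
      have h5 := hno v hv hav
      rw [inter_eq_right.2 h5]
      rcases h4 with h4 | h4
      · have h6 : (3 : ℝ) ≤ (T v).card := by exact_mod_cast hno3 v hv hav
        linarith
      · have h6 : (J.card : ℝ) ≤ (T v).card := by exact_mod_cast card_le_card h5
        linarith
  have he : (27182 : ℝ) / 10000 ≤ Real.exp 1 := by have := Real.exp_one_gt_d9; linarith
  have he1 : Real.exp (-1) ≤ 10000 / 27182 := by
    rw [Real.exp_neg, inv_le_comm₀ (Real.exp_pos 1) (by norm_num)]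
    norm_num
    linarith
  have he2 : Real.exp (-2) ≤ (10000 / 27182) ^ 2 := by
    have : Real.exp (-2) = Real.exp (-1) ^ 2 := by
      rw [← Real.exp_nat_mul]; norm_num
    rw [this]
    exact pow_le_pow_left₀ (Real.exp_pos _).le he1 2
  have he3 : Real.exp (-(1 / 2)) ≤ 2 / 3 := by
    rw [Real.exp_neg, inv_le_comm₀ (Real.exp_pos _) (by norm_num)]
    have := Real.add_one_le_exp (1 / 2 : ℝ)
    norm_num at this ⊢
    linarith
  obtain h | h | h | h | h : J.card = 1 ∨ J.card = 2 ∨ J.card = 3 ∨ J.card = 4 ∨ 5 ≤ J.card := by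
    omega
  · refine (key 2 2 4 (by norm_num) (by norm_num) (by norm_num) (by norm_num) (by
      left; rw [h]; norm_num)).trans ?_
    rw [h]
    norm_num at he2 ⊢
    linarith
  · refine (key 3 2 5 (by norm_num) (by norm_num) (by norm_num) (by norm_num) (by
      left; rw [h]; norm_num)).trans ?_
    rw [h]
    norm_num at he1 ⊢
    linarith
  · refine (key 3 (3 / 2) (9 / 2) (by norm_num) (by norm_num) (by norm_num) (by norm_num) (by
      left; rw [h]; norm_num)).trans ?_
    rw [h]
    norm_num at he1 ⊢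
    linarith
  · refine (key (9 / 2) (3 / 2) 6 (by norm_num) (by norm_num) (by norm_num) (by norm_num) (by
      right; rw [h]; norm_num)).trans ?_
    rw [h]
    norm_num at he3 ⊢
    linarith
  · have h5 : (5 : ℝ) ≤ J.card := by exact_mod_cast h
    refine (key 4 1 5 (by norm_num) (by norm_num) (by norm_num) (by norm_num) (by
      right; linarith)).trans ?_
    have : (4 : ℝ) - 1 + J.card * (1 - 1) - 5 = -2 := by ring
    rw [this]
    norm_num at he2 ⊢
    linarith

/-- stability of `key_ineq` -/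
theorem key_stab (S : Finset W) (T : W → Finset ι) (hS : S.Nonempty)
    (hT : ∀ v ∈ S, ∀ w ∈ S, (T v ∩ T w).Nonempty) :
    ∏ j : ι, (1 - fr S T j) ≤ 1 / 27 - 1 / 2000 ∨
    ∃ a b d : ι, a ≠ b ∧ a ≠ d ∧ b ≠ d ∧
      ∀ v ∈ S, (a ∈ T v ∧ b ∈ T v) ∨ (a ∈ T v ∧ d ∈ T v) ∨ (b ∈ T v ∧ d ∈ T v) := by
  have hcS : (0 : ℝ) < S.card := by exact_mod_cast hS.card_pos
  -- size one
  by_cases h1 : ∃ v ∈ S, ∃ a, T v = {a}
  · left
    obtain ⟨v, hv, a, ha⟩ := h1
    have h2 : fr S T a = 1 := by
      unfold fr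
      rw [filter_true_of_mem]
      · exact div_self hcS.ne'
      · intro w hw
        obtain ⟨j, hj⟩ := hT v hv w hw
        rw [mem_inter, ha, mem_singleton] at hj
        rw [← hj.1]; exact hj.2
    rw [prod_eq_zero (mem_univ a) (by rw [h2]; ring)]
    norm_num
  have h2 : ∀ v ∈ S, 2 ≤ (T v).card := by
    intro v hv
    have hne : 0 < (T v).card := by
      apply card_pos.2
      obtain ⟨j, hj⟩ := hT v hv v hv
      exact ⟨j, (mem_inter.1 hj).1⟩
    by_contra hcon
    have h4 : (T v).card = 1 := by omega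
    exact h1 ⟨v, hv, card_eq_one.1 h4⟩
  have meet : ∀ v ∈ S, ∀ w ∈ S, ∀ x y, T v = {x, y} → x ∈ T w ∨ y ∈ T w := by
    intro v hv w hw x y hxy
    obtain ⟨j, hj⟩ := hT v hv w hw
    rw [mem_inter, hxy, mem_insert, mem_singleton] at hj
    rcases hj with ⟨rfl | rfl, h⟩
    · exact Or.inl h
    · exact Or.inr h
  by_cases h3 : ∃ v ∈ S, (T v).card = 2
  · obtain ⟨v, hv, hc⟩ := h3
    obtain ⟨a, b, hab, hvab⟩ := card_eq_two.1 hc
    by_cases ha : ∀ w ∈ S, (T w).card = 2 → a ∈ T w
    · exact Or.inl (fr_star S T hS hT h2 a ha ⟨v, hv, hc⟩)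
    by_cases hb : ∀ w ∈ S, (T w).card = 2 → b ∈ T w
    · exact Or.inl (fr_star S T hS hT h2 b hb ⟨v, hv, hc⟩)
    push Not at ha hb
    obtain ⟨w, hw, hwc, haw⟩ := ha
    obtain ⟨w', hw', hwc', hbw'⟩ := hb
    right
    have hbw : b ∈ T w := (meet v hv w hw a b hvab).resolve_left haw
    have haw' : a ∈ T w' := (meet v hv w' hw' a b hvab).resolve_right hbw'
    -- `T w = {b, d}`
    obtain ⟨d, hdb, hTw⟩ : ∃ d, d ≠ b ∧ T w = {b, d} := by
      obtain ⟨x, y, hxy, hT'⟩ := card_eq_two.1 hwc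
      rw [hT', mem_insert, mem_singleton] at hbw
      rcases hbw with rfl | rfl
      · exact ⟨y, hxy.symm, hT'⟩
      · rw [pair_comm] at hT'
        exact ⟨x, hxy, hT'⟩
    have hda : d ≠ a := by
      rintro rfl
      apply haw
      rw [hTw]; simp
    have hdw' : d ∈ T w' := (meet w hw w' hw' b d hTw).resolve_left hbw'
    have hTw' : T w' = {a, d} := by
      symm
      apply eq_of_subset_of_card_le
      · intro x hx
        rw [mem_insert, mem_singleton] at hx
        rcases hx with rfl | rfl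
        · exact haw'
        · exact hdw'
      · rw [card_pair hda.symm, hwc']
    refine ⟨a, b, d, hab, hda.symm, hdb.symm, ?_⟩
    intro u hu
    have e1 := meet v hv u hu a b hvab
    have e2 := meet w hw u hu b d hTw
    have e3 := meet w' hw' u hu a d hTw'
    tauto
  · left
    apply fr_three S T hS hT
    intro v hv
    have := h2 v hv
    push Not at h3
    have := h3 v hv
    omega

end stab

section sys

variable {n k : ℕ}

/-- The set system of a factorization. -/
theorem core_sys {G : Fin k → SimpleGraph (Fin n)} (hG : IsFactorization G) {d e t : ℝ} {T : ℕ}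
    (hd : 0 ≤ d) (hd1 : d ≤ 1) (he : 0 < e) (hkd : k * d ≤ 1/2) (hkd' : k * d < e ^ 2)
    (hn : 2 ≤ n) (he1 : 2 ^ k * e < 1) (ht : 2 ^ k * e + T / n + (1 - d) ^ T ≤ t) :
    ∃ S : Finset (Fin n), S.Nonempty ∧ (1 - 2 ^ k * e) * n ≤ (S.card : ℝ) ∧
      (∀ v ∈ S, ∀ w ∈ S, (tp G d v ∩ tp G d w).Nonempty) ∧
      ∀ j, (gammaT (G j) : ℝ) ≤ ((1 - fr S (tp G d) j) + t) * n := by
  classical
  have hn' : (2 : ℝ) ≤ n := by exact_mod_cast hn
  have hnpos : (0 : ℝ) < n := by linarith
  set W : Finset (Fin n) := univ.filter (fun v => e * n < (cls G d (tp G d v)).card) with hW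
  -- size of the complement
  have hWc : ((univ.filter (fun v => ¬ e * n < (cls G d (tp G d v)).card)).card : ℝ) ≤
      2 ^ k * e * n := by
    have h1 : (univ.filter (fun v => ¬ e * n < ((cls G d (tp G d v)).card : ℝ))) ⊆
        (univ.filter (fun A : Finset (Fin k) => ¬ e * n < ((cls G d A).card : ℝ))).biUnion
          (fun A => cls G d A) := by
      intro v hv
      rw [mem_filter] at hv
      rw [mem_biUnion]
      exact ⟨tp G d v, mem_filter.2 ⟨mem_univ _, hv.2⟩, by simp [cls]⟩
    have h2 := (card_le_card h1).trans card_biUnion_le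
    have h3 : (∑ A ∈ (univ.filter (fun A : Finset (Fin k) => ¬ e * n < ((cls G d A).card : ℝ))),
        ((cls G d A).card : ℝ)) ≤
        ∑ A ∈ (univ.filter (fun A : Finset (Fin k) => ¬ e * n < ((cls G d A).card : ℝ))),
        e * n := by
      apply sum_le_sum
      intro A hA
      rw [mem_filter] at hA
      exact not_lt.1 hA.2
    rw [sum_const, nsmul_eq_mul] at h3
    have h4 : ((univ.filter (fun A : Finset (Fin k) =>
        ¬ e * n < ((cls G d A).card : ℝ))).card : ℝ) ≤ 2 ^ k := by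
      have : (univ.filter (fun A : Finset (Fin k) =>
        ¬ e * n < ((cls G d A).card : ℝ))).card ≤ 2 ^ k := by
        refine (card_le_univ _).trans ?_
        simp
      exact_mod_cast this
    have h5 : ((univ.filter (fun v => ¬ e * n < ((cls G d (tp G d v)).card : ℝ))).card : ℝ) ≤
      ∑ A ∈ (univ.filter (fun A : Finset (Fin k) => ¬ e * n < ((cls G d A).card : ℝ))),
        ((cls G d A).card : ℝ) := by exact_mod_cast h2
    have h6 := mul_le_mul_of_nonneg_right h4 (mul_nonneg he.le hnpos.le)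
    linarith
  have hWsum : W.card + (univ.filter (fun v => ¬ e * n < ((cls G d (tp G d v)).card : ℝ))).card
      = n := by
    have := card_filter_add_card_filter_not (s := (univ : Finset (Fin n)))
      (fun v => e * n < ((cls G d (tp G d v)).card : ℝ))
    rw [card_univ, Fintype.card_fin] at this
    exact this
  have hWsum' : (W.card : ℝ) + (univ.filter (fun v =>
      ¬ e * n < ((cls G d (tp G d v)).card : ℝ))).card = n := by exact_mod_cast hWsum
  have hWne : W.Nonempty := by
    rw [← card_pos]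
    have : (0 : ℝ) < W.card := by nlinarith
    exact_mod_cast this
  have hWpos : (0 : ℝ) < W.card := by exact_mod_cast hWne.card_pos
  have hWn : (W.card : ℝ) ≤ n := by
    have : W.card ≤ n := by omega
    exact_mod_cast this
  have hint : ∀ v ∈ W, ∀ w ∈ W, (tp G d v ∩ tp G d w).Nonempty := by
    intro v hv w hw
    by_contra hcon
    rw [not_nonempty_iff_eq_empty, ← disjoint_iff_inter_eq_empty] at hcon
    have hne : tp G d v ≠ tp G d w := by
      intro h
      rw [← h] at hcon
      have h1 := tp_nonempty hG hkd hn v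
      rw [disjoint_self, bot_eq_empty] at hcon
      rw [hcon] at h1
      simp at h1
    have h1 := cls_mul_le hG hd hcon hne
    have hv' : e * n < (cls G d (tp G d v)).card := (mem_filter.1 hv).2
    have hw' : e * n < (cls G d (tp G d w)).card := (mem_filter.1 hw).2
    have hen : 0 < e * n := by positivity
    have h2 : (e * n) * (e * n) < ((cls G d (tp G d v)).card : ℝ) * (cls G d (tp G d w)).card :=
      mul_lt_mul'' hv' hw' hen.le hen.le
    have h3 : k * d * n ^ 2 < e ^ 2 * n ^ 2 := by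
      apply mul_lt_mul_of_pos_right hkd' (by positivity)
    nlinarith
  refine ⟨W, hWne, by linarith, hint, ?_⟩
  intro j
  have h1 := gammaT_le_low (hG.minDeg j) hd hd1 T
  rw [Fintype.card_fin] at h1
  have h2 : (univ.filter (fun v => ¬ d * n ≤ (Pool.Agent.Work.MP_1ce445_co_56.dg (G j) v : ℝ))).card ≤
      (W.filter (fun v => j ∉ tp G d v)).card +
      (univ.filter (fun v => ¬ e * n < ((cls G d (tp G d v)).card : ℝ))).card := by
    refine le_trans (card_le_card ?_) (card_union_le _ _)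
    intro v hv
    rw [mem_union]
    have hv1 : j ∉ tp G d v := by
      intro hj
      unfold tp at hj
      exact (mem_filter.1 hv).2 (mem_filter.1 hj).2
    by_cases hvW : e * n < ((cls G d (tp G d v)).card : ℝ)
    · exact Or.inl (mem_filter.2 ⟨mem_filter.2 ⟨mem_univ _, hvW⟩, hv1⟩)
    · exact Or.inr (mem_filter.2 ⟨mem_univ _, hvW⟩)
  have h3 : ((univ.filter (fun v => ¬ d * n ≤
      (Pool.Agent.Work.MP_1ce445_co_56.dg (G j) v : ℝ))).card : ℝ) ≤
      (W.filter (fun v => j ∉ tp G d v)).card +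
      (univ.filter (fun v => ¬ e * n < ((cls G d (tp G d v)).card : ℝ))).card := by
    exact_mod_cast h2
  have h4 : ((W.filter (fun v => j ∈ tp G d v)).card : ℝ) +
      (W.filter (fun v => j ∉ tp G d v)).card = W.card := by
    exact_mod_cast card_filter_add_card_filter_not (s := W) (fun v => j ∈ tp G d v)
  have h5 : ((W.filter (fun v => j ∉ tp G d v)).card : ℝ) = (1 - fr W (tp G d) j) * W.card := by
    unfold fr
    field_simp
    linarith
  have h6 : (1 - fr W (tp G d) j) * W.card ≤ (1 - fr W (tp G d) j) * n :=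
    mul_le_mul_of_nonneg_left hWn (by have := fr_le_one W (tp G d) j; linarith)
  have h7 : (2 ^ k * e + T / n + (1 - d) ^ T) * n ≤ t * n :=
    mul_le_mul_of_nonneg_right ht hnpos.le
  have h8 : (2 ^ k * e + T / n + (1 - d) ^ T) * n = 2 ^ k * e * n + T + (1 - d) ^ T * n := by
    field_simp
  rw [h8] at h7
  linarith

/-- real numbers: three numbers with a large product and sum at most 1 -/
theorem three_real {x y z η : ℝ} (hx : 0 ≤ x) (hy : 0 ≤ y) (hz : 0 ≤ z) (hs : x + y + z ≤ 1)
    (hη : η ≤ 1 / 1000) (hp : 1 / 27 - η ≤ x * y * z) :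
    1 / 4 ≤ x ∧ 1 - 27 * η ≤ x + y + z ∧ x * y * z ≤ 1 / 27 := by
  have amgm : ∀ a b c : ℝ, 0 ≤ a → 0 ≤ b → 0 ≤ c → 27 * (a * b * c) ≤ (a + b + c) ^ 3 := by
    intro a b c ha hb hc
    nlinarith [mul_nonneg ha (sq_nonneg (b - c)), mul_nonneg hb (sq_nonneg (a - c)),
      mul_nonneg hc (sq_nonneg (a - b)), mul_nonneg ha (sq_nonneg (a - b)),
      mul_nonneg ha (sq_nonneg (a - c)), mul_nonneg hb (sq_nonneg (b - c)),
      mul_nonneg hb (sq_nonneg (b - a)), mul_nonneg hc (sq_nonneg (c - a)),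
      mul_nonneg hc (sq_nonneg (c - b))]
  have h1 := amgm x y z hx hy hz
  have hs0 : 0 ≤ x + y + z := by positivity
  have h2 : (x + y + z) ^ 3 ≤ x + y + z := by
    have h3 : (x + y + z) ^ 2 ≤ 1 := by nlinarith
    nlinarith
  refine ⟨?_, by linarith, by linarith⟩
  by_contra hcon
  push Not at hcon
  have h3 : y * z ≤ ((1 - x) / 2) ^ 2 := by
    have h4 : y * z ≤ ((y + z) / 2) ^ 2 := by nlinarith [sq_nonneg (y - z)]
    have h5 : ((y + z) / 2) ^ 2 ≤ ((1 - x) / 2) ^ 2 := by
      apply pow_le_pow_left₀ (by positivity)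
      linarith
    linarith
  have h4 : x * y * z ≤ x * ((1 - x) / 2) ^ 2 := by
    rw [mul_assoc]
    exact mul_le_mul_of_nonneg_left h3 hx
  have h5 : x * ((1 - x) / 2) ^ 2 ≤ 9 / 256 := by
    have h6 : 0 ≤ 1 / 4 - x := by linarith
    nlinarith [mul_nonneg h6 hx, mul_nonneg (mul_nonneg h6 hx) hx, mul_nonneg h6 h6]
  linarith

end sys

section fin

theorem STR_low {n : ℕ} (H : SimpleGraph (Fin n)) (v : Fin n) :
    dg H univ v = Pool.Agent.Work.MP_1ce445_co_56.dg H v := by
  unfold dg Pool.Agent.Work.MP_1ce445_co_56.dg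
  rfl

theorem STR_exists (k : ℕ) {θ : ℝ} (hθ : 0 < θ) :
    ∃ t e d : ℝ, ∃ T : ℕ, 0 < t ∧ t ≤ θ / 4 ∧ (1 + t) ^ k - 1 ≤ θ / 200 ∧ 0 < e ∧
      2 ^ k * e ≤ t / 3 ∧ 0 < d ∧ d ≤ θ ∧ k * d ≤ 1 / 2 ∧ k * d < e ^ 2 ∧
      (1 - d) ^ T ≤ t / 3 := by
  obtain ⟨t, ht, htθ, htk⟩ : ∃ t : ℝ, 0 < t ∧ t ≤ θ / 4 ∧ (1 + t) ^ k - 1 ≤ θ / 200 := by
    have hc : Filter.Tendsto (fun t : ℝ => (1 + t) ^ k - 1) (nhdsWithin 0 (Set.Ioi 0))
        (nhds ((1 + 0) ^ k - 1)) := by
      apply Filter.Tendsto.mono_left _ nhdsWithin_le_nhds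
      exact (Continuous.tendsto (by fun_prop) 0)
    simp only [add_zero, one_pow, sub_self] at hc
    have h1 := hc.eventually (gt_mem_nhds (by positivity : (0 : ℝ) < θ / 200))
    have hc2 : Filter.Tendsto (fun t : ℝ => t) (nhdsWithin 0 (Set.Ioi 0)) (nhds 0) :=
      Filter.Tendsto.mono_left Filter.tendsto_id nhdsWithin_le_nhds
    have h3 := hc2.eventually (gt_mem_nhds (by positivity : (0 : ℝ) < θ / 4))
    have h2 := (h1.and h3).and self_mem_nhdsWithin
    obtain ⟨t, ht1, ht2⟩ := h2.exists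
    exact ⟨t, ht2, ht1.2.le, ht1.1.le⟩
  set e : ℝ := t / 3 / 2 ^ k with he
  have he0 : 0 < e := by positivity
  have he1 : 2 ^ k * e = t / 3 := by
    rw [he]; field_simp
  set d : ℝ := min (min (e ^ 2 / 2) (1 / 2)) θ / (k + 1) with hd
  have hm : 0 < min (min (e ^ 2 / 2) (1 / 2)) θ := by positivity
  have hd0 : 0 < d := by positivity
  have hk1 : (0 : ℝ) < k + 1 := by positivity
  have hkd : (k + 1) * d = min (min (e ^ 2 / 2) (1 / 2)) θ := by
    rw [hd]; field_simp
  have hk0 : (0 : ℝ) ≤ k := Nat.cast_nonneg k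
  have h1 : (k + 1) * d ≤ 1 / 2 := by
    rw [hkd]; exact (min_le_left _ _).trans (min_le_right _ _)
  have h2 : (k + 1) * d ≤ e ^ 2 / 2 := by
    rw [hkd]; exact (min_le_left _ _).trans (min_le_left _ _)
  have h3 : (k + 1) * d ≤ θ := by
    rw [hkd]; exact min_le_right _ _
  have h4 : 0 ≤ k * d := by positivity
  have h5 : 0 < e ^ 2 := by positivity
  obtain ⟨T, hT⟩ : ∃ T : ℕ, (1 - d) ^ T < t / 3 :=
    exists_pow_lt_of_lt_one (by positivity) (by linarith)
  exact ⟨t, e, d, T, ht, htθ, htk, he0, he1.le, hd0, by linarith, by linarith, by linarith, hT.le⟩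

/-- the lower bound for the product -/
theorem STR_NN (n k : ℕ) (hn : 2 ≤ n) (η : ℝ) (h : (k : ℝ) ≤ η * n) :
    (1 - η) * (n : ℝ) ^ k ≤ (NN n : ℝ) ^ k := by
  have hnpos : (0 : ℝ) < n := by positivity
  have h1 : (n : ℝ) - 1 ≤ NN n := by
    have : n ≤ NN n + 1 := by unfold NN; omega
    have h2 : (n : ℝ) ≤ NN n + 1 := by exact_mod_cast this
    linarith
  have h2 : (2 : ℝ) ≤ n := by exact_mod_cast hn
  have h3 : ((n : ℝ) - 1) ^ k ≤ (NN n : ℝ) ^ k := pow_le_pow_left₀ (by linarith) h1 k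
  have h4 : 1 + (k : ℝ) * (-(1 / n)) ≤ (1 + -(1 / (n : ℝ))) ^ k := by
    apply one_add_mul_le_pow
    have : 1 / (n : ℝ) ≤ 1 := by
      rw [div_le_one hnpos]; linarith
    linarith
  have h5 : ((n : ℝ) - 1) ^ k = (1 + -(1 / (n : ℝ))) ^ k * n ^ k := by
    rw [← mul_pow]
    congr 1
    field_simp
    ring
  have h6 : (k : ℝ) * (1 / n) ≤ η := by
    rw [mul_one_div, div_le_iff₀ hnpos]
    exact h
  have h7 : 1 - η ≤ (1 + -(1 / (n : ℝ))) ^ k := by linarith
  calc (1 - η) * (n : ℝ) ^ k ≤ (1 + -(1 / (n : ℝ))) ^ k * n ^ k :=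
        mul_le_mul_of_nonneg_right h7 (by positivity)
    _ = ((n : ℝ) - 1) ^ k := h5.symm
    _ ≤ _ := h3

theorem stmt_STR : Stmt_STR := by
  intro k θ hk hθ hθ1
  obtain ⟨t, e, d, T, ht, htθ, htk, he, he1, hd, hdθ, hkd, hkd', hT⟩ :=
    STR_exists k hθ
  obtain ⟨N1, hN1⟩ := exists_nat_gt (3 * T / t)
  obtain ⟨N2, hN2⟩ := exists_nat_gt (200 * k / θ)
  refine ⟨max (max N1 N2) 2, fun n hn G hG hprod => ?_⟩
  have hn2 : 2 ≤ n := (le_max_right _ _).trans hn
  have hnN1 : N1 ≤ n := ((le_max_left _ _).trans (le_max_left _ _)).trans hn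
  have hnN2 : N2 ≤ n := ((le_max_right _ _).trans (le_max_left _ _)).trans hn
  have hnpos : (0 : ℝ) < n := by positivity
  have hTn : (T : ℝ) / n ≤ t / 3 := by
    have h1 : 3 * T / t < n := hN1.trans_le (by exact_mod_cast hnN1)
    rw [div_lt_iff₀ ht] at h1
    rw [div_le_iff₀ hnpos]
    linarith
  have hkn : (k : ℝ) ≤ θ / 200 * n := by
    have h1 : 200 * k / θ < n := hN2.trans_le (by exact_mod_cast hnN2)
    rw [div_lt_iff₀ hθ] at h1
    linarith
  obtain ⟨S, hS, hScard, hint, hgam⟩ := core_sys hG (d := d) (e := e) (t := t) (T := T) hd.le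
    (by linarith) he hkd hkd' hn2 (by linarith) (by linarith)
  set p : Fin k → ℝ := fr S (tp G d) with hp
  have hp0 : ∀ j, 0 ≤ p j := fr_nonneg S _
  have hp1 : ∀ j, p j ≤ 1 := fr_le_one S _
  have hcS : (0 : ℝ) < S.card := by exact_mod_cast hS.card_pos
  have hSn : (S.card : ℝ) ≤ n := by
    have : S.card ≤ n := by simpa using card_le_univ S
    exact_mod_cast this
  have hnk : (0 : ℝ) < (n : ℝ) ^ k := by positivity
  -- lower bound for the product
  have hlow : (1 / 27 - θ / 200) * (n : ℝ) ^ k ≤ ∏ j, (gammaT (G j) : ℝ) := by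
    have h1 := STR_NN n k hn2 (θ / 200) hkn
    have h2 : (1 / 27 - θ / 200) * (n : ℝ) ^ k ≤ 1 / 27 * ((1 - θ / 200) * (n : ℝ) ^ k) := by
      have : 0 ≤ θ / 200 * (n : ℝ) ^ k := by positivity
      nlinarith
    linarith
  -- the product over a set
  have hup : ∀ A : Finset (Fin k), ∏ j ∈ A, (gammaT (G j) : ℝ) ≤
      (∏ j ∈ A, (1 - p j) + θ / 200) * n ^ A.card := by
    intro A
    calc ∏ j ∈ A, (gammaT (G j) : ℝ) ≤ ∏ j ∈ A, (((1 - p j) + t) * n) :=
          prod_le_prod (fun j _ => Nat.cast_nonneg _) fun j _ => hgam j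
      _ = (∏ j ∈ A, ((1 - p j) + t)) * n ^ A.card := by
          rw [prod_mul_distrib, prod_const]
      _ ≤ _ := by
          apply mul_le_mul_of_nonneg_right _ (by positivity)
          have h1 := prod_add_le A (fun j => 1 - p j) ht.le
            (fun j => by have := hp1 j; linarith) (fun j => by have := hp0 j; linarith)
          have h2 : (1 + t) ^ A.card ≤ (1 + t) ^ k := by
            apply pow_le_pow_right₀ (by linarith)
            simpa using card_le_univ A
          linarith
  have hprod2 : 1 / 27 - θ / 100 ≤ ∏ j, (1 - p j) := by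
    have h1 := hup univ
    rw [card_univ, Fintype.card_fin] at h1
    have h2 := hlow.trans h1
    have h3 := le_of_mul_le_mul_right h2 hnk
    linarith
  obtain h | ⟨a, b, c, hab, hac, hbc, htri⟩ := key_stab S (tp G d) hS hint
  · exfalso
    have : ∏ j, (1 - p j) ≤ 1 / 27 - 1 / 2000 := h
    linarith
  -- the three numbers
  have hx0 : ∀ j, 0 ≤ 1 - p j := fun j => by have := hp1 j; linarith
  have hsplit : ∀ A : Finset (Fin k), ({a, b, c} : Finset (Fin k)) ⊆ A →
      ∏ j ∈ A, (1 - p j) ≤ (1 - p a) * (1 - p b) * (1 - p c) := by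
    intro A hA
    have h1 : ∏ j ∈ ({a, b, c} : Finset (Fin k)), (1 - p j) = (1 - p a) * (1 - p b) * (1 - p c) := by
      rw [prod_insert (by simp [hab, hac]), prod_insert (by simp [hbc]), prod_singleton]
      ring
    rw [← h1, ← prod_sdiff hA]
    have h2 : ∏ j ∈ A \ {a, b, c}, (1 - p j) ≤ 1 :=
      prod_le_one (fun j _ => hx0 j) (fun j _ => by have := hp0 j; linarith)
    exact mul_le_of_le_one_left (prod_nonneg fun j _ => hx0 j) h2
  have hcount : ∀ j, ((S.filter (fun v => j ∉ tp G d v)).card : ℝ) = (1 - p j) * S.card := by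
    intro j
    have h4 : ((S.filter (fun v => j ∈ tp G d v)).card : ℝ) +
        (S.filter (fun v => j ∉ tp G d v)).card = S.card := by
      exact_mod_cast card_filter_add_card_filter_not (s := S) (fun v => j ∈ tp G d v)
    simp only [hp, fr]
    field_simp
    linarith
  have hall : (1 - p a) * S.card + (1 - p b) * S.card + (1 - p c) * S.card +
      ((S.filter (fun v => a ∈ tp G d v ∧ b ∈ tp G d v ∧ c ∈ tp G d v)).card : ℝ) = S.card := by
    rw [← hcount, ← hcount, ← hcount]
    have h1 : S = S.filter (fun v => a ∉ tp G d v) ∪ (S.filter (fun v => b ∉ tp G d v) ∪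
        (S.filter (fun v => c ∉ tp G d v) ∪
          S.filter (fun v => a ∈ tp G d v ∧ b ∈ tp G d v ∧ c ∈ tp G d v))) := by
      ext v
      simp only [mem_union, mem_filter]
      tauto
    have h2 : S.card = (S.filter (fun v => a ∉ tp G d v)).card +
        ((S.filter (fun v => b ∉ tp G d v)).card + ((S.filter (fun v => c ∉ tp G d v)).card +
          (S.filter (fun v => a ∈ tp G d v ∧ b ∈ tp G d v ∧ c ∈ tp G d v)).card)) := by
      rw [← card_union_of_disjoint, ← card_union_of_disjoint, ← card_union_of_disjoint, ← h1]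
      · rw [disjoint_left]
        intro v hv hv'
        simp only [mem_union, mem_filter] at hv hv'
        have := htri v hv.1
        tauto
      · rw [disjoint_left]
        intro v hv hv'
        simp only [mem_union, mem_filter] at hv hv'
        have := htri v hv.1
        tauto
      · rw [disjoint_left]
        intro v hv hv'
        simp only [mem_filter] at hv hv'
        tauto
    have h3 : (S.card : ℝ) = (S.filter (fun v => a ∉ tp G d v)).card +
        ((S.filter (fun v => b ∉ tp G d v)).card + ((S.filter (fun v => c ∉ tp G d v)).card +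
          (S.filter (fun v => a ∈ tp G d v ∧ b ∈ tp G d v ∧ c ∈ tp G d v)).card)) := by
      exact_mod_cast h2
    rw [h3]; ring
  have hsum1 : (1 - p a) + (1 - p b) + (1 - p c) ≤ 1 := by
    have h1 : (0 : ℝ) ≤ ((S.filter (fun v => a ∈ tp G d v ∧ b ∈ tp G d v ∧ c ∈ tp G d v)).card : ℝ) :=
      Nat.cast_nonneg _
    have h2 : ((1 - p a) + (1 - p b) + (1 - p c)) * S.card ≤ 1 * S.card := by linarith
    exact le_of_mul_le_mul_right h2 hcS
  have hpr3 : 1 / 27 - θ / 100 ≤ (1 - p a) * (1 - p b) * (1 - p c) :=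
    hprod2.trans (hsplit univ (subset_univ _))
  have hη : θ / 100 ≤ 1 / 1000 := by linarith
  obtain ⟨ha4, hs27, h27⟩ := three_real (hx0 a) (hx0 b) (hx0 c) hsum1 hη hpr3
  obtain ⟨hb4, _, _⟩ := three_real (hx0 b) (hx0 a) (hx0 c) (by linarith) hη (by linarith)
  obtain ⟨hc4, _, _⟩ := three_real (hx0 c) (hx0 a) (hx0 b) (by linarith) hη (by linarith)
  have hbig : ∀ j, 1 / 4 ≤ 1 - p j → (n : ℝ) / 5 ≤ ((low (G j) θ).card : ℝ) := by
    intro j hj
    have h1 : S.filter (fun v => j ∉ tp G d v) ⊆ low (G j) θ := by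
      intro v hv
      have hv2 := (mem_filter.1 hv).2
      unfold low
      rw [mem_filter]
      refine ⟨mem_univ _, ?_⟩
      rw [STR_low]
      by_contra hcon
      push Not at hcon
      apply hv2
      unfold tp
      rw [mem_filter]
      refine ⟨mem_univ _, ?_⟩
      have : d * n ≤ θ * n := mul_le_mul_of_nonneg_right hdθ hnpos.le
      linarith
    have h2 : ((S.filter (fun v => j ∉ tp G d v)).card : ℝ) ≤ ((low (G j) θ).card : ℝ) := by
      exact_mod_cast card_le_card h1
    rw [hcount] at h2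
    have h3 : 1 / 4 * (S.card : ℝ) ≤ (1 - p j) * S.card := mul_le_mul_of_nonneg_right hj hcS.le
    have h4 : (1 - t / 3) * n ≤ (1 - 2 ^ k * e) * n :=
      mul_le_mul_of_nonneg_right (by linarith) hnpos.le
    nlinarith
  refine ⟨![a, b, c], ?_⟩
  constructor
  · omega
  · exact hG
  · intro i j hij
    fin_cases i <;> fin_cases j <;> simp_all
  · exact hθ
  · exact hθ1
  · intro i
    fin_cases i
    · exact hbig a ha4
    · exact hbig b hb4
    · exact hbig c hc4
  · intro l hl
    have hla : l ≠ a := hl 0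
    have hlb : l ≠ b := hl 1
    have hlc : l ≠ c := hl 2
    have h1 := hup (univ.erase l)
    have h2 : ∏ j ∈ univ.erase l, (1 - p j) ≤ 1 / 27 := by
      refine (hsplit _ ?_).trans h27
      intro x hx
      simp only [mem_insert, mem_singleton] at hx
      rw [mem_erase]
      refine ⟨?_, mem_univ _⟩
      rcases hx with rfl | rfl | rfl
      · exact hla.symm
      · exact hlb.symm
      · exact hlc.symm
    have h3 : ∏ j, (gammaT (G j) : ℝ) = gammaT (G l) * ∏ j ∈ univ.erase l, (gammaT (G j) : ℝ) :=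
      (mul_prod_erase univ _ (mem_univ l)).symm
    have h4 : (univ.erase l).card = k - 1 := by
      rw [card_erase_of_mem (mem_univ l), card_univ, Fintype.card_fin]
    rw [h4] at h1
    have hnk1 : (0 : ℝ) < (n : ℝ) ^ (k - 1) := by positivity
    have h5 : (n : ℝ) ^ k = n * (n : ℝ) ^ (k - 1) := by
      rw [← pow_succ']; congr 1; omega
    have h6 : (1 / 27 - θ / 200) * (n * (n : ℝ) ^ (k - 1)) ≤
        gammaT (G l) * ((1 / 27 + θ / 200) * (n : ℝ) ^ (k - 1)) := by
      rw [← h5]
      refine hlow.trans ?_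
      rw [h3]
      apply mul_le_mul_of_nonneg_left _ (Nat.cast_nonneg _)
      refine h1.trans ?_
      apply mul_le_mul_of_nonneg_right _ hnk1.le
      linarith
    have h7 : (1 / 27 - θ / 200) * n ≤ gammaT (G l) * (1 / 27 + θ / 200) := by
      apply le_of_mul_le_mul_right _ hnk1
      linarith
    have h8 : (1 - θ) * (1 / 27 + θ / 200) ≤ 1 / 27 - θ / 200 := by nlinarith
    have h9 : (1 - θ) * n * (1 / 27 + θ / 200) ≤ gammaT (G l) * (1 / 27 + θ / 200) := by
      have := mul_le_mul_of_nonneg_right h8 hnpos.le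
      linarith
    exact le_of_mul_le_mul_right h9 (by linarith)
  · have h1 : (univ.filter (fun v => ∀ i, v ∉ low (G (![a, b, c] i)) θ)) ⊆
        (univ \ S) ∪ S.filter (fun v => a ∈ tp G d v ∧ b ∈ tp G d v ∧ c ∈ tp G d v) := by
      intro v hv
      have hv2 := (mem_filter.1 hv).2
      have h2 : ∀ j, v ∉ low (G j) θ → j ∈ tp G d v := by
        intro j hj
        unfold low at hj
        rw [mem_filter, STR_low] at hj
        push Not at hj
        have h3 := hj (mem_univ _)
        unfold tp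
        rw [mem_filter]
        refine ⟨mem_univ _, ?_⟩
        have : d * n ≤ θ * n := mul_le_mul_of_nonneg_right hdθ hnpos.le
        linarith
      rw [mem_union]
      by_cases hvS : v ∈ S
      · right
        rw [mem_filter]
        exact ⟨hvS, h2 a (hv2 0), h2 b (hv2 1), h2 c (hv2 2)⟩
      · left
        simp [hvS]
    have h2 := (card_le_card h1).trans (card_union_le _ _)
    have h3 : (univ \ S).card + S.card = n := by
      have := card_sdiff_add_card_eq_card (subset_univ S)
      rw [card_univ, Fintype.card_fin] at this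
      exact this
    have h4 : ((univ \ S).card : ℝ) + S.card = n := by exact_mod_cast h3
    have h5 : ((univ.filter (fun v => ∀ i, v ∉ low (G (![a, b, c] i)) θ)).card : ℝ) ≤
        (univ \ S).card +
        (S.filter (fun v => a ∈ tp G d v ∧ b ∈ tp G d v ∧ c ∈ tp G d v)).card := by
      exact_mod_cast h2
    refine h5.trans ?_
    have h6 : ((S.filter (fun v => a ∈ tp G d v ∧ b ∈ tp G d v ∧ c ∈ tp G d v)).card : ℝ) ≤
        27 * (θ / 100) * n := by
      have h7 : ((S.filter (fun v => a ∈ tp G d v ∧ b ∈ tp G d v ∧ c ∈ tp G d v)).card : ℝ) =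
          (1 - ((1 - p a) + (1 - p b) + (1 - p c))) * S.card := by linarith
      rw [h7]
      have h8 : (1 - ((1 - p a) + (1 - p b) + (1 - p c))) * (S.card : ℝ) ≤
          27 * (θ / 100) * S.card := mul_le_mul_of_nonneg_right (by linarith) hcS.le
      have h9 : 27 * (θ / 100) * (S.card : ℝ) ≤ 27 * (θ / 100) * n :=
        mul_le_mul_of_nonneg_left hSn (by positivity)
      linarith
    have h7 : (1 - t / 3) * n ≤ (1 - 2 ^ k * e) * n :=
      mul_le_mul_of_nonneg_right (by linarith) hnpos.le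
    have h8 : t / 3 * n ≤ θ / 12 * n := mul_le_mul_of_nonneg_right (by linarith) hnpos.le
    have h9 : 0 ≤ θ * n := by positivity
    linarith

end fin

end Pool.Agent.Work.MP_1ce445_fx
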