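import Pool.Agent.Work.MP_1ce445_fx.Interface

/-!
Block TAU of THEOREM FixedK: the numbers `τ_j(v)`.
-/

namespace Pool.Agent.Work.MP_1ce445_fx

open Finset Pool.Agent.Work.MP_1ce445_co_56 Pool.Agent.Work.MP_1ce445_lin

lemma TAU_dg_le {n : ℕ} (H : SimpleGraph (Fin n)) (Y : Finset (Fin n)) (v : Fin n) :
    dg H Y v ≤ Y.card := by
  classical
  exact card_filter_le _ _

lemma TAU_dg_univ {n : ℕ} (H : SimpleGraph (Fin n)) (Y : Finset (Fin n)) (v : Fin n) :
    dg H Y v ≤ dg H univ v := by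
  classical
  exact card_le_card (filter_subset_filter _ (subset_univ _))

lemma TAU_nf {n : ℕ} (H : SimpleGraph (Fin n)) (Y : Finset (Fin n)) (v : Fin n) :
    0 ≤ nf H Y v ∧ nf H Y v ≤ 1 := by
  have h1 : (dg H Y v : ℝ) ≤ Y.card := by exact_mod_cast TAU_dg_le H Y v
  have h0 : (0:ℝ) ≤ dg H Y v := Nat.cast_nonneg _
  have hY : (0:ℝ) ≤ Y.card := Nat.cast_nonneg _
  unfold nf
  constructor
  · have := div_le_one_of_le₀ h1 hY
    linarith
  · have := div_nonneg h0 hY
    linarith

lemma TAU_two {n k : ℕ} {G : Fin k → SimpleGraph (Fin n)} (hG : IsFactorization G)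
    {a b : Fin k} (hab : a ≠ b) (Y : Finset (Fin n)) (v : Fin n) :
    dg (G a) Y v + dg (G b) Y v ≤ Y.card := by
  classical
  unfold dg
  rw [← card_union_of_disjoint]
  · apply card_le_card
    intro w hw
    rw [mem_union, mem_filter, mem_filter] at hw
    rcases hw with h | h <;> exact h.1
  · rw [Finset.disjoint_left]
    intro w h1 h2
    rw [mem_filter] at h1 h2
    exact hab (hG.unique h1.2 h2.2)

lemma TAU_fin : ∀ i j : Fin 3, i = j ∨ i = j + 1 ∨ i = j + 2 := by decide

lemma TAU_cover {n k : ℕ} {G : Fin k → SimpleGraph (Fin n)} (hG : IsFactorization G)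
    (e : Fin 3 → Fin k) (Y : Finset (Fin n)) (v : Fin n) (j : Fin 3) :
    Y.card ≤ 1 + dg (G (e j)) Y v + dg (G (e (j + 1))) Y v + dg (G (e (j + 2))) Y v +
      ∑ l ∈ oth e, dg (G l) Y v := by
  classical
  have hs : Y ⊆ ((({v} ∪ Y.filter (fun w => (G (e j)).Adj v w)) ∪
      Y.filter (fun w => (G (e (j + 1))).Adj v w)) ∪
      Y.filter (fun w => (G (e (j + 2))).Adj v w)) ∪
      (oth e).biUnion (fun l => Y.filter (fun w => (G l).Adj v w)) := by
    intro w hw
    by_cases hvw : v = w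
    · simp [hvw]
    · obtain ⟨l, hl⟩ := hG.cover v w hvw
      by_cases ho : l ∈ oth e
      · exact mem_union_right _ (mem_biUnion.2 ⟨l, ho, mem_filter.2 ⟨hw, hl⟩⟩)
      · simp only [oth, mem_filter, mem_univ, true_and, not_forall, not_not] at ho
        obtain ⟨i, rfl⟩ := ho
        have h3 : i = j ∨ i = j + 1 ∨ i = j + 2 := TAU_fin i j
        apply mem_union_left
        rcases h3 with rfl | rfl | rfl
        · exact mem_union_left _ (mem_union_left _ (mem_union_right _ (mem_filter.2 ⟨hw, hl⟩)))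
        · exact mem_union_left _ (mem_union_right _ (mem_filter.2 ⟨hw, hl⟩))
        · exact mem_union_right _ (mem_filter.2 ⟨hw, hl⟩)
  have h1 := card_le_card hs
  have h2 := card_union_le ((({v} ∪ Y.filter (fun w => (G (e j)).Adj v w)) ∪
      Y.filter (fun w => (G (e (j + 1))).Adj v w)) ∪
      Y.filter (fun w => (G (e (j + 2))).Adj v w))
      ((oth e).biUnion (fun l => Y.filter (fun w => (G l).Adj v w)))
  have h3 := card_union_le (({v} ∪ Y.filter (fun w => (G (e j)).Adj v w)) ∪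
      Y.filter (fun w => (G (e (j + 1))).Adj v w))
      (Y.filter (fun w => (G (e (j + 2))).Adj v w))
  have h4 := card_union_le ({v} ∪ Y.filter (fun w => (G (e j)).Adj v w))
      (Y.filter (fun w => (G (e (j + 1))).Adj v w))
  have h5 := card_union_le {v} (Y.filter (fun w => (G (e j)).Adj v w))
  have h6 : ((oth e).biUnion (fun l => Y.filter (fun w => (G l).Adj v w))).card ≤
      ∑ l ∈ oth e, (Y.filter (fun w => (G l).Adj v w)).card := card_biUnion_le
  rw [card_singleton] at h5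
  unfold dg
  omega

theorem stmt_TAU : Stmt_TAU := by
  intro n k G e θ hS
  refine ⟨fun i j v => TAU_nf _ _ _, ?_⟩
  intro j v
  have hn : (0:ℝ) < n := by exact_mod_cast hS.pos
  have hY : (0:ℝ) < ((low (G (e j)) θ).card : ℝ) :=
    lt_of_lt_of_le (by positivity) (hS.big j)
  have hj : ∀ j : Fin 3, j + 1 ≠ j + 2 := by decide
  have hne : e (j + 1) ≠ e (j + 2) := fun h => hj j (hS.inj h)
  have h2 := TAU_two hS.fac hne (low (G (e j)) θ) v
  have h3 := TAU_cover hS.fac e (low (G (e j)) θ) v j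
  have h4 : ∑ l ∈ oth e, dg (G l) (low (G (e j)) θ) v ≤ ∑ l ∈ oth e, dg (G l) univ v :=
    sum_le_sum fun l _ => TAU_dg_univ _ _ _
  have h2' : ((dg (G (e (j + 1))) (low (G (e j)) θ) v : ℝ) +
      dg (G (e (j + 2))) (low (G (e j)) θ) v) ≤ ((low (G (e j)) θ).card : ℝ) := by
    exact_mod_cast h2
  have h3' : ((low (G (e j)) θ).card : ℝ) ≤ 1 + dg (G (e j)) (low (G (e j)) θ) v +
      dg (G (e (j + 1))) (low (G (e j)) θ) v + dg (G (e (j + 2))) (low (G (e j)) θ) v +
      ∑ l ∈ oth e, (dg (G l) univ v : ℝ) := by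
    have h5 := h3.trans (Nat.add_le_add_left h4 _)
    exact_mod_cast h5
  have hta : ta G e θ j v = 1 - ((dg (G (e (j + 1))) (low (G (e j)) θ) v : ℝ) +
      dg (G (e (j + 2))) (low (G (e j)) θ) v) / ((low (G (e j)) θ).card : ℝ) := by
    unfold ta A nf
    ring
  have h0 : (0:ℝ) ≤ (dg (G (e (j + 1))) (low (G (e j)) θ) v : ℝ) +
      dg (G (e (j + 2))) (low (G (e j)) θ) v := by positivity
  rw [hta]
  refine ⟨?_, ?_, ?_⟩
  · have := div_le_one_of_le₀ h2' hY.le
    linarith
  · have := div_nonneg h0 hY.le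
    linarith
  · rw [sub_mul, div_mul_cancel₀ _ hY.ne', one_mul]
    linarith

end Pool.Agent.Work.MP_1ce445_fx
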