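import Pool.Agent.Work.MP_1ce445_fx.InterfaceM

namespace Pool.Agent.Work.MP_1ce445_fx

open Finset Pool.Agent.Work.MP_1ce445_co_56 Pool.Agent.Work.MP_1ce445_lin

lemma TSM_pow (m : ℕ) (a b c : ℝ) (ha : 0 ≤ a) (hb : 0 ≤ b) (hc : 0 ≤ c) :
    (a + b + c) ^ m ≤ 3 ^ m * (a ^ m + b ^ m + c ^ m) := by
  have h1 : (a + b + c) ≤ 3 * max a (max b c) := by
    have h2 := le_max_left a (max b c)
    have h3 := le_max_right a (max b c)
    have h4 := le_max_left b c
    have h5 := le_max_right b c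
    linarith
  have h6 : (max a (max b c)) ^ m ≤ a ^ m + b ^ m + c ^ m := by
    have pa : 0 ≤ a ^ m := by positivity
    have pb : 0 ≤ b ^ m := by positivity
    have pc : 0 ≤ c ^ m := by positivity
    rcases max_choice a (max b c) with h | h
    · rw [h]
      linarith
    · rw [h]
      rcases max_choice b c with h' | h'
      · rw [h']
        linarith
      · rw [h']
        linarith
  calc (a + b + c) ^ m ≤ (3 * max a (max b c)) ^ m := pow_le_pow_left₀ (by positivity) h1 m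
    _ = 3 ^ m * (max a (max b c)) ^ m := by rw [mul_pow]
    _ ≤ 3 ^ m * (a ^ m + b ^ m + c ^ m) := by gcongr

open Classical in
lemma TSM_comm {n : ℕ} (H : SimpleGraph (Fin n)) (Y : Finset (Fin n)) :
    ∑ v, (dg H Y v : ℝ) = ∑ y ∈ Y, (dg H univ y : ℝ) := by
  have h1 : ∀ v, (dg H Y v : ℝ) = ∑ y ∈ Y, (if H.Adj v y then (1 : ℝ) else 0) := by
    intro v
    simp [dg]
  have h2 : ∀ y, (dg H univ y : ℝ) = ∑ v, (if H.Adj v y then (1 : ℝ) else 0) := by
    intro y
    simp [dg, SimpleGraph.adj_comm]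
  simp only [h1, h2]
  exact Finset.sum_comm

lemma TSM_low {n : ℕ} (H : SimpleGraph (Fin n)) (θ : ℝ) (hθ : 0 < θ) :
    ∑ v, (dg H (low H θ) v : ℝ) ≤ θ * (n : ℝ) ^ 2 := by
  rw [TSM_comm]
  calc ∑ y ∈ low H θ, (dg H univ y : ℝ) ≤ ∑ y ∈ low H θ, θ * n := by
        refine Finset.sum_le_sum fun y hy => ?_
        simp only [low, mem_filter, mem_univ, true_and] at hy
        exact hy.le
    _ = (low H θ).card * (θ * n) := by simp
    _ ≤ (n : ℝ) * (θ * n) := by
        have h1 : ((low H θ).card : ℝ) ≤ n := by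
          have := Finset.card_le_univ (low H θ)
          simp only [Fintype.card_fin] at this
          exact_mod_cast this
        gcongr
    _ = θ * (n : ℝ) ^ 2 := by ring

open Classical in
lemma TSM_dn {n : ℕ} (H : SimpleGraph (Fin n)) (Y : Finset (Fin n)) (v : Fin n) :
    dg H Y v ≤ n := by
  unfold dg
  refine (Finset.card_filter_le _ _).trans ?_
  have := Finset.card_le_univ Y
  simpa using this

theorem stmt_TSM (hTAU : Stmt_TAU) (hSQM : Stmt_SQM) : Stmt_TSM := by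
  intro m n k G e θ hm hS
  have hsit := hS.sit
  have hn : (0 : ℝ) < n := by exact_mod_cast hsit.pos
  obtain ⟨-, hta⟩ := hTAU n k G e θ hsit
  have hsq := hSQM m n k G e θ (by omega) hS
  set D : Fin n → ℝ := fun v => ∑ l ∈ oth e, (dg (G l) univ v : ℝ) with hD
  have hD0 : ∀ v, 0 ≤ D v := fun v => Finset.sum_nonneg fun l _ => by positivity
  -- one vertex
  have h1 : ∀ v i, ta G e θ i v ^ m ≤ (15 / (n : ℝ)) ^ m *
      (1 + (dg (G (e i)) (low (G (e i)) θ) v : ℝ) ^ m + D v ^ m) := by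
    intro v i
    obtain ⟨h0, h01, h2⟩ := hta i v
    have hb := hsit.big i
    have h3 : ta G e θ i v ≤ 5 / n * (1 + (dg (G (e i)) (low (G (e i)) θ) v : ℝ) + D v) := by
      have h4 : ta G e θ i v * (n / 5) ≤ 1 + (dg (G (e i)) (low (G (e i)) θ) v : ℝ) + D v :=
        (mul_le_mul_of_nonneg_left hb h0).trans h2
      rw [div_mul_eq_mul_div, le_div_iff₀ hn]
      linarith
    calc ta G e θ i v ^ m ≤ (5 / n * (1 + (dg (G (e i)) (low (G (e i)) θ) v : ℝ) + D v)) ^ m :=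
          pow_le_pow_left₀ h0 h3 m
      _ = (5 / n) ^ m * (1 + (dg (G (e i)) (low (G (e i)) θ) v : ℝ) + D v) ^ m := by rw [mul_pow]
      _ ≤ (5 / n) ^ m * (3 ^ m * (1 ^ m + (dg (G (e i)) (low (G (e i)) θ) v : ℝ) ^ m + D v ^ m)) := by
          gcongr
          exact TSM_pow m _ _ _ (by norm_num) (by positivity) (hD0 v)
      _ = (15 / (n : ℝ)) ^ m * (1 + (dg (G (e i)) (low (G (e i)) θ) v : ℝ) ^ m + D v ^ m) := by
          rw [one_pow, ← mul_assoc, ← mul_pow]
          congr 2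
          ring
  have h15 : (0 : ℝ) ≤ (15 / (n : ℝ)) ^ m := by positivity
  -- the sum
  have h2 : ∑ v, ∑ i, ta G e θ i v ^ m ≤ (15 / (n : ℝ)) ^ m *
      (3 * n + ∑ i, ∑ v, (dg (G (e i)) (low (G (e i)) θ) v : ℝ) ^ m + 3 * ∑ v, D v ^ m) := by
    calc ∑ v, ∑ i, ta G e θ i v ^ m ≤ ∑ v, ∑ i, (15 / (n : ℝ)) ^ m *
          (1 + (dg (G (e i)) (low (G (e i)) θ) v : ℝ) ^ m + D v ^ m) :=
          Finset.sum_le_sum fun v _ => Finset.sum_le_sum fun i _ => h1 v i
      _ = (15 / (n : ℝ)) ^ m *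
      (3 * n + ∑ i, ∑ v, (dg (G (e i)) (low (G (e i)) θ) v : ℝ) ^ m + 3 * ∑ v, D v ^ m) := by
          simp only [← Finset.mul_sum]
          congr 1
          simp only [Finset.sum_add_distrib]
          rw [Finset.sum_comm (s := (univ : Finset (Fin n))) (t := (univ : Finset (Fin 3)))
            (f := fun v i => (dg (G (e i)) (low (G (e i)) θ) v : ℝ) ^ m)]
          simp only [Finset.sum_const, Finset.card_univ, Fintype.card_fin, nsmul_eq_mul,
            ← Finset.mul_sum]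
          push_cast
          ring
  have h3 : ∑ v, D v ^ m ≤ 2 ^ m * ((k : ℝ) ^ m * n + 6 * ((k : ℝ) + sn G e) ^ (m - 1) *
      (k + (sn G e : ℝ) ^ 2)) := hsq
  constructor
  · intro hd
    have h4 : ∑ i, ∑ v, (dg (G (e i)) (low (G (e i)) θ) v : ℝ) ^ m ≤ 3 * n := by
      calc ∑ i : Fin 3, ∑ v : Fin n, (dg (G (e i)) (low (G (e i)) θ) v : ℝ) ^ m ≤
          ∑ i : Fin 3, ∑ v : Fin n, (1 : ℝ) := by
            refine Finset.sum_le_sum fun i _ => Finset.sum_le_sum fun v _ => ?_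
            refine pow_le_one₀ (by positivity) ?_
            exact_mod_cast hd i v
        _ = 3 * n := by simp
    refine h2.trans ?_
    unfold RM
    refine mul_le_mul_of_nonneg_left ?_ h15
    linarith
  · intro Δ hd
    have h4 : ∀ i, ∑ v, (dg (G (e i)) (low (G (e i)) θ) v : ℝ) ^ m ≤ θ * Δ * (n : ℝ) ^ m := by
      intro i
      obtain ⟨j, rfl⟩ : ∃ j, m = j + 2 := ⟨m - 2, by omega⟩
      calc ∑ v, (dg (G (e i)) (low (G (e i)) θ) v : ℝ) ^ (j + 2) ≤
          ∑ v, (Δ : ℝ) * (n : ℝ) ^ j * (dg (G (e i)) (low (G (e i)) θ) v : ℝ) := by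
            refine Finset.sum_le_sum fun v _ => ?_
            have ha : (dg (G (e i)) (low (G (e i)) θ) v : ℝ) ≤ Δ := by exact_mod_cast hd i v
            have hb : (dg (G (e i)) (low (G (e i)) θ) v : ℝ) ≤ n := by
              exact_mod_cast TSM_dn _ _ v
            have hc : (0 : ℝ) ≤ (dg (G (e i)) (low (G (e i)) θ) v : ℝ) := by positivity
            calc (dg (G (e i)) (low (G (e i)) θ) v : ℝ) ^ (j + 2) =
                (dg (G (e i)) (low (G (e i)) θ) v : ℝ) *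
                (dg (G (e i)) (low (G (e i)) θ) v : ℝ) ^ j *
                (dg (G (e i)) (low (G (e i)) θ) v : ℝ) := by ring
              _ ≤ Δ * (n : ℝ) ^ j * (dg (G (e i)) (low (G (e i)) θ) v : ℝ) := by gcongr
        _ = Δ * (n : ℝ) ^ j * ∑ v, (dg (G (e i)) (low (G (e i)) θ) v : ℝ) := by
            rw [Finset.mul_sum]
        _ ≤ Δ * (n : ℝ) ^ j * (θ * (n : ℝ) ^ 2) := by
            gcongr
            exact TSM_low _ _ hsit.th
        _ = θ * Δ * (n : ℝ) ^ (j + 2) := by ring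
    have h5 : ∑ i, ∑ v, (dg (G (e i)) (low (G (e i)) θ) v : ℝ) ^ m ≤ 3 * (θ * Δ * (n : ℝ) ^ m) := by
      calc ∑ i, ∑ v, (dg (G (e i)) (low (G (e i)) θ) v : ℝ) ^ m ≤
          ∑ i : Fin 3, θ * Δ * (n : ℝ) ^ m := Finset.sum_le_sum fun i _ => h4 i
        _ = 3 * (θ * Δ * (n : ℝ) ^ m) := by simp
    have h6 : (15 / (n : ℝ)) ^ m * (3 * (θ * Δ * (n : ℝ) ^ m)) = 3 * 15 ^ m * θ * Δ := by
      rw [div_pow]
      field_simp
    refine h2.trans ?_
    have h7 : (15 / (n : ℝ)) ^ m *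
      (3 * n + ∑ i, ∑ v, (dg (G (e i)) (low (G (e i)) θ) v : ℝ) ^ m + 3 * ∑ v, D v ^ m) ≤
      (15 / (n : ℝ)) ^ m * (6 * n + 3 * 2 ^ m * ((k : ℝ) ^ m * n + 6 * ((k : ℝ) + sn G e) ^ (m - 1) *
    (k + (sn G e : ℝ) ^ 2)) + 3 * (θ * Δ * (n : ℝ) ^ m)) := by
      refine mul_le_mul_of_nonneg_left ?_ h15
      linarith
    refine h7.trans ?_
    rw [mul_add, h6]
    unfold RM
    exact le_refl _

end Pool.Agent.Work.MP_1ce445_fx
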