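import Pool.Agent.Work.MP_1ce445_fx.InterfaceQ
import Pool.Agent.Work.MP_1ce445_fx.UUN

/-! # Block UUQ: the exact upper bound for growing `k`, full range, even and odd `n` -/

namespace Pool.Agent.Work.MP_1ce445_fx

open Finset Pool.Agent.Work.MP_1ce445_co_56 Pool.Agent.Work.MP_1ce445_lin

theorem stmt_UUQ : Stmt_STU → Stmt_ADM → Stmt_MXQ → Stmt_PAQ → Stmt_NUN → Stmt_PRM →
    Stmt_PQ1 → Stmt_UUQ := by
  intro hSTU hADM hMXQ hPAQ hNUN hPRM hPQ1 m hm
  obtain ⟨j, rfl⟩ : ∃ j, m = j + 2 := ⟨m - 2, by omega⟩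
  have hc60 : (1 : ℝ) ≤ 60 ^ (j + 2) := one_le_pow₀ (by norm_num)
  have hc15 : (1 : ℝ) ≤ 15 ^ (j + 2) := one_le_pow₀ (by norm_num)
  obtain ⟨θ, hθ⟩ : ∃ θ : ℝ, θ = 1 / (18000 * 60 ^ (j + 2)) := ⟨_, rfl⟩
  have hθ0 : 0 < θ := by rw [hθ]; positivity
  have hθ1 : θ ≤ 1 / 1000 := by
    rw [hθ, div_le_div_iff₀ (by positivity) (by norm_num)]
    linarith
  have hθ2 : 100 * 15 ^ (j + 2) * θ ≤ 1 := by
    have h1 : (15 : ℝ) ^ (j + 2) ≤ 60 ^ (j + 2) := pow_le_pow_left₀ (by norm_num) (by norm_num) _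
    rw [hθ, mul_one_div, div_le_one (by positivity)]
    linarith
  obtain ⟨δ1, hδ1, n1, hn1⟩ := hSTU θ hθ0 hθ1
  obtain ⟨δ2, n2, hδ2, hn2⟩ := hPQ1 (j + 2) θ hm hθ0
  refine ⟨min δ2 (min (δ1 ^ (j + 2)) (1 / (1800 * 60 ^ (j + 2)))),
    max n1 (max n2 (600 * 15 ^ (j + 2))), lt_min hδ2 (lt_min (by positivity) (by positivity)), ?_⟩
  intro n k hn hk hkn
  have hna : n1 ≤ n := (le_max_left _ _).trans hn
  have hnb : n2 ≤ n := ((le_max_left _ _).trans (le_max_right _ _)).trans hn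
  have hnc : 600 * 15 ^ (j + 2) ≤ n := ((le_max_right _ _).trans (le_max_right _ _)).trans hn
  have hnc' : 600 * 15 ^ (j + 2) ≤ (n : ℝ) := by exact_mod_cast hnc
  have hN1 : (1 : ℝ) ≤ n := by linarith
  have hn0 : (0 : ℝ) < n := by linarith
  have e2 : j + 2 - 1 = j + 1 := by omega
  rw [e2] at hkn
  have hX : (n : ℝ) ^ (j + 1) ≤ (n : ℝ) ^ (j + 2) := pow_le_pow_right₀ hN1 (by omega)
  have hk0 : (k : ℝ) ^ (j + 2) ≤ δ2 * (n : ℝ) ^ (j + 2 - 1) := by
    rw [e2]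
    exact hkn.trans (mul_le_mul_of_nonneg_right (min_le_left _ _) (by positivity))
  have hkU : (k : ℝ) ^ (j + 2) ≤ 1 / (1800 * 60 ^ (j + 2)) * (n : ℝ) ^ (j + 1) :=
    hkn.trans (mul_le_mul_of_nonneg_right ((min_le_right _ _).trans (min_le_right _ _))
      (by positivity))
  have hk1 : (k : ℝ) ^ (j + 2) ≤ (δ1 * n) ^ (j + 2) := by
    calc (k : ℝ) ^ (j + 2) ≤ min δ2 (min (δ1 ^ (j + 2)) (1 / (1800 * 60 ^ (j + 2)))) *
          (n : ℝ) ^ (j + 1) := hkn
      _ ≤ δ1 ^ (j + 2) * (n : ℝ) ^ (j + 2) :=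
          mul_le_mul ((min_le_right _ _).trans (min_le_left _ _)) hX (by positivity)
            (by positivity)
      _ = _ := by rw [mul_pow]
  have hk3 : (k : ℝ) ≤ δ1 * n :=
    le_of_pow_le_pow_left₀ (by omega) (by positivity) hk1
  obtain ⟨_, ε, p1, p2, p3, p4, p5, p6, p7⟩ := hn2 n k hnb hk hk0
  have hcore : ∀ G : Fin k → SimpleGraph (Fin n), IsFactorization G →
      (Odd n → ∏ l, gammaT (G l) ≤ NN n ^ (k - 3) * NUN_T (NN n + 6 * (j + 2))) ∧
      (Even n → ∏ l, gammaT (G l) ≤ NN n ^ (k - 3) * TTm (j + 2) (n / 2)) := by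
    intro G hG
    rcases le_or_gt (1 / 27 * (NN n : ℝ) ^ k) (∏ j, (gammaT (G j) : ℝ)) with h1 | h1
    · obtain ⟨e, hS⟩ := hn1 n k hna hk hk3 G hG h1
      refine UUN_core hADM hPRM hNUN j n k G e θ hθ hnc' hkU hS ?_
      intro h3 h4
      have hE : ExtQ (j + 2) G e θ ε := hMXQ (j + 2) n k G e θ ε (by omega) hθ2 hS p1 p2 p3 p4
        p5 p6 p7 h3 h4
      exact hPAQ (j + 2) n k G e θ ε hE
    · have h2 : 27 * ∏ j, gammaT (G j) ≤ NN n ^ k := by
        have h3 : (27 : ℝ) * ∏ j, (gammaT (G j) : ℝ) ≤ (NN n : ℝ) ^ k := by linarith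
        exact_mod_cast h3
      have h3 : NN n ^ k = NN n ^ (k - 3) * NN n ^ 3 := by
        rw [← pow_add]
        congr 1
        omega
      rw [h3] at h2
      have key : ∀ T : ℕ, NN n ^ 3 ≤ 27 * T → ∏ l, gammaT (G l) ≤ NN n ^ (k - 3) * T := by
        intro T hT
        have h5 : 27 * ∏ j, gammaT (G j) ≤ 27 * (NN n ^ (k - 3) * T) := by
          calc 27 * ∏ j, gammaT (G j) ≤ NN n ^ (k - 3) * NN n ^ 3 := h2
            _ ≤ NN n ^ (k - 3) * (27 * T) := Nat.mul_le_mul_left _ hT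
            _ = 27 * (NN n ^ (k - 3) * T) := by ring
        exact Nat.le_of_mul_le_mul_left h5 (by norm_num)
      constructor
      · intro _
        apply key
        have h4 := NUN_low (NN n + 6 * (j + 2))
        have h5 : NN n ^ 3 + (3 * (NN n + 6 * (j + 2)) + 2) ≤ (NN n + 6 * (j + 2)) ^ 3 := by
          obtain ⟨s, hs⟩ : ∃ s, 6 * (j + 2) = s + 12 := ⟨6 * j, by ring⟩
          rw [hs]
          nlinarith [Nat.zero_le (NN n), Nat.zero_le s, Nat.zero_le (NN n * s),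
            Nat.zero_le (NN n ^ 2), Nat.zero_le (s ^ 2), Nat.zero_le (NN n ^ 2 * s),
            Nat.zero_le (NN n * s ^ 2), Nat.zero_le (s ^ 3)]
        omega
      · intro hev
        obtain ⟨q, hq⟩ := hev
        have hq2 : n / 2 = q := by omega
        have hnN : NN n = 2 * q := by
          unfold NN
          omega
        rw [hq2]
        apply key
        rw [hnN]
        have h4 := hNUN.2.1 (j + 2) q
        have h5 : (2 * q) ^ 3 + 24 * (q + 3 * (j + 2) + 1) ≤ 8 * (q + 3 * (j + 2)) ^ 3 := by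
          obtain ⟨s, hs⟩ : ∃ s, 3 * (j + 2) = s + 6 := ⟨3 * j, by ring⟩
          rw [hs]
          nlinarith [Nat.zero_le q, Nat.zero_le s, Nat.zero_le (q * s),
            Nat.zero_le (q ^ 2), Nat.zero_le (s ^ 2), Nat.zero_le (q ^ 2 * s),
            Nat.zero_le (q * s ^ 2), Nat.zero_le (s ^ 3)]
        omega
  constructor
  · intro hev
    exact P_le fun G hG => (hcore G hG).2 hev
  · intro hodd
    exact P_le fun G hG => (hcore G hG).1 hodd

end Pool.Agent.Work.MP_1ce445_fx
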