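import Pool.Agent.Work.MP_1ce445_fx.Interface

namespace Pool.Agent.Work.MP_1ce445_fx

open Finset Pool.Agent.Work.MP_1ce445_co_56 Pool.Agent.Work.MP_1ce445_lin

theorem XCA_fin : ∀ j i : Fin 3, j ≠ i → i = j + 1 ∨ i = j + 2 := by decide

theorem XCA_e1 : ∀ j : Fin 3, j + 1 + 1 = j + 2 := by decide

theorem XCA_e2 : ∀ j : Fin 3, j + 1 + 2 = j := by decide

theorem XCA_e3 : ∀ j : Fin 3, j + 2 + 1 = j := by decide

theorem XCA_e4 : ∀ j : Fin 3, j + 2 + 2 = j + 1 := by decide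

theorem XCA_real (a b c d T S ε : ℝ) (ha : 0 ≤ a) (hb : 0 ≤ b) (hb1 : b ≤ 1) (hc : c ≤ 1)
    (hc5 : 1 - 5 * ε ≤ c) (hd : d ≤ 1) (hT : T = c + a - 1) (hS : T ^ 2 ≤ S) :
    (a * b) ^ 2 ≤ 2 * S + 10 * ε * ((1 - c) + (1 - d)) := by
  have he : 0 ≤ ε := by linarith
  have h1 : (a * b) ^ 2 ≤ a ^ 2 := by
    have : a * b ≤ a := by nlinarith
    exact pow_le_pow_left₀ (mul_nonneg ha hb) this 2
  have h2 : a ^ 2 ≤ 2 * T ^ 2 + 2 * (1 - c) ^ 2 := by
    have : a = T + (1 - c) := by linarith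
    rw [this]
    nlinarith [sq_nonneg (T - (1 - c))]
  have h3 : (1 - c) ^ 2 ≤ 5 * ε * (1 - c) := by
    nlinarith [mul_nonneg (sub_nonneg.mpr hc) (show (0 : ℝ) ≤ 5 * ε - (1 - c) by linarith)]
  have h4 : 0 ≤ ε * (1 - d) := mul_nonneg he (by linarith)
  nlinarith

theorem XCA_al {n k : ℕ} {G : Fin k → SimpleGraph (Fin n)} {e : Fin 3 → Fin k} {θ ε : ℝ}
    (hA : ∀ i j v, 0 ≤ A G e θ i j v ∧ A G e θ i j v ≤ 1)
    (i j : Fin 3) (v : Fin n) (hij : j ≠ i)
    (h1 : 1 - 5 * ε ≤ A G e θ j (j + 1) v) (h2 : 1 - 5 * ε ≤ A G e θ j (j + 2) v) :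
    al G e θ i v ≤ 2 * ∑ m, ta G e θ m v ^ 2 +
      10 * ε * ((1 - A G e θ j (j + 1) v) + (1 - A G e θ j (j + 2) v)) := by
  have hs : ∀ m : Fin 3, ta G e θ m v ^ 2 ≤ ∑ m, ta G e θ m v ^ 2 := fun m =>
    Finset.single_le_sum (f := fun m => ta G e θ m v ^ 2) (fun _ _ => sq_nonneg _)
      (Finset.mem_univ m)
  rcases XCA_fin j i hij with rfl | rfl
  · have hT : ta G e θ (j + 2) v = A G e θ j (j + 2) v + A G e θ (j + 1) (j + 2) v - 1 := by
      unfold ta
      rw [XCA_e3, XCA_e4]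
    have h := XCA_real (A G e θ (j + 1) (j + 2) v) (A G e θ (j + 1) j v) (A G e θ j (j + 2) v)
      (A G e θ j (j + 1) v) (ta G e θ (j + 2) v) (∑ m, ta G e θ m v ^ 2) ε (hA _ _ _).1
      (hA _ _ _).1 (hA _ _ _).2 (hA _ _ _).2 h2 (hA _ _ _).2 hT (hs _)
    unfold al
    rw [XCA_e1, XCA_e2]
    linarith
  · have hT : ta G e θ (j + 1) v = A G e θ j (j + 1) v + A G e θ (j + 2) (j + 1) v - 1 := by
      unfold ta
      rw [XCA_e1, XCA_e2]
      ring
    have h := XCA_real (A G e θ (j + 2) (j + 1) v) (A G e θ (j + 2) j v) (A G e θ j (j + 1) v)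
      (A G e θ j (j + 2) v) (ta G e θ (j + 1) v) (∑ m, ta G e θ m v ^ 2) ε (hA _ _ _).1
      (hA _ _ _).1 (hA _ _ _).2 (hA _ _ _).2 h1 (hA _ _ _).2 hT (hs _)
    unfold al
    rw [XCA_e3, XCA_e4, mul_comm (A G e θ (j + 2) j v)]
    exact h

/-- Block XCA. -/
theorem stmt_XCA : Stmt_TAU → Stmt_SUM → Stmt_XCA := by
  intro hTAU hSUM n k G e θ ε t hE hI
  have hA := (hTAU n k G e θ hE.sit).1
  have hal1 : ∀ i v, al G e θ i v ≤ 1 := by
    intro i v
    unfold al
    have h1 := hA i (i + 1) v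
    have h2 := hA i (i + 2) v
    exact pow_le_one₀ (mul_nonneg h1.1 h2.1) (mul_le_one₀ h1.2 h2.1 h2.2)
  have he := hE.ep
  have he' := hE.ep'
  -- the outer sum
  have hout : ∀ i, ∑ v ∈ univ.filter (fun v => t v ≠ i), al G e θ i v ≤ 1 / 4 := by
    intro i
    have h1 : ∀ v ∈ univ.filter (fun v => t v ≠ i), al G e θ i v ≤
        2 * ∑ m, ta G e θ m v ^ 2 +
          10 * ε * ((1 - A G e θ (t v) (t v + 1) v) + (1 - A G e θ (t v) (t v + 2) v)) := by
      intro v hv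
      exact XCA_al hA i (t v) v (Finset.mem_filter.mp hv).2 (hI.1 v).1 (hI.1 v).2
    have h2 : ∑ v ∈ univ.filter (fun v => t v ≠ i), (2 * ∑ m, ta G e θ m v ^ 2 +
          10 * ε * ((1 - A G e θ (t v) (t v + 1) v) + (1 - A G e θ (t v) (t v + 2) v))) ≤
        ∑ v, (2 * ∑ m, ta G e θ m v ^ 2 +
          10 * ε * ((1 - A G e θ (t v) (t v + 1) v) + (1 - A G e θ (t v) (t v + 2) v))) := by
      apply Finset.sum_le_sum_of_subset_of_nonneg (Finset.filter_subset _ _)
      intro v _ _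
      have h3 : 0 ≤ ∑ m, ta G e θ m v ^ 2 := Finset.sum_nonneg (fun _ _ => sq_nonneg _)
      have h4 := (hA (t v) (t v + 1) v).2
      have h5 := (hA (t v) (t v + 2) v).2
      have h6 : 0 ≤ 10 * ε *
          ((1 - A G e θ (t v) (t v + 1) v) + (1 - A G e θ (t v) (t v + 2) v)) :=
        mul_nonneg (by linarith) (by linarith)
      linarith
    have h3 : ∑ v, (2 * ∑ m, ta G e θ m v ^ 2 +
          10 * ε * ((1 - A G e θ (t v) (t v + 1) v) + (1 - A G e θ (t v) (t v + 2) v))) =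
        2 * ∑ v, ∑ m, ta G e θ m v ^ 2 + 10 * ε *
          ∑ v, ((1 - A G e θ (t v) (t v + 1) v) + (1 - A G e θ (t v) (t v + 2) v)) := by
      rw [Finset.sum_add_distrib, Finset.mul_sum, Finset.mul_sum]
    have h4 := hE.tsq
    have h5 := hI.2
    have h6 : 10 * ε *
        ∑ v, ((1 - A G e θ (t v) (t v + 1) v) + (1 - A G e θ (t v) (t v + 2) v)) ≤
        10 * ε * (2 * ε) := mul_le_mul_of_nonneg_left h5 (by linarith)
    have h7 : 10 * ε * (2 * ε) ≤ 1 / 8 := by nlinarith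
    calc ∑ v ∈ univ.filter (fun v => t v ≠ i), al G e θ i v
        ≤ _ := Finset.sum_le_sum h1
      _ ≤ _ := h2
      _ = _ := h3
      _ ≤ 1 / 4 := by linarith
  -- upper bound
  have hup : ∀ i, gammaT (G (e i)) ≤ (univ.filter (fun v => t v = i)).card + 4 := by
    intro i
    have h1 := (hSUM n k G e θ hE.sit).2.1 i
    have h2 : ∑ v, al G e θ i v = ∑ v ∈ univ.filter (fun v => t v = i), al G e θ i v +
        ∑ v ∈ univ.filter (fun v => t v ≠ i), al G e θ i v :=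
      (Finset.sum_filter_add_sum_filter_not univ (fun v => t v = i) _).symm
    have h3 : ∑ v ∈ univ.filter (fun v => t v = i), al G e θ i v ≤
        ((univ.filter (fun v => t v = i)).card : ℝ) := by
      have := Finset.sum_le_card_nsmul (univ.filter (fun v => t v = i))
        (fun v => al G e θ i v) 1 (fun v _ => hal1 i v)
      simpa using this
    have h4 := hout i
    have h5 : (gammaT (G (e i)) : ℝ) <
        (((univ.filter (fun v => t v = i)).card + 4 + 1 : ℕ) : ℝ) := by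
      push_cast
      linarith
    have h6 : gammaT (G (e i)) < (univ.filter (fun v => t v = i)).card + 4 + 1 := by
      exact_mod_cast h5
    omega
  -- sizes
  have hcard : ∑ i : Fin 3, (univ.filter (fun v => t v = i)).card = n := by
    have h := Finset.card_eq_sum_card_fiberwise (s := (univ : Finset (Fin n)))
      (t := (univ : Finset (Fin 3))) (f := t) (fun v _ => Finset.mem_coe.mpr (Finset.mem_univ _))
    rw [Finset.card_univ, Fintype.card_fin] at h
    exact h.symm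
  have hsum := hE.sum
  have hsum' : n + 12 ≤ ∑ i : Fin 3, gammaT (G (e i)) := by
    unfold sg at hsum
    exact_mod_cast hsum
  rw [Fin.sum_univ_three] at hcard hsum'
  have u0 := hup 0
  have u1 := hup 1
  have u2 := hup 2
  intro i
  refine ⟨?_, (hout i).trans (by norm_num)⟩
  fin_cases i
  · show gammaT (G (e 0)) = (univ.filter (fun v => t v = 0)).card + 4
    omega
  · show gammaT (G (e 1)) = (univ.filter (fun v => t v = 1)).card + 4
    omega
  · show gammaT (G (e 2)) = (univ.filter (fun v => t v = 2)).card + 4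
    omega

end Pool.Agent.Work.MP_1ce445_fx
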