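import Pool.Agent.Work.MP_1ce445_fx.InterfaceQ
import Pool.Agent.Work.MP_1ce445_fx.SUM
import Pool.Agent.Work.MP_1ce445_fx.XCA

/-! Block XCQ (helper16): like `XCU.lean`, with `m` random vertices of each set. -/

namespace Pool.Agent.Work.MP_1ce445_fx

open Finset Pool.Agent.Work.MP_1ce445_co_56 Pool.Agent.Work.MP_1ce445_lin

theorem XCQ_real (m : ℕ) (a b c d T S ε : ℝ) (hm : 2 ≤ m) (ha : 0 ≤ a) (hb : 0 ≤ b) (hb1 : b ≤ 1)
    (hc : c ≤ 1) (hc5 : 1 - 5 * ε ≤ c) (hd : d ≤ 1) (hT : T = c + a - 1) (hT0 : 0 ≤ T)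
    (hS : T ^ m ≤ S) (hε : 5 * ε ≤ 1) :
    (a * b) ^ m ≤ 2 ^ m * (S + 5 * ε * ((1 - c) + (1 - d))) := by
  have he : 0 ≤ ε := by linarith
  have hc0 : 0 ≤ 1 - c := by linarith
  have h1 : (a * b) ^ m ≤ a ^ m := by
    have : a * b ≤ a := by nlinarith
    exact pow_le_pow_left₀ (mul_nonneg ha hb) this m
  have h2 : a ^ m ≤ 2 ^ m * (T ^ m + (1 - c) ^ m) := by
    have h3 : a = T + (1 - c) := by linarith
    have h4 : a ≤ 2 * max T (1 - c) := by
      have h5 := le_max_left T (1 - c)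
      have h6 := le_max_right T (1 - c)
      linarith
    have h7 : (max T (1 - c)) ^ m ≤ T ^ m + (1 - c) ^ m := by
      have p1 : 0 ≤ T ^ m := by positivity
      have p2 : 0 ≤ (1 - c) ^ m := by positivity
      rcases max_choice T (1 - c) with h | h
      · rw [h]
        linarith
      · rw [h]
        linarith
    calc a ^ m ≤ (2 * max T (1 - c)) ^ m := pow_le_pow_left₀ ha h4 m
      _ = 2 ^ m * (max T (1 - c)) ^ m := by rw [mul_pow]
      _ ≤ 2 ^ m * (T ^ m + (1 - c) ^ m) := by gcongr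
  have h3 : (1 - c) ^ m ≤ 5 * ε * (1 - c) := by
    obtain ⟨j, rfl⟩ : ∃ j, m = j + 2 := ⟨m - 2, by omega⟩
    have h4 : (1 - c) ^ j ≤ 1 := pow_le_one₀ hc0 (by linarith)
    have h5 : (1 - c) * (1 - c) ≤ 5 * ε * (1 - c) := by
      apply mul_le_mul_of_nonneg_right _ hc0
      linarith
    calc (1 - c) ^ (j + 2) = (1 - c) ^ j * ((1 - c) * (1 - c)) := by ring
      _ ≤ 1 * ((1 - c) * (1 - c)) := by gcongr
      _ ≤ 5 * ε * (1 - c) := by linarith
  have h4 : 0 ≤ 5 * ε * (1 - d) := mul_nonneg (by linarith) (by linarith)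
  calc (a * b) ^ m ≤ a ^ m := h1
    _ ≤ 2 ^ m * (T ^ m + (1 - c) ^ m) := h2
    _ ≤ 2 ^ m * (S + 5 * ε * ((1 - c) + (1 - d))) := by
        refine mul_le_mul_of_nonneg_left ?_ (by positivity)
        linarith

theorem XCQ_am {n k : ℕ} {G : Fin k → SimpleGraph (Fin n)} {e : Fin 3 → Fin k} {θ ε : ℝ} (m : ℕ)
    (hm : 2 ≤ m) (hA : ∀ i j v, 0 ≤ A G e θ i j v ∧ A G e θ i j v ≤ 1)
    (ht : ∀ j v, 0 ≤ ta G e θ j v) (hε : 5 * ε ≤ 1)
    (i j : Fin 3) (v : Fin n) (hij : j ≠ i)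
    (h1 : 1 - 5 * ε ≤ A G e θ j (j + 1) v) (h2 : 1 - 5 * ε ≤ A G e θ j (j + 2) v) :
    am G e θ m i v ≤ 2 ^ m * (∑ s, ta G e θ s v ^ m +
      5 * ε * ((1 - A G e θ j (j + 1) v) + (1 - A G e θ j (j + 2) v))) := by
  have hs : ∀ s : Fin 3, ta G e θ s v ^ m ≤ ∑ s, ta G e θ s v ^ m := fun s =>
    Finset.single_le_sum (f := fun s => ta G e θ s v ^ m) (fun r _ => pow_nonneg (ht r v) m)
      (Finset.mem_univ s)
  rcases XCA_fin j i hij with rfl | rfl
  · have hT : ta G e θ (j + 2) v = A G e θ j (j + 2) v + A G e θ (j + 1) (j + 2) v - 1 := by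
      unfold ta
      rw [XCA_e3, XCA_e4]
    have h := XCQ_real m (A G e θ (j + 1) (j + 2) v) (A G e θ (j + 1) j v) (A G e θ j (j + 2) v)
      (A G e θ j (j + 1) v) (ta G e θ (j + 2) v) (∑ s, ta G e θ s v ^ m) ε hm (hA _ _ _).1
      (hA _ _ _).1 (hA _ _ _).2 (hA _ _ _).2 h2 (hA _ _ _).2 hT (ht _ _) (hs _) hε
    unfold am
    rw [XCA_e1, XCA_e2, add_comm (1 - A G e θ j (j + 1) v)]
    exact h
  · have hT : ta G e θ (j + 1) v = A G e θ j (j + 1) v + A G e θ (j + 2) (j + 1) v - 1 := by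
      unfold ta
      rw [XCA_e1, XCA_e2]
      ring
    have h := XCQ_real m (A G e θ (j + 2) (j + 1) v) (A G e θ (j + 2) j v) (A G e θ j (j + 1) v)
      (A G e θ j (j + 2) v) (ta G e θ (j + 1) v) (∑ s, ta G e θ s v ^ m) ε hm (hA _ _ _).1
      (hA _ _ _).1 (hA _ _ _).2 (hA _ _ _).2 h1 (hA _ _ _).2 hT (ht _ _) (hs _) hε
    unfold am
    rw [XCA_e3, XCA_e4, mul_comm (A G e θ (j + 2) j v)]
    exact h

/-- XCM and XCQ at once, with the fields of `ExtM` / `ExtQ` that are used. -/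
theorem XCQ_gen (hSPM : Stmt_SPM) (hTAU : Stmt_TAU) (m n k : ℕ) (G : Fin k → SimpleGraph (Fin n))
    (e : Fin 3 → Fin k) (θ ε : ℝ) (t : Fin n → Fin 3) (hm : 2 ≤ m) (hsit : Sit G e θ)
    (he : 0 < ε) (he' : 1000 * 100 ^ m * ε ≤ 1) (hsm : (n : ℝ) + 6 * m ≤ sg G e)
    (htsm : ∑ v, ∑ i, ta G e θ i v ^ m ≤ ε) (hI : IsTyp G e θ ε t) (i : Fin 3) :
    gammaT (G (e i)) = (univ.filter (fun v => t v = i)).card + 2 * m ∧
    ∑ v ∈ univ.filter (fun v => t v ≠ i), am G e θ m i v ≤ 1 / 2 := by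
  obtain ⟨hA, hta⟩ := hTAU n k G e θ hsit
  have ht : ∀ j v, 0 ≤ ta G e θ j v := fun j v => (hta j v).1
  have h2m : (2 : ℝ) ^ m * ε ≤ 1 / 1000 := by
    have h1 : (2 : ℝ) ^ m ≤ 100 ^ m := pow_le_pow_left₀ (by norm_num) (by norm_num) m
    have h2 : (2 : ℝ) ^ m * ε ≤ 100 ^ m * ε := mul_le_mul_of_nonneg_right h1 he.le
    linarith
  have hε1 : ε ≤ 1 / 1000 := by
    have h1 : (1 : ℝ) ≤ 2 ^ m := one_le_pow₀ (by norm_num)
    have h2 : 1 * ε ≤ 2 ^ m * ε := mul_le_mul_of_nonneg_right h1 he.le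
    linarith
  have ham1 : ∀ i v, am G e θ m i v ≤ 1 := by
    intro i v
    unfold am
    have h1 := hA i (i + 1) v
    have h2 := hA i (i + 2) v
    exact pow_le_one₀ (mul_nonneg h1.1 h2.1) (mul_le_one₀ h1.2 h2.1 h2.2)
  -- the outer sum
  have hout : ∀ i, ∑ v ∈ univ.filter (fun v => t v ≠ i), am G e θ m i v ≤ 1 / 4 := by
    intro i
    have h1 : ∀ v ∈ univ.filter (fun v => t v ≠ i), am G e θ m i v ≤
        2 ^ m * (∑ s, ta G e θ s v ^ m +
          5 * ε * ((1 - A G e θ (t v) (t v + 1) v) + (1 - A G e θ (t v) (t v + 2) v))) := by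
      intro v hv
      exact XCQ_am m hm hA ht (by linarith) i (t v) v (Finset.mem_filter.mp hv).2 (hI.1 v).1
        (hI.1 v).2
    have h2 : ∑ v ∈ univ.filter (fun v => t v ≠ i), (2 ^ m * (∑ s, ta G e θ s v ^ m +
          5 * ε * ((1 - A G e θ (t v) (t v + 1) v) + (1 - A G e θ (t v) (t v + 2) v)))) ≤
        ∑ v, (2 ^ m * (∑ s, ta G e θ s v ^ m +
          5 * ε * ((1 - A G e θ (t v) (t v + 1) v) + (1 - A G e θ (t v) (t v + 2) v)))) := by
      apply Finset.sum_le_sum_of_subset_of_nonneg (Finset.filter_subset _ _)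
      intro v _ _
      have h3 : 0 ≤ ∑ s, ta G e θ s v ^ m := Finset.sum_nonneg (fun s _ => pow_nonneg (ht s v) m)
      have h4 := (hA (t v) (t v + 1) v).2
      have h5 := (hA (t v) (t v + 2) v).2
      have h6 : 0 ≤ 5 * ε *
          ((1 - A G e θ (t v) (t v + 1) v) + (1 - A G e θ (t v) (t v + 2) v)) :=
        mul_nonneg (by linarith) (by linarith)
      positivity
    have h3 : ∑ v, (2 ^ m * (∑ s, ta G e θ s v ^ m +
          5 * ε * ((1 - A G e θ (t v) (t v + 1) v) + (1 - A G e θ (t v) (t v + 2) v)))) =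
        2 ^ m * (∑ v, ∑ s, ta G e θ s v ^ m + 5 * ε *
          ∑ v, ((1 - A G e θ (t v) (t v + 1) v) + (1 - A G e θ (t v) (t v + 2) v))) := by
      rw [← Finset.mul_sum, Finset.sum_add_distrib, ← Finset.mul_sum]
    have h5 := hI.2
    have h6 : 5 * ε *
        ∑ v, ((1 - A G e θ (t v) (t v + 1) v) + (1 - A G e θ (t v) (t v + 2) v)) ≤
        5 * ε * (2 * ε) := mul_le_mul_of_nonneg_left h5 (by linarith)
    have h7 : 5 * ε * (2 * ε) ≤ ε := by nlinarith
    calc ∑ v ∈ univ.filter (fun v => t v ≠ i), am G e θ m i v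
        ≤ _ := Finset.sum_le_sum h1
      _ ≤ _ := h2
      _ = _ := h3
      _ ≤ 2 ^ m * (ε + ε) := by
          refine mul_le_mul_of_nonneg_left ?_ (by positivity)
          linarith
      _ ≤ 1 / 4 := by linarith
  -- upper bound
  have hup : ∀ i, gammaT (G (e i)) ≤ (univ.filter (fun v => t v = i)).card + 2 * m := by
    intro i
    have h1 : (gammaT (G (e i)) : ℝ) ≤ 2 * m + ∑ v, am G e θ m i v := by
      have h := hSPM n m (G (e i)) (low (G (e (i + 1))) θ) (low (G (e (i + 2))) θ) ∅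
        (fun v => hsit.fac.minDeg (e i) v) (SUM_ne hsit _) (SUM_ne hsit _)
      rw [SUM_emp] at h
      simpa [am, A] using h
    have h2 : ∑ v, am G e θ m i v = ∑ v ∈ univ.filter (fun v => t v = i), am G e θ m i v +
        ∑ v ∈ univ.filter (fun v => t v ≠ i), am G e θ m i v :=
      (Finset.sum_filter_add_sum_filter_not univ (fun v => t v = i) _).symm
    have h3 : ∑ v ∈ univ.filter (fun v => t v = i), am G e θ m i v ≤
        ((univ.filter (fun v => t v = i)).card : ℝ) := by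
      have := Finset.sum_le_card_nsmul (univ.filter (fun v => t v = i))
        (fun v => am G e θ m i v) 1 (fun v _ => ham1 i v)
      simpa using this
    have h4 := hout i
    have h5 : (gammaT (G (e i)) : ℝ) <
        (((univ.filter (fun v => t v = i)).card + 2 * m + 1 : ℕ) : ℝ) := by
      push_cast
      linarith
    have h6 : gammaT (G (e i)) < (univ.filter (fun v => t v = i)).card + 2 * m + 1 := by
      exact_mod_cast h5
    omega
  -- sizes
  have hcard : ∑ i : Fin 3, (univ.filter (fun v => t v = i)).card = n := by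
    have h := Finset.card_eq_sum_card_fiberwise (s := (univ : Finset (Fin n)))
      (t := (univ : Finset (Fin 3))) (f := t) (fun v _ => Finset.mem_coe.mpr (Finset.mem_univ _))
    rw [Finset.card_univ, Fintype.card_fin] at h
    exact h.symm
  have hsum' : n + 6 * m ≤ ∑ i : Fin 3, gammaT (G (e i)) := by
    unfold sg at hsm
    exact_mod_cast hsm
  rw [Fin.sum_univ_three] at hcard hsum'
  have u0 := hup 0
  have u1 := hup 1
  have u2 := hup 2
  refine ⟨?_, (hout i).trans (by norm_num)⟩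
  fin_cases i
  · show gammaT (G (e 0)) = (univ.filter (fun v => t v = 0)).card + 2 * m
    omega
  · show gammaT (G (e 1)) = (univ.filter (fun v => t v = 1)).card + 2 * m
    omega
  · show gammaT (G (e 2)) = (univ.filter (fun v => t v = 2)).card + 2 * m
    omega

/-- Block XCQ. -/
theorem stmt_XCQ : Stmt_SPM → Stmt_TAU → Stmt_XCQ := by
  intro hSPM hTAU m n k G e θ ε t hE hI i
  exact XCQ_gen hSPM hTAU m n k G e θ ε t hE.m2 hE.sit hE.ep hE.ep' hE.sum hE.tsm hI i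

end Pool.Agent.Work.MP_1ce445_fx
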