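import Pool.Agent.Work.MP_1ce445_fx.AsmF
import Pool.Agent.Work.MP_1ce445_fx.LOU
import Pool.Agent.Work.MP_1ce445_fx.LOM
import Pool.Agent.Work.MP_1ce445_fx.LOQ
import Pool.Agent.Work.MP_1ce445_fx.LAY
import Pool.Agent.Work.MP_1ce445_fx.MAT
import Pool.Agent.Work.MP_1ce445_fx.CN1
import Pool.Agent.Work.MP_1ce445_fx.CN2
import Pool.Agent.Work.MP_1ce445_fx.CN3
import Pool.Agent.Work.MP_1ce445_fx.CO1
import Pool.Agent.Work.MP_1ce445_fx.CLN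
import Pool.Agent.Work.MP_1ce445_fx.NUN
import Pool.Agent.Work.MP_1ce445_fx.CV2
import Pool.Agent.Work.MP_1ce445_fx.TAU
import Pool.Agent.Work.MP_1ce445_fx.DG2
import Pool.Agent.Work.MP_1ce445_fx.CR3
import Pool.Agent.Work.MP_1ce445_fx.S3S
import Pool.Agent.Work.MP_1ce445_fx.STU
import Pool.Agent.Work.MP_1ce445_fx.SPM
import Pool.Agent.Work.MP_1ce445_fx.CVM
import Pool.Agent.Work.MP_1ce445_fx.SMM
import Pool.Agent.Work.MP_1ce445_fx.SQM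
import Pool.Agent.Work.MP_1ce445_fx.TSM
import Pool.Agent.Work.MP_1ce445_fx.ADM
import Pool.Agent.Work.MP_1ce445_fx.PRM
import Pool.Agent.Work.MP_1ce445_fx.DIG
import Pool.Agent.Work.MP_1ce445_fx.MTX
import Pool.Agent.Work.MP_1ce445_fx.LBL
import Pool.Agent.Work.MP_1ce445_fx.LBLS
import Pool.Agent.Work.MP_1ce445_fx.GM1
import Pool.Agent.Work.MP_1ce445_fx.GM2
import Pool.Agent.Work.MP_1ce445_fx.CNM
import Pool.Agent.Work.MP_1ce445_fx.GM3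
import Pool.Agent.Work.MP_1ce445_fx.GO1
import Pool.Agent.Work.MP_1ce445_fx.GO2
import Pool.Agent.Work.MP_1ce445_fx.GO3
import Pool.Agent.Work.MP_1ce445_fx.CNO
import Pool.Agent.Work.MP_1ce445_fx.TYQ
import Pool.Agent.Work.MP_1ce445_fx.XCQ
import Pool.Agent.Work.MP_1ce445_fx.DSQ
import Pool.Agent.Work.MP_1ce445_fx.YXQ
import Pool.Agent.Work.MP_1ce445_fx.BAQ
import Pool.Agent.Work.MP_1ce445_fx.OUQ
import Pool.Agent.Work.MP_1ce445_fx.PAQ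
import Pool.Agent.Work.MP_1ce445_fx.MXQ
import Pool.Agent.Work.MP_1ce445_fx.PQ1
import Pool.Agent.Work.MP_1ce445_fx.UUQ

/-!
The staircase theorem without hypotheses.
-/

namespace Pool.Agent.Work.MP_1ce445_fx

open Finset Pool.Agent.Work.MP_1ce445_co_56 Pool.Agent.Work.MP_1ce445_lin

theorem End_SMM : Stmt_SMM := stmt_SMM stmt_SPM stmt_CVM stmt_TAU
theorem End_SQM : Stmt_SQM := stmt_SQM stmt_DG2
theorem End_TSM : Stmt_TSM := stmt_TSM stmt_TAU End_SQM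
theorem End_ADM : Stmt_ADM := stmt_ADM End_SMM End_TSM
theorem End_STU : Stmt_STU := stmt_STU stmt_CR3 stmt_S3S
theorem End_LBL : Stmt_LBL := stmt_LBL stmt_DIG
theorem End_LBLS : Stmt_LBLS := stmt_LBLS stmt_DIG
theorem End_GM2 : Stmt_GM2 := stmt_GM2 stmt_GM1
theorem End_GM3 : Stmt_GM3 := stmt_GM3 stmt_CNM stmt_GM1
theorem End_LOM : Stmt_LOM := stmt_LOM stmt_MTX End_LBL stmt_GM1 End_GM2 End_GM3 stmt_CLN
theorem End_CNO : Stmt_CNO := stmt_CNO stmt_CNM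
theorem End_LOQ : Stmt_LOQ := stmt_LOQ stmt_MTX End_LBLS stmt_GO1 (stmt_GO2 stmt_GO1)
  (stmt_GO3 stmt_GO1) End_CNO End_LOM
theorem End_XCQ : Stmt_XCQ := stmt_XCQ stmt_SPM stmt_TAU
theorem End_YXQ : Stmt_YXQ := stmt_YXQ stmt_TAU
theorem End_BAQ : Stmt_BAQ := stmt_BAQ stmt_TAU End_XCQ End_YXQ
theorem End_PAQ : Stmt_PAQ := stmt_PAQ (stmt_TYQ stmt_CV2 stmt_TAU End_SMM) End_XCQ
  (stmt_DSQ End_XCQ) (stmt_OUQ stmt_TAU End_YXQ End_BAQ)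
theorem End_MXQ : Stmt_MXQ := stmt_MXQ stmt_TAU stmt_DG2 End_SMM End_TSM
theorem End_UUQ : Stmt_UUQ := stmt_UUQ End_STU End_ADM End_MXQ End_PAQ stmt_NUN stmt_PRM stmt_PQ1
theorem End_CN2 : Stmt_CN2 := stmt_CN2 stmt_CN1
theorem End_CN3 : Stmt_CN3 := stmt_CN3 stmt_CN1
theorem End_CON : Stmt_CON := stmt_CON stmt_CN1 End_CN2 End_CN3
theorem End_LOU : Stmt_LOU := stmt_LOU stmt_LAY stmt_MAT End_CON stmt_CLN

theorem finalA : FinalA := AsmF_final End_UUQ End_LOM End_LOQ End_LOU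

theorem finalMax (m n : ℕ) : IsGreatest {p : ℕ | ∃ a b c : ℕ, a + b + c = 2 * (n / 2) + 6 * m ∧
    (n % 2 = 0 → Even a ∧ Even b ∧ Even c) ∧ p = a * b * c} (EV m n) := AsmF_max stmt_NUN m n

end Pool.Agent.Work.MP_1ce445_fx
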