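import Pool.Agent.Work.MP_1ce445_fx.InterfaceS
import Pool.Agent.Work.MP_1ce445_fx.GM1

/-!
Block GS1 of the STAIRCASES at `1 - 1/M` for MP_1ce445_co: the construction is a factorization.
-/

namespace Pool.Agent.Work.MP_1ce445_fx

open Finset Pool.Agent.Work.MP_1ce445_co_56 Pool.Agent.Work.MP_1ce445_lin

section GS1

variable {M q : ℕ} {χ : VS M q → VS M q → Fin ((2 * M - 2) * q)} {L : Finset (ZMod (2 * q - 1))}
  {s : Fin M → ZMod (2 * q - 1)}

lemma GS1_adjc (hχ : Crs M q χ) (c : Fin ((2 * M - 2) * q)) (u v : VS M q) :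
    (GS χ L s (Sum.inl c)).Adj u v ↔ u.1 ≠ v.1 ∧ χ u v = c := by
  unfold GS
  rw [SimpleGraph.fromRel_adj]
  constructor
  · rintro ⟨_, h | h⟩
    · exact h
    · exact ⟨fun e => h.1 e.symm, (hχ.sym u v).trans h.2⟩
  · intro h
    exact ⟨fun e => h.1 (by rw [e]), Or.inl h⟩

lemma GS1_adjl (l : L) (u v : VS M q) :
    (GS χ L s (Sum.inr (Sum.inl l))).Adj u v ↔ u ≠ v ∧ u.1 = v.1 ∧ lbl u.2 v.2 = l.1 := by
  unfold GS
  rw [SimpleGraph.fromRel_adj]
  constructor
  · rintro ⟨hne, h | h⟩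
    · exact ⟨hne, h⟩
    · exact ⟨hne, h.1.symm, (GM1_lbl_symm u.2 v.2).trans h.2⟩
  · rintro ⟨hne, h⟩
    exact ⟨hne, Or.inl h⟩

lemma GS1_adjs (j : Fin M) (u v : VS M q) :
    (GS χ L s (Sum.inr (Sum.inr j))).Adj u v ↔ u ≠ v ∧ u.1 = v.1 ∧ lbl u.2 v.2 ∉ L ∧
      (lbl u.2 v.2 = s j ∨ ((∀ j', lbl u.2 v.2 ≠ s j') ∧ u.1 = j)) := by
  unfold GS
  rw [SimpleGraph.fromRel_adj]
  constructor
  · rintro ⟨hne, h | h⟩
    · exact ⟨hne, h⟩
    · refine ⟨hne, h.1.symm, ?_⟩
      rw [GM1_lbl_symm u.2 v.2, ← h.1]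
      exact h.2
  · rintro ⟨hne, h⟩
    exact ⟨hne, Or.inl h⟩

/-- every vertex has a partner of given label -/
lemma GS1_ex (hq : 1 ≤ q) (l : ZMod (2 * q - 1)) (u : Option (ZMod (2 * q - 1))) :
    ∃ v, u ≠ v ∧ lbl u v = l := by
  by_cases hl : l = 0
  · subst hl
    exact GM1_ex0 hq u
  · exact GM1_exl hq l hl u

/-- the partner of given label is unique -/
lemma GS1_un (hq : 1 ≤ q) {u v w : Option (ZMod (2 * q - 1))} (hv : u ≠ v) (hw : u ≠ w)
    (h : lbl u v = lbl u w) : v = w := by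
  cases u with
  | none =>
    cases v with
    | none => exact absurd rfl hv
    | some y =>
      cases w with
      | none => exact absurd rfl hw
      | some z => rw [GM1_dbl hq (h : y + y = z + z)]
  | some x =>
    cases v with
    | none =>
      cases w with
      | none => rfl
      | some z => exact absurd (by rw [add_left_cancel (h : x + x = x + z)]) hw
    | some y =>
      cases w with
      | none => exact absurd (by rw [add_left_cancel (h : x + y = x + x)]) hv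
      | some z => rw [add_left_cancel (h : x + y = x + z)]

end GS1

theorem stmt_GS1 : Stmt_GS1 := by
  intro M q χ L s hM hq hχ hs hsL
  have hq1 : 1 ≤ q := by omega
  refine IsFactorization.of_adj ?_ ?_ ?_
  · intro i i' v w h1 h2
    rcases i with c | l | j
    · rw [GS1_adjc hχ] at h1
      rcases i' with c' | l' | j'
      · rw [GS1_adjc hχ] at h2
        exact congrArg Sum.inl (h1.2.symm.trans h2.2)
      · rw [GS1_adjl] at h2
        exact absurd h2.2.1 h1.1
      · rw [GS1_adjs] at h2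
        exact absurd h2.2.1 h1.1
    · rw [GS1_adjl] at h1
      rcases i' with c' | l' | j'
      · rw [GS1_adjc hχ] at h2
        exact absurd h1.2.1 h2.1
      · rw [GS1_adjl] at h2
        exact congrArg _ (congrArg Sum.inl (Subtype.ext (h1.2.2.symm.trans h2.2.2)))
      · rw [GS1_adjs] at h2
        exact absurd (h1.2.2 ▸ l.2) h2.2.2.1
    · rw [GS1_adjs] at h1
      rcases i' with c' | l' | j'
      · rw [GS1_adjc hχ] at h2
        exact absurd h1.2.1 h2.1
      · rw [GS1_adjl] at h2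
        exact absurd (h2.2.2 ▸ l'.2) h1.2.2.1
      · rw [GS1_adjs] at h2
        have hj : j = j' := by
          rcases h1.2.2.2 with a | a
          · rcases h2.2.2.2 with b | b
            · exact hs (a.symm.trans b)
            · exact absurd a (b.1 j)
          · rcases h2.2.2.2 with b | b
            · exact absurd b (a.1 j')
            · exact a.2.symm.trans b.2
        rw [hj]
  · intro v w hvw
    by_cases h : v.1 = w.1
    · by_cases hL : lbl v.2 w.2 ∈ L
      · exact ⟨Sum.inr (Sum.inl ⟨_, hL⟩), (GS1_adjl _ _ _).2 ⟨hvw, h, rfl⟩⟩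
      · by_cases hj : ∃ j, lbl v.2 w.2 = s j
        · obtain ⟨j, hj⟩ := hj
          exact ⟨Sum.inr (Sum.inr j), (GS1_adjs _ _ _).2 ⟨hvw, h, hL, Or.inl hj⟩⟩
        · push Not at hj
          exact ⟨Sum.inr (Sum.inr v.1), (GS1_adjs _ _ _).2 ⟨hvw, h, hL, Or.inr ⟨hj, rfl⟩⟩⟩
    · exact ⟨Sum.inl (χ v w), (GS1_adjc hχ _ _ _).2 ⟨h, rfl⟩⟩
  · intro i u
    rcases i with c | l | j
    · obtain ⟨v, h1, h2⟩ := hχ.ex u c
      exact ⟨v, (GS1_adjc hχ _ _ _).2 ⟨fun e => h1 e.symm, h2⟩⟩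
    · obtain ⟨v, hne, hv⟩ := GS1_ex hq1 l.1 u.2
      exact ⟨(u.1, v), (GS1_adjl _ _ _).2 ⟨fun e => hne (congrArg Prod.snd e), rfl, hv⟩⟩
    · obtain ⟨v, hne, hv⟩ := GS1_ex hq1 (s j) u.2
      exact ⟨(u.1, v), (GS1_adjs _ _ _).2 ⟨fun e => hne (congrArg Prod.snd e), rfl,
        by rw [hv]; exact hsL j, Or.inl hv⟩⟩

end Pool.Agent.Work.MP_1ce445_fx
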