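import Pool.Agent.Work.MP_1ce445_fx.InterfaceS
import Pool.Agent.Work.MP_1ce445_fx.GS1

/-!
Block GS2 of the STAIRCASES at `1 - 1/M` for MP_1ce445_co: the ordinary colours are perfect matchings, so their total
domination number is the number of the vertices.
-/

namespace Pool.Agent.Work.MP_1ce445_fx

open Finset Pool.Agent.Work.MP_1ce445_co_56 Pool.Agent.Work.MP_1ce445_lin

section GS2

variable {M q : ℕ}

lemma GS2_card [NeZero (2 * q - 1)] (hq : 2 ≤ q) : Fintype.card (VS M q) = 2 * M * q := by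
  rw [Fintype.card_prod, Fintype.card_fin, Fintype.card_option, ZMod.card]
  have h : 2 * q - 1 + 1 = 2 * q := by omega
  rw [h]
  ring

/-- a graph in which every vertex has exactly one neighbour -/
lemma GS2_match {V : Type} [Fintype V] [DecidableEq V] (H : SimpleGraph V)
    (hmin : ∀ v, ∃ w, H.Adj v w) (hun : ∀ v w w', H.Adj v w → H.Adj v w' → w = w') :
    Fintype.card V ≤ gammaT H := by
  choose g hg using hmin
  have hinv : Function.LeftInverse g g := by
    intro v
    exact hun (g v) (g (g v)) v (hg (g v)) (hg v).symm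
  exact card_le_gammaT (G := H) (fun v => ⟨g v, hg v⟩) (id : V → V) g hinv.injective
    (fun v w h => hun v w (g v) h (hg v))

end GS2

theorem stmt_GS2 : Stmt_GS1 → Stmt_GS2 := by
  intro hGS1 M q χ L s hM hq hχ hs hsL
  have hq1 : 1 ≤ q := by omega
  haveI : NeZero (2 * q - 1) := ⟨by omega⟩
  have hF := hGS1 M q χ L s hM hq hχ hs hsL
  constructor
  · intro c
    rw [← GS2_card (M := M) hq]
    refine GS2_match _ (hF.minDeg (Sum.inl c)) ?_
    intro v w w' h1 h2
    rw [GS1_adjc hχ] at h1 h2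
    exact hχ.un v w w' (fun e => h1.1 e.symm) (fun e => h2.1 e.symm) (h1.2.trans h2.2.symm)
  · intro l
    rw [← GS2_card (M := M) hq]
    refine GS2_match _ (hF.minDeg (Sum.inr (Sum.inl l))) ?_
    intro v w w' h1 h2
    rw [GS1_adjl] at h1 h2
    have e1 : v.2 ≠ w.2 := fun e => h1.1 (Prod.ext h1.2.1 e)
    have e2 : v.2 ≠ w'.2 := fun e => h2.1 (Prod.ext h2.2.1 e)
    exact Prod.ext (h1.2.1.symm.trans h2.2.1)
      (GS1_un hq1 e1 e2 (h1.2.2.trans h2.2.2.symm))

end Pool.Agent.Work.MP_1ce445_fx
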