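import Pool.Agent.Work.MP_1ce445_fx.InterfaceS
import Pool.Agent.Work.MP_1ce445_fx.GM2

/-! Block GS3 (helper17). -/

namespace Pool.Agent.Work.MP_1ce445_fx

open Finset Pool.Agent.Work.MP_1ce445_co_56 Pool.Agent.Work.MP_1ce445_lin

lemma GS3_adj {M q : ℕ} {χ : VS M q → VS M q → Fin ((2 * M - 2) * q)}
    {L : Finset (ZMod (2 * q - 1))} {s : Fin M → ZMod (2 * q - 1)} {j : Fin M} {u v : VS M q}
    (h : (GS χ L s (Sum.inr (Sum.inr j))).Adj u v) :
    u ≠ v ∧ u.1 = v.1 ∧ lbl u.2 v.2 ∉ L ∧ (lbl u.2 v.2 = s j ∨ u.1 = j) := by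
  unfold GS at h
  rw [SimpleGraph.fromRel_adj] at h
  obtain ⟨h0, h1 | h1⟩ := h
  · obtain ⟨a, b, c⟩ := h1
    refine ⟨h0, a, b, ?_⟩
    rcases c with c | c
    · exact Or.inl c
    · exact Or.inr c.2
  · obtain ⟨a, b, c⟩ := h1
    rw [GM2_symm v.2 u.2] at b c
    refine ⟨h0, a.symm, b, ?_⟩
    rcases c with c | c
    · exact Or.inl c
    · exact Or.inr (a.symm.trans c.2)

theorem stmt_GS3 : Stmt_GS1 → Stmt_GS3 := by
  classical
  intro hGS1 M q r χ L s hM hq hχ hs hsL hr hgood j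
  have hq1 : 1 ≤ q := by omega
  haveI : NeZero (2 * q - 1) := ⟨by omega⟩
  have hF := hGS1 M q χ L s hM hq hχ hs hsL
  set H : SimpleGraph (VS M q) := GS χ L s (Sum.inr (Sum.inr j)) with hH
  obtain ⟨S, hS, hc⟩ := exists_tds (G := H) (hF.minDeg (Sum.inr (Sum.inr j)))
  rw [← hc]
  -- the vertices outside part `j` are in `S`
  have hout : ∀ v : VS M q, v.1 ≠ j → v ∈ S := by
    intro v hv
    obtain ⟨w, hw, hadj⟩ := hS (v.1, GM2_g (s j) v.2)
    obtain ⟨h0, h1, h2, h3⟩ := GS3_adj hadj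
    have h1' : v.1 = w.1 := h1
    have h4 : lbl (GM2_g (s j) v.2) w.2 = s j := by
      rcases h3 with h3 | h3
      · exact h3
      · exact absurd h3 hv
    have h5 : GM2_g (s j) v.2 ≠ w.2 := by
      intro h5
      apply h0
      exact Prod.ext h1' h5
    have h6 := GM2_eq hq1 (s j) _ _ h5 h4
    rw [GM2_invol hq1] at h6
    have h7 : w = v := Prod.ext h1'.symm h6
    rw [← h7]
    exact hw
  set T : Finset (Option (ZMod (2 * q - 1))) := univ.filter (fun x => (j, x) ∈ S) with hT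
  have hTr : r ≤ T.card := by
    by_contra hlt
    rw [not_le] at hlt
    obtain ⟨x, -, -, hxT, hx⟩ := hgood.2 T 0 0 (by omega)
    obtain ⟨w, hw, hadj⟩ := hS (j, x)
    obtain ⟨h0, h1, h2, h3⟩ := GS3_adj hadj
    have h1' : j = w.1 := h1
    have hwT : w.2 ∈ T := by
      rw [hT, mem_filter]
      refine ⟨mem_univ _, ?_⟩
      rw [h1']
      exact hw
    exact h2 (hx w.2 hwT)
  have hsub : ((univ.erase j) ×ˢ (univ : Finset (Option (ZMod (2 * q - 1))))) ∪
      T.image (fun x => ((j, x) : VS M q)) ⊆ S := by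
    intro v hv
    rw [mem_union] at hv
    rcases hv with hv | hv
    · rw [mem_product, mem_erase] at hv
      exact hout v hv.1.1
    · rw [mem_image] at hv
      obtain ⟨x, hx, rfl⟩ := hv
      exact (mem_filter.1 hx).2
  have hdis : Disjoint ((univ.erase j) ×ˢ (univ : Finset (Option (ZMod (2 * q - 1)))))
      (T.image (fun x => ((j, x) : VS M q))) := by
    rw [Finset.disjoint_left]
    intro v hv hv'
    rw [mem_product, mem_erase] at hv
    rw [mem_image] at hv'
    obtain ⟨x, -, rfl⟩ := hv'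
    exact hv.1.1 rfl
  have hcard := card_le_card hsub
  rw [card_union_of_disjoint hdis, card_product, card_erase_of_mem (mem_univ _), card_univ,
    card_univ, Fintype.card_fin, Fintype.card_option, ZMod.card,
    card_image_of_injective _ (fun x y h => (Prod.ext_iff.1 h).2)] at hcard
  have h8 : 2 * q - 1 + 1 = 2 * q := by omega
  rw [h8] at hcard
  have h9 : 2 * (M - 1) * q = (M - 1) * (2 * q) := by ring
  rw [h9]
  omega

end Pool.Agent.Work.MP_1ce445_fx
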