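import Pool.Agent.Work.MP_1ce445_fx.InterfaceS

/-!
Block SCR: a one-factorization of the complete multipartite graph with `M` parts of `2 q` vertices (helper58).
-/

namespace Pool.Agent.Work.MP_1ce445_fx

open Finset Pool.Agent.Work.MP_1ce445_co_56 Pool.Agent.Work.MP_1ce445_lin

/-- the one-factorization of the complete graph on `Option (ZMod N)`, `N` odd -/
def SCR_a {N : ℕ} : Option (ZMod N) → Option (ZMod N) → ZMod N
  | none, none => 0
  | none, some u => u + u
  | some u, none => u + u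
  | some u, some v => u + v

lemma SCR_a_symm {N : ℕ} (x y : Option (ZMod N)) : SCR_a x y = SCR_a y x := by
  cases x <;> cases y <;> simp [SCR_a, add_comm]

lemma SCR_half {N : ℕ} {m : ℕ} (h : 2 * m = N + 1) (u : ZMod N) :
    (m : ZMod N) * (u + u) = u := by
  have h1 : ((2 * m : ℕ) : ZMod N) = ((N + 1 : ℕ) : ZMod N) := by rw [h]
  have h2 : (2 : ZMod N) * (m : ZMod N) = 1 := by
    have h3 := h1
    push_cast at h3
    rw [h3, ZMod.natCast_self, zero_add]
  linear_combination u * h2

lemma SCR_a_ex {N : ℕ} {m : ℕ} (h : 2 * m = N + 1) (x : Option (ZMod N)) (a : ZMod N) :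
    ∃ y, y ≠ x ∧ SCR_a x y = a := by
  cases x with
  | none =>
    refine ⟨some ((m : ZMod N) * a), by simp, ?_⟩
    have h1 := SCR_half h a
    show (m : ZMod N) * a + (m : ZMod N) * a = a
    linear_combination h1
  | some u =>
    by_cases hu : a = u + u
    · exact ⟨none, by simp, by rw [hu]; rfl⟩
    · refine ⟨some (a - u), ?_, ?_⟩
      · intro h1
        apply hu
        have h2 := Option.some.inj h1
        linear_combination h2
      · show u + (a - u) = a
        ring

lemma SCR_a_un {N : ℕ} {m : ℕ} (h : 2 * m = N + 1) (x y z : Option (ZMod N)) (hy : y ≠ x)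
    (hz : z ≠ x) (hyz : SCR_a x y = SCR_a x z) : y = z := by
  cases x with
  | none =>
    cases y with
    | none => exact absurd rfl hy
    | some v =>
      cases z with
      | none => exact absurd rfl hz
      | some w =>
        have h1 : v + v = w + w := hyz
        have h2 : v = w := by
          rw [← SCR_half h v, ← SCR_half h w, h1]
        rw [h2]
  | some u =>
    cases y with
    | none =>
      cases z with
      | none => rfl
      | some w =>
        have h1 : u + u = u + w := hyz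
        exact absurd (by rw [← add_left_cancel h1]) hz
    | some v =>
      cases z with
      | none =>
        have h1 : u + v = u + u := hyz
        exact absurd (by rw [add_left_cancel h1]) hy
      | some w =>
        have h1 : u + v = u + w := hyz
        rw [add_left_cancel h1]

/-- the blocks: part `0` is `none, some 0`, part `i` is `some i, some (-i)` -/
def SCR_E (M : ℕ) (p : Fin M × Bool) : Option (ZMod (2 * M - 1)) :=
  if p.1.val = 0 then (if p.2 then some 0 else none)
  else (if p.2 then some (-(p.1.val : ZMod (2 * M - 1))) else some (p.1.val : ZMod (2 * M - 1)))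

lemma SCR_E_zero (M : ℕ) (i : Fin M) : SCR_a (SCR_E M (i, false)) (SCR_E M (i, true)) = 0 := by
  unfold SCR_E
  by_cases h : i.val = 0
  · simp [h, SCR_a]
  · simp [h, SCR_a]

lemma SCR_E_surj (M : ℕ) (hM : 2 ≤ M) : Function.Surjective (SCR_E M) := by
  have : NeZero (2 * M - 1) := ⟨by omega⟩
  intro y
  cases y with
  | none => exact ⟨(⟨0, by omega⟩, false), by simp [SCR_E]⟩
  | some u =>
    by_cases h0 : u.val = 0
    · have h1 : u = 0 := (ZMod.val_eq_zero u).1 h0
      exact ⟨(⟨0, by omega⟩, true), by simp [SCR_E, h1]⟩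
    · have hlt := ZMod.val_lt u
      by_cases h1 : u.val < M
      · refine ⟨(⟨u.val, h1⟩, false), ?_⟩
        simp [SCR_E, h0]
      · refine ⟨(⟨2 * M - 1 - u.val, by omega⟩, true), ?_⟩
        have h2 : ¬ (2 * M - 1 - u.val = 0) := by omega
        have h3 : -((2 * M - 1 - u.val : ℕ) : ZMod (2 * M - 1)) = u := by
          rw [Nat.cast_sub (by omega), ZMod.natCast_self, ZMod.natCast_zmod_val]
          ring
        show (if (2 * M - 1 - u.val : ℕ) = 0 then _ else _) = some u
        rw [if_neg h2]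
        simp only [if_true]
        rw [h3]

lemma SCR_K (M : ℕ) (hM : 2 ≤ M) : ∃ A : Fin M × Bool → Fin M × Bool → ZMod (2 * M - 1),
    (∀ x y, A x y = A y x) ∧ (∀ x a, ∃ y, y ≠ x ∧ A x y = a) ∧
    (∀ x y z, y ≠ x → z ≠ x → A x y = A x z → y = z) ∧
    ∀ (i : Fin M) (b b' : Bool), b ≠ b' → A (i, b) (i, b') = 0 := by
  have : NeZero (2 * M - 1) := ⟨by omega⟩
  have hb : Function.Bijective (SCR_E M) := by
    rw [Fintype.bijective_iff_surjective_and_card]
    refine ⟨SCR_E_surj M hM, ?_⟩
    rw [Fintype.card_prod, Fintype.card_option, ZMod.card, Fintype.card_fin, Fintype.card_bool]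
    omega
  have hN : 2 * M = (2 * M - 1) + 1 := by omega
  refine ⟨fun x y => SCR_a (SCR_E M x) (SCR_E M y), fun x y => SCR_a_symm _ _, ?_, ?_, ?_⟩
  · intro x a
    obtain ⟨y, hy, hya⟩ := SCR_a_ex hN (SCR_E M x) a
    obtain ⟨y', rfl⟩ := hb.2 y
    exact ⟨y', fun h => hy (by rw [h]), hya⟩
  · intro x y z hy hz hyz
    exact hb.1 (SCR_a_un hN _ _ _ (fun h => hy (hb.1 h)) (fun h => hz (hb.1 h)) hyz)
  · intro i b b' hbb
    cases b <;> cases b'
    · exact absurd rfl hbb
    · exact SCR_E_zero M i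
    · exact (SCR_a_symm _ _).trans (SCR_E_zero M i)
    · exact absurd rfl hbb

theorem stmt_SCR : Stmt_SCR := by
  classical
  intro M q hM hq
  have hq1 : 1 ≤ q := le_trans (by nlinarith) hq
  have : NeZero (2 * M - 1) := ⟨by omega⟩
  have : NeZero (2 * q - 1) := ⟨by omega⟩
  have : NeZero q := ⟨by omega⟩
  obtain ⟨A, hsym, hex, hun, hzero⟩ := SCR_K M hM
  have hne : ∀ (i j : Fin M) (b b' : Bool), i ≠ j → A (i, b) (j, b') ≠ 0 := by
    intro i j b b' hij h0
    have h1 : A (i, b) (i, !b) = 0 := hzero i b (!b) (by cases b <;> simp)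
    have h2 : (j, b') = (i, !b) := by
      apply hun (i, b) (j, b') (i, !b)
      · intro h
        exact hij (congrArg Prod.fst h).symm
      · intro h
        have := congrArg Prod.snd h
        revert this
        cases b <;> simp
      · rw [h0, h1]
    exact hij (congrArg Prod.fst h2).symm
  have hφ : Nonempty (Option (ZMod (2 * q - 1)) ≃ Bool × ZMod q) := by
    refine ⟨Fintype.equivOfCardEq ?_⟩
    rw [Fintype.card_prod, Fintype.card_option, ZMod.card, ZMod.card, Fintype.card_bool]
    omega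
  obtain ⟨φ⟩ := hφ
  have he : Nonempty ({a : ZMod (2 * M - 1) // a ≠ 0} × ZMod q ≃ Fin ((2 * M - 2) * q)) := by
    refine ⟨Fintype.equivOfCardEq ?_⟩
    rw [Fintype.card_prod, ZMod.card, Fintype.card_fin]
    congr 1
    rw [Fintype.card_subtype_compl, ZMod.card, Fintype.card_subtype_eq]
    omega
  obtain ⟨e⟩ := he
  have hpos : 0 < (2 * M - 2) * q := Nat.mul_pos (by omega) (by omega)
  obtain ⟨χ, hχ⟩ : ∃ χ : VS M q → VS M q → Fin ((2 * M - 2) * q), ∀ u v, χ u v =
      if h : A (u.1, (φ u.2).1) (v.1, (φ v.2).1) ≠ 0 then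
        e (⟨A (u.1, (φ u.2).1) (v.1, (φ v.2).1), h⟩, (φ u.2).2 + (φ v.2).2)
      else ⟨0, hpos⟩ := ⟨_, fun _ _ => rfl⟩
  have hval : ∀ u v, v.1 ≠ u.1 →
      ∃ h : A (u.1, (φ u.2).1) (v.1, (φ v.2).1) ≠ 0, χ u v =
        e (⟨A (u.1, (φ u.2).1) (v.1, (φ v.2).1), h⟩, (φ u.2).2 + (φ v.2).2) := by
    intro u v huv
    have h := hne u.1 v.1 (φ u.2).1 (φ v.2).1 (fun h => huv h.symm)
    exact ⟨h, by rw [hχ, dif_pos h]⟩
  refine ⟨χ, ⟨?_, ?_, ?_⟩⟩
  · intro u v
    rw [hχ, hχ]
    have h1 := hsym (u.1, (φ u.2).1) (v.1, (φ v.2).1)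
    have h2 := add_comm (φ u.2).2 (φ v.2).2
    simp only [h1, h2]
  · intro u c
    obtain ⟨⟨⟨a, ha⟩, b⟩, hc⟩ : ∃ p, e p = c := ⟨e.symm c, e.apply_symm_apply c⟩
    obtain ⟨⟨j, β⟩, hy, hya⟩ := hex (u.1, (φ u.2).1) a
    have hj : j ≠ u.1 := by
      intro hj
      subst hj
      apply ha
      rw [← hya]
      apply hzero
      intro hb
      apply hy
      rw [hb]
    refine ⟨(j, φ.symm (β, b - (φ u.2).2)), hj, ?_⟩
    obtain ⟨h, hv⟩ := hval u (j, φ.symm (β, b - (φ u.2).2)) hj
    rw [hv, ← hc]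
    congr 1
    refine Prod.ext ?_ ?_
    · apply Subtype.ext
      show A (u.1, (φ u.2).1) (j, (φ (φ.symm (β, b - (φ u.2).2))).1) = a
      rw [φ.apply_symm_apply, ← hya]
    · show (φ u.2).2 + (φ (φ.symm (β, b - (φ u.2).2))).2 = b
      rw [φ.apply_symm_apply]
      ring
  · intro u v w hv hw huvw
    obtain ⟨h1, h2⟩ := hval u v hv
    obtain ⟨h3, h4⟩ := hval u w hw
    rw [h2, h4] at huvw
    have h5 := e.injective huvw
    have h6 := congrArg (fun p => p.1.1) h5
    have h7 := congrArg (fun p => p.2) h5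
    simp only at h6 h7
    have h8 := add_left_cancel h7
    have h9 := hun (u.1, (φ u.2).1) (v.1, (φ v.2).1) (w.1, (φ w.2).1)
      (fun h => hv (by injection h)) (fun h => hw (by injection h)) h6
    have h10 : v.1 = w.1 := (Prod.ext_iff.1 h9).1
    have h11 : (φ v.2).1 = (φ w.2).1 := (Prod.ext_iff.1 h9).2
    have h12 : v.2 = w.2 := φ.injective (Prod.ext h11 h8)
    exact Prod.ext h10 h12

end Pool.Agent.Work.MP_1ce445_fx
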