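import Pool.Agent.Work.MP_1ce445_fx.SLO
import Pool.Agent.Work.MP_1ce445_fx.SCR
import Pool.Agent.Work.MP_1ce445_fx.GS1
import Pool.Agent.Work.MP_1ce445_fx.GS2
import Pool.Agent.Work.MP_1ce445_fx.GS3
import Pool.Agent.Work.MP_1ce445_fx.LBL
import Pool.Agent.Work.MP_1ce445_fx.DIG

/-!
Lower half of the staircases at `k = (1 - 1/M) n`, without hypotheses.
-/

namespace Pool.Agent.Work.MP_1ce445_fx

open Finset Pool.Agent.Work.MP_1ce445_co_56 Pool.Agent.Work.MP_1ce445_lin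

theorem finalS : Stmt_SLO :=
  stmt_SLO (stmt_LBL stmt_DIG) stmt_SCR stmt_GS1 (stmt_GS2 stmt_GS1) (stmt_GS3 stmt_GS1)

end Pool.Agent.Work.MP_1ce445_fx
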