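import Pool.Agent.Work.MP_1ce445_fx.InterfaceM

set_option autoImplicit false

/-!
Block SQM of the staircase theorem (powers `m` instead of squares).
-/

namespace Pool.Agent.Work.MP_1ce445_fx

open Finset Pool.Agent.Work.MP_1ce445_co_56 Pool.Agent.Work.MP_1ce445_lin

lemma SQM_sq {ι : Type} (S : Finset ι) (f : ι → ℝ) (hf : ∀ i ∈ S, 0 ≤ f i) :
    ∑ i ∈ S, f i ^ 2 ≤ (∑ i ∈ S, f i) ^ 2 := by
  rw [sq, sum_mul]
  refine sum_le_sum fun i hi => ?_
  rw [sq]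
  exact mul_le_mul_of_nonneg_left (single_le_sum hf hi) (hf i hi)

lemma SQM_pow {a b : ℝ} (ha : 0 ≤ a) (hb : 0 ≤ b) (m : ℕ) :
    (a + b) ^ m ≤ 2 ^ m * (a ^ m + b ^ m) := by
  have hA : 0 ≤ a ^ m := pow_nonneg ha m
  have hB : 0 ≤ b ^ m := pow_nonneg hb m
  rcases le_total a b with h | h
  · calc (a + b) ^ m ≤ (2 * b) ^ m := pow_le_pow_left₀ (by linarith) (by linarith) m
      _ = 2 ^ m * b ^ m := mul_pow _ _ _
      _ ≤ _ := mul_le_mul_of_nonneg_left (by linarith) (by positivity)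
  · calc (a + b) ^ m ≤ (2 * a) ^ m := pow_le_pow_left₀ (by linarith) (by linarith) m
      _ = 2 ^ m * a ^ m := mul_pow _ _ _
      _ ≤ _ := mul_le_mul_of_nonneg_left (by linarith) (by positivity)

theorem stmt_SQM : Stmt_DG2 → Stmt_SQM := by
  intro h m n k G e θ hm hU
  have hS := hU.sit
  have hmin : ∀ l v, ∃ w, (G l).Adj v w := fun l v => hS.fac.minDeg l v
  have hk : ((oth e).card : ℝ) ≤ k := by
    have h1 : (oth e).card ≤ k := by
      have := card_le_univ (oth e)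
      rwa [Fintype.card_fin] at this
    exact_mod_cast h1
  have hγ : ∀ l, gammaT (G l) ≤ n := fun l => by
    have := gammaT_le_univ (hmin l)
    rwa [Fintype.card_fin] at this
  obtain ⟨s, hs⟩ : ∃ s : Fin k → ℝ, ∀ l, s l = (n : ℝ) - gammaT (G l) := ⟨_, fun _ => rfl⟩
  obtain ⟨x, hx⟩ : ∃ x : Fin k → Fin n → ℝ, ∀ l v, x l v = (dg (G l) univ v : ℝ) - 1 :=
    ⟨_, fun _ _ => rfl⟩
  obtain ⟨u, hu⟩ : ∃ u : Fin k → ℝ, ∀ l, u l = ((NN n - gammaT (G l) : ℕ) : ℝ) :=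
    ⟨_, fun _ => rfl⟩
  have hs0 : ∀ l, 0 ≤ s l := fun l => by
    have : (gammaT (G l) : ℝ) ≤ n := by exact_mod_cast hγ l
    rw [hs]
    linarith
  have hu0 : ∀ l, 0 ≤ u l := fun l => by
    rw [hu]
    exact Nat.cast_nonneg _
  have hdeg : ∀ l v, 1 ≤ dg (G l) univ v := by
    classical
    intro l v
    obtain ⟨w, hw⟩ := hmin l v
    unfold dg
    exact card_pos.2 ⟨w, mem_filter.2 ⟨mem_univ _, hw⟩⟩
  have hx0 : ∀ l v, 0 ≤ x l v := fun l v => by
    have : (1 : ℝ) ≤ dg (G l) univ v := by exact_mod_cast hdeg l v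
    rw [hx]
    linarith
  have hcast : ∀ l, ((n - gammaT (G l) : ℕ) : ℝ) = s l := fun l => by
    rw [Nat.cast_sub (hγ l), hs]
  have hxs : ∀ l v, x l v ≤ s l := fun l v => by
    have h1 := (h n (G l) (hmin l)).1 v
    have h2 : (dg (G l) univ v : ℝ) ≤ ((n - gammaT (G l) : ℕ) : ℝ) + 1 := by exact_mod_cast h1
    rw [hcast] at h2
    rw [hx]
    linarith
  have hlin : ∀ l, ∑ v, x l v ≤ 3 * s l ^ 2 := by
    intro l
    have h1 : ∀ v, x l v ≤ if 2 ≤ dg (G l) univ v then s l else 0 := by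
      intro v
      split_ifs with h2
      · exact hxs l v
      · have h3 : dg (G l) univ v = 1 := by
          have := hdeg l v
          omega
        have h4 : x l v = 0 := by
          rw [hx, h3]
          norm_num
        rw [h4]
    refine (sum_le_sum fun v _ => h1 v).trans ?_
    rw [← sum_filter, sum_const, nsmul_eq_mul]
    have h2 := (h n (G l) (hmin l)).2
    have h3 : ((univ.filter (fun v => 2 ≤ dg (G l) univ v)).card : ℝ) ≤
        3 * ((n - gammaT (G l) : ℕ) : ℝ) := by exact_mod_cast h2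
    rw [hcast] at h3
    calc ((univ.filter (fun v => 2 ≤ dg (G l) univ v)).card : ℝ) * s l ≤ 3 * s l * s l :=
          mul_le_mul_of_nonneg_right h3 (hs0 l)
      _ = 3 * s l ^ 2 := by ring
  have hsu : ∀ l, s l ≤ 1 + u l := by
    intro l
    have h1 : n ≤ NN n + 1 := by
      unfold NN
      omega
    have h2 := hU.leN l
    have h3 : n ≤ 1 + (NN n - gammaT (G l)) + gammaT (G l) := by omega
    have h4 : (n : ℝ) ≤ 1 + ((NN n - gammaT (G l) : ℕ) : ℝ) + gammaT (G l) := by exact_mod_cast h3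
    rw [hs, hu]
    linarith
  have hsn : (sn G e : ℝ) = ∑ l ∈ oth e, u l := by
    unfold sn
    rw [Nat.cast_sum]
    exact sum_congr rfl fun l _ => (hu l).symm
  have hsum1 : ∑ l ∈ oth e, s l ≤ k + sn G e := by
    calc ∑ l ∈ oth e, s l ≤ ∑ l ∈ oth e, (1 + u l) := sum_le_sum fun l _ => hsu l
      _ = (oth e).card + sn G e := by
          rw [sum_add_distrib, sum_const, nsmul_eq_mul, mul_one, hsn]
      _ ≤ k + sn G e := by linarith
  have hsum2 : ∑ l ∈ oth e, s l ^ 2 ≤ 2 * k + 2 * (sn G e : ℝ) ^ 2 := by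
    have h1 : ∑ l ∈ oth e, u l ^ 2 ≤ (sn G e : ℝ) ^ 2 := by
      rw [hsn]
      exact SQM_sq _ _ fun l _ => hu0 l
    calc ∑ l ∈ oth e, s l ^ 2 ≤ ∑ l ∈ oth e, (2 + 2 * u l ^ 2) := by
          refine sum_le_sum fun l _ => ?_
          have h2 : s l ^ 2 ≤ (1 + u l) ^ 2 := pow_le_pow_left₀ (hs0 l) (hsu l) 2
          nlinarith [sq_nonneg (u l - 1)]
      _ = 2 * (oth e).card + 2 * ∑ l ∈ oth e, u l ^ 2 := by
          rw [sum_add_distrib, sum_const, nsmul_eq_mul, ← mul_sum]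
          ring
      _ ≤ 2 * k + 2 * (sn G e : ℝ) ^ 2 := by linarith
  have hS1 : 0 ≤ ∑ l ∈ oth e, s l := sum_nonneg fun l _ => hs0 l
  have hS2 : 0 ≤ ∑ l ∈ oth e, s l ^ 2 := sum_nonneg fun l _ => sq_nonneg _
  have hX0 : ∀ v, 0 ≤ ∑ l ∈ oth e, x l v := fun v => sum_nonneg fun l _ => hx0 l v
  have hXS : ∀ v, ∑ l ∈ oth e, x l v ≤ ∑ l ∈ oth e, s l := fun v => sum_le_sum fun l _ => hxs l v
  have hmm : m = (m - 1) + 1 := by omega
  have hxx : ∑ v, (∑ l ∈ oth e, x l v) ^ m ≤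
      (∑ l ∈ oth e, s l) ^ (m - 1) * (3 * ∑ l ∈ oth e, s l ^ 2) := by
    calc ∑ v, (∑ l ∈ oth e, x l v) ^ m
        ≤ ∑ v, (∑ l ∈ oth e, s l) ^ (m - 1) * (∑ l ∈ oth e, x l v) := by
          refine sum_le_sum fun v _ => ?_
          calc (∑ l ∈ oth e, x l v) ^ m
              = (∑ l ∈ oth e, x l v) ^ (m - 1) * (∑ l ∈ oth e, x l v) := by
                rw [← pow_succ, ← hmm]
            _ ≤ _ := mul_le_mul_of_nonneg_right (pow_le_pow_left₀ (hX0 v) (hXS v) _) (hX0 v)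
      _ = (∑ l ∈ oth e, s l) ^ (m - 1) * ∑ l ∈ oth e, ∑ v, x l v := by
          rw [← mul_sum, sum_comm]
      _ ≤ (∑ l ∈ oth e, s l) ^ (m - 1) * ∑ l ∈ oth e, 3 * s l ^ 2 :=
          mul_le_mul_of_nonneg_left (sum_le_sum fun l _ => hlin l) (pow_nonneg hS1 _)
      _ = _ := by rw [← mul_sum]
  have hD : ∀ v, (∑ l ∈ oth e, (dg (G l) univ v : ℝ)) ^ m ≤
      2 ^ m * ((k : ℝ) ^ m + (∑ l ∈ oth e, x l v) ^ m) := by
    intro v
    have h1 : ∑ l ∈ oth e, (dg (G l) univ v : ℝ) = (oth e).card + ∑ l ∈ oth e, x l v := by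
      have h2 : ∀ l ∈ oth e, (dg (G l) univ v : ℝ) = 1 + x l v := fun l _ => by
        rw [hx]
        ring
      rw [sum_congr rfl h2, sum_add_distrib, sum_const, nsmul_eq_mul, mul_one]
    rw [h1]
    have h3 : ((oth e).card : ℝ) ^ m ≤ (k : ℝ) ^ m := pow_le_pow_left₀ (Nat.cast_nonneg _) hk m
    refine (SQM_pow (Nat.cast_nonneg _) (hX0 v) m).trans ?_
    exact mul_le_mul_of_nonneg_left (by linarith) (by positivity)
  have hks : 0 ≤ (k : ℝ) + sn G e := by positivity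
  have hfin : (∑ l ∈ oth e, s l) ^ (m - 1) * (3 * ∑ l ∈ oth e, s l ^ 2) ≤
      ((k : ℝ) + sn G e) ^ (m - 1) * (3 * (2 * k + 2 * (sn G e : ℝ) ^ 2)) :=
    mul_le_mul (pow_le_pow_left₀ hS1 hsum1 _) (by linarith) (by positivity) (by positivity)
  calc ∑ v, (∑ l ∈ oth e, (dg (G l) univ v : ℝ)) ^ m
      ≤ ∑ v, 2 ^ m * ((k : ℝ) ^ m + (∑ l ∈ oth e, x l v) ^ m) := sum_le_sum fun v _ => hD v
    _ = 2 ^ m * ((k : ℝ) ^ m * n + ∑ v, (∑ l ∈ oth e, x l v) ^ m) := by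
        rw [← mul_sum, sum_add_distrib, sum_const, nsmul_eq_mul, card_univ, Fintype.card_fin]
        ring
    _ ≤ 2 ^ m * ((k : ℝ) ^ m * n +
          ((k : ℝ) + sn G e) ^ (m - 1) * (3 * (2 * k + 2 * (sn G e : ℝ) ^ 2))) :=
        mul_le_mul_of_nonneg_left (by linarith) (by positivity)
    _ = 2 ^ m * ((k : ℝ) ^ m * n + 6 * ((k : ℝ) + sn G e) ^ (m - 1) * (k + (sn G e : ℝ) ^ 2)) := by
        ring

end Pool.Agent.Work.MP_1ce445_fx
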