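import Pool.Agent.Work.MP_1ce445_fx.Asm3
import Pool.Agent.Work.MP_1ce445_fx.AT15
import Pool.Agent.Work.MP_1ce445_fx.BLT
import Pool.Agent.Work.MP_1ce445_fx.EQT
import Pool.Agent.Work.MP_1ce445_fx.STX
import Pool.Agent.Work.MP_1ce445_fx.WCN
import Pool.Agent.Work.MP_1ce445_fx.WIN
import Pool.Agent.Work.MP_1ce445_fx.WFR
import Pool.Agent.Work.MP_1ce445_fx.WPR
import Pool.Agent.Work.MP_1ce445_fx.LM2
import Pool.Agent.Work.MP_1ce445_fx.LMW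
import Pool.Agent.Work.MP_1ce445_fx.OCT
import Pool.Agent.Work.MP_1ce445_fx.UNI
import Pool.Agent.Work.MP_1ce445_fx.SYF
import Pool.Agent.Work.MP_1ce445_fx.TG1
import Pool.Agent.Work.MP_1ce445_fx.TG2
import Pool.Agent.Work.MP_1ce445_fx.TG3
import Pool.Agent.Work.MP_1ce445_fx.LOT
import Pool.Agent.Work.MP_1ce445_fx.UUQ
import Pool.Agent.Work.MP_1ce445_fx.STU
import Pool.Agent.Work.MP_1ce445_fx.CR3
import Pool.Agent.Work.MP_1ce445_fx.S3S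
import Pool.Agent.Work.MP_1ce445_fx.ADM
import Pool.Agent.Work.MP_1ce445_fx.SMM
import Pool.Agent.Work.MP_1ce445_fx.SPM
import Pool.Agent.Work.MP_1ce445_fx.CVM
import Pool.Agent.Work.MP_1ce445_fx.TAU
import Pool.Agent.Work.MP_1ce445_fx.TSM
import Pool.Agent.Work.MP_1ce445_fx.SQM
import Pool.Agent.Work.MP_1ce445_fx.DG2
import Pool.Agent.Work.MP_1ce445_fx.MXQ
import Pool.Agent.Work.MP_1ce445_fx.TYQ
import Pool.Agent.Work.MP_1ce445_fx.CV2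
import Pool.Agent.Work.MP_1ce445_fx.XCQ
import Pool.Agent.Work.MP_1ce445_fx.DSQ
import Pool.Agent.Work.MP_1ce445_fx.YXQ
import Pool.Agent.Work.MP_1ce445_fx.BAQ
import Pool.Agent.Work.MP_1ce445_fx.OUQ
import Pool.Agent.Work.MP_1ce445_fx.PAQ
import Pool.Agent.Work.MP_1ce445_fx.PRM
import Pool.Agent.Work.MP_1ce445_fx.PQ1
import Pool.Agent.Work.MP_1ce445_fx.LOM
import Pool.Agent.Work.MP_1ce445_fx.MTX
import Pool.Agent.Work.MP_1ce445_fx.LBL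
import Pool.Agent.Work.MP_1ce445_fx.DIG
import Pool.Agent.Work.MP_1ce445_fx.GM1
import Pool.Agent.Work.MP_1ce445_fx.GM2
import Pool.Agent.Work.MP_1ce445_fx.GM3
import Pool.Agent.Work.MP_1ce445_fx.CNM
import Pool.Agent.Work.MP_1ce445_fx.CLN
import Pool.Agent.Work.MP_1ce445_fx.LOQ
import Pool.Agent.Work.MP_1ce445_fx.LBLS
import Pool.Agent.Work.MP_1ce445_fx.GO1
import Pool.Agent.Work.MP_1ce445_fx.GO2
import Pool.Agent.Work.MP_1ce445_fx.GO3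
import Pool.Agent.Work.MP_1ce445_fx.CNO
import Pool.Agent.Work.MP_1ce445_fx.LOU
import Pool.Agent.Work.MP_1ce445_fx.LAY
import Pool.Agent.Work.MP_1ce445_fx.MAT
import Pool.Agent.Work.MP_1ce445_fx.CO1
import Pool.Agent.Work.MP_1ce445_fx.CN1
import Pool.Agent.Work.MP_1ce445_fx.CN2
import Pool.Agent.Work.MP_1ce445_fx.CN3

/-!
The threshold `k = 15` of the first step, and the full staircase theorem, without hypotheses (helper94).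
-/

namespace Pool.Agent.Work.MP_1ce445_fx

open Finset Pool.Agent.Work.MP_1ce445_co_56 Pool.Agent.Work.MP_1ce445_lin

theorem EndT_STU : Stmt_STU := stmt_STU stmt_CR3 stmt_S3S

theorem EndT_SMM : Stmt_SMM := stmt_SMM stmt_SPM stmt_CVM stmt_TAU

theorem EndT_TSM : Stmt_TSM := stmt_TSM stmt_TAU (stmt_SQM stmt_DG2)

theorem EndT_ADM : Stmt_ADM := stmt_ADM EndT_SMM EndT_TSM

theorem EndT_MXQ : Stmt_MXQ := stmt_MXQ stmt_TAU stmt_DG2 EndT_SMM EndT_TSM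

theorem EndT_TYQ : Stmt_TYQ := stmt_TYQ stmt_CV2 stmt_TAU EndT_SMM

theorem EndT_XCQ : Stmt_XCQ := stmt_XCQ stmt_SPM stmt_TAU

theorem EndT_DSQ : Stmt_DSQ := stmt_DSQ EndT_XCQ

theorem EndT_YXQ : Stmt_YXQ := stmt_YXQ stmt_TAU

theorem EndT_OUQ : Stmt_OUQ :=
  stmt_OUQ stmt_TAU EndT_YXQ (stmt_BAQ stmt_TAU EndT_XCQ EndT_YXQ)

theorem EndT_PAQ : Stmt_PAQ := stmt_PAQ EndT_TYQ EndT_XCQ EndT_DSQ EndT_OUQ

theorem EndT_UUQ : Stmt_UUQ :=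
  stmt_UUQ EndT_STU EndT_ADM EndT_MXQ EndT_PAQ stmt_NUN stmt_PRM stmt_PQ1

theorem EndT_LOT : Stmt_LOT :=
  stmt_LOT stmt_OCT (stmt_SYF stmt_UNI) stmt_TG1 (stmt_TG2 stmt_TG1) (stmt_TG3 stmt_TG1)

/-- (B) equality for `k ≥ 15`, `18 ∣ n` -/
theorem finalAT15 : Stmt_AT15 := stmt_AT15 EndT_UUQ EndT_LOT

/-- (A) strict inequality for `3 ≤ k ≤ 14`, `n` even -/
theorem finalBLT : Stmt_BLT :=
  stmt_BLT
    (stmt_EQT EndT_STU EndT_ADM EndT_MXQ stmt_NUN stmt_PRM stmt_PQ1)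
    (stmt_STX EndT_TYQ EndT_XCQ EndT_DSQ EndT_YXQ EndT_OUQ stmt_DG2)
    stmt_WCN (stmt_WPR stmt_WCN (stmt_WFR stmt_WCN stmt_WIN (stmt_LMW stmt_LM2)))

theorem EndT_LOM : Stmt_LOM :=
  stmt_LOM stmt_MTX (stmt_LBL stmt_DIG) stmt_GM1 (stmt_GM2 stmt_GM1)
    (stmt_GM3 stmt_CNM stmt_GM1) stmt_CLN

theorem EndT_LOQ : Stmt_LOQ :=
  stmt_LOQ stmt_MTX (stmt_LBLS stmt_DIG) stmt_GO1 (stmt_GO2 stmt_GO1) (stmt_GO3 stmt_GO1)
    (stmt_CNO stmt_CNM) EndT_LOM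

theorem EndT_LOU : Stmt_LOU :=
  stmt_LOU stmt_LAY stmt_MAT (stmt_CON stmt_CN1 (stmt_CN2 stmt_CN1) (stmt_CN3 stmt_CN1)) stmt_CLN

theorem final3 : Final3 :=
  Asm3_final stmt_NUN EndT_UUQ EndT_LOM EndT_LOQ EndT_LOU finalAT15 finalBLT

end Pool.Agent.Work.MP_1ce445_fx
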