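import Pool.Agent.Work.MP_1ce445_stm.All

/-!
The staircases at `k = (1 - 1/M) n` in terms of `n`.
-/

namespace Pool.Agent.Work.MP_1ce445_fx

open Finset Pool.Agent.Work.MP_1ce445_co_56 Pool.Agent.Work.MP_1ce445_lin

theorem EndV_ten {a n k c : ℕ} {δ : ℝ} (hc : 0 < c) (ha : a ≠ 0) (h5 : δ ≤ (1 / (c : ℝ)) ^ a)
    (b : ℕ) (hb : b ≤ a) (hn : 1 ≤ n) (h : (k : ℝ) ^ a ≤ δ * (n : ℝ) ^ b) : c * k ≤ n := by
  have hc' : (0 : ℝ) < c := by exact_mod_cast hc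
  have hn1 : (1 : ℝ) ≤ n := by exact_mod_cast hn
  have h1 : (k : ℝ) ^ a ≤ ((n : ℝ) / c) ^ a := by
    calc (k : ℝ) ^ a ≤ δ * (n : ℝ) ^ b := h
      _ ≤ (1 / (c : ℝ)) ^ a * (n : ℝ) ^ b := mul_le_mul_of_nonneg_right h5 (by positivity)
      _ ≤ (1 / (c : ℝ)) ^ a * (n : ℝ) ^ a :=
          mul_le_mul_of_nonneg_left (pow_le_pow_right₀ hn1 hb) (by positivity)
      _ = ((n : ℝ) / c) ^ a := by rw [← mul_pow]; congr 1; ring
  have h2 : (k : ℝ) ≤ (n : ℝ) / c := le_of_pow_le_pow_left₀ ha (by positivity) h1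
  have h3 : (c : ℝ) * k ≤ n := by
    rw [le_div_iff₀ hc'] at h2
    linarith
  exact_mod_cast h3

theorem EndV_second (M m : ℕ) (hM : 2 ≤ M) (hm : 2 ≤ m) :
    ∃ (C δ : ℝ) (n0 : ℕ), 0 < δ ∧ ∀ n t : ℕ, n0 ≤ n → 2 * M ∣ n →
      ((t : ℝ) ^ m ≤ δ * (n : ℝ) ^ (m - 1) → (4 * M + 18) * t ≤ n ∧
        P n (n - n / M + t) ≤ n ^ (n - n / M + t - M) * (n - n / M + m) ^ M) ∧
      (((C ≤ t ∧ C * (n : ℝ) ^ (m - 2) ≤ (t : ℝ) ^ (m - 1)) ∨ (m = 2 ∧ M ≤ t)) →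
        (4 * M + 18) * t ≤ n →
        n ^ (n - n / M + t - M) * (n - n / M + m) ^ M ≤ P n (n - n / M + t)) := by
  obtain ⟨δ, q0, hδ, hU⟩ := MP_1ce445_stm.FIR_up MP_1ce445_stm.h_UFR M m hM hm
  obtain ⟨C, q1, hL⟩ := MP_1ce445_stm.h_SLO M m hM hm
  have hMr : (0 : ℝ) < M := by exact_mod_cast (by omega : 0 < M)
  refine ⟨max C 0, min (δ / (2 * (M : ℝ)) ^ (m - 1)) ((1 / ((4 * M + 18 : ℕ) : ℝ)) ^ m),
    2 * M * (q0 + q1 + 4 * M ^ 2 + 1), lt_min (by positivity) (by positivity), ?_⟩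
  rintro n t hn ⟨q, rfl⟩
  have hq : q0 + q1 + 4 * M ^ 2 + 1 ≤ q := Nat.le_of_mul_le_mul_left hn (by omega)
  have e1 : 2 * M * q / M = 2 * q := by
    rw [show 2 * M * q = M * (2 * q) by ring]
    exact Nat.mul_div_cancel_left _ (by omega)
  have e2 : 2 * M * q - 2 * q = (2 * M - 2) * q := by
    rw [Nat.sub_mul]
  have e3 : (2 * M - 2) * q = 2 * (M - 1) * q := by
    congr 1
    omega
  have e4 : (((2 * M * q : ℕ) : ℕ) : ℝ) = 2 * (M : ℝ) * q := by push_cast; ring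
  rw [e1, e2]
  constructor
  · intro h
    have h1 : (t : ℝ) ^ m ≤ δ * (q : ℝ) ^ (m - 1) := by
      refine h.trans ?_
      rw [e4, mul_pow (2 * (M : ℝ)) (q : ℝ) (m - 1)]
      calc min (δ / (2 * (M : ℝ)) ^ (m - 1)) ((1 / ((4 * M + 18 : ℕ) : ℝ)) ^ m) *
            ((2 * (M : ℝ)) ^ (m - 1) * (q : ℝ) ^ (m - 1))
          ≤ (δ / (2 * (M : ℝ)) ^ (m - 1)) * ((2 * (M : ℝ)) ^ (m - 1) * (q : ℝ) ^ (m - 1)) :=
            mul_le_mul_of_nonneg_right (min_le_left _ _) (by positivity)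
        _ = δ * (q : ℝ) ^ (m - 1) := by
            field_simp
    obtain ⟨-, h3⟩ := hU q t (by omega) h1
    refine ⟨EndV_ten (by omega) (by omega) (min_le_right _ _) (m - 1) (by omega) (by
      have : 1 ≤ M * q := Nat.mul_pos (by omega) (by omega)
      nlinarith) h, ?_⟩
    rw [e3]
    rw [e3] at h3
    exact h3
  · intro h h2
    have h2t : 2 * t ≤ q := by
      have h3 : 4 * M * t ≤ 2 * M * q := le_trans (by nlinarith) h2
      have h4 : (2 * M) * (2 * t) ≤ (2 * M) * q := by linarith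
      exact Nat.le_of_mul_le_mul_left h4 (by omega)
    rcases h with ⟨h3, h4⟩ | ⟨rfl, h3⟩
    · have h5 : C * (q : ℝ) ^ (m - 2) ≤ (t : ℝ) ^ (m - 1) := by
        refine le_trans ?_ h4
        have h6 : (q : ℝ) ≤ ((2 * M * q : ℕ) : ℝ) := by
          exact_mod_cast (by nlinarith [Nat.zero_le q] : q ≤ 2 * M * q)
        calc C * (q : ℝ) ^ (m - 2) ≤ max C 0 * (q : ℝ) ^ (m - 2) :=
              mul_le_mul_of_nonneg_right (le_max_left _ _) (by positivity)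
          _ ≤ max C 0 * (((2 * M * q : ℕ) : ℝ)) ^ (m - 2) :=
              mul_le_mul_of_nonneg_left (pow_le_pow_left₀ (by positivity) h6 _) (le_max_right _ _)
      have h7 := hL q t (by omega) h5 ((le_max_left _ _).trans h3) h2t
      rw [e3] at h7 ⊢
      exact h7
    · have h7 := MP_1ce445_stm.SL2 stmt_SCR stmt_GS1 MP_1ce445_stm.h_GS2 M q t hM (by omega) h3
        (by omega)
      rw [e3] at h7 ⊢
      exact h7

end Pool.Agent.Work.MP_1ce445_fx
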