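import Pool.Agent.Work.MP_1ce445_fx.Interface

namespace Pool.Agent.Work.MP_1ce445_fx

open Finset Pool.Agent.Work.MP_1ce445_co_56 Pool.Agent.Work.MP_1ce445_lin

theorem stmt_FIN (hUPF : Stmt_UPF) (hLOW : Stmt_LOW) (hNUM : Stmt_NUM) : Stmt_FIN := by
  constructor
  · intro k hk
    obtain ⟨n0, h⟩ := hUPF k hk
    exact ⟨n0, fun n hn => (h n hn).1⟩
  · intro k hk
    obtain ⟨n0, h⟩ := hUPF k (by omega)
    obtain ⟨n1, h1⟩ := hLOW k hk
    refine ⟨n0 + n1, fun n hn => ⟨h1 n (by omega), ?_⟩⟩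
    have hlow := h1 n (by omega)
    obtain ⟨hu, hev⟩ := h n (by omega)
    rintro (he | h6)
    · exact le_antisymm (hev he) hlow
    · refine le_antisymm ?_ hlow
      have hq3 : (n / 2) % 3 = 0 := by omega
      have ht := hNUM.2.2.2 (n / 2) hq3
      have h2 : (NN n + 12) ^ 3 = 8 * (n / 2 + 6) ^ 3 := by
        unfold NN; ring
      rw [h2, ← ht] at hu
      have h3 : NN n ^ (k - 3) * (27 * TT (n / 2)) = 27 * (NN n ^ (k - 3) * TT (n / 2)) := by ring
      rw [h3] at hu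
      exact Nat.le_of_mul_le_mul_left hu (by norm_num)

end Pool.Agent.Work.MP_1ce445_fx
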