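import Pool.Agent.Work.MP_1ce445_co_56.Basic
import Pool.Agent.Work.MP_1ce445_lin.Interface

/-!
THEOREM FixedK for MP_1ce445_co (helper66). For fixed `k ≥ 28` and large `n` (even, or `1` modulo 6), with
`N = 2⌊n/2⌋`: `P n k = N^(k-3) * max {a b c : a, b, c even, a + b + c = N + 12}`; for all fixed `k ≥ 3` and large `n`:
`27 P n k ≤ N^(k-3) (N + 12)^3`.

One file `Pool/Agent/Work/MP_1ce445_fx/<ID>.lean` per block, `import Pool.Agent.Work.MP_1ce445_fx.Interface`, the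
`open` line of this file, theorem `stmt_<ID> : Stmt_X → Stmt_Y → Stmt_<ID>` with exactly the statements of the column
`uses` as hypotheses, in this order; auxiliary lemmas with the name of the block in front (`SPC_aux`).

`lin.NN n = 2 * (n / 2)`. Library `MP_1ce445_co_56/Basic.lean`: `gammaT_le_card`, `exists_tds`, `gammaT_le_univ`,
`gammaT_le_add` (`Z` + undominated), `card_le_gammaT`, `IsFactorization.unique`, `.of_adj`, `le_P`, `P_le`.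
-/

namespace Pool.Agent.Work.MP_1ce445_fx

open Finset Pool.Agent.Work.MP_1ce445_co_56 Pool.Agent.Work.MP_1ce445_lin

/-! ### Definitions -/

open Classical in
/-- number of the neighbours of `v` in `Y` -/
noncomputable def dg {n : ℕ} (H : SimpleGraph (Fin n)) (Y : Finset (Fin n)) (v : Fin n) : ℕ :=
  (Y.filter (fun w => H.Adj v w)).card

/-- fraction of the non-neighbours of `v` in `Y` (`v` itself counts as a non-neighbour) -/
noncomputable def nf {n : ℕ} (H : SimpleGraph (Fin n)) (Y : Finset (Fin n)) (v : Fin n) : ℝ :=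
  1 - (dg H Y v : ℝ) / Y.card

/-- the vertices of degree less than `θ n` -/
noncomputable def low {n : ℕ} (H : SimpleGraph (Fin n)) (θ : ℝ) : Finset (Fin n) :=
  univ.filter (fun v => (dg H univ v : ℝ) < θ * n)

open Classical in
/-- the neighbours of `v` -/
noncomputable def nb {n : ℕ} (H : SimpleGraph (Fin n)) (v : Fin n) : Finset (Fin n) :=
  univ.filter (fun w => H.Adj v w)

open Classical in
/-- the vertices without a neighbour in `D` -/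
noncomputable def und {n : ℕ} (H : SimpleGraph (Fin n)) (D : Finset (Fin n)) : Finset (Fin n) :=
  univ.filter (fun v => ∀ z ∈ D, ¬ H.Adj v z)

/-- The situation. `e 0, e 1, e 2` are the three special colours, `Y_i = low (G (e i)) θ`. -/
structure Sit {n k : ℕ} (G : Fin k → SimpleGraph (Fin n)) (e : Fin 3 → Fin k) (θ : ℝ) : Prop where
  pos : 0 < n
  fac : IsFactorization G
  inj : Function.Injective e
  th : 0 < θ
  th' : θ ≤ 1 / 1000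
  big : ∀ i, (n : ℝ) / 5 ≤ ((low (G (e i)) θ).card : ℝ)
  gam : ∀ l, (∀ i, l ≠ e i) → (1 - θ) * n ≤ (gammaT (G l) : ℝ)
  rest : ((univ.filter (fun v => ∀ i, v ∉ low (G (e i)) θ)).card : ℝ) ≤ θ * n

/-- the colours different from the three special ones -/
def oth {k : ℕ} (e : Fin 3 → Fin k) : Finset (Fin k) := univ.filter (fun l => ∀ i, l ≠ e i)

/-- `A i j v`: fraction of the vertices of `Y_j` which are not neighbours of `v` in the colour `e i` -/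
noncomputable def A {n k : ℕ} (G : Fin k → SimpleGraph (Fin n)) (e : Fin 3 → Fin k) (θ : ℝ)
    (i j : Fin 3) (v : Fin n) : ℝ := nf (G (e i)) (low (G (e j)) θ) v

/-- probability that `v` has no neighbour, in the colour `e i`, among four random vertices, two of
`Y_{i+1}` and two of `Y_{i+2}` -/
noncomputable def al {n k : ℕ} (G : Fin k → SimpleGraph (Fin n)) (e : Fin 3 → Fin k) (θ : ℝ)
    (i : Fin 3) (v : Fin n) : ℝ := (A G e θ i (i + 1) v * A G e θ i (i + 2) v) ^ 2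

/-- `τ_j(v)` -/
noncomputable def ta {n k : ℕ} (G : Fin k → SimpleGraph (Fin n)) (e : Fin 3 → Fin k) (θ : ℝ)
    (j : Fin 3) (v : Fin n) : ℝ := A G e θ (j + 1) j v + A G e θ (j + 2) j v - 1

/-- sum of the `n - γ_l` over the other colours -/
noncomputable def sl {n k : ℕ} (G : Fin k → SimpleGraph (Fin n)) (e : Fin 3 → Fin k) : ℝ :=
  ∑ l ∈ oth e, ((n : ℝ) - gammaT (G l))

/-- sum of the three special total domination numbers -/
noncomputable def sg {n k : ℕ} (G : Fin k → SimpleGraph (Fin n)) (e : Fin 3 → Fin k) : ℝ :=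
  ∑ i, (gammaT (G (e i)) : ℝ)

/-- the error term -/
noncomputable def RR (n k : ℕ) (θ s : ℝ) : ℝ := (450 + 225 * k ^ 2) / n + 2700 * k * θ ^ 2 * s

/-- the maximum of `a b c`, `a, b, c` even, `a + b + c = 2 q + 12` -/
def TT (q : ℕ) : ℕ := 8 * (((q + 6) / 3) * ((q + 7) / 3) * ((q + 8) / 3))

/-! ### Upper bound -/

/-- STR (stability; helper44). -/
def Stmt_STR : Prop :=
  ∀ (k : ℕ) (θ : ℝ), 3 ≤ k → 0 < θ → θ ≤ 1 / 1000 → ∃ n0 : ℕ, ∀ n : ℕ, n0 ≤ n →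
    ∀ G : Fin k → SimpleGraph (Fin n), IsFactorization G →
    1 / 27 * (NN n : ℝ) ^ k ≤ ∏ j, (gammaT (G j) : ℝ) → ∃ e : Fin 3 → Fin k, Sit G e θ

/-- SPC (70 lines). For all `x₁, x₂ ∈ Y`, `y₁, y₂ ∈ Z`: `gammaT_le_add` with the set `{x₁, x₂, y₁, y₂} ∪ D`. Sum over all
choices: `|Y|² |Z|² γ ≤ |Y|² |Z|² (4 + |D|) + ∑_v (number of the choices without a neighbour of v)`, the last number being
`((|Y| - dg Y v) (|Z| - dg Z v))²`; divide. -/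
def Stmt_SPC : Prop :=
  ∀ (n : ℕ) (H : SimpleGraph (Fin n)) (Y Z D : Finset (Fin n)), (∀ v, ∃ w, H.Adj v w) →
    Y.Nonempty → Z.Nonempty →
    (gammaT H : ℝ) ≤ 4 + D.card +
      ∑ v ∈ und H D, (nf H Y v * nf H Z v) ^ 2

/-- CVX (60 lines), real numbers. If some `t_j = 1` then `x_j = 1` (easy). Otherwise let `P_j = (x_j - t_j)/(1 - t_j)`,
`s_j = t_j²`: `x_j² ≤ P_j + (1 - P_j) s_j`, `(1 + t_j - x_j)² ≤ (1 - P_j) + P_j s_j` (convexity on `[t_j, 1]`). The resulting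
bound is affine in every `P_j` and every `s_j`; at `P_j ∈ {0, 1}` it is at most `1 + s₀ + s₁ + s₂`
(`(1-P₁)P₂ + (1-P₂)P₀ + (1-P₀)P₁ ≤ 1`, and the coefficient of every `s_j` is at most `1`, etc.). -/
def Stmt_CVX : Prop :=
  ∀ x t : Fin 3 → ℝ, (∀ j, 0 ≤ t j) → (∀ j, t j ≤ x j) → (∀ j, x j ≤ 1) →
    ∑ i, ((1 + t (i + 1) - x (i + 1)) * x (i + 2)) ^ 2 ≤ 1 + ∑ j, t j ^ 2

/-- CV2 (40 lines), real numbers, the same without squares: affine in every `x_j`, for `x_j ∈ {t_j, 1}` compute. -/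
def Stmt_CV2 : Prop :=
  ∀ x t : Fin 3 → ℝ, (∀ j, 0 ≤ t j) → (∀ j, t j ≤ x j) → (∀ j, x j ≤ 1) →
    ∑ i, (1 + t (i + 1) - x (i + 1)) * x (i + 2) ≤ 1 + ∑ j, t j

/-- TAU (90 lines). `0 ≤ A ≤ 1` from `dg Y v ≤ |Y|`. The neighbourhoods of `v` in different colours are disjoint, and every
`y ∈ Y_j` with `y ≠ v` is a neighbour of `v` in exactly one colour: `∑_l dg (G l) Y_j v = |Y_j| - [v ∈ Y_j]`, the sum over
`e 0, e 1, e 2` and `oth e`. -/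
def Stmt_TAU : Prop :=
  ∀ (n k : ℕ) (G : Fin k → SimpleGraph (Fin n)) (e : Fin 3 → Fin k) (θ : ℝ), Sit G e θ →
    (∀ i j v, 0 ≤ A G e θ i j v ∧ A G e θ i j v ≤ 1) ∧
    ∀ j v, 0 ≤ ta G e θ j v ∧ ta G e θ j v ≤ 1 ∧
      ta G e θ j v * ((low (G (e j)) θ).card : ℝ) ≤
        1 + dg (G (e j)) (low (G (e j)) θ) v + ∑ l ∈ oth e, (dg (G l) univ v : ℝ)

/-- SUM (70 lines; uses SPC CVX TAU). SPC for the colours `e i` with `Y = Y_{i+1}`, `Z = Y_{i+2}`, `D = D i`, and CVX with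
`t j = ta j v`, `x j = A (j+1) j v` (then `1 + t (i+1) - x (i+1) = A i (i+1) v` as `(i+1)+2 = i`, `x (i+2) = A i (i+2) v`
as `(i+2)+1 = i`). First part: `D = ∅`. -/
def Stmt_SUM : Prop :=
  ∀ (n k : ℕ) (G : Fin k → SimpleGraph (Fin n)) (e : Fin 3 → Fin k) (θ : ℝ), Sit G e θ →
    (∀ v, ∑ i, al G e θ i v ≤ 1 + ∑ i, ta G e θ i v ^ 2) ∧
    (∀ i, (gammaT (G (e i)) : ℝ) ≤ 4 + ∑ v, al G e θ i v) ∧
    ∀ i0 : Fin 3, ∀ z : Fin n,
      sg G e ≤ 13 + ∑ v, ∑ i, al G e θ i v -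
        ∑ v ∈ nb (G (e i0)) z, al G e θ i0 v

/-- EXP (20 lines). `gammaT_le_add`. So `|N(W)| = n - |und H W| ≤ |W| + (n - γ)`. -/
def Stmt_EXP : Prop :=
  ∀ (n : ℕ) (H : SimpleGraph (Fin n)) (W : Finset (Fin n)), (∀ v, ∃ w, H.Adj v w) →
    gammaT H ≤ W.card + (und H W).card

/-- DG2 (90 lines; uses EXP). First: EXP for `{v}`. Second: `B` a maximal set of vertices of degree at least 2 with
pairwise disjoint neighbourhoods; `|N(B)| = ∑ deg ≥ 2 |B|` and EXP give `|B| ≤ s`, `W = N(B)` has at most `2 s` elements,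
EXP: `|N(W)| ≤ 3 s`; all vertices of degree at least 2 are in `N(W)`. -/
def Stmt_DG2 : Prop :=
  ∀ (n : ℕ) (H : SimpleGraph (Fin n)), (∀ v, ∃ w, H.Adj v w) →
    (∀ v, dg H univ v ≤ n - gammaT H + 1) ∧
    (univ.filter (fun v => 2 ≤ dg H univ v)).card ≤ 3 * (n - gammaT H)

/-- SQD (80 lines; uses DG2). Cauchy-Schwarz: `(∑_l d_l)² ≤ k ∑_l d_l²`; `∑_v d_l(v)² ≤ n + 3 s (s+1)² ≤ n + 12 s³`,
`s = n - γ_l ≤ θ n` (`s = 0`: all degrees are 1), `s³ ≤ θ² n² s`. -/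
def Stmt_SQD : Prop :=
  ∀ (n k : ℕ) (G : Fin k → SimpleGraph (Fin n)) (e : Fin 3 → Fin k) (θ : ℝ), Sit G e θ →
    ∑ v, (∑ l ∈ oth e, (dg (G l) univ v : ℝ)) ^ 2 ≤ k ^ 2 * n + 12 * k * θ ^ 2 * n ^ 2 * sl G e

/-- TSQ (100 lines; uses TAU SQD). `τ_i² ≤ (25/n²)(1 + d_i + D)² ≤ (75/n²)(1 + d_i² + D²)`, `d_i = dg (G (e i)) Y_i v`,
`D = ∑_{oth} dg`. If all `d_i ≤ Δ`: `∑_v d_i² ≤ Δ ∑_v d_i(v) = Δ ∑_{y ∈ Y_i} deg y ≤ Δ θ n²`; if all `d_i ≤ 1` then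
`∑_v d_i² ≤ n`. -/
def Stmt_TSQ : Prop :=
  ∀ (n k : ℕ) (G : Fin k → SimpleGraph (Fin n)) (e : Fin 3 → Fin k) (θ : ℝ), Sit G e θ →
    ((∀ i v, dg (G (e i)) (low (G (e i)) θ) v ≤ 1) →
      ∑ v, ∑ i, ta G e θ i v ^ 2 ≤ RR n k θ (sl G e)) ∧
    ∀ Δ : ℕ, (∀ i v, dg (G (e i)) (low (G (e i)) θ) v ≤ Δ) →
      ∑ v, ∑ i, ta G e θ i v ^ 2 ≤ RR n k θ (sl G e) + 225 * θ * Δ

/-- ADD (100 lines; uses SUM TSQ). If all `d_i(v) ≤ 1`: `sg ≤ 12 + ∑ al ≤ 12 + n + ∑ τ²`. Otherwise let `Δ ≥ 2` be the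
maximum of the `d_i(v)`, attained for `i0`, `z`: the neighbours `y ∈ Y_{i0}` of `z` in the colour `e i0` have
`A i0 j y ≥ 1 - θ n/(n/5) = 1 - 5 θ`, `al i0 y ≥ 1 - 20 θ`, so by SUM `sg ≤ 13 + n + RR + 225 θ Δ - Δ (1 - 20 θ)`, and
`Δ (1 - 245 θ) ≥ 3/2`. -/
def Stmt_ADD : Prop :=
  ∀ (n k : ℕ) (G : Fin k → SimpleGraph (Fin n)) (e : Fin 3 → Fin k) (θ : ℝ), Sit G e θ →
    sg G e ≤ n + 12 + RR n k θ (sl G e) ∧
    ((∃ i v, 2 ≤ dg (G (e i)) (low (G (e i)) θ) v) → sg G e ≤ n + 23 / 2 + RR n k θ (sl G e))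

/-! ### Upper bound: parity -/

/-- Extremal situation with small parameters. -/
structure Ext {n k : ℕ} (G : Fin k → SimpleGraph (Fin n)) (e : Fin 3 → Fin k) (θ ε : ℝ) :
    Prop where
  sit : Sit G e θ
  ep : 0 < ε
  ep' : ε ≤ 1 / 1000
  one : ∀ i v, dg (G (e i)) (low (G (e i)) θ) v ≤ 1
  four : ∀ l, (∀ i, l ≠ e i) → n ≤ gammaT (G l) + 4
  sum : (n : ℝ) + 12 ≤ sg G e
  tsq : ∑ v, ∑ i, ta G e θ i v ^ 2 ≤ ε
  tau : ∀ i v, ta G e θ i v ≤ (10 + 25 * k) / n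
  tau' : (10 + 25 * (k : ℝ)) / n ≤ ε
  small : (θ + 6 * ε) * (10 + 25 * k) ≤ 1 / 4

/-- `t` gives the types of the vertices: if `t v = i` then `v` has, in the colour `e i`, only few neighbours in
`Y_{i+1}` and in `Y_{i+2}`. -/
def IsTyp {n k : ℕ} (G : Fin k → SimpleGraph (Fin n)) (e : Fin 3 → Fin k) (θ ε : ℝ)
    (t : Fin n → Fin 3) : Prop :=
  (∀ v, 1 - 5 * ε ≤ A G e θ (t v) (t v + 1) v ∧ 1 - 5 * ε ≤ A G e θ (t v) (t v + 2) v) ∧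
  ∑ v, ((1 - A G e θ (t v) (t v + 1) v) + (1 - A G e θ (t v) (t v + 2) v)) ≤ 2 * ε

/-- TYP (120 lines; uses CV2 TAU SUM). `δ(v) = 1 + ∑ τ_i(v)² - ∑ al_i(v) ≥ 0`, `∑ δ ≤ 2 ε` (`n + 12 ≤ sg ≤ 12 + ∑ al`,
`∑ τ² ≤ ε`). So `∑_i al_i(v) ≥ 1 - 2 ε`. With `β_i = A i (i+1) v * A i (i+2) v`, CV2: `∑ β_i ≤ 1 + ∑ τ_i ≤ 1 + 3 ε`, so
`max β ≥ (1 - 2 ε)/(1 + 3 ε) ≥ 1 - 5 ε`; `t v` = an `i` with `β_i ≥ 1 - 5 ε`. Let `u = 1 - A i (i+1) v`,
`w = 1 - A i (i+2) v`, both in `[0, 5 ε]`. `A (i+2) (i+1) v = u + τ_{i+1}`, `A (i+1) (i+2) v = w + τ_{i+2}`, so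
`al_{i+2} ≤ (u + τ_{i+1})²`, `al_{i+1} ≤ (w + τ_{i+2})²`, and
`∑ al ≤ (1-u)²(1-w)² + (u + τ_{i+1})² + (w + τ_{i+2})² ≤ 1 + τ_{i+1}² + τ_{i+2}² - (u + w)`, i.e. `u + w ≤ δ(v)`. -/
def Stmt_TYP : Prop :=
  ∀ (n k : ℕ) (G : Fin k → SimpleGraph (Fin n)) (e : Fin 3 → Fin k) (θ ε : ℝ), Ext G e θ ε →
    ∃ t : Fin n → Fin 3, IsTyp G e θ ε t

/-- XCA (100 lines; uses TAU SUM). For `t v ≠ i`: if `t v = i + 1` then `A i (i+2) v = 1 + τ_{i+2} - A (i+1) (i+2) v`,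
if `t v = i + 2` then `A i (i+1) v = 1 + τ_{i+1} - A (i+2) (i+1) v`; so `al i v ≤ (τ + u)² ≤ 2 τ² + 2 u²`, `u` the deficit of
`IsTyp`, `∑_{t v ≠ i} al i v ≤ 2 ε + 2 (5 ε)(2 ε) < 1/2`. So `γ_i ≤ 4 + |X_i| + 1/2`, `γ_i ≤ 4 + |X_i|`; the sum of these is
`12 + n ≤ sg`, so equality. -/
def Stmt_XCA : Prop :=
  ∀ (n k : ℕ) (G : Fin k → SimpleGraph (Fin n)) (e : Fin 3 → Fin k) (θ ε : ℝ)
    (t : Fin n → Fin 3), Ext G e θ ε → IsTyp G e θ ε t → ∀ i,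
    gammaT (G (e i)) = (univ.filter (fun v => t v = i)).card + 4 ∧
    ∑ v ∈ univ.filter (fun v => t v ≠ i), al G e θ i v ≤ 1 / 2

/-- DSJ (100 lines; uses XCA). By XCA the mean number of the undominated vertices outside `X_i` is less than 1, so there is a
choice of the four vertices which dominates all of `V ∖ X_i` (counting as in SPC). If `v ≠ v'` in `X_i` have a common
neighbour `w`: the four, `w`, and one neighbour for each of the other vertices of `X_i`: a total dominating set with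
`4 + |X_i| - 1` elements. -/
def Stmt_DSJ : Prop :=
  ∀ (n k : ℕ) (G : Fin k → SimpleGraph (Fin n)) (e : Fin 3 → Fin k) (θ ε : ℝ)
    (t : Fin n → Fin 3), Ext G e θ ε → IsTyp G e θ ε t → ∀ i v v' w, t v = i → t v' = i →
    (G (e i)).Adj v w → (G (e i)).Adj v' w → v = v'

/-- OUT (200 lines; uses TAU XCA). Suppose `t v = i`, `t w = j ≠ i`, `v, w` adjacent in the colour `e i`; `l` the third
index. Choose `x ∈ Y_j`, `y₁, y₂ ∈ Y_l` at random and use `{w, x, y₁, y₂}`: the mean number of the vertices `u` with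
`t u ≠ i` without neighbour in this set is at most the sum of `A i j u * (A i l u)²` over the `u` which are not
neighbours of `w`. For `t u = j`: `A i l u = 1 + τ_l - A j l u ≤ τ + deficit`, the sum of the squares is at most
`2 ε + 20 ε² ≤ 1/8`. For `t u = l`: `A i j u = 1 + τ_j - A l j u ≤ τ_j(u) + deficit`, the deficits sum to at most `2 ε`, and
`∑ τ_j(u) ≤ (10 + 25 k)/n * #{u : t u = l, u not adjacent to w}`, where
`#{..} ≤ #{u ∉ ∪ Y} + #{u ∈ Y_l not adjacent to w} ≤ θ n + A i l w * |Y_l| ≤ (θ + 6 ε) n`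
(`A i l w = 1 + τ_l - A j l w ≤ 6 ε`; `u ∈ Y_m` implies `t u = m`, because `A m j' u ≥ 1 - 5 θ` for all `j'`, and
`A m l' u + A (t u) l' u = 1 + τ ≤ 1 + ε` for the third index `l'`). Total `< 1`, so some choice dominates all of
`V ∖ X_i`, and `w` dominates `v`: a total dominating set with at most `4 + |X_i| - 1 < γ` elements. -/
def Stmt_OUT : Prop :=
  ∀ (n k : ℕ) (G : Fin k → SimpleGraph (Fin n)) (e : Fin 3 → Fin k) (θ ε : ℝ)
    (t : Fin n → Fin 3), Ext G e θ ε → IsTyp G e θ ε t → ∀ i v w, t v = i →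
    (G (e i)).Adj v w → t w = i

/-- PAR (70 lines; uses TYP XCA DSJ OUT). Every `v ∈ X_i` has exactly one neighbour in the colour `e i`, it is in `X_i`:
`G (e i)` is a perfect matching of `X_i` (fixed point free involution), `|X_i|` is even. `n = ∑ |X_i|`. -/
def Stmt_PAR : Prop :=
  ∀ (n k : ℕ) (G : Fin k → SimpleGraph (Fin n)) (e : Fin 3 → Fin k) (θ ε : ℝ), Ext G e θ ε →
    Even n ∧ ∀ i, Even (gammaT (G (e i)))

/-- MXT (80 lines; uses TAU DG2 ADD TSQ): from the situation to `Ext`. `sl ≤ 4 k`, so `RR n k θ (sl) ≤ RR n k θ (4 k) ≤ ε`.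
By ADD (`ε < 1/2`) all `d_i(v) ≤ 1`; TSQ. `tau`: `τ |Y| ≤ 1 + 1 + ∑_{oth} dg ≤ 2 + 5 k` by TAU and DG2 (`dg ≤ 4 + 1`),
`|Y| ≥ n/5`. -/
def Stmt_MXT : Prop :=
  ∀ (n k : ℕ) (G : Fin k → SimpleGraph (Fin n)) (e : Fin 3 → Fin k) (θ ε : ℝ), Sit G e θ →
    0 < ε → ε ≤ 1 / 1000 → RR n k θ (4 * k) ≤ ε → (10 + 25 * (k : ℝ)) / n ≤ ε →
    (θ + 6 * ε) * (10 + 25 * k) ≤ 1 / 4 → (∀ l, (∀ i, l ≠ e i) → n ≤ gammaT (G l) + 4) →
    (n : ℝ) + 12 ≤ sg G e → Ext G e θ ε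

/-! ### Upper bound: the product -/

/-- NUM (100 lines), natural numbers. -/
def Stmt_NUM : Prop :=
  (∀ q a b c : ℕ, Even a → Even b → Even c → a + b + c ≤ 2 * q + 12 → a * b * c ≤ TT q) ∧
  (∀ q : ℕ, 8 * (q + 6) ^ 3 ≤ 27 * TT q + 24 * (q + 7)) ∧
  (∀ q : ℕ, 27 * TT q ≤ 8 * (q + 6) ^ 3) ∧
  (∀ q : ℕ, q % 3 = 0 → 27 * TT q = 8 * (q + 6) ^ 3)

/-- PRD (90 lines), real numbers: `∏ (N - x_l) ≤ N^m e^{-σ/N}`, `σ = ∑ x_l`, `abc ≤ ((a+b+c)/3)³`, and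
`((n + 12 + r)/3)³ ≤ ((n+12)/3)³ e^{3 r/n}`. -/
def Stmt_PRD : Prop :=
  ∀ (k n N : ℕ) (γ : Fin k → ℕ) (e : Fin 3 → Fin k) (r : ℝ), 0 < N → N ≤ n →
    Function.Injective e → 0 ≤ r → (∀ l, γ l ≤ N) → (∑ i, (γ (e i) : ℝ)) ≤ n + 12 + r →
    ∏ l, (γ l : ℝ) ≤ (N : ℝ) ^ (k - 3) * (((n : ℝ) + 12) / 3) ^ 3 *
      Real.exp (3 * r / n - (∑ l ∈ oth e, ((N : ℝ) - γ l)) / N)

/-- UPF (200 lines; uses STR ADD MXT PAR NUM PRD): the upper bound. Every total domination number is at most `NN n`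
(`lin`, see `BAS.lean`, `gammaT ≤ NN`). Given `k`, choose `ε`, then `θ`, then `n` large, so that `RR n k θ s ≤ ε (1 + s)`
etc. Let `G` be a factorization with a larger product; then the product is at least `N^k/27`: STR, ADD. Let
`σ = ∑_{oth} (N - γ_l)` (a natural number), `sl ≤ σ + k`. If `σ ≥ 4` (`n` odd) or `σ ≥ 1` (`n` even): PRD with
`r = ε' (1 + σ)`. If `σ ≤ 3` then `sg ≤ n + 12` (integers); if `sg = n + 12`: MXT, PAR (`n` is even, all three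
numbers are even: `TT` by NUM); if `sg ≤ n + 11`: for odd `n` AM-GM, for even `n` compare with `TT` (NUM, `n` large). -/
def Stmt_UPF : Prop :=
  ∀ k : ℕ, 3 ≤ k → ∃ n0 : ℕ, ∀ n : ℕ, n0 ≤ n →
    27 * P n k ≤ NN n ^ (k - 3) * (NN n + 12) ^ 3 ∧
    (Even n → P n k ≤ NN n ^ (k - 3) * TT (n / 2))

/-! ### Lower bound -/

/-- LOW (helper66). -/
def Stmt_LOW : Prop :=
  ∀ k : ℕ, 28 ≤ k → ∃ n0 : ℕ, ∀ n : ℕ, n0 ≤ n → NN n ^ (k - 3) * TT (n / 2) ≤ P n k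

/-! ### Result -/

/-- FIN (30 lines; uses UPF LOW NUM). -/
def Stmt_FIN : Prop :=
  (∀ k : ℕ, 3 ≤ k → ∃ n0 : ℕ, ∀ n : ℕ, n0 ≤ n → 27 * P n k ≤ NN n ^ (k - 3) * (NN n + 12) ^ 3) ∧
  (∀ k : ℕ, 28 ≤ k → ∃ n0 : ℕ, ∀ n : ℕ, n0 ≤ n →
    NN n ^ (k - 3) * TT (n / 2) ≤ P n k ∧
    (Even n ∨ n % 6 = 1 → P n k = NN n ^ (k - 3) * TT (n / 2)))

end Pool.Agent.Work.MP_1ce445_fx
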