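import Pool.Agent.Work.MP_1ce445_fx.InterfaceM

/-!
THEOREM STAIRCASE for MP_1ce445_co, fourth phase (helper66): the parity argument for every `m ≥ 2`. If
`k^(2m-1) ≤ δ n^(2m-3)` then `27 P n k ≤ N^(k-3) (N + 6m)³`, and `P n k ≤ N^(k-3) TTm m (n/2)` for even `n`.

The blocks are copies of the typed files of the second phase (`TYU XCU DSU YXU OUU PAU MXU UU3`) with `m` in the place
of `2`. Files `Pool/Agent/Work/MP_1ce445_fx/<ID>.lean`, `import Pool.Agent.Work.MP_1ce445_fx.InterfaceP`.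
-/

namespace Pool.Agent.Work.MP_1ce445_fx

open Finset Pool.Agent.Work.MP_1ce445_co_56 Pool.Agent.Work.MP_1ce445_lin

/-- Extremal situation with small parameters, general `m`. -/
structure ExtM {n k : ℕ} (m : ℕ) (G : Fin k → SimpleGraph (Fin n)) (e : Fin 3 → Fin k) (θ ε : ℝ) :
    Prop where
  m2 : 2 ≤ m
  sit : Sit G e θ
  ep : 0 < ε
  ep' : 1000 * 100 ^ m * ε ≤ 1
  one : ∀ i v, dg (G (e i)) (low (G (e i)) θ) v ≤ 1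
  sum : (n : ℝ) + 6 * m ≤ sg G e
  tsm : ∑ v, ∑ i, ta G e θ i v ^ m ≤ ε
  tau : ∀ i v, ta G e θ i v ≤ (10 + 25 * k) / n
  tau' : (10 + 25 * (k : ℝ)) / n ≤ ε
  small : 2 ^ m * 6 * ε * (10 + 25 * (k : ℝ)) ^ (m - 1) ≤ (n : ℝ) ^ (m - 2) / 4
  rst : ((univ.filter (fun v => ∀ i, v ∉ low (G (e i)) θ)).card : ℝ) ≤ θ / 2 * n
  sth : 40 * ε ≤ θ

/-- TYM (120 lines; uses CV2 TAU SMM), like `TYU.lean`. `δ(v) = 1 + ∑ τ^m - ∑ am ≥ 0`, `∑ δ ≤ 2 ε`. `β_i = A i (i+1) A i (i+2)`,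
`∑ β_i ≤ 1 + 3 ε` (CV2), `∑ β_i^m ≥ 1 - 2 ε`, `∑ β_i^m ≤ (max β)^(m-1) ∑ β_i`, so `max β ≥ (max β)^(m-1) ≥ 1 - 5 ε`. With
`u = 1 - A i (i+1) v`, `w = 1 - A i (i+2) v`: `∑ am ≤ (1-u)^m (1-w)^m + (u + τ)^m + (w + τ')^m` and
`(u + τ)^m ≤ τ^m + m (u + τ)^(m-1) u ≤ τ^m + u/2`, `(1-u)^m (1-w)^m ≤ (1-u)² (1-w)² ≤ 1 - (3/2)(u + w)`. -/
def Stmt_TYM : Prop :=
  ∀ (m n k : ℕ) (G : Fin k → SimpleGraph (Fin n)) (e : Fin 3 → Fin k) (θ ε : ℝ),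
    ExtM m G e θ ε → ∃ t : Fin n → Fin 3, IsTyp G e θ ε t

/-- XCM (100 lines; uses SPM TAU), like `XCU.lean`. `am i v ≤ (τ + u)^m ≤ 2^m (τ^m + u^m)`, so
`∑_{t v ≠ i} am i v ≤ 2^m (ε + (5 ε)^(m-1) 2 ε) ≤ 1/2`. `γ_i ≤ 2 m + ∑ am i v` by SPM with `D = ∅`. -/
def Stmt_XCM : Prop :=
  ∀ (m n k : ℕ) (G : Fin k → SimpleGraph (Fin n)) (e : Fin 3 → Fin k) (θ ε : ℝ)
    (t : Fin n → Fin 3), ExtM m G e θ ε → IsTyp G e θ ε t → ∀ i,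
    gammaT (G (e i)) = (univ.filter (fun v => t v = i)).card + 2 * m ∧
    ∑ v ∈ univ.filter (fun v => t v ≠ i), am G e θ m i v ≤ 1 / 2

/-- DSM (100 lines; uses XCM), like `DSU.lean`, with `m` vertices of each set (functions `Fin m → Fin n`). -/
def Stmt_DSM : Prop :=
  ∀ (m n k : ℕ) (G : Fin k → SimpleGraph (Fin n)) (e : Fin 3 → Fin k) (θ ε : ℝ)
    (t : Fin n → Fin 3), ExtM m G e θ ε → IsTyp G e θ ε t → ∀ i v v' w, t v = i → t v' = i →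
    (G (e i)).Adj v w → (G (e i)).Adj v' w → v = v'

/-- YXM (60 lines; uses TAU): copy of `YXU.lean`. -/
def Stmt_YXM : Prop :=
  ∀ (m n k : ℕ) (G : Fin k → SimpleGraph (Fin n)) (e : Fin 3 → Fin k) (θ ε : ℝ)
    (t : Fin n → Fin 3), ExtM m G e θ ε → IsTyp G e θ ε t → ∀ u i,
    (t u = i ↔ u ∈ low (G (e i)) θ)

/-- OUM (200 lines; uses TAU XCM YXM), like `OUU.lean`: the set `{w}`, `m - 1` random vertices of `Y_j`, `m` random vertices of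
`Y_l`. Mean number of the undominated `u` with `t u ≠ i`: for `t u = j` at most `∑ (A i l u)^m ≤ 2^m (ε + (5ε)^(m-1) 2 ε) ≤ 1/8`;
for `t u = l`, `u` not adjacent to `w`: `(A i j u)^(m-1) ≤ 2^(m-1) (τ^(m-1) + δ^(m-1))`, `δ^(m-1) ≤ δ`, `∑ δ ≤ 2 ε`,
`2^(m-1) · 2 ε ≤ 1/8`, and `2^(m-1) τ^(m-1)` summed over at most `6 ε n` vertices is at most
`2^m · 6 ε n ((10 + 25 k)/n)^(m-1) ≤ 1/4` by `small`. -/
def Stmt_OUM : Prop :=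
  ∀ (m n k : ℕ) (G : Fin k → SimpleGraph (Fin n)) (e : Fin 3 → Fin k) (θ ε : ℝ)
    (t : Fin n → Fin 3), ExtM m G e θ ε → IsTyp G e θ ε t → ∀ i v w, t v = i →
    (G (e i)).Adj v w → t w = i

/-- PAM (uses TYM XCM DSM OUM): copy of `PAU.lean`. -/
def Stmt_PAM : Prop :=
  ∀ (m n k : ℕ) (G : Fin k → SimpleGraph (Fin n)) (e : Fin 3 → Fin k) (θ ε : ℝ),
    ExtM m G e θ ε → Even n ∧ ∀ i, Even (gammaT (G (e i)))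

/-- MXM (uses TAU DG2 SMM TSM), like `MXU.lean` and `ADM.lean`. `d_i(v) ≤ 1`: otherwise let `Δ ≥ 2` be the maximum, attained
for `i0`, `z`: `sg ≤ n + 6 m + 1 + RM + 3·15^m θ Δ - Δ (1 - 10 m θ) ≤ n + 6 m + 1 + ε - (3/4) Δ < n + 6 m`. -/
def Stmt_MXM : Prop :=
  ∀ (m n k : ℕ) (G : Fin k → SimpleGraph (Fin n)) (e : Fin 3 → Fin k) (θ ε : ℝ), 2 ≤ m →
    100 * 15 ^ m * θ ≤ 1 → SitU G e θ →
    0 < ε → 1000 * 100 ^ m * ε ≤ 1 → RM m n k 3 ≤ ε → (10 + 25 * (k : ℝ)) / n ≤ ε →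
    2 ^ m * 6 * ε * (10 + 25 * (k : ℝ)) ^ (m - 1) ≤ (n : ℝ) ^ (m - 2) / 4 → 40 * ε ≤ θ →
    sn G e ≤ 3 → (n : ℝ) + 6 * m ≤ sg G e → ExtM m G e θ ε

/-- NUN (80 lines), like `NUM.lean`. -/
def Stmt_NUN : Prop :=
  (∀ m q a b c : ℕ, Even a → Even b → Even c → a + b + c ≤ 2 * q + 6 * m → a * b * c ≤ TTm m q) ∧
  (∀ m q : ℕ, 8 * (q + 3 * m) ^ 3 ≤ 27 * TTm m q + 24 * (q + 3 * m + 1)) ∧
  (∀ m q : ℕ, 27 * TTm m q ≤ 8 * (q + 3 * m) ^ 3) ∧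
  (∀ m q : ℕ, q % 3 = 0 → 27 * TTm m q = 8 * (q + 3 * m) ^ 3)

/-- UUN (250 lines; uses STU ADM MXM PAM NUN PRM), like `UU3.lean`. `ε = RM m n k 3 + (10 + 25 k)/n`; `k^(2m-1) ≤ δ n^(2m-3)`
implies `k^m ≤ δ' n^(m-1)` and all conditions of MXM (`RM m n k 3 ≤ C (1 + k^m)/n^(m-1)`, `k^m · k^(m-1) ≤ δ n^(2m-3)`). -/
def Stmt_UUN : Prop :=
  ∀ m : ℕ, 2 ≤ m → ∃ (δ : ℝ) (n0 : ℕ), 0 < δ ∧ ∀ n k : ℕ, n0 ≤ n → 3 ≤ k →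
    (k : ℝ) ^ (2 * m - 1) ≤ δ * (n : ℝ) ^ (2 * m - 3) →
    27 * P n k ≤ NN n ^ (k - 3) * (NN n + 6 * m) ^ 3 ∧
    (Even n → P n k ≤ NN n ^ (k - 3) * TTm m (n / 2))

end Pool.Agent.Work.MP_1ce445_fx
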