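import Pool.Agent.Work.MP_1ce445_fx.InterfaceM

/-!
STAIRCASES at `k = (1 - 1/M) n`, lower half (helper66). `n = 2 M q`, `k = (2M - 2) q + t`:
`(2Mq)^(k-M) (2(M-1)q + r)^M ≤ P (2Mq) k` if `C q^(r-2) ≤ t^(r-1)`, `C ≤ t`, `2 t ≤ q`.

Vertices `Fin M × Option (ZMod (2q-1))`: `M` parts of `2q` vertices. Files
`Pool/Agent/Work/MP_1ce445_fx/<ID>.lean`, `import Pool.Agent.Work.MP_1ce445_fx.InterfaceS`, rules as in `Interface.lean`.
-/

namespace Pool.Agent.Work.MP_1ce445_fx

open Finset Pool.Agent.Work.MP_1ce445_co_56 Pool.Agent.Work.MP_1ce445_lin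

/-- the vertices -/
abbrev VS (M q : ℕ) : Type := Fin M × Option (ZMod (2 * q - 1))

/-- a one-factorization of the complete multipartite graph of the pairs in different parts -/
structure Crs (M q : ℕ) (χ : VS M q → VS M q → Fin ((2 * M - 2) * q)) : Prop where
  sym : ∀ u v, χ u v = χ v u
  ex : ∀ u c, ∃ v, v.1 ≠ u.1 ∧ χ u v = c
  un : ∀ u v w, v.1 ≠ u.1 → w.1 ≠ u.1 → χ u v = χ u w → v = w

/-- SCR (200 lines; may import `MP_1ce445_lin/LEX, LUN, LSYM, PART`). `r = M - 1`, `2 r + 1 = 2 M - 1`; the `2 M` blocks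
`Option (ZMod (2r+1))` with `q` vertices each (`lin.X r q = Option (ZMod (2r+1)) × ZMod q`); the label `(a, b)`,
`a ≠ 0`, of two vertices of different blocks: `a = aOf` of the blocks, `b` the difference of the second coordinates in the
direction of increasing rank (`lin.lab` with `e = 0`). For given `a ≠ 0`, `b` and a vertex there is exactly one partner
(`aOf x ·` is a bijection onto `ZMod`), and the two blocks of a pair with `aOf ≠ 0` are in different parts
(`aOf x y = 0` iff `x = none, y = some 0` or `y = - x`). Part `i` = blocks `none, some 0` (`i = 0`), `some i, some (-i)`.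
Transport by a bijection `VS M q ≃ X r q` which maps part `i` onto the two blocks of part `i` (`2 q` elements each), and a
bijection of the labels `{(a, b) : a ≠ 0}` with `Fin ((2M-2) q)`. -/
def Stmt_SCR : Prop :=
  ∀ M q : ℕ, 2 ≤ M → 4 * M ^ 2 ≤ q → ∃ χ, Crs M q χ

open Classical in
/-- The factors. `L` ordinary labels, `s j` the label of the special colour `j` outside part `j`. -/
noncomputable def GS {M q : ℕ} (χ : VS M q → VS M q → Fin ((2 * M - 2) * q))
    (L : Finset (ZMod (2 * q - 1))) (s : Fin M → ZMod (2 * q - 1))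
    (i : Fin ((2 * M - 2) * q) ⊕ (L ⊕ Fin M)) : SimpleGraph (VS M q) :=
  SimpleGraph.fromRel (fun u v => match i with
    | Sum.inl c => u.1 ≠ v.1 ∧ χ u v = c
    | Sum.inr (Sum.inl l) => u.1 = v.1 ∧ lbl u.2 v.2 = l.1
    | Sum.inr (Sum.inr j) => u.1 = v.1 ∧ lbl u.2 v.2 ∉ L ∧
        (lbl u.2 v.2 = s j ∨ ((∀ j', lbl u.2 v.2 ≠ s j') ∧ u.1 = j)))

/-- GS1 (100 lines; cf. `GM1.lean`: `lbl` symmetric, `GM1_exl`: every vertex has a partner with given label). -/
def Stmt_GS1 : Prop :=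
  ∀ (M q : ℕ) (χ : VS M q → VS M q → Fin ((2 * M - 2) * q)) (L : Finset (ZMod (2 * q - 1)))
    (s : Fin M → ZMod (2 * q - 1)), 2 ≤ M → 2 ≤ q → Crs M q χ → Function.Injective s →
    (∀ j, s j ∉ L) → IsFactorization (GS χ L s)

/-- GS2 (100 lines; uses GS1; cf. `GM2.lean`): ordinary colours are perfect matchings, `card_le_gammaT`. -/
def Stmt_GS2 : Prop :=
  ∀ (M q : ℕ) (χ : VS M q → VS M q → Fin ((2 * M - 2) * q)) (L : Finset (ZMod (2 * q - 1)))
    (s : Fin M → ZMod (2 * q - 1)), 2 ≤ M → 2 ≤ q → Crs M q χ → Function.Injective s →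
    (∀ j, s j ∉ L) →
    (∀ c, 2 * M * q ≤ gammaT (GS χ L s (Sum.inl c))) ∧
    ∀ l, 2 * M * q ≤ gammaT (GS χ L s (Sum.inr (Sum.inl l)))

/-- GS3 (120 lines; uses GS1). In the special colour `j` a vertex outside part `j` has only one neighbour (label `s j`), which is
also outside part `j`: a total dominating set `S` contains all `2 (M-1) q` vertices outside part `j`. The neighbours of
the vertices of part `j` are in part `j`. If `T = S ∩ V_j` has at most `r - 1` elements then `Good` (with `R = 1`) gives `x`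
with `x ∉ T` and all labels `x, t` in `L`: `(j, x)` has no neighbour in `S`. -/
def Stmt_GS3 : Prop :=
  ∀ (M q r : ℕ) (χ : VS M q → VS M q → Fin ((2 * M - 2) * q)) (L : Finset (ZMod (2 * q - 1)))
    (s : Fin M → ZMod (2 * q - 1)), 2 ≤ M → 2 ≤ q → Crs M q χ → Function.Injective s →
    (∀ j, s j ∉ L) → 1 ≤ r → Good r q 1 one_pos L →
    ∀ j, 2 * (M - 1) * q + r ≤ gammaT (GS χ L s (Sum.inr (Sum.inr j)))

/-- SLO (100 lines; uses LBL SCR GS1 GS2 GS3). LBL for `m = r`, `R = 1`, `k' = t - M + 3`, so `|L| = t - M` (`C ≤ t` with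
`C ≥ 2 M + ..`, `k' ≥ t/2`); `s` any injective map into the complement of `L` (`t - M + M ≤ 2 q - 1`). `le_P` with
`VS M q` (`2 M q` elements) and the index type (`(2M-2) q + (t - M) + M` elements). -/
def Stmt_SLO : Prop :=
  ∀ M r : ℕ, 2 ≤ M → 2 ≤ r → ∃ (C : ℝ) (q0 : ℕ), ∀ q t : ℕ, q0 ≤ q →
    C * (q : ℝ) ^ (r - 2) ≤ (t : ℝ) ^ (r - 1) → C ≤ t → 2 * t ≤ q →
    (2 * M * q) ^ ((2 * M - 2) * q + t - M) * (2 * (M - 1) * q + r) ^ M ≤
      P (2 * M * q) ((2 * M - 2) * q + t)

end Pool.Agent.Work.MP_1ce445_fx
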