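import Pool.Agent.Work.MP_1ce445_fx.InterfaceQ

/-!
THEOREM STAIRCASE for MP_1ce445_co, sixth phase (helper94): THE THRESHOLD `k = 15` OF THE FIRST STEP IS SHARP.
(A) BLT: for all large even `n` and `3 ≤ k ≤ 14`: `P n k < n^(k-3) TT (n/2)`.
(B) AT15: for all large `n` divisible by 18, `15 ≤ k`, `k² ≤ δ n`: `P n k = n^(k-3) (n/3 + 4)³`.

Files `Pool/Agent/Work/MP_1ce445_fx/<ID>.lean`, `import Pool.Agent.Work.MP_1ce445_fx.InterfaceT`, rules as before:
`theorem stmt_<ID>` with the statements of the column `uses` as hypotheses in this order.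
-/

namespace Pool.Agent.Work.MP_1ce445_fx

open Finset Pool.Agent.Work.MP_1ce445_co_56 Pool.Agent.Work.MP_1ce445_lin

/-! ### (A) No equality for `k ≤ 14` -/

/-- the structure of a factorization with equality; `X_i = {v | t v = i}` -/
structure Str15 {n k : ℕ} (G : Fin k → SimpleGraph (Fin n)) (e : Fin 3 → Fin k)
    (t : Fin n → Fin 3) : Prop where
  fac : IsFactorization G
  inj : Function.Injective e
  own : ∀ v w, (G (e (t v))).Adj v w → t w = t v
  uni : ∀ v w w', (G (e (t v))).Adj v w → (G (e (t v))).Adj v w' → w = w'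
  oth : ∀ l, (∀ i, l ≠ e i) → ∀ v w w', (G l).Adj v w → (G l).Adj v w' → w = w'
  gam : ∀ i, (univ.filter (fun v => t v = i)).card + 4 ≤ gammaT (G (e i))
  big : ∀ i, n ≤ 5 * (univ.filter (fun v => t v = i)).card

/-- EQT (200 lines; uses STU ADM MXQ NUN PRM PQ1), the strict form of the even case of `UUQ.lean` / `UUN_core` for `m = 2`
(`k ≤ 14` is bounded, so all conditions on `k` hold for large `n`). `P_attained` (or `P_le`): a factorization with product
at least `N^(k-3) TT (n/2)`, `N = n`, which is more than `N^k/27`: STU gives `SitU` (`θ` as in `UUQ.lean`). `σ = sn G e`. If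
`σ ≥ 1`: PRM with `c = 12`, `r = 1/10 + σ/100`: the product is at most `n^(k-3) ((n+12)/3)³ e^(-2/(3n))`, less than
`n^(k-3) TT (n/2)` by `NUN.2.1` (`27 TT + 24 (q + 7) ≥ 8 (q + 6)³`). If `σ = 0` and `sg ≤ n + 11`: AM-GM, as
` (n + 11)³ < 27 TT (n/2)`. So `σ = 0` and `n + 12 ≤ sg`: MXQ (with the `ε` of PQ1). `TTm 2 q = TT q` by `rfl` / `unfold`. -/
def Stmt_EQT : Prop :=
  ∃ n0 : ℕ, ∀ n k : ℕ, n0 ≤ n → Even n → 3 ≤ k → k ≤ 14 → NN n ^ (k - 3) * TT (n / 2) ≤ P n k →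
    ∃ (G : Fin k → SimpleGraph (Fin n)) (e : Fin 3 → Fin k) (θ ε : ℝ),
      ExtQ 2 G e θ ε ∧ sn G e = 0 ∧ ∀ l, gammaT (G l) ≤ NN n

/-- STX (80 lines; uses TYQ XCQ DSQ YXQ OUQ DG2). `t` from TYQ. `own` is OUQ (with `i = t v`). `uni`: `w, w'` are in `X_i` by
`own` and have the common neighbour `v`: DSQ. `oth`: `sn = 0` and `γ_l ≤ N` give `γ_l = N = n` (`n` even), DG2: all degrees
are at most 1. `gam`: XCQ. `big`: `X_i = Y_i` (YXQ) and `Sit.big`. -/
def Stmt_STX : Prop :=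
  ∀ (n k : ℕ) (G : Fin k → SimpleGraph (Fin n)) (e : Fin 3 → Fin k) (θ ε : ℝ), Even n →
    ExtQ 2 G e θ ε → sn G e = 0 → (∀ l, gammaT (G l) ≤ NN n) → ∃ t, Str15 G e t

/-- LM2 (100 lines). Two-element sets of `F`: all contain a common point `a`, or three of them form a triangle on `{a, b, c}`
(pairwise intersecting). Triangle: weights `1/3` on `a, b, c` (every set of `F` contains two of them). Common point `a`,
`|M| = 4`: weights ` (2,1,1,1)/5` (a set of `F` without `a` has at least 3 elements, so it is `M ∖ {a}`). `|M| = 5`,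
`M = {a, b, c, d, f}`: if the two-element sets are `{a,b}` only: ` (2,2,1,1,1)/7` (all others have 3 elements and meet
`{a,b}`); `{a,b}, {a,c}`: ` (3,2,2,1,1)/9`; `{a,b}, {a,c}, {a,d}`: ` (2,1,1,1,0)/5`; all four: ` (3,1,1,1,1)/7` (a set without
`a` contains the second element of every two-element set). -/
def Stmt_LM2 : Prop :=
  ∀ (n : ℕ) (M : Finset (Fin n)) (F : Finset (Finset (Fin n))), M.card = 4 ∨ M.card = 5 →
    (∀ S ∈ F, S ⊆ M) → (∀ S ∈ F, ∀ S' ∈ F, (S ∩ S').Nonempty) → (∀ S ∈ F, 2 ≤ S.card) →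
    (∃ S ∈ F, S.card = 2) →
    ∃ μ : Fin n → ℝ, (∀ m, 0 ≤ μ m) ∧ (∀ m, m ∉ M → μ m = 0) ∧ ∑ m, μ m = 1 ∧
      ∀ S ∈ F, (29 - 2 * (M.card : ℝ)) / 35 ≤ ∑ m ∈ S, μ m

/-- LMW (100 lines; uses LM2). `F = ∅`: uniform weights on `M`. Otherwise let `s ≥ 1` be the smallest size of a set of `F`, `S₀` of
size `s`, `w = |M|`: weights `1/s` on `S₀` give `μ S ≥ 1/s`, weights `1/w` on `M` give `μ S ≥ s/w`. For `1 ≤ s ≤ w ≤ 11`:
`max (1/s) (s/w) ≥ (29 - 2 w)/35` except for `s = 2`, `w = 4, 5`: LM2. -/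
def Stmt_LMW : Prop :=
  ∀ (n : ℕ) (M : Finset (Fin n)) (F : Finset (Finset (Fin n))), 1 ≤ M.card → M.card ≤ 11 →
    (∀ S ∈ F, S ⊆ M) → (∀ S ∈ F, ∀ S' ∈ F, (S ∩ S').Nonempty) →
    ∃ μ : Fin n → ℝ, (∀ m, 0 ≤ μ m) ∧ (∀ m, m ∉ M → μ m = 0) ∧ ∑ m, μ m = 1 ∧
      ∀ S ∈ F, (29 - 2 * (M.card : ℝ)) / 35 ≤ ∑ m ∈ S, μ m

open Classical in
/-- window: the vertices of type `j` which are joined to `x` by none of the three special colours -/
noncomputable def wn {n k : ℕ} (G : Fin k → SimpleGraph (Fin n)) (e : Fin 3 → Fin k)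
    (t : Fin n → Fin 3) (j : Fin 3) (x : Fin n) : Finset (Fin n) :=
  univ.filter (fun m => t m = j ∧ m ≠ x ∧ ∀ i, ¬ (G (e i)).Adj x m)

/-- WCN (50 lines). The elements of the windows of `x` are joined to `x` by one of the `k - 3` other colours, and every
other colour joins `x` with at most one vertex. -/
def Stmt_WCN : Prop :=
  ∀ (n k : ℕ) (G : Fin k → SimpleGraph (Fin n)) (e : Fin 3 → Fin k) (t : Fin n → Fin 3),
    Str15 G e t → ∀ x, ∑ j, (wn G e t j x).card ≤ k - 3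

/-- WIN (100 lines). Otherwise `D = X_l ∪ {x, y, y'}` is a total dominating set of the colour `e l` with at most `|X_l| + 3`
elements, which contradicts `gam`. A pair of vertices of the types `i`, `j` has the colour `e l` or is not special
(`own`). Vertices of `X_l`: dominated by their partner (in `X_l`). `v ∈ X_j`: dominated by `x` if `v ∉ wn j x`, and by `y` or
`y'` if `v ∈ wn j x`. `v ∈ X_i`: dominated by `y` or `y'`, because not both are in `wn j v`. -/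
def Stmt_WIN : Prop :=
  ∀ (n k : ℕ) (G : Fin k → SimpleGraph (Fin n)) (e : Fin 3 → Fin k) (t : Fin n → Fin 3),
    Str15 G e t → ∀ (i j l : Fin 3) (x y y' : Fin n), i ≠ j → i ≠ l → j ≠ l → t x = i →
    t y = j → t y' = j → (∀ v, t v = i → y ∈ wn G e t j v → y' ∉ wn G e t j v) →
    ∃ m ∈ wn G e t j x, ¬ (G (e l)).Adj m y ∧ ¬ (G (e l)).Adj m y'

open Classical in
/-- WFR (150 lines; uses WCN WIN LMW). `M = wn j x`, `S_y = {m ∈ M | ¬ Adj m y}` (colour `e l`), `F` = the sets `S ⊆ M` with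
`S_y = S` for at least 122 vertices `y ∈ X_j`. For `y ∈ X_j` there are at most `11 · 11 = 121` vertices `y'` for which some
`v ∈ X_i` has `y, y' ∈ wn j v` (`v ∈ wn i y`, `y' ∈ wn j v`, WCN, `k - 3 ≤ 11`). So `F` is intersecting: for `S, S' ∈ F` take
`y` with `S_y = S`, then `y'` with `S_y' = S'` which is not one of these 121, WIN. `|M| ≤ 11`; `M ≠ ∅` (otherwise `F = {∅}`, as
`|X_j| ≥ n/5 ≥ 200`, and `∅` does not meet itself). `μ` from LMW. If `y ∈ X_j` violates the inequality then `S_y ∉ F`: at most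
`2^11 · 121 ≤ 250000` such `y`. -/
def Stmt_WFR : Prop :=
  ∀ (n k : ℕ) (G : Fin k → SimpleGraph (Fin n)) (e : Fin 3 → Fin k) (t : Fin n → Fin 3),
    Str15 G e t → k ≤ 14 → 1000 ≤ n → ∀ (i j l : Fin 3) (x : Fin n), i ≠ j → i ≠ l → j ≠ l →
    t x = i →
    ∃ μ : Fin n → ℝ, (∀ m, 0 ≤ μ m) ∧ (∀ m, m ∉ wn G e t j x → μ m = 0) ∧ ∑ m, μ m = 1 ∧
      (univ.filter (fun y => t y = j ∧
        ∑ m ∈ univ.filter (fun m => ¬ (G (e l)).Adj m y), μ m <
          (29 - 2 * ((wn G e t j x).card : ℝ)) / 35)).card ≤ 250000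

/-- WPR (200 lines; uses WCN WFR). For `x ∈ X_i` let `μ_x` be from WFR for ` (i, j, l)`, for `x ∈ X_l` from WFR for
` (l, j, i)`; `ν = (1/|X_i|) ∑_{x ∈ X_i} μ_x`, `ν' = (1/|X_l|) ∑_{x ∈ X_l} μ_x`, two probability weights on `X_j`. Every
`y ∈ X_j` is in `wn j x` for at most `|wn l y| ≤ 11` of the `x ∈ X_l` (the relation is symmetric), and `μ_x y ≤ 1`, so
`ν' y ≤ 11/|X_l| ≤ 55/n`, in the same way `ν y ≤ 55/n`. Choose `m` with the weights `ν` and `y` with the weights `ν'`. For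
`p = P(¬ Adj_{e l} m y)`: `p = (1/|X_i|) ∑_x ∑_y ν' y · μ_x {m | ¬ Adj_{e l} m y} ≥
(1/|X_i|) ∑_x (29 - 2 |wn j x|)/35 - 250000 · 55/n`. For `p' = P(¬ Adj_{e i} m y)` the same with the roles exchanged
(`m` is now the second point; `Adj` is symmetric): `p' ≥ (1/|X_l|) ∑_{x ∈ X_l} (29 - 2 |wn j x|)/35 - 250000 · 55/n`. And
`[¬ Adj_{e l} m y] + [¬ Adj_{e i} m y] = 1 + [neither]`, where for given `m ∈ X_j` at most `1 + 1 + 11` vertices `y ∈ X_j` are
joined to `m` by neither (`y = m`, its partner in the colour `e j`, and `wn j m`): `p + p' ≤ 1 + 13 · 55/n`. -/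
def Stmt_WPR : Prop :=
  ∀ (n k : ℕ) (G : Fin k → SimpleGraph (Fin n)) (e : Fin 3 → Fin k) (t : Fin n → Fin 3),
    Str15 G e t → k ≤ 14 → 1000 ≤ n → ∀ (i j l : Fin 3), i ≠ j → i ≠ l → j ≠ l →
    (∑ x ∈ univ.filter (fun x => t x = i), (29 - 2 * ((wn G e t j x).card : ℝ)) / 35) /
        ((univ.filter (fun x => t x = i)).card : ℝ) +
      (∑ x ∈ univ.filter (fun x => t x = l), (29 - 2 * ((wn G e t j x).card : ℝ)) / 35) /
        ((univ.filter (fun x => t x = l)).card : ℝ) ≤ 1 + 30000000 / n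

/-- BLT (80 lines; uses EQT STX WCN WPR). Otherwise EQT, STX give `Str15`. Add WPR for ` (i, j, l) = (1, 0, 2), (2, 1, 0),
(0, 2, 1)`: for every `i` the two mean values with `x ∈ X_i` together are at least ` (58 - 2 · 11)/35 = 36/35` by WCN. So
`108/35 ≤ 3 + 9 · 10^7/n`, impossible for `n > 2 · 10^9`. -/
def Stmt_BLT : Prop :=
  ∃ n0 : ℕ, ∀ n k : ℕ, n0 ≤ n → Even n → 3 ≤ k → k ≤ 14 →
    P n k < NN n ^ (k - 3) * TT (n / 2)

/-! ### (B) Equality for `k ≥ 15`, `18 ∣ n` -/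

/-- a one-factorization of `K_(6,6,6)` -/
structure Oct (χ : Fin 3 → ZMod 6 → Fin 3 → ZMod 6 → Fin 12) : Prop where
  sym : ∀ i p j q, χ i p j q = χ j q i p
  ex : ∀ i p c, ∃ j q, j ≠ i ∧ χ i p j q = c
  un : ∀ i p j q j' q', j ≠ i → j' ≠ i → χ i p j q = χ i p j' q' → j = j' ∧ q = q'

/-- OCT (60 lines). Point ` (i, p)` ↦ ` (o, x)`, `x = p.val / 2 ∈ {0, 1, 2}`, `o ∈ {∞, 0, 1, 2, 3, 4}` given by ` (i, p.val % 2)`:
` (0,0) ↦ ∞`, ` (0,1) ↦ 0`, ` (1,0) ↦ 1`, ` (1,1) ↦ 4`, ` (2,0) ↦ 2`, ` (2,1) ↦ 3`. Label of `o, o'`: ` (o + o') % 5`, and `2 o % 5` for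
`∞, o`; it is nonzero for different `i`. `χ = 3 (label - 1) + (x + x') % 3` (for `i ≠ j`; `0` for `i = j`). Checked by computer;
by `decide` (for `un`: 18³ cases; use a table of natural numbers / `Fin` if `ZMod 6` is slow). -/
def Stmt_OCT : Prop := ∃ χ, Oct χ

/-- a symmetric function such that the values at three different points can be prescribed -/
structure Syf (s : ℕ) (f : ZMod s → ZMod s → ZMod 6) : Prop where
  sym : ∀ a b, f a b = f b a
  tri : ∀ a b c, a ≠ b → a ≠ c → b ≠ c → ∀ u v w, ∃ d, f d a = u ∧ f d b = v ∧ f d c = w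

/-- UNI (120 lines). Counting with `Row = ZMod s → ZMod 6` (`6^s` elements): for given different `a, b, c` and `u, v, w` the
number of the rows which do not satisfy `ψ a = u ∧ ψ b = v ∧ ψ c = w` is `6^s - 6^(s-3) = (215/216) 6^s`. So the number of
the functions `Fin m → Row` for which this fails for all `r < m` is ` ((215/216) 6^s)^m` (`Fintype.piFinset`), the number of
those which fail for some ` (a, b, c, u, v, w)` is at most `216 s³ (215/216)^m 6^(s m) < 6^(s m)` for `m = s/19`, `s` large. -/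
def Stmt_UNI : Prop :=
  ∃ s0 : ℕ, ∀ (s : ℕ) [NeZero s], s0 ≤ s → ∃ ψ : ℕ → ZMod s → ZMod 6,
    ∀ a b c : ZMod s, a ≠ b → a ≠ c → b ≠ c → ∀ u v w : ZMod 6,
      ∃ r : ℕ, 19 * r + 19 ≤ s ∧ ψ r a = u ∧ ψ r b = v ∧ ψ r c = w

/-- SYF (100 lines; uses UNI). `Q = {1, 4, 5, 6, 7, 9, 11, 16, 17}`, the nonzero squares modulo 19: `x ∈ Q → -x ∉ Q`, and for
all `a, b, c : ZMod 19` there is `d` with `d - a, d - b, d - c ∈ Q` (`decide`). For `x : ZMod s` let `ρ x = x.val` modulo 19,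
and `f x y = ψ (x.val / 19) y` if `ρ x - ρ y ∈ Q`, `ψ (y.val / 19) x` if `ρ y - ρ x ∈ Q`, `0` otherwise. `tri`: `d` for
`ρ a, ρ b, ρ c`, `r` from UNI, and the point `19 r + d < s`. -/
def Stmt_SYF : Prop :=
  ∃ s0 : ℕ, ∀ (s : ℕ) [NeZero s], s0 ≤ s → ∃ f : ZMod s → ZMod s → ZMod 6, Syf s f

/-- vertices: class, block, position (`18 s` vertices) -/
abbrev VT (s : ℕ) : Type := Fin 3 × ZMod s × ZMod 6

/-- The factors. `inl c`: perfect matchings of the pairs of different classes in the same block; `inr (inl l)`: pairs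
in the same class with label `l ∈ L` (label = sum of (block, position)); `inr (inr j)`, the special colours: pairs of
different classes and blocks get the third colour, in the class `i` the label ` (0, 1)` gets the colour `i`, all other
pairs `i + 1` or `i + 2`. -/
noncomputable def GT {s : ℕ} (χ : Fin 3 → ZMod 6 → Fin 3 → ZMod 6 → Fin 12)
    (f : ZMod s → ZMod s → ZMod 6) (L : Finset (ZMod s × ZMod 6)) (i : Fin 12 ⊕ (L ⊕ Fin 3)) :
    SimpleGraph (VT s) :=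
  SimpleGraph.fromRel (fun u v => match i with
    | Sum.inl c => u.1 ≠ v.1 ∧ u.2.1 = v.2.1 ∧ χ u.1 u.2.2 v.1 v.2.2 = c
    | Sum.inr (Sum.inl l) => u.1 = v.1 ∧ u.2 + v.2 = l.1
    | Sum.inr (Sum.inr j) => (u.1 ≠ v.1 ∧ u.2.1 ≠ v.2.1 ∧ -(u.1 + v.1) = j) ∨
        (u.1 = v.1 ∧ u.2 + v.2 ∉ L ∧ (if u.2 + v.2 = (0, 1) then u.1 = j else
          if u.2.2 + v.2.2 + f u.2.1 v.2.1 ∈ ({0, 1, 3} : Finset (ZMod 6)) then u.1 + 1 = j
          else u.1 + 2 = j)))

/-- TG1 (150 lines). The relation is symmetric; every pair `u ≠ v` has exactly one colour (different classes, same block: the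
colour `χ`; different classes and blocks: `-(i + j)`; same class: label in `L`, label ` (0, 1)`, or `f`). `minDeg`: `inl c`: `Oct.ex`;
`inr (inl l)`: ` (i, a, p) ↦ (i, h - a, 3 - p)` for `l = (h, 3)`, without fixed points (`2 p ≠ 3` in `ZMod 6`); colour `j`: for
a vertex of class `j` the partner ` (j, -a, 1 - p)` (`2 p ≠ 1`; label ` (0, 1) ∉ L`), otherwise a vertex of the third class
`-(j + i)` in another block. -/
def Stmt_TG1 : Prop :=
  ∀ (s : ℕ) [NeZero s] (χ : Fin 3 → ZMod 6 → Fin 3 → ZMod 6 → Fin 12)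
    (f : ZMod s → ZMod s → ZMod 6) (L : Finset (ZMod s × ZMod 6)), 2 ≤ s → Oct χ → Syf s f →
    (∀ l ∈ L, l.2 = 3) → IsFactorization (GT χ f L)

/-- TG2 (100 lines; uses TG1; cf. `GM2.lean`): the colours `inl c` and `inr (inl l)` are perfect matchings, `card_le_gammaT`
(`VT s` has `18 s` elements). -/
def Stmt_TG2 : Prop :=
  ∀ (s : ℕ) [NeZero s] (χ : Fin 3 → ZMod 6 → Fin 3 → ZMod 6 → Fin 12)
    (f : ZMod s → ZMod s → ZMod 6) (L : Finset (ZMod s × ZMod 6)), 2 ≤ s → Oct χ → Syf s f →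
    (∀ l ∈ L, l.2 = 3) →
    (∀ c, 18 * s ≤ gammaT (GT χ f L (Sum.inl c))) ∧
    ∀ l, 18 * s ≤ gammaT (GT χ f L (Sum.inr (Sum.inl l)))

/-- TG3 (220 lines; uses TG1; cf. `GM3.lean`). `S` a total dominating set of the colour `i`, `X_i` = class `i` (`6 s`
vertices). A vertex of `X_i` has in the colour `i` only the neighbour with label ` (0, 1)` (in `X_i`): `X_i ⊆ S`. Suppose
`T = S ∖ X_i` has at most 3 elements, `T_j` = those of class `j`. The neighbours of the colour `i` of a vertex ` (j, b, p)`, `j ≠ i`,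
`l` the third class, are: of class `l` only in blocks `≠ b`; of class `j` only ` (j, b', p')` with `p + p' + f b b' ∈ {0, 1, 3}`
(if `i = j + 1`), `∉ {0, 1, 3}` (if `i = j + 2`); of class `i` none. (1) If `|T_l| = 1`, in the block `b`, and `|T_j| ≤ 2`:
some ` (j, b, p)` has no neighbour in `S` (for all `x, y : ZMod 6` there is `p` with `p + x, p + y ∈ {0, 1, 3}`, and `p` with both
`∉`: `decide`). (2) If `T_l = ∅`, `|T_j| ≤ 3`: if `T_j` is in one block `b`, then ` (l, b, 0)` has no neighbour in `S`. Otherwise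
every block contains at most two elements of `T_j` and there is a value `u_b` of `f d b` which is good for both of them (as in
(1)); `Syf.tri` for the at most three blocks (fill up to three, `3 ≤ s`) gives `d`: ` (j, d, 0)` has no neighbour in `S`. One
of the two classes `l ≠ i` has `|T_l| ≤ 1`. -/
def Stmt_TG3 : Prop :=
  ∀ (s : ℕ) [NeZero s] (χ : Fin 3 → ZMod 6 → Fin 3 → ZMod 6 → Fin 12)
    (f : ZMod s → ZMod s → ZMod 6) (L : Finset (ZMod s × ZMod 6)), 3 ≤ s → Oct χ → Syf s f →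
    (∀ l ∈ L, l.2 = 3) →
    ∀ j, 6 * s + 4 ≤ gammaT (GT χ f L (Sum.inr (Sum.inr j)))

/-- LOT (60 lines; uses OCT SYF TG1 TG2 TG3). `L` = `k - 15 ≤ s` of the labels ` (h, 3)`; `le_P` with `VT s` (`18 s` elements) and
the index type (`12 + (k - 15) + 3 = k` elements). -/
def Stmt_LOT : Prop :=
  ∃ s0 : ℕ, ∀ s k : ℕ, s0 ≤ s → 15 ≤ k → k ≤ s →
    (18 * s) ^ (k - 3) * (6 * s + 4) ^ 3 ≤ P (18 * s) k

/-- AT15 (60 lines; uses UUQ LOT). `n = 18 s`, `q = n/2 = 9 s`: `TTm 2 q = (6 s + 4)³`; `k² ≤ δ n` gives `k ≤ s` for large `n`. -/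
def Stmt_AT15 : Prop :=
  ∃ (δ : ℝ) (n0 : ℕ), 0 < δ ∧ ∀ n k : ℕ, n0 ≤ n → 18 ∣ n → 15 ≤ k → (k : ℝ) ^ 2 ≤ δ * n →
    P n k = n ^ (k - 3) * (n / 3 + 4) ^ 3

end Pool.Agent.Work.MP_1ce445_fx
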