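import Pool.Agent.Work.MP_1ce445_fx.Interface

/-!
Block MXT of THEOREM FixedK: from the situation to `Ext`.
-/

namespace Pool.Agent.Work.MP_1ce445_fx

open Finset Pool.Agent.Work.MP_1ce445_co_56 Pool.Agent.Work.MP_1ce445_lin

theorem MXT_oth {k : ℕ} (e : Fin 3 → Fin k) : ((oth e).card : ℝ) ≤ k := by
  have h : (oth e).card ≤ k := by
    have h1 := card_le_univ (oth e)
    rwa [Fintype.card_fin] at h1
  exact_mod_cast h

theorem MXT_RR (n k : ℕ) (θ s t : ℝ) (h : s ≤ t) : RR n k θ s ≤ RR n k θ t := by
  unfold RR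
  have h1 : 0 ≤ 2700 * (k : ℝ) * θ ^ 2 := by positivity
  have := mul_le_mul_of_nonneg_left h h1
  linarith

theorem stmt_MXT (hTAU : Stmt_TAU) (hDG2 : Stmt_DG2) (hADD : Stmt_ADD) (hTSQ : Stmt_TSQ) :
    Stmt_MXT := by
  intro n k G e θ ε hS he0 he1 hRR htau hsm h4 hsg
  have hn : (0 : ℝ) < n := by exact_mod_cast hS.pos
  -- the sum over the other colours
  have hsl : sl G e ≤ 4 * k := by
    unfold sl
    calc ∑ l ∈ oth e, ((n : ℝ) - gammaT (G l)) ≤ ∑ _l ∈ oth e, (4 : ℝ) := by
          apply sum_le_sum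
          intro l hl
          have hl' : ∀ i, l ≠ e i := by
            unfold oth at hl
            exact (mem_filter.mp hl).2
          have h := h4 l hl'
          have h' : (n : ℝ) ≤ gammaT (G l) + 4 := by exact_mod_cast h
          linarith
      _ = 4 * ((oth e).card : ℝ) := by
          rw [sum_const, nsmul_eq_mul]
          ring
      _ ≤ 4 * k := by
          have := MXT_oth e
          linarith
  have hR : RR n k θ (sl G e) ≤ ε := (MXT_RR n k θ _ _ hsl).trans hRR
  have hone : ∀ i v, dg (G (e i)) (low (G (e i)) θ) v ≤ 1 := by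
    by_contra hcon
    push Not at hcon
    obtain ⟨i, v, hiv⟩ := hcon
    have h := (hADD n k G e θ hS).2 ⟨i, v, hiv⟩
    linarith
  refine ⟨hS, he0, he1, hone, h4, hsg, ?_, ?_, htau, hsm⟩
  · exact ((hTSQ n k G e θ hS).1 hone).trans hR
  · intro i v
    have h1 := ((hTAU n k G e θ hS).2 i v).2.2
    have h0 := ((hTAU n k G e θ hS).2 i v).1
    have hd : (dg (G (e i)) (low (G (e i)) θ) v : ℝ) ≤ 1 := by exact_mod_cast hone i v
    have hs : ∑ l ∈ oth e, (dg (G l) univ v : ℝ) ≤ 5 * k := by
      calc ∑ l ∈ oth e, (dg (G l) univ v : ℝ) ≤ ∑ _l ∈ oth e, (5 : ℝ) := by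
            apply sum_le_sum
            intro l hl
            have hl' : ∀ i, l ≠ e i := by
              unfold oth at hl
              exact (mem_filter.mp hl).2
            have h := h4 l hl'
            have h2 := (hDG2 n (G l) (fun v => hS.fac.minDeg l v)).1 v
            have h3 : dg (G l) univ v ≤ 5 := by omega
            exact_mod_cast h3
        _ = 5 * ((oth e).card : ℝ) := by
            rw [sum_const, nsmul_eq_mul]
            ring
        _ ≤ 5 * k := by
            have := MXT_oth e
            linarith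
    have hY := hS.big i
    rw [le_div_iff₀ hn]
    have h5 : ta G e θ i v * ((n : ℝ) / 5) ≤
        ta G e θ i v * ((low (G (e i)) θ).card : ℝ) := mul_le_mul_of_nonneg_left hY h0
    linarith

end Pool.Agent.Work.MP_1ce445_fx
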