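import Pool.Agent.Work.MP_1ce445_fx.InterfaceU

/-!
Block MXU of THEOREM FixedK, growing `k`: from the situation to `ExtU`.
-/

namespace Pool.Agent.Work.MP_1ce445_fx

open Finset Pool.Agent.Work.MP_1ce445_co_56 Pool.Agent.Work.MP_1ce445_lin

theorem MXU_oth {k : ℕ} (e : Fin 3 → Fin k) : ((oth e).card : ℝ) ≤ k := by
  have h : (oth e).card ≤ k := by
    have h1 := card_le_univ (oth e)
    rwa [Fintype.card_fin] at h1
  exact_mod_cast h

theorem MXU_RU (n k s t : ℕ) (h : s ≤ t) : RU n k s ≤ RU n k t := by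
  unfold RU
  have hst : (s : ℝ) ≤ t := by exact_mod_cast h
  have hs : (0 : ℝ) ≤ s := Nat.cast_nonneg _
  have hk : (0 : ℝ) ≤ k := Nat.cast_nonneg _
  have h1 : (s : ℝ) ^ 2 ≤ (t : ℝ) ^ 2 := pow_le_pow_left₀ hs hst 2
  have h2 : ((k : ℝ) + s) * (k + (s : ℝ) ^ 2) ≤ ((k : ℝ) + t) * (k + (t : ℝ) ^ 2) := by
    apply mul_le_mul
    · linarith
    · linarith
    · positivity
    · positivity
  have h3 : 2700 * ((k : ℝ) + s) * (k + (s : ℝ) ^ 2) / (n : ℝ) ^ 2 ≤
      2700 * ((k : ℝ) + t) * (k + (t : ℝ) ^ 2) / (n : ℝ) ^ 2 := by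
    apply div_le_div_of_nonneg_right _ (by positivity)
    linarith
  linarith

theorem stmt_MXU (hTAU : Stmt_TAU) (hDG2 : Stmt_DG2) (hADU : Stmt_ADU) (hTSU : Stmt_TSU) :
    Stmt_MXU := by
  intro n k G e θ ε hU he0 he1 hRU htau hsm hth hsn hsg
  have hS := hU.sit
  have hn : (0 : ℝ) < n := by exact_mod_cast hS.pos
  have hN : n ≤ NN n + 1 := by
    unfold NN
    omega
  have h4 : ∀ l, (∀ i, l ≠ e i) → n ≤ gammaT (G l) + 4 := by
    intro l hl
    have hm : l ∈ oth e := by
      unfold oth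
      rw [mem_filter]
      exact ⟨mem_univ _, hl⟩
    have h : NN n - gammaT (G l) ≤ sn G e := by
      unfold sn
      exact single_le_sum (f := fun l => NN n - gammaT (G l)) (fun _ _ => Nat.zero_le _) hm
    omega
  have hR : RU n k (sn G e) ≤ ε := (MXU_RU n k _ _ hsn).trans hRU
  have hone : ∀ i v, dg (G (e i)) (low (G (e i)) θ) v ≤ 1 := by
    by_contra hcon
    push Not at hcon
    obtain ⟨i, v, hiv⟩ := hcon
    have h := (hADU n k G e θ hU).2 ⟨i, v, hiv⟩
    linarith
  refine ⟨hS, he0, he1, hone, hsg, ?_, ?_, htau, hsm, hU.rst, hth⟩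
  · exact ((hTSU n k G e θ hU).1 hone).trans hR
  · intro i v
    have h1 := ((hTAU n k G e θ hS).2 i v).2.2
    have h0 := ((hTAU n k G e θ hS).2 i v).1
    have hd : (dg (G (e i)) (low (G (e i)) θ) v : ℝ) ≤ 1 := by exact_mod_cast hone i v
    have hs : ∑ l ∈ oth e, (dg (G l) univ v : ℝ) ≤ 5 * k := by
      calc ∑ l ∈ oth e, (dg (G l) univ v : ℝ) ≤ ∑ _l ∈ oth e, (5 : ℝ) := by
            apply sum_le_sum
            intro l hl
            have hl' : ∀ i, l ≠ e i := by
              unfold oth at hl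
              exact (mem_filter.mp hl).2
            have h := h4 l hl'
            have h2 := (hDG2 n (G l) (fun v => hS.fac.minDeg l v)).1 v
            have h3 : dg (G l) univ v ≤ 5 := by omega
            exact_mod_cast h3
        _ = 5 * ((oth e).card : ℝ) := by
            rw [sum_const, nsmul_eq_mul]
            ring
        _ ≤ 5 * k := by
            have := MXU_oth e
            linarith
    have hY := hS.big i
    rw [le_div_iff₀ hn]
    have h5 : ta G e θ i v * ((n : ℝ) / 5) ≤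
        ta G e θ i v * ((low (G (e i)) θ).card : ℝ) := mul_le_mul_of_nonneg_left hY h0
    linarith

end Pool.Agent.Work.MP_1ce445_fx
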