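import Pool.Agent.Work.MP_1ce445_fx.InterfaceU
import Pool.Agent.Work.MP_1ce445_fx.OUT

/-! Block OUU (helper11). -/

namespace Pool.Agent.Work.MP_1ce445_fx

open Finset Pool.Agent.Work.MP_1ce445_co_56 Pool.Agent.Work.MP_1ce445_lin

theorem stmt_OUU : Stmt_TAU → Stmt_XCU → Stmt_YXU → Stmt_OUU := by
  classical
  intro hTAU hXCA hYXU n k G e θ ε t hE hT i v w hv hvw
  by_contra hne
  obtain ⟨hA, hta⟩ := hTAU n k G e θ hE.sit
  obtain ⟨hgam, -⟩ := hXCA n k G e θ ε t hE hT i
  obtain ⟨l, hli, hlj⟩ := OUT_idx3 i (t w)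
  have hn : (0 : ℝ) < n := by exact_mod_cast hE.sit.pos
  have hth := hE.sit.th
  have hth' := hE.sit.th'
  have hep := hE.ep
  have hep' := hE.ep'
  set j : Fin 3 := t w with hj
  have hji : j ≠ i := hne
  have hne1 : ∀ m, (low (G (e m)) θ).Nonempty := by
    intro m
    have h1 := hE.sit.big m
    rw [← card_pos]
    have : (0 : ℝ) < ((low (G (e m)) θ).card : ℝ) := lt_of_lt_of_le (by positivity) h1
    exact_mod_cast this
  -- the types of the vertices of the low sets
  have htyp : ∀ m u, t u = m → u ∈ low (G (e m)) θ := fun m u hu =>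
    (hYXU n k G e θ ε t hE hT u m).1 hu
  -- the set to be dominated
  set U : Finset (Fin n) := univ.filter (fun u => t u ≠ i ∧ ¬ (G (e i)).Adj u w) with hU
  set df : Fin n → ℝ := fun u =>
    (1 - A G e θ (t u) (t u + 1) u) + (1 - A G e θ (t u) (t u + 2) u) with hdf
  have hdf0 : ∀ u, 0 ≤ df u := by
    intro u
    have h2 := hA (t u) (t u + 1) u
    have h3 := hA (t u) (t u + 2) u
    simp only [hdf]; linarith
  have hdfs : ∑ u, df u ≤ 2 * ε := hT.2
  have hpt : ∀ u ∈ U, nf (G (e i)) (low (G (e j)) θ) u * nf (G (e i)) (low (G (e l)) θ) u ^ 2 ≤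
      2 * (∑ m, ta G e θ m u ^ 2) + df u + (if t u = l then ta G e θ j u else 0) := by
    intro u hu
    have hu' := (mem_filter.1 hu).2
    change A G e θ i j u * A G e θ i l u ^ 2 ≤ _
    have a1 := hA i j u
    have a2 := hA i l u
    have hsq : ∀ m, ta G e θ m u ^ 2 ≤ ∑ m, ta G e θ m u ^ 2 := fun m =>
      single_le_sum (f := fun m => ta G e θ m u ^ 2) (fun m _ => sq_nonneg _) (mem_univ m)
    have hsq0 : 0 ≤ ∑ m, ta G e θ m u ^ 2 := sum_nonneg fun m _ => sq_nonneg _
    rcases OUT_idx4 i j l (t u) hji hli hlj hu'.1 with h | h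
    · -- t u = j
      have hl : ¬ (t u = l) := by rw [h]; exact Ne.symm hlj
      rw [if_neg hl]
      have h1 := OUT_sum (G := G) (e := e) (θ := θ) i j l (Ne.symm hji) (Ne.symm hli)
        (Ne.symm hlj) u
      obtain ⟨d0, d1, d2⟩ := OUT_def hA hT u l (Ne.symm hl)
      rw [h] at d0 d1
      have d2' : 1 - A G e θ j l u ≤ df u := by
        simp only [hdf]; rw [h] at d2 ⊢; exact d2
      have h0 := (hta l u).1
      have h3 : A G e θ i l u = ta G e θ l u + (1 - A G e θ j l u) := by linarith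
      have h4 : A G e θ i l u ^ 2 ≤ 2 * ta G e θ l u ^ 2 + 2 * (1 - A G e θ j l u) ^ 2 := by
        rw [h3]
        nlinarith [sq_nonneg (ta G e θ l u - (1 - A G e θ j l u))]
      have h5 : 2 * (1 - A G e θ j l u) ^ 2 ≤ df u := by
        have : 2 * (1 - A G e θ j l u) ^ 2 ≤ (1 - A G e θ j l u) := by nlinarith
        linarith
      have h6 : A G e θ i j u * A G e θ i l u ^ 2 ≤ A G e θ i l u ^ 2 := by
        have := sq_nonneg (A G e θ i l u)
        nlinarith [a1.2]
      have h7 := hsq l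
      linarith
    · -- t u = l
      rw [if_pos h]
      have h1 := OUT_sum (G := G) (e := e) (θ := θ) i l j (Ne.symm hli) (Ne.symm hji)
        hlj u
      obtain ⟨d0, d1, d2⟩ := OUT_def hA hT u j (by rw [h]; exact Ne.symm hlj)
      rw [h] at d0 d1
      have d2' : 1 - A G e θ l j u ≤ df u := by
        simp only [hdf]; rw [h] at d2 ⊢; exact d2
      have h3 : A G e θ i j u = ta G e θ j u + (1 - A G e θ l j u) := by linarith
      have h6 : A G e θ i j u * A G e θ i l u ^ 2 ≤ A G e θ i j u := by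
        have : A G e θ i l u ^ 2 ≤ 1 := by nlinarith [a2.1, a2.2]
        nlinarith [a1.1]
      linarith
  -- the number of the vertices of type `l` in `U`
  have hAw : A G e θ i l w ≤ 6 * ε := by
    have h1 := OUT_sum (G := G) (e := e) (θ := θ) i j l (Ne.symm hji) (Ne.symm hli)
        (Ne.symm hlj) w
    have h2 := (OUT_def hA hT w l (by rw [← hj]; exact hlj)).2.1
    rw [← hj] at h2
    have h3 := hE.tau l w
    have h4 := hE.tau'
    linarith
  have hcard : ((U.filter (fun u => t u = l)).card : ℝ) ≤ 6 * ε * n := by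
    have hsub : U.filter (fun u => t u = l) ⊆
        (low (G (e l)) θ).filter (fun u => ¬ (G (e i)).Adj w u) := by
      intro u hu
      rw [mem_filter] at hu
      obtain ⟨hu1, hu2⟩ := hu
      have hu3 := (mem_filter.1 hu1).2
      exact mem_filter.2 ⟨htyp l u hu2, fun h => hu3.2 h.symm⟩
    have h2 : ((U.filter (fun u => t u = l)).card : ℝ) ≤
        (((low (G (e l)) θ).filter (fun u => ¬ (G (e i)).Adj w u)).card : ℝ) := by
      exact_mod_cast card_le_card hsub
    have h3 := OUT_nf (G (e i)) (low (G (e l)) θ) (hne1 l) w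
    have h5 : ((low (G (e l)) θ).card : ℝ) ≤ n := by
      have : (low (G (e l)) θ).card ≤ n := by
        simpa using card_le_univ (low (G (e l)) θ)
      exact_mod_cast this
    have h6 : ((low (G (e l)) θ).card : ℝ) * nf (G (e i)) (low (G (e l)) θ) w ≤ n * (6 * ε) := by
      have h7 : nf (G (e i)) (low (G (e l)) θ) w ≤ 6 * ε := hAw
      have h8 : 0 ≤ nf (G (e i)) (low (G (e l)) θ) w := (hA i l w).1
      exact mul_le_mul h5 h7 h8 hn.le
    rw [h3] at h2
    linarith
  have hthird : ∑ u ∈ U, (if t u = l then ta G e θ j u else 0) ≤ 1 / 4 := by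
    rw [← sum_filter]
    have h1 : ∑ u ∈ U.filter (fun u => t u = l), ta G e θ j u ≤
        ∑ _u ∈ U.filter (fun u => t u = l), (10 + 25 * (k : ℝ)) / n :=
      sum_le_sum fun u _ => hE.tau j u
    rw [sum_const, nsmul_eq_mul] at h1
    have h2 : (0 : ℝ) ≤ (10 + 25 * (k : ℝ)) / n := by positivity
    have h3 : ((U.filter (fun u => t u = l)).card : ℝ) * ((10 + 25 * (k : ℝ)) / n) ≤
        6 * ε * n * ((10 + 25 * (k : ℝ)) / n) := mul_le_mul_of_nonneg_right hcard h2
    have h4 : 6 * ε * n * ((10 + 25 * (k : ℝ)) / n) = 6 * ε * (10 + 25 * k) := by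
      field_simp
    have h5 := hE.small
    linarith
  have htot : ∑ u ∈ U, nf (G (e i)) (low (G (e j)) θ) u *
      nf (G (e i)) (low (G (e l)) θ) u ^ 2 < 1 := by
    have h1 := sum_le_sum hpt
    rw [sum_add_distrib, sum_add_distrib, ← mul_sum] at h1
    have h2 : ∑ u ∈ U, ∑ m, ta G e θ m u ^ 2 ≤ ∑ u, ∑ m, ta G e θ m u ^ 2 :=
      sum_le_sum_of_subset_of_nonneg (subset_univ _)
        (fun u _ _ => sum_nonneg fun m _ => sq_nonneg _)
    have h3 : ∑ u ∈ U, df u ≤ ∑ u, df u :=
      sum_le_sum_of_subset_of_nonneg (subset_univ _) (fun u _ _ => hdf0 u)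
    have h4 := hE.tsq
    linarith
  obtain ⟨x, -, y, -, z, -, hdom⟩ := OUT_choice (G (e i)) _ _ U (hne1 j) (hne1 l) htot
  have hmd : ∀ v, ∃ w, (G (e i)).Adj v w := fun v => hE.sit.fac.minDeg (e i) v
  have hle : gammaT (G (e i)) ≤ ({w, x, y, z} : Finset (Fin n)).card +
      (univ.filter (fun u => ∀ a ∈ ({w, x, y, z} : Finset (Fin n)),
        ¬ (G (e i)).Adj u a)).card := by
    convert gammaT_le_add (G := G (e i)) hmd ({w, x, y, z} : Finset (Fin n))
  have hD : ({w, x, y, z} : Finset (Fin n)).card ≤ 4 := card_le_four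
  have hsub : (univ.filter (fun u => ∀ a ∈ ({w, x, y, z} : Finset (Fin n)),
      ¬ (G (e i)).Adj u a)) ⊆ (univ.filter (fun u => t u = i)).erase v := by
    intro u hu
    have hu' := (mem_filter.1 hu).2
    have b1 := hu' w (by simp)
    have b2 := hu' x (by simp)
    have b3 := hu' y (by simp)
    have b4 := hu' z (by simp)
    rw [mem_erase]
    refine ⟨?_, mem_filter.2 ⟨mem_univ _, ?_⟩⟩
    · rintro rfl; exact b1 hvw
    · by_contra hti
      rcases hdom u (mem_filter.2 ⟨mem_univ _, hti, b1⟩) with h | h | h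
      · exact b2 h
      · exact b3 h
      · exact b4 h
  have hc1 := card_le_card hsub
  have hvi : v ∈ univ.filter (fun u => t u = i) := mem_filter.2 ⟨mem_univ _, hv⟩
  rw [card_erase_of_mem hvi] at hc1
  have hpos : 0 < (univ.filter (fun u => t u = i)).card := card_pos.2 ⟨v, hvi⟩
  rw [hgam] at hle
  omega

end Pool.Agent.Work.MP_1ce445_fx
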