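import Pool.Agent.Work.MP_1ce445_fx.InterfaceP
import Pool.Agent.Work.MP_1ce445_fx.PAR

/-! Block PAM of theorem FixedK, fourth phase (helper95): parity in the extremal situation, general exponent. -/

set_option autoImplicit false

namespace Pool.Agent.Work.MP_1ce445_fx

open Finset Pool.Agent.Work.MP_1ce445_co_56 Pool.Agent.Work.MP_1ce445_lin

theorem stmt_PAM : Stmt_TYM → Stmt_XCM → Stmt_DSM → Stmt_OUM → Stmt_PAM := by
  intro hT hX hD hO m n k G e θ ε hE
  obtain ⟨t, ht⟩ := hT m n k G e θ ε hE
  have hne : ∀ i : Fin 3, ∀ v : Fin n, ∃ w, (G (e i)).Adj v w := fun i v =>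
    hE.sit.fac.minDeg (e i) v
  have hev : ∀ i : Fin 3, Even (univ.filter (fun v => t v = i)).card := by
    intro i
    choose g hg using hne i
    have hgt : ∀ v, t v = i → t (g v) = i := fun v hv => hO m n k G e θ ε t hE ht i v (g v) hv (hg v)
    refine PAR_even _ g ?_ ?_ ?_
    · intro v hv
      simp only [mem_filter, mem_univ, true_and] at hv ⊢
      exact hgt v hv
    · intro v hv
      simp only [mem_filter, mem_univ, true_and] at hv
      exact hD m n k G e θ ε t hE ht i (g (g v)) v (g v) (hgt _ (hgt v hv)) hv
        (hg (g v)).symm (hg v)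
    · intro v _ h
      have := hg v
      rw [h] at this
      exact (G (e i)).irrefl this
  have hsum : ∑ i : Fin 3, (univ.filter (fun v => t v = i)).card = n := by
    have h := Finset.card_eq_sum_card_fiberwise (f := t) (s := (univ : Finset (Fin n)))
      (t := (univ : Finset (Fin 3))) (fun _ _ => by simp)
    rw [card_univ, Fintype.card_fin] at h
    exact h.symm
  refine ⟨?_, ?_⟩
  · rw [← hsum]
    exact Finset.even_sum _ (fun i _ => hev i)
  · intro i
    rw [(hX m n k G e θ ε t hE ht i).1]
    exact (hev i).add (even_two_mul m)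

end Pool.Agent.Work.MP_1ce445_fx
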