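import Pool.Agent.Work.MP_1ce445_fx.InterfaceS

namespace Pool.Agent.Work.MP_1ce445_fx

open Finset Pool.Agent.Work.MP_1ce445_co_56 Pool.Agent.Work.MP_1ce445_lin

/-- an injective family of `M` elements outside a small set -/
lemma SLO_inj {α : Type} [Fintype α] [DecidableEq α] (M : ℕ) (L : Finset α)
    (h : L.card + M ≤ Fintype.card α) : ∃ s : Fin M → α, Function.Injective s ∧ ∀ j, s j ∉ L := by
  have h1 : M ≤ (Lᶜ : Finset α).card := by rw [card_compl]; omega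
  obtain ⟨K, hK, hKc⟩ := Finset.exists_subset_card_eq h1
  let e : Fin M ≃ K := (Fintype.equivFinOfCardEq (by rw [Fintype.card_coe, hKc])).symm
  refine ⟨fun j => (e j).1, fun a b hab => e.injective (Subtype.ext hab), fun j => ?_⟩
  have := hK (e j).2
  simpa using this

theorem stmt_SLO (hLBL : Stmt_LBL) (hSCR : Stmt_SCR) (hGS1 : Stmt_GS1) (hGS2 : Stmt_GS2)
    (hGS3 : Stmt_GS3) : Stmt_SLO := by
  intro M r hM hr
  obtain ⟨C, q0, hL⟩ := hLBL r 1 one_pos hr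
  refine ⟨2 ^ (r - 1) * max C 0 + 2 * max C 0 + 2 * M + 10, q0 + 4 * M ^ 2 + 10,
    fun q t hq h1 h2 h3 => ?_⟩
  have hC0 : 0 ≤ max C 0 := le_max_right _ _
  have hCC : C ≤ max C 0 := le_max_left _ _
  have hpow : (0 : ℝ) ≤ 2 ^ (r - 1) * max C 0 := by positivity
  have hM0 : (0 : ℝ) ≤ M := Nat.cast_nonneg _
  have ht1 : (2 * (M : ℝ) + 10) ≤ t := by linarith
  have ht2 : 2 * M + 10 ≤ t := by exact_mod_cast ht1
  have hk' : (t : ℝ) / 2 ≤ ((t - M + 3 : ℕ) : ℝ) := by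
    have : ((t - M + 3 : ℕ) : ℝ) = (t : ℝ) - M + 3 := by
      rw [Nat.cast_add, Nat.cast_sub (by omega)]; norm_num
    rw [this]; linarith
  have hq0 : (0 : ℝ) ≤ (q : ℝ) ^ (r - 2) := by positivity
  have c1 : C * (q : ℝ) ^ (r - 2) ≤ ((t - M + 3 : ℕ) : ℝ) ^ (r - 1) := by
    have e1 : 2 ^ (r - 1) * max C 0 * (q : ℝ) ^ (r - 2) ≤ (t : ℝ) ^ (r - 1) := by
      refine le_trans ?_ h1
      apply mul_le_mul_of_nonneg_right _ hq0
      linarith
    have e2 : (t : ℝ) ^ (r - 1) = 2 ^ (r - 1) * ((t : ℝ) / 2) ^ (r - 1) := by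
      rw [← mul_pow]; congr 1; ring
    have e3 : max C 0 * (q : ℝ) ^ (r - 2) ≤ ((t : ℝ) / 2) ^ (r - 1) := by
      have e4 : (2 : ℝ) ^ (r - 1) * (max C 0 * (q : ℝ) ^ (r - 2)) ≤
          2 ^ (r - 1) * ((t : ℝ) / 2) ^ (r - 1) := by
        rw [← e2, ← mul_assoc]; exact e1
      exact le_of_mul_le_mul_left e4 (by positivity)
    calc C * (q : ℝ) ^ (r - 2) ≤ max C 0 * (q : ℝ) ^ (r - 2) :=
          mul_le_mul_of_nonneg_right hCC hq0
      _ ≤ ((t : ℝ) / 2) ^ (r - 1) := e3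
      _ ≤ _ := pow_le_pow_left₀ (by positivity) hk' _
  have c2 : C ≤ ((t - M + 3 : ℕ) : ℝ) := by linarith
  obtain ⟨L, hLc, hgood⟩ := hL q (t - M + 3) (by omega) c1 c2 (by omega)
  have hLc' : L.card = t - M := by omega
  obtain ⟨χ, hχ⟩ := hSCR M q hM (by omega)
  haveI : NeZero (2 * q - 1) := ⟨by omega⟩
  obtain ⟨s, hs, hsL⟩ := SLO_inj M L (by rw [hLc', ZMod.card]; omega)
  have hfac := hGS1 M q χ L s hM (by omega) hχ hs hsL
  obtain ⟨g1, g2⟩ := hGS2 M q χ L s hM (by omega) hχ hs hsL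
  have g3 := hGS3 M q r χ L s hM (by omega) hχ hs hsL (by omega) hgood
  have hV : Fintype.card (VS M q) = 2 * M * q := by
    rw [Fintype.card_prod, Fintype.card_fin, Fintype.card_option, ZMod.card]
    have : 2 * q - 1 + 1 = 2 * q := by omega
    rw [this]; ring
  have hι : Fintype.card (Fin ((2 * M - 2) * q) ⊕ (L ⊕ Fin M)) = (2 * M - 2) * q + t := by
    rw [Fintype.card_sum, Fintype.card_sum, Fintype.card_coe, hLc', Fintype.card_fin,
      Fintype.card_fin]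
    omega
  refine le_trans ?_ (le_P hV hι hfac)
  rw [Fintype.prod_sum_type, Fintype.prod_sum_type]
  have e1 : (2 * M * q) ^ ((2 * M - 2) * q) ≤
      ∏ c : Fin ((2 * M - 2) * q), gammaT (GS χ L s (Sum.inl c)) := by
    calc (2 * M * q) ^ ((2 * M - 2) * q) = ∏ _c : Fin ((2 * M - 2) * q), 2 * M * q := by
          rw [prod_const, card_univ, Fintype.card_fin]
      _ ≤ _ := Finset.prod_le_prod' fun c _ => g1 c
  have e2 : (2 * M * q) ^ (t - M) ≤ ∏ l : L, gammaT (GS χ L s (Sum.inr (Sum.inl l))) := by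
    calc (2 * M * q) ^ (t - M) = ∏ _l : L, 2 * M * q := by
          rw [prod_const, card_univ, Fintype.card_coe, hLc']
      _ ≤ _ := Finset.prod_le_prod' fun l _ => g2 l
  have e3 : (2 * (M - 1) * q + r) ^ M ≤
      ∏ j : Fin M, gammaT (GS χ L s (Sum.inr (Sum.inr j))) := by
    calc (2 * (M - 1) * q + r) ^ M = ∏ _j : Fin M, (2 * (M - 1) * q + r) := by
          rw [prod_const, card_univ, Fintype.card_fin]
      _ ≤ _ := Finset.prod_le_prod' fun j _ => g3 j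
  have hexp : (2 * M - 2) * q + t - M = (2 * M - 2) * q + (t - M) := by omega
  rw [hexp, pow_add, mul_assoc]
  exact Nat.mul_le_mul e1 (Nat.mul_le_mul e2 e3)

end Pool.Agent.Work.MP_1ce445_fx
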