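import Pool.Agent.Work.MP_1ce445_fx.Interface

namespace Pool.Agent.Work.MP_1ce445_fx

open Finset Pool.Agent.Work.MP_1ce445_co_56 Pool.Agent.Work.MP_1ce445_lin

open Classical in
/-- one choice of the four vertices -/
lemma SPC_one {n : ℕ} (H : SimpleGraph (Fin n)) (D : Finset (Fin n)) (hH : ∀ v, ∃ w, H.Adj v w)
    (a b c d : Fin n) :
    (gammaT H : ℝ) ≤ 4 + D.card + ∑ v ∈ und H D,
      ((if H.Adj v a then (0 : ℝ) else 1) * (if H.Adj v b then (0 : ℝ) else 1)) *
      ((if H.Adj v c then (0 : ℝ) else 1) * (if H.Adj v d then (0 : ℝ) else 1)) := by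
  have h1 := gammaT_le_add hH (({a, b, c, d} : Finset (Fin n)) ∪ D)
  have h2 : ((({a, b, c, d} : Finset (Fin n)) ∪ D).card : ℝ) ≤ 4 + D.card := by
    have h3 : (({a, b, c, d} : Finset (Fin n)) ∪ D).card ≤ 4 + D.card :=
      (Finset.card_union_le _ _).trans (by gcongr; exact Finset.card_le_four)
    exact_mod_cast h3
  have h4 : (((univ : Finset (Fin n)).filter (fun v => ∀ z ∈ (({a, b, c, d} : Finset (Fin n)) ∪ D),
      ¬ H.Adj v z)).card : ℝ) ≤ ∑ v ∈ und H D,
      ((if H.Adj v a then (0 : ℝ) else 1) * (if H.Adj v b then (0 : ℝ) else 1)) *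
      ((if H.Adj v c then (0 : ℝ) else 1) * (if H.Adj v d then (0 : ℝ) else 1)) := by
    rw [Finset.card_eq_sum_ones, Nat.cast_sum]
    have hs : (univ : Finset (Fin n)).filter (fun v => ∀ z ∈ (({a, b, c, d} : Finset (Fin n)) ∪ D),
        ¬ H.Adj v z) ⊆ und H D := by
      intro v hv
      simp only [und, mem_filter, mem_univ, true_and] at hv ⊢
      intro z hz
      exact hv z (Finset.mem_union_right _ hz)
    refine le_trans (Finset.sum_le_sum ?_) (Finset.sum_le_sum_of_subset_of_nonneg hs ?_)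
    · intro v hv
      simp only [mem_filter, mem_univ, true_and] at hv
      have ha := hv a (by simp)
      have hb := hv b (by simp)
      have hc := hv c (by simp)
      have hd := hv d (by simp)
      simp [ha, hb, hc, hd]
    · intro v _ _
      positivity
  have h5 : (gammaT H : ℝ) ≤ (((({a, b, c, d} : Finset (Fin n)) ∪ D).card : ℕ) : ℝ) +
      (((univ : Finset (Fin n)).filter (fun v => ∀ z ∈ (({a, b, c, d} : Finset (Fin n)) ∪ D),
      ¬ H.Adj v z)).card : ℝ) := by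
    have h6 : gammaT H ≤ (({a, b, c, d} : Finset (Fin n)) ∪ D).card +
        ((univ : Finset (Fin n)).filter (fun v => ∀ z ∈ (({a, b, c, d} : Finset (Fin n)) ∪ D),
        ¬ H.Adj v z)).card := by convert h1
    exact_mod_cast h6
  linarith

open Classical in
/-- number of the non-neighbours -/
lemma SPC_sum {n : ℕ} (H : SimpleGraph (Fin n)) (Y : Finset (Fin n)) (hY : Y.Nonempty) (v : Fin n) :
    ∑ a ∈ Y, (if H.Adj v a then (0 : ℝ) else 1) = Y.card * nf H Y v := by
  have h1 : (Y.card : ℝ) ≠ 0 := by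
    have := Finset.card_pos.mpr hY
    positivity
  have h2 : ∑ a ∈ Y, (if H.Adj v a then (0 : ℝ) else 1) = Y.card - dg H Y v := by
    have h3 : ∀ a ∈ Y, (if H.Adj v a then (0 : ℝ) else 1) = 1 - (if H.Adj v a then (1 : ℝ) else 0) := by
      intro a _
      split_ifs <;> norm_num
    rw [Finset.sum_congr rfl h3, Finset.sum_sub_distrib]
    congr 1
    · simp
    · simp [dg]
  rw [h2, nf]
  field_simp

theorem stmt_SPC : Stmt_SPC := by
  classical
  intro n H Y Z D hH hY hZ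
  have hy : (0 : ℝ) < Y.card := by exact_mod_cast Finset.card_pos.mpr hY
  have hz : (0 : ℝ) < Z.card := by exact_mod_cast Finset.card_pos.mpr hZ
  have h1 : ∑ a ∈ Y, ∑ b ∈ Y, ∑ c ∈ Z, ∑ d ∈ Z, (gammaT H : ℝ) ≤
      ∑ a ∈ Y, ∑ b ∈ Y, ∑ c ∈ Z, ∑ d ∈ Z, (4 + D.card + ∑ v ∈ und H D,
      ((if H.Adj v a then (0 : ℝ) else 1) * (if H.Adj v b then (0 : ℝ) else 1)) *
      ((if H.Adj v c then (0 : ℝ) else 1) * (if H.Adj v d then (0 : ℝ) else 1))) :=
    Finset.sum_le_sum fun a _ => Finset.sum_le_sum fun b _ => Finset.sum_le_sum fun c _ =>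
      Finset.sum_le_sum fun d _ => SPC_one H D hH a b c d
  have h2 : ∑ a ∈ Y, ∑ b ∈ Y, ∑ c ∈ Z, ∑ d ∈ Z, (4 + D.card + ∑ v ∈ und H D,
      ((if H.Adj v a then (0 : ℝ) else 1) * (if H.Adj v b then (0 : ℝ) else 1)) *
      ((if H.Adj v c then (0 : ℝ) else 1) * (if H.Adj v d then (0 : ℝ) else 1))) =
      (Y.card : ℝ) ^ 2 * Z.card ^ 2 * (4 + D.card) +
      (Y.card : ℝ) ^ 2 * Z.card ^ 2 * ∑ v ∈ und H D, (nf H Y v * nf H Z v) ^ 2 := by
    simp only [Finset.sum_add_distrib, Finset.sum_const, nsmul_eq_mul]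
    congr 1
    · ring
    · have h3 : ∀ a ∈ Y, ∀ b ∈ Y, ∑ c ∈ Z, ∑ d ∈ Z, ∑ v ∈ und H D,
          ((if H.Adj v a then (0 : ℝ) else 1) * (if H.Adj v b then (0 : ℝ) else 1)) *
          ((if H.Adj v c then (0 : ℝ) else 1) * (if H.Adj v d then (0 : ℝ) else 1)) =
          ∑ v ∈ und H D, ((if H.Adj v a then (0 : ℝ) else 1) * (if H.Adj v b then (0 : ℝ) else 1)) *
            (Z.card * nf H Z v) ^ 2 := by
        intro a _ b _
        have h4 : ∀ c ∈ Z, ∑ d ∈ Z, ∑ v ∈ und H D,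
          ((if H.Adj v a then (0 : ℝ) else 1) * (if H.Adj v b then (0 : ℝ) else 1)) *
          ((if H.Adj v c then (0 : ℝ) else 1) * (if H.Adj v d then (0 : ℝ) else 1)) =
          ∑ v ∈ und H D, ((if H.Adj v a then (0 : ℝ) else 1) * (if H.Adj v b then (0 : ℝ) else 1)) *
            ((if H.Adj v c then (0 : ℝ) else 1) * (Z.card * nf H Z v)) := by
          intro c _
          rw [Finset.sum_comm]
          refine Finset.sum_congr rfl fun v _ => ?_
          rw [← Finset.mul_sum, ← Finset.mul_sum, SPC_sum H Z hZ v]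
        rw [Finset.sum_congr rfl h4, Finset.sum_comm]
        refine Finset.sum_congr rfl fun v _ => ?_
        rw [← Finset.mul_sum, ← Finset.sum_mul, SPC_sum H Z hZ v]
        ring
      rw [Finset.sum_congr rfl fun a ha => Finset.sum_congr rfl fun b hb => h3 a ha b hb]
      have h5 : ∀ a ∈ Y, ∑ b ∈ Y, ∑ v ∈ und H D,
          ((if H.Adj v a then (0 : ℝ) else 1) * (if H.Adj v b then (0 : ℝ) else 1)) *
            (Z.card * nf H Z v) ^ 2 = ∑ v ∈ und H D, (if H.Adj v a then (0 : ℝ) else 1) *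
            ((Y.card * nf H Y v) * (Z.card * nf H Z v) ^ 2) := by
        intro a _
        rw [Finset.sum_comm]
        refine Finset.sum_congr rfl fun v _ => ?_
        rw [← Finset.sum_mul, ← Finset.mul_sum, SPC_sum H Y hY v]
        ring
      rw [Finset.sum_congr rfl h5, Finset.sum_comm, Finset.mul_sum]
      refine Finset.sum_congr rfl fun v _ => ?_
      rw [← Finset.sum_mul, SPC_sum H Y hY v]
      ring
  rw [h2] at h1
  have h6 : ∑ a ∈ Y, ∑ b ∈ Y, ∑ c ∈ Z, ∑ d ∈ Z, (gammaT H : ℝ) =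
      (Y.card : ℝ) ^ 2 * Z.card ^ 2 * gammaT H := by
    simp only [Finset.sum_const, nsmul_eq_mul]
    ring
  rw [h6] at h1
  have h7 : (0 : ℝ) < (Y.card : ℝ) ^ 2 * Z.card ^ 2 := by positivity
  have h8 : (Y.card : ℝ) ^ 2 * Z.card ^ 2 * gammaT H ≤ (Y.card : ℝ) ^ 2 * Z.card ^ 2 *
      (4 + D.card + ∑ v ∈ und H D, (nf H Y v * nf H Z v) ^ 2) := by
    rw [mul_add]
    exact h1
  exact le_of_mul_le_mul_left h8 h7

end Pool.Agent.Work.MP_1ce445_fx
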