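import Pool.Agent.Work.MP_1ce445_fx.Interface

/-!
Block SQD of THEOREM FixedK.
-/

namespace Pool.Agent.Work.MP_1ce445_fx

open Finset Pool.Agent.Work.MP_1ce445_co_56 Pool.Agent.Work.MP_1ce445_lin

lemma SQD_one {n : ℕ} (H : SimpleGraph (Fin n)) (s : ℕ) (h1 : ∀ v, dg H univ v ≤ s + 1)
    (h2 : (univ.filter (fun v => 2 ≤ dg H univ v)).card ≤ 3 * s) :
    ∑ v, (dg H univ v : ℝ) ^ 2 ≤ n + 12 * (s : ℝ) ^ 3 := by
  have e1 : ∀ v, (dg H univ v : ℝ) ^ 2 ≤ 1 + if 2 ≤ dg H univ v then ((s : ℝ) + 1) ^ 2 else 0 := by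
    intro v
    by_cases h : 2 ≤ dg H univ v
    · rw [if_pos h]
      have h3 : (dg H univ v : ℝ) ≤ s + 1 := by exact_mod_cast h1 v
      have h4 : (dg H univ v : ℝ) ^ 2 ≤ ((s : ℝ) + 1) ^ 2 := pow_le_pow_left₀ (by positivity) h3 2
      linarith
    · rw [if_neg h, add_zero]
      have h3 : (dg H univ v : ℝ) ≤ 1 := by
        have : dg H univ v ≤ 1 := by omega
        exact_mod_cast this
      have h4 : (dg H univ v : ℝ) ^ 2 ≤ 1 ^ 2 := pow_le_pow_left₀ (by positivity) h3 2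
      linarith
  refine (sum_le_sum fun v _ => e1 v).trans ?_
  rw [sum_add_distrib, ← sum_filter, sum_const, sum_const, nsmul_eq_mul, nsmul_eq_mul, card_univ,
    Fintype.card_fin, mul_one]
  have h3 : ((univ.filter (fun v => 2 ≤ dg H univ v)).card : ℝ) ≤ 3 * s := by exact_mod_cast h2
  have h4 : ((univ.filter (fun v => 2 ≤ dg H univ v)).card : ℝ) * ((s : ℝ) + 1) ^ 2 ≤
      3 * s * ((s : ℝ) + 1) ^ 2 := mul_le_mul_of_nonneg_right h3 (by positivity)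
  have h5 : 3 * (s : ℝ) * ((s : ℝ) + 1) ^ 2 ≤ 12 * (s : ℝ) ^ 3 := by
    rcases Nat.eq_zero_or_pos s with h | h
    · rw [h]
      norm_num
    · have h6 : (1 : ℝ) ≤ s := by exact_mod_cast h
      have h7 : ((s : ℝ) + 1) ^ 2 ≤ 4 * (s : ℝ) ^ 2 := by nlinarith
      have h8 : 3 * (s : ℝ) * ((s : ℝ) + 1) ^ 2 ≤ 3 * (s : ℝ) * (4 * (s : ℝ) ^ 2) :=
        mul_le_mul_of_nonneg_left h7 (by positivity)
      nlinarith
  linarith

theorem stmt_SQD : Stmt_DG2 → Stmt_SQD := by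
  intro h n k G e θ hS
  have hmin : ∀ l v, ∃ w, (G l).Adj v w := fun l v => hS.fac.minDeg l v
  have hk : ((oth e).card : ℝ) ≤ k := by
    have h1 : (oth e).card ≤ k := by
      have := card_le_univ (oth e)
      rwa [Fintype.card_fin] at this
    exact_mod_cast h1
  have hθ : 0 ≤ θ := hS.th.le
  have hl : ∀ l ∈ oth e, ∑ v, (dg (G l) univ v : ℝ) ^ 2 ≤
      n + 12 * θ ^ 2 * n ^ 2 * ((n : ℝ) - gammaT (G l)) := by
    intro l hl
    have hlo : ∀ i, l ≠ e i := (mem_filter.1 hl).2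
    have hγ : gammaT (G l) ≤ n := by
      have := gammaT_le_univ (hmin l)
      rwa [Fintype.card_fin] at this
    obtain ⟨k1, k2⟩ := h n (G l) (hmin l)
    have h3 := SQD_one (G l) (n - gammaT (G l)) k1 k2
    have h4 : ((n - gammaT (G l) : ℕ) : ℝ) = (n : ℝ) - gammaT (G l) := by
      rw [Nat.cast_sub hγ]
    rw [h4] at h3
    have h5 : (n : ℝ) - gammaT (G l) ≤ θ * n := by
      have := hS.gam l hlo
      linarith
    have h6 : 0 ≤ (n : ℝ) - gammaT (G l) := by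
      have : (gammaT (G l) : ℝ) ≤ n := by exact_mod_cast hγ
      linarith
    have h7 : ((n : ℝ) - gammaT (G l)) ^ 2 ≤ (θ * n) ^ 2 := pow_le_pow_left₀ h6 h5 2
    have h8 : ((n : ℝ) - gammaT (G l)) ^ 2 * ((n : ℝ) - gammaT (G l)) ≤
        (θ * n) ^ 2 * ((n : ℝ) - gammaT (G l)) := mul_le_mul_of_nonneg_right h7 h6
    have h9 : ((n : ℝ) - gammaT (G l)) ^ 3 =
        ((n : ℝ) - gammaT (G l)) ^ 2 * ((n : ℝ) - gammaT (G l)) := by ring
    have h10 : 12 * θ ^ 2 * n ^ 2 * ((n : ℝ) - gammaT (G l)) =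
        12 * ((θ * n) ^ 2 * ((n : ℝ) - gammaT (G l))) := by ring
    rw [h10]
    rw [h9] at h3
    linarith
  have hcs : ∀ v, (∑ l ∈ oth e, (dg (G l) univ v : ℝ)) ^ 2 ≤
      k * ∑ l ∈ oth e, (dg (G l) univ v : ℝ) ^ 2 := by
    intro v
    have h1 := sq_sum_le_card_mul_sum_sq (s := oth e) (f := fun l => (dg (G l) univ v : ℝ))
    refine h1.trans (mul_le_mul_of_nonneg_right hk ?_)
    exact sum_nonneg fun l _ => sq_nonneg _
  have hsl : 0 ≤ sl G e := by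
    unfold sl
    refine sum_nonneg fun l _ => ?_
    have hγ : gammaT (G l) ≤ n := by
      have := gammaT_le_univ (hmin l)
      rwa [Fintype.card_fin] at this
    have : (gammaT (G l) : ℝ) ≤ n := by exact_mod_cast hγ
    linarith
  calc ∑ v, (∑ l ∈ oth e, (dg (G l) univ v : ℝ)) ^ 2
      ≤ ∑ v, (k : ℝ) * ∑ l ∈ oth e, (dg (G l) univ v : ℝ) ^ 2 := sum_le_sum fun v _ => hcs v
    _ = k * ∑ l ∈ oth e, ∑ v, (dg (G l) univ v : ℝ) ^ 2 := by
        rw [← mul_sum, sum_comm]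
    _ ≤ k * ∑ l ∈ oth e, ((n : ℝ) + 12 * θ ^ 2 * n ^ 2 * ((n : ℝ) - gammaT (G l))) :=
        mul_le_mul_of_nonneg_left (sum_le_sum hl) (by positivity)
    _ = k * ((oth e).card * n + 12 * θ ^ 2 * n ^ 2 * sl G e) := by
        rw [sum_add_distrib, sum_const, nsmul_eq_mul, ← mul_sum]
        rfl
    _ ≤ k * (k * n + 12 * θ ^ 2 * n ^ 2 * sl G e) := by
        apply mul_le_mul_of_nonneg_left _ (by positivity)
        have := mul_le_mul_of_nonneg_right hk (Nat.cast_nonneg n : (0 : ℝ) ≤ n)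
        linarith
    _ = k ^ 2 * n + 12 * k * θ ^ 2 * n ^ 2 * sl G e := by ring

end Pool.Agent.Work.MP_1ce445_fx
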