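import Pool.Agent.Work.MP_1ce445_fx.InterfaceP

/-!
Block TYM: the types of the vertices, for every `m ≥ 2`.
-/

set_option autoImplicit false

namespace Pool.Agent.Work.MP_1ce445_fx

open Finset Pool.Agent.Work.MP_1ce445_co_56 Pool.Agent.Work.MP_1ce445_lin

theorem TYM_sum (f : Fin 3 → ℝ) (i : Fin 3) : ∑ j, f j = f i + f (i + 1) + f (i + 2) := by
  rw [Fin.sum_univ_three]
  fin_cases i
  · show f 0 + f 1 + f 2 = f 0 + f 1 + f 2
    ring
  · show f 0 + f 1 + f 2 = f 1 + f 2 + f 0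
    ring
  · show f 0 + f 1 + f 2 = f 2 + f 0 + f 1
    ring

theorem TYM_12 : ∀ i : Fin 3, i + 1 + 2 = i := by decide

theorem TYM_21 : ∀ i : Fin 3, i + 2 + 1 = i := by decide

theorem TYM_22 : ∀ i : Fin 3, i + 2 + 2 = i + 1 := by decide

theorem TYM_11 : ∀ i : Fin 3, i + 1 + 1 = i + 2 := by decide

theorem TYM_pow {s a : ℝ} (hs : 0 ≤ s) (ha : 0 ≤ a) (m : ℕ) :
    (s + a) ^ (m + 1) ≤ s ^ (m + 1) + (m + 1) * (s + a) ^ m * a := by
  induction m with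
  | zero => simp
  | succ m ih =>
    have h1 : (s + a) ^ (m + 1 + 1) = (s + a) * (s + a) ^ (m + 1) := by ring
    have h2 : (s + a) * (s + a) ^ (m + 1) ≤
        (s + a) * (s ^ (m + 1) + (m + 1) * (s + a) ^ m * a) :=
      mul_le_mul_of_nonneg_left ih (by linarith)
    have h3 : s ^ (m + 1) ≤ (s + a) ^ (m + 1) := pow_le_pow_left₀ hs (by linarith) _
    have h4 : a * s ^ (m + 1) ≤ a * (s + a) ^ (m + 1) := mul_le_mul_of_nonneg_left h3 ha
    have h5 : (s + a) * (s ^ (m + 1) + (m + 1) * (s + a) ^ m * a) =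
        s ^ (m + 1 + 1) + a * s ^ (m + 1) + (m + 1) * (s + a) ^ (m + 1) * a := by ring
    push_cast
    nlinarith

theorem TYM_pow2 {s a ε : ℝ} {m : ℕ} (hm : 2 ≤ m) (hs : 0 ≤ s) (ha : 0 ≤ a) (hs' : s ≤ ε)
    (ha' : a ≤ 5 * ε) (h : 1000 * 100 ^ m * ε ≤ 1) (h' : ε ≤ 1 / 1000) :
    (s + a) ^ m ≤ s ^ m + a * (6 / 1000) := by
  obtain ⟨l, rfl⟩ : ∃ l, m = l + 2 := ⟨m - 2, by omega⟩
  have h1 := TYM_pow hs ha (l + 1)
  have h0 : 0 ≤ ε := hs.trans hs'
  have h2 : (s + a) ^ (l + 1) ≤ 6 * ε := by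
    calc (s + a) ^ (l + 1) ≤ (s + a) ^ 1 :=
          pow_le_pow_of_le_one (by linarith) (by linarith) (by omega)
      _ ≤ 6 * ε := by rw [pow_one]; linarith
  have h3 : ((l + 2 : ℕ) : ℝ) ≤ 100 ^ (l + 2) := by
    have : l + 2 < 100 ^ (l + 2) := Nat.lt_pow_self (by norm_num)
    exact_mod_cast this.le
  have h4 : ((l + 2 : ℕ) : ℝ) * ε ≤ 1 / 1000 := by
    have : ((l + 2 : ℕ) : ℝ) * ε ≤ 100 ^ (l + 2) * ε := mul_le_mul_of_nonneg_right h3 h0
    linarith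
  have h5 : ((l + 1 : ℕ) + 1 : ℝ) * (s + a) ^ (l + 1) ≤ 6 / 1000 := by
    calc ((l + 1 : ℕ) + 1 : ℝ) * (s + a) ^ (l + 1)
        ≤ ((l + 1 : ℕ) + 1 : ℝ) * (6 * ε) := mul_le_mul_of_nonneg_left h2 (by positivity)
      _ = 6 * (((l + 2 : ℕ) : ℝ) * ε) := by push_cast; ring
      _ ≤ 6 / 1000 := by linarith
  have h6 : ((l + 1 : ℕ) + 1 : ℝ) * (s + a) ^ (l + 1) * a ≤ 6 / 1000 * a :=
    mul_le_mul_of_nonneg_right h5 ha
  calc (s + a) ^ (l + 2) ≤ _ := h1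
    _ ≤ s ^ (l + 2) + a * (6 / 1000) := by
      have : s ^ (l + 1 + 1) = s ^ (l + 2) := by ring
      linarith

/-- one vertex -/
theorem TYM_vertex (h1 : Stmt_CV2) (h2 : Stmt_TAU) {m n k : ℕ} {G : Fin k → SimpleGraph (Fin n)}
    {e : Fin 3 → Fin k} {θ ε : ℝ} (hE : ExtM m G e θ ε) (v : Fin n)
    (hδ : 1 + ∑ i, ta G e θ i v ^ m - ∑ i, am G e θ m i v ≤ ε) :
    ∃ i : Fin 3, (1 - 5 * ε ≤ A G e θ i (i + 1) v ∧ 1 - 5 * ε ≤ A G e θ i (i + 2) v) ∧
      (1 - A G e θ i (i + 1) v) + (1 - A G e θ i (i + 2) v) ≤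
        1 + ∑ i, ta G e θ i v ^ m - ∑ i, am G e θ m i v := by
  obtain ⟨hA, hT⟩ := h2 n k G e θ hE.sit
  have hm := hE.m2
  have hep := hE.ep
  have hep2 := hE.ep'
  have hep' : ε ≤ 1 / 1000 := by
    have h3 : (1 : ℝ) ≤ 100 ^ m := one_le_pow₀ (by norm_num)
    have h4 : 1 * ε ≤ 100 ^ m * ε := mul_le_mul_of_nonneg_right h3 hep.le
    linarith
  have hτ0 : ∀ j, 0 ≤ ta G e θ j v := fun j => (hT j v).1
  have hτ1 : ∀ j, ta G e θ j v ≤ ε := fun j => (hE.tau j v).trans hE.tau'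
  -- the products
  have hβ : ∃ i : Fin 3, 1 - 5 * ε ≤ A G e θ i (i + 1) v * A G e θ i (i + 2) v := by
    by_contra hcon
    push Not at hcon
    have hc := h1 (fun j => A G e θ (j + 1) j v) (fun j => ta G e θ j v) hτ0
      (fun j => by
        have := (hA (j + 2) j v).2
        unfold ta
        linarith) (fun j => (hA (j + 1) j v).2)
    have he : ∀ i : Fin 3, (1 + ta G e θ (i + 1) v - A G e θ (i + 1 + 1) (i + 1) v) *
        A G e θ (i + 2 + 1) (i + 2) v = A G e θ i (i + 1) v * A G e θ i (i + 2) v := by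
      intro i
      unfold ta
      rw [TYM_12 i, TYM_21 i]
      ring
    simp only [he] at hc
    have h3 : ∑ i, ta G e θ i v ≤ 3 * ε := by
      rw [Fin.sum_univ_three]
      linarith [hτ1 0, hτ1 1, hτ1 2]
    have h4 : ∑ i, am G e θ m i v ≤
        ∑ i, (A G e θ i (i + 1) v * A G e θ i (i + 2) v) * (1 - 5 * ε) := by
      refine sum_le_sum fun i _ => ?_
      have hb0 : 0 ≤ A G e θ i (i + 1) v * A G e θ i (i + 2) v :=
        mul_nonneg (hA _ _ v).1 (hA _ _ v).1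
      have hb1 : A G e θ i (i + 1) v * A G e θ i (i + 2) v ≤ 1 :=
        mul_le_one₀ (hA _ _ v).2 (hA _ _ v).1 (hA _ _ v).2
      unfold am
      refine (pow_le_pow_of_le_one hb0 hb1 hm).trans ?_
      rw [sq]
      exact mul_le_mul_of_nonneg_left (hcon i).le hb0
    rw [← sum_mul] at h4
    have h5 : 0 ≤ ∑ i, ta G e θ i v ^ m := sum_nonneg fun i _ => pow_nonneg (hτ0 i) _
    have h6 : (∑ i, A G e θ i (i + 1) v * A G e θ i (i + 2) v) * (1 - 5 * ε) ≤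
        (1 + 3 * ε) * (1 - 5 * ε) :=
      mul_le_mul_of_nonneg_right (by linarith) (by linarith)
    nlinarith
  obtain ⟨i, hi⟩ := hβ
  have hu := hA i (i + 1) v
  have hw := hA i (i + 2) v
  have hu1 : 1 - 5 * ε ≤ A G e θ i (i + 1) v := by
    have : A G e θ i (i + 1) v * A G e θ i (i + 2) v ≤ A G e θ i (i + 1) v * 1 :=
      mul_le_mul_of_nonneg_left hw.2 hu.1
    linarith
  have hw1 : 1 - 5 * ε ≤ A G e θ i (i + 2) v := by
    have : A G e θ i (i + 1) v * A G e θ i (i + 2) v ≤ 1 * A G e θ i (i + 2) v :=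
      mul_le_mul_of_nonneg_right hu.2 hw.1
    linarith
  refine ⟨i, ⟨hu1, hw1⟩, ?_⟩
  rw [TYM_sum (fun j => ta G e θ j v ^ m) i, TYM_sum (fun j => am G e θ m j v) i]
  -- the two other colours
  have hq1 : A G e θ (i + 2) (i + 1) v = ta G e θ (i + 1) v + (1 - A G e θ i (i + 1) v) := by
    unfold ta
    rw [TYM_12 i, TYM_11 i]
    ring
  have hq2 : A G e θ (i + 1) (i + 2) v = ta G e θ (i + 2) v + (1 - A G e θ i (i + 2) v) := by
    unfold ta
    rw [TYM_21 i, TYM_22 i]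
    ring
  have hb1 : am G e θ m (i + 1) v ≤ (ta G e θ (i + 2) v + (1 - A G e θ i (i + 2) v)) ^ m := by
    rw [← hq2]
    unfold am
    rw [TYM_11 i, TYM_12 i]
    have h3 := hA (i + 1) (i + 2) v
    have h4 := hA (i + 1) i v
    refine pow_le_pow_left₀ (mul_nonneg h3.1 h4.1) ?_ m
    calc A G e θ (i + 1) (i + 2) v * A G e θ (i + 1) i v
        ≤ A G e θ (i + 1) (i + 2) v * 1 := mul_le_mul_of_nonneg_left h4.2 h3.1
      _ = _ := mul_one _
  have hb2 : am G e θ m (i + 2) v ≤ (ta G e θ (i + 1) v + (1 - A G e θ i (i + 1) v)) ^ m := by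
    rw [← hq1]
    unfold am
    rw [TYM_21 i, TYM_22 i]
    have h3 := hA (i + 2) (i + 1) v
    have h4 := hA (i + 2) i v
    refine pow_le_pow_left₀ (mul_nonneg h4.1 h3.1) ?_ m
    calc A G e θ (i + 2) i v * A G e θ (i + 2) (i + 1) v
        ≤ 1 * A G e θ (i + 2) (i + 1) v := mul_le_mul_of_nonneg_right h4.2 h3.1
      _ = _ := one_mul _
  have hb0 : am G e θ m i v ≤
      ((1 - (1 - A G e θ i (i + 1) v)) * (1 - (1 - A G e θ i (i + 2) v))) ^ 2 := by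
    unfold am
    refine (pow_le_pow_of_le_one (mul_nonneg hu.1 hw.1) (mul_le_one₀ hu.2 hw.1 hw.2) hm).trans ?_
    refine le_of_eq ?_
    ring
  have ht1 := hτ1 (i + 1)
  have ht2 := hτ1 (i + 2)
  have ht1' := hτ0 (i + 1)
  have ht2' := hτ0 (i + 2)
  have hsq : 0 ≤ ta G e θ i v ^ m := pow_nonneg (hτ0 i) _
  generalize ta G e θ (i + 1) v = s at *
  generalize ta G e θ (i + 2) v = r at *
  have hu0 : 0 ≤ 1 - A G e θ i (i + 1) v := by linarith [hu.2]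
  have hw0 : 0 ≤ 1 - A G e θ i (i + 2) v := by linarith [hw.2]
  have hu3 : 1 - A G e θ i (i + 1) v ≤ 5 * ε := by linarith
  have hw3 : 1 - A G e θ i (i + 2) v ≤ 5 * ε := by linarith
  have hu2 : 1 - A G e θ i (i + 1) v ≤ 1 / 200 := by linarith
  have hw2 : 1 - A G e θ i (i + 2) v ≤ 1 / 200 := by linarith
  generalize 1 - A G e θ i (i + 1) v = a at *
  generalize 1 - A G e θ i (i + 2) v = b at *
  have k1 := TYM_pow2 hm ht1' hu0 ht1 hu3 hep2 hep'
  have k2 := TYM_pow2 hm ht2' hw0 ht2 hw3 hep2 hep'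
  have key : ((1 - a) * (1 - b)) ^ 2 ≤ 1 - 3 / 2 * (a + b) := by
    have e3 : a * a ≤ a * (1 / 200) := mul_le_mul_of_nonneg_left hu2 hu0
    have e4 : b * b ≤ b * (1 / 200) := mul_le_mul_of_nonneg_left hw2 hw0
    have e5 : (2 * a - a * a) * (2 * b - b * b) ≤ (2 * a) * (2 * b) := by
      refine mul_le_mul (by nlinarith) (by nlinarith) (by nlinarith) (by linarith)
    have e6 : a * b ≤ a * (1 / 200) := mul_le_mul_of_nonneg_left hw2 hu0
    nlinarith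
  linarith

theorem stmt_TYM (h1 : Stmt_CV2) (h2 : Stmt_TAU) (h3 : Stmt_SMM) : Stmt_TYM := by
  intro m n k G e θ ε hE
  obtain ⟨hS1, hS2, -⟩ := h3 m n k G e θ (by have := hE.m2; omega) hE.sit
  have hpos : ∀ v, 0 ≤ 1 + ∑ i, ta G e θ i v ^ m - ∑ i, am G e θ m i v := fun v => by
    linarith [hS1 v]
  have hsum : ∑ v, (1 + ∑ i, ta G e θ i v ^ m - ∑ i, am G e θ m i v) ≤ ε := by
    rw [sum_sub_distrib, sum_add_distrib]
    have h4 : ∑ _v : Fin n, (1 : ℝ) = n := by simp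
    have h6 := hE.sum
    have h7 := hE.tsm
    rw [h4]
    linarith
  have hle : ∀ v, 1 + ∑ i, ta G e θ i v ^ m - ∑ i, am G e θ m i v ≤ ε := fun v =>
    (single_le_sum (f := fun v => 1 + ∑ i, ta G e θ i v ^ m - ∑ i, am G e θ m i v)
      (fun w _ => hpos w) (mem_univ v)).trans hsum
  choose t ht1 ht2 using fun v => TYM_vertex h1 h2 hE v (hle v)
  refine ⟨t, ht1, ?_⟩
  have h8 := sum_le_sum (s := (univ : Finset (Fin n))) (fun v _ => ht2 v)
  have h9 := hE.ep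
  linarith

end Pool.Agent.Work.MP_1ce445_fx
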