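import Pool.Agent.Work.MP_1ce445_fx.InterfaceU

/-!
Block TYU: the types of the vertices (uniform in the number of the colours).
-/

set_option autoImplicit false

namespace Pool.Agent.Work.MP_1ce445_fx

open Finset Pool.Agent.Work.MP_1ce445_co_56 Pool.Agent.Work.MP_1ce445_lin

theorem TYU_sum (f : Fin 3 → ℝ) (i : Fin 3) : ∑ j, f j = f i + f (i + 1) + f (i + 2) := by
  rw [Fin.sum_univ_three]
  fin_cases i
  · show f 0 + f 1 + f 2 = f 0 + f 1 + f 2
    ring
  · show f 0 + f 1 + f 2 = f 1 + f 2 + f 0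
    ring
  · show f 0 + f 1 + f 2 = f 2 + f 0 + f 1
    ring

theorem TYU_12 : ∀ i : Fin 3, i + 1 + 2 = i := by decide

theorem TYU_21 : ∀ i : Fin 3, i + 2 + 1 = i := by decide

theorem TYU_22 : ∀ i : Fin 3, i + 2 + 2 = i + 1 := by decide

theorem TYU_11 : ∀ i : Fin 3, i + 1 + 1 = i + 2 := by decide

/-- one vertex -/
theorem TYU_vertex (h1 : Stmt_CV2) (h2 : Stmt_TAU) {n k : ℕ} {G : Fin k → SimpleGraph (Fin n)}
    {e : Fin 3 → Fin k} {θ ε : ℝ} (hE : ExtU G e θ ε) (v : Fin n)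
    (hδ : 1 + ∑ i, ta G e θ i v ^ 2 - ∑ i, al G e θ i v ≤ ε) :
    ∃ i : Fin 3, (1 - 5 * ε ≤ A G e θ i (i + 1) v ∧ 1 - 5 * ε ≤ A G e θ i (i + 2) v) ∧
      (1 - A G e θ i (i + 1) v) + (1 - A G e θ i (i + 2) v) ≤
        1 + ∑ i, ta G e θ i v ^ 2 - ∑ i, al G e θ i v := by
  obtain ⟨hA, hT⟩ := h2 n k G e θ hE.sit
  have hep := hE.ep
  have hep' := hE.ep'
  have hτ0 : ∀ j, 0 ≤ ta G e θ j v := fun j => (hT j v).1
  have hτ1 : ∀ j, ta G e θ j v ≤ ε := fun j => (hE.tau j v).trans hE.tau'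
  -- the products
  have hβ : ∃ i : Fin 3, 1 - 5 * ε ≤ A G e θ i (i + 1) v * A G e θ i (i + 2) v := by
    by_contra hcon
    push Not at hcon
    have hc := h1 (fun j => A G e θ (j + 1) j v) (fun j => ta G e θ j v) hτ0
      (fun j => by
        have := (hA (j + 2) j v).2
        unfold ta
        linarith) (fun j => (hA (j + 1) j v).2)
    have he : ∀ i : Fin 3, (1 + ta G e θ (i + 1) v - A G e θ (i + 1 + 1) (i + 1) v) *
        A G e θ (i + 2 + 1) (i + 2) v = A G e θ i (i + 1) v * A G e θ i (i + 2) v := by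
      intro i
      unfold ta
      rw [TYU_12 i, TYU_21 i]
      ring
    simp only [he] at hc
    have h3 : ∑ i, ta G e θ i v ≤ 3 * ε := by
      rw [Fin.sum_univ_three]
      linarith [hτ1 0, hτ1 1, hτ1 2]
    have h4 : ∑ i, al G e θ i v ≤
        ∑ i, (A G e θ i (i + 1) v * A G e θ i (i + 2) v) * (1 - 5 * ε) := by
      refine sum_le_sum fun i _ => ?_
      unfold al
      rw [sq]
      exact mul_le_mul_of_nonneg_left (hcon i).le (mul_nonneg (hA _ _ v).1 (hA _ _ v).1)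
    rw [← sum_mul] at h4
    have h5 : 0 ≤ ∑ i, ta G e θ i v ^ 2 := sum_nonneg fun i _ => sq_nonneg _
    have h6 : (∑ i, A G e θ i (i + 1) v * A G e θ i (i + 2) v) * (1 - 5 * ε) ≤
        (1 + 3 * ε) * (1 - 5 * ε) :=
      mul_le_mul_of_nonneg_right (by linarith) (by linarith)
    nlinarith
  obtain ⟨i, hi⟩ := hβ
  have hu := hA i (i + 1) v
  have hw := hA i (i + 2) v
  have hu1 : 1 - 5 * ε ≤ A G e θ i (i + 1) v := by
    have : A G e θ i (i + 1) v * A G e θ i (i + 2) v ≤ A G e θ i (i + 1) v * 1 :=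
      mul_le_mul_of_nonneg_left hw.2 hu.1
    linarith
  have hw1 : 1 - 5 * ε ≤ A G e θ i (i + 2) v := by
    have : A G e θ i (i + 1) v * A G e θ i (i + 2) v ≤ 1 * A G e θ i (i + 2) v :=
      mul_le_mul_of_nonneg_right hu.2 hw.1
    linarith
  refine ⟨i, ⟨hu1, hw1⟩, ?_⟩
  rw [TYU_sum (fun j => ta G e θ j v ^ 2) i, TYU_sum (fun j => al G e θ j v) i]
  -- the two other colours
  have hq1 : A G e θ (i + 2) (i + 1) v = ta G e θ (i + 1) v + (1 - A G e θ i (i + 1) v) := by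
    unfold ta
    rw [TYU_12 i, TYU_11 i]
    ring
  have hq2 : A G e θ (i + 1) (i + 2) v = ta G e θ (i + 2) v + (1 - A G e θ i (i + 2) v) := by
    unfold ta
    rw [TYU_21 i, TYU_22 i]
    ring
  have hb1 : al G e θ (i + 1) v ≤ (ta G e θ (i + 2) v + (1 - A G e θ i (i + 2) v)) ^ 2 := by
    rw [← hq2]
    unfold al
    rw [TYU_11 i, TYU_12 i]
    have h3 := hA (i + 1) (i + 2) v
    have h4 := hA (i + 1) i v
    refine pow_le_pow_left₀ (mul_nonneg h3.1 h4.1) ?_ 2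
    calc A G e θ (i + 1) (i + 2) v * A G e θ (i + 1) i v
        ≤ A G e θ (i + 1) (i + 2) v * 1 := mul_le_mul_of_nonneg_left h4.2 h3.1
      _ = _ := mul_one _
  have hb2 : al G e θ (i + 2) v ≤ (ta G e θ (i + 1) v + (1 - A G e θ i (i + 1) v)) ^ 2 := by
    rw [← hq1]
    unfold al
    rw [TYU_21 i, TYU_22 i]
    have h3 := hA (i + 2) (i + 1) v
    have h4 := hA (i + 2) i v
    refine pow_le_pow_left₀ (mul_nonneg h4.1 h3.1) ?_ 2
    calc A G e θ (i + 2) i v * A G e θ (i + 2) (i + 1) v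
        ≤ 1 * A G e θ (i + 2) (i + 1) v := mul_le_mul_of_nonneg_right h4.2 h3.1
      _ = _ := one_mul _
  have hb0 : al G e θ i v =
      ((1 - (1 - A G e θ i (i + 1) v)) * (1 - (1 - A G e θ i (i + 2) v))) ^ 2 := by
    unfold al
    ring
  rw [hb0]
  have ht1 := hτ1 (i + 1)
  have ht2 := hτ1 (i + 2)
  have ht1' := hτ0 (i + 1)
  have ht2' := hτ0 (i + 2)
  have hsq : 0 ≤ ta G e θ i v ^ 2 := sq_nonneg _
  generalize ta G e θ (i + 1) v = s at *
  generalize ta G e θ (i + 2) v = r at *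
  have hu0 : 0 ≤ 1 - A G e θ i (i + 1) v := by linarith [hu.2]
  have hw0 : 0 ≤ 1 - A G e θ i (i + 2) v := by linarith [hw.2]
  have hu2 : 1 - A G e θ i (i + 1) v ≤ 1 / 200 := by linarith
  have hw2 : 1 - A G e θ i (i + 2) v ≤ 1 / 200 := by linarith
  generalize 1 - A G e θ i (i + 1) v = a at *
  generalize 1 - A G e θ i (i + 2) v = b at *
  have key : ((1 - a) * (1 - b)) ^ 2 + (s + a) ^ 2 + (r + b) ^ 2 + (a + b) ≤
      1 + s ^ 2 + r ^ 2 := by
    have e1 : a * s ≤ a * (1 / 1000) := mul_le_mul_of_nonneg_left (by linarith) hu0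
    have e2 : b * r ≤ b * (1 / 1000) := mul_le_mul_of_nonneg_left (by linarith) hw0
    have e3 : a * a ≤ a * (1 / 200) := mul_le_mul_of_nonneg_left hu2 hu0
    have e4 : b * b ≤ b * (1 / 200) := mul_le_mul_of_nonneg_left hw2 hw0
    have e5 : (2 * a - a * a) * (2 * b - b * b) ≤ (2 * a) * (2 * b) := by
      refine mul_le_mul (by nlinarith) (by nlinarith) (by nlinarith) (by linarith)
    have e6 : a * b ≤ a * (1 / 200) := mul_le_mul_of_nonneg_left hw2 hu0
    nlinarith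
  linarith

theorem stmt_TYU (h1 : Stmt_CV2) (h2 : Stmt_TAU) (h3 : Stmt_SUM) : Stmt_TYU := by
  intro n k G e θ ε hE
  obtain ⟨hS1, hS2, -⟩ := h3 n k G e θ hE.sit
  have hpos : ∀ v, 0 ≤ 1 + ∑ i, ta G e θ i v ^ 2 - ∑ i, al G e θ i v := fun v => by
    linarith [hS1 v]
  have hsum : ∑ v, (1 + ∑ i, ta G e θ i v ^ 2 - ∑ i, al G e θ i v) ≤ ε := by
    rw [sum_sub_distrib, sum_add_distrib]
    have h4 : ∑ _v : Fin n, (1 : ℝ) = n := by simp
    have h5 : sg G e ≤ 12 + ∑ v, ∑ i, al G e θ i v := by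
      unfold sg
      rw [sum_comm]
      calc ∑ i, (gammaT (G (e i)) : ℝ) ≤ ∑ i : Fin 3, (4 + ∑ v, al G e θ i v) :=
            sum_le_sum fun i _ => hS2 i
        _ = 12 + ∑ i, ∑ v, al G e θ i v := by
            rw [sum_add_distrib]
            simp
            norm_num
    have h6 := hE.sum
    have h7 := hE.tsq
    rw [h4]
    linarith
  have hle : ∀ v, 1 + ∑ i, ta G e θ i v ^ 2 - ∑ i, al G e θ i v ≤ ε := fun v =>
    (single_le_sum (f := fun v => 1 + ∑ i, ta G e θ i v ^ 2 - ∑ i, al G e θ i v)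
      (fun w _ => hpos w) (mem_univ v)).trans hsum
  choose t ht1 ht2 using fun v => TYU_vertex h1 h2 hE v (hle v)
  refine ⟨t, ht1, ?_⟩
  have h8 := sum_le_sum (s := (univ : Finset (Fin n))) (fun v _ => ht2 v)
  have h9 := hE.ep
  linarith

end Pool.Agent.Work.MP_1ce445_fx

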