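import Pool.Agent.Work.MP_1ce445_fx.Interface

/-! # Block UPF: the upper bound for the product -/

namespace Pool.Agent.Work.MP_1ce445_fx

open Finset Pool.Agent.Work.MP_1ce445_co_56 Pool.Agent.Work.MP_1ce445_lin

lemma UPF_NN (n : ℕ) : NN n ≤ n ∧ n ≤ NN n + 1 := by
  unfold NN
  omega

lemma UPF_gam {n k : ℕ} {G : Fin k → SimpleGraph (Fin n)} (hG : IsFactorization G)
    (j : Fin k) : gammaT (G j) ≤ NN n := by
  rcases Nat.even_or_odd n with he | ho
  · have h1 := gammaT_le_univ (hG.minDeg j)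
    rw [Fintype.card_fin] at h1
    unfold NN
    obtain ⟨m, hm⟩ := he
    omega
  · have h1 := gammaT_add_one_le (hG.minDeg j) (by rw [Fintype.card_fin]; exact ho)
    rw [Fintype.card_fin] at h1
    unfold NN
    obtain ⟨m, hm⟩ := ho
    omega

lemma UPF_img {k : ℕ} (e : Fin 3 → Fin k) :
    univ.filter (fun l => ¬ ∀ i, l ≠ e i) = univ.image e := by
  ext l
  simp only [mem_filter, mem_univ, true_and, mem_image]
  push Not
  exact ⟨fun ⟨i, hi⟩ => ⟨i, hi.symm⟩, fun ⟨i, hi⟩ => ⟨i, hi.symm⟩⟩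

lemma UPF_card {k : ℕ} (e : Fin 3 → Fin k) (he : Function.Injective e) :
    (oth e).card = k - 3 := by
  have h1 := Finset.card_filter_add_card_filter_not (s := (univ : Finset (Fin k)))
    (fun l => ∀ i, l ≠ e i)
  rw [UPF_img e, card_image_of_injective _ he, card_univ, card_univ, Fintype.card_fin,
    Fintype.card_fin] at h1
  unfold oth
  omega

lemma UPF_split {k : ℕ} (e : Fin 3 → Fin k) (he : Function.Injective e) (f : Fin k → ℕ) :
    ∏ l, f l = (∏ l ∈ oth e, f l) * (f (e 0) * f (e 1) * f (e 2)) := by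
  have h1 := Finset.prod_filter_mul_prod_filter_not (univ : Finset (Fin k))
    (fun l => ∀ i, l ≠ e i) f
  rw [UPF_img e, prod_image (fun a _ b _ h => he h), Fin.prod_univ_three] at h1
  exact h1.symm

lemma UPF_prod {n k : ℕ} {G : Fin k → SimpleGraph (Fin n)} (hG : IsFactorization G)
    (e : Fin 3 → Fin k) (he : Function.Injective e) {B : ℕ}
    (hB : gammaT (G (e 0)) * gammaT (G (e 1)) * gammaT (G (e 2)) ≤ B) :
    ∏ l, gammaT (G l) ≤ NN n ^ (k - 3) * B := by
  rw [UPF_split e he]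
  apply Nat.mul_le_mul _ hB
  calc ∏ l ∈ oth e, gammaT (G l) ≤ ∏ _l ∈ oth e, NN n :=
        Finset.prod_le_prod' fun l _ => UPF_gam hG l
    _ = NN n ^ (k - 3) := by rw [prod_const, UPF_card e he]

lemma UPF_amgm (a b c : ℕ) : 27 * (a * b * c) ≤ (a + b + c) ^ 3 := by
  have h : (27 : ℝ) * (a * b * c) ≤ (a + b + c) ^ 3 := by
    have ha : (0 : ℝ) ≤ a := Nat.cast_nonneg a
    have hb : (0 : ℝ) ≤ b := Nat.cast_nonneg b
    have hc : (0 : ℝ) ≤ c := Nat.cast_nonneg c
    nlinarith [mul_nonneg ha (sq_nonneg ((b : ℝ) - c)), mul_nonneg hb (sq_nonneg ((a : ℝ) - c)),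
      mul_nonneg hc (sq_nonneg ((b : ℝ) - a)), mul_nonneg ha (sq_nonneg ((a : ℝ) - c)),
      mul_nonneg ha (sq_nonneg ((a : ℝ) - b)), mul_nonneg hb (sq_nonneg ((b : ℝ) - c)),
      mul_nonneg hb (sq_nonneg ((b : ℝ) - a)), mul_nonneg hc (sq_nonneg ((c : ℝ) - a)),
      mul_nonneg hc (sq_nonneg ((c : ℝ) - b))]
  exact_mod_cast h

/-- the odd case with a large deficit -/
lemma UPF_odd (n N σ ε : ℝ) (hN : 0 < N) (hn : n = N + 1) (hσ : 4 ≤ σ)
    (hε : ε ≤ 1 / 8500) :
    ((n + 12) / 3) ^ 3 * Real.exp (3 * (ε * (1 + σ)) / n - σ / N) ≤ (N + 12) ^ 3 / 27 := by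
  have hn0 : 0 < n := by linarith
  have h1 : (n + 12) ≤ (N + 12) * Real.exp (1 / (N + 12)) := by
    have h2 := Real.add_one_le_exp (1 / (N + 12))
    have h3 : (N + 12) * (1 / (N + 12) + 1) ≤ (N + 12) * Real.exp (1 / (N + 12)) :=
      mul_le_mul_of_nonneg_left h2 (by linarith)
    have h4 : (N + 12) * (1 / (N + 12) + 1) = n + 12 := by
      have : N + 12 ≠ 0 := by linarith
      field_simp
      rw [hn]; ring
    linarith
  have h2 : (n + 12) ^ 3 ≤ (N + 12) ^ 3 * Real.exp (3 / (N + 12)) := by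
    calc (n + 12) ^ 3 ≤ ((N + 12) * Real.exp (1 / (N + 12))) ^ 3 :=
          pow_le_pow_left₀ (by linarith) h1 3
      _ = (N + 12) ^ 3 * Real.exp (3 / (N + 12)) := by
          rw [mul_pow, ← Real.exp_nat_mul]
          congr 2
          push_cast
          ring
  have h3 : 3 / (N + 12) + (3 * (ε * (1 + σ)) / n - σ / N) ≤ 0 := by
    have h4 : 3 / (N + 12) ≤ 3 / n := by
      apply div_le_div_of_nonneg_left (by norm_num) hn0
      linarith
    have h5 : σ / n ≤ σ / N := by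
      apply div_le_div_of_nonneg_left (by linarith) hN
      linarith
    have h6 : 3 / n + 3 * (ε * (1 + σ)) / n - σ / n ≤ 0 := by
      have h7 : 3 / n + 3 * (ε * (1 + σ)) / n - σ / n = (3 + 3 * (ε * (1 + σ)) - σ) / n := by
        ring
      rw [h7]
      apply div_nonpos_of_nonpos_of_nonneg _ hn0.le
      nlinarith [mul_le_mul_of_nonneg_right hε (by linarith : (0 : ℝ) ≤ 1 + σ)]
    linarith
  calc ((n + 12) / 3) ^ 3 * Real.exp (3 * (ε * (1 + σ)) / n - σ / N)
      = (n + 12) ^ 3 * Real.exp (3 * (ε * (1 + σ)) / n - σ / N) / 27 := by ring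
    _ ≤ ((N + 12) ^ 3 * Real.exp (3 / (N + 12))) *
        Real.exp (3 * (ε * (1 + σ)) / n - σ / N) / 27 := by
        apply div_le_div_of_nonneg_right _ (by norm_num)
        exact mul_le_mul_of_nonneg_right h2 (Real.exp_pos _).le
    _ = (N + 12) ^ 3 * Real.exp (3 / (N + 12) + (3 * (ε * (1 + σ)) / n - σ / N)) / 27 := by
        rw [Real.exp_add]; ring
    _ ≤ (N + 12) ^ 3 * 1 / 27 := by
        apply div_le_div_of_nonneg_right _ (by norm_num)
        apply mul_le_mul_of_nonneg_left _ (by positivity)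
        exact Real.exp_le_one_iff.2 h3
    _ = (N + 12) ^ 3 / 27 := by ring

/-- the even case with a large deficit -/
lemma UPF_even (n T σ ε : ℝ) (hn : 0 < n) (hσ : 1 ≤ σ)
    (hε : ε ≤ 1 / 8500) (hT : (n + 12) ^ 3 ≤ 27 * T + 12 * (n + 14)) :
    ((n + 12) / 3) ^ 3 * Real.exp (3 * (ε * (1 + σ)) / n - σ / n) ≤ T := by
  have h1 : 3 * (ε * (1 + σ)) / n - σ / n ≤ - (1 / (2 * n)) := by
    have h2 : 3 * (ε * (1 + σ)) / n - σ / n + 1 / (2 * n) =
        (3 * (ε * (1 + σ)) - σ + 1 / 2) / n := by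
      field_simp
    have h3 : (3 * (ε * (1 + σ)) - σ + 1 / 2) / n ≤ 0 := by
      apply div_nonpos_of_nonpos_of_nonneg _ hn.le
      nlinarith [mul_le_mul_of_nonneg_right hε (by linarith : (0 : ℝ) ≤ 1 + σ)]
    linarith
  have h2 : Real.exp (3 * (ε * (1 + σ)) / n - σ / n) ≤ 2 * n / (2 * n + 1) := by
    have h3 := Real.exp_le_exp.2 h1
    have h4 := Real.add_one_le_exp (1 / (2 * n))
    have h5 : Real.exp (-(1 / (2 * n))) = (Real.exp (1 / (2 * n)))⁻¹ := Real.exp_neg _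
    have h6 : (Real.exp (1 / (2 * n)))⁻¹ ≤ (1 / (2 * n) + 1)⁻¹ := by
      apply inv_anti₀ (by positivity) h4
    have h7 : (1 / (2 * n) + 1)⁻¹ = 2 * n / (2 * n + 1) := by
      field_simp
      ring
    rw [h5] at h3
    linarith
  have h3 : ((n + 12) / 3) ^ 3 * Real.exp (3 * (ε * (1 + σ)) / n - σ / n) ≤
      ((n + 12) / 3) ^ 3 * (2 * n / (2 * n + 1)) :=
    mul_le_mul_of_nonneg_left h2 (by positivity)
  refine h3.trans ?_
  rw [mul_div_assoc', div_le_iff₀ (by linarith)]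
  have h4 : ((n + 12) / 3) ^ 3 = (n + 12) ^ 3 / 27 := by ring
  rw [h4]
  nlinarith [mul_le_mul_of_nonneg_right hT (by linarith : (0 : ℝ) ≤ 2 * n + 1), pow_pos hn 3,
    pow_pos hn 2]

/-- the bound for the error term -/
lemma UPF_RR (n k : ℕ) (ε θ s σ : ℝ) (hk : 3 ≤ k) (he : ε = 1 / (100 * (10 + 25 * k)))
    (ht : θ = ε / (200 * k)) (hs : s ≤ σ + k) (hσ : 0 ≤ σ)
    (hn : (450 + 225 * (k : ℝ) ^ 2) / n ≤ ε / 2) : RR n k θ s ≤ ε * (1 + σ) := by
  have hk' : (3 : ℝ) ≤ k := by exact_mod_cast hk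
  have he0 : 0 < ε := by rw [he]; positivity
  have he1 : ε ≤ 1 / 8500 := by
    rw [he, div_le_div_iff₀ (by positivity) (by norm_num)]
    nlinarith
  have h1 : 2700 * (k : ℝ) * θ ^ 2 * s ≤ 2700 * (k : ℝ) * θ ^ 2 * (σ + k) :=
    mul_le_mul_of_nonneg_left hs (by positivity)
  have h2 : 2700 * (k : ℝ) * θ ^ 2 * (σ + k) = 27 / 400 * ε ^ 2 * ((σ + k) / k) := by
    rw [ht]
    field_simp
    ring
  have h3 : (σ + k) / k ≤ 1 + σ := by
    rw [div_le_iff₀ (by linarith)]
    nlinarith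
  have h4 : 27 / 400 * ε ^ 2 * ((σ + k) / k) ≤ 27 / 400 * ε ^ 2 * (1 + σ) :=
    mul_le_mul_of_nonneg_left h3 (by positivity)
  have h5 : 27 / 400 * ε ^ 2 * (1 + σ) ≤ ε / 2 * (1 + σ) := by
    apply mul_le_mul_of_nonneg_right _ (by linarith)
    nlinarith
  have h6 : ε / 2 ≤ ε / 2 * (1 + σ) := by nlinarith
  unfold RR
  linarith

/-- the bound for one factorization -/
lemma UPF_core (hADD : Stmt_ADD) (hMXT : Stmt_MXT) (hPAR : Stmt_PAR) (hNUM : Stmt_NUM)
    (hPRD : Stmt_PRD) (n k : ℕ) (G : Fin k → SimpleGraph (Fin n)) (e : Fin 3 → Fin k)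
    (ε θ : ℝ) (hk : 3 ≤ k) (he : ε = 1 / (100 * (10 + 25 * k)))
    (ht : θ = ε / (200 * k)) (hn : (450 + 225 * (k : ℝ) ^ 2) / n ≤ ε / 2)
    (hn' : (10 + 25 * (k : ℝ)) / n ≤ ε) (hn2 : 2 ≤ n) (hS : Sit G e θ) :
    (Odd n → 27 * ∏ l, gammaT (G l) ≤ NN n ^ (k - 3) * (NN n + 12) ^ 3) ∧
    (Even n → ∏ l, gammaT (G l) ≤ NN n ^ (k - 3) * TT (n / 2)) := by
  have hk' : (3 : ℝ) ≤ k := by exact_mod_cast hk
  have he0 : 0 < ε := by rw [he]; positivity
  have he1 : ε ≤ 1 / 8500 := by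
    rw [he, div_le_div_iff₀ (by positivity) (by norm_num)]
    nlinarith
  have hG := hS.fac
  have hinj := hS.inj
  have hNN := UPF_NN n
  have hgam := fun j => UPF_gam hG j
  have hN0 : 0 < NN n := by omega
  have hN0' : (0 : ℝ) < NN n := by exact_mod_cast hN0
  have hn0 : (0 : ℝ) < n := by
    have : 0 < n := by omega
    exact_mod_cast this
  -- the deficit
  obtain ⟨σ, hσ⟩ : ∃ σ : ℕ, σ = ∑ l ∈ oth e, (NN n - gammaT (G l)) := ⟨_, rfl⟩
  have hσR : (σ : ℝ) = ∑ l ∈ oth e, ((NN n : ℝ) - gammaT (G l)) := by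
    rw [hσ, Nat.cast_sum]
    exact sum_congr rfl fun l _ => Nat.cast_sub (hgam l)
  have hsl : sl G e ≤ σ + k := by
    have h1 : sl G e ≤ ∑ l ∈ oth e, (((NN n : ℝ) - gammaT (G l)) + 1) := by
      unfold sl
      apply sum_le_sum
      intro l _
      have : (n : ℝ) ≤ NN n + 1 := by exact_mod_cast hNN.2
      linarith
    rw [sum_add_distrib, ← hσR, sum_const, UPF_card e hinj, nsmul_eq_mul, mul_one] at h1
    have h2 : ((k - 3 : ℕ) : ℝ) ≤ k := by exact_mod_cast Nat.sub_le k 3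
    linarith
  have hσ0 : (0 : ℝ) ≤ σ := Nat.cast_nonneg σ
  have hRR := UPF_RR n k ε θ (sl G e) σ hk he ht hsl hσ0 hn
  have hA := (hADD n k G e θ hS).1
  have hsg : sg G e = ((gammaT (G (e 0)) + gammaT (G (e 1)) + gammaT (G (e 2)) : ℕ) : ℝ) := by
    unfold sg
    rw [Fin.sum_univ_three]
    push_cast
    rfl
  -- the bound from PRD
  have hP : (∏ l, (gammaT (G l) : ℝ)) ≤ (NN n : ℝ) ^ (k - 3) * ((((n : ℝ) + 12) / 3) ^ 3 *
      Real.exp (3 * (ε * (1 + σ)) / n - σ / NN n)) := by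
    have h1 := hPRD k n (NN n) (fun l => gammaT (G l)) e (ε * (1 + σ)) hN0 hNN.1 hinj
      (by positivity) hgam (by
        have h2 : (∑ i, (gammaT (G (e i)) : ℝ)) = sg G e := rfl
        rw [h2]
        linarith)
    rw [← hσR] at h1
    rw [← mul_assoc]
    exact h1
  -- small deficit, sum at most n + 11
  have hsmall : (σ : ℝ) ≤ 3 → gammaT (G (e 0)) + gammaT (G (e 1)) + gammaT (G (e 2)) ≤ n + 12 := by
    intro h3
    have h4 : sg G e < n + 13 := by nlinarith
    rw [hsg] at h4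
    have h5 : gammaT (G (e 0)) + gammaT (G (e 1)) + gammaT (G (e 2)) < n + 13 := by
      exact_mod_cast h4
    omega
  have hpar : (σ : ℝ) ≤ 3 → gammaT (G (e 0)) + gammaT (G (e 1)) + gammaT (G (e 2)) = n + 12 →
      Even n ∧ ∀ i, Even (gammaT (G (e i))) := by
    intro h3 h4
    have h3' : σ ≤ 3 := by exact_mod_cast h3
    have h5 : Ext G e θ ε := by
      refine hMXT n k G e θ ε hS he0 (by linarith) ?_ hn' ?_ ?_ ?_
      · have h6 : 2700 * (k : ℝ) * θ ^ 2 * (4 * k) = 27 / 100 * ε ^ 2 := by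
          rw [ht]
          field_simp
          ring
        unfold RR
        nlinarith
      · have h6 : (10 + 25 * (k : ℝ)) = 1 / (100 * ε) := by
          rw [he]
          field_simp
        have h7 : θ ≤ ε := by
          rw [ht]
          apply div_le_self he0.le
          linarith
        have h8 : (θ + 6 * ε) * (10 + 25 * (k : ℝ)) ≤ (7 * ε) * (10 + 25 * (k : ℝ)) :=
          mul_le_mul_of_nonneg_right (by linarith) (by positivity)
        have h9 : (7 * ε) * (10 + 25 * (k : ℝ)) = 7 / 100 := by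
          rw [he]
          field_simp
        linarith
      · intro l hl
        have h6 : l ∈ oth e := by
          unfold oth
          exact mem_filter.2 ⟨mem_univ _, hl⟩
        have h7 : NN n - gammaT (G l) ≤ σ := by
          rw [hσ]
          exact single_le_sum (f := fun l => NN n - gammaT (G l)) (fun _ _ => Nat.zero_le _) h6
        have h8 := hgam l
        omega
      · rw [hsg, h4]
        push_cast
        exact le_rfl
    exact hPAR n k G e θ ε h5
  constructor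
  · -- odd
    intro hodd
    have hnN : n = NN n + 1 := by
      unfold NN
      obtain ⟨m, hm⟩ := hodd
      omega
    rcases Nat.lt_or_ge σ 4 with h4 | h4
    · have h3 : (σ : ℝ) ≤ 3 := by
        have : σ ≤ 3 := by omega
        exact_mod_cast this
      have h5 := hsmall h3
      have h6 : gammaT (G (e 0)) + gammaT (G (e 1)) + gammaT (G (e 2)) ≠ n + 12 := by
        intro h7
        exact (Nat.not_even_iff_odd.2 hodd) (hpar h3 h7).1
      have h7 : gammaT (G (e 0)) + gammaT (G (e 1)) + gammaT (G (e 2)) ≤ NN n + 12 := by omega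
      have h8 := UPF_prod hG e hinj (B := gammaT (G (e 0)) * gammaT (G (e 1)) * gammaT (G (e 2)))
        le_rfl
      have h9 := UPF_amgm (gammaT (G (e 0))) (gammaT (G (e 1))) (gammaT (G (e 2)))
      have h10 := Nat.pow_le_pow_left h7 3
      calc 27 * ∏ l, gammaT (G l) ≤ 27 * (NN n ^ (k - 3) *
            (gammaT (G (e 0)) * gammaT (G (e 1)) * gammaT (G (e 2)))) :=
            Nat.mul_le_mul_left 27 h8
        _ = NN n ^ (k - 3) * (27 * (gammaT (G (e 0)) * gammaT (G (e 1)) * gammaT (G (e 2)))) := by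
            ring
        _ ≤ NN n ^ (k - 3) * (NN n + 12) ^ 3 := Nat.mul_le_mul_left _ (h9.trans h10)
    · have h5 := UPF_odd n (NN n) σ ε hN0' (by exact_mod_cast hnN) (by exact_mod_cast h4) he1
      have h6 := mul_le_mul_of_nonneg_left h5
        (by positivity : (0 : ℝ) ≤ (NN n : ℝ) ^ (k - 3))
      have h7 : (27 : ℝ) * ∏ l, (gammaT (G l) : ℝ) ≤
          (NN n : ℝ) ^ (k - 3) * ((NN n : ℝ) + 12) ^ 3 := by
        have h8 : (NN n : ℝ) ^ (k - 3) * (((NN n : ℝ) + 12) ^ 3 / 27) =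
          (NN n : ℝ) ^ (k - 3) * ((NN n : ℝ) + 12) ^ 3 / 27 := by ring
        rw [h8] at h6
        linarith
      exact_mod_cast h7
  · -- even
    intro heven
    obtain ⟨q, hq⟩ := heven
    have hq2 : n / 2 = q := by omega
    have hnN : NN n = n := by
      unfold NN
      omega
    rw [hq2]
    have hnq : (n : ℝ) = 2 * q := by
      rw [hq]
      push_cast
      ring
    have hT := hNUM.2.1 q
    rcases Nat.eq_zero_or_pos σ with h4 | h4
    · have h3 : (σ : ℝ) ≤ 3 := by rw [h4]; norm_num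
      have h5 := hsmall h3
      by_cases h6 : gammaT (G (e 0)) + gammaT (G (e 1)) + gammaT (G (e 2)) = n + 12
      · have h7 := (hpar h3 h6).2
        exact UPF_prod hG e hinj (hNUM.1 q _ _ _ (h7 0) (h7 1) (h7 2) (by omega))
      · apply UPF_prod hG e hinj
        have h7 : gammaT (G (e 0)) + gammaT (G (e 1)) + gammaT (G (e 2)) ≤ 2 * q + 11 := by omega
        have h9 := UPF_amgm (gammaT (G (e 0))) (gammaT (G (e 1))) (gammaT (G (e 2)))
        have h10 := Nat.pow_le_pow_left h7 3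
        have h11 : (2 * q + 11) ^ 3 + 24 * (q + 7) ≤ 8 * (q + 6) ^ 3 := by nlinarith
        omega
    · have h4' : (1 : ℝ) ≤ σ := by exact_mod_cast h4
      have hT' : ((n : ℝ) + 12) ^ 3 ≤ 27 * (TT q : ℝ) + 12 * ((n : ℝ) + 14) := by
        have h5 : (8 : ℝ) * ((q : ℝ) + 6) ^ 3 ≤ 27 * (TT q : ℝ) + 24 * ((q : ℝ) + 7) := by
          exact_mod_cast hT
        rw [hnq]
        nlinarith
      have h5 := UPF_even n (TT q) σ ε hn0 h4' he1 hT'
      rw [hnN] at hP
      have h6 := mul_le_mul_of_nonneg_left h5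
        (by positivity : (0 : ℝ) ≤ (n : ℝ) ^ (k - 3))
      rw [hnN]
      have h7 : (∏ l, (gammaT (G l) : ℝ)) ≤ (n : ℝ) ^ (k - 3) * (TT q : ℝ) := hP.trans h6
      exact_mod_cast h7

theorem stmt_UPF : Stmt_STR → Stmt_ADD → Stmt_MXT → Stmt_PAR → Stmt_NUM → Stmt_PRD →
    Stmt_UPF := by
  intro hSTR hADD hMXT hPAR hNUM hPRD k hk
  have hk' : (3 : ℝ) ≤ k := by exact_mod_cast hk
  obtain ⟨ε, he⟩ : ∃ ε : ℝ, ε = 1 / (100 * (10 + 25 * k)) := ⟨_, rfl⟩
  obtain ⟨θ, ht⟩ : ∃ θ : ℝ, θ = ε / (200 * k) := ⟨_, rfl⟩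
  have he0 : 0 < ε := by rw [he]; positivity
  have he1 : ε ≤ 1 / 8500 := by
    rw [he, div_le_div_iff₀ (by positivity) (by norm_num)]
    nlinarith
  have ht0 : 0 < θ := by rw [ht]; positivity
  have ht1 : θ ≤ 1 / 1000 := by
    have h7 : θ ≤ ε := by
      rw [ht]
      apply div_le_self he0.le
      linarith
    linarith
  obtain ⟨n1, hn1⟩ := hSTR k θ hk ht0 ht1
  refine ⟨max (max n1 2) (200 * (10 + 25 * k) * (450 + 225 * k ^ 2)), ?_⟩
  intro n hn
  have hna : n1 ≤ n := (le_max_left _ _).trans ((le_max_left _ _).trans hn)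
  have hn2 : 2 ≤ n := (le_max_right _ _).trans ((le_max_left _ _).trans hn)
  have hnb : 200 * (10 + 25 * k) * (450 + 225 * k ^ 2) ≤ n := (le_max_right _ _).trans hn
  have hnb' : 200 * (10 + 25 * (k : ℝ)) * (450 + 225 * (k : ℝ) ^ 2) ≤ n := by exact_mod_cast hnb
  have hn0 : (0 : ℝ) < n := by
    have : 0 < n := by omega
    exact_mod_cast this
  have hc1 : (450 + 225 * (k : ℝ) ^ 2) / n ≤ ε / 2 := by
    rw [div_le_iff₀ hn0, he]
    have h1 : 1 / (100 * (10 + 25 * (k : ℝ))) / 2 * (n : ℝ) =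
      (n : ℝ) / (200 * (10 + 25 * (k : ℝ))) := by
      field_simp
      ring
    rw [h1, le_div_iff₀ (by positivity)]
    linarith
  have hc2 : (10 + 25 * (k : ℝ)) / n ≤ ε := by
    have h1 : (10 + 25 * (k : ℝ)) / n ≤ (450 + 225 * (k : ℝ) ^ 2) / n := by
      apply div_le_div_of_nonneg_right _ hn0.le
      nlinarith
    linarith
  have hcore : ∀ G : Fin k → SimpleGraph (Fin n), IsFactorization G →
      (Odd n → 27 * ∏ l, gammaT (G l) ≤ NN n ^ (k - 3) * (NN n + 12) ^ 3) ∧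
      (Even n → ∏ l, gammaT (G l) ≤ NN n ^ (k - 3) * TT (n / 2)) := by
    intro G hG
    rcases le_or_gt (1 / 27 * (NN n : ℝ) ^ k) (∏ j, (gammaT (G j) : ℝ)) with h1 | h1
    · obtain ⟨e, hS⟩ := hn1 n hna G hG h1
      exact UPF_core hADD hMXT hPAR hNUM hPRD n k G e ε θ hk he ht hc1 hc2 hn2 hS
    · have h2 : 27 * ∏ j, gammaT (G j) ≤ NN n ^ k := by
        have h3 : (27 : ℝ) * ∏ j, (gammaT (G j) : ℝ) ≤ (NN n : ℝ) ^ k := by linarith
        exact_mod_cast h3
      have h3 : NN n ^ k = NN n ^ (k - 3) * NN n ^ 3 := by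
        rw [← pow_add]
        congr 1
        omega
      rw [h3] at h2
      constructor
      · intro _
        refine h2.trans (Nat.mul_le_mul_left _ (Nat.pow_le_pow_left (by omega) 3))
      · intro hev
        obtain ⟨q, hq⟩ := hev
        have hq2 : n / 2 = q := by omega
        have hnN : NN n = 2 * q := by
          unfold NN
          omega
        rw [hq2]
        have hT := hNUM.2.1 q
        have h4 : NN n ^ 3 ≤ 27 * TT q := by
          rw [hnN]
          have h11 : (2 * q) ^ 3 + 24 * (q + 7) ≤ 8 * (q + 6) ^ 3 := by nlinarith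
          omega
        have h5 : 27 * ∏ j, gammaT (G j) ≤ 27 * (NN n ^ (k - 3) * TT q) := by
          calc 27 * ∏ j, gammaT (G j) ≤ NN n ^ (k - 3) * NN n ^ 3 := h2
            _ ≤ NN n ^ (k - 3) * (27 * TT q) := Nat.mul_le_mul_left _ h4
            _ = 27 * (NN n ^ (k - 3) * TT q) := by ring
        exact Nat.le_of_mul_le_mul_left h5 (by norm_num)
  have hE : Even n → P n k ≤ NN n ^ (k - 3) * TT (n / 2) := by
    intro hev
    exact P_le fun G hG => (hcore G hG).2 hev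
  refine ⟨?_, hE⟩
  rcases Nat.even_or_odd n with hev | hodd
  · have h1 := hE hev
    have h2 := hNUM.2.2.1 (n / 2)
    have h3 : NN n + 12 = 2 * (n / 2 + 6) := by
      unfold NN
      ring
    calc 27 * P n k ≤ 27 * (NN n ^ (k - 3) * TT (n / 2)) := Nat.mul_le_mul_left _ h1
      _ = NN n ^ (k - 3) * (27 * TT (n / 2)) := by ring
      _ ≤ NN n ^ (k - 3) * (8 * (n / 2 + 6) ^ 3) := Nat.mul_le_mul_left _ h2
      _ = NN n ^ (k - 3) * (NN n + 12) ^ 3 := by rw [h3]; ring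
  · rcases P_attained n k with h0 | ⟨G, hG, hP⟩
    · rw [h0]
      exact Nat.zero_le _
    · rw [hP]
      exact (hcore G hG).1 hodd

end Pool.Agent.Work.MP_1ce445_fx
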