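import Pool.Agent.Work.MP_1ce445_fx.InterfaceU

set_option autoImplicit false

namespace Pool.Agent.Work.MP_1ce445_fx

open Finset Pool.Agent.Work.MP_1ce445_co_56 Pool.Agent.Work.MP_1ce445_lin

/-- the error term is small -/
theorem UU1_RU {n k s : ℕ} (hn : 1 ≤ n) (hk : (k : ℝ) ≤ n / 1000) (hs : (s : ℝ) ≤ n / 1000) :
    RU n k s ≤ (450 + 3150 * (k : ℝ) ^ 2) / n + s / 100 := by
  have hn0 : (1 : ℝ) ≤ n := by exact_mod_cast hn
  have hnp : (0 : ℝ) < n := by linarith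
  have hk0 : (0 : ℝ) ≤ k := Nat.cast_nonneg k
  have hs0 : (0 : ℝ) ≤ s := Nat.cast_nonneg s
  have hss : (s : ℝ) ≤ (s : ℝ) ^ 2 := by
    rcases Nat.eq_zero_or_pos s with h | h
    · rw [h]; simp
    · have : (1 : ℝ) ≤ s := by exact_mod_cast h
      nlinarith
  have hks2 : (k : ℝ) * (s : ℝ) ^ 2 ≤ (n : ℝ) ^ 2 / 1000000 * s := by
    have h1 : (k : ℝ) * s ≤ (n / 1000) * (n / 1000) := mul_le_mul hk hs hs0 (by positivity)
    calc (k : ℝ) * (s : ℝ) ^ 2 = (k * s) * s := by ring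
      _ ≤ ((n / 1000) * (n / 1000)) * s := mul_le_mul_of_nonneg_right h1 hs0
      _ = _ := by ring
  have hs3 : (s : ℝ) ^ 3 ≤ (n : ℝ) ^ 2 / 1000000 * s := by
    have h1 : (s : ℝ) * s ≤ (n / 1000) * (n / 1000) := mul_le_mul hs hs hs0 (by positivity)
    calc (s : ℝ) ^ 3 = (s * s) * s := by ring
      _ ≤ ((n / 1000) * (n / 1000)) * s := mul_le_mul_of_nonneg_right h1 hs0
      _ = _ := by ring
  have hks : (k : ℝ) * s ≤ (k : ℝ) * (s : ℝ) ^ 2 := mul_le_mul_of_nonneg_left hss hk0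
  have hmain : ((k : ℝ) + s) * (k + (s : ℝ) ^ 2) ≤ (k : ℝ) ^ 2 + 3 * ((n : ℝ) ^ 2 / 1000000 * s) := by
    have : ((k : ℝ) + s) * (k + (s : ℝ) ^ 2) = (k : ℝ) ^ 2 + k * (s : ℝ) ^ 2 + k * s + (s : ℝ) ^ 3 := by
      ring
    rw [this]
    linarith
  have h1 : 2700 * ((k : ℝ) + s) * (k + (s : ℝ) ^ 2) / (n : ℝ) ^ 2 ≤
      2700 * (k : ℝ) ^ 2 / n + s / 100 := by
    have e1 : 2700 * ((k : ℝ) + s) * (k + (s : ℝ) ^ 2) / (n : ℝ) ^ 2 ≤
        2700 * ((k : ℝ) ^ 2 + 3 * ((n : ℝ) ^ 2 / 1000000 * s)) / (n : ℝ) ^ 2 := by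
      apply div_le_div_of_nonneg_right _ (by positivity)
      have := mul_le_mul_of_nonneg_left hmain (by norm_num : (0 : ℝ) ≤ 2700)
      linarith
    have e2 : 2700 * ((k : ℝ) ^ 2 + 3 * ((n : ℝ) ^ 2 / 1000000 * s)) / (n : ℝ) ^ 2 =
        2700 * (k : ℝ) ^ 2 / (n : ℝ) ^ 2 + 81 / 10000 * s := by
      field_simp
      ring
    have e3 : 2700 * (k : ℝ) ^ 2 / (n : ℝ) ^ 2 ≤ 2700 * (k : ℝ) ^ 2 / n := by
      apply div_le_div_of_nonneg_left (by positivity) hnp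
      nlinarith
    linarith
  have h2 : (450 + 3150 * (k : ℝ) ^ 2) / n =
      (450 + 450 * (k : ℝ) ^ 2) / n + 2700 * (k : ℝ) ^ 2 / n := by
    rw [← add_div]
    congr 1
    ring
  unfold RU
  rw [h2]
  linarith

theorem UU1_exp {n k : ℕ} (hn : 12 ≤ n) (hk3 : 3 ≤ k) (hk : (k : ℝ) ≤ n / 1000) :
    ((n : ℝ) + 12) * Real.exp ((450 + 3150 * (k : ℝ) ^ 2) / n / n) ≤
      n + 12 + 14400 * (k : ℝ) ^ 2 / n := by
  have hn0 : (12 : ℝ) ≤ n := by exact_mod_cast hn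
  have hnp : (0 : ℝ) < n := by linarith
  have hk0 : (3 : ℝ) ≤ k := by exact_mod_cast hk3
  have hk2 : (1 : ℝ) ≤ (k : ℝ) ^ 2 := by nlinarith
  have hkn : (k : ℝ) ^ 2 ≤ (n : ℝ) ^ 2 / 1000000 := by
    calc (k : ℝ) ^ 2 ≤ ((n : ℝ) / 1000) ^ 2 := pow_le_pow_left₀ (by linarith) hk 2
      _ = _ := by ring
  set x : ℝ := (450 + 3150 * (k : ℝ) ^ 2) / n / n with hx
  have hx0 : 0 ≤ x := by positivity
  have hxk : x * n ≤ 3600 * (k : ℝ) ^ 2 / n := by
    rw [hx, div_mul_cancel₀ _ hnp.ne']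
    apply div_le_div_of_nonneg_right _ hnp.le
    linarith
  have hx1 : x ≤ 1 := by
    rw [hx, div_div, div_le_one (by positivity)]
    nlinarith
  have hexp : Real.exp x ≤ 1 + 2 * x := by
    have h := Real.abs_exp_sub_one_sub_id_le (x := x) (by rw [abs_of_nonneg hx0]; exact hx1)
    have h2 := (abs_le.1 h).2
    nlinarith
  calc ((n : ℝ) + 12) * Real.exp x ≤ ((n : ℝ) + 12) * (1 + 2 * x) :=
        mul_le_mul_of_nonneg_left hexp (by positivity)
    _ = n + 12 + 2 * (x * n) + 24 * x := by ring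
    _ ≤ n + 12 + 4 * (x * n) := by nlinarith
    _ ≤ n + 12 + 4 * (3600 * (k : ℝ) ^ 2 / n) := by linarith
    _ = _ := by ring

/-- UU1. -/
theorem stmt_UU1 (hSTU : Stmt_STU) (hADU : Stmt_ADU) (hPRD : Stmt_PRD) : Stmt_UU1 := by
  obtain ⟨δ, hδ, n0, hS⟩ := hSTU (1 / 1000) (by norm_num) le_rfl
  refine ⟨14400, min δ (1 / 1000), max n0 12, lt_min hδ (by norm_num), ?_⟩
  intro n k hn hk3 hkδ
  have hn0 : n0 ≤ n := le_trans (le_max_left _ _) hn
  have hn12 : 12 ≤ n := le_trans (le_max_right _ _) hn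
  have hnr : (12 : ℝ) ≤ n := by exact_mod_cast hn12
  have hnp : (0 : ℝ) < n := by linarith
  have hk1 : (k : ℝ) ≤ δ * n :=
    hkδ.trans (mul_le_mul_of_nonneg_right (min_le_left _ _) hnp.le)
  have hk2 : (k : ℝ) ≤ n / 1000 := by
    have := hkδ.trans (mul_le_mul_of_nonneg_right (min_le_right δ (1 / 1000)) hnp.le)
    linarith
  have hNpos : 0 < NN n := by unfold NN; omega
  have hNn : NN n ≤ n := by unfold NN; omega
  have hNr : (0 : ℝ) < NN n := by exact_mod_cast hNpos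
  have hNnr : (NN n : ℝ) ≤ n := by exact_mod_cast hNn
  have hR0 : 0 ≤ (14400 : ℝ) * (k : ℝ) ^ 2 / n := by positivity
  rcases P_attained n k with h0 | ⟨G, hG, hP⟩
  · rw [h0]
    simp only [Nat.cast_zero, mul_zero]
    positivity
  rw [hP, Nat.cast_prod]
  by_cases hcase : 1 / 27 * (NN n : ℝ) ^ k ≤ ∏ j, (gammaT (G j) : ℝ)
  · obtain ⟨e, hU⟩ := hS n k hn0 hk3 hk1 G hG hcase
    obtain ⟨hsg, -⟩ := hADU n k G e (1 / 1000) hU
    have hs : (sn G e : ℝ) ≤ n / 1000 := by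
      have := hU.def'
      linarith
    have hRU0 : 0 ≤ RU n k (sn G e) := by unfold RU; positivity
    have hp := hPRD k n (NN n) (fun l => gammaT (G l)) e (RU n k (sn G e)) hNpos hNn hU.sit.inj hRU0
      hU.leN (by unfold sg at hsg; exact hsg)
    have hsum : ∑ l ∈ oth e, ((NN n : ℝ) - (gammaT (G l) : ℝ)) = (sn G e : ℝ) := by
      unfold sn
      rw [Nat.cast_sum]
      apply Finset.sum_congr rfl
      intro l _
      rw [Nat.cast_sub (hU.leN l)]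
    rw [hsum] at hp
    have hRU := UU1_RU (by omega) hk2 hs
    have hs0 : (0 : ℝ) ≤ (sn G e : ℝ) := Nat.cast_nonneg _
    have hexpo : 3 * RU n k (sn G e) / n - (sn G e : ℝ) / (NN n : ℝ) ≤
        3 * ((450 + 3150 * (k : ℝ) ^ 2) / n / n) := by
      have e1 : 3 * RU n k (sn G e) / n ≤
          3 * ((450 + 3150 * (k : ℝ) ^ 2) / n + (sn G e : ℝ) / 100) / n := by
        apply div_le_div_of_nonneg_right _ hnp.le
        linarith
      have e2 : 3 * ((450 + 3150 * (k : ℝ) ^ 2) / n + (sn G e : ℝ) / 100) / n =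
          3 * ((450 + 3150 * (k : ℝ) ^ 2) / n / n) + 3 / 100 * ((sn G e : ℝ) / n) := by
        ring
      have e3 : (sn G e : ℝ) / n ≤ (sn G e : ℝ) / (NN n : ℝ) :=
        div_le_div_of_nonneg_left hs0 hNr hNnr
      have e4 : 0 ≤ (sn G e : ℝ) / n := by positivity
      linarith
    have hfin := UU1_exp hn12 hk3 hk2
    calc 27 * ∏ j, (gammaT (G j) : ℝ)
        ≤ 27 * ((NN n : ℝ) ^ (k - 3) * (((n : ℝ) + 12) / 3) ^ 3 *
          Real.exp (3 * RU n k (sn G e) / n - (sn G e : ℝ) / (NN n : ℝ))) :=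
          mul_le_mul_of_nonneg_left hp (by norm_num)
      _ ≤ 27 * ((NN n : ℝ) ^ (k - 3) * (((n : ℝ) + 12) / 3) ^ 3 *
          Real.exp (3 * ((450 + 3150 * (k : ℝ) ^ 2) / n / n))) := by
          apply mul_le_mul_of_nonneg_left _ (by norm_num)
          apply mul_le_mul_of_nonneg_left _ (by positivity)
          exact Real.exp_le_exp.2 hexpo
      _ = (NN n : ℝ) ^ (k - 3) *
          (((n : ℝ) + 12) * Real.exp ((450 + 3150 * (k : ℝ) ^ 2) / n / n)) ^ 3 := by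
          rw [mul_pow, ← Real.exp_nat_mul]
          push_cast
          ring
      _ ≤ _ := by
          apply mul_le_mul_of_nonneg_left _ (by positivity)
          exact pow_le_pow_left₀ (by positivity) hfin 3
  · rw [not_le] at hcase
    have hkk : (NN n : ℝ) ^ k = (NN n : ℝ) ^ (k - 3) * (NN n : ℝ) ^ 3 := by
      rw [← pow_add]
      congr 1
      omega
    calc 27 * ∏ j, (gammaT (G j) : ℝ) ≤ 27 * (1 / 27 * (NN n : ℝ) ^ k) :=
          mul_le_mul_of_nonneg_left hcase.le (by norm_num)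
      _ = (NN n : ℝ) ^ (k - 3) * (NN n : ℝ) ^ 3 := by rw [hkk]; ring
      _ ≤ _ := by
          apply mul_le_mul_of_nonneg_left _ (by positivity)
          apply pow_le_pow_left₀ hNr.le
          linarith

end Pool.Agent.Work.MP_1ce445_fx
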