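import Pool.Agent.Work.MP_1ce445_fx.InterfaceU

/-! # Block UU2: growing `k`, the bound with `(n + 12)^3` for `k² ≤ δ n` -/

namespace Pool.Agent.Work.MP_1ce445_fx

open Finset Pool.Agent.Work.MP_1ce445_co_56 Pool.Agent.Work.MP_1ce445_lin

lemma UU2_NN (n : ℕ) : NN n ≤ n ∧ n ≤ NN n + 1 := by
  unfold NN
  omega

lemma UU2_img {k : ℕ} (e : Fin 3 → Fin k) :
    univ.filter (fun l => ¬ ∀ i, l ≠ e i) = univ.image e := by
  ext l
  simp only [mem_filter, mem_univ, true_and, mem_image]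
  push Not
  exact ⟨fun ⟨i, hi⟩ => ⟨i, hi.symm⟩, fun ⟨i, hi⟩ => ⟨i, hi.symm⟩⟩

lemma UU2_card {k : ℕ} (e : Fin 3 → Fin k) (he : Function.Injective e) :
    (oth e).card = k - 3 := by
  have h1 := Finset.card_filter_add_card_filter_not (s := (univ : Finset (Fin k)))
    (fun l => ∀ i, l ≠ e i)
  rw [UU2_img e, card_image_of_injective _ he, card_univ, card_univ, Fintype.card_fin,
    Fintype.card_fin] at h1
  unfold oth
  omega

lemma UU2_split {k : ℕ} (e : Fin 3 → Fin k) (he : Function.Injective e) (f : Fin k → ℕ) :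
    ∏ l, f l = (∏ l ∈ oth e, f l) * (f (e 0) * f (e 1) * f (e 2)) := by
  have h1 := Finset.prod_filter_mul_prod_filter_not (univ : Finset (Fin k))
    (fun l => ∀ i, l ≠ e i) f
  rw [UU2_img e, prod_image (fun a _ b _ h => he h), Fin.prod_univ_three] at h1
  exact h1.symm

lemma UU2_prod {n k : ℕ} {G : Fin k → SimpleGraph (Fin n)} (hG : ∀ l, gammaT (G l) ≤ NN n)
    (e : Fin 3 → Fin k) (he : Function.Injective e) {B : ℕ}
    (hB : gammaT (G (e 0)) * gammaT (G (e 1)) * gammaT (G (e 2)) ≤ B) :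
    ∏ l, gammaT (G l) ≤ NN n ^ (k - 3) * B := by
  rw [UU2_split e he]
  apply Nat.mul_le_mul _ hB
  calc ∏ l ∈ oth e, gammaT (G l) ≤ ∏ _l ∈ oth e, NN n :=
        Finset.prod_le_prod' fun l _ => hG l
    _ = NN n ^ (k - 3) := by rw [prod_const, UU2_card e he]

lemma UU2_amgm (a b c : ℕ) : 27 * (a * b * c) ≤ (a + b + c) ^ 3 := by
  have h : (27 : ℝ) * (a * b * c) ≤ (a + b + c) ^ 3 := by
    have ha : (0 : ℝ) ≤ a := Nat.cast_nonneg a
    have hb : (0 : ℝ) ≤ b := Nat.cast_nonneg b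
    have hc : (0 : ℝ) ≤ c := Nat.cast_nonneg c
    nlinarith [mul_nonneg ha (sq_nonneg ((b : ℝ) - c)), mul_nonneg hb (sq_nonneg ((a : ℝ) - c)),
      mul_nonneg hc (sq_nonneg ((b : ℝ) - a)), mul_nonneg ha (sq_nonneg ((a : ℝ) - c)),
      mul_nonneg ha (sq_nonneg ((a : ℝ) - b)), mul_nonneg hb (sq_nonneg ((b : ℝ) - c)),
      mul_nonneg hb (sq_nonneg ((b : ℝ) - a)), mul_nonneg hc (sq_nonneg ((c : ℝ) - a)),
      mul_nonneg hc (sq_nonneg ((c : ℝ) - b))]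
  exact_mod_cast h

/-- the error term -/
lemma UU2_RU (n k s : ℕ) (hn : 0 < n) (hk : (k : ℝ) ≤ 1 / 1000 * n)
    (hs : (s : ℝ) ≤ 1 / 1000 * n) :
    RU n k s ≤ (450 + 3150 * (k : ℝ) ^ 2) / n + s / 100 := by
  have hN : (1 : ℝ) ≤ n := by exact_mod_cast hn
  have hN0 : (0 : ℝ) < n := by linarith
  have hK : (0 : ℝ) ≤ k := Nat.cast_nonneg k
  have hS : (0 : ℝ) ≤ s := Nat.cast_nonneg s
  have hS2 : (s : ℝ) ≤ (s : ℝ) ^ 2 := by
    rcases Nat.eq_zero_or_pos s with h | h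
    · rw [h]; norm_num
    · have h1 : (1 : ℝ) ≤ s := by exact_mod_cast h
      nlinarith
  have a0 : (k : ℝ) ^ 2 ≤ (k : ℝ) ^ 2 * n := by nlinarith [sq_nonneg (k : ℝ)]
  have h0 : (s : ℝ) * s ≤ s * (1 / 1000 * n) := mul_le_mul_of_nonneg_left hs hS
  have a1 : (k : ℝ) * s ^ 2 ≤ 1 / 1000000 * n ^ 2 * s := by
    have h1 : (k : ℝ) * (s * s) ≤ (1 / 1000 * n) * (s * (1 / 1000 * n)) :=
      mul_le_mul hk h0 (by positivity) (by positivity)
    nlinarith
  have a2 : (k : ℝ) * s ≤ 1 / 1000000 * n ^ 2 * s := by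
    have h1 : (k : ℝ) * s ≤ k * s ^ 2 := mul_le_mul_of_nonneg_left hS2 hK
    linarith
  have a3 : (s : ℝ) ^ 3 ≤ 1 / 1000000 * n ^ 2 * s := by
    have h1 : (s : ℝ) * (s * s) ≤ (1 / 1000 * n) * (s * (1 / 1000 * n)) :=
      mul_le_mul hs h0 (by positivity) (by positivity)
    nlinarith
  have a4 : (0 : ℝ) ≤ n ^ 2 * s := by positivity
  have key : 2700 * ((k : ℝ) + s) * (k + s ^ 2) / n ^ 2 ≤ 2700 * (k : ℝ) ^ 2 / n + s / 100 := by
    rw [div_le_iff₀ (by positivity)]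
    have h1 : (2700 * (k : ℝ) ^ 2 / n + s / 100) * n ^ 2 =
        2700 * ((k : ℝ) ^ 2 * n) + n ^ 2 * s / 100 := by
      field_simp
    have h2 : 2700 * ((k : ℝ) + s) * (k + s ^ 2) =
        2700 * ((k : ℝ) ^ 2 + k * s ^ 2 + k * s + s ^ 3) := by ring
    rw [h1, h2]
    linarith
  unfold RU
  have h3 : (450 + 3150 * (k : ℝ) ^ 2) / n = (450 + 450 * (k : ℝ) ^ 2) / n +
      2700 * (k : ℝ) ^ 2 / n := by ring
  rw [h3]
  linarith

/-- the bound for one factorization -/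
lemma UU2_core (hADU : Stmt_ADU) (hPRD : Stmt_PRD) (n k : ℕ) (G : Fin k → SimpleGraph (Fin n))
    (e : Fin 3 → Fin k) (hn2 : 2 ≤ n) (hr : (450 + 3150 * (k : ℝ) ^ 2) / n ≤ 1 / 10)
    (hS : SitU G e (1 / 1000)) :
    27 * ∏ l, gammaT (G l) ≤ NN n ^ (k - 3) * (n + 12) ^ 3 := by
  have hinj := hS.sit.inj
  have hNN := UU2_NN n
  have hgam := hS.leN
  have hN0 : 0 < NN n := by omega
  have hN0' : (0 : ℝ) < NN n := by exact_mod_cast hN0
  have hn0 : (0 : ℝ) < n := by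
    have : 0 < n := by omega
    exact_mod_cast this
  have hNn : (NN n : ℝ) ≤ n := by exact_mod_cast hNN.1
  have hA := (hADU n k G e (1 / 1000) hS).1
  have hRU := UU2_RU n k (sn G e) (by omega) hS.kn hS.def'
  have hr0 : (0 : ℝ) ≤ (450 + 3150 * (k : ℝ) ^ 2) / n := by positivity
  have hσR : (sn G e : ℝ) = ∑ l ∈ oth e, ((NN n : ℝ) - gammaT (G l)) := by
    unfold sn
    rw [Nat.cast_sum]
    exact sum_congr rfl fun l _ => Nat.cast_sub (hgam l)
  have hsg : sg G e = ((gammaT (G (e 0)) + gammaT (G (e 1)) + gammaT (G (e 2)) : ℕ) : ℝ) := by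
    unfold sg
    rw [Fin.sum_univ_three]
    push_cast
    rfl
  rcases Nat.eq_zero_or_pos (sn G e) with h4 | h4
  · have h5 : sg G e < n + 13 := by
      rw [h4] at hA hRU
      rw [Nat.cast_zero] at hRU
      linarith
    rw [hsg] at h5
    have h6 : gammaT (G (e 0)) + gammaT (G (e 1)) + gammaT (G (e 2)) < n + 13 := by
      exact_mod_cast h5
    have h7 : gammaT (G (e 0)) + gammaT (G (e 1)) + gammaT (G (e 2)) ≤ n + 12 := by omega
    have h8 := UU2_prod hgam e hinj (B := gammaT (G (e 0)) * gammaT (G (e 1)) * gammaT (G (e 2)))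
      le_rfl
    have h9 := UU2_amgm (gammaT (G (e 0))) (gammaT (G (e 1))) (gammaT (G (e 2)))
    have h10 := Nat.pow_le_pow_left h7 3
    calc 27 * ∏ l, gammaT (G l) ≤ 27 * (NN n ^ (k - 3) *
          (gammaT (G (e 0)) * gammaT (G (e 1)) * gammaT (G (e 2)))) :=
          Nat.mul_le_mul_left 27 h8
      _ = NN n ^ (k - 3) * (27 * (gammaT (G (e 0)) * gammaT (G (e 1)) * gammaT (G (e 2)))) := by
          ring
      _ ≤ NN n ^ (k - 3) * (n + 12) ^ 3 := Nat.mul_le_mul_left _ (h9.trans h10)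
  · have h4' : (1 : ℝ) ≤ sn G e := by exact_mod_cast h4
    obtain ⟨r, hrd⟩ : ∃ r : ℝ, r = (450 + 3150 * (k : ℝ) ^ 2) / n + (sn G e : ℝ) / 100 :=
      ⟨_, rfl⟩
    have hr1 : 0 ≤ r := by rw [hrd]; positivity
    have h1 := hPRD k n (NN n) (fun l => gammaT (G l)) e r hN0 hNN.1 hinj hr1 hgam (by
      have h2 : (∑ i, (gammaT (G (e i)) : ℝ)) = sg G e := rfl
      rw [h2]
      linarith)
    rw [← hσR] at h1
    have h2 : 3 * r / n - (sn G e : ℝ) / NN n ≤ 0 := by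
      have h5 : (sn G e : ℝ) / n ≤ (sn G e : ℝ) / NN n :=
        div_le_div_of_nonneg_left (by linarith) hN0' hNn
      have h6 : 3 * r / n - (sn G e : ℝ) / n ≤ 0 := by
        have h7 : 3 * r / n - (sn G e : ℝ) / n = (3 * r - sn G e) / n := by ring
        rw [h7]
        apply div_nonpos_of_nonpos_of_nonneg _ hn0.le
        rw [hrd]
        linarith
      linarith
    have h3 : (∏ l, (gammaT (G l) : ℝ)) ≤ (NN n : ℝ) ^ (k - 3) * (((n : ℝ) + 12) / 3) ^ 3 := by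
      refine h1.trans ?_
      have h5 : Real.exp (3 * r / n - (sn G e : ℝ) / NN n) ≤ 1 := Real.exp_le_one_iff.2 h2
      have h6 : (0 : ℝ) ≤ (NN n : ℝ) ^ (k - 3) * (((n : ℝ) + 12) / 3) ^ 3 := by positivity
      calc _ ≤ (NN n : ℝ) ^ (k - 3) * (((n : ℝ) + 12) / 3) ^ 3 * 1 :=
            mul_le_mul_of_nonneg_left h5 h6
        _ = _ := by ring
    have h7 : (27 : ℝ) * ∏ l, (gammaT (G l) : ℝ) ≤
        (NN n : ℝ) ^ (k - 3) * ((n : ℝ) + 12) ^ 3 := by
      have h8 : (NN n : ℝ) ^ (k - 3) * (((n : ℝ) + 12) / 3) ^ 3 =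
        (NN n : ℝ) ^ (k - 3) * ((n : ℝ) + 12) ^ 3 / 27 := by ring
      rw [h8] at h3
      linarith
    exact_mod_cast h7

theorem stmt_UU2 : Stmt_STU → Stmt_ADU → Stmt_PRD → Stmt_UU2 := by
  intro hSTU hADU hPRD
  obtain ⟨δ1, hδ1, n1, hn1⟩ := hSTU (1 / 1000) (by norm_num) le_rfl
  refine ⟨min δ1 (1 / 63000), max (max n1 2) 9000, lt_min hδ1 (by norm_num), ?_⟩
  intro n k hn hk hkn
  have hna : n1 ≤ n := (le_max_left _ _).trans ((le_max_left _ _).trans hn)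
  have hn2 : 2 ≤ n := (le_max_right _ _).trans ((le_max_left _ _).trans hn)
  have hnb : 9000 ≤ n := (le_max_right _ _).trans hn
  have hnb' : (9000 : ℝ) ≤ n := by exact_mod_cast hnb
  have hn0 : (0 : ℝ) < n := by linarith
  have hk' : (3 : ℝ) ≤ k := by exact_mod_cast hk
  have hk1 : (k : ℝ) ^ 2 ≤ δ1 * n :=
    hkn.trans (mul_le_mul_of_nonneg_right (min_le_left _ _) hn0.le)
  have hk2 : (k : ℝ) ^ 2 ≤ 1 / 63000 * n :=
    hkn.trans (mul_le_mul_of_nonneg_right (min_le_right _ _) hn0.le)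
  have hk3 : (k : ℝ) ≤ δ1 * n := by nlinarith
  have hr : (450 + 3150 * (k : ℝ) ^ 2) / n ≤ 1 / 10 := by
    rw [div_le_iff₀ hn0]
    linarith
  have hcore : ∀ G : Fin k → SimpleGraph (Fin n), IsFactorization G →
      27 * ∏ l, gammaT (G l) ≤ NN n ^ (k - 3) * (n + 12) ^ 3 := by
    intro G hG
    rcases le_or_gt (1 / 27 * (NN n : ℝ) ^ k) (∏ j, (gammaT (G j) : ℝ)) with h1 | h1
    · obtain ⟨e, hS⟩ := hn1 n k hna hk hk3 G hG h1
      exact UU2_core hADU hPRD n k G e hn2 hr hS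
    · have h2 : 27 * ∏ j, gammaT (G j) ≤ NN n ^ k := by
        have h3 : (27 : ℝ) * ∏ j, (gammaT (G j) : ℝ) ≤ (NN n : ℝ) ^ k := by linarith
        exact_mod_cast h3
      have h3 : NN n ^ k = NN n ^ (k - 3) * NN n ^ 3 := by
        rw [← pow_add]
        congr 1
        omega
      rw [h3] at h2
      have h4 := (UU2_NN n).1
      exact h2.trans (Nat.mul_le_mul_left _ (Nat.pow_le_pow_left (by omega) 3))
  rcases P_attained n k with h0 | ⟨G, hG, hP⟩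
  · rw [h0]
    exact Nat.zero_le _
  · rw [hP]
    exact hcore G hG

end Pool.Agent.Work.MP_1ce445_fx
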