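import Pool.Agent.Work.MP_1ce445_fx.InterfaceU
import Pool.Agent.Work.MP_1ce445_fx.UPF

/-! # Block UU3: the exact upper bound for growing `k` -/

namespace Pool.Agent.Work.MP_1ce445_fx

open Finset Pool.Agent.Work.MP_1ce445_co_56 Pool.Agent.Work.MP_1ce445_lin

/-- the odd case with a large deficit -/
lemma UU3_odd (n N σ r : ℝ) (hN : 0 < N) (hn : n = N + 1) (hσ : 4 ≤ σ)
    (hr : r ≤ (1 + σ) / 100) :
    ((n + 12) / 3) ^ 3 * Real.exp (3 * r / n - σ / N) ≤ (N + 12) ^ 3 / 27 := by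
  have hn0 : 0 < n := by linarith
  have h1 : (n + 12) ≤ (N + 12) * Real.exp (1 / (N + 12)) := by
    have h2 := Real.add_one_le_exp (1 / (N + 12))
    have h3 : (N + 12) * (1 / (N + 12) + 1) ≤ (N + 12) * Real.exp (1 / (N + 12)) :=
      mul_le_mul_of_nonneg_left h2 (by linarith)
    have h4 : (N + 12) * (1 / (N + 12) + 1) = n + 12 := by
      have : N + 12 ≠ 0 := by linarith
      field_simp
      rw [hn]; ring
    linarith
  have h2 : (n + 12) ^ 3 ≤ (N + 12) ^ 3 * Real.exp (3 / (N + 12)) := by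
    calc (n + 12) ^ 3 ≤ ((N + 12) * Real.exp (1 / (N + 12))) ^ 3 :=
          pow_le_pow_left₀ (by linarith) h1 3
      _ = (N + 12) ^ 3 * Real.exp (3 / (N + 12)) := by
          rw [mul_pow, ← Real.exp_nat_mul]
          congr 2
          push_cast
          ring
  have h3 : 3 / (N + 12) + (3 * r / n - σ / N) ≤ 0 := by
    have h4 : 3 / (N + 12) ≤ 3 / n := by
      apply div_le_div_of_nonneg_left (by norm_num) hn0
      linarith
    have h5 : σ / n ≤ σ / N := by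
      apply div_le_div_of_nonneg_left (by linarith) hN
      linarith
    have h6 : 3 / n + 3 * r / n - σ / n ≤ 0 := by
      have h7 : 3 / n + 3 * r / n - σ / n = (3 + 3 * r - σ) / n := by
        ring
      rw [h7]
      apply div_nonpos_of_nonpos_of_nonneg _ hn0.le
      linarith
    linarith
  calc ((n + 12) / 3) ^ 3 * Real.exp (3 * r / n - σ / N)
      = (n + 12) ^ 3 * Real.exp (3 * r / n - σ / N) / 27 := by ring
    _ ≤ ((N + 12) ^ 3 * Real.exp (3 / (N + 12))) *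
        Real.exp (3 * r / n - σ / N) / 27 := by
        apply div_le_div_of_nonneg_right _ (by norm_num)
        exact mul_le_mul_of_nonneg_right h2 (Real.exp_pos _).le
    _ = (N + 12) ^ 3 * Real.exp (3 / (N + 12) + (3 * r / n - σ / N)) / 27 := by
        rw [Real.exp_add]; ring
    _ ≤ (N + 12) ^ 3 * 1 / 27 := by
        apply div_le_div_of_nonneg_right _ (by norm_num)
        apply mul_le_mul_of_nonneg_left _ (by positivity)
        exact Real.exp_le_one_iff.2 h3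
    _ = (N + 12) ^ 3 / 27 := by ring

/-- the even case with a large deficit -/
lemma UU3_even (n T σ r : ℝ) (hn : 0 < n) (hσ : 1 ≤ σ)
    (hr : r ≤ (1 + σ) / 100) (hT : (n + 12) ^ 3 ≤ 27 * T + 12 * (n + 14)) :
    ((n + 12) / 3) ^ 3 * Real.exp (3 * r / n - σ / n) ≤ T := by
  have h1 : 3 * r / n - σ / n ≤ - (1 / (2 * n)) := by
    have h2 : 3 * r / n - σ / n + 1 / (2 * n) = (3 * r - σ + 1 / 2) / n := by
      field_simp
    have h3 : (3 * r - σ + 1 / 2) / n ≤ 0 := by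
      apply div_nonpos_of_nonpos_of_nonneg _ hn.le
      linarith
    linarith
  have h2 : Real.exp (3 * r / n - σ / n) ≤ 2 * n / (2 * n + 1) := by
    have h3 := Real.exp_le_exp.2 h1
    have h4 := Real.add_one_le_exp (1 / (2 * n))
    have h5 : Real.exp (-(1 / (2 * n))) = (Real.exp (1 / (2 * n)))⁻¹ := Real.exp_neg _
    have h6 : (Real.exp (1 / (2 * n)))⁻¹ ≤ (1 / (2 * n) + 1)⁻¹ := by
      apply inv_anti₀ (by positivity) h4
    have h7 : (1 / (2 * n) + 1)⁻¹ = 2 * n / (2 * n + 1) := by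
      field_simp
      ring
    rw [h5] at h3
    linarith
  have h3 : ((n + 12) / 3) ^ 3 * Real.exp (3 * r / n - σ / n) ≤
      ((n + 12) / 3) ^ 3 * (2 * n / (2 * n + 1)) :=
    mul_le_mul_of_nonneg_left h2 (by positivity)
  refine h3.trans ?_
  rw [mul_div_assoc', div_le_iff₀ (by linarith)]
  have h4 : ((n + 12) / 3) ^ 3 = (n + 12) ^ 3 / 27 := by ring
  rw [h4]
  nlinarith [mul_le_mul_of_nonneg_right hT (by linarith : (0 : ℝ) ≤ 2 * n + 1), pow_pos hn 3,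
    pow_pos hn 2]

/-- numbers: consequences of `k³ ≤ 10^(-8) n` -/
lemma UU3_num (n k : ℕ) (hk : 3 ≤ k) (hn : (k : ℝ) ^ 3 ≤ 1 / 10 ^ 8 * n) (hn0 : (0 : ℝ) < n) :
    (k : ℝ) ^ 2 / n ≤ 1 / (3 * 10 ^ 8) ∧ (k : ℝ) ^ 3 / n ≤ 1 / 10 ^ 8 ∧ (k : ℝ) / n ≤ 1 / 10 ^ 8 ∧
    (2700000000 : ℝ) ≤ n := by
  have hk' : (3 : ℝ) ≤ k := by exact_mod_cast hk
  have h2 : (9 : ℝ) ≤ (k : ℝ) ^ 2 := by nlinarith
  have h3 : 3 * (k : ℝ) ^ 2 ≤ (k : ℝ) ^ 3 := by nlinarith
  have h4 : (k : ℝ) ≤ (k : ℝ) ^ 3 := by nlinarith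
  refine ⟨?_, ?_, ?_, ?_⟩
  · rw [div_le_iff₀ hn0]
    linarith
  · rw [div_le_iff₀ hn0]
    linarith
  · rw [div_le_iff₀ hn0]
    linarith
  · nlinarith

/-- the bound for the error term -/
lemma UU3_RU (n k s : ℕ) (hk : 3 ≤ k) (hn : (k : ℝ) ^ 3 ≤ 1 / 10 ^ 8 * n) (hn0 : (0 : ℝ) < n)
    (hs : (s : ℝ) ≤ 1 / 1000 * n) : RU n k s ≤ (1 + s) / 100 := by
  obtain ⟨h1, h2, h3, h4⟩ := UU3_num n k hk hn hn0
  have hk' : (3 : ℝ) ≤ k := by exact_mod_cast hk
  have hs0 : (0 : ℝ) ≤ s := Nat.cast_nonneg s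
  have hk2 : (9 : ℝ) ≤ (k : ℝ) ^ 2 := by nlinarith
  -- first term
  have ha : (450 + 450 * (k : ℝ) ^ 2) / n ≤ 500 * ((k : ℝ) ^ 2 / n) := by
    rw [mul_div_assoc', div_le_div_iff_of_pos_right hn0]
    linarith
  -- second term
  have hkn : (k : ℝ) ≤ 1 / 1000 * n := by
    rw [div_le_iff₀ hn0] at h3
    linarith
  have hss : (s : ℝ) ≤ s ^ 2 := by
    rcases Nat.eq_zero_or_pos s with h0 | h0
    · rw [h0]; norm_num
    · have : (1 : ℝ) ≤ s := by exact_mod_cast h0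
      nlinarith
  have hb1 : (k : ℝ) * s ^ 2 ≤ 1 / 10 ^ 6 * (n : ℝ) ^ 2 * s := by
    have e1 : (k : ℝ) * s ≤ (1 / 1000 * n) * (1 / 1000 * n) :=
      mul_le_mul hkn hs hs0 (by positivity)
    nlinarith [mul_le_mul_of_nonneg_right e1 hs0]
  have hb2 : (s : ℝ) ^ 3 ≤ 1 / 10 ^ 6 * (n : ℝ) ^ 2 * s := by
    have e1 : (s : ℝ) * s ≤ (1 / 1000 * n) * (1 / 1000 * n) :=
      mul_le_mul hs hs hs0 (by positivity)
    nlinarith [mul_le_mul_of_nonneg_right e1 hs0]
  have hb3 : (k : ℝ) * s ≤ k * s ^ 2 := mul_le_mul_of_nonneg_left hss (by linarith)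
  have hb : 2700 * ((k : ℝ) + s) * (k + s ^ 2) / n ^ 2 ≤
      2700 * ((k : ℝ) ^ 2 / n) + 81 / 10000 * s := by
    have e0 : (1 : ℝ) ≤ n := by linarith
    have e1 : ((k : ℝ) ^ 2 / n) * n ^ 2 = (k : ℝ) ^ 2 * n := by
      field_simp
    rw [div_le_iff₀ (by positivity)]
    have e2 : (2700 * ((k : ℝ) ^ 2 / n) + 81 / 10000 * s) * n ^ 2 =
        2700 * ((k : ℝ) ^ 2 * n) + 81 / 10000 * s * n ^ 2 := by
      rw [add_mul, mul_assoc, e1]
    rw [e2]
    have e3 : (k : ℝ) ^ 2 ≤ (k : ℝ) ^ 2 * n := by nlinarith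
    nlinarith
  unfold RU
  linarith

/-- the error term for `s = 3` -/
lemma UU3_three (n k : ℕ) (hk : 3 ≤ k) (hn : (k : ℝ) ^ 3 ≤ 1 / 10 ^ 8 * n) (hn0 : (0 : ℝ) < n) :
    RU n k 3 ≤ 600 * ((k : ℝ) ^ 2 / n) := by
  obtain ⟨h1, h2, h3, h4⟩ := UU3_num n k hk hn hn0
  have hk' : (3 : ℝ) ≤ k := by exact_mod_cast hk
  have hk2 : (9 : ℝ) ≤ (k : ℝ) ^ 2 := by nlinarith
  have ha : (450 + 450 * (k : ℝ) ^ 2) / n ≤ 500 * ((k : ℝ) ^ 2 / n) := by
    rw [mul_div_assoc', div_le_div_iff_of_pos_right hn0]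
    linarith
  have hb : 2700 * ((k : ℝ) + (3 : ℕ)) * (k + ((3 : ℕ) : ℝ) ^ 2) / n ^ 2 ≤
      100 * ((k : ℝ) ^ 2 / n) := by
    have e1 : ((k : ℝ) ^ 2 / n) * n ^ 2 = (k : ℝ) ^ 2 * n := by
      field_simp
    have e3 : 2700000000 * (k : ℝ) ^ 2 ≤ (k : ℝ) ^ 2 * n := by nlinarith
    rw [div_le_iff₀ (by positivity), mul_assoc (100 : ℝ), e1]
    push_cast
    nlinarith
  unfold RU
  linarith

/-- the bound for one factorization -/
lemma UU3_core (hADU : Stmt_ADU) (hMXU : Stmt_MXU) (hPAU : Stmt_PAU) (hNUM : Stmt_NUM)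
    (hPRD : Stmt_PRD) (n k : ℕ) (G : Fin k → SimpleGraph (Fin n)) (e : Fin 3 → Fin k)
    (hk : 3 ≤ k) (hkn : (k : ℝ) ^ 3 ≤ 1 / 10 ^ 8 * n) (hS : SitU G e (1 / 1000)) :
    (Odd n → 27 * ∏ l, gammaT (G l) ≤ NN n ^ (k - 3) * (NN n + 12) ^ 3) ∧
    (Even n → ∏ l, gammaT (G l) ≤ NN n ^ (k - 3) * TT (n / 2)) := by
  have hk' : (3 : ℝ) ≤ k := by exact_mod_cast hk
  have hG := hS.sit.fac
  have hinj := hS.sit.inj
  have hnpos := hS.sit.pos
  have hn0 : (0 : ℝ) < n := by exact_mod_cast hnpos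
  obtain ⟨q1, q2, q3, q4⟩ := UU3_num n k hk hkn hn0
  have hn2 : 2 ≤ n := by
    have : (2 : ℝ) ≤ n := by linarith
    exact_mod_cast this
  have hNN := UPF_NN n
  have hgam := fun j => UPF_gam hG j
  have hN0 : 0 < NN n := by omega
  have hN0' : (0 : ℝ) < NN n := by exact_mod_cast hN0
  -- the deficit
  obtain ⟨σ, hσ⟩ : ∃ σ : ℕ, σ = sn G e := ⟨_, rfl⟩
  have hσR : (σ : ℝ) = ∑ l ∈ oth e, ((NN n : ℝ) - gammaT (G l)) := by
    rw [hσ]
    unfold sn
    rw [Nat.cast_sum]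
    exact sum_congr rfl fun l _ => Nat.cast_sub (hgam l)
  have hσ0 : (0 : ℝ) ≤ σ := Nat.cast_nonneg σ
  have hdef : (σ : ℝ) ≤ 1 / 1000 * n := by
    rw [hσ]
    exact hS.def'
  have hRR := UU3_RU n k σ hk hkn hn0 hdef
  have hA := (hADU n k G e _ hS).1
  rw [← hσ] at hA
  have hsg : sg G e = ((gammaT (G (e 0)) + gammaT (G (e 1)) + gammaT (G (e 2)) : ℕ) : ℝ) := by
    unfold sg
    rw [Fin.sum_univ_three]
    push_cast
    rfl
  -- the bound from PRD
  have hP : (∏ l, (gammaT (G l) : ℝ)) ≤ (NN n : ℝ) ^ (k - 3) * ((((n : ℝ) + 12) / 3) ^ 3 *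
      Real.exp (3 * ((1 + (σ : ℝ)) / 100) / n - σ / NN n)) := by
    have h1 := hPRD k n (NN n) (fun l => gammaT (G l)) e ((1 + (σ : ℝ)) / 100) hN0 hNN.1 hinj
      (by positivity) hgam (by
        have h2 : (∑ i, (gammaT (G (e i)) : ℝ)) = sg G e := rfl
        rw [h2]
        linarith)
    rw [← hσR] at h1
    rw [← mul_assoc]
    exact h1
  -- small deficit
  have hsmall : σ ≤ 3 → gammaT (G (e 0)) + gammaT (G (e 1)) + gammaT (G (e 2)) ≤ n + 12 := by
    intro h3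
    have h3' : (σ : ℝ) ≤ 3 := by exact_mod_cast h3
    have h4 : sg G e < n + 13 := by linarith
    rw [hsg] at h4
    have h5 : gammaT (G (e 0)) + gammaT (G (e 1)) + gammaT (G (e 2)) < n + 13 := by
      exact_mod_cast h4
    omega
  have hpar : σ ≤ 3 → gammaT (G (e 0)) + gammaT (G (e 1)) + gammaT (G (e 2)) = n + 12 →
      Even n ∧ ∀ i, Even (gammaT (G (e i))) := by
    intro h3 h4
    have hk2 : (9 : ℝ) ≤ (k : ℝ) ^ 2 := by nlinarith
    have h5 : ExtU G e (1 / 1000) (600 * ((k : ℝ) ^ 2 / n)) := by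
      refine hMXU n k G e (1 / 1000) (600 * ((k : ℝ) ^ 2 / n)) hS (by positivity) (by linarith)
        (UU3_three n k hk hkn hn0) ?_ ?_ (by linarith) (by rw [← hσ]; exact h3) ?_
      · rw [mul_div_assoc', div_le_div_iff_of_pos_right hn0]
        nlinarith
      · have h6 : 6 * (600 * ((k : ℝ) ^ 2 / n)) * (10 + 25 * (k : ℝ)) ≤
            6 * (600 * ((k : ℝ) ^ 2 / n)) * (30 * (k : ℝ)) :=
          mul_le_mul_of_nonneg_left (by linarith) (by positivity)
        have h7 : 6 * (600 * ((k : ℝ) ^ 2 / n)) * (30 * (k : ℝ)) = 108000 * ((k : ℝ) ^ 3 / n) := by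
          ring
        linarith
      · rw [hsg, h4]
        push_cast
        exact le_rfl
    exact hPAU n k G e _ _ h5
  constructor
  · -- odd
    intro hodd
    have hnN : n = NN n + 1 := by
      unfold NN
      obtain ⟨m, hm⟩ := hodd
      omega
    rcases Nat.lt_or_ge σ 4 with h4 | h4
    · have h3 : σ ≤ 3 := by omega
      have h5 := hsmall h3
      have h6 : gammaT (G (e 0)) + gammaT (G (e 1)) + gammaT (G (e 2)) ≠ n + 12 := by
        intro h7
        exact (Nat.not_even_iff_odd.2 hodd) (hpar h3 h7).1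
      have h7 : gammaT (G (e 0)) + gammaT (G (e 1)) + gammaT (G (e 2)) ≤ NN n + 12 := by omega
      have h8 := UPF_prod hG e hinj (B := gammaT (G (e 0)) * gammaT (G (e 1)) * gammaT (G (e 2)))
        le_rfl
      have h9 := UPF_amgm (gammaT (G (e 0))) (gammaT (G (e 1))) (gammaT (G (e 2)))
      have h10 := Nat.pow_le_pow_left h7 3
      calc 27 * ∏ l, gammaT (G l) ≤ 27 * (NN n ^ (k - 3) *
            (gammaT (G (e 0)) * gammaT (G (e 1)) * gammaT (G (e 2)))) :=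
            Nat.mul_le_mul_left 27 h8
        _ = NN n ^ (k - 3) * (27 * (gammaT (G (e 0)) * gammaT (G (e 1)) * gammaT (G (e 2)))) := by
            ring
        _ ≤ NN n ^ (k - 3) * (NN n + 12) ^ 3 := Nat.mul_le_mul_left _ (h9.trans h10)
    · have h5 := UU3_odd n (NN n) σ ((1 + (σ : ℝ)) / 100) hN0' (by exact_mod_cast hnN)
        (by exact_mod_cast h4) le_rfl
      have h6 := mul_le_mul_of_nonneg_left h5
        (by positivity : (0 : ℝ) ≤ (NN n : ℝ) ^ (k - 3))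
      have h7 : (27 : ℝ) * ∏ l, (gammaT (G l) : ℝ) ≤
          (NN n : ℝ) ^ (k - 3) * ((NN n : ℝ) + 12) ^ 3 := by
        have h8 : (NN n : ℝ) ^ (k - 3) * (((NN n : ℝ) + 12) ^ 3 / 27) =
          (NN n : ℝ) ^ (k - 3) * ((NN n : ℝ) + 12) ^ 3 / 27 := by ring
        rw [h8] at h6
        linarith
      exact_mod_cast h7
  · -- even
    intro heven
    obtain ⟨q, hq⟩ := heven
    have hq2 : n / 2 = q := by omega
    have hnN : NN n = n := by
      unfold NN
      omega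
    rw [hq2]
    have hnq : (n : ℝ) = 2 * q := by
      rw [hq]
      push_cast
      ring
    have hT := hNUM.2.1 q
    rcases Nat.eq_zero_or_pos σ with h4 | h4
    · have h3 : σ ≤ 3 := by omega
      have h5 := hsmall h3
      by_cases h6 : gammaT (G (e 0)) + gammaT (G (e 1)) + gammaT (G (e 2)) = n + 12
      · have h7 := (hpar h3 h6).2
        exact UPF_prod hG e hinj (hNUM.1 q _ _ _ (h7 0) (h7 1) (h7 2) (by omega))
      · apply UPF_prod hG e hinj
        have h7 : gammaT (G (e 0)) + gammaT (G (e 1)) + gammaT (G (e 2)) ≤ 2 * q + 11 := by omega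
        have h9 := UPF_amgm (gammaT (G (e 0))) (gammaT (G (e 1))) (gammaT (G (e 2)))
        have h10 := Nat.pow_le_pow_left h7 3
        have h11 : (2 * q + 11) ^ 3 + 24 * (q + 7) ≤ 8 * (q + 6) ^ 3 := by nlinarith
        omega
    · have h4' : (1 : ℝ) ≤ σ := by exact_mod_cast h4
      have hT' : ((n : ℝ) + 12) ^ 3 ≤ 27 * (TT q : ℝ) + 12 * ((n : ℝ) + 14) := by
        have h5 : (8 : ℝ) * ((q : ℝ) + 6) ^ 3 ≤ 27 * (TT q : ℝ) + 24 * ((q : ℝ) + 7) := by
          exact_mod_cast hT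
        rw [hnq]
        nlinarith
      have h5 := UU3_even n (TT q) σ ((1 + (σ : ℝ)) / 100) hn0 h4' le_rfl hT'
      rw [hnN] at hP
      have h6 := mul_le_mul_of_nonneg_left h5
        (by positivity : (0 : ℝ) ≤ (n : ℝ) ^ (k - 3))
      rw [hnN]
      have h7 : (∏ l, (gammaT (G l) : ℝ)) ≤ (n : ℝ) ^ (k - 3) * (TT q : ℝ) := hP.trans h6
      exact_mod_cast h7

theorem stmt_UU3 : Stmt_STU → Stmt_ADU → Stmt_MXU → Stmt_PAU → Stmt_NUM → Stmt_PRD →
    Stmt_UU3 := by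
  intro hSTU hADU hMXU hPAU hNUM hPRD
  obtain ⟨δ, hδ, n1, hn1⟩ := hSTU (1 / 1000) (by norm_num) le_rfl
  refine ⟨min δ (1 / 10 ^ 8), max n1 2, lt_min hδ (by norm_num), ?_⟩
  intro n k hn hk hkn
  have hna : n1 ≤ n := (le_max_left _ _).trans hn
  have hn2 : 2 ≤ n := (le_max_right _ _).trans hn
  have hn0 : (0 : ℝ) < n := by
    have : 0 < n := by omega
    exact_mod_cast this
  have hk' : (3 : ℝ) ≤ k := by exact_mod_cast hk
  have hk8 : (k : ℝ) ^ 3 ≤ 1 / 10 ^ 8 * n :=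
    hkn.trans (mul_le_mul_of_nonneg_right (min_le_right _ _) hn0.le)
  have hkδ : (k : ℝ) ≤ δ * n := by
    have h1 : (k : ℝ) ≤ (k : ℝ) ^ 3 := by nlinarith [sq_nonneg ((k : ℝ) - 1)]
    exact h1.trans (hkn.trans (mul_le_mul_of_nonneg_right (min_le_left _ _) hn0.le))
  have hcore : ∀ G : Fin k → SimpleGraph (Fin n), IsFactorization G →
      (Odd n → 27 * ∏ l, gammaT (G l) ≤ NN n ^ (k - 3) * (NN n + 12) ^ 3) ∧
      (Even n → ∏ l, gammaT (G l) ≤ NN n ^ (k - 3) * TT (n / 2)) := by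
    intro G hG
    rcases le_or_gt (1 / 27 * (NN n : ℝ) ^ k) (∏ j, (gammaT (G j) : ℝ)) with h1 | h1
    · obtain ⟨e, hS⟩ := hn1 n k hna hk hkδ G hG h1
      exact UU3_core hADU hMXU hPAU hNUM hPRD n k G e hk hk8 hS
    · have h2 : 27 * ∏ j, gammaT (G j) ≤ NN n ^ k := by
        have h3 : (27 : ℝ) * ∏ j, (gammaT (G j) : ℝ) ≤ (NN n : ℝ) ^ k := by linarith
        exact_mod_cast h3
      have h3 : NN n ^ k = NN n ^ (k - 3) * NN n ^ 3 := by
        rw [← pow_add]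
        congr 1
        omega
      rw [h3] at h2
      constructor
      · intro _
        refine h2.trans (Nat.mul_le_mul_left _ (Nat.pow_le_pow_left (by omega) 3))
      · intro hev
        obtain ⟨q, hq⟩ := hev
        have hq2 : n / 2 = q := by omega
        have hnN : NN n = 2 * q := by
          unfold NN
          omega
        rw [hq2]
        have hT := hNUM.2.1 q
        have h4 : NN n ^ 3 ≤ 27 * TT q := by
          rw [hnN]
          have h11 : (2 * q) ^ 3 + 24 * (q + 7) ≤ 8 * (q + 6) ^ 3 := by nlinarith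
          omega
        have h5 : 27 * ∏ j, gammaT (G j) ≤ 27 * (NN n ^ (k - 3) * TT q) := by
          calc 27 * ∏ j, gammaT (G j) ≤ NN n ^ (k - 3) * NN n ^ 3 := h2
            _ ≤ NN n ^ (k - 3) * (27 * TT q) := Nat.mul_le_mul_left _ h4
            _ = 27 * (NN n ^ (k - 3) * TT q) := by ring
        exact Nat.le_of_mul_le_mul_left h5 (by norm_num)
  have hE : Even n → P n k ≤ NN n ^ (k - 3) * TT (n / 2) := by
    intro hev
    exact P_le fun G hG => (hcore G hG).2 hev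
  refine ⟨?_, hE⟩
  rcases Nat.even_or_odd n with hev | hodd
  · have h1 := hE hev
    have h2 := hNUM.2.2.1 (n / 2)
    have h3 : NN n + 12 = 2 * (n / 2 + 6) := by
      unfold NN
      ring
    calc 27 * P n k ≤ 27 * (NN n ^ (k - 3) * TT (n / 2)) := Nat.mul_le_mul_left _ h1
      _ = NN n ^ (k - 3) * (27 * TT (n / 2)) := by ring
      _ ≤ NN n ^ (k - 3) * (8 * (n / 2 + 6) ^ 3) := Nat.mul_le_mul_left _ h2
      _ = NN n ^ (k - 3) * (NN n + 12) ^ 3 := by rw [h3]; ring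
  · rcases P_attained n k with h0 | ⟨G, hG, hP⟩
    · rw [h0]
      exact Nat.zero_le _
    · rw [hP]
      exact (hcore G hG).1 hodd

end Pool.Agent.Work.MP_1ce445_fx
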