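import Pool.Agent.Work.MP_1ce445_fx.InterfaceP

namespace Pool.Agent.Work.MP_1ce445_fx

open Finset Pool.Agent.Work.MP_1ce445_co_56 Pool.Agent.Work.MP_1ce445_lin

theorem XCM_fin : ∀ j i : Fin 3, j ≠ i → i = j + 1 ∨ i = j + 2 := by decide

theorem XCM_e1 : ∀ j : Fin 3, j + 1 + 1 = j + 2 := by decide

theorem XCM_e2 : ∀ j : Fin 3, j + 1 + 2 = j := by decide

theorem XCM_e3 : ∀ j : Fin 3, j + 2 + 1 = j := by decide

theorem XCM_e4 : ∀ j : Fin 3, j + 2 + 2 = j + 1 := by decide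

theorem XCM_pow (m : ℕ) (T u : ℝ) (hT : 0 ≤ T) (hu : 0 ≤ u) :
    (T + u) ^ m ≤ 2 ^ m * (T ^ m + u ^ m) := by
  rcases le_total T u with h | h
  · have h1 : (T + u) ^ m ≤ (2 * u) ^ m := pow_le_pow_left₀ (by linarith) (by linarith) m
    rw [mul_pow] at h1
    have h2 : (0 : ℝ) ≤ 2 ^ m * T ^ m := by positivity
    linarith
  · have h1 : (T + u) ^ m ≤ (2 * T) ^ m := pow_le_pow_left₀ (by linarith) (by linarith) m
    rw [mul_pow] at h1
    have h2 : (0 : ℝ) ≤ 2 ^ m * u ^ m := by positivity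
    linarith

theorem XCM_real (m : ℕ) (a b c d T S ε : ℝ) (hm : 2 ≤ m) (hε : 5 * ε ≤ 1) (ha : 0 ≤ a)
    (hb : 0 ≤ b) (hb1 : b ≤ 1) (hc : c ≤ 1)
    (hc5 : 1 - 5 * ε ≤ c) (hd : d ≤ 1) (hT0 : 0 ≤ T) (hT : T = c + a - 1) (hS : T ^ m ≤ S) :
    (a * b) ^ m ≤ 2 ^ m * (S + 5 * ε * ((1 - c) + (1 - d))) := by
  have he : 0 ≤ ε := by linarith
  have hu : 0 ≤ 1 - c := by linarith
  have h1 : (a * b) ^ m ≤ a ^ m := by
    have : a * b ≤ a := by nlinarith
    exact pow_le_pow_left₀ (mul_nonneg ha hb) this m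
  have h2 : a ^ m ≤ 2 ^ m * (T ^ m + (1 - c) ^ m) := by
    have h3 : a = T + (1 - c) := by linarith
    have h4 := XCM_pow m T (1 - c) hT0 hu
    rw [← h3] at h4
    exact h4
  have h3 : (1 - c) ^ m ≤ 5 * ε * (1 - c) := by
    have h4 : (1 - c) ^ m ≤ (1 - c) ^ 2 := pow_le_pow_of_le_one hu (by linarith) hm
    have h5 : (1 - c) ^ 2 ≤ 5 * ε * (1 - c) := by
      nlinarith [mul_nonneg hu (show (0 : ℝ) ≤ 5 * ε - (1 - c) by linarith)]
    linarith
  have h4 : 0 ≤ 5 * ε * (1 - d) := mul_nonneg (by linarith) (by linarith)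
  have h5 : T ^ m + (1 - c) ^ m ≤ S + 5 * ε * ((1 - c) + (1 - d)) := by
    rw [mul_add]
    linarith
  calc (a * b) ^ m ≤ a ^ m := h1
    _ ≤ 2 ^ m * (T ^ m + (1 - c) ^ m) := h2
    _ ≤ _ := mul_le_mul_of_nonneg_left h5 (by positivity)

theorem XCM_am {m n k : ℕ} {G : Fin k → SimpleGraph (Fin n)} {e : Fin 3 → Fin k} {θ ε : ℝ}
    (hm : 2 ≤ m) (hε : 5 * ε ≤ 1)
    (hA : ∀ i j v, 0 ≤ A G e θ i j v ∧ A G e θ i j v ≤ 1)
    (ht : ∀ j v, 0 ≤ ta G e θ j v)
    (i j : Fin 3) (v : Fin n) (hij : j ≠ i)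
    (h1 : 1 - 5 * ε ≤ A G e θ j (j + 1) v) (h2 : 1 - 5 * ε ≤ A G e θ j (j + 2) v) :
    am G e θ m i v ≤ 2 ^ m * (∑ l, ta G e θ l v ^ m +
      5 * ε * ((1 - A G e θ j (j + 1) v) + (1 - A G e θ j (j + 2) v))) := by
  have hs : ∀ l : Fin 3, ta G e θ l v ^ m ≤ ∑ l, ta G e θ l v ^ m := fun l =>
    Finset.single_le_sum (f := fun l => ta G e θ l v ^ m) (fun l _ => pow_nonneg (ht l v) m)
      (Finset.mem_univ l)
  rcases XCM_fin j i hij with rfl | rfl
  · have hT : ta G e θ (j + 2) v = A G e θ j (j + 2) v + A G e θ (j + 1) (j + 2) v - 1 := by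
      unfold ta
      rw [XCM_e3, XCM_e4]
    have h := XCM_real m (A G e θ (j + 1) (j + 2) v) (A G e θ (j + 1) j v) (A G e θ j (j + 2) v)
      (A G e θ j (j + 1) v) (ta G e θ (j + 2) v) (∑ l, ta G e θ l v ^ m) ε hm hε (hA _ _ _).1
      (hA _ _ _).1 (hA _ _ _).2 (hA _ _ _).2 h2 (hA _ _ _).2 (ht _ _) hT (hs _)
    unfold am
    rw [XCM_e1, XCM_e2, add_comm (1 - A G e θ j (j + 1) v)]
    exact h
  · have hT : ta G e θ (j + 1) v = A G e θ j (j + 1) v + A G e θ (j + 2) (j + 1) v - 1 := by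
      unfold ta
      rw [XCM_e1, XCM_e2]
      ring
    have h := XCM_real m (A G e θ (j + 2) (j + 1) v) (A G e θ (j + 2) j v) (A G e θ j (j + 1) v)
      (A G e θ j (j + 2) v) (ta G e θ (j + 1) v) (∑ l, ta G e θ l v ^ m) ε hm hε (hA _ _ _).1
      (hA _ _ _).1 (hA _ _ _).2 (hA _ _ _).2 h1 (hA _ _ _).2 (ht _ _) hT (hs _)
    unfold am
    rw [XCM_e3, XCM_e4, mul_comm (A G e θ (j + 2) j v)]
    exact h

theorem XCM_ne {n k : ℕ} {G : Fin k → SimpleGraph (Fin n)} {e : Fin 3 → Fin k} {θ : ℝ}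
    (hs : Sit G e θ) (i : Fin 3) : (low (G (e i)) θ).Nonempty := by
  rw [← Finset.card_pos]
  have h1 := hs.big i
  have h2 : (0 : ℝ) < n := by exact_mod_cast hs.pos
  have h3 : (0 : ℝ) < ((low (G (e i)) θ).card : ℝ) := by linarith
  exact_mod_cast h3

theorem XCM_emp {n : ℕ} (H : SimpleGraph (Fin n)) : und H ∅ = univ := by
  ext v
  simp [und]

/-- Block XCM. -/
theorem stmt_XCM : Stmt_SPM → Stmt_TAU → Stmt_XCM := by
  intro hSPM hTAU m n k G e θ ε t hE hI
  have hm := hE.m2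
  have hA := (hTAU n k G e θ hE.sit).1
  have hta : ∀ j v, 0 ≤ ta G e θ j v := fun j v => ((hTAU n k G e θ hE.sit).2 j v).1
  have ham1 : ∀ i v, am G e θ m i v ≤ 1 := by
    intro i v
    unfold am
    have h1 := hA i (i + 1) v
    have h2 := hA i (i + 2) v
    exact pow_le_one₀ (mul_nonneg h1.1 h2.1) (mul_le_one₀ h1.2 h2.1 h2.2)
  have he := hE.ep
  have h100 : (2 : ℝ) ^ m ≤ 100 ^ m := pow_le_pow_left₀ (by norm_num) (by norm_num) m
  have h2e : 1000 * (2 ^ m * ε) ≤ 1 := by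
    have h1 : (2 : ℝ) ^ m * ε ≤ 100 ^ m * ε := mul_le_mul_of_nonneg_right h100 he.le
    have h2 := hE.ep'
    linarith
  have he' : ε ≤ 1 / 1000 := by
    have h1 : (1 : ℝ) ≤ 2 ^ m := one_le_pow₀ (by norm_num)
    nlinarith
  -- the outer sum
  have hout : ∀ i, ∑ v ∈ univ.filter (fun v => t v ≠ i), am G e θ m i v ≤ 1 / 4 := by
    intro i
    have h1 : ∀ v ∈ univ.filter (fun v => t v ≠ i), am G e θ m i v ≤
        2 ^ m * (∑ l, ta G e θ l v ^ m +
          5 * ε * ((1 - A G e θ (t v) (t v + 1) v) + (1 - A G e θ (t v) (t v + 2) v))) := by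
      intro v hv
      exact XCM_am hm (by linarith) hA hta i (t v) v (Finset.mem_filter.mp hv).2 (hI.1 v).1
        (hI.1 v).2
    have h2 : ∑ v ∈ univ.filter (fun v => t v ≠ i), (2 ^ m * (∑ l, ta G e θ l v ^ m +
          5 * ε * ((1 - A G e θ (t v) (t v + 1) v) + (1 - A G e θ (t v) (t v + 2) v)))) ≤
        ∑ v, (2 ^ m * (∑ l, ta G e θ l v ^ m +
          5 * ε * ((1 - A G e θ (t v) (t v + 1) v) + (1 - A G e θ (t v) (t v + 2) v)))) := by
      apply Finset.sum_le_sum_of_subset_of_nonneg (Finset.filter_subset _ _)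
      intro v _ _
      have h3 : 0 ≤ ∑ l, ta G e θ l v ^ m :=
        Finset.sum_nonneg (fun l _ => pow_nonneg (hta l v) m)
      have h4 := (hA (t v) (t v + 1) v).2
      have h5 := (hA (t v) (t v + 2) v).2
      have h6 : 0 ≤ 5 * ε *
          ((1 - A G e θ (t v) (t v + 1) v) + (1 - A G e θ (t v) (t v + 2) v)) :=
        mul_nonneg (by linarith) (by linarith)
      exact mul_nonneg (by positivity) (by linarith)
    have h3 : ∑ v, (2 ^ m * (∑ l, ta G e θ l v ^ m +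
          5 * ε * ((1 - A G e θ (t v) (t v + 1) v) + (1 - A G e θ (t v) (t v + 2) v)))) =
        2 ^ m * (∑ v, ∑ l, ta G e θ l v ^ m + 5 * ε *
          ∑ v, ((1 - A G e θ (t v) (t v + 1) v) + (1 - A G e θ (t v) (t v + 2) v))) := by
      rw [← Finset.mul_sum, Finset.sum_add_distrib, Finset.mul_sum]
    have h4 := hE.tsm
    have h5 := hI.2
    have h6 : 5 * ε *
        ∑ v, ((1 - A G e θ (t v) (t v + 1) v) + (1 - A G e θ (t v) (t v + 2) v)) ≤
        5 * ε * (2 * ε) := mul_le_mul_of_nonneg_left h5 (by linarith)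
    have h7 : 5 * ε * (2 * ε) ≤ ε := by nlinarith
    have h8 : 2 ^ m * (∑ v, ∑ l, ta G e θ l v ^ m + 5 * ε *
          ∑ v, ((1 - A G e θ (t v) (t v + 1) v) + (1 - A G e θ (t v) (t v + 2) v))) ≤
        2 ^ m * (ε + ε) := mul_le_mul_of_nonneg_left (by linarith) (by positivity)
    calc ∑ v ∈ univ.filter (fun v => t v ≠ i), am G e θ m i v
        ≤ _ := Finset.sum_le_sum h1
      _ ≤ _ := h2
      _ = _ := h3
      _ ≤ 2 ^ m * (ε + ε) := h8
      _ = 2 * (2 ^ m * ε) := by ring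
      _ ≤ 1 / 4 := by linarith
  -- upper bound
  have hup : ∀ i, gammaT (G (e i)) ≤ (univ.filter (fun v => t v = i)).card + 2 * m := by
    intro i
    have h1 : (gammaT (G (e i)) : ℝ) ≤ 2 * m + ∑ v, am G e θ m i v := by
      have h := hSPM n m (G (e i)) (low (G (e (i + 1))) θ) (low (G (e (i + 2))) θ) ∅
        (fun v => hE.sit.fac.minDeg (e i) v) (XCM_ne hE.sit _) (XCM_ne hE.sit _)
      rw [XCM_emp] at h
      simpa [am, A] using h
    have h2 : ∑ v, am G e θ m i v = ∑ v ∈ univ.filter (fun v => t v = i), am G e θ m i v +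
        ∑ v ∈ univ.filter (fun v => t v ≠ i), am G e θ m i v :=
      (Finset.sum_filter_add_sum_filter_not univ (fun v => t v = i) _).symm
    have h3 : ∑ v ∈ univ.filter (fun v => t v = i), am G e θ m i v ≤
        ((univ.filter (fun v => t v = i)).card : ℝ) := by
      have := Finset.sum_le_card_nsmul (univ.filter (fun v => t v = i))
        (fun v => am G e θ m i v) 1 (fun v _ => ham1 i v)
      simpa using this
    have h4 := hout i
    have h5 : (gammaT (G (e i)) : ℝ) <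
        (((univ.filter (fun v => t v = i)).card + 2 * m + 1 : ℕ) : ℝ) := by
      push_cast
      linarith
    have h6 : gammaT (G (e i)) < (univ.filter (fun v => t v = i)).card + 2 * m + 1 := by
      exact_mod_cast h5
    omega
  -- sizes
  have hcard : ∑ i : Fin 3, (univ.filter (fun v => t v = i)).card = n := by
    have h := Finset.card_eq_sum_card_fiberwise (s := (univ : Finset (Fin n)))
      (t := (univ : Finset (Fin 3))) (f := t) (fun v _ => Finset.mem_coe.mpr (Finset.mem_univ _))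
    rw [Finset.card_univ, Fintype.card_fin] at h
    exact h.symm
  have hsum := hE.sum
  have hsum' : n + 6 * m ≤ ∑ i : Fin 3, gammaT (G (e i)) := by
    unfold sg at hsum
    exact_mod_cast hsum
  rw [Fin.sum_univ_three] at hcard hsum'
  have u0 := hup 0
  have u1 := hup 1
  have u2 := hup 2
  intro i
  refine ⟨?_, (hout i).trans (by norm_num)⟩
  fin_cases i
  · show gammaT (G (e 0)) = (univ.filter (fun v => t v = 0)).card + 2 * m
    omega
  · show gammaT (G (e 1)) = (univ.filter (fun v => t v = 1)).card + 2 * m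
    omega
  · show gammaT (G (e 2)) = (univ.filter (fun v => t v = 2)).card + 2 * m
    omega

end Pool.Agent.Work.MP_1ce445_fx
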