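import Pool.Agent.Work.MP_1ce445_fx.InterfaceU
import Pool.Agent.Work.MP_1ce445_fx.XCA

namespace Pool.Agent.Work.MP_1ce445_fx

open Finset Pool.Agent.Work.MP_1ce445_co_56 Pool.Agent.Work.MP_1ce445_lin

/-- Block XCU. -/
theorem stmt_XCU : Stmt_TAU → Stmt_SUM → Stmt_XCU := by
  intro hTAU hSUM n k G e θ ε t hE hI
  have hA := (hTAU n k G e θ hE.sit).1
  have hal1 : ∀ i v, al G e θ i v ≤ 1 := by
    intro i v
    unfold al
    have h1 := hA i (i + 1) v
    have h2 := hA i (i + 2) v
    exact pow_le_one₀ (mul_nonneg h1.1 h2.1) (mul_le_one₀ h1.2 h2.1 h2.2)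
  have he := hE.ep
  have he' := hE.ep'
  -- the outer sum
  have hout : ∀ i, ∑ v ∈ univ.filter (fun v => t v ≠ i), al G e θ i v ≤ 1 / 4 := by
    intro i
    have h1 : ∀ v ∈ univ.filter (fun v => t v ≠ i), al G e θ i v ≤
        2 * ∑ m, ta G e θ m v ^ 2 +
          10 * ε * ((1 - A G e θ (t v) (t v + 1) v) + (1 - A G e θ (t v) (t v + 2) v)) := by
      intro v hv
      exact XCA_al hA i (t v) v (Finset.mem_filter.mp hv).2 (hI.1 v).1 (hI.1 v).2
    have h2 : ∑ v ∈ univ.filter (fun v => t v ≠ i), (2 * ∑ m, ta G e θ m v ^ 2 +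
          10 * ε * ((1 - A G e θ (t v) (t v + 1) v) + (1 - A G e θ (t v) (t v + 2) v))) ≤
        ∑ v, (2 * ∑ m, ta G e θ m v ^ 2 +
          10 * ε * ((1 - A G e θ (t v) (t v + 1) v) + (1 - A G e θ (t v) (t v + 2) v))) := by
      apply Finset.sum_le_sum_of_subset_of_nonneg (Finset.filter_subset _ _)
      intro v _ _
      have h3 : 0 ≤ ∑ m, ta G e θ m v ^ 2 := Finset.sum_nonneg (fun _ _ => sq_nonneg _)
      have h4 := (hA (t v) (t v + 1) v).2
      have h5 := (hA (t v) (t v + 2) v).2
      have h6 : 0 ≤ 10 * ε *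
          ((1 - A G e θ (t v) (t v + 1) v) + (1 - A G e θ (t v) (t v + 2) v)) :=
        mul_nonneg (by linarith) (by linarith)
      linarith
    have h3 : ∑ v, (2 * ∑ m, ta G e θ m v ^ 2 +
          10 * ε * ((1 - A G e θ (t v) (t v + 1) v) + (1 - A G e θ (t v) (t v + 2) v))) =
        2 * ∑ v, ∑ m, ta G e θ m v ^ 2 + 10 * ε *
          ∑ v, ((1 - A G e θ (t v) (t v + 1) v) + (1 - A G e θ (t v) (t v + 2) v)) := by
      rw [Finset.sum_add_distrib, Finset.mul_sum, Finset.mul_sum]
    have h4 := hE.tsq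
    have h5 := hI.2
    have h6 : 10 * ε *
        ∑ v, ((1 - A G e θ (t v) (t v + 1) v) + (1 - A G e θ (t v) (t v + 2) v)) ≤
        10 * ε * (2 * ε) := mul_le_mul_of_nonneg_left h5 (by linarith)
    have h7 : 10 * ε * (2 * ε) ≤ 1 / 8 := by nlinarith
    calc ∑ v ∈ univ.filter (fun v => t v ≠ i), al G e θ i v
        ≤ _ := Finset.sum_le_sum h1
      _ ≤ _ := h2
      _ = _ := h3
      _ ≤ 1 / 4 := by linarith
  -- upper bound
  have hup : ∀ i, gammaT (G (e i)) ≤ (univ.filter (fun v => t v = i)).card + 4 := by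
    intro i
    have h1 := (hSUM n k G e θ hE.sit).2.1 i
    have h2 : ∑ v, al G e θ i v = ∑ v ∈ univ.filter (fun v => t v = i), al G e θ i v +
        ∑ v ∈ univ.filter (fun v => t v ≠ i), al G e θ i v :=
      (Finset.sum_filter_add_sum_filter_not univ (fun v => t v = i) _).symm
    have h3 : ∑ v ∈ univ.filter (fun v => t v = i), al G e θ i v ≤
        ((univ.filter (fun v => t v = i)).card : ℝ) := by
      have := Finset.sum_le_card_nsmul (univ.filter (fun v => t v = i))
        (fun v => al G e θ i v) 1 (fun v _ => hal1 i v)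
      simpa using this
    have h4 := hout i
    have h5 : (gammaT (G (e i)) : ℝ) <
        (((univ.filter (fun v => t v = i)).card + 4 + 1 : ℕ) : ℝ) := by
      push_cast
      linarith
    have h6 : gammaT (G (e i)) < (univ.filter (fun v => t v = i)).card + 4 + 1 := by
      exact_mod_cast h5
    omega
  -- sizes
  have hcard : ∑ i : Fin 3, (univ.filter (fun v => t v = i)).card = n := by
    have h := Finset.card_eq_sum_card_fiberwise (s := (univ : Finset (Fin n)))
      (t := (univ : Finset (Fin 3))) (f := t) (fun v _ => Finset.mem_coe.mpr (Finset.mem_univ _))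
    rw [Finset.card_univ, Fintype.card_fin] at h
    exact h.symm
  have hsum := hE.sum
  have hsum' : n + 12 ≤ ∑ i : Fin 3, gammaT (G (e i)) := by
    unfold sg at hsum
    exact_mod_cast hsum
  rw [Fin.sum_univ_three] at hcard hsum'
  have u0 := hup 0
  have u1 := hup 1
  have u2 := hup 2
  intro i
  refine ⟨?_, (hout i).trans (by norm_num)⟩
  fin_cases i
  · show gammaT (G (e 0)) = (univ.filter (fun v => t v = 0)).card + 4
    omega
  · show gammaT (G (e 1)) = (univ.filter (fun v => t v = 1)).card + 4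
    omega
  · show gammaT (G (e 2)) = (univ.filter (fun v => t v = 2)).card + 4
    omega

end Pool.Agent.Work.MP_1ce445_fx
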