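import Pool.Agent.Work.MP_1ce445_fx.InterfaceP

/-!
Block YXM of THEOREM FixedK, fourth phase: the types are the memberships in the sets `Y_m`.
-/

namespace Pool.Agent.Work.MP_1ce445_fx

open Finset Pool.Agent.Work.MP_1ce445_co_56 Pool.Agent.Work.MP_1ce445_lin

lemma YXM_mono {n : ℕ} (H : SimpleGraph (Fin n)) (Y : Finset (Fin n)) (v : Fin n) :
    dg H Y v ≤ dg H univ v := by
  classical
  exact card_le_card (filter_subset_filter _ (subset_univ _))

lemma YXM_fin : ∀ i j : Fin 3, i = j ∨ i = j + 1 ∨ i = j + 2 := by decide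

lemma YXM_a1 : ∀ i : Fin 3, i + 2 + 1 = i := by decide

lemma YXM_a2 : ∀ i : Fin 3, i + 2 + 2 = i + 1 := by decide

lemma YXM_a3 : ∀ i : Fin 3, i + 1 + 1 = i + 2 := by decide

lemma YXM_a4 : ∀ i : Fin 3, i + 1 + 2 = i := by decide

/-- the degree is the sum over the parts -/
lemma YXM_split {n : ℕ} (H : SimpleGraph (Fin n)) (Y : Fin 3 → Finset (Fin n)) (v : Fin n)
    (m : Fin 3) :
    dg H univ v ≤ dg H (Y m) v + dg H (Y (m + 1)) v + dg H (Y (m + 2)) v +
      (univ.filter (fun v => ∀ i, v ∉ Y i)).card := by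
  classical
  have hs : univ.filter (fun w => H.Adj v w) ⊆
      (((Y m).filter (fun w => H.Adj v w) ∪ (Y (m + 1)).filter (fun w => H.Adj v w)) ∪
        (Y (m + 2)).filter (fun w => H.Adj v w)) ∪ univ.filter (fun v => ∀ i, v ∉ Y i) := by
    intro w hw
    have hw' : H.Adj v w := (mem_filter.1 hw).2
    by_cases hY : ∀ i, w ∉ Y i
    · exact mem_union_right _ (mem_filter.2 ⟨mem_univ _, hY⟩)
    · push Not at hY
      obtain ⟨i, hi⟩ := hY
      apply mem_union_left
      rcases YXM_fin i m with rfl | rfl | rfl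
      · exact mem_union_left _ (mem_union_left _ (mem_filter.2 ⟨hi, hw'⟩))
      · exact mem_union_left _ (mem_union_right _ (mem_filter.2 ⟨hi, hw'⟩))
      · exact mem_union_right _ (mem_filter.2 ⟨hi, hw'⟩)
  have h1 := card_le_card hs
  have h2 := card_union_le
    (((Y m).filter (fun w => H.Adj v w) ∪ (Y (m + 1)).filter (fun w => H.Adj v w)) ∪
      (Y (m + 2)).filter (fun w => H.Adj v w)) (univ.filter (fun v => ∀ i, v ∉ Y i))
  have h3 := card_union_le
    ((Y m).filter (fun w => H.Adj v w) ∪ (Y (m + 1)).filter (fun w => H.Adj v w))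
    ((Y (m + 2)).filter (fun w => H.Adj v w))
  have h4 := card_union_le ((Y m).filter (fun w => H.Adj v w))
    ((Y (m + 1)).filter (fun w => H.Adj v w))
  unfold dg
  omega

theorem stmt_YXM (_h1 : Stmt_TAU) : Stmt_YXM := by
  intro m' n k G e θ ε t hE hT u m
  have hS := hE.sit
  have hn : (0:ℝ) < n := by exact_mod_cast hS.pos
  have hθ := hS.th
  have hθ' := hS.th'
  have hε := hE.ep
  have hε' : ε ≤ 1 / 1000 := by
    have h1 := hE.ep'
    have h2 : (1:ℝ) ≤ 100 ^ m' := one_le_pow₀ (by norm_num)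
    have h3 : 1000 * 1 * ε ≤ 1000 * 100 ^ m' * ε :=
      mul_le_mul_of_nonneg_right (mul_le_mul_of_nonneg_left h2 (by norm_num)) hε.le
    linarith
  have hYpos : ∀ i, (0:ℝ) < ((low (G (e i)) θ).card : ℝ) := fun i =>
    lt_of_lt_of_le (by positivity) (hS.big i)
  have hYle : ∀ i, ((low (G (e i)) θ).card : ℝ) ≤ n := by
    intro i
    have h := card_le_univ (low (G (e i)) θ)
    rw [Fintype.card_fin] at h
    exact_mod_cast h
  -- elements of `Y_m` have few neighbours in the colour `e m`
  have hA : ∀ m u, u ∈ low (G (e m)) θ → ∀ j, 1 - 5 * θ ≤ A G e θ m j u := by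
    intro m u hu j
    have h1 : (dg (G (e m)) univ u : ℝ) < θ * n := (mem_filter.1 hu).2
    have h2 : (dg (G (e m)) (low (G (e j)) θ) u : ℝ) ≤ dg (G (e m)) univ u := by
      exact_mod_cast YXM_mono _ _ _
    have h3 := hS.big j
    have h4 : (dg (G (e m)) (low (G (e j)) θ) u : ℝ) / ((low (G (e j)) θ).card : ℝ) ≤ 5 * θ := by
      rw [div_le_iff₀ (hYpos j)]
      nlinarith
    unfold A nf
    linarith
  have hsm : ∀ i v, ta G e θ i v ≤ 1 / 1000 := fun i v =>
    (hE.tau i v).trans (hE.tau'.trans hε')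
  have key : ∀ m u, u ∈ low (G (e m)) θ → t u = m := by
    intro m u hu
    have hT1 := hT.1 u
    generalize hi : t u = i at hT1
    rcases YXM_fin m i with h | h | h
    · exact h.symm
    · exfalso
      have h2 := hsm (i + 2) u
      have h3 := hA m u hu (i + 2)
      have h4 := hT1.2
      unfold ta at h2
      rw [YXM_a1, YXM_a2, ← h] at h2
      linarith
    · exfalso
      have h2 := hsm (i + 1) u
      have h3 := hA m u hu (i + 1)
      have h4 := hT1.1
      unfold ta at h2
      rw [YXM_a3, YXM_a4, ← h] at h2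
      linarith
  constructor
  · intro htu
    by_contra hu
    have hno : ∀ i, u ∉ low (G (e i)) θ := by
      intro i hi
      have h := key i u hi
      rw [htu] at h
      rw [← h] at hi
      exact hu hi
    have h1 : θ * n ≤ (dg (G (e m)) univ u : ℝ) := by
      by_contra hcon
      push Not at hcon
      exact hu (mem_filter.2 ⟨mem_univ _, hcon⟩)
    have h2 := YXM_split (G (e m)) (fun i => low (G (e i)) θ) u m
    have h2' : (dg (G (e m)) univ u : ℝ) ≤ dg (G (e m)) (low (G (e m)) θ) u +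
        dg (G (e m)) (low (G (e (m + 1))) θ) u + dg (G (e m)) (low (G (e (m + 2))) θ) u +
        ((univ.filter (fun v => ∀ i, v ∉ low (G (e i)) θ)).card : ℝ) := by
      exact_mod_cast h2
    have h3 : (dg (G (e m)) (low (G (e m)) θ) u : ℝ) ≤ 1 := by
      exact_mod_cast hE.one m u
    have hT1 := hT.1 u
    rw [htu] at hT1
    have h4 : ∀ j, 1 - 5 * ε ≤ A G e θ m j u →
        (dg (G (e m)) (low (G (e j)) θ) u : ℝ) ≤ 5 * ε * n := by
      intro j hj
      unfold A nf at hj
      have h5 : (dg (G (e m)) (low (G (e j)) θ) u : ℝ) / ((low (G (e j)) θ).card : ℝ) ≤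
          5 * ε := by linarith
      rw [div_le_iff₀ (hYpos j)] at h5
      exact h5.trans (mul_le_mul_of_nonneg_left (hYle j) (by positivity))
    have h5 := h4 (m + 1) hT1.1
    have h6 := h4 (m + 2) hT1.2
    have h7 := hE.rst
    have h8 := hE.sth
    have h9 := hE.tau'
    have hk : (0:ℝ) ≤ k := Nat.cast_nonneg _
    rw [div_le_iff₀ hn] at h9
    have h10 : 40 * ε * n ≤ θ * n := mul_le_mul_of_nonneg_right h8 hn.le
    nlinarith
  · exact fun hu => key m u hu

end Pool.Agent.Work.MP_1ce445_fx
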